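import Pool.Agent.helper31.EQB.Cert.FBP

/-!
Generated certificates.
-/

namespace Pool.Agent.helper31.EQB.Cert.FB

open Pool.Agent.helper31.IA (Z Op)
open Pool.Agent.helper31.IC

mutual
theorem c0_m0_t0 : CovD 0 progs [(42949672960, 42949672960), (27487797248, 27487797248), (863556468736, 863556468736)] :=
  Pool.Agent.helper14.QF.covD_F chks_eq (.n 1 (.n 1 (.l 0) (.n 1 (.l 0) (.l 0))) (.n 1 (.n 2 (.l 0) (.n 0 (.l 0) (.l 0))) (.n 0 (.n 2 (.l 0) (.l 0)) (.n 2 (.l 0) (.l 0)))))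
    [(42949672960, 42949672960), (27487797248, 27487797248), (863556468736, 863556468736)] rfl (by decide +kernel)
theorem c0_m0_t1 : CovD 0 progs [(42949672960, 42949672960), (82463391744, 27487797248), (863556468736, 863556468736)] :=
  Pool.Agent.helper14.QF.covD_F chks_eq (.n 1 (.n 2 (.n 0 (.n 2 (.l 0) (.l 0)) (.n 2 (.l 0) (.l 0))) (.n 2 (.n 0 (.l 0) (.l 0)) (.l 0))) (.n 2 (.n 0 (.n 0 (.n 2 (.l 0) (.l 0)) (.n 2 (.l 0) (.l 0))) (.n 2 (.l 0) (.l 0))) (.n 2 (.n 0 (.l 0) (.l 0)) (.l 0))))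
    [(42949672960, 42949672960), (82463391744, 27487797248), (863556468736, 863556468736)] rfl (by decide +kernel)
end
mutual
theorem c0_m0_t3 : CovD 0 progs [(128849018880, 42949672960), (54975594496, 54975594496), (863556468736, 863556468736)] :=
  Pool.Agent.helper14.QF.covD_F chks_eq (.n 1 (.n 1 (.n 1 (.l 0) (.n 1 (.l 0) (.l 0))) (.n 1 (.n 2 (.l 0) (.l 0)) (.n 2 (.l 0) (.l 0)))) (.n 1 (.n 1 (.n 2 (.l 1) (.l 0)) (.n 2 (.n 0 (.l 0) (.l 0)) (.l 0))) (.n 2 (.n 2 (.l 0) (.l 0)) (.n 1 (.l 0) (.l 0)))))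
    [(128849018880, 42949672960), (54975594496, 54975594496), (863556468736, 863556468736)] rfl (by decide +kernel)
theorem c0_m0_t5 : CovD 0 progs [(257698037760, 85899345920), (54975594496, 54975594496), (863556468736, 863556468736)] :=
  Pool.Agent.helper14.QF.covD_F chks_eq (.n 0 (.n 1 (.n 1 (.n 1 (.l 0) (.n 0 (.l 0) (.l 0))) (.n 1 (.n 1 (.l 0) (.l 0)) (.n 1 (.l 0) (.l 0)))) (.n 1 (.n 0 (.n 2 (.l 0) (.l 1)) (.n 2 (.l 0) (.l 0))) (.n 2 (.l 1) (.l 1)))) (.n 1 (.n 1 (.n 1 (.n 0 (.l 0) (.l 0)) (.l 0)) (.n 1 (.l 0) (.l 0))) (.n 1 (.n 1 (.l 0) (.l 0)) (.n 1 (.l 1) (.l 1)))))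
    [(257698037760, 85899345920), (54975594496, 54975594496), (863556468736, 863556468736)] rfl (by decide +kernel)
end
mutual
theorem c0_m0_t7 : CovD 0 progs [(515396075520, 171798691840), (54975594496, 54975594496), (863556468736, 863556468736)] :=
  Pool.Agent.helper14.QF.covD_F chks_eq (.n 0 (.n 1 (.n 1 (.n 1 (.n 1 (.l 0) (.l 0)) (.n 0 (.l 0) (.l 0))) (.n 1 (.l 0) (.l 0))) (.n 1 (.n 1 (.l 0) (.l 0)) (.n 1 (.l 0) (.l 0)))) (.n 1 (.n 1 (.n 1 (.n 1 (.n 0 (.l 0) (.l 0)) (.l 0)) (.l 0)) (.n 0 (.l 0) (.l 0))) (.n 1 (.l 0) (.l 0))))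
    [(515396075520, 171798691840), (54975594496, 54975594496), (863556468736, 863556468736)] rfl (by decide +kernel)
theorem c1_m0_t0 : CovD 0 progs [(85899345920, 85899345920), (54975594496, 54975594496), (2590669275136, 863556468736)] :=
  Pool.Agent.helper14.QF.covD_F chks_eq (.n 1 (.n 1 (.n 1 (.n 1 (.l 0) (.l 0)) (.n 1 (.n 0 (.l 0) (.l 0)) (.n 1 (.l 0) (.l 0)))) (.n 1 (.n 0 (.n 2 (.l 0) (.l 0)) (.n 1 (.l 0) (.l 0))) (.n 2 (.n 0 (.l 0) (.l 0)) (.l 0)))) (.n 1 (.n 1 (.n 2 (.n 0 (.l 0) (.l 0)) (.l 0)) (.n 2 (.l 0) (.l 0))) (.n 2 (.n 1 (.l 0) (.l 0)) (.l 0))))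
    [(85899345920, 85899345920), (54975594496, 54975594496), (2590669275136, 863556468736)] rfl (by decide +kernel)
end
mutual
theorem c1_m0_t1 : CovD 0 progs [(257698037760, 85899345920), (54975594496, 54975594496), (2590669275136, 863556468736)] :=
  Pool.Agent.helper14.QF.covD_F chks_eq (.n 0 (.n 1 (.n 1 (.n 1 (.n 1 (.l 0) (.l 0)) (.n 1 (.l 0) (.l 0))) (.n 1 (.n 1 (.l 0) (.l 0)) (.n 1 (.l 0) (.l 0)))) (.n 1 (.n 2 (.n 0 (.l 0) (.l 0)) (.l 0)) (.n 1 (.l 1) (.l 0)))) (.n 1 (.n 1 (.n 1 (.n 1 (.l 0) (.l 0)) (.n 1 (.l 0) (.l 0))) (.n 1 (.n 0 (.l 0) (.l 0)) (.l 0))) (.n 1 (.n 1 (.l 0) (.l 0)) (.n 1 (.l 0) (.l 0)))))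
    [(257698037760, 85899345920), (54975594496, 54975594496), (2590669275136, 863556468736)] rfl (by decide +kernel)
theorem c1_m0_t3 : CovD 0 progs [(515396075520, 171798691840), (54975594496, 54975594496), (2590669275136, 863556468736)] :=
  Pool.Agent.helper14.QF.covD_F chks_eq (.n 0 (.n 1 (.n 1 (.n 1 (.n 1 (.n 0 (.l 0) (.l 0)) (.l 0)) (.n 1 (.l 0) (.l 0))) (.n 1 (.n 0 (.l 0) (.l 0)) (.l 0))) (.n 1 (.n 1 (.l 0) (.l 0)) (.n 1 (.l 0) (.l 0)))) (.n 1 (.n 1 (.n 1 (.n 1 (.n 0 (.l 0) (.l 0)) (.l 0)) (.n 0 (.l 0) (.l 0))) (.n 1 (.l 0) (.l 0))) (.n 1 (.n 0 (.l 0) (.l 0)) (.l 0))))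
    [(515396075520, 171798691840), (54975594496, 54975594496), (2590669275136, 863556468736)] rfl (by decide +kernel)
end
mutual
theorem c2_m0_t0 : CovD 0 progs [(42949672960, 42949672960), (137438953472, 27487830016), (863556468736, 863556468736)] :=
  Pool.Agent.helper14.QF.covD_F chks_eq (.n 1 (.n 2 (.n 0 (.n 2 (.n 2 (.l 0) (.l 0)) (.n 1 (.l 0) (.l 0))) (.n 2 (.l 0) (.l 0))) (.n 2 (.l 0) (.l 0))) (.n 2 (.n 0 (.n 2 (.n 2 (.l 0) (.l 0)) (.n 1 (.l 0) (.l 0))) (.n 2 (.l 1) (.l 0))) (.n 2 (.l 0) (.l 0))))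
    [(42949672960, 42949672960), (137438953472, 27487830016), (863556468736, 863556468736)] rfl (by decide +kernel)
theorem c2_m0_t1 : CovD 0 progs [(42949672960, 42949672960), (192414613504, 27487830016), (863556468736, 863556468736)] :=
  Pool.Agent.helper14.QF.covD_F chks_eq (.n 2 (.n 2 (.n 2 (.n 0 (.n 0 (.n 0 (.l 0) (.l 0)) (.l 0)) (.l 0)) (.n 0 (.n 1 (.l 0) (.l 0)) (.l 0))) (.n 0 (.n 2 (.l 0) (.l 0)) (.n 1 (.l 0) (.l 0)))) (.n 2 (.n 1 (.l 0) (.l 0)) (.l 0)))
    [(42949672960, 42949672960), (192414613504, 27487830016), (863556468736, 863556468736)] rfl (by decide +kernel)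
end
mutual
theorem c2_m0_t3 : CovD 0 progs [(128849018880, 42949672960), (164926783488, 54975660032), (863556468736, 863556468736)] :=
  Pool.Agent.helper14.QF.covD_F chks_eq (.n 1 (.n 1 (.n 2 (.n 2 (.l 0) (.l 0)) (.n 1 (.l 0) (.l 0))) (.n 2 (.n 2 (.l 0) (.l 0)) (.n 0 (.l 1) (.l 0)))) (.n 2 (.n 0 (.n 2 (.l 0) (.l 1)) (.n 1 (.l 1) (.l 1))) (.n 2 (.l 0) (.l 0))))
    [(128849018880, 42949672960), (164926783488, 54975660032), (863556468736, 863556468736)] rfl (by decide +kernel)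
theorem c2_m0_t5 : CovD 0 progs [(257698037760, 85899345920), (164926783488, 54975660032), (863556468736, 863556468736)] :=
  Pool.Agent.helper14.QF.covD_F chks_eq (.n 0 (.n 1 (.n 1 (.n 2 (.l 0) (.l 0)) (.n 2 (.l 0) (.l 0))) (.n 1 (.n 2 (.l 0) (.l 0)) (.n 2 (.l 0) (.l 0)))) (.n 1 (.n 0 (.n 2 (.l 0) (.l 1)) (.n 2 (.l 0) (.l 0))) (.n 2 (.l 0) (.l 0))))
    [(257698037760, 85899345920), (164926783488, 54975660032), (863556468736, 863556468736)] rfl (by decide +kernel)
end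
mutual
theorem c2_m0_t7 : CovD 0 progs [(515396075520, 171798691840), (164926783488, 54975660032), (863556468736, 863556468736)] :=
  Pool.Agent.helper14.QF.covD_F chks_eq (.n 0 (.n 1 (.n 0 (.n 2 (.l 0) (.l 0)) (.n 1 (.l 0) (.l 0))) (.n 1 (.n 2 (.l 0) (.l 0)) (.n 0 (.n 0 (.l 1) (.l 0)) (.n 0 (.l 0) (.l 2))))) (.n 1 (.n 1 (.l 0) (.l 0)) (.n 0 (.n 0 (.n 1 (.l 0) (.l 2)) (.l 2)) (.l 2))))
    [(515396075520, 171798691840), (164926783488, 54975660032), (863556468736, 863556468736)] rfl (by decide +kernel)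
theorem c3_m0_t0 : CovD 0 progs [(171798691840, 171798691840), (164926783488, 54975660032), (2590669275136, 863556468736)] :=
  Pool.Agent.helper14.QF.covD_F chks_eq (.n 0 (.n 1 (.n 1 (.n 2 (.n 0 (.l 0) (.l 0)) (.l 0)) (.n 2 (.l 0) (.l 0))) (.n 2 (.n 1 (.l 0) (.l 0)) (.l 0))) (.n 1 (.n 1 (.n 2 (.l 0) (.l 0)) (.n 2 (.l 0) (.l 0))) (.n 2 (.n 0 (.l 0) (.l 0)) (.l 0))))
    [(171798691840, 171798691840), (164926783488, 54975660032), (2590669275136, 863556468736)] rfl (by decide +kernel)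
end
mutual
theorem c3_m0_t1 : CovD 0 progs [(515396075520, 171798691840), (137438953472, 27487830016), (2590669275136, 863556468736)] :=
  Pool.Agent.helper14.QF.covD_F chks_eq (.n 0 (.n 0 (.n 1 (.l 0) (.l 0)) (.n 1 (.l 0) (.l 0))) (.n 1 (.l 0) (.n 0 (.n 0 (.l 0) (.n 0 (.l 0) (.n 1 (.l 0) (.l 2)))) (.n 0 (.n 1 (.l 0) (.l 2)) (.l 2)))))
    [(515396075520, 171798691840), (137438953472, 27487830016), (2590669275136, 863556468736)] rfl (by decide +kernel)
theorem c3_m0_t2 : CovD 0 progs [(515396075520, 171798691840), (178670698496, 13743915008), (2590669275136, 863556468736)] :=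
  Pool.Agent.helper14.QF.covD_F chks_eq (.n 0 (.n 0 (.l 0) (.n 1 (.l 0) (.n 0 (.l 0) (.n 0 (.n 1 (.l 0) (.l 2)) (.l 2))))) (.n 0 (.n 0 (.n 0 (.n 1 (.l 0) (.l 2)) (.l 2)) (.l 2)) (.l 2)))
    [(515396075520, 171798691840), (178670698496, 13743915008), (2590669275136, 863556468736)] rfl (by decide +kernel)
end
mutual
theorem c3_m0_t3 : CovD 0 progs [(515396075520, 171798691840), (206158528512, 13743915008), (2590669275136, 863556468736)] :=
  Pool.Agent.helper14.QF.covD_F chks_eq (.n 0 (.n 0 (.n 2 (.l 0) (.n 0 (.l 0) (.n 1 (.l 0) (.n 2 (.l 0) (.n 1 (.n 0 (.l 0) (.n 0 (.l 0) (.l 2))) (.n 0 (.n 0 (.l 0) (.n 0 (.l 0) (.l 2))) (.l 2))))))) (.n 0 (.n 0 (.n 1 (.n 1 (.l 0) (.l 2)) (.l 2)) (.l 2)) (.l 2))) (.l 2))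
    [(515396075520, 171798691840), (206158528512, 13743915008), (2590669275136, 863556468736)] rfl (by decide +kernel)
theorem c4_m0_t0 : CovD 0 progs [(1030792151040, 343597383680), (27487797248, 27487797248), (863556468736, 863556468736)] :=
  Pool.Agent.helper14.QF.covD_F chks_eq (.n 1 (.n 1 (.n 0 (.n 1 (.n 1 (.n 0 (.l 0) (.l 0)) (.l 0)) (.l 0)) (.n 1 (.n 1 (.n 1 (.l 0) (.l 0)) (.l 0)) (.l 0))) (.n 0 (.n 0 (.l 0) (.l 0)) (.l 0))) (.n 0 (.n 0 (.l 0) (.l 0)) (.n 0 (.l 0) (.l 0))))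
    [(1030792151040, 343597383680), (27487797248, 27487797248), (863556468736, 863556468736)] rfl (by decide +kernel)
end
mutual
theorem c4_m0_t1 : CovD 0 progs [(858993459200, 171798691840), (82463391744, 27487797248), (863556468736, 863556468736)] :=
  Pool.Agent.helper14.QF.covD_F chks_eq (.n 0 (.n 1 (.l 0) (.l 0)) (.n 0 (.l 0) (.n 1 (.l 0) (.n 1 (.l 0) (.l 2)))))
    [(858993459200, 171798691840), (82463391744, 27487797248), (863556468736, 863556468736)] rfl (by decide +kernel)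
theorem c4_m0_t2 : CovD 0 progs [(1116691496960, 85899345920), (82463391744, 27487797248), (863556468736, 863556468736)] :=
  Pool.Agent.helper14.QF.covD_F chks_eq (.n 0 (.n 1 (.l 0) (.n 0 (.n 0 (.n 1 (.l 0) (.l 2)) (.l 2)) (.l 2))) (.n 1 (.n 0 (.l 0) (.n 1 (.l 0) (.n 1 (.l 0) (.l 2)))) (.l 2)))
    [(1116691496960, 85899345920), (82463391744, 27487797248), (863556468736, 863556468736)] rfl (by decide +kernel)
end
mutual
theorem c4_m0_t3 : CovD 0 progs [(1288490188800, 85899345920), (82463391744, 27487797248), (863556468736, 863556468736)] :=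
  Pool.Agent.helper14.QF.covD_F chks_eq (.n 0 (.n 1 (.n 1 (.l 0) (.n 1 (.n 1 (.n 0 (.l 0) (.l 2)) (.l 2)) (.l 2))) (.l 2)) (.n 1 (.n 1 (.n 0 (.n 1 (.l 0) (.n 1 (.l 0) (.n 1 (.n 1 (.l 0) (.n 0 (.l 0) (.l 2))) (.l 2)))) (.n 1 (.l 0) (.n 1 (.n 1 (.n 0 (.l 0) (.l 3)) (.n 1 (.n 0 (.l 0) (.l 2)) (.l 2))) (.l 2)))) (.l 2)) (.l 2)))
    [(1288490188800, 85899345920), (82463391744, 27487797248), (863556468736, 863556468736)] rfl (by decide +kernel)
theorem c5_m0_t0 : CovD 0 progs [(1030792151040, 343597383680), (27487797248, 27487797248), (2590669275136, 863556468736)] :=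
  Pool.Agent.helper14.QF.covD_F chks_eq (.n 1 (.n 1 (.n 0 (.n 1 (.n 1 (.n 0 (.l 0) (.l 0)) (.l 0)) (.l 0)) (.n 1 (.n 1 (.n 1 (.l 0) (.l 0)) (.l 0)) (.l 0))) (.n 0 (.n 0 (.l 0) (.l 0)) (.l 0))) (.n 0 (.n 1 (.l 0) (.l 0)) (.n 0 (.l 0) (.l 0))))
    [(1030792151040, 343597383680), (27487797248, 27487797248), (2590669275136, 863556468736)] rfl (by decide +kernel)
end
mutual
theorem c5_m0_t1 : CovD 0 progs [(858993459200, 171798691840), (82463391744, 27487797248), (2590669275136, 863556468736)] :=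
  Pool.Agent.helper14.QF.covD_F chks_eq (.n 0 (.n 1 (.l 0) (.l 0)) (.n 1 (.l 0) (.n 0 (.n 0 (.l 1) (.n 1 (.l 0) (.l 2))) (.n 1 (.n 0 (.l 0) (.n 1 (.l 0) (.l 2))) (.l 2)))))
    [(858993459200, 171798691840), (82463391744, 27487797248), (2590669275136, 863556468736)] rfl (by decide +kernel)
theorem c5_m0_t2 : CovD 0 progs [(1116691496960, 85899345920), (82463391744, 27487797248), (2590669275136, 863556468736)] :=
  Pool.Agent.helper14.QF.covD_F chks_eq (.n 0 (.n 1 (.l 1) (.n 0 (.n 0 (.n 1 (.n 1 (.l 1) (.l 2)) (.l 2)) (.l 2)) (.l 2))) (.n 1 (.n 1 (.l 0) (.n 1 (.l 1) (.n 1 (.n 0 (.l 1) (.l 2)) (.l 2)))) (.l 2)))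
    [(1116691496960, 85899345920), (82463391744, 27487797248), (2590669275136, 863556468736)] rfl (by decide +kernel)
end
mutual
theorem c5_m0_t3 : CovD 0 progs [(1288490188800, 85899345920), (58411569152, 3435974656), (2590669275136, 863556468736)] :=
  Pool.Agent.helper14.QF.covD_F chks_eq (.n 0 (.l 0) (.n 0 (.l 1) (.n 0 (.l 1) (.l 3))))
    [(1288490188800, 85899345920), (58411569152, 3435974656), (2590669275136, 863556468736)] rfl (by decide +kernel)
theorem c5_m0_t4 : CovD 0 progs [(1288490188800, 85899345920), (62706537472, 858993664), (2590669275136, 863556468736)] :=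
  Pool.Agent.helper14.QF.covD_F chks_eq (.n 0 (.l 0) (.n 0 (.l 1) (.n 0 (.n 0 (.l 1) (.n 0 (.l 1) (.n 1 (.l 1) (.n 1 (.l 1) (.n 1 (.n 0 (.l 1) (.n 0 (.l 1) (.l 3))) (.n 1 (.n 0 (.l 1) (.l 2)) (.l 2))))))) (.l 3))))
    [(1288490188800, 85899345920), (62706537472, 858993664), (2590669275136, 863556468736)] rfl (by decide +kernel)
end
mutual
theorem c5_m0_t5 : CovD 0 progs [(1288490188800, 85899345920), (63995027968, 429496832), (2590669275136, 863556468736)] :=
  Pool.Agent.helper14.QF.covD_F chks_eq (.n 1 (.n 1 (.n 0 (.l 0) (.n 0 (.l 1) (.n 0 (.n 0 (.l 1) (.n 0 (.n 1 (.l 1) (.n 0 (.l 1) (.l 2))) (.l 2))) (.l 2)))) (.n 0 (.l 0) (.n 0 (.l 1) (.n 0 (.n 0 (.l 1) (.l 2)) (.l 2))))) (.n 0 (.l 0) (.n 0 (.l 1) (.n 0 (.n 0 (.n 0 (.l 1) (.l 2)) (.l 2)) (.l 2)))))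
    [(1288490188800, 85899345920), (63995027968, 429496832), (2590669275136, 863556468736)] rfl (by decide +kernel)
theorem c5_m0_t6 : CovD 0 progs [(1288490188800, 85899345920), (64854021632, 429496832), (2590669275136, 863556468736)] :=
  Pool.Agent.helper14.QF.covD_F chks_eq (.n 1 (.n 0 (.l 0) (.n 0 (.l 1) (.l 2))) (.n 0 (.l 1) (.n 0 (.n 0 (.l 1) (.n 0 (.l 1) (.l 2))) (.l 2))))
    [(1288490188800, 85899345920), (64854021632, 429496832), (2590669275136, 863556468736)] rfl (by decide +kernel)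
end
mutual
theorem c5_m0_t9 : CovD 0 progs [(1288490188800, 85899345920), (67001505792, 1717987328), (2590669275136, 863556468736)] :=
  Pool.Agent.helper14.QF.covD_F chks_eq (.n 1 (.n 1 (.n 0 (.l 1) (.n 0 (.n 0 (.l 1) (.l 2)) (.l 2))) (.n 0 (.l 1) (.n 0 (.n 0 (.n 0 (.l 1) (.l 2)) (.l 2)) (.l 2)))) (.n 0 (.n 1 (.l 1) (.n 0 (.l 0) (.n 0 (.l 1) (.l 2)))) (.l 2)))
    [(1288490188800, 85899345920), (67001505792, 1717987328), (2590669275136, 863556468736)] rfl (by decide +kernel)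
theorem c5_m0_t12 : CovD 0 progs [(1288490188800, 85899345920), (75591442432, 6871949312), (2590669275136, 863556468736)] :=
  Pool.Agent.helper14.QF.covD_F chks_eq (.n 0 (.n 1 (.n 1 (.n 0 (.n 1 (.l 1) (.n 0 (.l 1) (.l 2))) (.l 2)) (.l 2)) (.l 2)) (.l 2))
    [(1288490188800, 85899345920), (75591442432, 6871949312), (2590669275136, 863556468736)] rfl (by decide +kernel)
end
mutual
theorem c5_m0_t14 : CovD 0 progs [(1288490188800, 85899345920), (96207290368, 13743898624), (2590669275136, 863556468736)] :=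
  Pool.Agent.helper14.QF.covD_F chks_eq (.l 2)
    [(1288490188800, 85899345920), (96207290368, 13743898624), (2590669275136, 863556468736)] rfl (by decide +kernel)
theorem c6_m0 : CovD 0 progs [(1030792151040, 343597383680), (164926783488, 54975660032), (863556468736, 863556468736)] :=
  Pool.Agent.helper14.QF.covD_F chks_eq (.n 0 (.n 1 (.n 0 (.n 1 (.n 0 (.l 0) (.n 0 (.l 0) (.l 2))) (.l 2)) (.l 2)) (.l 2)) (.l 2))
    [(1030792151040, 343597383680), (164926783488, 54975660032), (863556468736, 863556468736)] rfl (by decide +kernel)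
theorem c7_m0 : CovD 0 progs [(1030792151040, 343597383680), (164926783488, 54975660032), (2590669275136, 863556468736)] :=
  Pool.Agent.helper14.QF.covD_F chks_eq (.n 0 (.n 1 (.n 0 (.n 1 (.n 0 (.n 0 (.l 1) (.n 1 (.l 0) (.l 2))) (.n 0 (.n 1 (.l 1) (.l 2)) (.l 2))) (.l 2)) (.l 2)) (.l 2)) (.l 2))
    [(1030792151040, 343597383680), (164926783488, 54975660032), (2590669275136, 863556468736)] rfl (by decide +kernel)
end

theorem c0_m0_t2 : CovD 0 progs [(42949672960, 42949672960), (54975594496, 54975594496), (863556468736, 863556468736)] :=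
  covD_split 1 (by decide +kernel) c0_m0_t0 c0_m0_t1
theorem c0_m0_t4 : CovD 0 progs [(85899345920, 85899345920), (54975594496, 54975594496), (863556468736, 863556468736)] :=
  covD_split 0 (by decide +kernel) c0_m0_t2 c0_m0_t3
theorem c0_m0_t6 : CovD 0 progs [(171798691840, 171798691840), (54975594496, 54975594496), (863556468736, 863556468736)] :=
  covD_split 0 (by decide +kernel) c0_m0_t4 c0_m0_t5
theorem c0_m0 : CovD 0 progs [(343597383680, 343597383680), (54975594496, 54975594496), (863556468736, 863556468736)] :=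
  covD_split 0 (by decide +kernel) c0_m0_t6 c0_m0_t7
theorem c1_m0_t2 : CovD 0 progs [(171798691840, 171798691840), (54975594496, 54975594496), (2590669275136, 863556468736)] :=
  covD_split 0 (by decide +kernel) c1_m0_t0 c1_m0_t1
theorem c1_m0 : CovD 0 progs [(343597383680, 343597383680), (54975594496, 54975594496), (2590669275136, 863556468736)] :=
  covD_split 0 (by decide +kernel) c1_m0_t2 c1_m0_t3
theorem c2_m0_t2 : CovD 0 progs [(42949672960, 42949672960), (164926783488, 54975660032), (863556468736, 863556468736)] :=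
  covD_split 1 (by decide +kernel) c2_m0_t0 c2_m0_t1
theorem c2_m0_t4 : CovD 0 progs [(85899345920, 85899345920), (164926783488, 54975660032), (863556468736, 863556468736)] :=
  covD_split 0 (by decide +kernel) c2_m0_t2 c2_m0_t3
theorem c2_m0_t6 : CovD 0 progs [(171798691840, 171798691840), (164926783488, 54975660032), (863556468736, 863556468736)] :=
  covD_split 0 (by decide +kernel) c2_m0_t4 c2_m0_t5
theorem c2_m0 : CovD 0 progs [(343597383680, 343597383680), (164926783488, 54975660032), (863556468736, 863556468736)] :=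
  covD_split 0 (by decide +kernel) c2_m0_t6 c2_m0_t7
theorem c3_m0_t4 : CovD 0 progs [(515396075520, 171798691840), (192414613504, 27487830016), (2590669275136, 863556468736)] :=
  covD_split 1 (by decide +kernel) c3_m0_t2 c3_m0_t3
theorem c3_m0_t5 : CovD 0 progs [(515396075520, 171798691840), (164926783488, 54975660032), (2590669275136, 863556468736)] :=
  covD_split 1 (by decide +kernel) c3_m0_t1 c3_m0_t4
theorem c3_m0 : CovD 0 progs [(343597383680, 343597383680), (164926783488, 54975660032), (2590669275136, 863556468736)] :=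
  covD_split 0 (by decide +kernel) c3_m0_t0 c3_m0_t5
theorem c4_m0_t4 : CovD 0 progs [(1202590842880, 171798691840), (82463391744, 27487797248), (863556468736, 863556468736)] :=
  covD_split 0 (by decide +kernel) c4_m0_t2 c4_m0_t3
theorem c4_m0_t5 : CovD 0 progs [(1030792151040, 343597383680), (82463391744, 27487797248), (863556468736, 863556468736)] :=
  covD_split 0 (by decide +kernel) c4_m0_t1 c4_m0_t4
theorem c4_m0 : CovD 0 progs [(1030792151040, 343597383680), (54975594496, 54975594496), (863556468736, 863556468736)] :=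
  covD_split 1 (by decide +kernel) c4_m0_t0 c4_m0_t5
theorem c5_m0_t7 : CovD 0 progs [(1288490188800, 85899345920), (64424524800, 858993664), (2590669275136, 863556468736)] :=
  covD_split 1 (by decide +kernel) c5_m0_t5 c5_m0_t6
theorem c5_m0_t8 : CovD 0 progs [(1288490188800, 85899345920), (63565531136, 1717987328), (2590669275136, 863556468736)] :=
  covD_split 1 (by decide +kernel) c5_m0_t4 c5_m0_t7
theorem c5_m0_t10 : CovD 0 progs [(1288490188800, 85899345920), (65283518464, 3435974656), (2590669275136, 863556468736)] :=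
  covD_split 1 (by decide +kernel) c5_m0_t8 c5_m0_t9
theorem c5_m0_t11 : CovD 0 progs [(1288490188800, 85899345920), (61847543808, 6871949312), (2590669275136, 863556468736)] :=
  covD_split 1 (by decide +kernel) c5_m0_t3 c5_m0_t10
theorem c5_m0_t13 : CovD 0 progs [(1288490188800, 85899345920), (68719493120, 13743898624), (2590669275136, 863556468736)] :=
  covD_split 1 (by decide +kernel) c5_m0_t11 c5_m0_t12
theorem c5_m0_t15 : CovD 0 progs [(1288490188800, 85899345920), (82463391744, 27487797248), (2590669275136, 863556468736)] :=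
  covD_split 1 (by decide +kernel) c5_m0_t13 c5_m0_t14
theorem c5_m0_t16 : CovD 0 progs [(1202590842880, 171798691840), (82463391744, 27487797248), (2590669275136, 863556468736)] :=
  covD_split 0 (by decide +kernel) c5_m0_t2 c5_m0_t15
theorem c5_m0_t17 : CovD 0 progs [(1030792151040, 343597383680), (82463391744, 27487797248), (2590669275136, 863556468736)] :=
  covD_split 0 (by decide +kernel) c5_m0_t1 c5_m0_t16
theorem c5_m0 : CovD 0 progs [(1030792151040, 343597383680), (54975594496, 54975594496), (2590669275136, 863556468736)] :=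
  covD_split 1 (by decide +kernel) c5_m0_t0 c5_m0_t17

end Pool.Agent.helper31.EQB.Cert.FB
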