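import Pool.Agent.helper31.IC.EngD
import Pool.Agent.helper14.QF.Inst

/-!
Generated: straight line program(s) and compiled form(s).
-/

namespace Pool.Agent.helper31.EQB.Cert.FP

open Pool.Agent.helper31.IA (Z Op)
open Pool.Agent.helper31.IC

set_option maxRecDepth 100000

abbrev opsE : Ops := Pool.Agent.helper14.QF.opsF

def prog0 : List Op := [
  .const ⟨1099511627776, 0, 0, 0⟩,
  .mul 1 1,
  .mul 3 3,
  .mul 5 5,
  .add 1 0,
  .log 0,
  .scale ⟨549755813888, 0, 0, 0⟩ 0,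
  .exp 0,
  .neg 1,
  .exp 0,
  .mul 11 0,
  .mul 13 1,
  .mul 12 4,
  .mul 0 0,
  .mul 1 14,
  .mul 16 13,
  .mul 0 0,
  .mul 1 18,
  .mul 0 18,
  .const ⟨1099243192320, 0, 0, 0⟩,
  .scale ⟨3111703805952, 0, 0, 0⟩ 20,
  .sub 1 0,
  .scale ⟨32985348833280, 0, 0, 0⟩ 20,
  .sub 1 0,
  .scale ⟨1556388773888, 0, 0, 0⟩ 24,
  .sub 5 0,
  .scale ⟨26388279066624, 0, 0, 0⟩ 24,
  .sub 1 0,
  .scale ⟨549755813888, 0, 0, 0⟩ 29,
  .neg 30,
  .exp 0,
  .add 0 30,
  .log 0,
  .add 4 0,
  .mul 34 0,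
  .mul 1 1,
  .add 0 32,
  .log 0,
  .scale ⟨549755813888, 0, 0, 0⟩ 0,
  .exp 0,
  .mul 40 0,
  .scale ⟨274877906944, 0, 0, 0⟩ 37,
  .add 6 0,
  .log 0,
  .scale ⟨549755813888, 0, 0, 0⟩ 0,
  .exp 0,
  .mul 46 0,
  .const ⟨4398046511104, 0, 0, 0⟩,
  .add 49 0,
  .inv 0,
  .scale ⟨151733141504, 0, 0, 0⟩ 0,
  .scale ⟨4398046511104, 0, 0, 0⟩ 0,
  .mul 44 0,
  .mul 50 51,
  .mul 40 52,
  .mul 55 14,
  .scale ⟨989989961728, 0, 0, 0⟩ 54,
  .add 1 0,
  .exp 0,
  .mul 0 0,
  .neg 2,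
  .const ⟨61083746304, 0, 0, 0⟩,
  .add 1 0,
  .pos 0,
  .scale ⟨1759219023872, 0, 0, 0⟩ 49,
  .scale ⟨2748779069440, 0, 0, 0⟩ 66,
  .add 1 0,
  .mul 0 64,
  .scale ⟨274877906944, 0, 0, 0⟩ 50,
  .sub 67 0,
  .mul 13 28,
  .scale ⟨549755813888, 0, 0, 0⟩ 0,
  .scale ⟨157073539072, 0, 0, 0⟩ 52,
  .add 1 0,
  .mul 14 0,
  .add 27 0,
  .mul 63 0,
  .scale ⟨1649267441664, 0, 0, 0⟩ 16,
  .const ⟨1649267441664, 0, 0, 0⟩,
  .sub 1 0,
  .scale ⟨824633720832, 0, 0, 0⟩ 62,
  .add 1 0,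
  .mul 83 79,
  .add 1 0,
  .add 0 16,
  .mul 71 0,
  .add 9 0,
  .mul 88 74,
  .mul 0 85,
  .scale ⟨137438953472, 0, 0, 0⟩ 0,
  .mul 70 0,
  .add 4 0,
  .mul 0 91,
  .const ⟨3298534883328, 0, 0, 0⟩,
  .sub 0 16,
  .mul 25 0,
  .mul 84 84,
  .scale ⟨549755813888, 0, 0, 0⟩ 0,
  .sub 2 0,
  .mul 86 86,
  .mul 0 40,
  .sub 2 0,
  .sub 0 34,
  .mul 33 5,
  .sub 26 0,
  .add 0 37,
  .mul 41 103,
  .scale ⟨1121502363648, 0, 0, 0⟩ 0,
  .add 106 0,
  .mul 53 48,
  .scale ⟨2199023255552, 0, 0, 0⟩ 0,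
  .add 2 0,
  .mul 99 0,
  .mul 97 45,
  .add 1 0,
  .mul 12 99,
  .mul 1 1,
  .add 20 0,
  .scale ⟨1098437885952, 0, 0, 0⟩ 15,
  .mul 3 3,
  .add 2 0,
  .inv 0,
  .mul 3 0,
  .neg 0,
  .add 0 122,
  .pos 0,
  .mul 25 69,
  .scale ⟨2199023255552, 0, 0, 0⟩ 0,
  .sub 125 0,
  .sub 0 35,
  .mul 36 36,
  .sub 1 0,
  .mul 0 0,
  .mul 118 1,
  .scale ⟨8796093022208, 0, 0, 0⟩ 130,
  .sub 109 0,
  .scale ⟨7972533043200, 0, 0, 0⟩ 79,
  .sub 1 0,
  .scale ⟨1097968123904, 0, 0, 0⟩ 14,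
  .add 15 136,
  .scale ⟨1097968123904, 0, 0, 0⟩ 0,
  .mul 2 125,
  .mul 0 9,
  .mul 5 0,
  .neg 0,
  .exp 0,
  .sub 143 91,
  .pos 0,
  .inv 0,
  .scale ⟨549755813888, 0, 0, 0⟩ 93,
  .add 146 0,
  .mul 95 95,
  .mul 0 3,
  .scale ⟨366504574976, 0, 0, 0⟩ 0,
  .add 3 0,
  .mul 8 99,
  .scale ⟨549755813888, 0, 0, 0⟩ 0,
  .add 153 0,
  .mul 2 2,
  .sub 155 3,
  .inv 0,
  .mul 2 0,
  .scale ⟨366504574976, 0, 0, 0⟩ 0,
  .add 5 0,
  .inv 31,
  .mul 71 149,
  .scale ⟨1992864825344, 0, 0, 0⟩ 0,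
  .add 1 0,
  .mul 112 13,
  .add 1 0,
  .scale ⟨3092376453120, 0, 0, 0⟩ 4,
  .mul 15 7,
  .add 1 0,
  .scale ⟨1992864825344, 0, 0, 0⟩ 78,
  .add 0 79,
  .mul 120 20,
  .add 1 0,
  .mul 162 0,
  .neg 8,
  .const ⟨989989961728, 0, 0, 0⟩,
  .add 1 0,
  .pos 0,
  .neg 8,
  .add 0 2,
  .pos 0,
  .scale ⟨1165482786816, 0, 0, 0⟩ 120,
  .scale ⟨2199023255552, 0, 0, 0⟩ 14,
  .add 0 12,
  .mul 181 0,
  .add 9 0,
  .mul 4 0,
  .mul 0 171,
  .mul 0 25,
  .sub 187 0,
  .pos 0,
  .scale ⟨2199023255552, 0, 0, 0⟩ 1,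
  .neg 0,
  .const ⟨1097095708672, 0, 0, 0⟩,
  .add 1 0,
  .sub 76 192,
  .scale ⟨549755813888, 0, 0, 0⟩ 0,
  .add 0 194,
  .const ⟨2083864444928, 0, 0, 0⟩,
  .add 105 196,
  .mul 0 0,
  .sub 2 0,
  .pos 0,
  .const ⟨3189013217280, 0, 0, 0⟩,
  .sub 0 96,
  .sub 0 16,
  .add 7 111,
  .add 0 17,
  .mul 0 0,
  .sub 3 0,
  .pos 0,
  .mul 76 14,
  .scale ⟨10115506765824, 0, 0, 0⟩ 0,
  .sub 0 8,
  .pos 0,
  .scale ⟨989560045568, 0, 0, 0⟩ 2,
  .scale ⟨9249480507392, 0, 0, 0⟩ 156,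
  .sub 1 0,
  .pos 0,
  .pos 77,
  .pos 85,
  .pos 83,
  .mul 82 24,
  .inv 0,
  .mul 29 0,
  .scale ⟨1121758216192, 0, 0, 0⟩ 0,
  .sub 95 0,
  .const ⟨136096776192, 0, 0, 0⟩,
  .sub 1 0,
  .pos 0,
  .sub 118 34,
  .pos 0,
  .sub 220 31,
  .mul 91 0,
  .scale ⟨2100239007744, 0, 0, 0⟩ 0,
  .sub 0 119,
  .sub 0 39,
  .pos 0,
  .mul 40 212,
  .mul 113 219,
  .add 0 1,
  .neg 0,
  .const ⟨3518651957248, 0, 0, 0⟩,
  .add 1 0,
  .pos 0,
  .const ⟨1099511627776, 0, 0, 0⟩,
  .add 3 0,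
  .pos 0,
  .neg 236,
  .add 0 2,
  .pos 0,
  .const ⟨5498631880704, 0, 0, 0⟩,
  .add 207 0,
  .pos 0,
  .add 20 237,
  .scale ⟨1097968123904, 0, 0, 0⟩ 0,
  .mul 0 226,
  .mul 0 110,
  .mul 0 49,
  .mul 107 0,
  .neg 0,
  .exp 0,
  .scale ⟨1992864825344, 0, 0, 0⟩ 19,
  .add 0 20,
  .scale ⟨1992864825344, 0, 0, 0⟩ 61,
  .add 0 62,
  .scale ⟨274877906944, 0, 0, 0⟩ 251,
  .add 0 250,
  .mul 2 0,
  .scale ⟨549755813888, 0, 0, 0⟩ 5,
  .sub 253 0,
  .pos 0,
  .inv 0,
  .add 2 255,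
  .mul 0 1,
  .mul 153 243,
  .scale ⟨2199023255552, 0, 0, 0⟩ 248,
  .add 1 0,
  .mul 2 0,
  .add 145 0,
  .mul 4 4,
  .add 147 0,
  .mul 250 0,
  .sub 3 265,
  .scale ⟨549755813888, 0, 0, 0⟩ 0,
  .add 0 267,
  .mul 16 13,
  .mul 12 24,
  .scale ⟨112608673792, 0, 0, 0⟩ 0,
  .add 3 6,
  .add 0 86,
  .mul 2 0,
  .add 5 0,
  .neg 0,
  .const ⟨151731044352, 0, 0, 0⟩,
  .add 1 0,
  .pos 0]

def chk0 {α : Type} (cst : Z → α) (add sub mul : α → α → α) (scale : Z → α → α)
    (neg inv exp log : α → α) (ok : α → Bool) (isPos : Nat → α → Bool) (isLt : α → Nat → Bool) :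
    List α → Bool
  | [x0, x1, x2] =>
  let v0 := cst ⟨1099511627776, 0, 0, 0⟩; ok v0 && (
  let v1 := mul x0 x0; ok v1 && (
  let v2 := mul x1 x1; ok v2 && (
  let v3 := mul x2 x2; ok v3 && (
  let v4 := add v2 v3; ok v4 && (
  let v5 := log v4; ok v5 && (
  let v6 := scale ⟨549755813888, 0, 0, 0⟩ v5; ok v6 && (
  let v7 := exp v6; ok v7 && (
  let v8 := neg v6; ok v8 && (
  let v9 := exp v8; ok v9 && (
  let v10 := mul x1 v9; ok v10 && (
  let v11 := mul x2 v9; ok v11 && (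
  let v12 := mul x0 v7; ok v12 && (
  let v13 := mul v12 v12; ok v13 && (
  let v14 := mul v12 x0; ok v14 && (
  let v15 := mul x1 v1; ok v15 && (
  let v16 := mul v15 v15; ok v16 && (
  let v17 := mul v15 x1; ok v17 && (
  let v18 := mul v17 x0; ok v18 && (
  let v19 := cst ⟨1099243192320, 0, 0, 0⟩; ok v19 && (
  let v20 := scale ⟨3111703805952, 0, 0, 0⟩ x0; ok v20 && (
  let v21 := sub v19 v20; ok v21 && (
  let v22 := scale ⟨32985348833280, 0, 0, 0⟩ v1; ok v22 && (
  let v23 := sub v21 v22; ok v23 && (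
  let v24 := scale ⟨1556388773888, 0, 0, 0⟩ x0; ok v24 && (
  let v25 := sub v19 v24; ok v25 && (
  let v26 := scale ⟨26388279066624, 0, 0, 0⟩ v1; ok v26 && (
  let v27 := sub v25 v26; ok v27 && (
  let v28 := scale ⟨549755813888, 0, 0, 0⟩ x1; ok v28 && (
  let v29 := neg x1; ok v29 && (
  let v30 := exp v29; ok v30 && (
  let v31 := add v30 v0; ok v31 && (
  let v32 := log v31; ok v32 && (
  let v33 := add v28 v32; ok v33 && (
  let v34 := mul x0 v33; ok v34 && (
  let v35 := mul v33 v33; ok v35 && (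
  let v36 := add v35 v3; ok v36 && (
  let v37 := log v36; ok v37 && (
  let v38 := scale ⟨549755813888, 0, 0, 0⟩ v37; ok v38 && (
  let v39 := exp v38; ok v39 && (
  let v40 := mul x0 v39; ok v40 && (
  let v41 := scale ⟨274877906944, 0, 0, 0⟩ v3; ok v41 && (
  let v42 := add v35 v41; ok v42 && (
  let v43 := log v42; ok v43 && (
  let v44 := scale ⟨549755813888, 0, 0, 0⟩ v43; ok v44 && (
  let v45 := exp v44; ok v45 && (
  let v46 := mul x0 v45; ok v46 && (
  let v47 := cst ⟨4398046511104, 0, 0, 0⟩; ok v47 && (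
  let v48 := add x1 v47; ok v48 && (
  let v49 := inv v48; ok v49 && (
  let v50 := scale ⟨151733141504, 0, 0, 0⟩ v49; ok v50 && (
  let v51 := scale ⟨4398046511104, 0, 0, 0⟩ v50; ok v51 && (
  let v52 := mul v7 v51; ok v52 && (
  let v53 := mul v2 v1; ok v53 && (
  let v54 := mul v13 v1; ok v54 && (
  let v55 := mul x0 v40; ok v55 && (
  let v56 := scale ⟨989989961728, 0, 0, 0⟩ v1; ok v56 && (
  let v57 := add v55 v56; ok v57 && (
  let v58 := exp v57; ok v58 && (
  let v59 := mul v58 v58; ok v59 && (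
  let v60 := neg v57; ok v60 && (
  let v61 := cst ⟨61083746304, 0, 0, 0⟩; ok v61 && (
  let v62 := add v60 v61; ok v62 && (
  isPos 3 v62 && (
  let v63 := scale ⟨1759219023872, 0, 0, 0⟩ v13; ok v63 && (
  let v64 := scale ⟨2748779069440, 0, 0, 0⟩ x2; ok v64 && (
  let v65 := add v63 v64; ok v65 && (
  let v66 := mul v65 v1; ok v66 && (
  let v67 := scale ⟨274877906944, 0, 0, 0⟩ v16; ok v67 && (
  let v68 := sub v0 v67; ok v68 && (
  let v69 := mul v55 v40; ok v69 && (
  let v70 := scale ⟨549755813888, 0, 0, 0⟩ v69; ok v70 && (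
  let v71 := scale ⟨157073539072, 0, 0, 0⟩ v18; ok v71 && (
  let v72 := add v70 v71; ok v72 && (
  let v73 := mul v58 v72; ok v73 && (
  let v74 := add v46 v73; ok v74 && (
  let v75 := mul v11 v74; ok v75 && (
  let v76 := scale ⟨1649267441664, 0, 0, 0⟩ v59; ok v76 && (
  let v77 := cst ⟨1649267441664, 0, 0, 0⟩; ok v77 && (
  let v78 := sub v76 v77; ok v78 && (
  let v79 := scale ⟨824633720832, 0, 0, 0⟩ v16; ok v79 && (
  let v80 := add v78 v79; ok v80 && (
  let v81 := mul x2 v1; ok v81 && (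
  let v82 := add v80 v81; ok v82 && (
  let v83 := add v82 v66; ok v83 && (
  let v84 := mul v12 v83; ok v84 && (
  let v85 := add v75 v84; ok v85 && (
  let v86 := mul x2 v11; ok v86 && (
  let v87 := mul v86 v1; ok v87 && (
  let v88 := scale ⟨137438953472, 0, 0, 0⟩ v87; ok v88 && (
  let v89 := mul v18 v88; ok v89 && (
  let v90 := add v85 v89; ok v90 && (
  let v91 := mul v90 x0; ok v91 && (
  let v92 := cst ⟨3298534883328, 0, 0, 0⟩; ok v92 && (
  let v93 := sub v92 v76; ok v93 && (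
  let v94 := mul v68 v93; ok v94 && (
  let v95 := mul v10 v10; ok v95 && (
  let v96 := scale ⟨549755813888, 0, 0, 0⟩ v95; ok v96 && (
  let v97 := sub v94 v96; ok v97 && (
  let v98 := mul v11 v11; ok v98 && (
  let v99 := mul v98 v58; ok v99 && (
  let v100 := sub v97 v99; ok v100 && (
  let v101 := sub v100 v66; ok v101 && (
  let v102 := mul v68 v96; ok v102 && (
  let v103 := sub v76 v102; ok v103 && (
  let v104 := add v103 v66; ok v104 && (
  let v105 := mul v63 v1; ok v105 && (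
  let v106 := scale ⟨1121502363648, 0, 0, 0⟩ v105; ok v106 && (
  let v107 := add v0 v106; ok v107 && (
  let v108 := mul v54 v59; ok v108 && (
  let v109 := scale ⟨2199023255552, 0, 0, 0⟩ v108; ok v109 && (
  let v110 := add v107 v109; ok v110 && (
  let v111 := mul v11 v110; ok v111 && (
  let v112 := mul v14 v66; ok v112 && (
  let v113 := add v111 v112; ok v113 && (
  let v114 := mul v101 v14; ok v114 && (
  let v115 := mul v113 v113; ok v115 && (
  let v116 := add v95 v115; ok v116 && (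
  let v117 := scale ⟨1098437885952, 0, 0, 0⟩ v101; ok v117 && (
  let v118 := mul v114 v114; ok v118 && (
  let v119 := add v116 v118; ok v119 && (
  let v120 := inv v119; ok v120 && (
  let v121 := mul v117 v120; ok v121 && (
  let v122 := neg v121; ok v122 && (
  let v123 := add v122 v0; ok v123 && (
  isPos 3 v123 && (
  let v124 := mul v98 v54; ok v124 && (
  let v125 := scale ⟨2199023255552, 0, 0, 0⟩ v124; ok v125 && (
  let v126 := sub v0 v125; ok v126 && (
  let v127 := sub v126 v91; ok v127 && (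
  let v128 := mul v91 v91; ok v128 && (
  let v129 := sub v127 v128; ok v129 && (
  let v130 := mul v129 v129; ok v130 && (
  let v131 := mul v12 v129; ok v131 && (
  let v132 := scale ⟨8796093022208, 0, 0, 0⟩ v1; ok v132 && (
  let v133 := sub v23 v132; ok v133 && (
  let v134 := scale ⟨7972533043200, 0, 0, 0⟩ v54; ok v134 && (
  let v135 := sub v133 v134; ok v135 && (
  let v136 := scale ⟨1097968123904, 0, 0, 0⟩ v121; ok v136 && (
  let v137 := add v121 v0; ok v137 && (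
  let v138 := scale ⟨1097968123904, 0, 0, 0⟩ v137; ok v138 && (
  let v139 := mul v136 v13; ok v139 && (
  let v140 := mul v139 v130; ok v140 && (
  let v141 := mul v135 v140; ok v141 && (
  let v142 := neg v141; ok v142 && (
  let v143 := exp v142; ok v143 && (
  let v144 := sub v0 v52; ok v144 && (
  isPos 3 v144 && (
  let v145 := inv v144; ok v145 && (
  let v146 := scale ⟨549755813888, 0, 0, 0⟩ v52; ok v146 && (
  let v147 := add v0 v146; ok v147 && (
  let v148 := mul v52 v52; ok v148 && (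
  let v149 := mul v148 v145; ok v149 && (
  let v150 := scale ⟨366504574976, 0, 0, 0⟩ v149; ok v150 && (
  let v151 := add v147 v150; ok v151 && (
  let v152 := mul v143 v52; ok v152 && (
  let v153 := scale ⟨549755813888, 0, 0, 0⟩ v152; ok v153 && (
  let v154 := add v0 v153; ok v154 && (
  let v155 := mul v152 v152; ok v155 && (
  let v156 := sub v0 v152; ok v156 && (
  let v157 := inv v156; ok v157 && (
  let v158 := mul v155 v157; ok v158 && (
  let v159 := scale ⟨366504574976, 0, 0, 0⟩ v158; ok v159 && (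
  let v160 := add v154 v159; ok v160 && (
  let v161 := inv v129; ok v161 && (
  let v162 := mul v90 v12; ok v162 && (
  let v163 := scale ⟨1992864825344, 0, 0, 0⟩ v162; ok v163 && (
  let v164 := add v162 v163; ok v164 && (
  let v165 := mul v52 v151; ok v165 && (
  let v166 := add v164 v165; ok v166 && (
  let v167 := scale ⟨3092376453120, 0, 0, 0⟩ v162; ok v167 && (
  let v168 := mul v152 v160; ok v168 && (
  let v169 := add v167 v168; ok v169 && (
  let v170 := scale ⟨1992864825344, 0, 0, 0⟩ v91; ok v170 && (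
  let v171 := add v170 v91; ok v171 && (
  let v172 := mul v51 v151; ok v172 && (
  let v173 := add v171 v172; ok v173 && (
  let v174 := mul v11 v173; ok v174 && (
  let v175 := neg v166; ok v175 && (
  let v176 := cst ⟨989989961728, 0, 0, 0⟩; ok v176 && (
  let v177 := add v175 v176; ok v177 && (
  isPos 3 v177 && (
  let v178 := neg v169; ok v178 && (
  let v179 := add v178 v176; ok v179 && (
  isPos 3 v179 && (
  let v180 := scale ⟨1165482786816, 0, 0, 0⟩ v59; ok v180 && (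
  let v181 := scale ⟨2199023255552, 0, 0, 0⟩ v166; ok v181 && (
  let v182 := add v181 v169; ok v182 && (
  let v183 := mul v1 v182; ok v183 && (
  let v184 := add v174 v183; ok v184 && (
  let v185 := mul v180 v184; ok v185 && (
  let v186 := mul v185 v14; ok v186 && (
  let v187 := mul v186 v161; ok v187 && (
  let v188 := sub v0 v187; ok v188 && (
  isPos 3 v188 && (
  let v189 := scale ⟨2199023255552, 0, 0, 0⟩ v187; ok v189 && (
  let v190 := neg v189; ok v190 && (
  let v191 := cst ⟨1097095708672, 0, 0, 0⟩; ok v191 && (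
  let v192 := add v190 v191; ok v192 && (
  let v193 := sub v116 v0; ok v193 && (
  let v194 := scale ⟨549755813888, 0, 0, 0⟩ v193; ok v194 && (
  let v195 := add v194 v0; ok v195 && (
  let v196 := cst ⟨2083864444928, 0, 0, 0⟩; ok v196 && (
  let v197 := add v91 v0; ok v197 && (
  let v198 := mul v197 v197; ok v198 && (
  let v199 := sub v196 v198; ok v199 && (
  isPos 3 v199 && (
  let v200 := cst ⟨3189013217280, 0, 0, 0⟩; ok v200 && (
  let v201 := sub v200 v104; ok v201 && (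
  let v202 := sub v201 v185; ok v202 && (
  let v203 := add v195 v91; ok v203 && (
  let v204 := add v203 v186; ok v204 && (
  let v205 := mul v204 v204; ok v205 && (
  let v206 := sub v202 v205; ok v206 && (
  isPos 3 v206 && (
  let v207 := mul v130 v192; ok v207 && (
  let v208 := scale ⟨10115506765824, 0, 0, 0⟩ v207; ok v208 && (
  let v209 := sub v208 v200; ok v209 && (
  isPos 3 v209 && (
  let v210 := scale ⟨989560045568, 0, 0, 0⟩ v207; ok v210 && (
  let v211 := scale ⟨9249480507392, 0, 0, 0⟩ v54; ok v211 && (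
  let v212 := sub v210 v211; ok v212 && (
  isPos 3 v212 && (
  isPos 3 v135 && (
  isPos 3 v127 && (
  isPos 3 v129 && (
  let v213 := mul v130 v188; ok v213 && (
  let v214 := inv v213; ok v214 && (
  let v215 := mul v185 v214; ok v215 && (
  let v216 := scale ⟨1121758216192, 0, 0, 0⟩ v215; ok v216 && (
  let v217 := sub v121 v216; ok v217 && (
  let v218 := cst ⟨136096776192, 0, 0, 0⟩; ok v218 && (
  let v219 := sub v217 v218; ok v219 && (
  isPos 3 v219 && (
  let v220 := sub v101 v185; ok v220 && (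
  isPos 3 v220 && (
  let v221 := sub v0 v189; ok v221 && (
  let v222 := mul v130 v221; ok v222 && (
  let v223 := scale ⟨2100239007744, 0, 0, 0⟩ v222; ok v223 && (
  let v224 := sub v223 v104; ok v224 && (
  let v225 := sub v224 v185; ok v225 && (
  isPos 3 v225 && (
  let v226 := mul v185 v13; ok v226 && (
  let v227 := mul v113 v7; ok v227 && (
  let v228 := add v227 v226; ok v228 && (
  let v229 := neg v228; ok v229 && (
  let v230 := cst ⟨3518651957248, 0, 0, 0⟩; ok v230 && (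
  let v231 := add v229 v230; ok v231 && (
  isPos 3 v231 && (
  let v232 := cst ⟨1099511627776, 0, 0, 0⟩; ok v232 && (
  let v233 := add v229 v232; ok v233 && (
  isPos 3 v233 && (
  let v234 := neg x2; ok v234 && (
  let v235 := add v234 v232; ok v235 && (
  isPos 3 v235 && (
  let v236 := cst ⟨5498631880704, 0, 0, 0⟩; ok v236 && (
  let v237 := add v29 v236; ok v237 && (
  isPos 3 v237 && (
  let v238 := add v217 v0; ok v238 && (
  let v239 := scale ⟨1097968123904, 0, 0, 0⟩ v238; ok v239 && (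
  let v240 := mul v239 v13; ok v240 && (
  let v241 := mul v240 v130; ok v241 && (
  let v242 := mul v241 v192; ok v242 && (
  let v243 := mul v135 v242; ok v243 && (
  let v244 := neg v243; ok v244 && (
  let v245 := exp v244; ok v245 && (
  let v246 := scale ⟨1992864825344, 0, 0, 0⟩ v226; ok v246 && (
  let v247 := add v246 v226; ok v247 && (
  let v248 := scale ⟨1992864825344, 0, 0, 0⟩ v186; ok v248 && (
  let v249 := add v248 v186; ok v249 && (
  let v250 := scale ⟨274877906944, 0, 0, 0⟩ x1; ok v250 && (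
  let v251 := add v250 v0; ok v251 && (
  let v252 := mul v249 v251; ok v252 && (
  let v253 := scale ⟨549755813888, 0, 0, 0⟩ v247; ok v253 && (
  let v254 := sub v0 v253; ok v254 && (
  isPos 3 v254 && (
  let v255 := inv v254; ok v255 && (
  let v256 := add v253 v0; ok v256 && (
  let v257 := mul v256 v255; ok v257 && (
  let v258 := mul v104 v14; ok v258 && (
  let v259 := scale ⟨2199023255552, 0, 0, 0⟩ v10; ok v259 && (
  let v260 := add v258 v259; ok v260 && (
  let v261 := mul v258 v260; ok v261 && (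
  let v262 := add v116 v261; ok v262 && (
  let v263 := mul v258 v258; ok v263 && (
  let v264 := add v116 v263; ok v264 && (
  let v265 := mul v14 v264; ok v265 && (
  let v266 := sub v262 v0; ok v266 && (
  let v267 := scale ⟨549755813888, 0, 0, 0⟩ v266; ok v267 && (
  let v268 := add v267 v0; ok v268 && (
  let v269 := mul v252 v255; ok v269 && (
  let v270 := mul v257 v245; ok v270 && (
  let v271 := scale ⟨112608673792, 0, 0, 0⟩ v270; ok v271 && (
  let v272 := add v268 v265; ok v272 && (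
  let v273 := add v272 v186; ok v273 && (
  let v274 := mul v271 v273; ok v274 && (
  let v275 := add v269 v274; ok v275 && (
  let v276 := neg v275; ok v276 && (
  let v277 := cst ⟨151731044352, 0, 0, 0⟩; ok v277 && (
  let v278 := add v276 v277; ok v278 && (
  isPos 3 v278 && (
  true)))))))))))))))))))))))))))))))))))))))))))))))))))))))))))))))))))))))))))))))))))))))))))))))))))))))))))))))))))))))))))))))))))))))))))))))))))))))))))))))))))))))))))))))))))))))))))))))))))))))))))))))))))))))))))))))))))))))))))))))))))))))))))))))))))))))))))))))))))))))))))))))))))))))))))))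
  | _ => false

set_option maxRecDepth 1000000 in
theorem chk0_eq (O : Ops) (m : List O.α)
    (h : chk0 O.cst O.add O.sub O.mul O.scale O.neg O.inv O.exp O.log O.ok O.isPos O.isLt m = true) :
    runG O 3 prog0 m = true := by
  match m, h with
  | [x0, x1, x2], h => exact h

def chkB0 : List opsE.α → Bool :=
  chk0 opsE.cst opsE.add opsE.sub opsE.mul opsE.scale opsE.neg opsE.inv opsE.exp opsE.log opsE.ok opsE.isPos opsE.isLt

theorem chkB0_eq (m : List opsE.α) (h : chkB0 m = true) : runG opsE 3 prog0 m = true :=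
  chk0_eq opsE m h

def progs : List (List Op) := [prog0]

def chks : List (List opsE.α → Bool) := [chkB0]

theorem chks_eq : List.Forall₂ (fun (ops : List Op) (chk : List opsE.α → Bool) =>
    ∀ m, chk m = true → runG opsE 3 ops m = true) progs chks :=
  List.Forall₂.cons chkB0_eq List.Forall₂.nil

end Pool.Agent.helper31.EQB.Cert.FP
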