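import Pool.Agent.helper31.EQB.Cert.FPP

/-!
Generated certificates.
-/

namespace Pool.Agent.helper31.EQB.Cert.FP

open Pool.Agent.helper31.IA (Z Op)
open Pool.Agent.helper31.IC

mutual
theorem c0_m0_t0 : CovD 0 progs [(24629084160, 24629084160), (2856153251840, 176093659136), (272730423296, 272730423296)] :=
  Pool.Agent.helper14.QF.covD_F chks_eq (.n 0 (.n 2 (.n 0 (.n 1 (.n 2 (.n 2 (.n 0 (.l 0) (.l 0)) (.l 0)) (.l 0)) (.n 2 (.n 2 (.n 0 (.l 0) (.l 0)) (.l 0)) (.l 0))) (.n 1 (.n 2 (.n 0 (.l 0) (.l 0)) (.l 0)) (.n 2 (.l 0) (.l 0)))) (.n 2 (.n 1 (.l 0) (.l 0)) (.l 0))) (.n 1 (.n 2 (.n 2 (.l 0) (.l 0)) (.l 0)) (.n 2 (.n 0 (.l 0) (.l 0)) (.l 0))))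
    [(24629084160, 24629084160), (2856153251840, 176093659136), (272730423296, 272730423296)] rfl (by decide +kernel)
theorem c0_m0_t1 : CovD 0 progs [(24629084160, 24629084160), (2856153251840, 176093659136), (818191269888, 272730423296)] :=
  Pool.Agent.helper14.QF.covD_F chks_eq (.n 2 (.n 0 (.l 0) (.l 0)) (.l 0))
    [(24629084160, 24629084160), (2856153251840, 176093659136), (818191269888, 272730423296)] rfl (by decide +kernel)
end
mutual
theorem c0_m0_t3 : CovD 0 progs [(24629084160, 24629084160), (3208340570112, 176093659136), (545460846592, 545460846592)] :=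
  Pool.Agent.helper14.QF.covD_F chks_eq (.n 2 (.n 0 (.n 2 (.n 0 (.n 1 (.n 2 (.n 2 (.l 0) (.l 0)) (.l 0)) (.n 2 (.n 0 (.l 0) (.l 0)) (.l 0))) (.n 1 (.n 2 (.l 0) (.l 0)) (.n 2 (.l 0) (.l 0)))) (.n 2 (.n 1 (.l 0) (.l 0)) (.l 0))) (.n 0 (.n 2 (.n 1 (.l 0) (.l 0)) (.l 0)) (.n 2 (.l 0) (.l 0)))) (.n 2 (.n 0 (.l 0) (.l 0)) (.l 0)))
    [(24629084160, 24629084160), (3208340570112, 176093659136), (545460846592, 545460846592)] rfl (by decide +kernel)
theorem c0_m0_t5 : CovD 0 progs [(24629084160, 24629084160), (3560527888384, 176093659136), (545460846592, 545460846592)] :=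
  Pool.Agent.helper14.QF.covD_F chks_eq (.n 2 (.n 0 (.n 2 (.n 0 (.n 1 (.n 2 (.n 0 (.l 0) (.l 0)) (.l 0)) (.n 2 (.n 0 (.l 0) (.l 0)) (.l 0))) (.n 1 (.n 2 (.l 0) (.l 0)) (.n 2 (.l 0) (.l 0)))) (.n 2 (.n 0 (.l 0) (.l 0)) (.l 0))) (.n 0 (.n 2 (.n 0 (.l 0) (.l 0)) (.l 0)) (.n 2 (.l 0) (.l 0)))) (.n 2 (.n 0 (.l 0) (.l 0)) (.l 0)))
    [(24629084160, 24629084160), (3560527888384, 176093659136), (545460846592, 545460846592)] rfl (by decide +kernel)
end
mutual
theorem c0_m0_t6 : CovD 0 progs [(24629084160, 24629084160), (3912715206656, 176093659136), (545460846592, 545460846592)] :=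
  Pool.Agent.helper14.QF.covD_F chks_eq (.n 2 (.n 0 (.n 2 (.n 0 (.n 1 (.n 2 (.n 0 (.l 0) (.l 0)) (.l 0)) (.n 2 (.n 0 (.l 0) (.l 0)) (.l 0))) (.n 2 (.n 0 (.l 0) (.l 0)) (.l 0))) (.n 2 (.n 0 (.l 0) (.l 0)) (.l 0))) (.n 2 (.n 0 (.l 0) (.l 0)) (.l 0))) (.n 2 (.n 0 (.l 0) (.l 0)) (.l 0)))
    [(24629084160, 24629084160), (3912715206656, 176093659136), (545460846592, 545460846592)] rfl (by decide +kernel)
theorem c0_m0_t9 : CovD 0 progs [(24629084160, 24629084160), (4264902524928, 176093659136), (545460846592, 545460846592)] :=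
  Pool.Agent.helper14.QF.covD_F chks_eq (.n 2 (.n 0 (.n 0 (.n 1 (.n 2 (.n 2 (.n 0 (.l 0) (.l 0)) (.l 0)) (.l 0)) (.n 2 (.n 2 (.n 0 (.l 0) (.l 0)) (.l 0)) (.l 0))) (.n 2 (.n 0 (.n 1 (.l 0) (.l 0)) (.l 0)) (.l 0))) (.n 0 (.n 2 (.l 0) (.l 0)) (.l 0))) (.n 2 (.n 0 (.l 0) (.l 0)) (.l 0)))
    [(24629084160, 24629084160), (4264902524928, 176093659136), (545460846592, 545460846592)] rfl (by decide +kernel)
end
mutual
theorem c0_m0_t10 : CovD 0 progs [(24629084160, 24629084160), (4617089843200, 176093659136), (545460846592, 545460846592)] :=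
  Pool.Agent.helper14.QF.covD_F chks_eq (.n 0 (.n 2 (.n 0 (.n 1 (.n 2 (.n 2 (.n 0 (.l 0) (.l 0)) (.l 0)) (.l 0)) (.n 2 (.n 2 (.l 0) (.l 0)) (.l 0))) (.n 2 (.n 1 (.l 0) (.l 0)) (.l 0))) (.n 2 (.l 0) (.l 0))) (.n 2 (.n 0 (.n 2 (.l 0) (.l 0)) (.l 0)) (.l 0)))
    [(24629084160, 24629084160), (4617089843200, 176093659136), (545460846592, 545460846592)] rfl (by decide +kernel)
theorem c0_m0_t12 : CovD 0 progs [(12314542080, 12314542080), (5145370820608, 352187318272), (545460846592, 545460846592)] :=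
  Pool.Agent.helper14.QF.covD_F chks_eq (.n 2 (.n 0 (.n 1 (.n 1 (.n 2 (.n 2 (.l 0) (.l 0)) (.l 0)) (.n 2 (.n 2 (.l 0) (.l 0)) (.l 0))) (.n 0 (.n 2 (.n 2 (.l 0) (.l 0)) (.l 0)) (.n 2 (.n 1 (.l 0) (.l 0)) (.l 0)))) (.n 1 (.n 2 (.n 0 (.l 0) (.l 0)) (.l 0)) (.n 2 (.n 0 (.l 0) (.l 0)) (.l 0)))) (.n 2 (.n 1 (.l 0) (.l 0)) (.l 0)))
    [(12314542080, 12314542080), (5145370820608, 352187318272), (545460846592, 545460846592)] rfl (by decide +kernel)
theorem c0_m0_t13 : CovD 0 progs [(36943626240, 12314542080), (5145370820608, 352187318272), (545460846592, 545460846592)] :=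
  Pool.Agent.helper14.QF.covD_F chks_eq (.n 1 (.n 2 (.n 2 (.l 0) (.l 0)) (.l 0)) (.n 2 (.n 0 (.l 0) (.l 0)) (.l 0)))
    [(36943626240, 12314542080), (5145370820608, 352187318272), (545460846592, 545460846592)] rfl (by decide +kernel)
end

theorem c0_m0_t2 : CovD 0 progs [(24629084160, 24629084160), (2856153251840, 176093659136), (545460846592, 545460846592)] :=
  covD_split 2 (by decide +kernel) c0_m0_t0 c0_m0_t1
theorem c0_m0_t4 : CovD 0 progs [(24629084160, 24629084160), (3032246910976, 352187318272), (545460846592, 545460846592)] :=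
  covD_split 1 (by decide +kernel) c0_m0_t2 c0_m0_t3
theorem c0_m0_t7 : CovD 0 progs [(24629084160, 24629084160), (3736621547520, 352187318272), (545460846592, 545460846592)] :=
  covD_split 1 (by decide +kernel) c0_m0_t5 c0_m0_t6
theorem c0_m0_t8 : CovD 0 progs [(24629084160, 24629084160), (3384434229248, 704374636544), (545460846592, 545460846592)] :=
  covD_split 1 (by decide +kernel) c0_m0_t4 c0_m0_t7
theorem c0_m0_t11 : CovD 0 progs [(24629084160, 24629084160), (4440996184064, 352187318272), (545460846592, 545460846592)] :=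
  covD_split 1 (by decide +kernel) c0_m0_t9 c0_m0_t10
theorem c0_m0_t14 : CovD 0 progs [(24629084160, 24629084160), (5145370820608, 352187318272), (545460846592, 545460846592)] :=
  covD_split 0 (by decide +kernel) c0_m0_t12 c0_m0_t13
theorem c0_m0_t15 : CovD 0 progs [(24629084160, 24629084160), (4793183502336, 704374636544), (545460846592, 545460846592)] :=
  covD_split 1 (by decide +kernel) c0_m0_t11 c0_m0_t14
theorem c0_m0 : CovD 0 progs [(24629084160, 24629084160), (4088808865792, 1408749273088), (545460846592, 545460846592)] :=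
  covD_split 1 (by decide +kernel) c0_m0_t8 c0_m0_t15

end Pool.Agent.helper31.EQB.Cert.FP
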