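import Pool.Agent.helper31.EQB.Cert.FQ_0

/-!
Generated certificates, assembled.
-/

namespace Pool.Agent.helper31.EQB.Cert.FQ

open Pool.Agent.helper31.IA (Z Op)
open Pool.Agent.helper31.IC

theorem c0_all : CovD 0 progs [(24629084160, 24629084160), (824633720832, 824633720832), (3084322537472, 369903206400)] := c0_m0

theorem c1_all : CovD 0 progs [(24629084160, 24629084160), (2164663517184, 584115552256), (2946883584000, 507342159872)] := c1_m0

theorem c2_all : CovD 0 progs [(24629084160, 24629084160), (4105988734976, 1391569403904), (2259688816640, 1194536927232)] := c2_m0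

end Pool.Agent.helper31.EQB.Cert.FQ
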