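import Pool.Agent.helper31.IC.EngD
import Pool.Agent.helper14.QF.Inst

/-!
Generated: straight line program(s) and compiled form(s).
-/

namespace Pool.Agent.helper31.EQB.Cert.FQ

open Pool.Agent.helper31.IA (Z Op)
open Pool.Agent.helper31.IC

set_option maxRecDepth 100000

abbrev opsE : Ops := Pool.Agent.helper14.QF.opsF

def prog0 : List Op := [
  .const ⟨1099511627776, 0, 0, 0⟩,
  .mul 1 1,
  .mul 3 3,
  .mul 5 5,
  .add 1 0,
  .log 0,
  .scale ⟨549755813888, 0, 0, 0⟩ 0,
  .exp 0,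
  .neg 1,
  .exp 0,
  .mul 11 0,
  .mul 13 1,
  .mul 12 4,
  .mul 0 0,
  .mul 1 14,
  .mul 16 13,
  .mul 0 0,
  .mul 1 18,
  .mul 0 18,
  .const ⟨1099243192320, 0, 0, 0⟩,
  .scale ⟨3111703805952, 0, 0, 0⟩ 20,
  .sub 1 0,
  .scale ⟨32985348833280, 0, 0, 0⟩ 20,
  .sub 1 0,
  .scale ⟨1556388773888, 0, 0, 0⟩ 24,
  .sub 5 0,
  .scale ⟨26388279066624, 0, 0, 0⟩ 24,
  .sub 1 0,
  .scale ⟨549755813888, 0, 0, 0⟩ 29,
  .neg 30,
  .exp 0,
  .add 0 30,
  .log 0,
  .add 4 0,
  .const ⟨1724298297344, 0, 0, 0⟩,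
  .add 1 0,
  .mul 36 0,
  .scale ⟨147041812480, 0, 0, 0⟩ 27,
  .add 1 0,
  .mul 39 41,
  .mul 1 1,
  .mul 1 1,
  .add 1 0,
  .log 0,
  .scale ⟨549755813888, 0, 0, 0⟩ 0,
  .exp 0,
  .scale ⟨274877906944, 0, 0, 0⟩ 4,
  .add 6 0,
  .log 0,
  .scale ⟨549755813888, 0, 0, 0⟩ 0,
  .exp 0,
  .const ⟨4398046511104, 0, 0, 0⟩,
  .add 53 0,
  .inv 0,
  .scale ⟨151733141504, 0, 0, 0⟩ 0,
  .scale ⟨4398046511104, 0, 0, 0⟩ 0,
  .mul 48 0,
  .mul 54 55,
  .mul 48 48,
  .scale ⟨274877906944, 0, 0, 0⟩ 48,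
  .add 50 0,
  .mul 47 59,
  .mul 62 16,
  .scale ⟨989989961728, 0, 0, 0⟩ 61,
  .add 1 0,
  .exp 0,
  .mul 0 0,
  .neg 2,
  .const ⟨61083746304, 0, 0, 0⟩,
  .add 1 0,
  .pos 0,
  .scale ⟨1759219023872, 0, 0, 0⟩ 56,
  .scale ⟨2748779069440, 0, 0, 0⟩ 73,
  .add 1 0,
  .mul 0 71,
  .scale ⟨274877906944, 0, 0, 0⟩ 57,
  .sub 74 0,
  .mul 13 30,
  .scale ⟨549755813888, 0, 0, 0⟩ 0,
  .scale ⟨157073539072, 0, 0, 0⟩ 59,
  .add 1 0,
  .mul 14 0,
  .add 30 0,
  .mul 70 0,
  .scale ⟨1649267441664, 0, 0, 0⟩ 16,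
  .const ⟨1649267441664, 0, 0, 0⟩,
  .sub 1 0,
  .scale ⟨824633720832, 0, 0, 0⟩ 69,
  .add 1 0,
  .mul 90 86,
  .add 1 0,
  .add 0 16,
  .mul 78 0,
  .add 9 0,
  .mul 95 81,
  .mul 0 92,
  .scale ⟨137438953472, 0, 0, 0⟩ 0,
  .mul 77 0,
  .add 4 0,
  .mul 0 98,
  .const ⟨3298534883328, 0, 0, 0⟩,
  .sub 0 16,
  .mul 25 0,
  .mul 91 91,
  .scale ⟨549755813888, 0, 0, 0⟩ 0,
  .sub 2 0,
  .mul 93 93,
  .mul 0 40,
  .sub 2 0,
  .sub 0 34,
  .mul 33 5,
  .sub 26 0,
  .add 0 37,
  .mul 41 110,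
  .scale ⟨1121502363648, 0, 0, 0⟩ 0,
  .add 113 0,
  .mul 53 48,
  .scale ⟨2199023255552, 0, 0, 0⟩ 0,
  .add 2 0,
  .mul 106 0,
  .mul 104 45,
  .add 1 0,
  .mul 12 106,
  .mul 1 1,
  .add 20 0,
  .scale ⟨1098437885952, 0, 0, 0⟩ 15,
  .mul 3 3,
  .add 2 0,
  .inv 0,
  .mul 3 0,
  .neg 0,
  .add 0 129,
  .pos 0,
  .mul 25 69,
  .scale ⟨2199023255552, 0, 0, 0⟩ 0,
  .sub 132 0,
  .sub 0 35,
  .mul 36 36,
  .sub 1 0,
  .mul 0 0,
  .mul 125 1,
  .scale ⟨8796093022208, 0, 0, 0⟩ 137,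
  .sub 116 0,
  .scale ⟨7972533043200, 0, 0, 0⟩ 79,
  .sub 1 0,
  .scale ⟨1097968123904, 0, 0, 0⟩ 14,
  .add 15 143,
  .scale ⟨1097968123904, 0, 0, 0⟩ 0,
  .mul 2 132,
  .mul 0 9,
  .mul 5 0,
  .neg 0,
  .exp 0,
  .scale ⟨1098301571072, 0, 0, 0⟩ 123,
  .mul 128 13,
  .mul 0 7,
  .scale ⟨548547854336, 0, 0, 0⟩ 0,
  .mul 3 16,
  .scale ⟨549755813888, 0, 0, 0⟩ 0,
  .mul 1 1,
  .scale ⟨97184055296, 0, 0, 0⟩ 0,
  .const ⟨1554944884736, 0, 0, 0⟩,
  .add 1 0,
  .add 4 0,
  .inv 0,
  .mul 11 0,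
  .add 0 9,
  .inv 0,
  .add 27 0,
  .mul 16 0,
  .const ⟨2199023255552, 0, 0, 0⟩,
  .add 40 0,
  .scale ⟨1097968123904, 0, 0, 0⟩ 0,
  .scale ⟨1097093611520, 0, 0, 0⟩ 143,
  .mul 19 1,
  .scale ⟨547341991936, 0, 0, 0⟩ 0,
  .mul 2 35,
  .scale ⟨549755813888, 0, 0, 0⟩ 0,
  .mul 1 1,
  .scale ⟨97184055296, 0, 0, 0⟩ 0,
  .add 0 18,
  .add 3 0,
  .inv 0,
  .mul 9 0,
  .add 0 8,
  .inv 0,
  .mul 38 170,
  .mul 0 47,
  .scale ⟨1097095708672, 0, 0, 0⟩ 0,
  .mul 44 0,
  .neg 0,
  .exp 0,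
  .add 51 6,
  .mul 1 0,
  .sub 191 135,
  .pos 0,
  .inv 0,
  .scale ⟨549755813888, 0, 0, 0⟩ 137,
  .add 194 0,
  .mul 139 139,
  .mul 0 3,
  .scale ⟨366504574976, 0, 0, 0⟩ 0,
  .add 3 0,
  .mul 49 143,
  .scale ⟨549755813888, 0, 0, 0⟩ 0,
  .add 201 0,
  .mul 2 2,
  .sub 203 3,
  .inv 0,
  .mul 2 0,
  .scale ⟨366504574976, 0, 0, 0⟩ 0,
  .add 5 0,
  .inv 72,
  .mul 112 197,
  .mul 113 19,
  .mul 0 2,
  .add 2 0,
  .mul 157 14,
  .add 1 0,
  .mul 118 48,
  .mul 0 7,
  .mul 17 9,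
  .add 1 0,
  .mul 222 4,
  .mul 0 162,
  .neg 6,
  .const ⟨989989961728, 0, 0, 0⟩,
  .add 1 0,
  .pos 0,
  .neg 5,
  .add 0 2,
  .pos 0,
  .scale ⟨1165482786816, 0, 0, 0⟩ 160,
  .scale ⟨2199023255552, 0, 0, 0⟩ 12,
  .add 0 9,
  .mul 228 0,
  .add 9 0,
  .mul 4 0,
  .mul 0 218,
  .mul 0 24,
  .sub 234 0,
  .pos 0,
  .scale ⟨2199023255552, 0, 0, 0⟩ 1,
  .neg 0,
  .const ⟨1097095708672, 0, 0, 0⟩,
  .add 1 0,
  .sub 116 239,
  .scale ⟨549755813888, 0, 0, 0⟩ 0,
  .add 0 241,
  .const ⟨2083864444928, 0, 0, 0⟩,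
  .add 145 243,
  .mul 0 0,
  .sub 2 0,
  .pos 0,
  .const ⟨3189013217280, 0, 0, 0⟩,
  .sub 0 136,
  .sub 0 16,
  .add 7 151,
  .add 0 17,
  .mul 0 0,
  .sub 3 0,
  .pos 0,
  .mul 116 14,
  .scale ⟨10115506765824, 0, 0, 0⟩ 0,
  .sub 0 8,
  .pos 0,
  .scale ⟨989560045568, 0, 0, 0⟩ 2,
  .scale ⟨9249480507392, 0, 0, 0⟩ 196,
  .sub 1 0,
  .pos 0,
  .pos 117,
  .pos 125,
  .pos 123,
  .mul 122 24,
  .inv 0,
  .mul 29 0,
  .scale ⟨1121758216192, 0, 0, 0⟩ 0,
  .sub 135 0,
  .const ⟨136096776192, 0, 0, 0⟩,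
  .sub 1 0,
  .pos 0,
  .sub 158 34,
  .pos 0,
  .sub 267 31,
  .mul 131 0,
  .scale ⟨2100239007744, 0, 0, 0⟩ 0,
  .sub 0 159,
  .sub 0 39,
  .pos 0,
  .mul 40 259,
  .mul 153 266,
  .add 0 1,
  .neg 0,
  .const ⟨3518651957248, 0, 0, 0⟩,
  .add 1 0,
  .pos 0,
  .add 14 278,
  .scale ⟨1097968123904, 0, 0, 0⟩ 0,
  .mul 0 267,
  .mul 0 144,
  .mul 0 43,
  .mul 141 0,
  .neg 0,
  .exp 0,
  .add 7 286,
  .scale ⟨1097968123904, 0, 0, 0⟩ 0,
  .scale ⟨1097095708672, 0, 0, 0⟩ 49,
  .neg 0,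
  .add 0 290,
  .scale ⟨549755813888, 0, 0, 0⟩ 0,
  .add 1 292,
  .neg 0,
  .mul 2 0,
  .add 0 295,
  .mul 269 0,
  .mul 145 8,
  .mul 0 10,
  .scale ⟨549755813888, 0, 0, 0⟩ 0,
  .mul 3 162,
  .scale ⟨549755813888, 0, 0, 0⟩ 0,
  .mul 1 1,
  .scale ⟨97184055296, 0, 0, 0⟩ 0,
  .add 0 145,
  .add 3 0,
  .inv 0,
  .mul 10 0,
  .add 0 8,
  .inv 0,
  .add 172 0,
  .mul 25 0,
  .mul 80 300,
  .mul 0 1,
  .mul 0 105,
  .add 42 0,
  .mul 0 256,
  .scale ⟨549755813888, 0, 0, 0⟩ 1,
  .sub 318 0,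
  .pos 0,
  .inv 0,
  .add 2 320,
  .mul 0 1,
  .mul 211 308,
  .scale ⟨2199023255552, 0, 0, 0⟩ 313,
  .add 1 0,
  .mul 2 0,
  .add 203 0,
  .mul 4 4,
  .add 205 0,
  .mul 315 0,
  .sub 3 330,
  .scale ⟨549755813888, 0, 0, 0⟩ 0,
  .add 0 332,
  .mul 16 13,
  .mul 12 48,
  .scale ⟨112608673792, 0, 0, 0⟩ 0,
  .add 3 6,
  .add 0 104,
  .mul 2 0,
  .add 5 0,
  .neg 0,
  .const ⟨151731044352, 0, 0, 0⟩,
  .add 1 0,
  .pos 0]

def chk0 {α : Type} (cst : Z → α) (add sub mul : α → α → α) (scale : Z → α → α)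
    (neg inv exp log : α → α) (ok : α → Bool) (isPos : Nat → α → Bool) (isLt : α → Nat → Bool) :
    List α → Bool
  | [x0, x1, x2] =>
  let v0 := cst ⟨1099511627776, 0, 0, 0⟩; ok v0 && (
  let v1 := mul x0 x0; ok v1 && (
  let v2 := mul x1 x1; ok v2 && (
  let v3 := mul x2 x2; ok v3 && (
  let v4 := add v2 v3; ok v4 && (
  let v5 := log v4; ok v5 && (
  let v6 := scale ⟨549755813888, 0, 0, 0⟩ v5; ok v6 && (
  let v7 := exp v6; ok v7 && (
  let v8 := neg v6; ok v8 && (
  let v9 := exp v8; ok v9 && (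
  let v10 := mul x1 v9; ok v10 && (
  let v11 := mul x2 v9; ok v11 && (
  let v12 := mul x0 v7; ok v12 && (
  let v13 := mul v12 v12; ok v13 && (
  let v14 := mul v12 x0; ok v14 && (
  let v15 := mul x1 v1; ok v15 && (
  let v16 := mul v15 v15; ok v16 && (
  let v17 := mul v15 x1; ok v17 && (
  let v18 := mul v17 x0; ok v18 && (
  let v19 := cst ⟨1099243192320, 0, 0, 0⟩; ok v19 && (
  let v20 := scale ⟨3111703805952, 0, 0, 0⟩ x0; ok v20 && (
  let v21 := sub v19 v20; ok v21 && (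
  let v22 := scale ⟨32985348833280, 0, 0, 0⟩ v1; ok v22 && (
  let v23 := sub v21 v22; ok v23 && (
  let v24 := scale ⟨1556388773888, 0, 0, 0⟩ x0; ok v24 && (
  let v25 := sub v19 v24; ok v25 && (
  let v26 := scale ⟨26388279066624, 0, 0, 0⟩ v1; ok v26 && (
  let v27 := sub v25 v26; ok v27 && (
  let v28 := scale ⟨549755813888, 0, 0, 0⟩ x1; ok v28 && (
  let v29 := neg x1; ok v29 && (
  let v30 := exp v29; ok v30 && (
  let v31 := add v30 v0; ok v31 && (
  let v32 := log v31; ok v32 && (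
  let v33 := add v28 v32; ok v33 && (
  let v34 := cst ⟨1724298297344, 0, 0, 0⟩; ok v34 && (
  let v35 := add v33 v34; ok v35 && (
  let v36 := mul x0 v35; ok v36 && (
  let v37 := scale ⟨147041812480, 0, 0, 0⟩ v9; ok v37 && (
  let v38 := add v36 v37; ok v38 && (
  let v39 := mul x0 x2; ok v39 && (
  let v40 := mul v38 v38; ok v40 && (
  let v41 := mul v39 v39; ok v41 && (
  let v42 := add v40 v41; ok v42 && (
  let v43 := log v42; ok v43 && (
  let v44 := scale ⟨549755813888, 0, 0, 0⟩ v43; ok v44 && (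
  let v45 := exp v44; ok v45 && (
  let v46 := scale ⟨274877906944, 0, 0, 0⟩ v41; ok v46 && (
  let v47 := add v40 v46; ok v47 && (
  let v48 := log v47; ok v48 && (
  let v49 := scale ⟨549755813888, 0, 0, 0⟩ v48; ok v49 && (
  let v50 := exp v49; ok v50 && (
  let v51 := cst ⟨4398046511104, 0, 0, 0⟩; ok v51 && (
  let v52 := add x1 v51; ok v52 && (
  let v53 := inv v52; ok v53 && (
  let v54 := scale ⟨151733141504, 0, 0, 0⟩ v53; ok v54 && (
  let v55 := scale ⟨4398046511104, 0, 0, 0⟩ v54; ok v55 && (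
  let v56 := mul v7 v55; ok v56 && (
  let v57 := mul v2 v1; ok v57 && (
  let v58 := mul v9 v9; ok v58 && (
  let v59 := scale ⟨274877906944, 0, 0, 0⟩ v10; ok v59 && (
  let v60 := add v9 v59; ok v60 && (
  let v61 := mul v13 v1; ok v61 && (
  let v62 := mul x0 v45; ok v62 && (
  let v63 := scale ⟨989989961728, 0, 0, 0⟩ v1; ok v63 && (
  let v64 := add v62 v63; ok v64 && (
  let v65 := exp v64; ok v65 && (
  let v66 := mul v65 v65; ok v66 && (
  let v67 := neg v64; ok v67 && (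
  let v68 := cst ⟨61083746304, 0, 0, 0⟩; ok v68 && (
  let v69 := add v67 v68; ok v69 && (
  isPos 3 v69 && (
  let v70 := scale ⟨1759219023872, 0, 0, 0⟩ v13; ok v70 && (
  let v71 := scale ⟨2748779069440, 0, 0, 0⟩ x2; ok v71 && (
  let v72 := add v70 v71; ok v72 && (
  let v73 := mul v72 v1; ok v73 && (
  let v74 := scale ⟨274877906944, 0, 0, 0⟩ v16; ok v74 && (
  let v75 := sub v0 v74; ok v75 && (
  let v76 := mul v62 v45; ok v76 && (
  let v77 := scale ⟨549755813888, 0, 0, 0⟩ v76; ok v77 && (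
  let v78 := scale ⟨157073539072, 0, 0, 0⟩ v18; ok v78 && (
  let v79 := add v77 v78; ok v79 && (
  let v80 := mul v65 v79; ok v80 && (
  let v81 := add v50 v80; ok v81 && (
  let v82 := mul v11 v81; ok v82 && (
  let v83 := scale ⟨1649267441664, 0, 0, 0⟩ v66; ok v83 && (
  let v84 := cst ⟨1649267441664, 0, 0, 0⟩; ok v84 && (
  let v85 := sub v83 v84; ok v85 && (
  let v86 := scale ⟨824633720832, 0, 0, 0⟩ v16; ok v86 && (
  let v87 := add v85 v86; ok v87 && (
  let v88 := mul x2 v1; ok v88 && (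
  let v89 := add v87 v88; ok v89 && (
  let v90 := add v89 v73; ok v90 && (
  let v91 := mul v12 v90; ok v91 && (
  let v92 := add v82 v91; ok v92 && (
  let v93 := mul x2 v11; ok v93 && (
  let v94 := mul v93 v1; ok v94 && (
  let v95 := scale ⟨137438953472, 0, 0, 0⟩ v94; ok v95 && (
  let v96 := mul v18 v95; ok v96 && (
  let v97 := add v92 v96; ok v97 && (
  let v98 := mul v97 x0; ok v98 && (
  let v99 := cst ⟨3298534883328, 0, 0, 0⟩; ok v99 && (
  let v100 := sub v99 v83; ok v100 && (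
  let v101 := mul v75 v100; ok v101 && (
  let v102 := mul v10 v10; ok v102 && (
  let v103 := scale ⟨549755813888, 0, 0, 0⟩ v102; ok v103 && (
  let v104 := sub v101 v103; ok v104 && (
  let v105 := mul v11 v11; ok v105 && (
  let v106 := mul v105 v65; ok v106 && (
  let v107 := sub v104 v106; ok v107 && (
  let v108 := sub v107 v73; ok v108 && (
  let v109 := mul v75 v103; ok v109 && (
  let v110 := sub v83 v109; ok v110 && (
  let v111 := add v110 v73; ok v111 && (
  let v112 := mul v70 v1; ok v112 && (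
  let v113 := scale ⟨1121502363648, 0, 0, 0⟩ v112; ok v113 && (
  let v114 := add v0 v113; ok v114 && (
  let v115 := mul v61 v66; ok v115 && (
  let v116 := scale ⟨2199023255552, 0, 0, 0⟩ v115; ok v116 && (
  let v117 := add v114 v116; ok v117 && (
  let v118 := mul v11 v117; ok v118 && (
  let v119 := mul v14 v73; ok v119 && (
  let v120 := add v118 v119; ok v120 && (
  let v121 := mul v108 v14; ok v121 && (
  let v122 := mul v120 v120; ok v122 && (
  let v123 := add v102 v122; ok v123 && (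
  let v124 := scale ⟨1098437885952, 0, 0, 0⟩ v108; ok v124 && (
  let v125 := mul v121 v121; ok v125 && (
  let v126 := add v123 v125; ok v126 && (
  let v127 := inv v126; ok v127 && (
  let v128 := mul v124 v127; ok v128 && (
  let v129 := neg v128; ok v129 && (
  let v130 := add v129 v0; ok v130 && (
  isPos 3 v130 && (
  let v131 := mul v105 v61; ok v131 && (
  let v132 := scale ⟨2199023255552, 0, 0, 0⟩ v131; ok v132 && (
  let v133 := sub v0 v132; ok v133 && (
  let v134 := sub v133 v98; ok v134 && (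
  let v135 := mul v98 v98; ok v135 && (
  let v136 := sub v134 v135; ok v136 && (
  let v137 := mul v136 v136; ok v137 && (
  let v138 := mul v12 v136; ok v138 && (
  let v139 := scale ⟨8796093022208, 0, 0, 0⟩ v1; ok v139 && (
  let v140 := sub v23 v139; ok v140 && (
  let v141 := scale ⟨7972533043200, 0, 0, 0⟩ v61; ok v141 && (
  let v142 := sub v140 v141; ok v142 && (
  let v143 := scale ⟨1097968123904, 0, 0, 0⟩ v128; ok v143 && (
  let v144 := add v128 v0; ok v144 && (
  let v145 := scale ⟨1097968123904, 0, 0, 0⟩ v144; ok v145 && (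
  let v146 := mul v143 v13; ok v146 && (
  let v147 := mul v146 v137; ok v147 && (
  let v148 := mul v142 v147; ok v148 && (
  let v149 := neg v148; ok v149 && (
  let v150 := exp v149; ok v150 && (
  let v151 := scale ⟨1098301571072, 0, 0, 0⟩ v27; ok v151 && (
  let v152 := mul v23 v138; ok v152 && (
  let v153 := mul v152 v145; ok v153 && (
  let v154 := scale ⟨548547854336, 0, 0, 0⟩ v153; ok v154 && (
  let v155 := mul v151 v138; ok v155 && (
  let v156 := scale ⟨549755813888, 0, 0, 0⟩ v155; ok v156 && (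
  let v157 := mul v155 v155; ok v157 && (
  let v158 := scale ⟨97184055296, 0, 0, 0⟩ v157; ok v158 && (
  let v159 := cst ⟨1554944884736, 0, 0, 0⟩; ok v159 && (
  let v160 := add v158 v159; ok v160 && (
  let v161 := add v156 v160; ok v161 && (
  let v162 := inv v161; ok v162 && (
  let v163 := mul v151 v162; ok v163 && (
  let v164 := add v163 v154; ok v164 && (
  let v165 := inv v164; ok v165 && (
  let v166 := add v138 v165; ok v166 && (
  let v167 := mul v150 v166; ok v167 && (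
  let v168 := cst ⟨2199023255552, 0, 0, 0⟩; ok v168 && (
  let v169 := add v128 v168; ok v169 && (
  let v170 := scale ⟨1097968123904, 0, 0, 0⟩ v169; ok v170 && (
  let v171 := scale ⟨1097093611520, 0, 0, 0⟩ v27; ok v171 && (
  let v172 := mul v152 v170; ok v172 && (
  let v173 := scale ⟨547341991936, 0, 0, 0⟩ v172; ok v173 && (
  let v174 := mul v171 v138; ok v174 && (
  let v175 := scale ⟨549755813888, 0, 0, 0⟩ v174; ok v175 && (
  let v176 := mul v174 v174; ok v176 && (
  let v177 := scale ⟨97184055296, 0, 0, 0⟩ v176; ok v177 && (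
  let v178 := add v177 v159; ok v178 && (
  let v179 := add v175 v178; ok v179 && (
  let v180 := inv v179; ok v180 && (
  let v181 := mul v171 v180; ok v181 && (
  let v182 := add v181 v173; ok v182 && (
  let v183 := inv v182; ok v183 && (
  let v184 := mul v145 v13; ok v184 && (
  let v185 := mul v184 v137; ok v185 && (
  let v186 := scale ⟨1097095708672, 0, 0, 0⟩ v185; ok v186 && (
  let v187 := mul v142 v186; ok v187 && (
  let v188 := neg v187; ok v188 && (
  let v189 := exp v188; ok v189 && (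
  let v190 := add v138 v183; ok v190 && (
  let v191 := mul v189 v190; ok v191 && (
  let v192 := sub v0 v56; ok v192 && (
  isPos 3 v192 && (
  let v193 := inv v192; ok v193 && (
  let v194 := scale ⟨549755813888, 0, 0, 0⟩ v56; ok v194 && (
  let v195 := add v0 v194; ok v195 && (
  let v196 := mul v56 v56; ok v196 && (
  let v197 := mul v196 v193; ok v197 && (
  let v198 := scale ⟨366504574976, 0, 0, 0⟩ v197; ok v198 && (
  let v199 := add v195 v198; ok v199 && (
  let v200 := mul v150 v56; ok v200 && (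
  let v201 := scale ⟨549755813888, 0, 0, 0⟩ v200; ok v201 && (
  let v202 := add v0 v201; ok v202 && (
  let v203 := mul v200 v200; ok v203 && (
  let v204 := sub v0 v200; ok v204 && (
  let v205 := inv v204; ok v205 && (
  let v206 := mul v203 v205; ok v206 && (
  let v207 := scale ⟨366504574976, 0, 0, 0⟩ v206; ok v207 && (
  let v208 := add v202 v207; ok v208 && (
  let v209 := inv v136; ok v209 && (
  let v210 := mul v97 v12; ok v210 && (
  let v211 := mul v97 v191; ok v211 && (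
  let v212 := mul v211 v209; ok v212 && (
  let v213 := add v210 v212; ok v213 && (
  let v214 := mul v56 v199; ok v214 && (
  let v215 := add v213 v214; ok v215 && (
  let v216 := mul v97 v167; ok v216 && (
  let v217 := mul v216 v209; ok v217 && (
  let v218 := mul v200 v208; ok v218 && (
  let v219 := add v217 v218; ok v219 && (
  let v220 := mul x2 v215; ok v220 && (
  let v221 := mul v220 v58; ok v221 && (
  let v222 := neg v215; ok v222 && (
  let v223 := cst ⟨989989961728, 0, 0, 0⟩; ok v223 && (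
  let v224 := add v222 v223; ok v224 && (
  isPos 3 v224 && (
  let v225 := neg v219; ok v225 && (
  let v226 := add v225 v223; ok v226 && (
  isPos 3 v226 && (
  let v227 := scale ⟨1165482786816, 0, 0, 0⟩ v66; ok v227 && (
  let v228 := scale ⟨2199023255552, 0, 0, 0⟩ v215; ok v228 && (
  let v229 := add v228 v219; ok v229 && (
  let v230 := mul v1 v229; ok v230 && (
  let v231 := add v221 v230; ok v231 && (
  let v232 := mul v227 v231; ok v232 && (
  let v233 := mul v232 v14; ok v233 && (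
  let v234 := mul v233 v209; ok v234 && (
  let v235 := sub v0 v234; ok v235 && (
  isPos 3 v235 && (
  let v236 := scale ⟨2199023255552, 0, 0, 0⟩ v234; ok v236 && (
  let v237 := neg v236; ok v237 && (
  let v238 := cst ⟨1097095708672, 0, 0, 0⟩; ok v238 && (
  let v239 := add v237 v238; ok v239 && (
  let v240 := sub v123 v0; ok v240 && (
  let v241 := scale ⟨549755813888, 0, 0, 0⟩ v240; ok v241 && (
  let v242 := add v241 v0; ok v242 && (
  let v243 := cst ⟨2083864444928, 0, 0, 0⟩; ok v243 && (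
  let v244 := add v98 v0; ok v244 && (
  let v245 := mul v244 v244; ok v245 && (
  let v246 := sub v243 v245; ok v246 && (
  isPos 3 v246 && (
  let v247 := cst ⟨3189013217280, 0, 0, 0⟩; ok v247 && (
  let v248 := sub v247 v111; ok v248 && (
  let v249 := sub v248 v232; ok v249 && (
  let v250 := add v242 v98; ok v250 && (
  let v251 := add v250 v233; ok v251 && (
  let v252 := mul v251 v251; ok v252 && (
  let v253 := sub v249 v252; ok v253 && (
  isPos 3 v253 && (
  let v254 := mul v137 v239; ok v254 && (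
  let v255 := scale ⟨10115506765824, 0, 0, 0⟩ v254; ok v255 && (
  let v256 := sub v255 v247; ok v256 && (
  isPos 3 v256 && (
  let v257 := scale ⟨989560045568, 0, 0, 0⟩ v254; ok v257 && (
  let v258 := scale ⟨9249480507392, 0, 0, 0⟩ v61; ok v258 && (
  let v259 := sub v257 v258; ok v259 && (
  isPos 3 v259 && (
  isPos 3 v142 && (
  isPos 3 v134 && (
  isPos 3 v136 && (
  let v260 := mul v137 v235; ok v260 && (
  let v261 := inv v260; ok v261 && (
  let v262 := mul v232 v261; ok v262 && (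
  let v263 := scale ⟨1121758216192, 0, 0, 0⟩ v262; ok v263 && (
  let v264 := sub v128 v263; ok v264 && (
  let v265 := cst ⟨136096776192, 0, 0, 0⟩; ok v265 && (
  let v266 := sub v264 v265; ok v266 && (
  isPos 3 v266 && (
  let v267 := sub v108 v232; ok v267 && (
  isPos 3 v267 && (
  let v268 := sub v0 v236; ok v268 && (
  let v269 := mul v137 v268; ok v269 && (
  let v270 := scale ⟨2100239007744, 0, 0, 0⟩ v269; ok v270 && (
  let v271 := sub v270 v111; ok v271 && (
  let v272 := sub v271 v232; ok v272 && (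
  isPos 3 v272 && (
  let v273 := mul v232 v13; ok v273 && (
  let v274 := mul v120 v7; ok v274 && (
  let v275 := add v274 v273; ok v275 && (
  let v276 := neg v275; ok v276 && (
  let v277 := cst ⟨3518651957248, 0, 0, 0⟩; ok v277 && (
  let v278 := add v276 v277; ok v278 && (
  isPos 3 v278 && (
  let v279 := add v264 v0; ok v279 && (
  let v280 := scale ⟨1097968123904, 0, 0, 0⟩ v279; ok v280 && (
  let v281 := mul v280 v13; ok v281 && (
  let v282 := mul v281 v137; ok v282 && (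
  let v283 := mul v282 v239; ok v283 && (
  let v284 := mul v142 v283; ok v284 && (
  let v285 := neg v284; ok v285 && (
  let v286 := exp v285; ok v286 && (
  let v287 := add v279 v0; ok v287 && (
  let v288 := scale ⟨1097968123904, 0, 0, 0⟩ v287; ok v288 && (
  let v289 := scale ⟨1097095708672, 0, 0, 0⟩ v239; ok v289 && (
  let v290 := neg v289; ok v290 && (
  let v291 := add v290 v0; ok v291 && (
  let v292 := scale ⟨549755813888, 0, 0, 0⟩ v291; ok v292 && (
  let v293 := add v291 v0; ok v293 && (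
  let v294 := neg v293; ok v294 && (
  let v295 := mul v292 v294; ok v295 && (
  let v296 := add v295 v0; ok v296 && (
  let v297 := mul v27 v296; ok v297 && (
  let v298 := mul v152 v289; ok v298 && (
  let v299 := mul v298 v288; ok v299 && (
  let v300 := scale ⟨549755813888, 0, 0, 0⟩ v299; ok v300 && (
  let v301 := mul v297 v138; ok v301 && (
  let v302 := scale ⟨549755813888, 0, 0, 0⟩ v301; ok v302 && (
  let v303 := mul v301 v301; ok v303 && (
  let v304 := scale ⟨97184055296, 0, 0, 0⟩ v303; ok v304 && (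
  let v305 := add v304 v159; ok v305 && (
  let v306 := add v302 v305; ok v306 && (
  let v307 := inv v306; ok v307 && (
  let v308 := mul v297 v307; ok v308 && (
  let v309 := add v308 v300; ok v309 && (
  let v310 := inv v309; ok v310 && (
  let v311 := add v138 v310; ok v311 && (
  let v312 := mul v286 v311; ok v312 && (
  let v313 := mul v232 v12; ok v313 && (
  let v314 := mul v313 v312; ok v314 && (
  let v315 := mul v314 v209; ok v315 && (
  let v316 := add v273 v315; ok v316 && (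
  let v317 := mul v316 v60; ok v317 && (
  let v318 := scale ⟨549755813888, 0, 0, 0⟩ v316; ok v318 && (
  let v319 := sub v0 v318; ok v319 && (
  isPos 3 v319 && (
  let v320 := inv v319; ok v320 && (
  let v321 := add v318 v0; ok v321 && (
  let v322 := mul v321 v320; ok v322 && (
  let v323 := mul v111 v14; ok v323 && (
  let v324 := scale ⟨2199023255552, 0, 0, 0⟩ v10; ok v324 && (
  let v325 := add v323 v324; ok v325 && (
  let v326 := mul v323 v325; ok v326 && (
  let v327 := add v123 v326; ok v327 && (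
  let v328 := mul v323 v323; ok v328 && (
  let v329 := add v123 v328; ok v329 && (
  let v330 := mul v14 v329; ok v330 && (
  let v331 := sub v327 v0; ok v331 && (
  let v332 := scale ⟨549755813888, 0, 0, 0⟩ v331; ok v332 && (
  let v333 := add v332 v0; ok v333 && (
  let v334 := mul v317 v320; ok v334 && (
  let v335 := mul v322 v286; ok v335 && (
  let v336 := scale ⟨112608673792, 0, 0, 0⟩ v335; ok v336 && (
  let v337 := add v333 v330; ok v337 && (
  let v338 := add v337 v233; ok v338 && (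
  let v339 := mul v336 v338; ok v339 && (
  let v340 := add v334 v339; ok v340 && (
  let v341 := neg v340; ok v341 && (
  let v342 := cst ⟨151731044352, 0, 0, 0⟩; ok v342 && (
  let v343 := add v341 v342; ok v343 && (
  isPos 3 v343 && (
  true)))))))))))))))))))))))))))))))))))))))))))))))))))))))))))))))))))))))))))))))))))))))))))))))))))))))))))))))))))))))))))))))))))))))))))))))))))))))))))))))))))))))))))))))))))))))))))))))))))))))))))))))))))))))))))))))))))))))))))))))))))))))))))))))))))))))))))))))))))))))))))))))))))))))))))))))))))))))))))))))))))))))))))))))))))))))))))))))))))))))))))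
  | _ => false

set_option maxRecDepth 1000000 in
theorem chk0_eq (O : Ops) (m : List O.α)
    (h : chk0 O.cst O.add O.sub O.mul O.scale O.neg O.inv O.exp O.log O.ok O.isPos O.isLt m = true) :
    runG O 3 prog0 m = true := by
  match m, h with
  | [x0, x1, x2], h => exact h

def chkB0 : List opsE.α → Bool :=
  chk0 opsE.cst opsE.add opsE.sub opsE.mul opsE.scale opsE.neg opsE.inv opsE.exp opsE.log opsE.ok opsE.isPos opsE.isLt

theorem chkB0_eq (m : List opsE.α) (h : chkB0 m = true) : runG opsE 3 prog0 m = true :=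
  chk0_eq opsE m h

def progs : List (List Op) := [prog0]

def chks : List (List opsE.α → Bool) := [chkB0]

theorem chks_eq : List.Forall₂ (fun (ops : List Op) (chk : List opsE.α → Bool) =>
    ∀ m, chk m = true → runG opsE 3 ops m = true) progs chks :=
  List.Forall₂.cons chkB0_eq List.Forall₂.nil

end Pool.Agent.helper31.EQB.Cert.FQ
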