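import Pool.Agent.helper31.EQB.Cert.FQP

/-!
Generated certificates.
-/

namespace Pool.Agent.helper31.EQB.Cert.FQ

open Pool.Agent.helper31.IA (Z Op)
open Pool.Agent.helper31.IC

mutual
theorem c0_m0_t0 : CovD 0 progs [(12314542080, 12314542080), (824633720832, 824633720832), (3084322537472, 369903206400)] :=
  Pool.Agent.helper14.QF.covD_F chks_eq (.n 1 (.n 2 (.n 0 (.n 0 (.l 0) (.l 0)) (.l 0)) (.n 0 (.n 0 (.n 0 (.l 0) (.l 0)) (.l 0)) (.n 0 (.l 0) (.l 0)))) (.n 0 (.n 0 (.n 0 (.n 2 (.l 0) (.l 0)) (.n 2 (.l 0) (.l 0))) (.n 2 (.l 0) (.l 0))) (.n 0 (.n 2 (.l 0) (.l 0)) (.n 2 (.l 0) (.l 0)))))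
    [(12314542080, 12314542080), (824633720832, 824633720832), (3084322537472, 369903206400)] rfl (by decide +kernel)
theorem c0_m0_t1 : CovD 0 progs [(36943626240, 12314542080), (824633720832, 824633720832), (3084322537472, 369903206400)] :=
  Pool.Agent.helper14.QF.covD_F chks_eq (.n 0 (.n 1 (.n 2 (.n 1 (.l 0) (.l 0)) (.l 0)) (.n 2 (.l 0) (.l 0))) (.n 1 (.n 1 (.n 1 (.n 2 (.n 0 (.l 0) (.n 2 (.n 1 (.n 1 (.n 2 (.l 0) (.l 0)) (.l 0)) (.l 0)) (.l 0))) (.n 2 (.l 0) (.l 0))) (.n 2 (.l 0) (.l 0))) (.n 2 (.l 0) (.l 0))) (.n 2 (.l 0) (.l 0))))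
    [(36943626240, 12314542080), (824633720832, 824633720832), (3084322537472, 369903206400)] rfl (by decide +kernel)
end
mutual
theorem c1_m0 : CovD 0 progs [(24629084160, 24629084160), (2164663517184, 584115552256), (2946883584000, 507342159872)] :=
  Pool.Agent.helper14.QF.covD_F chks_eq (.n 0 (.n 0 (.n 0 (.n 0 (.n 1 (.n 2 (.l 0) (.l 0)) (.n 2 (.l 0) (.l 0))) (.n 2 (.l 0) (.n 1 (.l 0) (.l 0)))) (.n 1 (.n 2 (.l 0) (.l 0)) (.n 2 (.l 0) (.l 0)))) (.n 0 (.n 2 (.l 0) (.n 1 (.l 0) (.l 0))) (.n 2 (.l 0) (.n 1 (.l 0) (.l 0))))) (.n 0 (.n 2 (.l 0) (.n 1 (.l 0) (.l 0))) (.n 1 (.n 2 (.l 0) (.l 0)) (.n 2 (.l 0) (.l 0)))))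
    [(24629084160, 24629084160), (2164663517184, 584115552256), (2946883584000, 507342159872)] rfl (by decide +kernel)
theorem c2_m0_t0 : CovD 0 progs [(6157271040, 6157271040), (3062311682048, 347892350976), (2259688816640, 1194536927232)] :=
  Pool.Agent.helper14.QF.covD_F chks_eq (.n 0 (.n 0 (.n 2 (.n 1 (.n 2 (.l 0) (.l 0)) (.n 2 (.l 0) (.l 0))) (.n 2 (.l 0) (.l 0))) (.n 2 (.n 2 (.n 1 (.l 0) (.l 0)) (.l 0)) (.n 2 (.l 0) (.l 0)))) (.n 2 (.n 2 (.n 1 (.l 0) (.l 0)) (.l 0)) (.n 2 (.l 0) (.l 0))))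
    [(6157271040, 6157271040), (3062311682048, 347892350976), (2259688816640, 1194536927232)] rfl (by decide +kernel)
end
mutual
theorem c2_m0_t1 : CovD 0 progs [(18471813120, 6157271040), (3062311682048, 347892350976), (2259688816640, 1194536927232)] :=
  Pool.Agent.helper14.QF.covD_F chks_eq (.n 0 (.n 2 (.n 2 (.n 1 (.l 0) (.l 0)) (.l 0)) (.n 2 (.l 0) (.l 0))) (.n 2 (.n 2 (.n 1 (.l 0) (.l 0)) (.l 0)) (.n 2 (.l 0) (.l 0))))
    [(18471813120, 6157271040), (3062311682048, 347892350976), (2259688816640, 1194536927232)] rfl (by decide +kernel)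
theorem c2_m0_t3 : CovD 0 progs [(36943626240, 12314542080), (3062311682048, 347892350976), (2259688816640, 1194536927232)] :=
  Pool.Agent.helper14.QF.covD_F chks_eq (.n 0 (.n 2 (.n 2 (.n 1 (.l 0) (.l 0)) (.l 0)) (.n 2 (.l 0) (.l 0))) (.n 2 (.n 2 (.n 1 (.l 0) (.l 0)) (.l 0)) (.n 2 (.l 0) (.l 0))))
    [(36943626240, 12314542080), (3062311682048, 347892350976), (2259688816640, 1194536927232)] rfl (by decide +kernel)
end
mutual
theorem c2_m0_t5 : CovD 0 progs [(6157271040, 6157271040), (3758096384000, 347892350976), (2259688816640, 1194536927232)] :=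
  Pool.Agent.helper14.QF.covD_F chks_eq (.n 0 (.n 0 (.n 2 (.n 2 (.n 1 (.l 0) (.l 0)) (.l 0)) (.n 2 (.l 0) (.n 0 (.l 0) (.l 0)))) (.n 2 (.n 2 (.n 1 (.l 0) (.l 0)) (.l 0)) (.n 2 (.l 0) (.l 0)))) (.n 2 (.n 2 (.n 1 (.l 0) (.l 0)) (.l 0)) (.n 2 (.l 0) (.l 0))))
    [(6157271040, 6157271040), (3758096384000, 347892350976), (2259688816640, 1194536927232)] rfl (by decide +kernel)
theorem c2_m0_t6 : CovD 0 progs [(18471813120, 6157271040), (3758096384000, 347892350976), (2259688816640, 1194536927232)] :=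
  Pool.Agent.helper14.QF.covD_F chks_eq (.n 0 (.n 2 (.n 2 (.n 1 (.l 0) (.l 0)) (.l 0)) (.n 2 (.l 0) (.l 0))) (.n 2 (.n 2 (.n 1 (.l 0) (.l 0)) (.l 0)) (.n 2 (.l 0) (.l 0))))
    [(18471813120, 6157271040), (3758096384000, 347892350976), (2259688816640, 1194536927232)] rfl (by decide +kernel)
end
mutual
theorem c2_m0_t8 : CovD 0 progs [(36943626240, 12314542080), (3758096384000, 347892350976), (2259688816640, 1194536927232)] :=
  Pool.Agent.helper14.QF.covD_F chks_eq (.n 2 (.n 0 (.n 2 (.n 1 (.l 0) (.l 0)) (.l 0)) (.n 2 (.l 0) (.l 0))) (.n 0 (.n 2 (.l 0) (.l 0)) (.n 2 (.l 0) (.l 0))))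
    [(36943626240, 12314542080), (3758096384000, 347892350976), (2259688816640, 1194536927232)] rfl (by decide +kernel)
theorem c2_m0_t11 : CovD 0 progs [(6157271040, 6157271040), (4453881085952, 347892350976), (2259688816640, 1194536927232)] :=
  Pool.Agent.helper14.QF.covD_F chks_eq (.n 0 (.n 0 (.n 1 (.n 2 (.n 1 (.l 0) (.l 0)) (.n 0 (.l 0) (.l 0))) (.n 2 (.n 1 (.l 0) (.l 0)) (.n 0 (.l 0) (.l 0)))) (.n 2 (.n 2 (.n 1 (.l 0) (.l 0)) (.l 0)) (.n 1 (.l 0) (.l 0)))) (.n 2 (.n 2 (.n 1 (.l 0) (.l 0)) (.l 0)) (.n 2 (.l 0) (.l 0))))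
    [(6157271040, 6157271040), (4453881085952, 347892350976), (2259688816640, 1194536927232)] rfl (by decide +kernel)
end
mutual
theorem c2_m0_t12 : CovD 0 progs [(18471813120, 6157271040), (4453881085952, 347892350976), (2259688816640, 1194536927232)] :=
  Pool.Agent.helper14.QF.covD_F chks_eq (.n 0 (.n 2 (.n 2 (.l 0) (.l 0)) (.n 1 (.l 0) (.l 0))) (.n 2 (.n 2 (.l 0) (.l 0)) (.n 1 (.l 0) (.l 0))))
    [(18471813120, 6157271040), (4453881085952, 347892350976), (2259688816640, 1194536927232)] rfl (by decide +kernel)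
theorem c2_m0_t14 : CovD 0 progs [(36943626240, 12314542080), (4453881085952, 347892350976), (2259688816640, 1194536927232)] :=
  Pool.Agent.helper14.QF.covD_F chks_eq (.n 2 (.n 0 (.n 2 (.l 0) (.l 0)) (.n 1 (.l 0) (.l 0))) (.n 0 (.n 2 (.l 0) (.l 0)) (.n 1 (.l 0) (.l 0))))
    [(36943626240, 12314542080), (4453881085952, 347892350976), (2259688816640, 1194536927232)] rfl (by decide +kernel)
end
mutual
theorem c2_m0_t16 : CovD 0 progs [(24629084160, 24629084160), (5149665787904, 347892350976), (1662420353024, 597268463616)] :=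
  Pool.Agent.helper14.QF.covD_F chks_eq (.n 0 (.n 0 (.n 0 (.n 0 (.n 0 (.n 2 (.l 0) (.l 0)) (.n 2 (.l 0) (.l 0))) (.n 2 (.l 0) (.l 0))) (.n 2 (.l 0) (.l 0))) (.n 0 (.n 2 (.l 0) (.l 0)) (.n 2 (.l 0) (.l 0)))) (.n 0 (.n 1 (.l 0) (.l 0)) (.n 1 (.l 0) (.l 0))))
    [(24629084160, 24629084160), (5149665787904, 347892350976), (1662420353024, 597268463616)] rfl (by decide +kernel)
theorem c2_m0_t17 : CovD 0 progs [(24629084160, 24629084160), (5149665787904, 347892350976), (2856957280256, 597268463616)] :=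
  Pool.Agent.helper14.QF.covD_F chks_eq (.n 0 (.n 0 (.n 0 (.n 0 (.n 0 (.l 0) (.l 0)) (.l 0)) (.n 0 (.l 0) (.l 0))) (.n 0 (.l 0) (.l 0))) (.n 0 (.n 0 (.l 0) (.l 0)) (.l 0)))
    [(24629084160, 24629084160), (5149665787904, 347892350976), (2856957280256, 597268463616)] rfl (by decide +kernel)
end

theorem c0_m0 : CovD 0 progs [(24629084160, 24629084160), (824633720832, 824633720832), (3084322537472, 369903206400)] :=
  covD_split 0 (by decide +kernel) c0_m0_t0 c0_m0_t1
theorem c2_m0_t2 : CovD 0 progs [(12314542080, 12314542080), (3062311682048, 347892350976), (2259688816640, 1194536927232)] :=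
  covD_split 0 (by decide +kernel) c2_m0_t0 c2_m0_t1
theorem c2_m0_t4 : CovD 0 progs [(24629084160, 24629084160), (3062311682048, 347892350976), (2259688816640, 1194536927232)] :=
  covD_split 0 (by decide +kernel) c2_m0_t2 c2_m0_t3
theorem c2_m0_t7 : CovD 0 progs [(12314542080, 12314542080), (3758096384000, 347892350976), (2259688816640, 1194536927232)] :=
  covD_split 0 (by decide +kernel) c2_m0_t5 c2_m0_t6
theorem c2_m0_t9 : CovD 0 progs [(24629084160, 24629084160), (3758096384000, 347892350976), (2259688816640, 1194536927232)] :=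
  covD_split 0 (by decide +kernel) c2_m0_t7 c2_m0_t8
theorem c2_m0_t10 : CovD 0 progs [(24629084160, 24629084160), (3410204033024, 695784701952), (2259688816640, 1194536927232)] :=
  covD_split 1 (by decide +kernel) c2_m0_t4 c2_m0_t9
theorem c2_m0_t13 : CovD 0 progs [(12314542080, 12314542080), (4453881085952, 347892350976), (2259688816640, 1194536927232)] :=
  covD_split 0 (by decide +kernel) c2_m0_t11 c2_m0_t12
theorem c2_m0_t15 : CovD 0 progs [(24629084160, 24629084160), (4453881085952, 347892350976), (2259688816640, 1194536927232)] :=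
  covD_split 0 (by decide +kernel) c2_m0_t13 c2_m0_t14
theorem c2_m0_t18 : CovD 0 progs [(24629084160, 24629084160), (5149665787904, 347892350976), (2259688816640, 1194536927232)] :=
  covD_split 2 (by decide +kernel) c2_m0_t16 c2_m0_t17
theorem c2_m0_t19 : CovD 0 progs [(24629084160, 24629084160), (4801773436928, 695784701952), (2259688816640, 1194536927232)] :=
  covD_split 1 (by decide +kernel) c2_m0_t15 c2_m0_t18
theorem c2_m0 : CovD 0 progs [(24629084160, 24629084160), (4105988734976, 1391569403904), (2259688816640, 1194536927232)] :=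
  covD_split 1 (by decide +kernel) c2_m0_t10 c2_m0_t19

end Pool.Agent.helper31.EQB.Cert.FQ
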