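import Pool.Agent.helper31.EQB.Cert.FR_0

/-!
Generated certificates, assembled.
-/

namespace Pool.Agent.helper31.EQB.Cert.FR

open Pool.Agent.helper31.IA (Z Op)
open Pool.Agent.helper31.IC

theorem c0_all : CovD 0 progs [(24629084160, 24629084160), (824633720832, 824633720832), (274877906944, 274877906944)] := c0_m0

theorem c1_all : CovD 0 progs [(24629084160, 24629084160), (824633720832, 824633720832), (824633720832, 274877906944)] := c1_m0

theorem c2_all : CovD 0 progs [(24629084160, 24629084160), (2473901162496, 824633720832), (274877906944, 274877906944)] := c2_m0

theorem c3_all : CovD 0 progs [(24629084160, 24629084160), (2473901162496, 824633720832), (824633720832, 274877906944)] := c3_m0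

theorem c4_all : CovD 0 progs [(24629084160, 24629084160), (4123168604160, 824633720832), (274877906944, 274877906944)] := c4_m0

theorem c5_all : CovD 0 progs [(24629084160, 24629084160), (4123168604160, 824633720832), (824633720832, 274877906944)] := c5_m0

theorem c6_all : CovD 0 progs [(24629084160, 24629084160), (5772436045824, 824633720832), (274877906944, 274877906944)] := c6_m0

theorem c7_all : CovD 0 progs [(24629084160, 24629084160), (5772436045824, 824633720832), (824633720832, 274877906944)] := c7_m0

end Pool.Agent.helper31.EQB.Cert.FR
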