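import Pool.Agent.helper31.IC.EngD
import Pool.Agent.helper14.QF.Inst

/-!
Generated: straight line program(s) and compiled form(s).
-/

namespace Pool.Agent.helper31.EQB.Cert.FR

open Pool.Agent.helper31.IA (Z Op)
open Pool.Agent.helper31.IC

set_option maxRecDepth 100000

abbrev opsE : Ops := Pool.Agent.helper14.QF.opsF

def prog0 : List Op := [
  .const ⟨1099511627776, 0, 0, 0⟩,
  .mul 1 1,
  .mul 4 4,
  .add 0 2,
  .inv 0,
  .sub 4 2,
  .mul 0 1,
  .mul 9 2,
  .scale ⟨2199023255552, 0, 0, 0⟩ 0,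
  .mul 10 2,
  .mul 11 1,
  .mul 11 12,
  .mul 0 0,
  .mul 1 13,
  .mul 4 12,
  .mul 0 0,
  .mul 1 6,
  .mul 0 17,
  .const ⟨1099243192320, 0, 0, 0⟩,
  .scale ⟨3111703805952, 0, 0, 0⟩ 19,
  .sub 1 0,
  .scale ⟨32985348833280, 0, 0, 0⟩ 19,
  .sub 1 0,
  .scale ⟨1556388773888, 0, 0, 0⟩ 23,
  .sub 5 0,
  .scale ⟨26388279066624, 0, 0, 0⟩ 23,
  .sub 1 0,
  .scale ⟨549755813888, 0, 0, 0⟩ 17,
  .neg 18,
  .exp 0,
  .add 0 29,
  .log 0,
  .add 4 0,
  .mul 33 0,
  .mul 1 1,
  .mul 24 24,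
  .add 1 0,
  .log 0,
  .scale ⟨549755813888, 0, 0, 0⟩ 0,
  .exp 0,
  .mul 40 0,
  .scale ⟨274877906944, 0, 0, 0⟩ 5,
  .add 7 0,
  .log 0,
  .scale ⟨549755813888, 0, 0, 0⟩ 0,
  .exp 0,
  .mul 46 0,
  .const ⟨4398046511104, 0, 0, 0⟩,
  .add 38 0,
  .inv 0,
  .scale ⟨151733141504, 0, 0, 0⟩ 0,
  .scale ⟨4398046511104, 0, 0, 0⟩ 0,
  .mul 53 0,
  .mul 43 43,
  .mul 0 52,
  .mul 42 53,
  .mul 56 15,
  .scale ⟨989989961728, 0, 0, 0⟩ 55,
  .add 1 0,
  .exp 0,
  .mul 0 0,
  .neg 2,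
  .const ⟨61083746304, 0, 0, 0⟩,
  .add 1 0,
  .pos 0,
  .scale ⟨1759219023872, 0, 0, 0⟩ 51,
  .scale ⟨2748779069440, 0, 0, 0⟩ 54,
  .add 1 0,
  .mul 0 65,
  .scale ⟨274877906944, 0, 0, 0⟩ 52,
  .sub 68 0,
  .mul 13 29,
  .scale ⟨549755813888, 0, 0, 0⟩ 0,
  .scale ⟨157073539072, 0, 0, 0⟩ 54,
  .add 1 0,
  .mul 14 0,
  .add 28 0,
  .mul 67 0,
  .scale ⟨1649267441664, 0, 0, 0⟩ 16,
  .const ⟨1649267441664, 0, 0, 0⟩,
  .sub 1 0,
  .scale ⟨824633720832, 0, 0, 0⟩ 64,
  .add 1 0,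
  .mul 71 80,
  .add 1 0,
  .add 0 16,
  .mul 73 0,
  .add 9 0,
  .mul 76 78,
  .mul 0 86,
  .scale ⟨137438953472, 0, 0, 0⟩ 0,
  .mul 72 0,
  .add 4 0,
  .mul 0 92,
  .const ⟨3298534883328, 0, 0, 0⟩,
  .sub 0 16,
  .mul 25 0,
  .mul 89 89,
  .scale ⟨549755813888, 0, 0, 0⟩ 0,
  .sub 2 0,
  .mul 90 90,
  .mul 0 40,
  .sub 2 0,
  .sub 0 34,
  .mul 33 5,
  .sub 26 0,
  .add 0 37,
  .mul 41 104,
  .scale ⟨1121502363648, 0, 0, 0⟩ 0,
  .add 107 0,
  .mul 53 48,
  .scale ⟨2199023255552, 0, 0, 0⟩ 0,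
  .add 2 0,
  .mul 103 0,
  .mul 99 45,
  .add 1 0,
  .mul 12 101,
  .mul 1 1,
  .add 20 0,
  .scale ⟨1098437885952, 0, 0, 0⟩ 15,
  .mul 3 3,
  .add 2 0,
  .inv 0,
  .mul 3 0,
  .neg 0,
  .add 0 123,
  .pos 0,
  .mul 25 69,
  .scale ⟨2199023255552, 0, 0, 0⟩ 0,
  .sub 126 0,
  .sub 0 35,
  .mul 36 36,
  .sub 1 0,
  .mul 0 0,
  .mul 120 1,
  .scale ⟨8796093022208, 0, 0, 0⟩ 131,
  .sub 111 0,
  .scale ⟨7972533043200, 0, 0, 0⟩ 79,
  .sub 1 0,
  .scale ⟨1097968123904, 0, 0, 0⟩ 14,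
  .add 15 137,
  .scale ⟨1097968123904, 0, 0, 0⟩ 0,
  .mul 2 127,
  .mul 0 9,
  .mul 5 0,
  .neg 0,
  .exp 0,
  .sub 144 92,
  .pos 0,
  .inv 0,
  .scale ⟨549755813888, 0, 0, 0⟩ 94,
  .add 147 0,
  .mul 96 96,
  .mul 0 3,
  .scale ⟨366504574976, 0, 0, 0⟩ 0,
  .add 3 0,
  .mul 8 100,
  .scale ⟨549755813888, 0, 0, 0⟩ 0,
  .add 154 0,
  .mul 2 2,
  .sub 156 3,
  .inv 0,
  .mul 2 0,
  .scale ⟨366504574976, 0, 0, 0⟩ 0,
  .add 5 0,
  .inv 31,
  .mul 71 151,
  .scale ⟨1992864825344, 0, 0, 0⟩ 0,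
  .add 1 0,
  .mul 113 13,
  .add 1 0,
  .scale ⟨3092376453120, 0, 0, 0⟩ 4,
  .mul 15 7,
  .add 1 0,
  .scale ⟨1992864825344, 0, 0, 0⟩ 78,
  .add 0 79,
  .mul 121 20,
  .add 1 0,
  .mul 166 0,
  .neg 8,
  .const ⟨989989961728, 0, 0, 0⟩,
  .add 1 0,
  .pos 0,
  .neg 8,
  .add 0 2,
  .pos 0,
  .scale ⟨1165482786816, 0, 0, 0⟩ 120,
  .scale ⟨2199023255552, 0, 0, 0⟩ 14,
  .add 0 12,
  .mul 182 0,
  .add 9 0,
  .mul 4 0,
  .mul 0 173,
  .mul 0 25,
  .sub 188 0,
  .pos 0,
  .scale ⟨2199023255552, 0, 0, 0⟩ 1,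
  .neg 0,
  .const ⟨1097095708672, 0, 0, 0⟩,
  .add 1 0,
  .sub 76 193,
  .scale ⟨549755813888, 0, 0, 0⟩ 0,
  .add 0 195,
  .const ⟨2083864444928, 0, 0, 0⟩,
  .add 105 197,
  .mul 0 0,
  .sub 2 0,
  .pos 0,
  .const ⟨3189013217280, 0, 0, 0⟩,
  .sub 0 96,
  .sub 0 16,
  .add 7 111,
  .add 0 17,
  .mul 0 0,
  .sub 3 0,
  .pos 0,
  .mul 76 14,
  .scale ⟨10115506765824, 0, 0, 0⟩ 0,
  .sub 0 8,
  .pos 0,
  .scale ⟨989560045568, 0, 0, 0⟩ 2,
  .scale ⟨9249480507392, 0, 0, 0⟩ 156,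
  .sub 1 0,
  .pos 0,
  .pos 77,
  .pos 85,
  .pos 83,
  .mul 82 24,
  .inv 0,
  .mul 29 0,
  .scale ⟨1121758216192, 0, 0, 0⟩ 0,
  .sub 95 0,
  .const ⟨136096776192, 0, 0, 0⟩,
  .sub 1 0,
  .pos 0,
  .sub 118 34,
  .pos 0,
  .sub 221 31,
  .mul 91 0,
  .scale ⟨2100239007744, 0, 0, 0⟩ 0,
  .sub 0 119,
  .sub 0 39,
  .pos 0,
  .mul 40 214,
  .mul 113 229,
  .add 0 1,
  .neg 0,
  .const ⟨3518651957248, 0, 0, 0⟩,
  .add 1 0,
  .pos 0,
  .const ⟨1099511627776, 0, 0, 0⟩,
  .add 3 0,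
  .pos 0,
  .neg 224,
  .add 0 2,
  .pos 0,
  .const ⟨5498631880704, 0, 0, 0⟩,
  .add 209 0,
  .pos 0,
  .add 20 238,
  .scale ⟨1097968123904, 0, 0, 0⟩ 0,
  .mul 0 228,
  .mul 0 110,
  .mul 0 49,
  .mul 107 0,
  .neg 0,
  .exp 0,
  .scale ⟨1992864825344, 0, 0, 0⟩ 19,
  .add 0 20,
  .scale ⟨1992864825344, 0, 0, 0⟩ 61,
  .add 0 62,
  .scale ⟨274877906944, 0, 0, 0⟩ 241,
  .add 0 251,
  .mul 2 0,
  .scale ⟨549755813888, 0, 0, 0⟩ 5,
  .sub 254 0,
  .pos 0,
  .inv 0,
  .add 2 256,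
  .mul 0 1,
  .mul 153 245,
  .scale ⟨2199023255552, 0, 0, 0⟩ 253,
  .add 1 0,
  .mul 2 0,
  .add 145 0,
  .mul 4 4,
  .add 147 0,
  .mul 252 0,
  .sub 3 266,
  .scale ⟨549755813888, 0, 0, 0⟩ 0,
  .add 0 268,
  .mul 16 13,
  .mul 12 24,
  .scale ⟨112608673792, 0, 0, 0⟩ 0,
  .add 3 6,
  .add 0 86,
  .mul 2 0,
  .add 5 0,
  .neg 0,
  .const ⟨151731044352, 0, 0, 0⟩,
  .add 1 0,
  .pos 0]

def chk0 {α : Type} (cst : Z → α) (add sub mul : α → α → α) (scale : Z → α → α)
    (neg inv exp log : α → α) (ok : α → Bool) (isPos : Nat → α → Bool) (isLt : α → Nat → Bool) :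
    List α → Bool
  | [x0, x1, x2] =>
  let v0 := cst ⟨1099511627776, 0, 0, 0⟩; ok v0 && (
  let v1 := mul x0 x0; ok v1 && (
  let v2 := mul x2 x2; ok v2 && (
  let v3 := add v2 v0; ok v3 && (
  let v4 := inv v3; ok v4 && (
  let v5 := sub v0 v2; ok v5 && (
  let v6 := mul v5 v4; ok v6 && (
  let v7 := mul x2 v4; ok v7 && (
  let v8 := scale ⟨2199023255552, 0, 0, 0⟩ v7; ok v8 && (
  let v9 := mul x1 v6; ok v9 && (
  let v10 := mul x1 v8; ok v10 && (
  let v11 := mul x0 x1; ok v11 && (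
  let v12 := mul v11 v11; ok v12 && (
  let v13 := mul v11 x0; ok v13 && (
  let v14 := mul v9 v1; ok v14 && (
  let v15 := mul v14 v14; ok v15 && (
  let v16 := mul v14 v9; ok v16 && (
  let v17 := mul v16 x0; ok v17 && (
  let v18 := cst ⟨1099243192320, 0, 0, 0⟩; ok v18 && (
  let v19 := scale ⟨3111703805952, 0, 0, 0⟩ x0; ok v19 && (
  let v20 := sub v18 v19; ok v20 && (
  let v21 := scale ⟨32985348833280, 0, 0, 0⟩ v1; ok v21 && (
  let v22 := sub v20 v21; ok v22 && (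
  let v23 := scale ⟨1556388773888, 0, 0, 0⟩ x0; ok v23 && (
  let v24 := sub v18 v23; ok v24 && (
  let v25 := scale ⟨26388279066624, 0, 0, 0⟩ v1; ok v25 && (
  let v26 := sub v24 v25; ok v26 && (
  let v27 := scale ⟨549755813888, 0, 0, 0⟩ v9; ok v27 && (
  let v28 := neg v9; ok v28 && (
  let v29 := exp v28; ok v29 && (
  let v30 := add v29 v0; ok v30 && (
  let v31 := log v30; ok v31 && (
  let v32 := add v27 v31; ok v32 && (
  let v33 := mul x0 v32; ok v33 && (
  let v34 := mul v32 v32; ok v34 && (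
  let v35 := mul v10 v10; ok v35 && (
  let v36 := add v34 v35; ok v36 && (
  let v37 := log v36; ok v37 && (
  let v38 := scale ⟨549755813888, 0, 0, 0⟩ v37; ok v38 && (
  let v39 := exp v38; ok v39 && (
  let v40 := mul x0 v39; ok v40 && (
  let v41 := scale ⟨274877906944, 0, 0, 0⟩ v35; ok v41 && (
  let v42 := add v34 v41; ok v42 && (
  let v43 := log v42; ok v43 && (
  let v44 := scale ⟨549755813888, 0, 0, 0⟩ v43; ok v44 && (
  let v45 := exp v44; ok v45 && (
  let v46 := mul x0 v45; ok v46 && (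
  let v47 := cst ⟨4398046511104, 0, 0, 0⟩; ok v47 && (
  let v48 := add v9 v47; ok v48 && (
  let v49 := inv v48; ok v49 && (
  let v50 := scale ⟨151733141504, 0, 0, 0⟩ v49; ok v50 && (
  let v51 := scale ⟨4398046511104, 0, 0, 0⟩ v50; ok v51 && (
  let v52 := mul x1 v51; ok v52 && (
  let v53 := mul v9 v9; ok v53 && (
  let v54 := mul v53 v1; ok v54 && (
  let v55 := mul v12 v1; ok v55 && (
  let v56 := mul x0 v40; ok v56 && (
  let v57 := scale ⟨989989961728, 0, 0, 0⟩ v1; ok v57 && (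
  let v58 := add v56 v57; ok v58 && (
  let v59 := exp v58; ok v59 && (
  let v60 := mul v59 v59; ok v60 && (
  let v61 := neg v58; ok v61 && (
  let v62 := cst ⟨61083746304, 0, 0, 0⟩; ok v62 && (
  let v63 := add v61 v62; ok v63 && (
  isPos 3 v63 && (
  let v64 := scale ⟨1759219023872, 0, 0, 0⟩ v12; ok v64 && (
  let v65 := scale ⟨2748779069440, 0, 0, 0⟩ v10; ok v65 && (
  let v66 := add v64 v65; ok v66 && (
  let v67 := mul v66 v1; ok v67 && (
  let v68 := scale ⟨274877906944, 0, 0, 0⟩ v15; ok v68 && (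
  let v69 := sub v0 v68; ok v69 && (
  let v70 := mul v56 v40; ok v70 && (
  let v71 := scale ⟨549755813888, 0, 0, 0⟩ v70; ok v71 && (
  let v72 := scale ⟨157073539072, 0, 0, 0⟩ v17; ok v72 && (
  let v73 := add v71 v72; ok v73 && (
  let v74 := mul v59 v73; ok v74 && (
  let v75 := add v46 v74; ok v75 && (
  let v76 := mul v8 v75; ok v76 && (
  let v77 := scale ⟨1649267441664, 0, 0, 0⟩ v60; ok v77 && (
  let v78 := cst ⟨1649267441664, 0, 0, 0⟩; ok v78 && (
  let v79 := sub v77 v78; ok v79 && (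
  let v80 := scale ⟨824633720832, 0, 0, 0⟩ v15; ok v80 && (
  let v81 := add v79 v80; ok v81 && (
  let v82 := mul v10 v1; ok v82 && (
  let v83 := add v81 v82; ok v83 && (
  let v84 := add v83 v67; ok v84 && (
  let v85 := mul v11 v84; ok v85 && (
  let v86 := add v76 v85; ok v86 && (
  let v87 := mul v10 v8; ok v87 && (
  let v88 := mul v87 v1; ok v88 && (
  let v89 := scale ⟨137438953472, 0, 0, 0⟩ v88; ok v89 && (
  let v90 := mul v17 v89; ok v90 && (
  let v91 := add v86 v90; ok v91 && (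
  let v92 := mul v91 x0; ok v92 && (
  let v93 := cst ⟨3298534883328, 0, 0, 0⟩; ok v93 && (
  let v94 := sub v93 v77; ok v94 && (
  let v95 := mul v69 v94; ok v95 && (
  let v96 := mul v6 v6; ok v96 && (
  let v97 := scale ⟨549755813888, 0, 0, 0⟩ v96; ok v97 && (
  let v98 := sub v95 v97; ok v98 && (
  let v99 := mul v8 v8; ok v99 && (
  let v100 := mul v99 v59; ok v100 && (
  let v101 := sub v98 v100; ok v101 && (
  let v102 := sub v101 v67; ok v102 && (
  let v103 := mul v69 v97; ok v103 && (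
  let v104 := sub v77 v103; ok v104 && (
  let v105 := add v104 v67; ok v105 && (
  let v106 := mul v64 v1; ok v106 && (
  let v107 := scale ⟨1121502363648, 0, 0, 0⟩ v106; ok v107 && (
  let v108 := add v0 v107; ok v108 && (
  let v109 := mul v55 v60; ok v109 && (
  let v110 := scale ⟨2199023255552, 0, 0, 0⟩ v109; ok v110 && (
  let v111 := add v108 v110; ok v111 && (
  let v112 := mul v8 v111; ok v112 && (
  let v113 := mul v13 v67; ok v113 && (
  let v114 := add v112 v113; ok v114 && (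
  let v115 := mul v102 v13; ok v115 && (
  let v116 := mul v114 v114; ok v116 && (
  let v117 := add v96 v116; ok v117 && (
  let v118 := scale ⟨1098437885952, 0, 0, 0⟩ v102; ok v118 && (
  let v119 := mul v115 v115; ok v119 && (
  let v120 := add v117 v119; ok v120 && (
  let v121 := inv v120; ok v121 && (
  let v122 := mul v118 v121; ok v122 && (
  let v123 := neg v122; ok v123 && (
  let v124 := add v123 v0; ok v124 && (
  isPos 3 v124 && (
  let v125 := mul v99 v55; ok v125 && (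
  let v126 := scale ⟨2199023255552, 0, 0, 0⟩ v125; ok v126 && (
  let v127 := sub v0 v126; ok v127 && (
  let v128 := sub v127 v92; ok v128 && (
  let v129 := mul v92 v92; ok v129 && (
  let v130 := sub v128 v129; ok v130 && (
  let v131 := mul v130 v130; ok v131 && (
  let v132 := mul v11 v130; ok v132 && (
  let v133 := scale ⟨8796093022208, 0, 0, 0⟩ v1; ok v133 && (
  let v134 := sub v22 v133; ok v134 && (
  let v135 := scale ⟨7972533043200, 0, 0, 0⟩ v55; ok v135 && (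
  let v136 := sub v134 v135; ok v136 && (
  let v137 := scale ⟨1097968123904, 0, 0, 0⟩ v122; ok v137 && (
  let v138 := add v122 v0; ok v138 && (
  let v139 := scale ⟨1097968123904, 0, 0, 0⟩ v138; ok v139 && (
  let v140 := mul v137 v12; ok v140 && (
  let v141 := mul v140 v131; ok v141 && (
  let v142 := mul v136 v141; ok v142 && (
  let v143 := neg v142; ok v143 && (
  let v144 := exp v143; ok v144 && (
  let v145 := sub v0 v52; ok v145 && (
  isPos 3 v145 && (
  let v146 := inv v145; ok v146 && (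
  let v147 := scale ⟨549755813888, 0, 0, 0⟩ v52; ok v147 && (
  let v148 := add v0 v147; ok v148 && (
  let v149 := mul v52 v52; ok v149 && (
  let v150 := mul v149 v146; ok v150 && (
  let v151 := scale ⟨366504574976, 0, 0, 0⟩ v150; ok v151 && (
  let v152 := add v148 v151; ok v152 && (
  let v153 := mul v144 v52; ok v153 && (
  let v154 := scale ⟨549755813888, 0, 0, 0⟩ v153; ok v154 && (
  let v155 := add v0 v154; ok v155 && (
  let v156 := mul v153 v153; ok v156 && (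
  let v157 := sub v0 v153; ok v157 && (
  let v158 := inv v157; ok v158 && (
  let v159 := mul v156 v158; ok v159 && (
  let v160 := scale ⟨366504574976, 0, 0, 0⟩ v159; ok v160 && (
  let v161 := add v155 v160; ok v161 && (
  let v162 := inv v130; ok v162 && (
  let v163 := mul v91 v11; ok v163 && (
  let v164 := scale ⟨1992864825344, 0, 0, 0⟩ v163; ok v164 && (
  let v165 := add v163 v164; ok v165 && (
  let v166 := mul v52 v152; ok v166 && (
  let v167 := add v165 v166; ok v167 && (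
  let v168 := scale ⟨3092376453120, 0, 0, 0⟩ v163; ok v168 && (
  let v169 := mul v153 v161; ok v169 && (
  let v170 := add v168 v169; ok v170 && (
  let v171 := scale ⟨1992864825344, 0, 0, 0⟩ v92; ok v171 && (
  let v172 := add v171 v92; ok v172 && (
  let v173 := mul v51 v152; ok v173 && (
  let v174 := add v172 v173; ok v174 && (
  let v175 := mul v8 v174; ok v175 && (
  let v176 := neg v167; ok v176 && (
  let v177 := cst ⟨989989961728, 0, 0, 0⟩; ok v177 && (
  let v178 := add v176 v177; ok v178 && (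
  isPos 3 v178 && (
  let v179 := neg v170; ok v179 && (
  let v180 := add v179 v177; ok v180 && (
  isPos 3 v180 && (
  let v181 := scale ⟨1165482786816, 0, 0, 0⟩ v60; ok v181 && (
  let v182 := scale ⟨2199023255552, 0, 0, 0⟩ v167; ok v182 && (
  let v183 := add v182 v170; ok v183 && (
  let v184 := mul v1 v183; ok v184 && (
  let v185 := add v175 v184; ok v185 && (
  let v186 := mul v181 v185; ok v186 && (
  let v187 := mul v186 v13; ok v187 && (
  let v188 := mul v187 v162; ok v188 && (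
  let v189 := sub v0 v188; ok v189 && (
  isPos 3 v189 && (
  let v190 := scale ⟨2199023255552, 0, 0, 0⟩ v188; ok v190 && (
  let v191 := neg v190; ok v191 && (
  let v192 := cst ⟨1097095708672, 0, 0, 0⟩; ok v192 && (
  let v193 := add v191 v192; ok v193 && (
  let v194 := sub v117 v0; ok v194 && (
  let v195 := scale ⟨549755813888, 0, 0, 0⟩ v194; ok v195 && (
  let v196 := add v195 v0; ok v196 && (
  let v197 := cst ⟨2083864444928, 0, 0, 0⟩; ok v197 && (
  let v198 := add v92 v0; ok v198 && (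
  let v199 := mul v198 v198; ok v199 && (
  let v200 := sub v197 v199; ok v200 && (
  isPos 3 v200 && (
  let v201 := cst ⟨3189013217280, 0, 0, 0⟩; ok v201 && (
  let v202 := sub v201 v105; ok v202 && (
  let v203 := sub v202 v186; ok v203 && (
  let v204 := add v196 v92; ok v204 && (
  let v205 := add v204 v187; ok v205 && (
  let v206 := mul v205 v205; ok v206 && (
  let v207 := sub v203 v206; ok v207 && (
  isPos 3 v207 && (
  let v208 := mul v131 v193; ok v208 && (
  let v209 := scale ⟨10115506765824, 0, 0, 0⟩ v208; ok v209 && (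
  let v210 := sub v209 v201; ok v210 && (
  isPos 3 v210 && (
  let v211 := scale ⟨989560045568, 0, 0, 0⟩ v208; ok v211 && (
  let v212 := scale ⟨9249480507392, 0, 0, 0⟩ v55; ok v212 && (
  let v213 := sub v211 v212; ok v213 && (
  isPos 3 v213 && (
  isPos 3 v136 && (
  isPos 3 v128 && (
  isPos 3 v130 && (
  let v214 := mul v131 v189; ok v214 && (
  let v215 := inv v214; ok v215 && (
  let v216 := mul v186 v215; ok v216 && (
  let v217 := scale ⟨1121758216192, 0, 0, 0⟩ v216; ok v217 && (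
  let v218 := sub v122 v217; ok v218 && (
  let v219 := cst ⟨136096776192, 0, 0, 0⟩; ok v219 && (
  let v220 := sub v218 v219; ok v220 && (
  isPos 3 v220 && (
  let v221 := sub v102 v186; ok v221 && (
  isPos 3 v221 && (
  let v222 := sub v0 v190; ok v222 && (
  let v223 := mul v131 v222; ok v223 && (
  let v224 := scale ⟨2100239007744, 0, 0, 0⟩ v223; ok v224 && (
  let v225 := sub v224 v105; ok v225 && (
  let v226 := sub v225 v186; ok v226 && (
  isPos 3 v226 && (
  let v227 := mul v186 v12; ok v227 && (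
  let v228 := mul v114 x1; ok v228 && (
  let v229 := add v228 v227; ok v229 && (
  let v230 := neg v229; ok v230 && (
  let v231 := cst ⟨3518651957248, 0, 0, 0⟩; ok v231 && (
  let v232 := add v230 v231; ok v232 && (
  isPos 3 v232 && (
  let v233 := cst ⟨1099511627776, 0, 0, 0⟩; ok v233 && (
  let v234 := add v230 v233; ok v234 && (
  isPos 3 v234 && (
  let v235 := neg v10; ok v235 && (
  let v236 := add v235 v233; ok v236 && (
  isPos 3 v236 && (
  let v237 := cst ⟨5498631880704, 0, 0, 0⟩; ok v237 && (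
  let v238 := add v28 v237; ok v238 && (
  isPos 3 v238 && (
  let v239 := add v218 v0; ok v239 && (
  let v240 := scale ⟨1097968123904, 0, 0, 0⟩ v239; ok v240 && (
  let v241 := mul v240 v12; ok v241 && (
  let v242 := mul v241 v131; ok v242 && (
  let v243 := mul v242 v193; ok v243 && (
  let v244 := mul v136 v243; ok v244 && (
  let v245 := neg v244; ok v245 && (
  let v246 := exp v245; ok v246 && (
  let v247 := scale ⟨1992864825344, 0, 0, 0⟩ v227; ok v247 && (
  let v248 := add v247 v227; ok v248 && (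
  let v249 := scale ⟨1992864825344, 0, 0, 0⟩ v187; ok v249 && (
  let v250 := add v249 v187; ok v250 && (
  let v251 := scale ⟨274877906944, 0, 0, 0⟩ v9; ok v251 && (
  let v252 := add v251 v0; ok v252 && (
  let v253 := mul v250 v252; ok v253 && (
  let v254 := scale ⟨549755813888, 0, 0, 0⟩ v248; ok v254 && (
  let v255 := sub v0 v254; ok v255 && (
  isPos 3 v255 && (
  let v256 := inv v255; ok v256 && (
  let v257 := add v254 v0; ok v257 && (
  let v258 := mul v257 v256; ok v258 && (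
  let v259 := mul v105 v13; ok v259 && (
  let v260 := scale ⟨2199023255552, 0, 0, 0⟩ v6; ok v260 && (
  let v261 := add v259 v260; ok v261 && (
  let v262 := mul v259 v261; ok v262 && (
  let v263 := add v117 v262; ok v263 && (
  let v264 := mul v259 v259; ok v264 && (
  let v265 := add v117 v264; ok v265 && (
  let v266 := mul v13 v265; ok v266 && (
  let v267 := sub v263 v0; ok v267 && (
  let v268 := scale ⟨549755813888, 0, 0, 0⟩ v267; ok v268 && (
  let v269 := add v268 v0; ok v269 && (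
  let v270 := mul v253 v256; ok v270 && (
  let v271 := mul v258 v246; ok v271 && (
  let v272 := scale ⟨112608673792, 0, 0, 0⟩ v271; ok v272 && (
  let v273 := add v269 v266; ok v273 && (
  let v274 := add v273 v187; ok v274 && (
  let v275 := mul v272 v274; ok v275 && (
  let v276 := add v270 v275; ok v276 && (
  let v277 := neg v276; ok v277 && (
  let v278 := cst ⟨151731044352, 0, 0, 0⟩; ok v278 && (
  let v279 := add v277 v278; ok v279 && (
  isPos 3 v279 && (
  true))))))))))))))))))))))))))))))))))))))))))))))))))))))))))))))))))))))))))))))))))))))))))))))))))))))))))))))))))))))))))))))))))))))))))))))))))))))))))))))))))))))))))))))))))))))))))))))))))))))))))))))))))))))))))))))))))))))))))))))))))))))))))))))))))))))))))))))))))))))))))))))))))))))))))))))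
  | _ => false

set_option maxRecDepth 1000000 in
theorem chk0_eq (O : Ops) (m : List O.α)
    (h : chk0 O.cst O.add O.sub O.mul O.scale O.neg O.inv O.exp O.log O.ok O.isPos O.isLt m = true) :
    runG O 3 prog0 m = true := by
  match m, h with
  | [x0, x1, x2], h => exact h

def chkB0 : List opsE.α → Bool :=
  chk0 opsE.cst opsE.add opsE.sub opsE.mul opsE.scale opsE.neg opsE.inv opsE.exp opsE.log opsE.ok opsE.isPos opsE.isLt

theorem chkB0_eq (m : List opsE.α) (h : chkB0 m = true) : runG opsE 3 prog0 m = true :=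
  chk0_eq opsE m h

def prog1 : List Op := [
  .const ⟨1099511627776, 0, 0, 0⟩,
  .mul 1 1,
  .mul 4 4,
  .add 0 2,
  .inv 0,
  .sub 4 2,
  .mul 0 1,
  .mul 9 2,
  .scale ⟨2199023255552, 0, 0, 0⟩ 0,
  .mul 10 2,
  .mul 11 1,
  .inv 12,
  .mul 12 13,
  .mul 0 0,
  .mul 1 14,
  .mul 5 13,
  .mul 0 0,
  .mul 1 7,
  .mul 0 18,
  .const ⟨1099243192320, 0, 0, 0⟩,
  .scale ⟨3111703805952, 0, 0, 0⟩ 20,
  .sub 1 0,
  .scale ⟨32985348833280, 0, 0, 0⟩ 20,
  .sub 1 0,
  .scale ⟨1556388773888, 0, 0, 0⟩ 24,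
  .sub 5 0,
  .scale ⟨26388279066624, 0, 0, 0⟩ 24,
  .sub 1 0,
  .scale ⟨549755813888, 0, 0, 0⟩ 18,
  .neg 19,
  .exp 0,
  .add 0 30,
  .log 0,
  .add 4 0,
  .const ⟨1724298297344, 0, 0, 0⟩,
  .add 1 0,
  .mul 36 0,
  .scale ⟨147041812480, 0, 0, 0⟩ 25,
  .add 1 0,
  .mul 39 28,
  .mul 1 1,
  .mul 1 1,
  .add 1 0,
  .log 0,
  .scale ⟨549755813888, 0, 0, 0⟩ 0,
  .exp 0,
  .scale ⟨274877906944, 0, 0, 0⟩ 4,
  .add 6 0,
  .log 0,
  .scale ⟨549755813888, 0, 0, 0⟩ 0,
  .exp 0,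
  .const ⟨4398046511104, 0, 0, 0⟩,
  .add 42 0,
  .inv 0,
  .scale ⟨151733141504, 0, 0, 0⟩ 0,
  .scale ⟨4398046511104, 0, 0, 0⟩ 0,
  .mul 57 0,
  .mul 47 47,
  .mul 0 56,
  .mul 45 57,
  .mul 60 14,
  .scale ⟨989989961728, 0, 0, 0⟩ 59,
  .add 1 0,
  .exp 0,
  .mul 0 0,
  .neg 2,
  .const ⟨61083746304, 0, 0, 0⟩,
  .add 1 0,
  .pos 0,
  .scale ⟨1759219023872, 0, 0, 0⟩ 54,
  .scale ⟨2748779069440, 0, 0, 0⟩ 58,
  .add 1 0,
  .mul 0 69,
  .scale ⟨274877906944, 0, 0, 0⟩ 55,
  .sub 72 0,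
  .mul 13 28,
  .scale ⟨549755813888, 0, 0, 0⟩ 0,
  .scale ⟨157073539072, 0, 0, 0⟩ 57,
  .add 1 0,
  .mul 14 0,
  .add 28 0,
  .mul 71 0,
  .scale ⟨1649267441664, 0, 0, 0⟩ 16,
  .const ⟨1649267441664, 0, 0, 0⟩,
  .sub 1 0,
  .scale ⟨824633720832, 0, 0, 0⟩ 67,
  .add 1 0,
  .mul 75 84,
  .add 1 0,
  .add 0 16,
  .mul 76 0,
  .add 9 0,
  .mul 80 82,
  .mul 0 90,
  .scale ⟨137438953472, 0, 0, 0⟩ 0,
  .mul 75 0,
  .add 4 0,
  .mul 0 96,
  .const ⟨3298534883328, 0, 0, 0⟩,
  .sub 0 16,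
  .mul 25 0,
  .mul 93 93,
  .scale ⟨549755813888, 0, 0, 0⟩ 0,
  .sub 2 0,
  .mul 94 94,
  .mul 0 40,
  .sub 2 0,
  .sub 0 34,
  .mul 33 5,
  .sub 26 0,
  .add 0 37,
  .mul 41 108,
  .scale ⟨1121502363648, 0, 0, 0⟩ 0,
  .add 111 0,
  .mul 53 48,
  .scale ⟨2199023255552, 0, 0, 0⟩ 0,
  .add 2 0,
  .mul 107 0,
  .mul 102 45,
  .add 1 0,
  .mul 12 104,
  .mul 1 1,
  .add 20 0,
  .scale ⟨1098437885952, 0, 0, 0⟩ 15,
  .mul 3 3,
  .add 2 0,
  .inv 0,
  .mul 3 0,
  .neg 0,
  .add 0 127,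
  .pos 0,
  .mul 25 69,
  .scale ⟨2199023255552, 0, 0, 0⟩ 0,
  .sub 130 0,
  .sub 0 35,
  .mul 36 36,
  .sub 1 0,
  .mul 0 0,
  .mul 123 1,
  .scale ⟨8796093022208, 0, 0, 0⟩ 135,
  .sub 114 0,
  .scale ⟨7972533043200, 0, 0, 0⟩ 79,
  .sub 1 0,
  .scale ⟨1097968123904, 0, 0, 0⟩ 14,
  .add 15 141,
  .scale ⟨1097968123904, 0, 0, 0⟩ 0,
  .mul 2 130,
  .mul 0 9,
  .mul 5 0,
  .neg 0,
  .exp 0,
  .sub 148 92,
  .pos 0,
  .inv 0,
  .scale ⟨549755813888, 0, 0, 0⟩ 94,
  .add 151 0,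
  .mul 96 96,
  .mul 0 3,
  .scale ⟨366504574976, 0, 0, 0⟩ 0,
  .add 3 0,
  .mul 8 100,
  .scale ⟨549755813888, 0, 0, 0⟩ 0,
  .add 158 0,
  .mul 2 2,
  .sub 160 3,
  .inv 0,
  .mul 2 0,
  .scale ⟨366504574976, 0, 0, 0⟩ 0,
  .add 5 0,
  .inv 31,
  .mul 71 154,
  .scale ⟨2576980377600, 0, 0, 0⟩ 0,
  .add 1 0,
  .mul 113 13,
  .add 1 0,
  .scale ⟨3676492005376, 0, 0, 0⟩ 4,
  .mul 15 7,
  .add 1 0,
  .scale ⟨2576980377600, 0, 0, 0⟩ 78,
  .add 0 79,
  .mul 121 20,
  .add 1 0,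
  .mul 170 0,
  .neg 8,
  .const ⟨989989961728, 0, 0, 0⟩,
  .add 1 0,
  .pos 0,
  .neg 8,
  .add 0 2,
  .pos 0,
  .scale ⟨1165482786816, 0, 0, 0⟩ 120,
  .scale ⟨2199023255552, 0, 0, 0⟩ 14,
  .add 0 12,
  .mul 186 0,
  .add 9 0,
  .mul 4 0,
  .mul 0 176,
  .mul 0 25,
  .sub 192 0,
  .pos 0,
  .scale ⟨2199023255552, 0, 0, 0⟩ 1,
  .neg 0,
  .const ⟨1097095708672, 0, 0, 0⟩,
  .add 1 0,
  .sub 76 197,
  .scale ⟨549755813888, 0, 0, 0⟩ 0,
  .add 0 199,
  .const ⟨2083864444928, 0, 0, 0⟩,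
  .add 105 201,
  .mul 0 0,
  .sub 2 0,
  .pos 0,
  .const ⟨3189013217280, 0, 0, 0⟩,
  .sub 0 96,
  .sub 0 16,
  .add 7 111,
  .add 0 17,
  .mul 0 0,
  .sub 3 0,
  .pos 0,
  .mul 76 14,
  .scale ⟨10115506765824, 0, 0, 0⟩ 0,
  .sub 0 8,
  .pos 0,
  .scale ⟨989560045568, 0, 0, 0⟩ 2,
  .scale ⟨9249480507392, 0, 0, 0⟩ 156,
  .sub 1 0,
  .pos 0,
  .pos 77,
  .pos 85,
  .pos 83,
  .mul 82 24,
  .inv 0,
  .mul 29 0,
  .scale ⟨1121758216192, 0, 0, 0⟩ 0,
  .sub 95 0,
  .const ⟨136096776192, 0, 0, 0⟩,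
  .sub 1 0,
  .pos 0,
  .sub 118 34,
  .pos 0,
  .sub 225 31,
  .mul 91 0,
  .scale ⟨2100239007744, 0, 0, 0⟩ 0,
  .sub 0 119,
  .sub 0 39,
  .pos 0,
  .mul 40 217,
  .mul 113 233,
  .add 0 1,
  .neg 0,
  .const ⟨3518651957248, 0, 0, 0⟩,
  .add 1 0,
  .pos 0,
  .const ⟨1649267441664, 0, 0, 0⟩,
  .add 3 0,
  .pos 0,
  .neg 228,
  .add 0 2,
  .pos 0,
  .const ⟨5498631880704, 0, 0, 0⟩,
  .add 212 0,
  .pos 0,
  .add 20 242,
  .scale ⟨1097968123904, 0, 0, 0⟩ 0,
  .mul 0 231,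
  .mul 0 110,
  .mul 0 49,
  .mul 107 0,
  .neg 0,
  .exp 0,
  .scale ⟨2576980377600, 0, 0, 0⟩ 19,
  .add 0 20,
  .scale ⟨2576980377600, 0, 0, 0⟩ 61,
  .add 0 62,
  .scale ⟨274877906944, 0, 0, 0⟩ 245,
  .add 0 255,
  .mul 2 0,
  .scale ⟨549755813888, 0, 0, 0⟩ 5,
  .sub 258 0,
  .pos 0,
  .inv 0,
  .add 2 260,
  .mul 0 1,
  .mul 153 248,
  .scale ⟨2199023255552, 0, 0, 0⟩ 257,
  .add 1 0,
  .mul 2 0,
  .add 145 0,
  .mul 4 4,
  .add 147 0,
  .mul 255 0,
  .sub 3 270,
  .scale ⟨549755813888, 0, 0, 0⟩ 0,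
  .add 0 272,
  .mul 16 13,
  .mul 12 24,
  .scale ⟨112608673792, 0, 0, 0⟩ 0,
  .add 3 6,
  .add 0 86,
  .mul 2 0,
  .add 5 0,
  .neg 0,
  .const ⟨151731044352, 0, 0, 0⟩,
  .add 1 0,
  .pos 0]

def chk1 {α : Type} (cst : Z → α) (add sub mul : α → α → α) (scale : Z → α → α)
    (neg inv exp log : α → α) (ok : α → Bool) (isPos : Nat → α → Bool) (isLt : α → Nat → Bool) :
    List α → Bool
  | [x0, x1, x2] =>
  let v0 := cst ⟨1099511627776, 0, 0, 0⟩; ok v0 && (
  let v1 := mul x0 x0; ok v1 && (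
  let v2 := mul x2 x2; ok v2 && (
  let v3 := add v2 v0; ok v3 && (
  let v4 := inv v3; ok v4 && (
  let v5 := sub v0 v2; ok v5 && (
  let v6 := mul v5 v4; ok v6 && (
  let v7 := mul x2 v4; ok v7 && (
  let v8 := scale ⟨2199023255552, 0, 0, 0⟩ v7; ok v8 && (
  let v9 := mul x1 v6; ok v9 && (
  let v10 := mul x1 v8; ok v10 && (
  let v11 := inv x1; ok v11 && (
  let v12 := mul x0 x1; ok v12 && (
  let v13 := mul v12 v12; ok v13 && (
  let v14 := mul v12 x0; ok v14 && (
  let v15 := mul v9 v1; ok v15 && (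
  let v16 := mul v15 v15; ok v16 && (
  let v17 := mul v15 v9; ok v17 && (
  let v18 := mul v17 x0; ok v18 && (
  let v19 := cst ⟨1099243192320, 0, 0, 0⟩; ok v19 && (
  let v20 := scale ⟨3111703805952, 0, 0, 0⟩ x0; ok v20 && (
  let v21 := sub v19 v20; ok v21 && (
  let v22 := scale ⟨32985348833280, 0, 0, 0⟩ v1; ok v22 && (
  let v23 := sub v21 v22; ok v23 && (
  let v24 := scale ⟨1556388773888, 0, 0, 0⟩ x0; ok v24 && (
  let v25 := sub v19 v24; ok v25 && (
  let v26 := scale ⟨26388279066624, 0, 0, 0⟩ v1; ok v26 && (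
  let v27 := sub v25 v26; ok v27 && (
  let v28 := scale ⟨549755813888, 0, 0, 0⟩ v9; ok v28 && (
  let v29 := neg v9; ok v29 && (
  let v30 := exp v29; ok v30 && (
  let v31 := add v30 v0; ok v31 && (
  let v32 := log v31; ok v32 && (
  let v33 := add v28 v32; ok v33 && (
  let v34 := cst ⟨1724298297344, 0, 0, 0⟩; ok v34 && (
  let v35 := add v33 v34; ok v35 && (
  let v36 := mul x0 v35; ok v36 && (
  let v37 := scale ⟨147041812480, 0, 0, 0⟩ v11; ok v37 && (
  let v38 := add v36 v37; ok v38 && (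
  let v39 := mul x0 v10; ok v39 && (
  let v40 := mul v38 v38; ok v40 && (
  let v41 := mul v39 v39; ok v41 && (
  let v42 := add v40 v41; ok v42 && (
  let v43 := log v42; ok v43 && (
  let v44 := scale ⟨549755813888, 0, 0, 0⟩ v43; ok v44 && (
  let v45 := exp v44; ok v45 && (
  let v46 := scale ⟨274877906944, 0, 0, 0⟩ v41; ok v46 && (
  let v47 := add v40 v46; ok v47 && (
  let v48 := log v47; ok v48 && (
  let v49 := scale ⟨549755813888, 0, 0, 0⟩ v48; ok v49 && (
  let v50 := exp v49; ok v50 && (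
  let v51 := cst ⟨4398046511104, 0, 0, 0⟩; ok v51 && (
  let v52 := add v9 v51; ok v52 && (
  let v53 := inv v52; ok v53 && (
  let v54 := scale ⟨151733141504, 0, 0, 0⟩ v53; ok v54 && (
  let v55 := scale ⟨4398046511104, 0, 0, 0⟩ v54; ok v55 && (
  let v56 := mul x1 v55; ok v56 && (
  let v57 := mul v9 v9; ok v57 && (
  let v58 := mul v57 v1; ok v58 && (
  let v59 := mul v13 v1; ok v59 && (
  let v60 := mul x0 v45; ok v60 && (
  let v61 := scale ⟨989989961728, 0, 0, 0⟩ v1; ok v61 && (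
  let v62 := add v60 v61; ok v62 && (
  let v63 := exp v62; ok v63 && (
  let v64 := mul v63 v63; ok v64 && (
  let v65 := neg v62; ok v65 && (
  let v66 := cst ⟨61083746304, 0, 0, 0⟩; ok v66 && (
  let v67 := add v65 v66; ok v67 && (
  isPos 3 v67 && (
  let v68 := scale ⟨1759219023872, 0, 0, 0⟩ v13; ok v68 && (
  let v69 := scale ⟨2748779069440, 0, 0, 0⟩ v10; ok v69 && (
  let v70 := add v68 v69; ok v70 && (
  let v71 := mul v70 v1; ok v71 && (
  let v72 := scale ⟨274877906944, 0, 0, 0⟩ v16; ok v72 && (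
  let v73 := sub v0 v72; ok v73 && (
  let v74 := mul v60 v45; ok v74 && (
  let v75 := scale ⟨549755813888, 0, 0, 0⟩ v74; ok v75 && (
  let v76 := scale ⟨157073539072, 0, 0, 0⟩ v18; ok v76 && (
  let v77 := add v75 v76; ok v77 && (
  let v78 := mul v63 v77; ok v78 && (
  let v79 := add v50 v78; ok v79 && (
  let v80 := mul v8 v79; ok v80 && (
  let v81 := scale ⟨1649267441664, 0, 0, 0⟩ v64; ok v81 && (
  let v82 := cst ⟨1649267441664, 0, 0, 0⟩; ok v82 && (
  let v83 := sub v81 v82; ok v83 && (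
  let v84 := scale ⟨824633720832, 0, 0, 0⟩ v16; ok v84 && (
  let v85 := add v83 v84; ok v85 && (
  let v86 := mul v10 v1; ok v86 && (
  let v87 := add v85 v86; ok v87 && (
  let v88 := add v87 v71; ok v88 && (
  let v89 := mul v12 v88; ok v89 && (
  let v90 := add v80 v89; ok v90 && (
  let v91 := mul v10 v8; ok v91 && (
  let v92 := mul v91 v1; ok v92 && (
  let v93 := scale ⟨137438953472, 0, 0, 0⟩ v92; ok v93 && (
  let v94 := mul v18 v93; ok v94 && (
  let v95 := add v90 v94; ok v95 && (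
  let v96 := mul v95 x0; ok v96 && (
  let v97 := cst ⟨3298534883328, 0, 0, 0⟩; ok v97 && (
  let v98 := sub v97 v81; ok v98 && (
  let v99 := mul v73 v98; ok v99 && (
  let v100 := mul v6 v6; ok v100 && (
  let v101 := scale ⟨549755813888, 0, 0, 0⟩ v100; ok v101 && (
  let v102 := sub v99 v101; ok v102 && (
  let v103 := mul v8 v8; ok v103 && (
  let v104 := mul v103 v63; ok v104 && (
  let v105 := sub v102 v104; ok v105 && (
  let v106 := sub v105 v71; ok v106 && (
  let v107 := mul v73 v101; ok v107 && (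
  let v108 := sub v81 v107; ok v108 && (
  let v109 := add v108 v71; ok v109 && (
  let v110 := mul v68 v1; ok v110 && (
  let v111 := scale ⟨1121502363648, 0, 0, 0⟩ v110; ok v111 && (
  let v112 := add v0 v111; ok v112 && (
  let v113 := mul v59 v64; ok v113 && (
  let v114 := scale ⟨2199023255552, 0, 0, 0⟩ v113; ok v114 && (
  let v115 := add v112 v114; ok v115 && (
  let v116 := mul v8 v115; ok v116 && (
  let v117 := mul v14 v71; ok v117 && (
  let v118 := add v116 v117; ok v118 && (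
  let v119 := mul v106 v14; ok v119 && (
  let v120 := mul v118 v118; ok v120 && (
  let v121 := add v100 v120; ok v121 && (
  let v122 := scale ⟨1098437885952, 0, 0, 0⟩ v106; ok v122 && (
  let v123 := mul v119 v119; ok v123 && (
  let v124 := add v121 v123; ok v124 && (
  let v125 := inv v124; ok v125 && (
  let v126 := mul v122 v125; ok v126 && (
  let v127 := neg v126; ok v127 && (
  let v128 := add v127 v0; ok v128 && (
  isPos 3 v128 && (
  let v129 := mul v103 v59; ok v129 && (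
  let v130 := scale ⟨2199023255552, 0, 0, 0⟩ v129; ok v130 && (
  let v131 := sub v0 v130; ok v131 && (
  let v132 := sub v131 v96; ok v132 && (
  let v133 := mul v96 v96; ok v133 && (
  let v134 := sub v132 v133; ok v134 && (
  let v135 := mul v134 v134; ok v135 && (
  let v136 := mul v12 v134; ok v136 && (
  let v137 := scale ⟨8796093022208, 0, 0, 0⟩ v1; ok v137 && (
  let v138 := sub v23 v137; ok v138 && (
  let v139 := scale ⟨7972533043200, 0, 0, 0⟩ v59; ok v139 && (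
  let v140 := sub v138 v139; ok v140 && (
  let v141 := scale ⟨1097968123904, 0, 0, 0⟩ v126; ok v141 && (
  let v142 := add v126 v0; ok v142 && (
  let v143 := scale ⟨1097968123904, 0, 0, 0⟩ v142; ok v143 && (
  let v144 := mul v141 v13; ok v144 && (
  let v145 := mul v144 v135; ok v145 && (
  let v146 := mul v140 v145; ok v146 && (
  let v147 := neg v146; ok v147 && (
  let v148 := exp v147; ok v148 && (
  let v149 := sub v0 v56; ok v149 && (
  isPos 3 v149 && (
  let v150 := inv v149; ok v150 && (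
  let v151 := scale ⟨549755813888, 0, 0, 0⟩ v56; ok v151 && (
  let v152 := add v0 v151; ok v152 && (
  let v153 := mul v56 v56; ok v153 && (
  let v154 := mul v153 v150; ok v154 && (
  let v155 := scale ⟨366504574976, 0, 0, 0⟩ v154; ok v155 && (
  let v156 := add v152 v155; ok v156 && (
  let v157 := mul v148 v56; ok v157 && (
  let v158 := scale ⟨549755813888, 0, 0, 0⟩ v157; ok v158 && (
  let v159 := add v0 v158; ok v159 && (
  let v160 := mul v157 v157; ok v160 && (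
  let v161 := sub v0 v157; ok v161 && (
  let v162 := inv v161; ok v162 && (
  let v163 := mul v160 v162; ok v163 && (
  let v164 := scale ⟨366504574976, 0, 0, 0⟩ v163; ok v164 && (
  let v165 := add v159 v164; ok v165 && (
  let v166 := inv v134; ok v166 && (
  let v167 := mul v95 v12; ok v167 && (
  let v168 := scale ⟨2576980377600, 0, 0, 0⟩ v167; ok v168 && (
  let v169 := add v167 v168; ok v169 && (
  let v170 := mul v56 v156; ok v170 && (
  let v171 := add v169 v170; ok v171 && (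
  let v172 := scale ⟨3676492005376, 0, 0, 0⟩ v167; ok v172 && (
  let v173 := mul v157 v165; ok v173 && (
  let v174 := add v172 v173; ok v174 && (
  let v175 := scale ⟨2576980377600, 0, 0, 0⟩ v96; ok v175 && (
  let v176 := add v175 v96; ok v176 && (
  let v177 := mul v55 v156; ok v177 && (
  let v178 := add v176 v177; ok v178 && (
  let v179 := mul v8 v178; ok v179 && (
  let v180 := neg v171; ok v180 && (
  let v181 := cst ⟨989989961728, 0, 0, 0⟩; ok v181 && (
  let v182 := add v180 v181; ok v182 && (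
  isPos 3 v182 && (
  let v183 := neg v174; ok v183 && (
  let v184 := add v183 v181; ok v184 && (
  isPos 3 v184 && (
  let v185 := scale ⟨1165482786816, 0, 0, 0⟩ v64; ok v185 && (
  let v186 := scale ⟨2199023255552, 0, 0, 0⟩ v171; ok v186 && (
  let v187 := add v186 v174; ok v187 && (
  let v188 := mul v1 v187; ok v188 && (
  let v189 := add v179 v188; ok v189 && (
  let v190 := mul v185 v189; ok v190 && (
  let v191 := mul v190 v14; ok v191 && (
  let v192 := mul v191 v166; ok v192 && (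
  let v193 := sub v0 v192; ok v193 && (
  isPos 3 v193 && (
  let v194 := scale ⟨2199023255552, 0, 0, 0⟩ v192; ok v194 && (
  let v195 := neg v194; ok v195 && (
  let v196 := cst ⟨1097095708672, 0, 0, 0⟩; ok v196 && (
  let v197 := add v195 v196; ok v197 && (
  let v198 := sub v121 v0; ok v198 && (
  let v199 := scale ⟨549755813888, 0, 0, 0⟩ v198; ok v199 && (
  let v200 := add v199 v0; ok v200 && (
  let v201 := cst ⟨2083864444928, 0, 0, 0⟩; ok v201 && (
  let v202 := add v96 v0; ok v202 && (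
  let v203 := mul v202 v202; ok v203 && (
  let v204 := sub v201 v203; ok v204 && (
  isPos 3 v204 && (
  let v205 := cst ⟨3189013217280, 0, 0, 0⟩; ok v205 && (
  let v206 := sub v205 v109; ok v206 && (
  let v207 := sub v206 v190; ok v207 && (
  let v208 := add v200 v96; ok v208 && (
  let v209 := add v208 v191; ok v209 && (
  let v210 := mul v209 v209; ok v210 && (
  let v211 := sub v207 v210; ok v211 && (
  isPos 3 v211 && (
  let v212 := mul v135 v197; ok v212 && (
  let v213 := scale ⟨10115506765824, 0, 0, 0⟩ v212; ok v213 && (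
  let v214 := sub v213 v205; ok v214 && (
  isPos 3 v214 && (
  let v215 := scale ⟨989560045568, 0, 0, 0⟩ v212; ok v215 && (
  let v216 := scale ⟨9249480507392, 0, 0, 0⟩ v59; ok v216 && (
  let v217 := sub v215 v216; ok v217 && (
  isPos 3 v217 && (
  isPos 3 v140 && (
  isPos 3 v132 && (
  isPos 3 v134 && (
  let v218 := mul v135 v193; ok v218 && (
  let v219 := inv v218; ok v219 && (
  let v220 := mul v190 v219; ok v220 && (
  let v221 := scale ⟨1121758216192, 0, 0, 0⟩ v220; ok v221 && (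
  let v222 := sub v126 v221; ok v222 && (
  let v223 := cst ⟨136096776192, 0, 0, 0⟩; ok v223 && (
  let v224 := sub v222 v223; ok v224 && (
  isPos 3 v224 && (
  let v225 := sub v106 v190; ok v225 && (
  isPos 3 v225 && (
  let v226 := sub v0 v194; ok v226 && (
  let v227 := mul v135 v226; ok v227 && (
  let v228 := scale ⟨2100239007744, 0, 0, 0⟩ v227; ok v228 && (
  let v229 := sub v228 v109; ok v229 && (
  let v230 := sub v229 v190; ok v230 && (
  isPos 3 v230 && (
  let v231 := mul v190 v13; ok v231 && (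
  let v232 := mul v118 x1; ok v232 && (
  let v233 := add v232 v231; ok v233 && (
  let v234 := neg v233; ok v234 && (
  let v235 := cst ⟨3518651957248, 0, 0, 0⟩; ok v235 && (
  let v236 := add v234 v235; ok v236 && (
  isPos 3 v236 && (
  let v237 := cst ⟨1649267441664, 0, 0, 0⟩; ok v237 && (
  let v238 := add v234 v237; ok v238 && (
  isPos 3 v238 && (
  let v239 := neg v10; ok v239 && (
  let v240 := add v239 v237; ok v240 && (
  isPos 3 v240 && (
  let v241 := cst ⟨5498631880704, 0, 0, 0⟩; ok v241 && (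
  let v242 := add v29 v241; ok v242 && (
  isPos 3 v242 && (
  let v243 := add v222 v0; ok v243 && (
  let v244 := scale ⟨1097968123904, 0, 0, 0⟩ v243; ok v244 && (
  let v245 := mul v244 v13; ok v245 && (
  let v246 := mul v245 v135; ok v246 && (
  let v247 := mul v246 v197; ok v247 && (
  let v248 := mul v140 v247; ok v248 && (
  let v249 := neg v248; ok v249 && (
  let v250 := exp v249; ok v250 && (
  let v251 := scale ⟨2576980377600, 0, 0, 0⟩ v231; ok v251 && (
  let v252 := add v251 v231; ok v252 && (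
  let v253 := scale ⟨2576980377600, 0, 0, 0⟩ v191; ok v253 && (
  let v254 := add v253 v191; ok v254 && (
  let v255 := scale ⟨274877906944, 0, 0, 0⟩ v9; ok v255 && (
  let v256 := add v255 v0; ok v256 && (
  let v257 := mul v254 v256; ok v257 && (
  let v258 := scale ⟨549755813888, 0, 0, 0⟩ v252; ok v258 && (
  let v259 := sub v0 v258; ok v259 && (
  isPos 3 v259 && (
  let v260 := inv v259; ok v260 && (
  let v261 := add v258 v0; ok v261 && (
  let v262 := mul v261 v260; ok v262 && (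
  let v263 := mul v109 v14; ok v263 && (
  let v264 := scale ⟨2199023255552, 0, 0, 0⟩ v6; ok v264 && (
  let v265 := add v263 v264; ok v265 && (
  let v266 := mul v263 v265; ok v266 && (
  let v267 := add v121 v266; ok v267 && (
  let v268 := mul v263 v263; ok v268 && (
  let v269 := add v121 v268; ok v269 && (
  let v270 := mul v14 v269; ok v270 && (
  let v271 := sub v267 v0; ok v271 && (
  let v272 := scale ⟨549755813888, 0, 0, 0⟩ v271; ok v272 && (
  let v273 := add v272 v0; ok v273 && (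
  let v274 := mul v257 v260; ok v274 && (
  let v275 := mul v262 v250; ok v275 && (
  let v276 := scale ⟨112608673792, 0, 0, 0⟩ v275; ok v276 && (
  let v277 := add v273 v270; ok v277 && (
  let v278 := add v277 v191; ok v278 && (
  let v279 := mul v276 v278; ok v279 && (
  let v280 := add v274 v279; ok v280 && (
  let v281 := neg v280; ok v281 && (
  let v282 := cst ⟨151731044352, 0, 0, 0⟩; ok v282 && (
  let v283 := add v281 v282; ok v283 && (
  isPos 3 v283 && (
  true))))))))))))))))))))))))))))))))))))))))))))))))))))))))))))))))))))))))))))))))))))))))))))))))))))))))))))))))))))))))))))))))))))))))))))))))))))))))))))))))))))))))))))))))))))))))))))))))))))))))))))))))))))))))))))))))))))))))))))))))))))))))))))))))))))))))))))))))))))))))))))))))))))))))))))))))))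
  | _ => false

set_option maxRecDepth 1000000 in
theorem chk1_eq (O : Ops) (m : List O.α)
    (h : chk1 O.cst O.add O.sub O.mul O.scale O.neg O.inv O.exp O.log O.ok O.isPos O.isLt m = true) :
    runG O 3 prog1 m = true := by
  match m, h with
  | [x0, x1, x2], h => exact h

def chkB1 : List opsE.α → Bool :=
  chk1 opsE.cst opsE.add opsE.sub opsE.mul opsE.scale opsE.neg opsE.inv opsE.exp opsE.log opsE.ok opsE.isPos opsE.isLt

theorem chkB1_eq (m : List opsE.α) (h : chkB1 m = true) : runG opsE 3 prog1 m = true :=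
  chk1_eq opsE m h

def prog2 : List Op := [
  .const ⟨1099511627776, 0, 0, 0⟩,
  .mul 1 1,
  .mul 4 4,
  .add 0 2,
  .inv 0,
  .sub 4 2,
  .mul 0 1,
  .mul 9 2,
  .scale ⟨2199023255552, 0, 0, 0⟩ 0,
  .mul 10 2,
  .mul 11 1,
  .inv 12,
  .mul 12 13,
  .mul 0 0,
  .mul 1 14,
  .mul 5 13,
  .mul 0 0,
  .mul 1 7,
  .mul 0 18,
  .const ⟨1099243192320, 0, 0, 0⟩,
  .scale ⟨3111703805952, 0, 0, 0⟩ 20,
  .sub 1 0,
  .scale ⟨32985348833280, 0, 0, 0⟩ 20,
  .sub 1 0,
  .scale ⟨1556388773888, 0, 0, 0⟩ 24,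
  .sub 5 0,
  .scale ⟨26388279066624, 0, 0, 0⟩ 24,
  .sub 1 0,
  .scale ⟨549755813888, 0, 0, 0⟩ 18,
  .neg 19,
  .exp 0,
  .add 0 30,
  .log 0,
  .add 4 0,
  .const ⟨1724298297344, 0, 0, 0⟩,
  .add 1 0,
  .mul 36 0,
  .scale ⟨147041812480, 0, 0, 0⟩ 25,
  .add 1 0,
  .mul 39 28,
  .mul 1 1,
  .mul 1 1,
  .add 1 0,
  .log 0,
  .scale ⟨549755813888, 0, 0, 0⟩ 0,
  .exp 0,
  .scale ⟨274877906944, 0, 0, 0⟩ 4,
  .add 6 0,
  .log 0,
  .scale ⟨549755813888, 0, 0, 0⟩ 0,
  .exp 0,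
  .const ⟨4398046511104, 0, 0, 0⟩,
  .add 42 0,
  .inv 0,
  .scale ⟨151733141504, 0, 0, 0⟩ 0,
  .scale ⟨4398046511104, 0, 0, 0⟩ 0,
  .mul 57 0,
  .mul 47 47,
  .mul 0 56,
  .mul 45 57,
  .mul 60 14,
  .scale ⟨989989961728, 0, 0, 0⟩ 59,
  .add 1 0,
  .exp 0,
  .mul 0 0,
  .neg 2,
  .const ⟨61083746304, 0, 0, 0⟩,
  .add 1 0,
  .pos 0,
  .scale ⟨1759219023872, 0, 0, 0⟩ 54,
  .scale ⟨2748779069440, 0, 0, 0⟩ 58,
  .add 1 0,
  .mul 0 69,
  .scale ⟨274877906944, 0, 0, 0⟩ 55,
  .sub 72 0,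
  .mul 13 28,
  .scale ⟨549755813888, 0, 0, 0⟩ 0,
  .scale ⟨157073539072, 0, 0, 0⟩ 57,
  .add 1 0,
  .mul 14 0,
  .add 28 0,
  .mul 71 0,
  .scale ⟨1649267441664, 0, 0, 0⟩ 16,
  .const ⟨1649267441664, 0, 0, 0⟩,
  .sub 1 0,
  .scale ⟨824633720832, 0, 0, 0⟩ 67,
  .add 1 0,
  .mul 75 84,
  .add 1 0,
  .add 0 16,
  .mul 76 0,
  .add 9 0,
  .mul 80 82,
  .mul 0 90,
  .scale ⟨137438953472, 0, 0, 0⟩ 0,
  .mul 75 0,
  .add 4 0,
  .mul 0 96,
  .const ⟨3298534883328, 0, 0, 0⟩,
  .sub 0 16,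
  .mul 25 0,
  .mul 93 93,
  .scale ⟨549755813888, 0, 0, 0⟩ 0,
  .sub 2 0,
  .mul 94 94,
  .mul 0 40,
  .sub 2 0,
  .sub 0 34,
  .mul 33 5,
  .sub 26 0,
  .add 0 37,
  .mul 41 108,
  .scale ⟨1121502363648, 0, 0, 0⟩ 0,
  .add 111 0,
  .mul 53 48,
  .scale ⟨2199023255552, 0, 0, 0⟩ 0,
  .add 2 0,
  .mul 107 0,
  .mul 102 45,
  .add 1 0,
  .mul 12 104,
  .mul 1 1,
  .add 20 0,
  .scale ⟨1098437885952, 0, 0, 0⟩ 15,
  .mul 3 3,
  .add 2 0,
  .inv 0,
  .mul 3 0,
  .neg 0,
  .add 0 127,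
  .pos 0,
  .mul 25 69,
  .scale ⟨2199023255552, 0, 0, 0⟩ 0,
  .sub 130 0,
  .sub 0 35,
  .mul 36 36,
  .sub 1 0,
  .mul 0 0,
  .mul 123 1,
  .scale ⟨8796093022208, 0, 0, 0⟩ 135,
  .sub 114 0,
  .scale ⟨7972533043200, 0, 0, 0⟩ 79,
  .sub 1 0,
  .scale ⟨1097968123904, 0, 0, 0⟩ 14,
  .add 15 141,
  .scale ⟨1097968123904, 0, 0, 0⟩ 0,
  .mul 2 130,
  .mul 0 9,
  .mul 5 0,
  .neg 0,
  .exp 0,
  .sub 148 92,
  .pos 0,
  .inv 0,
  .scale ⟨549755813888, 0, 0, 0⟩ 94,
  .add 151 0,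
  .mul 96 96,
  .mul 0 3,
  .scale ⟨366504574976, 0, 0, 0⟩ 0,
  .add 3 0,
  .mul 8 100,
  .scale ⟨549755813888, 0, 0, 0⟩ 0,
  .add 158 0,
  .mul 2 2,
  .sub 160 3,
  .inv 0,
  .mul 2 0,
  .scale ⟨366504574976, 0, 0, 0⟩ 0,
  .add 5 0,
  .inv 31,
  .mul 71 154,
  .scale ⟨4020089389056, 0, 0, 0⟩ 0,
  .add 1 0,
  .mul 113 13,
  .add 1 0,
  .scale ⟨5119601016832, 0, 0, 0⟩ 4,
  .mul 15 7,
  .add 1 0,
  .scale ⟨4020089389056, 0, 0, 0⟩ 78,
  .add 0 79,
  .mul 121 20,
  .add 1 0,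
  .mul 170 0,
  .neg 8,
  .const ⟨989989961728, 0, 0, 0⟩,
  .add 1 0,
  .pos 0,
  .neg 8,
  .add 0 2,
  .pos 0,
  .scale ⟨1165482786816, 0, 0, 0⟩ 120,
  .scale ⟨2199023255552, 0, 0, 0⟩ 14,
  .add 0 12,
  .mul 186 0,
  .add 9 0,
  .mul 4 0,
  .mul 0 176,
  .mul 0 25,
  .sub 192 0,
  .pos 0,
  .scale ⟨2199023255552, 0, 0, 0⟩ 1,
  .neg 0,
  .const ⟨1097095708672, 0, 0, 0⟩,
  .add 1 0,
  .sub 76 197,
  .scale ⟨549755813888, 0, 0, 0⟩ 0,
  .add 0 199,
  .const ⟨2083864444928, 0, 0, 0⟩,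
  .add 105 201,
  .mul 0 0,
  .sub 2 0,
  .pos 0,
  .const ⟨3189013217280, 0, 0, 0⟩,
  .sub 0 96,
  .sub 0 16,
  .add 7 111,
  .add 0 17,
  .mul 0 0,
  .sub 3 0,
  .pos 0,
  .mul 76 14,
  .scale ⟨10115506765824, 0, 0, 0⟩ 0,
  .sub 0 8,
  .pos 0,
  .scale ⟨989560045568, 0, 0, 0⟩ 2,
  .scale ⟨9249480507392, 0, 0, 0⟩ 156,
  .sub 1 0,
  .pos 0,
  .pos 77,
  .pos 85,
  .pos 83,
  .mul 82 24,
  .inv 0,
  .mul 29 0,
  .scale ⟨1121758216192, 0, 0, 0⟩ 0,
  .sub 95 0,
  .const ⟨136096776192, 0, 0, 0⟩,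
  .sub 1 0,
  .pos 0,
  .sub 118 34,
  .pos 0,
  .sub 225 31,
  .mul 91 0,
  .scale ⟨2100239007744, 0, 0, 0⟩ 0,
  .sub 0 119,
  .sub 0 39,
  .pos 0,
  .mul 40 217,
  .mul 113 233,
  .add 0 1,
  .neg 0,
  .const ⟨3518651957248, 0, 0, 0⟩,
  .add 1 0,
  .pos 0,
  .const ⟨2199023255552, 0, 0, 0⟩,
  .add 3 0,
  .pos 0,
  .neg 228,
  .add 0 2,
  .pos 0,
  .const ⟨5498631880704, 0, 0, 0⟩,
  .add 212 0,
  .pos 0,
  .add 20 242,
  .scale ⟨1097968123904, 0, 0, 0⟩ 0,
  .mul 0 231,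
  .mul 0 110,
  .mul 0 49,
  .mul 107 0,
  .neg 0,
  .exp 0,
  .scale ⟨4020089389056, 0, 0, 0⟩ 19,
  .add 0 20,
  .scale ⟨4020089389056, 0, 0, 0⟩ 61,
  .add 0 62,
  .scale ⟨274877906944, 0, 0, 0⟩ 245,
  .add 0 255,
  .mul 2 0,
  .scale ⟨549755813888, 0, 0, 0⟩ 5,
  .sub 258 0,
  .pos 0,
  .inv 0,
  .add 2 260,
  .mul 0 1,
  .mul 153 248,
  .scale ⟨2199023255552, 0, 0, 0⟩ 257,
  .add 1 0,
  .mul 2 0,
  .add 145 0,
  .mul 4 4,
  .add 147 0,
  .mul 255 0,
  .sub 3 270,
  .scale ⟨549755813888, 0, 0, 0⟩ 0,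
  .add 0 272,
  .mul 16 13,
  .mul 12 24,
  .scale ⟨112608673792, 0, 0, 0⟩ 0,
  .add 3 6,
  .add 0 86,
  .mul 2 0,
  .add 5 0,
  .neg 0,
  .const ⟨151731044352, 0, 0, 0⟩,
  .add 1 0,
  .pos 0]

def chk2 {α : Type} (cst : Z → α) (add sub mul : α → α → α) (scale : Z → α → α)
    (neg inv exp log : α → α) (ok : α → Bool) (isPos : Nat → α → Bool) (isLt : α → Nat → Bool) :
    List α → Bool
  | [x0, x1, x2] =>
  let v0 := cst ⟨1099511627776, 0, 0, 0⟩; ok v0 && (
  let v1 := mul x0 x0; ok v1 && (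
  let v2 := mul x2 x2; ok v2 && (
  let v3 := add v2 v0; ok v3 && (
  let v4 := inv v3; ok v4 && (
  let v5 := sub v0 v2; ok v5 && (
  let v6 := mul v5 v4; ok v6 && (
  let v7 := mul x2 v4; ok v7 && (
  let v8 := scale ⟨2199023255552, 0, 0, 0⟩ v7; ok v8 && (
  let v9 := mul x1 v6; ok v9 && (
  let v10 := mul x1 v8; ok v10 && (
  let v11 := inv x1; ok v11 && (
  let v12 := mul x0 x1; ok v12 && (
  let v13 := mul v12 v12; ok v13 && (
  let v14 := mul v12 x0; ok v14 && (
  let v15 := mul v9 v1; ok v15 && (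
  let v16 := mul v15 v15; ok v16 && (
  let v17 := mul v15 v9; ok v17 && (
  let v18 := mul v17 x0; ok v18 && (
  let v19 := cst ⟨1099243192320, 0, 0, 0⟩; ok v19 && (
  let v20 := scale ⟨3111703805952, 0, 0, 0⟩ x0; ok v20 && (
  let v21 := sub v19 v20; ok v21 && (
  let v22 := scale ⟨32985348833280, 0, 0, 0⟩ v1; ok v22 && (
  let v23 := sub v21 v22; ok v23 && (
  let v24 := scale ⟨1556388773888, 0, 0, 0⟩ x0; ok v24 && (
  let v25 := sub v19 v24; ok v25 && (
  let v26 := scale ⟨26388279066624, 0, 0, 0⟩ v1; ok v26 && (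
  let v27 := sub v25 v26; ok v27 && (
  let v28 := scale ⟨549755813888, 0, 0, 0⟩ v9; ok v28 && (
  let v29 := neg v9; ok v29 && (
  let v30 := exp v29; ok v30 && (
  let v31 := add v30 v0; ok v31 && (
  let v32 := log v31; ok v32 && (
  let v33 := add v28 v32; ok v33 && (
  let v34 := cst ⟨1724298297344, 0, 0, 0⟩; ok v34 && (
  let v35 := add v33 v34; ok v35 && (
  let v36 := mul x0 v35; ok v36 && (
  let v37 := scale ⟨147041812480, 0, 0, 0⟩ v11; ok v37 && (
  let v38 := add v36 v37; ok v38 && (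
  let v39 := mul x0 v10; ok v39 && (
  let v40 := mul v38 v38; ok v40 && (
  let v41 := mul v39 v39; ok v41 && (
  let v42 := add v40 v41; ok v42 && (
  let v43 := log v42; ok v43 && (
  let v44 := scale ⟨549755813888, 0, 0, 0⟩ v43; ok v44 && (
  let v45 := exp v44; ok v45 && (
  let v46 := scale ⟨274877906944, 0, 0, 0⟩ v41; ok v46 && (
  let v47 := add v40 v46; ok v47 && (
  let v48 := log v47; ok v48 && (
  let v49 := scale ⟨549755813888, 0, 0, 0⟩ v48; ok v49 && (
  let v50 := exp v49; ok v50 && (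
  let v51 := cst ⟨4398046511104, 0, 0, 0⟩; ok v51 && (
  let v52 := add v9 v51; ok v52 && (
  let v53 := inv v52; ok v53 && (
  let v54 := scale ⟨151733141504, 0, 0, 0⟩ v53; ok v54 && (
  let v55 := scale ⟨4398046511104, 0, 0, 0⟩ v54; ok v55 && (
  let v56 := mul x1 v55; ok v56 && (
  let v57 := mul v9 v9; ok v57 && (
  let v58 := mul v57 v1; ok v58 && (
  let v59 := mul v13 v1; ok v59 && (
  let v60 := mul x0 v45; ok v60 && (
  let v61 := scale ⟨989989961728, 0, 0, 0⟩ v1; ok v61 && (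
  let v62 := add v60 v61; ok v62 && (
  let v63 := exp v62; ok v63 && (
  let v64 := mul v63 v63; ok v64 && (
  let v65 := neg v62; ok v65 && (
  let v66 := cst ⟨61083746304, 0, 0, 0⟩; ok v66 && (
  let v67 := add v65 v66; ok v67 && (
  isPos 3 v67 && (
  let v68 := scale ⟨1759219023872, 0, 0, 0⟩ v13; ok v68 && (
  let v69 := scale ⟨2748779069440, 0, 0, 0⟩ v10; ok v69 && (
  let v70 := add v68 v69; ok v70 && (
  let v71 := mul v70 v1; ok v71 && (
  let v72 := scale ⟨274877906944, 0, 0, 0⟩ v16; ok v72 && (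
  let v73 := sub v0 v72; ok v73 && (
  let v74 := mul v60 v45; ok v74 && (
  let v75 := scale ⟨549755813888, 0, 0, 0⟩ v74; ok v75 && (
  let v76 := scale ⟨157073539072, 0, 0, 0⟩ v18; ok v76 && (
  let v77 := add v75 v76; ok v77 && (
  let v78 := mul v63 v77; ok v78 && (
  let v79 := add v50 v78; ok v79 && (
  let v80 := mul v8 v79; ok v80 && (
  let v81 := scale ⟨1649267441664, 0, 0, 0⟩ v64; ok v81 && (
  let v82 := cst ⟨1649267441664, 0, 0, 0⟩; ok v82 && (
  let v83 := sub v81 v82; ok v83 && (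
  let v84 := scale ⟨824633720832, 0, 0, 0⟩ v16; ok v84 && (
  let v85 := add v83 v84; ok v85 && (
  let v86 := mul v10 v1; ok v86 && (
  let v87 := add v85 v86; ok v87 && (
  let v88 := add v87 v71; ok v88 && (
  let v89 := mul v12 v88; ok v89 && (
  let v90 := add v80 v89; ok v90 && (
  let v91 := mul v10 v8; ok v91 && (
  let v92 := mul v91 v1; ok v92 && (
  let v93 := scale ⟨137438953472, 0, 0, 0⟩ v92; ok v93 && (
  let v94 := mul v18 v93; ok v94 && (
  let v95 := add v90 v94; ok v95 && (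
  let v96 := mul v95 x0; ok v96 && (
  let v97 := cst ⟨3298534883328, 0, 0, 0⟩; ok v97 && (
  let v98 := sub v97 v81; ok v98 && (
  let v99 := mul v73 v98; ok v99 && (
  let v100 := mul v6 v6; ok v100 && (
  let v101 := scale ⟨549755813888, 0, 0, 0⟩ v100; ok v101 && (
  let v102 := sub v99 v101; ok v102 && (
  let v103 := mul v8 v8; ok v103 && (
  let v104 := mul v103 v63; ok v104 && (
  let v105 := sub v102 v104; ok v105 && (
  let v106 := sub v105 v71; ok v106 && (
  let v107 := mul v73 v101; ok v107 && (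
  let v108 := sub v81 v107; ok v108 && (
  let v109 := add v108 v71; ok v109 && (
  let v110 := mul v68 v1; ok v110 && (
  let v111 := scale ⟨1121502363648, 0, 0, 0⟩ v110; ok v111 && (
  let v112 := add v0 v111; ok v112 && (
  let v113 := mul v59 v64; ok v113 && (
  let v114 := scale ⟨2199023255552, 0, 0, 0⟩ v113; ok v114 && (
  let v115 := add v112 v114; ok v115 && (
  let v116 := mul v8 v115; ok v116 && (
  let v117 := mul v14 v71; ok v117 && (
  let v118 := add v116 v117; ok v118 && (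
  let v119 := mul v106 v14; ok v119 && (
  let v120 := mul v118 v118; ok v120 && (
  let v121 := add v100 v120; ok v121 && (
  let v122 := scale ⟨1098437885952, 0, 0, 0⟩ v106; ok v122 && (
  let v123 := mul v119 v119; ok v123 && (
  let v124 := add v121 v123; ok v124 && (
  let v125 := inv v124; ok v125 && (
  let v126 := mul v122 v125; ok v126 && (
  let v127 := neg v126; ok v127 && (
  let v128 := add v127 v0; ok v128 && (
  isPos 3 v128 && (
  let v129 := mul v103 v59; ok v129 && (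
  let v130 := scale ⟨2199023255552, 0, 0, 0⟩ v129; ok v130 && (
  let v131 := sub v0 v130; ok v131 && (
  let v132 := sub v131 v96; ok v132 && (
  let v133 := mul v96 v96; ok v133 && (
  let v134 := sub v132 v133; ok v134 && (
  let v135 := mul v134 v134; ok v135 && (
  let v136 := mul v12 v134; ok v136 && (
  let v137 := scale ⟨8796093022208, 0, 0, 0⟩ v1; ok v137 && (
  let v138 := sub v23 v137; ok v138 && (
  let v139 := scale ⟨7972533043200, 0, 0, 0⟩ v59; ok v139 && (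
  let v140 := sub v138 v139; ok v140 && (
  let v141 := scale ⟨1097968123904, 0, 0, 0⟩ v126; ok v141 && (
  let v142 := add v126 v0; ok v142 && (
  let v143 := scale ⟨1097968123904, 0, 0, 0⟩ v142; ok v143 && (
  let v144 := mul v141 v13; ok v144 && (
  let v145 := mul v144 v135; ok v145 && (
  let v146 := mul v140 v145; ok v146 && (
  let v147 := neg v146; ok v147 && (
  let v148 := exp v147; ok v148 && (
  let v149 := sub v0 v56; ok v149 && (
  isPos 3 v149 && (
  let v150 := inv v149; ok v150 && (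
  let v151 := scale ⟨549755813888, 0, 0, 0⟩ v56; ok v151 && (
  let v152 := add v0 v151; ok v152 && (
  let v153 := mul v56 v56; ok v153 && (
  let v154 := mul v153 v150; ok v154 && (
  let v155 := scale ⟨366504574976, 0, 0, 0⟩ v154; ok v155 && (
  let v156 := add v152 v155; ok v156 && (
  let v157 := mul v148 v56; ok v157 && (
  let v158 := scale ⟨549755813888, 0, 0, 0⟩ v157; ok v158 && (
  let v159 := add v0 v158; ok v159 && (
  let v160 := mul v157 v157; ok v160 && (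
  let v161 := sub v0 v157; ok v161 && (
  let v162 := inv v161; ok v162 && (
  let v163 := mul v160 v162; ok v163 && (
  let v164 := scale ⟨366504574976, 0, 0, 0⟩ v163; ok v164 && (
  let v165 := add v159 v164; ok v165 && (
  let v166 := inv v134; ok v166 && (
  let v167 := mul v95 v12; ok v167 && (
  let v168 := scale ⟨4020089389056, 0, 0, 0⟩ v167; ok v168 && (
  let v169 := add v167 v168; ok v169 && (
  let v170 := mul v56 v156; ok v170 && (
  let v171 := add v169 v170; ok v171 && (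
  let v172 := scale ⟨5119601016832, 0, 0, 0⟩ v167; ok v172 && (
  let v173 := mul v157 v165; ok v173 && (
  let v174 := add v172 v173; ok v174 && (
  let v175 := scale ⟨4020089389056, 0, 0, 0⟩ v96; ok v175 && (
  let v176 := add v175 v96; ok v176 && (
  let v177 := mul v55 v156; ok v177 && (
  let v178 := add v176 v177; ok v178 && (
  let v179 := mul v8 v178; ok v179 && (
  let v180 := neg v171; ok v180 && (
  let v181 := cst ⟨989989961728, 0, 0, 0⟩; ok v181 && (
  let v182 := add v180 v181; ok v182 && (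
  isPos 3 v182 && (
  let v183 := neg v174; ok v183 && (
  let v184 := add v183 v181; ok v184 && (
  isPos 3 v184 && (
  let v185 := scale ⟨1165482786816, 0, 0, 0⟩ v64; ok v185 && (
  let v186 := scale ⟨2199023255552, 0, 0, 0⟩ v171; ok v186 && (
  let v187 := add v186 v174; ok v187 && (
  let v188 := mul v1 v187; ok v188 && (
  let v189 := add v179 v188; ok v189 && (
  let v190 := mul v185 v189; ok v190 && (
  let v191 := mul v190 v14; ok v191 && (
  let v192 := mul v191 v166; ok v192 && (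
  let v193 := sub v0 v192; ok v193 && (
  isPos 3 v193 && (
  let v194 := scale ⟨2199023255552, 0, 0, 0⟩ v192; ok v194 && (
  let v195 := neg v194; ok v195 && (
  let v196 := cst ⟨1097095708672, 0, 0, 0⟩; ok v196 && (
  let v197 := add v195 v196; ok v197 && (
  let v198 := sub v121 v0; ok v198 && (
  let v199 := scale ⟨549755813888, 0, 0, 0⟩ v198; ok v199 && (
  let v200 := add v199 v0; ok v200 && (
  let v201 := cst ⟨2083864444928, 0, 0, 0⟩; ok v201 && (
  let v202 := add v96 v0; ok v202 && (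
  let v203 := mul v202 v202; ok v203 && (
  let v204 := sub v201 v203; ok v204 && (
  isPos 3 v204 && (
  let v205 := cst ⟨3189013217280, 0, 0, 0⟩; ok v205 && (
  let v206 := sub v205 v109; ok v206 && (
  let v207 := sub v206 v190; ok v207 && (
  let v208 := add v200 v96; ok v208 && (
  let v209 := add v208 v191; ok v209 && (
  let v210 := mul v209 v209; ok v210 && (
  let v211 := sub v207 v210; ok v211 && (
  isPos 3 v211 && (
  let v212 := mul v135 v197; ok v212 && (
  let v213 := scale ⟨10115506765824, 0, 0, 0⟩ v212; ok v213 && (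
  let v214 := sub v213 v205; ok v214 && (
  isPos 3 v214 && (
  let v215 := scale ⟨989560045568, 0, 0, 0⟩ v212; ok v215 && (
  let v216 := scale ⟨9249480507392, 0, 0, 0⟩ v59; ok v216 && (
  let v217 := sub v215 v216; ok v217 && (
  isPos 3 v217 && (
  isPos 3 v140 && (
  isPos 3 v132 && (
  isPos 3 v134 && (
  let v218 := mul v135 v193; ok v218 && (
  let v219 := inv v218; ok v219 && (
  let v220 := mul v190 v219; ok v220 && (
  let v221 := scale ⟨1121758216192, 0, 0, 0⟩ v220; ok v221 && (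
  let v222 := sub v126 v221; ok v222 && (
  let v223 := cst ⟨136096776192, 0, 0, 0⟩; ok v223 && (
  let v224 := sub v222 v223; ok v224 && (
  isPos 3 v224 && (
  let v225 := sub v106 v190; ok v225 && (
  isPos 3 v225 && (
  let v226 := sub v0 v194; ok v226 && (
  let v227 := mul v135 v226; ok v227 && (
  let v228 := scale ⟨2100239007744, 0, 0, 0⟩ v227; ok v228 && (
  let v229 := sub v228 v109; ok v229 && (
  let v230 := sub v229 v190; ok v230 && (
  isPos 3 v230 && (
  let v231 := mul v190 v13; ok v231 && (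
  let v232 := mul v118 x1; ok v232 && (
  let v233 := add v232 v231; ok v233 && (
  let v234 := neg v233; ok v234 && (
  let v235 := cst ⟨3518651957248, 0, 0, 0⟩; ok v235 && (
  let v236 := add v234 v235; ok v236 && (
  isPos 3 v236 && (
  let v237 := cst ⟨2199023255552, 0, 0, 0⟩; ok v237 && (
  let v238 := add v234 v237; ok v238 && (
  isPos 3 v238 && (
  let v239 := neg v10; ok v239 && (
  let v240 := add v239 v237; ok v240 && (
  isPos 3 v240 && (
  let v241 := cst ⟨5498631880704, 0, 0, 0⟩; ok v241 && (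
  let v242 := add v29 v241; ok v242 && (
  isPos 3 v242 && (
  let v243 := add v222 v0; ok v243 && (
  let v244 := scale ⟨1097968123904, 0, 0, 0⟩ v243; ok v244 && (
  let v245 := mul v244 v13; ok v245 && (
  let v246 := mul v245 v135; ok v246 && (
  let v247 := mul v246 v197; ok v247 && (
  let v248 := mul v140 v247; ok v248 && (
  let v249 := neg v248; ok v249 && (
  let v250 := exp v249; ok v250 && (
  let v251 := scale ⟨4020089389056, 0, 0, 0⟩ v231; ok v251 && (
  let v252 := add v251 v231; ok v252 && (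
  let v253 := scale ⟨4020089389056, 0, 0, 0⟩ v191; ok v253 && (
  let v254 := add v253 v191; ok v254 && (
  let v255 := scale ⟨274877906944, 0, 0, 0⟩ v9; ok v255 && (
  let v256 := add v255 v0; ok v256 && (
  let v257 := mul v254 v256; ok v257 && (
  let v258 := scale ⟨549755813888, 0, 0, 0⟩ v252; ok v258 && (
  let v259 := sub v0 v258; ok v259 && (
  isPos 3 v259 && (
  let v260 := inv v259; ok v260 && (
  let v261 := add v258 v0; ok v261 && (
  let v262 := mul v261 v260; ok v262 && (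
  let v263 := mul v109 v14; ok v263 && (
  let v264 := scale ⟨2199023255552, 0, 0, 0⟩ v6; ok v264 && (
  let v265 := add v263 v264; ok v265 && (
  let v266 := mul v263 v265; ok v266 && (
  let v267 := add v121 v266; ok v267 && (
  let v268 := mul v263 v263; ok v268 && (
  let v269 := add v121 v268; ok v269 && (
  let v270 := mul v14 v269; ok v270 && (
  let v271 := sub v267 v0; ok v271 && (
  let v272 := scale ⟨549755813888, 0, 0, 0⟩ v271; ok v272 && (
  let v273 := add v272 v0; ok v273 && (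
  let v274 := mul v257 v260; ok v274 && (
  let v275 := mul v262 v250; ok v275 && (
  let v276 := scale ⟨112608673792, 0, 0, 0⟩ v275; ok v276 && (
  let v277 := add v273 v270; ok v277 && (
  let v278 := add v277 v191; ok v278 && (
  let v279 := mul v276 v278; ok v279 && (
  let v280 := add v274 v279; ok v280 && (
  let v281 := neg v280; ok v281 && (
  let v282 := cst ⟨151731044352, 0, 0, 0⟩; ok v282 && (
  let v283 := add v281 v282; ok v283 && (
  isPos 3 v283 && (
  true))))))))))))))))))))))))))))))))))))))))))))))))))))))))))))))))))))))))))))))))))))))))))))))))))))))))))))))))))))))))))))))))))))))))))))))))))))))))))))))))))))))))))))))))))))))))))))))))))))))))))))))))))))))))))))))))))))))))))))))))))))))))))))))))))))))))))))))))))))))))))))))))))))))))))))))))))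
  | _ => false

set_option maxRecDepth 1000000 in
theorem chk2_eq (O : Ops) (m : List O.α)
    (h : chk2 O.cst O.add O.sub O.mul O.scale O.neg O.inv O.exp O.log O.ok O.isPos O.isLt m = true) :
    runG O 3 prog2 m = true := by
  match m, h with
  | [x0, x1, x2], h => exact h

def chkB2 : List opsE.α → Bool :=
  chk2 opsE.cst opsE.add opsE.sub opsE.mul opsE.scale opsE.neg opsE.inv opsE.exp opsE.log opsE.ok opsE.isPos opsE.isLt

theorem chkB2_eq (m : List opsE.α) (h : chkB2 m = true) : runG opsE 3 prog2 m = true :=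
  chk2_eq opsE m h

def prog3 : List Op := [
  .const ⟨1099511627776, 0, 0, 0⟩,
  .mul 1 1,
  .mul 4 4,
  .add 0 2,
  .inv 0,
  .sub 4 2,
  .mul 0 1,
  .mul 9 2,
  .scale ⟨2199023255552, 0, 0, 0⟩ 0,
  .mul 10 2,
  .mul 11 1,
  .inv 12,
  .mul 12 13,
  .mul 0 0,
  .mul 1 14,
  .mul 5 13,
  .mul 0 0,
  .mul 1 7,
  .mul 0 18,
  .const ⟨1099243192320, 0, 0, 0⟩,
  .scale ⟨3111703805952, 0, 0, 0⟩ 20,
  .sub 1 0,
  .scale ⟨32985348833280, 0, 0, 0⟩ 20,
  .sub 1 0,
  .scale ⟨1556388773888, 0, 0, 0⟩ 24,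
  .sub 5 0,
  .scale ⟨26388279066624, 0, 0, 0⟩ 24,
  .sub 1 0,
  .scale ⟨549755813888, 0, 0, 0⟩ 18,
  .neg 19,
  .exp 0,
  .add 0 30,
  .log 0,
  .add 4 0,
  .const ⟨1724298297344, 0, 0, 0⟩,
  .add 1 0,
  .mul 36 0,
  .scale ⟨147041812480, 0, 0, 0⟩ 25,
  .add 1 0,
  .mul 39 28,
  .mul 1 1,
  .mul 1 1,
  .add 1 0,
  .log 0,
  .scale ⟨549755813888, 0, 0, 0⟩ 0,
  .exp 0,
  .scale ⟨274877906944, 0, 0, 0⟩ 4,
  .add 6 0,
  .log 0,
  .scale ⟨549755813888, 0, 0, 0⟩ 0,
  .exp 0,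
  .const ⟨4398046511104, 0, 0, 0⟩,
  .add 42 0,
  .inv 0,
  .scale ⟨151733141504, 0, 0, 0⟩ 0,
  .scale ⟨4398046511104, 0, 0, 0⟩ 0,
  .mul 57 0,
  .mul 47 47,
  .mul 0 56,
  .mul 45 57,
  .mul 60 14,
  .scale ⟨989989961728, 0, 0, 0⟩ 59,
  .add 1 0,
  .exp 0,
  .mul 0 0,
  .neg 2,
  .const ⟨61083746304, 0, 0, 0⟩,
  .add 1 0,
  .pos 0,
  .scale ⟨1759219023872, 0, 0, 0⟩ 54,
  .scale ⟨2748779069440, 0, 0, 0⟩ 58,
  .add 1 0,
  .mul 0 69,
  .scale ⟨274877906944, 0, 0, 0⟩ 55,
  .sub 72 0,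
  .mul 13 28,
  .scale ⟨549755813888, 0, 0, 0⟩ 0,
  .scale ⟨157073539072, 0, 0, 0⟩ 57,
  .add 1 0,
  .mul 14 0,
  .add 28 0,
  .mul 71 0,
  .scale ⟨1649267441664, 0, 0, 0⟩ 16,
  .const ⟨1649267441664, 0, 0, 0⟩,
  .sub 1 0,
  .scale ⟨824633720832, 0, 0, 0⟩ 67,
  .add 1 0,
  .mul 75 84,
  .add 1 0,
  .add 0 16,
  .mul 76 0,
  .add 9 0,
  .mul 80 82,
  .mul 0 90,
  .scale ⟨137438953472, 0, 0, 0⟩ 0,
  .mul 75 0,
  .add 4 0,
  .mul 0 96,
  .const ⟨3298534883328, 0, 0, 0⟩,
  .sub 0 16,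
  .mul 25 0,
  .mul 93 93,
  .scale ⟨549755813888, 0, 0, 0⟩ 0,
  .sub 2 0,
  .mul 94 94,
  .mul 0 40,
  .sub 2 0,
  .sub 0 34,
  .mul 33 5,
  .sub 26 0,
  .add 0 37,
  .mul 41 108,
  .scale ⟨1121502363648, 0, 0, 0⟩ 0,
  .add 111 0,
  .mul 53 48,
  .scale ⟨2199023255552, 0, 0, 0⟩ 0,
  .add 2 0,
  .mul 107 0,
  .mul 102 45,
  .add 1 0,
  .mul 12 104,
  .mul 1 1,
  .add 20 0,
  .scale ⟨1098437885952, 0, 0, 0⟩ 15,
  .mul 3 3,
  .add 2 0,
  .inv 0,
  .mul 3 0,
  .neg 0,
  .add 0 127,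
  .pos 0,
  .mul 25 69,
  .scale ⟨2199023255552, 0, 0, 0⟩ 0,
  .sub 130 0,
  .sub 0 35,
  .mul 36 36,
  .sub 1 0,
  .mul 0 0,
  .mul 123 1,
  .scale ⟨8796093022208, 0, 0, 0⟩ 135,
  .sub 114 0,
  .scale ⟨7972533043200, 0, 0, 0⟩ 79,
  .sub 1 0,
  .scale ⟨1097968123904, 0, 0, 0⟩ 14,
  .add 15 141,
  .scale ⟨1097968123904, 0, 0, 0⟩ 0,
  .mul 2 130,
  .mul 0 9,
  .mul 5 0,
  .neg 0,
  .exp 0,
  .sub 148 92,
  .pos 0,
  .inv 0,
  .scale ⟨549755813888, 0, 0, 0⟩ 94,
  .add 151 0,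
  .mul 96 96,
  .mul 0 3,
  .scale ⟨366504574976, 0, 0, 0⟩ 0,
  .add 3 0,
  .mul 8 100,
  .scale ⟨549755813888, 0, 0, 0⟩ 0,
  .add 158 0,
  .mul 2 2,
  .sub 160 3,
  .inv 0,
  .mul 2 0,
  .scale ⟨366504574976, 0, 0, 0⟩ 0,
  .add 5 0,
  .inv 31,
  .mul 71 154,
  .scale ⟨5875515260928, 0, 0, 0⟩ 0,
  .add 1 0,
  .mul 113 13,
  .add 1 0,
  .scale ⟨6975026888704, 0, 0, 0⟩ 4,
  .mul 15 7,
  .add 1 0,
  .scale ⟨5875515260928, 0, 0, 0⟩ 78,
  .add 0 79,
  .mul 121 20,
  .add 1 0,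
  .mul 170 0,
  .neg 8,
  .const ⟨989989961728, 0, 0, 0⟩,
  .add 1 0,
  .pos 0,
  .neg 8,
  .add 0 2,
  .pos 0,
  .scale ⟨1165482786816, 0, 0, 0⟩ 120,
  .scale ⟨2199023255552, 0, 0, 0⟩ 14,
  .add 0 12,
  .mul 186 0,
  .add 9 0,
  .mul 4 0,
  .mul 0 176,
  .mul 0 25,
  .sub 192 0,
  .pos 0,
  .scale ⟨2199023255552, 0, 0, 0⟩ 1,
  .neg 0,
  .const ⟨1097095708672, 0, 0, 0⟩,
  .add 1 0,
  .sub 76 197,
  .scale ⟨549755813888, 0, 0, 0⟩ 0,
  .add 0 199,
  .const ⟨2083864444928, 0, 0, 0⟩,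
  .add 105 201,
  .mul 0 0,
  .sub 2 0,
  .pos 0,
  .const ⟨3189013217280, 0, 0, 0⟩,
  .sub 0 96,
  .sub 0 16,
  .add 7 111,
  .add 0 17,
  .mul 0 0,
  .sub 3 0,
  .pos 0,
  .mul 76 14,
  .scale ⟨10115506765824, 0, 0, 0⟩ 0,
  .sub 0 8,
  .pos 0,
  .scale ⟨989560045568, 0, 0, 0⟩ 2,
  .scale ⟨9249480507392, 0, 0, 0⟩ 156,
  .sub 1 0,
  .pos 0,
  .pos 77,
  .pos 85,
  .pos 83,
  .mul 82 24,
  .inv 0,
  .mul 29 0,
  .scale ⟨1121758216192, 0, 0, 0⟩ 0,
  .sub 95 0,
  .const ⟨136096776192, 0, 0, 0⟩,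
  .sub 1 0,
  .pos 0,
  .sub 118 34,
  .pos 0,
  .sub 225 31,
  .mul 91 0,
  .scale ⟨2100239007744, 0, 0, 0⟩ 0,
  .sub 0 119,
  .sub 0 39,
  .pos 0,
  .mul 40 217,
  .mul 113 233,
  .add 0 1,
  .neg 0,
  .const ⟨3518651957248, 0, 0, 0⟩,
  .add 1 0,
  .pos 0,
  .const ⟨2473901162496, 0, 0, 0⟩,
  .add 3 0,
  .pos 0,
  .neg 228,
  .add 0 2,
  .pos 0,
  .const ⟨5498631880704, 0, 0, 0⟩,
  .add 212 0,
  .pos 0,
  .add 20 242,
  .scale ⟨1097968123904, 0, 0, 0⟩ 0,
  .mul 0 231,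
  .mul 0 110,
  .mul 0 49,
  .mul 107 0,
  .neg 0,
  .exp 0,
  .scale ⟨5875515260928, 0, 0, 0⟩ 19,
  .add 0 20,
  .scale ⟨5875515260928, 0, 0, 0⟩ 61,
  .add 0 62,
  .scale ⟨274877906944, 0, 0, 0⟩ 245,
  .add 0 255,
  .mul 2 0,
  .scale ⟨549755813888, 0, 0, 0⟩ 5,
  .sub 258 0,
  .pos 0,
  .inv 0,
  .add 2 260,
  .mul 0 1,
  .mul 153 248,
  .scale ⟨2199023255552, 0, 0, 0⟩ 257,
  .add 1 0,
  .mul 2 0,
  .add 145 0,
  .mul 4 4,
  .add 147 0,
  .mul 255 0,
  .sub 3 270,
  .scale ⟨549755813888, 0, 0, 0⟩ 0,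
  .add 0 272,
  .mul 16 13,
  .mul 12 24,
  .scale ⟨112608673792, 0, 0, 0⟩ 0,
  .add 3 6,
  .add 0 86,
  .mul 2 0,
  .add 5 0,
  .neg 0,
  .const ⟨151731044352, 0, 0, 0⟩,
  .add 1 0,
  .pos 0]

def chk3 {α : Type} (cst : Z → α) (add sub mul : α → α → α) (scale : Z → α → α)
    (neg inv exp log : α → α) (ok : α → Bool) (isPos : Nat → α → Bool) (isLt : α → Nat → Bool) :
    List α → Bool
  | [x0, x1, x2] =>
  let v0 := cst ⟨1099511627776, 0, 0, 0⟩; ok v0 && (
  let v1 := mul x0 x0; ok v1 && (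
  let v2 := mul x2 x2; ok v2 && (
  let v3 := add v2 v0; ok v3 && (
  let v4 := inv v3; ok v4 && (
  let v5 := sub v0 v2; ok v5 && (
  let v6 := mul v5 v4; ok v6 && (
  let v7 := mul x2 v4; ok v7 && (
  let v8 := scale ⟨2199023255552, 0, 0, 0⟩ v7; ok v8 && (
  let v9 := mul x1 v6; ok v9 && (
  let v10 := mul x1 v8; ok v10 && (
  let v11 := inv x1; ok v11 && (
  let v12 := mul x0 x1; ok v12 && (
  let v13 := mul v12 v12; ok v13 && (
  let v14 := mul v12 x0; ok v14 && (
  let v15 := mul v9 v1; ok v15 && (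
  let v16 := mul v15 v15; ok v16 && (
  let v17 := mul v15 v9; ok v17 && (
  let v18 := mul v17 x0; ok v18 && (
  let v19 := cst ⟨1099243192320, 0, 0, 0⟩; ok v19 && (
  let v20 := scale ⟨3111703805952, 0, 0, 0⟩ x0; ok v20 && (
  let v21 := sub v19 v20; ok v21 && (
  let v22 := scale ⟨32985348833280, 0, 0, 0⟩ v1; ok v22 && (
  let v23 := sub v21 v22; ok v23 && (
  let v24 := scale ⟨1556388773888, 0, 0, 0⟩ x0; ok v24 && (
  let v25 := sub v19 v24; ok v25 && (
  let v26 := scale ⟨26388279066624, 0, 0, 0⟩ v1; ok v26 && (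
  let v27 := sub v25 v26; ok v27 && (
  let v28 := scale ⟨549755813888, 0, 0, 0⟩ v9; ok v28 && (
  let v29 := neg v9; ok v29 && (
  let v30 := exp v29; ok v30 && (
  let v31 := add v30 v0; ok v31 && (
  let v32 := log v31; ok v32 && (
  let v33 := add v28 v32; ok v33 && (
  let v34 := cst ⟨1724298297344, 0, 0, 0⟩; ok v34 && (
  let v35 := add v33 v34; ok v35 && (
  let v36 := mul x0 v35; ok v36 && (
  let v37 := scale ⟨147041812480, 0, 0, 0⟩ v11; ok v37 && (
  let v38 := add v36 v37; ok v38 && (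
  let v39 := mul x0 v10; ok v39 && (
  let v40 := mul v38 v38; ok v40 && (
  let v41 := mul v39 v39; ok v41 && (
  let v42 := add v40 v41; ok v42 && (
  let v43 := log v42; ok v43 && (
  let v44 := scale ⟨549755813888, 0, 0, 0⟩ v43; ok v44 && (
  let v45 := exp v44; ok v45 && (
  let v46 := scale ⟨274877906944, 0, 0, 0⟩ v41; ok v46 && (
  let v47 := add v40 v46; ok v47 && (
  let v48 := log v47; ok v48 && (
  let v49 := scale ⟨549755813888, 0, 0, 0⟩ v48; ok v49 && (
  let v50 := exp v49; ok v50 && (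
  let v51 := cst ⟨4398046511104, 0, 0, 0⟩; ok v51 && (
  let v52 := add v9 v51; ok v52 && (
  let v53 := inv v52; ok v53 && (
  let v54 := scale ⟨151733141504, 0, 0, 0⟩ v53; ok v54 && (
  let v55 := scale ⟨4398046511104, 0, 0, 0⟩ v54; ok v55 && (
  let v56 := mul x1 v55; ok v56 && (
  let v57 := mul v9 v9; ok v57 && (
  let v58 := mul v57 v1; ok v58 && (
  let v59 := mul v13 v1; ok v59 && (
  let v60 := mul x0 v45; ok v60 && (
  let v61 := scale ⟨989989961728, 0, 0, 0⟩ v1; ok v61 && (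
  let v62 := add v60 v61; ok v62 && (
  let v63 := exp v62; ok v63 && (
  let v64 := mul v63 v63; ok v64 && (
  let v65 := neg v62; ok v65 && (
  let v66 := cst ⟨61083746304, 0, 0, 0⟩; ok v66 && (
  let v67 := add v65 v66; ok v67 && (
  isPos 3 v67 && (
  let v68 := scale ⟨1759219023872, 0, 0, 0⟩ v13; ok v68 && (
  let v69 := scale ⟨2748779069440, 0, 0, 0⟩ v10; ok v69 && (
  let v70 := add v68 v69; ok v70 && (
  let v71 := mul v70 v1; ok v71 && (
  let v72 := scale ⟨274877906944, 0, 0, 0⟩ v16; ok v72 && (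
  let v73 := sub v0 v72; ok v73 && (
  let v74 := mul v60 v45; ok v74 && (
  let v75 := scale ⟨549755813888, 0, 0, 0⟩ v74; ok v75 && (
  let v76 := scale ⟨157073539072, 0, 0, 0⟩ v18; ok v76 && (
  let v77 := add v75 v76; ok v77 && (
  let v78 := mul v63 v77; ok v78 && (
  let v79 := add v50 v78; ok v79 && (
  let v80 := mul v8 v79; ok v80 && (
  let v81 := scale ⟨1649267441664, 0, 0, 0⟩ v64; ok v81 && (
  let v82 := cst ⟨1649267441664, 0, 0, 0⟩; ok v82 && (
  let v83 := sub v81 v82; ok v83 && (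
  let v84 := scale ⟨824633720832, 0, 0, 0⟩ v16; ok v84 && (
  let v85 := add v83 v84; ok v85 && (
  let v86 := mul v10 v1; ok v86 && (
  let v87 := add v85 v86; ok v87 && (
  let v88 := add v87 v71; ok v88 && (
  let v89 := mul v12 v88; ok v89 && (
  let v90 := add v80 v89; ok v90 && (
  let v91 := mul v10 v8; ok v91 && (
  let v92 := mul v91 v1; ok v92 && (
  let v93 := scale ⟨137438953472, 0, 0, 0⟩ v92; ok v93 && (
  let v94 := mul v18 v93; ok v94 && (
  let v95 := add v90 v94; ok v95 && (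
  let v96 := mul v95 x0; ok v96 && (
  let v97 := cst ⟨3298534883328, 0, 0, 0⟩; ok v97 && (
  let v98 := sub v97 v81; ok v98 && (
  let v99 := mul v73 v98; ok v99 && (
  let v100 := mul v6 v6; ok v100 && (
  let v101 := scale ⟨549755813888, 0, 0, 0⟩ v100; ok v101 && (
  let v102 := sub v99 v101; ok v102 && (
  let v103 := mul v8 v8; ok v103 && (
  let v104 := mul v103 v63; ok v104 && (
  let v105 := sub v102 v104; ok v105 && (
  let v106 := sub v105 v71; ok v106 && (
  let v107 := mul v73 v101; ok v107 && (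
  let v108 := sub v81 v107; ok v108 && (
  let v109 := add v108 v71; ok v109 && (
  let v110 := mul v68 v1; ok v110 && (
  let v111 := scale ⟨1121502363648, 0, 0, 0⟩ v110; ok v111 && (
  let v112 := add v0 v111; ok v112 && (
  let v113 := mul v59 v64; ok v113 && (
  let v114 := scale ⟨2199023255552, 0, 0, 0⟩ v113; ok v114 && (
  let v115 := add v112 v114; ok v115 && (
  let v116 := mul v8 v115; ok v116 && (
  let v117 := mul v14 v71; ok v117 && (
  let v118 := add v116 v117; ok v118 && (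
  let v119 := mul v106 v14; ok v119 && (
  let v120 := mul v118 v118; ok v120 && (
  let v121 := add v100 v120; ok v121 && (
  let v122 := scale ⟨1098437885952, 0, 0, 0⟩ v106; ok v122 && (
  let v123 := mul v119 v119; ok v123 && (
  let v124 := add v121 v123; ok v124 && (
  let v125 := inv v124; ok v125 && (
  let v126 := mul v122 v125; ok v126 && (
  let v127 := neg v126; ok v127 && (
  let v128 := add v127 v0; ok v128 && (
  isPos 3 v128 && (
  let v129 := mul v103 v59; ok v129 && (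
  let v130 := scale ⟨2199023255552, 0, 0, 0⟩ v129; ok v130 && (
  let v131 := sub v0 v130; ok v131 && (
  let v132 := sub v131 v96; ok v132 && (
  let v133 := mul v96 v96; ok v133 && (
  let v134 := sub v132 v133; ok v134 && (
  let v135 := mul v134 v134; ok v135 && (
  let v136 := mul v12 v134; ok v136 && (
  let v137 := scale ⟨8796093022208, 0, 0, 0⟩ v1; ok v137 && (
  let v138 := sub v23 v137; ok v138 && (
  let v139 := scale ⟨7972533043200, 0, 0, 0⟩ v59; ok v139 && (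
  let v140 := sub v138 v139; ok v140 && (
  let v141 := scale ⟨1097968123904, 0, 0, 0⟩ v126; ok v141 && (
  let v142 := add v126 v0; ok v142 && (
  let v143 := scale ⟨1097968123904, 0, 0, 0⟩ v142; ok v143 && (
  let v144 := mul v141 v13; ok v144 && (
  let v145 := mul v144 v135; ok v145 && (
  let v146 := mul v140 v145; ok v146 && (
  let v147 := neg v146; ok v147 && (
  let v148 := exp v147; ok v148 && (
  let v149 := sub v0 v56; ok v149 && (
  isPos 3 v149 && (
  let v150 := inv v149; ok v150 && (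
  let v151 := scale ⟨549755813888, 0, 0, 0⟩ v56; ok v151 && (
  let v152 := add v0 v151; ok v152 && (
  let v153 := mul v56 v56; ok v153 && (
  let v154 := mul v153 v150; ok v154 && (
  let v155 := scale ⟨366504574976, 0, 0, 0⟩ v154; ok v155 && (
  let v156 := add v152 v155; ok v156 && (
  let v157 := mul v148 v56; ok v157 && (
  let v158 := scale ⟨549755813888, 0, 0, 0⟩ v157; ok v158 && (
  let v159 := add v0 v158; ok v159 && (
  let v160 := mul v157 v157; ok v160 && (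
  let v161 := sub v0 v157; ok v161 && (
  let v162 := inv v161; ok v162 && (
  let v163 := mul v160 v162; ok v163 && (
  let v164 := scale ⟨366504574976, 0, 0, 0⟩ v163; ok v164 && (
  let v165 := add v159 v164; ok v165 && (
  let v166 := inv v134; ok v166 && (
  let v167 := mul v95 v12; ok v167 && (
  let v168 := scale ⟨5875515260928, 0, 0, 0⟩ v167; ok v168 && (
  let v169 := add v167 v168; ok v169 && (
  let v170 := mul v56 v156; ok v170 && (
  let v171 := add v169 v170; ok v171 && (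
  let v172 := scale ⟨6975026888704, 0, 0, 0⟩ v167; ok v172 && (
  let v173 := mul v157 v165; ok v173 && (
  let v174 := add v172 v173; ok v174 && (
  let v175 := scale ⟨5875515260928, 0, 0, 0⟩ v96; ok v175 && (
  let v176 := add v175 v96; ok v176 && (
  let v177 := mul v55 v156; ok v177 && (
  let v178 := add v176 v177; ok v178 && (
  let v179 := mul v8 v178; ok v179 && (
  let v180 := neg v171; ok v180 && (
  let v181 := cst ⟨989989961728, 0, 0, 0⟩; ok v181 && (
  let v182 := add v180 v181; ok v182 && (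
  isPos 3 v182 && (
  let v183 := neg v174; ok v183 && (
  let v184 := add v183 v181; ok v184 && (
  isPos 3 v184 && (
  let v185 := scale ⟨1165482786816, 0, 0, 0⟩ v64; ok v185 && (
  let v186 := scale ⟨2199023255552, 0, 0, 0⟩ v171; ok v186 && (
  let v187 := add v186 v174; ok v187 && (
  let v188 := mul v1 v187; ok v188 && (
  let v189 := add v179 v188; ok v189 && (
  let v190 := mul v185 v189; ok v190 && (
  let v191 := mul v190 v14; ok v191 && (
  let v192 := mul v191 v166; ok v192 && (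
  let v193 := sub v0 v192; ok v193 && (
  isPos 3 v193 && (
  let v194 := scale ⟨2199023255552, 0, 0, 0⟩ v192; ok v194 && (
  let v195 := neg v194; ok v195 && (
  let v196 := cst ⟨1097095708672, 0, 0, 0⟩; ok v196 && (
  let v197 := add v195 v196; ok v197 && (
  let v198 := sub v121 v0; ok v198 && (
  let v199 := scale ⟨549755813888, 0, 0, 0⟩ v198; ok v199 && (
  let v200 := add v199 v0; ok v200 && (
  let v201 := cst ⟨2083864444928, 0, 0, 0⟩; ok v201 && (
  let v202 := add v96 v0; ok v202 && (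
  let v203 := mul v202 v202; ok v203 && (
  let v204 := sub v201 v203; ok v204 && (
  isPos 3 v204 && (
  let v205 := cst ⟨3189013217280, 0, 0, 0⟩; ok v205 && (
  let v206 := sub v205 v109; ok v206 && (
  let v207 := sub v206 v190; ok v207 && (
  let v208 := add v200 v96; ok v208 && (
  let v209 := add v208 v191; ok v209 && (
  let v210 := mul v209 v209; ok v210 && (
  let v211 := sub v207 v210; ok v211 && (
  isPos 3 v211 && (
  let v212 := mul v135 v197; ok v212 && (
  let v213 := scale ⟨10115506765824, 0, 0, 0⟩ v212; ok v213 && (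
  let v214 := sub v213 v205; ok v214 && (
  isPos 3 v214 && (
  let v215 := scale ⟨989560045568, 0, 0, 0⟩ v212; ok v215 && (
  let v216 := scale ⟨9249480507392, 0, 0, 0⟩ v59; ok v216 && (
  let v217 := sub v215 v216; ok v217 && (
  isPos 3 v217 && (
  isPos 3 v140 && (
  isPos 3 v132 && (
  isPos 3 v134 && (
  let v218 := mul v135 v193; ok v218 && (
  let v219 := inv v218; ok v219 && (
  let v220 := mul v190 v219; ok v220 && (
  let v221 := scale ⟨1121758216192, 0, 0, 0⟩ v220; ok v221 && (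
  let v222 := sub v126 v221; ok v222 && (
  let v223 := cst ⟨136096776192, 0, 0, 0⟩; ok v223 && (
  let v224 := sub v222 v223; ok v224 && (
  isPos 3 v224 && (
  let v225 := sub v106 v190; ok v225 && (
  isPos 3 v225 && (
  let v226 := sub v0 v194; ok v226 && (
  let v227 := mul v135 v226; ok v227 && (
  let v228 := scale ⟨2100239007744, 0, 0, 0⟩ v227; ok v228 && (
  let v229 := sub v228 v109; ok v229 && (
  let v230 := sub v229 v190; ok v230 && (
  isPos 3 v230 && (
  let v231 := mul v190 v13; ok v231 && (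
  let v232 := mul v118 x1; ok v232 && (
  let v233 := add v232 v231; ok v233 && (
  let v234 := neg v233; ok v234 && (
  let v235 := cst ⟨3518651957248, 0, 0, 0⟩; ok v235 && (
  let v236 := add v234 v235; ok v236 && (
  isPos 3 v236 && (
  let v237 := cst ⟨2473901162496, 0, 0, 0⟩; ok v237 && (
  let v238 := add v234 v237; ok v238 && (
  isPos 3 v238 && (
  let v239 := neg v10; ok v239 && (
  let v240 := add v239 v237; ok v240 && (
  isPos 3 v240 && (
  let v241 := cst ⟨5498631880704, 0, 0, 0⟩; ok v241 && (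
  let v242 := add v29 v241; ok v242 && (
  isPos 3 v242 && (
  let v243 := add v222 v0; ok v243 && (
  let v244 := scale ⟨1097968123904, 0, 0, 0⟩ v243; ok v244 && (
  let v245 := mul v244 v13; ok v245 && (
  let v246 := mul v245 v135; ok v246 && (
  let v247 := mul v246 v197; ok v247 && (
  let v248 := mul v140 v247; ok v248 && (
  let v249 := neg v248; ok v249 && (
  let v250 := exp v249; ok v250 && (
  let v251 := scale ⟨5875515260928, 0, 0, 0⟩ v231; ok v251 && (
  let v252 := add v251 v231; ok v252 && (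
  let v253 := scale ⟨5875515260928, 0, 0, 0⟩ v191; ok v253 && (
  let v254 := add v253 v191; ok v254 && (
  let v255 := scale ⟨274877906944, 0, 0, 0⟩ v9; ok v255 && (
  let v256 := add v255 v0; ok v256 && (
  let v257 := mul v254 v256; ok v257 && (
  let v258 := scale ⟨549755813888, 0, 0, 0⟩ v252; ok v258 && (
  let v259 := sub v0 v258; ok v259 && (
  isPos 3 v259 && (
  let v260 := inv v259; ok v260 && (
  let v261 := add v258 v0; ok v261 && (
  let v262 := mul v261 v260; ok v262 && (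
  let v263 := mul v109 v14; ok v263 && (
  let v264 := scale ⟨2199023255552, 0, 0, 0⟩ v6; ok v264 && (
  let v265 := add v263 v264; ok v265 && (
  let v266 := mul v263 v265; ok v266 && (
  let v267 := add v121 v266; ok v267 && (
  let v268 := mul v263 v263; ok v268 && (
  let v269 := add v121 v268; ok v269 && (
  let v270 := mul v14 v269; ok v270 && (
  let v271 := sub v267 v0; ok v271 && (
  let v272 := scale ⟨549755813888, 0, 0, 0⟩ v271; ok v272 && (
  let v273 := add v272 v0; ok v273 && (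
  let v274 := mul v257 v260; ok v274 && (
  let v275 := mul v262 v250; ok v275 && (
  let v276 := scale ⟨112608673792, 0, 0, 0⟩ v275; ok v276 && (
  let v277 := add v273 v270; ok v277 && (
  let v278 := add v277 v191; ok v278 && (
  let v279 := mul v276 v278; ok v279 && (
  let v280 := add v274 v279; ok v280 && (
  let v281 := neg v280; ok v281 && (
  let v282 := cst ⟨151731044352, 0, 0, 0⟩; ok v282 && (
  let v283 := add v281 v282; ok v283 && (
  isPos 3 v283 && (
  true))))))))))))))))))))))))))))))))))))))))))))))))))))))))))))))))))))))))))))))))))))))))))))))))))))))))))))))))))))))))))))))))))))))))))))))))))))))))))))))))))))))))))))))))))))))))))))))))))))))))))))))))))))))))))))))))))))))))))))))))))))))))))))))))))))))))))))))))))))))))))))))))))))))))))))))))))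
  | _ => false

set_option maxRecDepth 1000000 in
theorem chk3_eq (O : Ops) (m : List O.α)
    (h : chk3 O.cst O.add O.sub O.mul O.scale O.neg O.inv O.exp O.log O.ok O.isPos O.isLt m = true) :
    runG O 3 prog3 m = true := by
  match m, h with
  | [x0, x1, x2], h => exact h

def chkB3 : List opsE.α → Bool :=
  chk3 opsE.cst opsE.add opsE.sub opsE.mul opsE.scale opsE.neg opsE.inv opsE.exp opsE.log opsE.ok opsE.isPos opsE.isLt

theorem chkB3_eq (m : List opsE.α) (h : chkB3 m = true) : runG opsE 3 prog3 m = true :=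
  chk3_eq opsE m h

def prog4 : List Op := [
  .const ⟨1099511627776, 0, 0, 0⟩,
  .mul 1 1,
  .mul 4 4,
  .add 0 2,
  .inv 0,
  .sub 4 2,
  .mul 0 1,
  .mul 9 2,
  .scale ⟨2199023255552, 0, 0, 0⟩ 0,
  .mul 10 2,
  .mul 11 1,
  .inv 12,
  .mul 12 13,
  .mul 0 0,
  .mul 1 14,
  .mul 5 13,
  .mul 0 0,
  .mul 1 7,
  .mul 0 18,
  .const ⟨1099243192320, 0, 0, 0⟩,
  .scale ⟨3111703805952, 0, 0, 0⟩ 20,
  .sub 1 0,
  .scale ⟨32985348833280, 0, 0, 0⟩ 20,
  .sub 1 0,
  .scale ⟨1556388773888, 0, 0, 0⟩ 24,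
  .sub 5 0,
  .scale ⟨26388279066624, 0, 0, 0⟩ 24,
  .sub 1 0,
  .scale ⟨549755813888, 0, 0, 0⟩ 18,
  .neg 19,
  .exp 0,
  .add 0 30,
  .log 0,
  .add 4 0,
  .const ⟨1724298297344, 0, 0, 0⟩,
  .add 1 0,
  .mul 36 0,
  .scale ⟨147041812480, 0, 0, 0⟩ 25,
  .add 1 0,
  .mul 39 28,
  .mul 1 1,
  .mul 1 1,
  .add 1 0,
  .log 0,
  .scale ⟨549755813888, 0, 0, 0⟩ 0,
  .exp 0,
  .scale ⟨274877906944, 0, 0, 0⟩ 4,
  .add 6 0,
  .log 0,
  .scale ⟨549755813888, 0, 0, 0⟩ 0,
  .exp 0,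
  .const ⟨4398046511104, 0, 0, 0⟩,
  .add 42 0,
  .inv 0,
  .scale ⟨151733141504, 0, 0, 0⟩ 0,
  .scale ⟨4398046511104, 0, 0, 0⟩ 0,
  .mul 57 0,
  .mul 47 47,
  .mul 0 56,
  .mul 45 57,
  .mul 60 14,
  .scale ⟨989989961728, 0, 0, 0⟩ 59,
  .add 1 0,
  .exp 0,
  .mul 0 0,
  .neg 2,
  .const ⟨61083746304, 0, 0, 0⟩,
  .add 1 0,
  .pos 0,
  .scale ⟨1759219023872, 0, 0, 0⟩ 54,
  .scale ⟨2748779069440, 0, 0, 0⟩ 58,
  .add 1 0,
  .mul 0 69,
  .scale ⟨274877906944, 0, 0, 0⟩ 55,
  .sub 72 0,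
  .mul 13 28,
  .scale ⟨549755813888, 0, 0, 0⟩ 0,
  .scale ⟨157073539072, 0, 0, 0⟩ 57,
  .add 1 0,
  .mul 14 0,
  .add 28 0,
  .mul 71 0,
  .scale ⟨1649267441664, 0, 0, 0⟩ 16,
  .const ⟨1649267441664, 0, 0, 0⟩,
  .sub 1 0,
  .scale ⟨824633720832, 0, 0, 0⟩ 67,
  .add 1 0,
  .mul 75 84,
  .add 1 0,
  .add 0 16,
  .mul 76 0,
  .add 9 0,
  .mul 80 82,
  .mul 0 90,
  .scale ⟨137438953472, 0, 0, 0⟩ 0,
  .mul 75 0,
  .add 4 0,
  .mul 0 96,
  .const ⟨3298534883328, 0, 0, 0⟩,
  .sub 0 16,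
  .mul 25 0,
  .mul 93 93,
  .scale ⟨549755813888, 0, 0, 0⟩ 0,
  .sub 2 0,
  .mul 94 94,
  .mul 0 40,
  .sub 2 0,
  .sub 0 34,
  .mul 33 5,
  .sub 26 0,
  .add 0 37,
  .mul 41 108,
  .scale ⟨1121502363648, 0, 0, 0⟩ 0,
  .add 111 0,
  .mul 53 48,
  .scale ⟨2199023255552, 0, 0, 0⟩ 0,
  .add 2 0,
  .mul 107 0,
  .mul 102 45,
  .add 1 0,
  .mul 12 104,
  .mul 1 1,
  .add 20 0,
  .scale ⟨1098437885952, 0, 0, 0⟩ 15,
  .mul 3 3,
  .add 2 0,
  .inv 0,
  .mul 3 0,
  .neg 0,
  .add 0 127,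
  .pos 0,
  .mul 25 69,
  .scale ⟨2199023255552, 0, 0, 0⟩ 0,
  .sub 130 0,
  .sub 0 35,
  .mul 36 36,
  .sub 1 0,
  .mul 0 0,
  .mul 123 1,
  .scale ⟨8796093022208, 0, 0, 0⟩ 135,
  .sub 114 0,
  .scale ⟨7972533043200, 0, 0, 0⟩ 79,
  .sub 1 0,
  .scale ⟨1097968123904, 0, 0, 0⟩ 14,
  .add 15 141,
  .scale ⟨1097968123904, 0, 0, 0⟩ 0,
  .mul 2 130,
  .mul 0 9,
  .mul 5 0,
  .neg 0,
  .exp 0,
  .sub 148 92,
  .pos 0,
  .inv 0,
  .scale ⟨549755813888, 0, 0, 0⟩ 94,
  .add 151 0,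
  .mul 96 96,
  .mul 0 3,
  .scale ⟨366504574976, 0, 0, 0⟩ 0,
  .add 3 0,
  .mul 8 100,
  .scale ⟨549755813888, 0, 0, 0⟩ 0,
  .add 158 0,
  .mul 2 2,
  .sub 160 3,
  .inv 0,
  .mul 2 0,
  .scale ⟨366504574976, 0, 0, 0⟩ 0,
  .add 5 0,
  .inv 31,
  .mul 71 154,
  .scale ⟨4861902979072, 0, 0, 0⟩ 0,
  .add 1 0,
  .mul 113 13,
  .add 1 0,
  .scale ⟨5961414606848, 0, 0, 0⟩ 4,
  .mul 15 7,
  .add 1 0,
  .scale ⟨4861902979072, 0, 0, 0⟩ 78,
  .add 0 79,
  .mul 121 20,
  .add 1 0,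
  .mul 170 0,
  .neg 8,
  .const ⟨989989961728, 0, 0, 0⟩,
  .add 1 0,
  .pos 0,
  .neg 8,
  .add 0 2,
  .pos 0,
  .scale ⟨1165482786816, 0, 0, 0⟩ 120,
  .scale ⟨2199023255552, 0, 0, 0⟩ 14,
  .add 0 12,
  .mul 186 0,
  .add 9 0,
  .mul 4 0,
  .mul 0 176,
  .mul 0 25,
  .sub 192 0,
  .pos 0,
  .scale ⟨2199023255552, 0, 0, 0⟩ 1,
  .neg 0,
  .const ⟨1097095708672, 0, 0, 0⟩,
  .add 1 0,
  .sub 76 197,
  .scale ⟨549755813888, 0, 0, 0⟩ 0,
  .add 0 199,
  .const ⟨2083864444928, 0, 0, 0⟩,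
  .add 105 201,
  .mul 0 0,
  .sub 2 0,
  .pos 0,
  .const ⟨3189013217280, 0, 0, 0⟩,
  .sub 0 96,
  .sub 0 16,
  .add 7 111,
  .add 0 17,
  .mul 0 0,
  .sub 3 0,
  .pos 0,
  .mul 76 14,
  .scale ⟨10115506765824, 0, 0, 0⟩ 0,
  .sub 0 8,
  .pos 0,
  .scale ⟨989560045568, 0, 0, 0⟩ 2,
  .scale ⟨9249480507392, 0, 0, 0⟩ 156,
  .sub 1 0,
  .pos 0,
  .pos 77,
  .pos 85,
  .pos 83,
  .mul 82 24,
  .inv 0,
  .mul 29 0,
  .scale ⟨1121758216192, 0, 0, 0⟩ 0,
  .sub 95 0,
  .const ⟨136096776192, 0, 0, 0⟩,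
  .sub 1 0,
  .pos 0,
  .sub 118 34,
  .pos 0,
  .sub 225 31,
  .mul 91 0,
  .scale ⟨2100239007744, 0, 0, 0⟩ 0,
  .sub 0 119,
  .sub 0 39,
  .pos 0,
  .mul 40 217,
  .mul 113 233,
  .add 0 1,
  .neg 0,
  .const ⟨3518651957248, 0, 0, 0⟩,
  .add 1 0,
  .pos 0,
  .const ⟨2473901162496, 0, 0, 0⟩,
  .add 3 0,
  .pos 0,
  .neg 228,
  .add 0 2,
  .pos 0,
  .const ⟨2748779069440, 0, 0, 0⟩,
  .add 212 0,
  .pos 0,
  .add 20 242,
  .scale ⟨1097968123904, 0, 0, 0⟩ 0,
  .mul 0 231,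
  .mul 0 110,
  .mul 0 49,
  .mul 107 0,
  .neg 0,
  .exp 0,
  .scale ⟨4861902979072, 0, 0, 0⟩ 19,
  .add 0 20,
  .scale ⟨4861902979072, 0, 0, 0⟩ 61,
  .add 0 62,
  .scale ⟨274877906944, 0, 0, 0⟩ 245,
  .add 0 255,
  .mul 2 0,
  .scale ⟨549755813888, 0, 0, 0⟩ 5,
  .sub 258 0,
  .pos 0,
  .inv 0,
  .add 2 260,
  .mul 0 1,
  .mul 153 248,
  .scale ⟨2199023255552, 0, 0, 0⟩ 257,
  .add 1 0,
  .mul 2 0,
  .add 145 0,
  .mul 4 4,
  .add 147 0,
  .mul 255 0,
  .sub 3 270,
  .scale ⟨549755813888, 0, 0, 0⟩ 0,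
  .add 0 272,
  .mul 16 13,
  .mul 12 24,
  .scale ⟨112608673792, 0, 0, 0⟩ 0,
  .add 3 6,
  .add 0 86,
  .mul 2 0,
  .add 5 0,
  .neg 0,
  .const ⟨151731044352, 0, 0, 0⟩,
  .add 1 0,
  .pos 0]

def chk4 {α : Type} (cst : Z → α) (add sub mul : α → α → α) (scale : Z → α → α)
    (neg inv exp log : α → α) (ok : α → Bool) (isPos : Nat → α → Bool) (isLt : α → Nat → Bool) :
    List α → Bool
  | [x0, x1, x2] =>
  let v0 := cst ⟨1099511627776, 0, 0, 0⟩; ok v0 && (
  let v1 := mul x0 x0; ok v1 && (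
  let v2 := mul x2 x2; ok v2 && (
  let v3 := add v2 v0; ok v3 && (
  let v4 := inv v3; ok v4 && (
  let v5 := sub v0 v2; ok v5 && (
  let v6 := mul v5 v4; ok v6 && (
  let v7 := mul x2 v4; ok v7 && (
  let v8 := scale ⟨2199023255552, 0, 0, 0⟩ v7; ok v8 && (
  let v9 := mul x1 v6; ok v9 && (
  let v10 := mul x1 v8; ok v10 && (
  let v11 := inv x1; ok v11 && (
  let v12 := mul x0 x1; ok v12 && (
  let v13 := mul v12 v12; ok v13 && (
  let v14 := mul v12 x0; ok v14 && (
  let v15 := mul v9 v1; ok v15 && (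
  let v16 := mul v15 v15; ok v16 && (
  let v17 := mul v15 v9; ok v17 && (
  let v18 := mul v17 x0; ok v18 && (
  let v19 := cst ⟨1099243192320, 0, 0, 0⟩; ok v19 && (
  let v20 := scale ⟨3111703805952, 0, 0, 0⟩ x0; ok v20 && (
  let v21 := sub v19 v20; ok v21 && (
  let v22 := scale ⟨32985348833280, 0, 0, 0⟩ v1; ok v22 && (
  let v23 := sub v21 v22; ok v23 && (
  let v24 := scale ⟨1556388773888, 0, 0, 0⟩ x0; ok v24 && (
  let v25 := sub v19 v24; ok v25 && (
  let v26 := scale ⟨26388279066624, 0, 0, 0⟩ v1; ok v26 && (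
  let v27 := sub v25 v26; ok v27 && (
  let v28 := scale ⟨549755813888, 0, 0, 0⟩ v9; ok v28 && (
  let v29 := neg v9; ok v29 && (
  let v30 := exp v29; ok v30 && (
  let v31 := add v30 v0; ok v31 && (
  let v32 := log v31; ok v32 && (
  let v33 := add v28 v32; ok v33 && (
  let v34 := cst ⟨1724298297344, 0, 0, 0⟩; ok v34 && (
  let v35 := add v33 v34; ok v35 && (
  let v36 := mul x0 v35; ok v36 && (
  let v37 := scale ⟨147041812480, 0, 0, 0⟩ v11; ok v37 && (
  let v38 := add v36 v37; ok v38 && (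
  let v39 := mul x0 v10; ok v39 && (
  let v40 := mul v38 v38; ok v40 && (
  let v41 := mul v39 v39; ok v41 && (
  let v42 := add v40 v41; ok v42 && (
  let v43 := log v42; ok v43 && (
  let v44 := scale ⟨549755813888, 0, 0, 0⟩ v43; ok v44 && (
  let v45 := exp v44; ok v45 && (
  let v46 := scale ⟨274877906944, 0, 0, 0⟩ v41; ok v46 && (
  let v47 := add v40 v46; ok v47 && (
  let v48 := log v47; ok v48 && (
  let v49 := scale ⟨549755813888, 0, 0, 0⟩ v48; ok v49 && (
  let v50 := exp v49; ok v50 && (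
  let v51 := cst ⟨4398046511104, 0, 0, 0⟩; ok v51 && (
  let v52 := add v9 v51; ok v52 && (
  let v53 := inv v52; ok v53 && (
  let v54 := scale ⟨151733141504, 0, 0, 0⟩ v53; ok v54 && (
  let v55 := scale ⟨4398046511104, 0, 0, 0⟩ v54; ok v55 && (
  let v56 := mul x1 v55; ok v56 && (
  let v57 := mul v9 v9; ok v57 && (
  let v58 := mul v57 v1; ok v58 && (
  let v59 := mul v13 v1; ok v59 && (
  let v60 := mul x0 v45; ok v60 && (
  let v61 := scale ⟨989989961728, 0, 0, 0⟩ v1; ok v61 && (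
  let v62 := add v60 v61; ok v62 && (
  let v63 := exp v62; ok v63 && (
  let v64 := mul v63 v63; ok v64 && (
  let v65 := neg v62; ok v65 && (
  let v66 := cst ⟨61083746304, 0, 0, 0⟩; ok v66 && (
  let v67 := add v65 v66; ok v67 && (
  isPos 3 v67 && (
  let v68 := scale ⟨1759219023872, 0, 0, 0⟩ v13; ok v68 && (
  let v69 := scale ⟨2748779069440, 0, 0, 0⟩ v10; ok v69 && (
  let v70 := add v68 v69; ok v70 && (
  let v71 := mul v70 v1; ok v71 && (
  let v72 := scale ⟨274877906944, 0, 0, 0⟩ v16; ok v72 && (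
  let v73 := sub v0 v72; ok v73 && (
  let v74 := mul v60 v45; ok v74 && (
  let v75 := scale ⟨549755813888, 0, 0, 0⟩ v74; ok v75 && (
  let v76 := scale ⟨157073539072, 0, 0, 0⟩ v18; ok v76 && (
  let v77 := add v75 v76; ok v77 && (
  let v78 := mul v63 v77; ok v78 && (
  let v79 := add v50 v78; ok v79 && (
  let v80 := mul v8 v79; ok v80 && (
  let v81 := scale ⟨1649267441664, 0, 0, 0⟩ v64; ok v81 && (
  let v82 := cst ⟨1649267441664, 0, 0, 0⟩; ok v82 && (
  let v83 := sub v81 v82; ok v83 && (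
  let v84 := scale ⟨824633720832, 0, 0, 0⟩ v16; ok v84 && (
  let v85 := add v83 v84; ok v85 && (
  let v86 := mul v10 v1; ok v86 && (
  let v87 := add v85 v86; ok v87 && (
  let v88 := add v87 v71; ok v88 && (
  let v89 := mul v12 v88; ok v89 && (
  let v90 := add v80 v89; ok v90 && (
  let v91 := mul v10 v8; ok v91 && (
  let v92 := mul v91 v1; ok v92 && (
  let v93 := scale ⟨137438953472, 0, 0, 0⟩ v92; ok v93 && (
  let v94 := mul v18 v93; ok v94 && (
  let v95 := add v90 v94; ok v95 && (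
  let v96 := mul v95 x0; ok v96 && (
  let v97 := cst ⟨3298534883328, 0, 0, 0⟩; ok v97 && (
  let v98 := sub v97 v81; ok v98 && (
  let v99 := mul v73 v98; ok v99 && (
  let v100 := mul v6 v6; ok v100 && (
  let v101 := scale ⟨549755813888, 0, 0, 0⟩ v100; ok v101 && (
  let v102 := sub v99 v101; ok v102 && (
  let v103 := mul v8 v8; ok v103 && (
  let v104 := mul v103 v63; ok v104 && (
  let v105 := sub v102 v104; ok v105 && (
  let v106 := sub v105 v71; ok v106 && (
  let v107 := mul v73 v101; ok v107 && (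
  let v108 := sub v81 v107; ok v108 && (
  let v109 := add v108 v71; ok v109 && (
  let v110 := mul v68 v1; ok v110 && (
  let v111 := scale ⟨1121502363648, 0, 0, 0⟩ v110; ok v111 && (
  let v112 := add v0 v111; ok v112 && (
  let v113 := mul v59 v64; ok v113 && (
  let v114 := scale ⟨2199023255552, 0, 0, 0⟩ v113; ok v114 && (
  let v115 := add v112 v114; ok v115 && (
  let v116 := mul v8 v115; ok v116 && (
  let v117 := mul v14 v71; ok v117 && (
  let v118 := add v116 v117; ok v118 && (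
  let v119 := mul v106 v14; ok v119 && (
  let v120 := mul v118 v118; ok v120 && (
  let v121 := add v100 v120; ok v121 && (
  let v122 := scale ⟨1098437885952, 0, 0, 0⟩ v106; ok v122 && (
  let v123 := mul v119 v119; ok v123 && (
  let v124 := add v121 v123; ok v124 && (
  let v125 := inv v124; ok v125 && (
  let v126 := mul v122 v125; ok v126 && (
  let v127 := neg v126; ok v127 && (
  let v128 := add v127 v0; ok v128 && (
  isPos 3 v128 && (
  let v129 := mul v103 v59; ok v129 && (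
  let v130 := scale ⟨2199023255552, 0, 0, 0⟩ v129; ok v130 && (
  let v131 := sub v0 v130; ok v131 && (
  let v132 := sub v131 v96; ok v132 && (
  let v133 := mul v96 v96; ok v133 && (
  let v134 := sub v132 v133; ok v134 && (
  let v135 := mul v134 v134; ok v135 && (
  let v136 := mul v12 v134; ok v136 && (
  let v137 := scale ⟨8796093022208, 0, 0, 0⟩ v1; ok v137 && (
  let v138 := sub v23 v137; ok v138 && (
  let v139 := scale ⟨7972533043200, 0, 0, 0⟩ v59; ok v139 && (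
  let v140 := sub v138 v139; ok v140 && (
  let v141 := scale ⟨1097968123904, 0, 0, 0⟩ v126; ok v141 && (
  let v142 := add v126 v0; ok v142 && (
  let v143 := scale ⟨1097968123904, 0, 0, 0⟩ v142; ok v143 && (
  let v144 := mul v141 v13; ok v144 && (
  let v145 := mul v144 v135; ok v145 && (
  let v146 := mul v140 v145; ok v146 && (
  let v147 := neg v146; ok v147 && (
  let v148 := exp v147; ok v148 && (
  let v149 := sub v0 v56; ok v149 && (
  isPos 3 v149 && (
  let v150 := inv v149; ok v150 && (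
  let v151 := scale ⟨549755813888, 0, 0, 0⟩ v56; ok v151 && (
  let v152 := add v0 v151; ok v152 && (
  let v153 := mul v56 v56; ok v153 && (
  let v154 := mul v153 v150; ok v154 && (
  let v155 := scale ⟨366504574976, 0, 0, 0⟩ v154; ok v155 && (
  let v156 := add v152 v155; ok v156 && (
  let v157 := mul v148 v56; ok v157 && (
  let v158 := scale ⟨549755813888, 0, 0, 0⟩ v157; ok v158 && (
  let v159 := add v0 v158; ok v159 && (
  let v160 := mul v157 v157; ok v160 && (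
  let v161 := sub v0 v157; ok v161 && (
  let v162 := inv v161; ok v162 && (
  let v163 := mul v160 v162; ok v163 && (
  let v164 := scale ⟨366504574976, 0, 0, 0⟩ v163; ok v164 && (
  let v165 := add v159 v164; ok v165 && (
  let v166 := inv v134; ok v166 && (
  let v167 := mul v95 v12; ok v167 && (
  let v168 := scale ⟨4861902979072, 0, 0, 0⟩ v167; ok v168 && (
  let v169 := add v167 v168; ok v169 && (
  let v170 := mul v56 v156; ok v170 && (
  let v171 := add v169 v170; ok v171 && (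
  let v172 := scale ⟨5961414606848, 0, 0, 0⟩ v167; ok v172 && (
  let v173 := mul v157 v165; ok v173 && (
  let v174 := add v172 v173; ok v174 && (
  let v175 := scale ⟨4861902979072, 0, 0, 0⟩ v96; ok v175 && (
  let v176 := add v175 v96; ok v176 && (
  let v177 := mul v55 v156; ok v177 && (
  let v178 := add v176 v177; ok v178 && (
  let v179 := mul v8 v178; ok v179 && (
  let v180 := neg v171; ok v180 && (
  let v181 := cst ⟨989989961728, 0, 0, 0⟩; ok v181 && (
  let v182 := add v180 v181; ok v182 && (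
  isPos 3 v182 && (
  let v183 := neg v174; ok v183 && (
  let v184 := add v183 v181; ok v184 && (
  isPos 3 v184 && (
  let v185 := scale ⟨1165482786816, 0, 0, 0⟩ v64; ok v185 && (
  let v186 := scale ⟨2199023255552, 0, 0, 0⟩ v171; ok v186 && (
  let v187 := add v186 v174; ok v187 && (
  let v188 := mul v1 v187; ok v188 && (
  let v189 := add v179 v188; ok v189 && (
  let v190 := mul v185 v189; ok v190 && (
  let v191 := mul v190 v14; ok v191 && (
  let v192 := mul v191 v166; ok v192 && (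
  let v193 := sub v0 v192; ok v193 && (
  isPos 3 v193 && (
  let v194 := scale ⟨2199023255552, 0, 0, 0⟩ v192; ok v194 && (
  let v195 := neg v194; ok v195 && (
  let v196 := cst ⟨1097095708672, 0, 0, 0⟩; ok v196 && (
  let v197 := add v195 v196; ok v197 && (
  let v198 := sub v121 v0; ok v198 && (
  let v199 := scale ⟨549755813888, 0, 0, 0⟩ v198; ok v199 && (
  let v200 := add v199 v0; ok v200 && (
  let v201 := cst ⟨2083864444928, 0, 0, 0⟩; ok v201 && (
  let v202 := add v96 v0; ok v202 && (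
  let v203 := mul v202 v202; ok v203 && (
  let v204 := sub v201 v203; ok v204 && (
  isPos 3 v204 && (
  let v205 := cst ⟨3189013217280, 0, 0, 0⟩; ok v205 && (
  let v206 := sub v205 v109; ok v206 && (
  let v207 := sub v206 v190; ok v207 && (
  let v208 := add v200 v96; ok v208 && (
  let v209 := add v208 v191; ok v209 && (
  let v210 := mul v209 v209; ok v210 && (
  let v211 := sub v207 v210; ok v211 && (
  isPos 3 v211 && (
  let v212 := mul v135 v197; ok v212 && (
  let v213 := scale ⟨10115506765824, 0, 0, 0⟩ v212; ok v213 && (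
  let v214 := sub v213 v205; ok v214 && (
  isPos 3 v214 && (
  let v215 := scale ⟨989560045568, 0, 0, 0⟩ v212; ok v215 && (
  let v216 := scale ⟨9249480507392, 0, 0, 0⟩ v59; ok v216 && (
  let v217 := sub v215 v216; ok v217 && (
  isPos 3 v217 && (
  isPos 3 v140 && (
  isPos 3 v132 && (
  isPos 3 v134 && (
  let v218 := mul v135 v193; ok v218 && (
  let v219 := inv v218; ok v219 && (
  let v220 := mul v190 v219; ok v220 && (
  let v221 := scale ⟨1121758216192, 0, 0, 0⟩ v220; ok v221 && (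
  let v222 := sub v126 v221; ok v222 && (
  let v223 := cst ⟨136096776192, 0, 0, 0⟩; ok v223 && (
  let v224 := sub v222 v223; ok v224 && (
  isPos 3 v224 && (
  let v225 := sub v106 v190; ok v225 && (
  isPos 3 v225 && (
  let v226 := sub v0 v194; ok v226 && (
  let v227 := mul v135 v226; ok v227 && (
  let v228 := scale ⟨2100239007744, 0, 0, 0⟩ v227; ok v228 && (
  let v229 := sub v228 v109; ok v229 && (
  let v230 := sub v229 v190; ok v230 && (
  isPos 3 v230 && (
  let v231 := mul v190 v13; ok v231 && (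
  let v232 := mul v118 x1; ok v232 && (
  let v233 := add v232 v231; ok v233 && (
  let v234 := neg v233; ok v234 && (
  let v235 := cst ⟨3518651957248, 0, 0, 0⟩; ok v235 && (
  let v236 := add v234 v235; ok v236 && (
  isPos 3 v236 && (
  let v237 := cst ⟨2473901162496, 0, 0, 0⟩; ok v237 && (
  let v238 := add v234 v237; ok v238 && (
  isPos 3 v238 && (
  let v239 := neg v10; ok v239 && (
  let v240 := add v239 v237; ok v240 && (
  isPos 3 v240 && (
  let v241 := cst ⟨2748779069440, 0, 0, 0⟩; ok v241 && (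
  let v242 := add v29 v241; ok v242 && (
  isPos 3 v242 && (
  let v243 := add v222 v0; ok v243 && (
  let v244 := scale ⟨1097968123904, 0, 0, 0⟩ v243; ok v244 && (
  let v245 := mul v244 v13; ok v245 && (
  let v246 := mul v245 v135; ok v246 && (
  let v247 := mul v246 v197; ok v247 && (
  let v248 := mul v140 v247; ok v248 && (
  let v249 := neg v248; ok v249 && (
  let v250 := exp v249; ok v250 && (
  let v251 := scale ⟨4861902979072, 0, 0, 0⟩ v231; ok v251 && (
  let v252 := add v251 v231; ok v252 && (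
  let v253 := scale ⟨4861902979072, 0, 0, 0⟩ v191; ok v253 && (
  let v254 := add v253 v191; ok v254 && (
  let v255 := scale ⟨274877906944, 0, 0, 0⟩ v9; ok v255 && (
  let v256 := add v255 v0; ok v256 && (
  let v257 := mul v254 v256; ok v257 && (
  let v258 := scale ⟨549755813888, 0, 0, 0⟩ v252; ok v258 && (
  let v259 := sub v0 v258; ok v259 && (
  isPos 3 v259 && (
  let v260 := inv v259; ok v260 && (
  let v261 := add v258 v0; ok v261 && (
  let v262 := mul v261 v260; ok v262 && (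
  let v263 := mul v109 v14; ok v263 && (
  let v264 := scale ⟨2199023255552, 0, 0, 0⟩ v6; ok v264 && (
  let v265 := add v263 v264; ok v265 && (
  let v266 := mul v263 v265; ok v266 && (
  let v267 := add v121 v266; ok v267 && (
  let v268 := mul v263 v263; ok v268 && (
  let v269 := add v121 v268; ok v269 && (
  let v270 := mul v14 v269; ok v270 && (
  let v271 := sub v267 v0; ok v271 && (
  let v272 := scale ⟨549755813888, 0, 0, 0⟩ v271; ok v272 && (
  let v273 := add v272 v0; ok v273 && (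
  let v274 := mul v257 v260; ok v274 && (
  let v275 := mul v262 v250; ok v275 && (
  let v276 := scale ⟨112608673792, 0, 0, 0⟩ v275; ok v276 && (
  let v277 := add v273 v270; ok v277 && (
  let v278 := add v277 v191; ok v278 && (
  let v279 := mul v276 v278; ok v279 && (
  let v280 := add v274 v279; ok v280 && (
  let v281 := neg v280; ok v281 && (
  let v282 := cst ⟨151731044352, 0, 0, 0⟩; ok v282 && (
  let v283 := add v281 v282; ok v283 && (
  isPos 3 v283 && (
  true))))))))))))))))))))))))))))))))))))))))))))))))))))))))))))))))))))))))))))))))))))))))))))))))))))))))))))))))))))))))))))))))))))))))))))))))))))))))))))))))))))))))))))))))))))))))))))))))))))))))))))))))))))))))))))))))))))))))))))))))))))))))))))))))))))))))))))))))))))))))))))))))))))))))))))))))))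
  | _ => false

set_option maxRecDepth 1000000 in
theorem chk4_eq (O : Ops) (m : List O.α)
    (h : chk4 O.cst O.add O.sub O.mul O.scale O.neg O.inv O.exp O.log O.ok O.isPos O.isLt m = true) :
    runG O 3 prog4 m = true := by
  match m, h with
  | [x0, x1, x2], h => exact h

def chkB4 : List opsE.α → Bool :=
  chk4 opsE.cst opsE.add opsE.sub opsE.mul opsE.scale opsE.neg opsE.inv opsE.exp opsE.log opsE.ok opsE.isPos opsE.isLt

theorem chkB4_eq (m : List opsE.α) (h : chkB4 m = true) : runG opsE 3 prog4 m = true :=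
  chk4_eq opsE m h

def prog5 : List Op := [
  .const ⟨1099511627776, 0, 0, 0⟩,
  .mul 1 1,
  .mul 4 4,
  .add 0 2,
  .inv 0,
  .sub 4 2,
  .mul 0 1,
  .mul 9 2,
  .scale ⟨2199023255552, 0, 0, 0⟩ 0,
  .mul 10 2,
  .mul 11 1,
  .inv 12,
  .mul 12 13,
  .mul 0 0,
  .mul 1 14,
  .mul 5 13,
  .mul 0 0,
  .mul 1 7,
  .mul 0 18,
  .const ⟨1099243192320, 0, 0, 0⟩,
  .scale ⟨3111703805952, 0, 0, 0⟩ 20,
  .sub 1 0,
  .scale ⟨32985348833280, 0, 0, 0⟩ 20,
  .sub 1 0,
  .scale ⟨1556388773888, 0, 0, 0⟩ 24,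
  .sub 5 0,
  .scale ⟨26388279066624, 0, 0, 0⟩ 24,
  .sub 1 0,
  .scale ⟨549755813888, 0, 0, 0⟩ 18,
  .neg 19,
  .exp 0,
  .add 0 30,
  .log 0,
  .add 4 0,
  .const ⟨1724298297344, 0, 0, 0⟩,
  .add 1 0,
  .mul 36 0,
  .scale ⟨147041812480, 0, 0, 0⟩ 25,
  .add 1 0,
  .mul 39 28,
  .mul 1 1,
  .mul 1 1,
  .add 1 0,
  .log 0,
  .scale ⟨549755813888, 0, 0, 0⟩ 0,
  .exp 0,
  .scale ⟨274877906944, 0, 0, 0⟩ 4,
  .add 6 0,
  .log 0,
  .scale ⟨549755813888, 0, 0, 0⟩ 0,
  .exp 0,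
  .const ⟨4398046511104, 0, 0, 0⟩,
  .add 42 0,
  .inv 0,
  .scale ⟨151733141504, 0, 0, 0⟩ 0,
  .scale ⟨4398046511104, 0, 0, 0⟩ 0,
  .mul 57 0,
  .mul 47 47,
  .mul 0 56,
  .mul 45 57,
  .mul 60 14,
  .scale ⟨989989961728, 0, 0, 0⟩ 59,
  .add 1 0,
  .exp 0,
  .mul 0 0,
  .neg 2,
  .const ⟨61083746304, 0, 0, 0⟩,
  .add 1 0,
  .pos 0,
  .scale ⟨1759219023872, 0, 0, 0⟩ 54,
  .scale ⟨2748779069440, 0, 0, 0⟩ 58,
  .add 1 0,
  .mul 0 69,
  .scale ⟨274877906944, 0, 0, 0⟩ 55,
  .sub 72 0,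
  .mul 13 28,
  .scale ⟨549755813888, 0, 0, 0⟩ 0,
  .scale ⟨157073539072, 0, 0, 0⟩ 57,
  .add 1 0,
  .mul 14 0,
  .add 28 0,
  .mul 71 0,
  .scale ⟨1649267441664, 0, 0, 0⟩ 16,
  .const ⟨1649267441664, 0, 0, 0⟩,
  .sub 1 0,
  .scale ⟨824633720832, 0, 0, 0⟩ 67,
  .add 1 0,
  .mul 75 84,
  .add 1 0,
  .add 0 16,
  .mul 76 0,
  .add 9 0,
  .mul 80 82,
  .mul 0 90,
  .scale ⟨137438953472, 0, 0, 0⟩ 0,
  .mul 75 0,
  .add 4 0,
  .mul 0 96,
  .const ⟨3298534883328, 0, 0, 0⟩,
  .sub 0 16,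
  .mul 25 0,
  .mul 93 93,
  .scale ⟨549755813888, 0, 0, 0⟩ 0,
  .sub 2 0,
  .mul 94 94,
  .mul 0 40,
  .sub 2 0,
  .sub 0 34,
  .mul 33 5,
  .sub 26 0,
  .add 0 37,
  .mul 41 108,
  .scale ⟨1121502363648, 0, 0, 0⟩ 0,
  .add 111 0,
  .mul 53 48,
  .scale ⟨2199023255552, 0, 0, 0⟩ 0,
  .add 2 0,
  .mul 107 0,
  .mul 102 45,
  .add 1 0,
  .mul 12 104,
  .mul 1 1,
  .add 20 0,
  .scale ⟨1098437885952, 0, 0, 0⟩ 15,
  .mul 3 3,
  .add 2 0,
  .inv 0,
  .mul 3 0,
  .neg 0,
  .add 0 127,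
  .pos 0,
  .mul 25 69,
  .scale ⟨2199023255552, 0, 0, 0⟩ 0,
  .sub 130 0,
  .sub 0 35,
  .mul 36 36,
  .sub 1 0,
  .mul 0 0,
  .mul 123 1,
  .scale ⟨8796093022208, 0, 0, 0⟩ 135,
  .sub 114 0,
  .scale ⟨7972533043200, 0, 0, 0⟩ 79,
  .sub 1 0,
  .scale ⟨1097968123904, 0, 0, 0⟩ 14,
  .add 15 141,
  .scale ⟨1097968123904, 0, 0, 0⟩ 0,
  .mul 2 130,
  .mul 0 9,
  .mul 5 0,
  .neg 0,
  .exp 0,
  .sub 148 92,
  .pos 0,
  .inv 0,
  .scale ⟨549755813888, 0, 0, 0⟩ 94,
  .add 151 0,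
  .mul 96 96,
  .mul 0 3,
  .scale ⟨366504574976, 0, 0, 0⟩ 0,
  .add 3 0,
  .mul 8 100,
  .scale ⟨549755813888, 0, 0, 0⟩ 0,
  .add 158 0,
  .mul 2 2,
  .sub 160 3,
  .inv 0,
  .mul 2 0,
  .scale ⟨366504574976, 0, 0, 0⟩ 0,
  .add 5 0,
  .inv 31,
  .mul 71 154,
  .scale ⟨6442450944000, 0, 0, 0⟩ 0,
  .add 1 0,
  .mul 113 13,
  .add 1 0,
  .scale ⟨7541962571776, 0, 0, 0⟩ 4,
  .mul 15 7,
  .add 1 0,
  .scale ⟨6442450944000, 0, 0, 0⟩ 78,
  .add 0 79,
  .mul 121 20,
  .add 1 0,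
  .mul 170 0,
  .neg 8,
  .const ⟨989989961728, 0, 0, 0⟩,
  .add 1 0,
  .pos 0,
  .neg 8,
  .add 0 2,
  .pos 0,
  .scale ⟨1165482786816, 0, 0, 0⟩ 120,
  .scale ⟨2199023255552, 0, 0, 0⟩ 14,
  .add 0 12,
  .mul 186 0,
  .add 9 0,
  .mul 4 0,
  .mul 0 176,
  .mul 0 25,
  .sub 192 0,
  .pos 0,
  .scale ⟨2199023255552, 0, 0, 0⟩ 1,
  .neg 0,
  .const ⟨1097095708672, 0, 0, 0⟩,
  .add 1 0,
  .sub 76 197,
  .scale ⟨549755813888, 0, 0, 0⟩ 0,
  .add 0 199,
  .const ⟨2083864444928, 0, 0, 0⟩,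
  .add 105 201,
  .mul 0 0,
  .sub 2 0,
  .pos 0,
  .const ⟨3189013217280, 0, 0, 0⟩,
  .sub 0 96,
  .sub 0 16,
  .add 7 111,
  .add 0 17,
  .mul 0 0,
  .sub 3 0,
  .pos 0,
  .mul 76 14,
  .scale ⟨10115506765824, 0, 0, 0⟩ 0,
  .sub 0 8,
  .pos 0,
  .scale ⟨989560045568, 0, 0, 0⟩ 2,
  .scale ⟨9249480507392, 0, 0, 0⟩ 156,
  .sub 1 0,
  .pos 0,
  .pos 77,
  .pos 85,
  .pos 83,
  .mul 82 24,
  .inv 0,
  .mul 29 0,
  .scale ⟨1121758216192, 0, 0, 0⟩ 0,
  .sub 95 0,
  .const ⟨136096776192, 0, 0, 0⟩,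
  .sub 1 0,
  .pos 0,
  .sub 118 34,
  .pos 0,
  .sub 225 31,
  .mul 91 0,
  .scale ⟨2100239007744, 0, 0, 0⟩ 0,
  .sub 0 119,
  .sub 0 39,
  .pos 0,
  .mul 40 217,
  .mul 113 233,
  .add 0 1,
  .neg 0,
  .const ⟨3518651957248, 0, 0, 0⟩,
  .add 1 0,
  .pos 0,
  .const ⟨2638720532480, 0, 0, 0⟩,
  .add 3 0,
  .pos 0,
  .neg 228,
  .add 0 2,
  .pos 0,
  .const ⟨3298534883328, 0, 0, 0⟩,
  .add 212 0,
  .pos 0,
  .add 20 242,
  .scale ⟨1097968123904, 0, 0, 0⟩ 0,
  .mul 0 231,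
  .mul 0 110,
  .mul 0 49,
  .mul 107 0,
  .neg 0,
  .exp 0,
  .scale ⟨6442450944000, 0, 0, 0⟩ 19,
  .add 0 20,
  .scale ⟨6442450944000, 0, 0, 0⟩ 61,
  .add 0 62,
  .scale ⟨274877906944, 0, 0, 0⟩ 245,
  .add 0 255,
  .mul 2 0,
  .scale ⟨549755813888, 0, 0, 0⟩ 5,
  .sub 258 0,
  .pos 0,
  .inv 0,
  .add 2 260,
  .mul 0 1,
  .mul 153 248,
  .scale ⟨2199023255552, 0, 0, 0⟩ 257,
  .add 1 0,
  .mul 2 0,
  .add 145 0,
  .mul 4 4,
  .add 147 0,
  .mul 255 0,
  .sub 3 270,
  .scale ⟨549755813888, 0, 0, 0⟩ 0,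
  .add 0 272,
  .mul 16 13,
  .mul 12 24,
  .scale ⟨112608673792, 0, 0, 0⟩ 0,
  .add 3 6,
  .add 0 86,
  .mul 2 0,
  .add 5 0,
  .neg 0,
  .const ⟨151731044352, 0, 0, 0⟩,
  .add 1 0,
  .pos 0]

def chk5 {α : Type} (cst : Z → α) (add sub mul : α → α → α) (scale : Z → α → α)
    (neg inv exp log : α → α) (ok : α → Bool) (isPos : Nat → α → Bool) (isLt : α → Nat → Bool) :
    List α → Bool
  | [x0, x1, x2] =>
  let v0 := cst ⟨1099511627776, 0, 0, 0⟩; ok v0 && (
  let v1 := mul x0 x0; ok v1 && (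
  let v2 := mul x2 x2; ok v2 && (
  let v3 := add v2 v0; ok v3 && (
  let v4 := inv v3; ok v4 && (
  let v5 := sub v0 v2; ok v5 && (
  let v6 := mul v5 v4; ok v6 && (
  let v7 := mul x2 v4; ok v7 && (
  let v8 := scale ⟨2199023255552, 0, 0, 0⟩ v7; ok v8 && (
  let v9 := mul x1 v6; ok v9 && (
  let v10 := mul x1 v8; ok v10 && (
  let v11 := inv x1; ok v11 && (
  let v12 := mul x0 x1; ok v12 && (
  let v13 := mul v12 v12; ok v13 && (
  let v14 := mul v12 x0; ok v14 && (
  let v15 := mul v9 v1; ok v15 && (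
  let v16 := mul v15 v15; ok v16 && (
  let v17 := mul v15 v9; ok v17 && (
  let v18 := mul v17 x0; ok v18 && (
  let v19 := cst ⟨1099243192320, 0, 0, 0⟩; ok v19 && (
  let v20 := scale ⟨3111703805952, 0, 0, 0⟩ x0; ok v20 && (
  let v21 := sub v19 v20; ok v21 && (
  let v22 := scale ⟨32985348833280, 0, 0, 0⟩ v1; ok v22 && (
  let v23 := sub v21 v22; ok v23 && (
  let v24 := scale ⟨1556388773888, 0, 0, 0⟩ x0; ok v24 && (
  let v25 := sub v19 v24; ok v25 && (
  let v26 := scale ⟨26388279066624, 0, 0, 0⟩ v1; ok v26 && (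
  let v27 := sub v25 v26; ok v27 && (
  let v28 := scale ⟨549755813888, 0, 0, 0⟩ v9; ok v28 && (
  let v29 := neg v9; ok v29 && (
  let v30 := exp v29; ok v30 && (
  let v31 := add v30 v0; ok v31 && (
  let v32 := log v31; ok v32 && (
  let v33 := add v28 v32; ok v33 && (
  let v34 := cst ⟨1724298297344, 0, 0, 0⟩; ok v34 && (
  let v35 := add v33 v34; ok v35 && (
  let v36 := mul x0 v35; ok v36 && (
  let v37 := scale ⟨147041812480, 0, 0, 0⟩ v11; ok v37 && (
  let v38 := add v36 v37; ok v38 && (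
  let v39 := mul x0 v10; ok v39 && (
  let v40 := mul v38 v38; ok v40 && (
  let v41 := mul v39 v39; ok v41 && (
  let v42 := add v40 v41; ok v42 && (
  let v43 := log v42; ok v43 && (
  let v44 := scale ⟨549755813888, 0, 0, 0⟩ v43; ok v44 && (
  let v45 := exp v44; ok v45 && (
  let v46 := scale ⟨274877906944, 0, 0, 0⟩ v41; ok v46 && (
  let v47 := add v40 v46; ok v47 && (
  let v48 := log v47; ok v48 && (
  let v49 := scale ⟨549755813888, 0, 0, 0⟩ v48; ok v49 && (
  let v50 := exp v49; ok v50 && (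
  let v51 := cst ⟨4398046511104, 0, 0, 0⟩; ok v51 && (
  let v52 := add v9 v51; ok v52 && (
  let v53 := inv v52; ok v53 && (
  let v54 := scale ⟨151733141504, 0, 0, 0⟩ v53; ok v54 && (
  let v55 := scale ⟨4398046511104, 0, 0, 0⟩ v54; ok v55 && (
  let v56 := mul x1 v55; ok v56 && (
  let v57 := mul v9 v9; ok v57 && (
  let v58 := mul v57 v1; ok v58 && (
  let v59 := mul v13 v1; ok v59 && (
  let v60 := mul x0 v45; ok v60 && (
  let v61 := scale ⟨989989961728, 0, 0, 0⟩ v1; ok v61 && (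
  let v62 := add v60 v61; ok v62 && (
  let v63 := exp v62; ok v63 && (
  let v64 := mul v63 v63; ok v64 && (
  let v65 := neg v62; ok v65 && (
  let v66 := cst ⟨61083746304, 0, 0, 0⟩; ok v66 && (
  let v67 := add v65 v66; ok v67 && (
  isPos 3 v67 && (
  let v68 := scale ⟨1759219023872, 0, 0, 0⟩ v13; ok v68 && (
  let v69 := scale ⟨2748779069440, 0, 0, 0⟩ v10; ok v69 && (
  let v70 := add v68 v69; ok v70 && (
  let v71 := mul v70 v1; ok v71 && (
  let v72 := scale ⟨274877906944, 0, 0, 0⟩ v16; ok v72 && (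
  let v73 := sub v0 v72; ok v73 && (
  let v74 := mul v60 v45; ok v74 && (
  let v75 := scale ⟨549755813888, 0, 0, 0⟩ v74; ok v75 && (
  let v76 := scale ⟨157073539072, 0, 0, 0⟩ v18; ok v76 && (
  let v77 := add v75 v76; ok v77 && (
  let v78 := mul v63 v77; ok v78 && (
  let v79 := add v50 v78; ok v79 && (
  let v80 := mul v8 v79; ok v80 && (
  let v81 := scale ⟨1649267441664, 0, 0, 0⟩ v64; ok v81 && (
  let v82 := cst ⟨1649267441664, 0, 0, 0⟩; ok v82 && (
  let v83 := sub v81 v82; ok v83 && (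
  let v84 := scale ⟨824633720832, 0, 0, 0⟩ v16; ok v84 && (
  let v85 := add v83 v84; ok v85 && (
  let v86 := mul v10 v1; ok v86 && (
  let v87 := add v85 v86; ok v87 && (
  let v88 := add v87 v71; ok v88 && (
  let v89 := mul v12 v88; ok v89 && (
  let v90 := add v80 v89; ok v90 && (
  let v91 := mul v10 v8; ok v91 && (
  let v92 := mul v91 v1; ok v92 && (
  let v93 := scale ⟨137438953472, 0, 0, 0⟩ v92; ok v93 && (
  let v94 := mul v18 v93; ok v94 && (
  let v95 := add v90 v94; ok v95 && (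
  let v96 := mul v95 x0; ok v96 && (
  let v97 := cst ⟨3298534883328, 0, 0, 0⟩; ok v97 && (
  let v98 := sub v97 v81; ok v98 && (
  let v99 := mul v73 v98; ok v99 && (
  let v100 := mul v6 v6; ok v100 && (
  let v101 := scale ⟨549755813888, 0, 0, 0⟩ v100; ok v101 && (
  let v102 := sub v99 v101; ok v102 && (
  let v103 := mul v8 v8; ok v103 && (
  let v104 := mul v103 v63; ok v104 && (
  let v105 := sub v102 v104; ok v105 && (
  let v106 := sub v105 v71; ok v106 && (
  let v107 := mul v73 v101; ok v107 && (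
  let v108 := sub v81 v107; ok v108 && (
  let v109 := add v108 v71; ok v109 && (
  let v110 := mul v68 v1; ok v110 && (
  let v111 := scale ⟨1121502363648, 0, 0, 0⟩ v110; ok v111 && (
  let v112 := add v0 v111; ok v112 && (
  let v113 := mul v59 v64; ok v113 && (
  let v114 := scale ⟨2199023255552, 0, 0, 0⟩ v113; ok v114 && (
  let v115 := add v112 v114; ok v115 && (
  let v116 := mul v8 v115; ok v116 && (
  let v117 := mul v14 v71; ok v117 && (
  let v118 := add v116 v117; ok v118 && (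
  let v119 := mul v106 v14; ok v119 && (
  let v120 := mul v118 v118; ok v120 && (
  let v121 := add v100 v120; ok v121 && (
  let v122 := scale ⟨1098437885952, 0, 0, 0⟩ v106; ok v122 && (
  let v123 := mul v119 v119; ok v123 && (
  let v124 := add v121 v123; ok v124 && (
  let v125 := inv v124; ok v125 && (
  let v126 := mul v122 v125; ok v126 && (
  let v127 := neg v126; ok v127 && (
  let v128 := add v127 v0; ok v128 && (
  isPos 3 v128 && (
  let v129 := mul v103 v59; ok v129 && (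
  let v130 := scale ⟨2199023255552, 0, 0, 0⟩ v129; ok v130 && (
  let v131 := sub v0 v130; ok v131 && (
  let v132 := sub v131 v96; ok v132 && (
  let v133 := mul v96 v96; ok v133 && (
  let v134 := sub v132 v133; ok v134 && (
  let v135 := mul v134 v134; ok v135 && (
  let v136 := mul v12 v134; ok v136 && (
  let v137 := scale ⟨8796093022208, 0, 0, 0⟩ v1; ok v137 && (
  let v138 := sub v23 v137; ok v138 && (
  let v139 := scale ⟨7972533043200, 0, 0, 0⟩ v59; ok v139 && (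
  let v140 := sub v138 v139; ok v140 && (
  let v141 := scale ⟨1097968123904, 0, 0, 0⟩ v126; ok v141 && (
  let v142 := add v126 v0; ok v142 && (
  let v143 := scale ⟨1097968123904, 0, 0, 0⟩ v142; ok v143 && (
  let v144 := mul v141 v13; ok v144 && (
  let v145 := mul v144 v135; ok v145 && (
  let v146 := mul v140 v145; ok v146 && (
  let v147 := neg v146; ok v147 && (
  let v148 := exp v147; ok v148 && (
  let v149 := sub v0 v56; ok v149 && (
  isPos 3 v149 && (
  let v150 := inv v149; ok v150 && (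
  let v151 := scale ⟨549755813888, 0, 0, 0⟩ v56; ok v151 && (
  let v152 := add v0 v151; ok v152 && (
  let v153 := mul v56 v56; ok v153 && (
  let v154 := mul v153 v150; ok v154 && (
  let v155 := scale ⟨366504574976, 0, 0, 0⟩ v154; ok v155 && (
  let v156 := add v152 v155; ok v156 && (
  let v157 := mul v148 v56; ok v157 && (
  let v158 := scale ⟨549755813888, 0, 0, 0⟩ v157; ok v158 && (
  let v159 := add v0 v158; ok v159 && (
  let v160 := mul v157 v157; ok v160 && (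
  let v161 := sub v0 v157; ok v161 && (
  let v162 := inv v161; ok v162 && (
  let v163 := mul v160 v162; ok v163 && (
  let v164 := scale ⟨366504574976, 0, 0, 0⟩ v163; ok v164 && (
  let v165 := add v159 v164; ok v165 && (
  let v166 := inv v134; ok v166 && (
  let v167 := mul v95 v12; ok v167 && (
  let v168 := scale ⟨6442450944000, 0, 0, 0⟩ v167; ok v168 && (
  let v169 := add v167 v168; ok v169 && (
  let v170 := mul v56 v156; ok v170 && (
  let v171 := add v169 v170; ok v171 && (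
  let v172 := scale ⟨7541962571776, 0, 0, 0⟩ v167; ok v172 && (
  let v173 := mul v157 v165; ok v173 && (
  let v174 := add v172 v173; ok v174 && (
  let v175 := scale ⟨6442450944000, 0, 0, 0⟩ v96; ok v175 && (
  let v176 := add v175 v96; ok v176 && (
  let v177 := mul v55 v156; ok v177 && (
  let v178 := add v176 v177; ok v178 && (
  let v179 := mul v8 v178; ok v179 && (
  let v180 := neg v171; ok v180 && (
  let v181 := cst ⟨989989961728, 0, 0, 0⟩; ok v181 && (
  let v182 := add v180 v181; ok v182 && (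
  isPos 3 v182 && (
  let v183 := neg v174; ok v183 && (
  let v184 := add v183 v181; ok v184 && (
  isPos 3 v184 && (
  let v185 := scale ⟨1165482786816, 0, 0, 0⟩ v64; ok v185 && (
  let v186 := scale ⟨2199023255552, 0, 0, 0⟩ v171; ok v186 && (
  let v187 := add v186 v174; ok v187 && (
  let v188 := mul v1 v187; ok v188 && (
  let v189 := add v179 v188; ok v189 && (
  let v190 := mul v185 v189; ok v190 && (
  let v191 := mul v190 v14; ok v191 && (
  let v192 := mul v191 v166; ok v192 && (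
  let v193 := sub v0 v192; ok v193 && (
  isPos 3 v193 && (
  let v194 := scale ⟨2199023255552, 0, 0, 0⟩ v192; ok v194 && (
  let v195 := neg v194; ok v195 && (
  let v196 := cst ⟨1097095708672, 0, 0, 0⟩; ok v196 && (
  let v197 := add v195 v196; ok v197 && (
  let v198 := sub v121 v0; ok v198 && (
  let v199 := scale ⟨549755813888, 0, 0, 0⟩ v198; ok v199 && (
  let v200 := add v199 v0; ok v200 && (
  let v201 := cst ⟨2083864444928, 0, 0, 0⟩; ok v201 && (
  let v202 := add v96 v0; ok v202 && (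
  let v203 := mul v202 v202; ok v203 && (
  let v204 := sub v201 v203; ok v204 && (
  isPos 3 v204 && (
  let v205 := cst ⟨3189013217280, 0, 0, 0⟩; ok v205 && (
  let v206 := sub v205 v109; ok v206 && (
  let v207 := sub v206 v190; ok v207 && (
  let v208 := add v200 v96; ok v208 && (
  let v209 := add v208 v191; ok v209 && (
  let v210 := mul v209 v209; ok v210 && (
  let v211 := sub v207 v210; ok v211 && (
  isPos 3 v211 && (
  let v212 := mul v135 v197; ok v212 && (
  let v213 := scale ⟨10115506765824, 0, 0, 0⟩ v212; ok v213 && (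
  let v214 := sub v213 v205; ok v214 && (
  isPos 3 v214 && (
  let v215 := scale ⟨989560045568, 0, 0, 0⟩ v212; ok v215 && (
  let v216 := scale ⟨9249480507392, 0, 0, 0⟩ v59; ok v216 && (
  let v217 := sub v215 v216; ok v217 && (
  isPos 3 v217 && (
  isPos 3 v140 && (
  isPos 3 v132 && (
  isPos 3 v134 && (
  let v218 := mul v135 v193; ok v218 && (
  let v219 := inv v218; ok v219 && (
  let v220 := mul v190 v219; ok v220 && (
  let v221 := scale ⟨1121758216192, 0, 0, 0⟩ v220; ok v221 && (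
  let v222 := sub v126 v221; ok v222 && (
  let v223 := cst ⟨136096776192, 0, 0, 0⟩; ok v223 && (
  let v224 := sub v222 v223; ok v224 && (
  isPos 3 v224 && (
  let v225 := sub v106 v190; ok v225 && (
  isPos 3 v225 && (
  let v226 := sub v0 v194; ok v226 && (
  let v227 := mul v135 v226; ok v227 && (
  let v228 := scale ⟨2100239007744, 0, 0, 0⟩ v227; ok v228 && (
  let v229 := sub v228 v109; ok v229 && (
  let v230 := sub v229 v190; ok v230 && (
  isPos 3 v230 && (
  let v231 := mul v190 v13; ok v231 && (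
  let v232 := mul v118 x1; ok v232 && (
  let v233 := add v232 v231; ok v233 && (
  let v234 := neg v233; ok v234 && (
  let v235 := cst ⟨3518651957248, 0, 0, 0⟩; ok v235 && (
  let v236 := add v234 v235; ok v236 && (
  isPos 3 v236 && (
  let v237 := cst ⟨2638720532480, 0, 0, 0⟩; ok v237 && (
  let v238 := add v234 v237; ok v238 && (
  isPos 3 v238 && (
  let v239 := neg v10; ok v239 && (
  let v240 := add v239 v237; ok v240 && (
  isPos 3 v240 && (
  let v241 := cst ⟨3298534883328, 0, 0, 0⟩; ok v241 && (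
  let v242 := add v29 v241; ok v242 && (
  isPos 3 v242 && (
  let v243 := add v222 v0; ok v243 && (
  let v244 := scale ⟨1097968123904, 0, 0, 0⟩ v243; ok v244 && (
  let v245 := mul v244 v13; ok v245 && (
  let v246 := mul v245 v135; ok v246 && (
  let v247 := mul v246 v197; ok v247 && (
  let v248 := mul v140 v247; ok v248 && (
  let v249 := neg v248; ok v249 && (
  let v250 := exp v249; ok v250 && (
  let v251 := scale ⟨6442450944000, 0, 0, 0⟩ v231; ok v251 && (
  let v252 := add v251 v231; ok v252 && (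
  let v253 := scale ⟨6442450944000, 0, 0, 0⟩ v191; ok v253 && (
  let v254 := add v253 v191; ok v254 && (
  let v255 := scale ⟨274877906944, 0, 0, 0⟩ v9; ok v255 && (
  let v256 := add v255 v0; ok v256 && (
  let v257 := mul v254 v256; ok v257 && (
  let v258 := scale ⟨549755813888, 0, 0, 0⟩ v252; ok v258 && (
  let v259 := sub v0 v258; ok v259 && (
  isPos 3 v259 && (
  let v260 := inv v259; ok v260 && (
  let v261 := add v258 v0; ok v261 && (
  let v262 := mul v261 v260; ok v262 && (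
  let v263 := mul v109 v14; ok v263 && (
  let v264 := scale ⟨2199023255552, 0, 0, 0⟩ v6; ok v264 && (
  let v265 := add v263 v264; ok v265 && (
  let v266 := mul v263 v265; ok v266 && (
  let v267 := add v121 v266; ok v267 && (
  let v268 := mul v263 v263; ok v268 && (
  let v269 := add v121 v268; ok v269 && (
  let v270 := mul v14 v269; ok v270 && (
  let v271 := sub v267 v0; ok v271 && (
  let v272 := scale ⟨549755813888, 0, 0, 0⟩ v271; ok v272 && (
  let v273 := add v272 v0; ok v273 && (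
  let v274 := mul v257 v260; ok v274 && (
  let v275 := mul v262 v250; ok v275 && (
  let v276 := scale ⟨112608673792, 0, 0, 0⟩ v275; ok v276 && (
  let v277 := add v273 v270; ok v277 && (
  let v278 := add v277 v191; ok v278 && (
  let v279 := mul v276 v278; ok v279 && (
  let v280 := add v274 v279; ok v280 && (
  let v281 := neg v280; ok v281 && (
  let v282 := cst ⟨151731044352, 0, 0, 0⟩; ok v282 && (
  let v283 := add v281 v282; ok v283 && (
  isPos 3 v283 && (
  true))))))))))))))))))))))))))))))))))))))))))))))))))))))))))))))))))))))))))))))))))))))))))))))))))))))))))))))))))))))))))))))))))))))))))))))))))))))))))))))))))))))))))))))))))))))))))))))))))))))))))))))))))))))))))))))))))))))))))))))))))))))))))))))))))))))))))))))))))))))))))))))))))))))))))))))))))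
  | _ => false

set_option maxRecDepth 1000000 in
theorem chk5_eq (O : Ops) (m : List O.α)
    (h : chk5 O.cst O.add O.sub O.mul O.scale O.neg O.inv O.exp O.log O.ok O.isPos O.isLt m = true) :
    runG O 3 prog5 m = true := by
  match m, h with
  | [x0, x1, x2], h => exact h

def chkB5 : List opsE.α → Bool :=
  chk5 opsE.cst opsE.add opsE.sub opsE.mul opsE.scale opsE.neg opsE.inv opsE.exp opsE.log opsE.ok opsE.isPos opsE.isLt

theorem chkB5_eq (m : List opsE.α) (h : chkB5 m = true) : runG opsE 3 prog5 m = true :=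
  chk5_eq opsE m h

def prog6 : List Op := [
  .const ⟨1099511627776, 0, 0, 0⟩,
  .mul 1 1,
  .mul 4 4,
  .add 0 2,
  .inv 0,
  .sub 4 2,
  .mul 0 1,
  .mul 9 2,
  .scale ⟨2199023255552, 0, 0, 0⟩ 0,
  .mul 10 2,
  .mul 11 1,
  .inv 12,
  .mul 12 13,
  .mul 0 0,
  .mul 1 14,
  .mul 5 13,
  .mul 0 0,
  .mul 1 7,
  .mul 0 18,
  .const ⟨1099243192320, 0, 0, 0⟩,
  .scale ⟨3111703805952, 0, 0, 0⟩ 20,
  .sub 1 0,
  .scale ⟨32985348833280, 0, 0, 0⟩ 20,
  .sub 1 0,
  .scale ⟨1556388773888, 0, 0, 0⟩ 24,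
  .sub 5 0,
  .scale ⟨26388279066624, 0, 0, 0⟩ 24,
  .sub 1 0,
  .scale ⟨549755813888, 0, 0, 0⟩ 18,
  .neg 19,
  .exp 0,
  .add 0 30,
  .log 0,
  .add 4 0,
  .const ⟨1724298297344, 0, 0, 0⟩,
  .add 1 0,
  .mul 36 0,
  .scale ⟨147041812480, 0, 0, 0⟩ 25,
  .add 1 0,
  .mul 39 28,
  .mul 1 1,
  .mul 1 1,
  .add 1 0,
  .log 0,
  .scale ⟨549755813888, 0, 0, 0⟩ 0,
  .exp 0,
  .scale ⟨274877906944, 0, 0, 0⟩ 4,
  .add 6 0,
  .log 0,
  .scale ⟨549755813888, 0, 0, 0⟩ 0,
  .exp 0,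
  .const ⟨4398046511104, 0, 0, 0⟩,
  .add 42 0,
  .inv 0,
  .scale ⟨151733141504, 0, 0, 0⟩ 0,
  .scale ⟨4398046511104, 0, 0, 0⟩ 0,
  .mul 57 0,
  .mul 47 47,
  .mul 0 56,
  .mul 45 57,
  .mul 60 14,
  .scale ⟨989989961728, 0, 0, 0⟩ 59,
  .add 1 0,
  .exp 0,
  .mul 0 0,
  .neg 2,
  .const ⟨61083746304, 0, 0, 0⟩,
  .add 1 0,
  .pos 0,
  .scale ⟨1759219023872, 0, 0, 0⟩ 54,
  .scale ⟨2748779069440, 0, 0, 0⟩ 58,
  .add 1 0,
  .mul 0 69,
  .scale ⟨274877906944, 0, 0, 0⟩ 55,
  .sub 72 0,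
  .mul 13 28,
  .scale ⟨549755813888, 0, 0, 0⟩ 0,
  .scale ⟨157073539072, 0, 0, 0⟩ 57,
  .add 1 0,
  .mul 14 0,
  .add 28 0,
  .mul 71 0,
  .scale ⟨1649267441664, 0, 0, 0⟩ 16,
  .const ⟨1649267441664, 0, 0, 0⟩,
  .sub 1 0,
  .scale ⟨824633720832, 0, 0, 0⟩ 67,
  .add 1 0,
  .mul 75 84,
  .add 1 0,
  .add 0 16,
  .mul 76 0,
  .add 9 0,
  .mul 80 82,
  .mul 0 90,
  .scale ⟨137438953472, 0, 0, 0⟩ 0,
  .mul 75 0,
  .add 4 0,
  .mul 0 96,
  .const ⟨3298534883328, 0, 0, 0⟩,
  .sub 0 16,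
  .mul 25 0,
  .mul 93 93,
  .scale ⟨549755813888, 0, 0, 0⟩ 0,
  .sub 2 0,
  .mul 94 94,
  .mul 0 40,
  .sub 2 0,
  .sub 0 34,
  .mul 33 5,
  .sub 26 0,
  .add 0 37,
  .mul 41 108,
  .scale ⟨1121502363648, 0, 0, 0⟩ 0,
  .add 111 0,
  .mul 53 48,
  .scale ⟨2199023255552, 0, 0, 0⟩ 0,
  .add 2 0,
  .mul 107 0,
  .mul 102 45,
  .add 1 0,
  .mul 12 104,
  .mul 1 1,
  .add 20 0,
  .scale ⟨1098437885952, 0, 0, 0⟩ 15,
  .mul 3 3,
  .add 2 0,
  .inv 0,
  .mul 3 0,
  .neg 0,
  .add 0 127,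
  .pos 0,
  .mul 25 69,
  .scale ⟨2199023255552, 0, 0, 0⟩ 0,
  .sub 130 0,
  .sub 0 35,
  .mul 36 36,
  .sub 1 0,
  .mul 0 0,
  .mul 123 1,
  .scale ⟨8796093022208, 0, 0, 0⟩ 135,
  .sub 114 0,
  .scale ⟨7972533043200, 0, 0, 0⟩ 79,
  .sub 1 0,
  .scale ⟨1097968123904, 0, 0, 0⟩ 14,
  .add 15 141,
  .scale ⟨1097968123904, 0, 0, 0⟩ 0,
  .mul 2 130,
  .mul 0 9,
  .mul 5 0,
  .neg 0,
  .exp 0,
  .sub 148 92,
  .pos 0,
  .inv 0,
  .scale ⟨549755813888, 0, 0, 0⟩ 94,
  .add 151 0,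
  .mul 96 96,
  .mul 0 3,
  .scale ⟨366504574976, 0, 0, 0⟩ 0,
  .add 3 0,
  .mul 8 100,
  .scale ⟨549755813888, 0, 0, 0⟩ 0,
  .add 158 0,
  .mul 2 2,
  .sub 160 3,
  .inv 0,
  .mul 2 0,
  .scale ⟨366504574976, 0, 0, 0⟩ 0,
  .add 5 0,
  .inv 31,
  .mul 71 154,
  .scale ⟨7335804141568, 0, 0, 0⟩ 0,
  .add 1 0,
  .mul 113 13,
  .add 1 0,
  .scale ⟨8435315769344, 0, 0, 0⟩ 4,
  .mul 15 7,
  .add 1 0,
  .scale ⟨7335804141568, 0, 0, 0⟩ 78,
  .add 0 79,
  .mul 121 20,
  .add 1 0,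
  .mul 170 0,
  .neg 8,
  .const ⟨989989961728, 0, 0, 0⟩,
  .add 1 0,
  .pos 0,
  .neg 8,
  .add 0 2,
  .pos 0,
  .scale ⟨1165482786816, 0, 0, 0⟩ 120,
  .scale ⟨2199023255552, 0, 0, 0⟩ 14,
  .add 0 12,
  .mul 186 0,
  .add 9 0,
  .mul 4 0,
  .mul 0 176,
  .mul 0 25,
  .sub 192 0,
  .pos 0,
  .scale ⟨2199023255552, 0, 0, 0⟩ 1,
  .neg 0,
  .const ⟨1097095708672, 0, 0, 0⟩,
  .add 1 0,
  .sub 76 197,
  .scale ⟨549755813888, 0, 0, 0⟩ 0,
  .add 0 199,
  .const ⟨2083864444928, 0, 0, 0⟩,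
  .add 105 201,
  .mul 0 0,
  .sub 2 0,
  .pos 0,
  .const ⟨3189013217280, 0, 0, 0⟩,
  .sub 0 96,
  .sub 0 16,
  .add 7 111,
  .add 0 17,
  .mul 0 0,
  .sub 3 0,
  .pos 0,
  .mul 76 14,
  .scale ⟨10115506765824, 0, 0, 0⟩ 0,
  .sub 0 8,
  .pos 0,
  .scale ⟨989560045568, 0, 0, 0⟩ 2,
  .scale ⟨9249480507392, 0, 0, 0⟩ 156,
  .sub 1 0,
  .pos 0,
  .pos 77,
  .pos 85,
  .pos 83,
  .mul 82 24,
  .inv 0,
  .mul 29 0,
  .scale ⟨1121758216192, 0, 0, 0⟩ 0,
  .sub 95 0,
  .const ⟨136096776192, 0, 0, 0⟩,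
  .sub 1 0,
  .pos 0,
  .sub 118 34,
  .pos 0,
  .sub 225 31,
  .mul 91 0,
  .scale ⟨2100239007744, 0, 0, 0⟩ 0,
  .sub 0 119,
  .sub 0 39,
  .pos 0,
  .mul 40 217,
  .mul 113 233,
  .add 0 1,
  .neg 0,
  .const ⟨3518651957248, 0, 0, 0⟩,
  .add 1 0,
  .pos 0,
  .const ⟨2748779069440, 0, 0, 0⟩,
  .add 3 0,
  .pos 0,
  .neg 228,
  .add 0 2,
  .pos 0,
  .const ⟨2199023255552, 0, 0, 0⟩,
  .add 212 0,
  .pos 0,
  .add 20 242,
  .scale ⟨1097968123904, 0, 0, 0⟩ 0,
  .mul 0 231,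
  .mul 0 110,
  .mul 0 49,
  .mul 107 0,
  .neg 0,
  .exp 0,
  .scale ⟨7335804141568, 0, 0, 0⟩ 19,
  .add 0 20,
  .scale ⟨7335804141568, 0, 0, 0⟩ 61,
  .add 0 62,
  .scale ⟨274877906944, 0, 0, 0⟩ 245,
  .add 0 255,
  .mul 2 0,
  .scale ⟨549755813888, 0, 0, 0⟩ 5,
  .sub 258 0,
  .pos 0,
  .inv 0,
  .add 2 260,
  .mul 0 1,
  .mul 153 248,
  .scale ⟨2199023255552, 0, 0, 0⟩ 257,
  .add 1 0,
  .mul 2 0,
  .add 145 0,
  .mul 4 4,
  .add 147 0,
  .mul 255 0,
  .sub 3 270,
  .scale ⟨549755813888, 0, 0, 0⟩ 0,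
  .add 0 272,
  .mul 16 13,
  .mul 12 24,
  .scale ⟨112608673792, 0, 0, 0⟩ 0,
  .add 3 6,
  .add 0 86,
  .mul 2 0,
  .add 5 0,
  .neg 0,
  .const ⟨151731044352, 0, 0, 0⟩,
  .add 1 0,
  .pos 0]

def chk6 {α : Type} (cst : Z → α) (add sub mul : α → α → α) (scale : Z → α → α)
    (neg inv exp log : α → α) (ok : α → Bool) (isPos : Nat → α → Bool) (isLt : α → Nat → Bool) :
    List α → Bool
  | [x0, x1, x2] =>
  let v0 := cst ⟨1099511627776, 0, 0, 0⟩; ok v0 && (
  let v1 := mul x0 x0; ok v1 && (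
  let v2 := mul x2 x2; ok v2 && (
  let v3 := add v2 v0; ok v3 && (
  let v4 := inv v3; ok v4 && (
  let v5 := sub v0 v2; ok v5 && (
  let v6 := mul v5 v4; ok v6 && (
  let v7 := mul x2 v4; ok v7 && (
  let v8 := scale ⟨2199023255552, 0, 0, 0⟩ v7; ok v8 && (
  let v9 := mul x1 v6; ok v9 && (
  let v10 := mul x1 v8; ok v10 && (
  let v11 := inv x1; ok v11 && (
  let v12 := mul x0 x1; ok v12 && (
  let v13 := mul v12 v12; ok v13 && (
  let v14 := mul v12 x0; ok v14 && (
  let v15 := mul v9 v1; ok v15 && (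
  let v16 := mul v15 v15; ok v16 && (
  let v17 := mul v15 v9; ok v17 && (
  let v18 := mul v17 x0; ok v18 && (
  let v19 := cst ⟨1099243192320, 0, 0, 0⟩; ok v19 && (
  let v20 := scale ⟨3111703805952, 0, 0, 0⟩ x0; ok v20 && (
  let v21 := sub v19 v20; ok v21 && (
  let v22 := scale ⟨32985348833280, 0, 0, 0⟩ v1; ok v22 && (
  let v23 := sub v21 v22; ok v23 && (
  let v24 := scale ⟨1556388773888, 0, 0, 0⟩ x0; ok v24 && (
  let v25 := sub v19 v24; ok v25 && (
  let v26 := scale ⟨26388279066624, 0, 0, 0⟩ v1; ok v26 && (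
  let v27 := sub v25 v26; ok v27 && (
  let v28 := scale ⟨549755813888, 0, 0, 0⟩ v9; ok v28 && (
  let v29 := neg v9; ok v29 && (
  let v30 := exp v29; ok v30 && (
  let v31 := add v30 v0; ok v31 && (
  let v32 := log v31; ok v32 && (
  let v33 := add v28 v32; ok v33 && (
  let v34 := cst ⟨1724298297344, 0, 0, 0⟩; ok v34 && (
  let v35 := add v33 v34; ok v35 && (
  let v36 := mul x0 v35; ok v36 && (
  let v37 := scale ⟨147041812480, 0, 0, 0⟩ v11; ok v37 && (
  let v38 := add v36 v37; ok v38 && (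
  let v39 := mul x0 v10; ok v39 && (
  let v40 := mul v38 v38; ok v40 && (
  let v41 := mul v39 v39; ok v41 && (
  let v42 := add v40 v41; ok v42 && (
  let v43 := log v42; ok v43 && (
  let v44 := scale ⟨549755813888, 0, 0, 0⟩ v43; ok v44 && (
  let v45 := exp v44; ok v45 && (
  let v46 := scale ⟨274877906944, 0, 0, 0⟩ v41; ok v46 && (
  let v47 := add v40 v46; ok v47 && (
  let v48 := log v47; ok v48 && (
  let v49 := scale ⟨549755813888, 0, 0, 0⟩ v48; ok v49 && (
  let v50 := exp v49; ok v50 && (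
  let v51 := cst ⟨4398046511104, 0, 0, 0⟩; ok v51 && (
  let v52 := add v9 v51; ok v52 && (
  let v53 := inv v52; ok v53 && (
  let v54 := scale ⟨151733141504, 0, 0, 0⟩ v53; ok v54 && (
  let v55 := scale ⟨4398046511104, 0, 0, 0⟩ v54; ok v55 && (
  let v56 := mul x1 v55; ok v56 && (
  let v57 := mul v9 v9; ok v57 && (
  let v58 := mul v57 v1; ok v58 && (
  let v59 := mul v13 v1; ok v59 && (
  let v60 := mul x0 v45; ok v60 && (
  let v61 := scale ⟨989989961728, 0, 0, 0⟩ v1; ok v61 && (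
  let v62 := add v60 v61; ok v62 && (
  let v63 := exp v62; ok v63 && (
  let v64 := mul v63 v63; ok v64 && (
  let v65 := neg v62; ok v65 && (
  let v66 := cst ⟨61083746304, 0, 0, 0⟩; ok v66 && (
  let v67 := add v65 v66; ok v67 && (
  isPos 3 v67 && (
  let v68 := scale ⟨1759219023872, 0, 0, 0⟩ v13; ok v68 && (
  let v69 := scale ⟨2748779069440, 0, 0, 0⟩ v10; ok v69 && (
  let v70 := add v68 v69; ok v70 && (
  let v71 := mul v70 v1; ok v71 && (
  let v72 := scale ⟨274877906944, 0, 0, 0⟩ v16; ok v72 && (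
  let v73 := sub v0 v72; ok v73 && (
  let v74 := mul v60 v45; ok v74 && (
  let v75 := scale ⟨549755813888, 0, 0, 0⟩ v74; ok v75 && (
  let v76 := scale ⟨157073539072, 0, 0, 0⟩ v18; ok v76 && (
  let v77 := add v75 v76; ok v77 && (
  let v78 := mul v63 v77; ok v78 && (
  let v79 := add v50 v78; ok v79 && (
  let v80 := mul v8 v79; ok v80 && (
  let v81 := scale ⟨1649267441664, 0, 0, 0⟩ v64; ok v81 && (
  let v82 := cst ⟨1649267441664, 0, 0, 0⟩; ok v82 && (
  let v83 := sub v81 v82; ok v83 && (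
  let v84 := scale ⟨824633720832, 0, 0, 0⟩ v16; ok v84 && (
  let v85 := add v83 v84; ok v85 && (
  let v86 := mul v10 v1; ok v86 && (
  let v87 := add v85 v86; ok v87 && (
  let v88 := add v87 v71; ok v88 && (
  let v89 := mul v12 v88; ok v89 && (
  let v90 := add v80 v89; ok v90 && (
  let v91 := mul v10 v8; ok v91 && (
  let v92 := mul v91 v1; ok v92 && (
  let v93 := scale ⟨137438953472, 0, 0, 0⟩ v92; ok v93 && (
  let v94 := mul v18 v93; ok v94 && (
  let v95 := add v90 v94; ok v95 && (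
  let v96 := mul v95 x0; ok v96 && (
  let v97 := cst ⟨3298534883328, 0, 0, 0⟩; ok v97 && (
  let v98 := sub v97 v81; ok v98 && (
  let v99 := mul v73 v98; ok v99 && (
  let v100 := mul v6 v6; ok v100 && (
  let v101 := scale ⟨549755813888, 0, 0, 0⟩ v100; ok v101 && (
  let v102 := sub v99 v101; ok v102 && (
  let v103 := mul v8 v8; ok v103 && (
  let v104 := mul v103 v63; ok v104 && (
  let v105 := sub v102 v104; ok v105 && (
  let v106 := sub v105 v71; ok v106 && (
  let v107 := mul v73 v101; ok v107 && (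
  let v108 := sub v81 v107; ok v108 && (
  let v109 := add v108 v71; ok v109 && (
  let v110 := mul v68 v1; ok v110 && (
  let v111 := scale ⟨1121502363648, 0, 0, 0⟩ v110; ok v111 && (
  let v112 := add v0 v111; ok v112 && (
  let v113 := mul v59 v64; ok v113 && (
  let v114 := scale ⟨2199023255552, 0, 0, 0⟩ v113; ok v114 && (
  let v115 := add v112 v114; ok v115 && (
  let v116 := mul v8 v115; ok v116 && (
  let v117 := mul v14 v71; ok v117 && (
  let v118 := add v116 v117; ok v118 && (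
  let v119 := mul v106 v14; ok v119 && (
  let v120 := mul v118 v118; ok v120 && (
  let v121 := add v100 v120; ok v121 && (
  let v122 := scale ⟨1098437885952, 0, 0, 0⟩ v106; ok v122 && (
  let v123 := mul v119 v119; ok v123 && (
  let v124 := add v121 v123; ok v124 && (
  let v125 := inv v124; ok v125 && (
  let v126 := mul v122 v125; ok v126 && (
  let v127 := neg v126; ok v127 && (
  let v128 := add v127 v0; ok v128 && (
  isPos 3 v128 && (
  let v129 := mul v103 v59; ok v129 && (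
  let v130 := scale ⟨2199023255552, 0, 0, 0⟩ v129; ok v130 && (
  let v131 := sub v0 v130; ok v131 && (
  let v132 := sub v131 v96; ok v132 && (
  let v133 := mul v96 v96; ok v133 && (
  let v134 := sub v132 v133; ok v134 && (
  let v135 := mul v134 v134; ok v135 && (
  let v136 := mul v12 v134; ok v136 && (
  let v137 := scale ⟨8796093022208, 0, 0, 0⟩ v1; ok v137 && (
  let v138 := sub v23 v137; ok v138 && (
  let v139 := scale ⟨7972533043200, 0, 0, 0⟩ v59; ok v139 && (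
  let v140 := sub v138 v139; ok v140 && (
  let v141 := scale ⟨1097968123904, 0, 0, 0⟩ v126; ok v141 && (
  let v142 := add v126 v0; ok v142 && (
  let v143 := scale ⟨1097968123904, 0, 0, 0⟩ v142; ok v143 && (
  let v144 := mul v141 v13; ok v144 && (
  let v145 := mul v144 v135; ok v145 && (
  let v146 := mul v140 v145; ok v146 && (
  let v147 := neg v146; ok v147 && (
  let v148 := exp v147; ok v148 && (
  let v149 := sub v0 v56; ok v149 && (
  isPos 3 v149 && (
  let v150 := inv v149; ok v150 && (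
  let v151 := scale ⟨549755813888, 0, 0, 0⟩ v56; ok v151 && (
  let v152 := add v0 v151; ok v152 && (
  let v153 := mul v56 v56; ok v153 && (
  let v154 := mul v153 v150; ok v154 && (
  let v155 := scale ⟨366504574976, 0, 0, 0⟩ v154; ok v155 && (
  let v156 := add v152 v155; ok v156 && (
  let v157 := mul v148 v56; ok v157 && (
  let v158 := scale ⟨549755813888, 0, 0, 0⟩ v157; ok v158 && (
  let v159 := add v0 v158; ok v159 && (
  let v160 := mul v157 v157; ok v160 && (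
  let v161 := sub v0 v157; ok v161 && (
  let v162 := inv v161; ok v162 && (
  let v163 := mul v160 v162; ok v163 && (
  let v164 := scale ⟨366504574976, 0, 0, 0⟩ v163; ok v164 && (
  let v165 := add v159 v164; ok v165 && (
  let v166 := inv v134; ok v166 && (
  let v167 := mul v95 v12; ok v167 && (
  let v168 := scale ⟨7335804141568, 0, 0, 0⟩ v167; ok v168 && (
  let v169 := add v167 v168; ok v169 && (
  let v170 := mul v56 v156; ok v170 && (
  let v171 := add v169 v170; ok v171 && (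
  let v172 := scale ⟨8435315769344, 0, 0, 0⟩ v167; ok v172 && (
  let v173 := mul v157 v165; ok v173 && (
  let v174 := add v172 v173; ok v174 && (
  let v175 := scale ⟨7335804141568, 0, 0, 0⟩ v96; ok v175 && (
  let v176 := add v175 v96; ok v176 && (
  let v177 := mul v55 v156; ok v177 && (
  let v178 := add v176 v177; ok v178 && (
  let v179 := mul v8 v178; ok v179 && (
  let v180 := neg v171; ok v180 && (
  let v181 := cst ⟨989989961728, 0, 0, 0⟩; ok v181 && (
  let v182 := add v180 v181; ok v182 && (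
  isPos 3 v182 && (
  let v183 := neg v174; ok v183 && (
  let v184 := add v183 v181; ok v184 && (
  isPos 3 v184 && (
  let v185 := scale ⟨1165482786816, 0, 0, 0⟩ v64; ok v185 && (
  let v186 := scale ⟨2199023255552, 0, 0, 0⟩ v171; ok v186 && (
  let v187 := add v186 v174; ok v187 && (
  let v188 := mul v1 v187; ok v188 && (
  let v189 := add v179 v188; ok v189 && (
  let v190 := mul v185 v189; ok v190 && (
  let v191 := mul v190 v14; ok v191 && (
  let v192 := mul v191 v166; ok v192 && (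
  let v193 := sub v0 v192; ok v193 && (
  isPos 3 v193 && (
  let v194 := scale ⟨2199023255552, 0, 0, 0⟩ v192; ok v194 && (
  let v195 := neg v194; ok v195 && (
  let v196 := cst ⟨1097095708672, 0, 0, 0⟩; ok v196 && (
  let v197 := add v195 v196; ok v197 && (
  let v198 := sub v121 v0; ok v198 && (
  let v199 := scale ⟨549755813888, 0, 0, 0⟩ v198; ok v199 && (
  let v200 := add v199 v0; ok v200 && (
  let v201 := cst ⟨2083864444928, 0, 0, 0⟩; ok v201 && (
  let v202 := add v96 v0; ok v202 && (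
  let v203 := mul v202 v202; ok v203 && (
  let v204 := sub v201 v203; ok v204 && (
  isPos 3 v204 && (
  let v205 := cst ⟨3189013217280, 0, 0, 0⟩; ok v205 && (
  let v206 := sub v205 v109; ok v206 && (
  let v207 := sub v206 v190; ok v207 && (
  let v208 := add v200 v96; ok v208 && (
  let v209 := add v208 v191; ok v209 && (
  let v210 := mul v209 v209; ok v210 && (
  let v211 := sub v207 v210; ok v211 && (
  isPos 3 v211 && (
  let v212 := mul v135 v197; ok v212 && (
  let v213 := scale ⟨10115506765824, 0, 0, 0⟩ v212; ok v213 && (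
  let v214 := sub v213 v205; ok v214 && (
  isPos 3 v214 && (
  let v215 := scale ⟨989560045568, 0, 0, 0⟩ v212; ok v215 && (
  let v216 := scale ⟨9249480507392, 0, 0, 0⟩ v59; ok v216 && (
  let v217 := sub v215 v216; ok v217 && (
  isPos 3 v217 && (
  isPos 3 v140 && (
  isPos 3 v132 && (
  isPos 3 v134 && (
  let v218 := mul v135 v193; ok v218 && (
  let v219 := inv v218; ok v219 && (
  let v220 := mul v190 v219; ok v220 && (
  let v221 := scale ⟨1121758216192, 0, 0, 0⟩ v220; ok v221 && (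
  let v222 := sub v126 v221; ok v222 && (
  let v223 := cst ⟨136096776192, 0, 0, 0⟩; ok v223 && (
  let v224 := sub v222 v223; ok v224 && (
  isPos 3 v224 && (
  let v225 := sub v106 v190; ok v225 && (
  isPos 3 v225 && (
  let v226 := sub v0 v194; ok v226 && (
  let v227 := mul v135 v226; ok v227 && (
  let v228 := scale ⟨2100239007744, 0, 0, 0⟩ v227; ok v228 && (
  let v229 := sub v228 v109; ok v229 && (
  let v230 := sub v229 v190; ok v230 && (
  isPos 3 v230 && (
  let v231 := mul v190 v13; ok v231 && (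
  let v232 := mul v118 x1; ok v232 && (
  let v233 := add v232 v231; ok v233 && (
  let v234 := neg v233; ok v234 && (
  let v235 := cst ⟨3518651957248, 0, 0, 0⟩; ok v235 && (
  let v236 := add v234 v235; ok v236 && (
  isPos 3 v236 && (
  let v237 := cst ⟨2748779069440, 0, 0, 0⟩; ok v237 && (
  let v238 := add v234 v237; ok v238 && (
  isPos 3 v238 && (
  let v239 := neg v10; ok v239 && (
  let v240 := add v239 v237; ok v240 && (
  isPos 3 v240 && (
  let v241 := cst ⟨2199023255552, 0, 0, 0⟩; ok v241 && (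
  let v242 := add v29 v241; ok v242 && (
  isPos 3 v242 && (
  let v243 := add v222 v0; ok v243 && (
  let v244 := scale ⟨1097968123904, 0, 0, 0⟩ v243; ok v244 && (
  let v245 := mul v244 v13; ok v245 && (
  let v246 := mul v245 v135; ok v246 && (
  let v247 := mul v246 v197; ok v247 && (
  let v248 := mul v140 v247; ok v248 && (
  let v249 := neg v248; ok v249 && (
  let v250 := exp v249; ok v250 && (
  let v251 := scale ⟨7335804141568, 0, 0, 0⟩ v231; ok v251 && (
  let v252 := add v251 v231; ok v252 && (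
  let v253 := scale ⟨7335804141568, 0, 0, 0⟩ v191; ok v253 && (
  let v254 := add v253 v191; ok v254 && (
  let v255 := scale ⟨274877906944, 0, 0, 0⟩ v9; ok v255 && (
  let v256 := add v255 v0; ok v256 && (
  let v257 := mul v254 v256; ok v257 && (
  let v258 := scale ⟨549755813888, 0, 0, 0⟩ v252; ok v258 && (
  let v259 := sub v0 v258; ok v259 && (
  isPos 3 v259 && (
  let v260 := inv v259; ok v260 && (
  let v261 := add v258 v0; ok v261 && (
  let v262 := mul v261 v260; ok v262 && (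
  let v263 := mul v109 v14; ok v263 && (
  let v264 := scale ⟨2199023255552, 0, 0, 0⟩ v6; ok v264 && (
  let v265 := add v263 v264; ok v265 && (
  let v266 := mul v263 v265; ok v266 && (
  let v267 := add v121 v266; ok v267 && (
  let v268 := mul v263 v263; ok v268 && (
  let v269 := add v121 v268; ok v269 && (
  let v270 := mul v14 v269; ok v270 && (
  let v271 := sub v267 v0; ok v271 && (
  let v272 := scale ⟨549755813888, 0, 0, 0⟩ v271; ok v272 && (
  let v273 := add v272 v0; ok v273 && (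
  let v274 := mul v257 v260; ok v274 && (
  let v275 := mul v262 v250; ok v275 && (
  let v276 := scale ⟨112608673792, 0, 0, 0⟩ v275; ok v276 && (
  let v277 := add v273 v270; ok v277 && (
  let v278 := add v277 v191; ok v278 && (
  let v279 := mul v276 v278; ok v279 && (
  let v280 := add v274 v279; ok v280 && (
  let v281 := neg v280; ok v281 && (
  let v282 := cst ⟨151731044352, 0, 0, 0⟩; ok v282 && (
  let v283 := add v281 v282; ok v283 && (
  isPos 3 v283 && (
  true))))))))))))))))))))))))))))))))))))))))))))))))))))))))))))))))))))))))))))))))))))))))))))))))))))))))))))))))))))))))))))))))))))))))))))))))))))))))))))))))))))))))))))))))))))))))))))))))))))))))))))))))))))))))))))))))))))))))))))))))))))))))))))))))))))))))))))))))))))))))))))))))))))))))))))))))))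
  | _ => false

set_option maxRecDepth 1000000 in
theorem chk6_eq (O : Ops) (m : List O.α)
    (h : chk6 O.cst O.add O.sub O.mul O.scale O.neg O.inv O.exp O.log O.ok O.isPos O.isLt m = true) :
    runG O 3 prog6 m = true := by
  match m, h with
  | [x0, x1, x2], h => exact h

def chkB6 : List opsE.α → Bool :=
  chk6 opsE.cst opsE.add opsE.sub opsE.mul opsE.scale opsE.neg opsE.inv opsE.exp opsE.log opsE.ok opsE.isPos opsE.isLt

theorem chkB6_eq (m : List opsE.α) (h : chkB6 m = true) : runG opsE 3 prog6 m = true :=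
  chk6_eq opsE m h

def prog7 : List Op := [
  .const ⟨1099511627776, 0, 0, 0⟩,
  .mul 1 1,
  .mul 4 4,
  .add 0 2,
  .inv 0,
  .sub 4 2,
  .mul 0 1,
  .mul 9 2,
  .scale ⟨2199023255552, 0, 0, 0⟩ 0,
  .mul 10 2,
  .mul 11 1,
  .inv 12,
  .mul 12 13,
  .mul 0 0,
  .mul 1 14,
  .mul 5 13,
  .mul 0 0,
  .mul 1 7,
  .mul 0 18,
  .const ⟨1099243192320, 0, 0, 0⟩,
  .scale ⟨3111703805952, 0, 0, 0⟩ 20,
  .sub 1 0,
  .scale ⟨32985348833280, 0, 0, 0⟩ 20,
  .sub 1 0,
  .scale ⟨1556388773888, 0, 0, 0⟩ 24,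
  .sub 5 0,
  .scale ⟨26388279066624, 0, 0, 0⟩ 24,
  .sub 1 0,
  .scale ⟨549755813888, 0, 0, 0⟩ 18,
  .neg 19,
  .exp 0,
  .add 0 30,
  .log 0,
  .add 4 0,
  .const ⟨1724298297344, 0, 0, 0⟩,
  .add 1 0,
  .mul 36 0,
  .scale ⟨147041812480, 0, 0, 0⟩ 25,
  .add 1 0,
  .mul 39 28,
  .mul 1 1,
  .mul 1 1,
  .add 1 0,
  .log 0,
  .scale ⟨549755813888, 0, 0, 0⟩ 0,
  .exp 0,
  .scale ⟨274877906944, 0, 0, 0⟩ 4,
  .add 6 0,
  .log 0,
  .scale ⟨549755813888, 0, 0, 0⟩ 0,
  .exp 0,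
  .const ⟨4398046511104, 0, 0, 0⟩,
  .add 42 0,
  .inv 0,
  .scale ⟨151733141504, 0, 0, 0⟩ 0,
  .scale ⟨4398046511104, 0, 0, 0⟩ 0,
  .mul 57 0,
  .mul 47 47,
  .mul 0 56,
  .mul 45 57,
  .mul 60 14,
  .scale ⟨989989961728, 0, 0, 0⟩ 59,
  .add 1 0,
  .exp 0,
  .mul 0 0,
  .neg 2,
  .const ⟨61083746304, 0, 0, 0⟩,
  .add 1 0,
  .pos 0,
  .scale ⟨1759219023872, 0, 0, 0⟩ 54,
  .scale ⟨2748779069440, 0, 0, 0⟩ 58,
  .add 1 0,
  .mul 0 69,
  .scale ⟨274877906944, 0, 0, 0⟩ 55,
  .sub 72 0,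
  .mul 13 28,
  .scale ⟨549755813888, 0, 0, 0⟩ 0,
  .scale ⟨157073539072, 0, 0, 0⟩ 57,
  .add 1 0,
  .mul 14 0,
  .add 28 0,
  .mul 71 0,
  .scale ⟨1649267441664, 0, 0, 0⟩ 16,
  .const ⟨1649267441664, 0, 0, 0⟩,
  .sub 1 0,
  .scale ⟨824633720832, 0, 0, 0⟩ 67,
  .add 1 0,
  .mul 75 84,
  .add 1 0,
  .add 0 16,
  .mul 76 0,
  .add 9 0,
  .mul 80 82,
  .mul 0 90,
  .scale ⟨137438953472, 0, 0, 0⟩ 0,
  .mul 75 0,
  .add 4 0,
  .mul 0 96,
  .const ⟨3298534883328, 0, 0, 0⟩,
  .sub 0 16,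
  .mul 25 0,
  .mul 93 93,
  .scale ⟨549755813888, 0, 0, 0⟩ 0,
  .sub 2 0,
  .mul 94 94,
  .mul 0 40,
  .sub 2 0,
  .sub 0 34,
  .mul 33 5,
  .sub 26 0,
  .add 0 37,
  .mul 41 108,
  .scale ⟨1121502363648, 0, 0, 0⟩ 0,
  .add 111 0,
  .mul 53 48,
  .scale ⟨2199023255552, 0, 0, 0⟩ 0,
  .add 2 0,
  .mul 107 0,
  .mul 102 45,
  .add 1 0,
  .mul 12 104,
  .mul 1 1,
  .add 20 0,
  .scale ⟨1098437885952, 0, 0, 0⟩ 15,
  .mul 3 3,
  .add 2 0,
  .inv 0,
  .mul 3 0,
  .neg 0,
  .add 0 127,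
  .pos 0,
  .mul 25 69,
  .scale ⟨2199023255552, 0, 0, 0⟩ 0,
  .sub 130 0,
  .sub 0 35,
  .mul 36 36,
  .sub 1 0,
  .mul 0 0,
  .mul 123 1,
  .scale ⟨8796093022208, 0, 0, 0⟩ 135,
  .sub 114 0,
  .scale ⟨7972533043200, 0, 0, 0⟩ 79,
  .sub 1 0,
  .scale ⟨1097968123904, 0, 0, 0⟩ 14,
  .add 15 141,
  .scale ⟨1097968123904, 0, 0, 0⟩ 0,
  .mul 2 130,
  .mul 0 9,
  .mul 5 0,
  .neg 0,
  .exp 0,
  .sub 148 92,
  .pos 0,
  .inv 0,
  .scale ⟨549755813888, 0, 0, 0⟩ 94,
  .add 151 0,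
  .mul 96 96,
  .mul 0 3,
  .scale ⟨366504574976, 0, 0, 0⟩ 0,
  .add 3 0,
  .mul 8 100,
  .scale ⟨549755813888, 0, 0, 0⟩ 0,
  .add 158 0,
  .mul 2 2,
  .sub 160 3,
  .inv 0,
  .mul 2 0,
  .scale ⟨366504574976, 0, 0, 0⟩ 0,
  .add 5 0,
  .inv 31,
  .mul 71 154,
  .scale ⟨9191230013440, 0, 0, 0⟩ 0,
  .add 1 0,
  .mul 113 13,
  .add 1 0,
  .scale ⟨10290741641216, 0, 0, 0⟩ 4,
  .mul 15 7,
  .add 1 0,
  .scale ⟨9191230013440, 0, 0, 0⟩ 78,
  .add 0 79,
  .mul 121 20,
  .add 1 0,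
  .mul 170 0,
  .neg 8,
  .const ⟨989989961728, 0, 0, 0⟩,
  .add 1 0,
  .pos 0,
  .neg 8,
  .add 0 2,
  .pos 0,
  .scale ⟨1165482786816, 0, 0, 0⟩ 120,
  .scale ⟨2199023255552, 0, 0, 0⟩ 14,
  .add 0 12,
  .mul 186 0,
  .add 9 0,
  .mul 4 0,
  .mul 0 176,
  .mul 0 25,
  .sub 192 0,
  .pos 0,
  .scale ⟨2199023255552, 0, 0, 0⟩ 1,
  .neg 0,
  .const ⟨1097095708672, 0, 0, 0⟩,
  .add 1 0,
  .sub 76 197,
  .scale ⟨549755813888, 0, 0, 0⟩ 0,
  .add 0 199,
  .const ⟨2083864444928, 0, 0, 0⟩,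
  .add 105 201,
  .mul 0 0,
  .sub 2 0,
  .pos 0,
  .const ⟨3189013217280, 0, 0, 0⟩,
  .sub 0 96,
  .sub 0 16,
  .add 7 111,
  .add 0 17,
  .mul 0 0,
  .sub 3 0,
  .pos 0,
  .mul 76 14,
  .scale ⟨10115506765824, 0, 0, 0⟩ 0,
  .sub 0 8,
  .pos 0,
  .scale ⟨989560045568, 0, 0, 0⟩ 2,
  .scale ⟨9249480507392, 0, 0, 0⟩ 156,
  .sub 1 0,
  .pos 0,
  .pos 77,
  .pos 85,
  .pos 83,
  .mul 82 24,
  .inv 0,
  .mul 29 0,
  .scale ⟨1121758216192, 0, 0, 0⟩ 0,
  .sub 95 0,
  .const ⟨136096776192, 0, 0, 0⟩,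
  .sub 1 0,
  .pos 0,
  .sub 118 34,
  .pos 0,
  .sub 225 31,
  .mul 91 0,
  .scale ⟨2100239007744, 0, 0, 0⟩ 0,
  .sub 0 119,
  .sub 0 39,
  .pos 0,
  .mul 40 217,
  .mul 113 233,
  .add 0 1,
  .neg 0,
  .const ⟨3518651957248, 0, 0, 0⟩,
  .add 1 0,
  .pos 0,
  .const ⟨2858569170944, 0, 0, 0⟩,
  .add 3 0,
  .pos 0,
  .neg 228,
  .add 0 2,
  .pos 0,
  .const ⟨1649267441664, 0, 0, 0⟩,
  .add 212 0,
  .pos 0,
  .add 20 242,
  .scale ⟨1097968123904, 0, 0, 0⟩ 0,
  .mul 0 231,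
  .mul 0 110,
  .mul 0 49,
  .mul 107 0,
  .neg 0,
  .exp 0,
  .scale ⟨9191230013440, 0, 0, 0⟩ 19,
  .add 0 20,
  .scale ⟨9191230013440, 0, 0, 0⟩ 61,
  .add 0 62,
  .scale ⟨274877906944, 0, 0, 0⟩ 245,
  .add 0 255,
  .mul 2 0,
  .scale ⟨549755813888, 0, 0, 0⟩ 5,
  .sub 258 0,
  .pos 0,
  .inv 0,
  .add 2 260,
  .mul 0 1,
  .mul 153 248,
  .scale ⟨2199023255552, 0, 0, 0⟩ 257,
  .add 1 0,
  .mul 2 0,
  .add 145 0,
  .mul 4 4,
  .add 147 0,
  .mul 255 0,
  .sub 3 270,
  .scale ⟨549755813888, 0, 0, 0⟩ 0,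
  .add 0 272,
  .mul 16 13,
  .mul 12 24,
  .scale ⟨112608673792, 0, 0, 0⟩ 0,
  .add 3 6,
  .add 0 86,
  .mul 2 0,
  .add 5 0,
  .neg 0,
  .const ⟨151731044352, 0, 0, 0⟩,
  .add 1 0,
  .pos 0]

def chk7 {α : Type} (cst : Z → α) (add sub mul : α → α → α) (scale : Z → α → α)
    (neg inv exp log : α → α) (ok : α → Bool) (isPos : Nat → α → Bool) (isLt : α → Nat → Bool) :
    List α → Bool
  | [x0, x1, x2] =>
  let v0 := cst ⟨1099511627776, 0, 0, 0⟩; ok v0 && (
  let v1 := mul x0 x0; ok v1 && (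
  let v2 := mul x2 x2; ok v2 && (
  let v3 := add v2 v0; ok v3 && (
  let v4 := inv v3; ok v4 && (
  let v5 := sub v0 v2; ok v5 && (
  let v6 := mul v5 v4; ok v6 && (
  let v7 := mul x2 v4; ok v7 && (
  let v8 := scale ⟨2199023255552, 0, 0, 0⟩ v7; ok v8 && (
  let v9 := mul x1 v6; ok v9 && (
  let v10 := mul x1 v8; ok v10 && (
  let v11 := inv x1; ok v11 && (
  let v12 := mul x0 x1; ok v12 && (
  let v13 := mul v12 v12; ok v13 && (
  let v14 := mul v12 x0; ok v14 && (
  let v15 := mul v9 v1; ok v15 && (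
  let v16 := mul v15 v15; ok v16 && (
  let v17 := mul v15 v9; ok v17 && (
  let v18 := mul v17 x0; ok v18 && (
  let v19 := cst ⟨1099243192320, 0, 0, 0⟩; ok v19 && (
  let v20 := scale ⟨3111703805952, 0, 0, 0⟩ x0; ok v20 && (
  let v21 := sub v19 v20; ok v21 && (
  let v22 := scale ⟨32985348833280, 0, 0, 0⟩ v1; ok v22 && (
  let v23 := sub v21 v22; ok v23 && (
  let v24 := scale ⟨1556388773888, 0, 0, 0⟩ x0; ok v24 && (
  let v25 := sub v19 v24; ok v25 && (
  let v26 := scale ⟨26388279066624, 0, 0, 0⟩ v1; ok v26 && (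
  let v27 := sub v25 v26; ok v27 && (
  let v28 := scale ⟨549755813888, 0, 0, 0⟩ v9; ok v28 && (
  let v29 := neg v9; ok v29 && (
  let v30 := exp v29; ok v30 && (
  let v31 := add v30 v0; ok v31 && (
  let v32 := log v31; ok v32 && (
  let v33 := add v28 v32; ok v33 && (
  let v34 := cst ⟨1724298297344, 0, 0, 0⟩; ok v34 && (
  let v35 := add v33 v34; ok v35 && (
  let v36 := mul x0 v35; ok v36 && (
  let v37 := scale ⟨147041812480, 0, 0, 0⟩ v11; ok v37 && (
  let v38 := add v36 v37; ok v38 && (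
  let v39 := mul x0 v10; ok v39 && (
  let v40 := mul v38 v38; ok v40 && (
  let v41 := mul v39 v39; ok v41 && (
  let v42 := add v40 v41; ok v42 && (
  let v43 := log v42; ok v43 && (
  let v44 := scale ⟨549755813888, 0, 0, 0⟩ v43; ok v44 && (
  let v45 := exp v44; ok v45 && (
  let v46 := scale ⟨274877906944, 0, 0, 0⟩ v41; ok v46 && (
  let v47 := add v40 v46; ok v47 && (
  let v48 := log v47; ok v48 && (
  let v49 := scale ⟨549755813888, 0, 0, 0⟩ v48; ok v49 && (
  let v50 := exp v49; ok v50 && (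
  let v51 := cst ⟨4398046511104, 0, 0, 0⟩; ok v51 && (
  let v52 := add v9 v51; ok v52 && (
  let v53 := inv v52; ok v53 && (
  let v54 := scale ⟨151733141504, 0, 0, 0⟩ v53; ok v54 && (
  let v55 := scale ⟨4398046511104, 0, 0, 0⟩ v54; ok v55 && (
  let v56 := mul x1 v55; ok v56 && (
  let v57 := mul v9 v9; ok v57 && (
  let v58 := mul v57 v1; ok v58 && (
  let v59 := mul v13 v1; ok v59 && (
  let v60 := mul x0 v45; ok v60 && (
  let v61 := scale ⟨989989961728, 0, 0, 0⟩ v1; ok v61 && (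
  let v62 := add v60 v61; ok v62 && (
  let v63 := exp v62; ok v63 && (
  let v64 := mul v63 v63; ok v64 && (
  let v65 := neg v62; ok v65 && (
  let v66 := cst ⟨61083746304, 0, 0, 0⟩; ok v66 && (
  let v67 := add v65 v66; ok v67 && (
  isPos 3 v67 && (
  let v68 := scale ⟨1759219023872, 0, 0, 0⟩ v13; ok v68 && (
  let v69 := scale ⟨2748779069440, 0, 0, 0⟩ v10; ok v69 && (
  let v70 := add v68 v69; ok v70 && (
  let v71 := mul v70 v1; ok v71 && (
  let v72 := scale ⟨274877906944, 0, 0, 0⟩ v16; ok v72 && (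
  let v73 := sub v0 v72; ok v73 && (
  let v74 := mul v60 v45; ok v74 && (
  let v75 := scale ⟨549755813888, 0, 0, 0⟩ v74; ok v75 && (
  let v76 := scale ⟨157073539072, 0, 0, 0⟩ v18; ok v76 && (
  let v77 := add v75 v76; ok v77 && (
  let v78 := mul v63 v77; ok v78 && (
  let v79 := add v50 v78; ok v79 && (
  let v80 := mul v8 v79; ok v80 && (
  let v81 := scale ⟨1649267441664, 0, 0, 0⟩ v64; ok v81 && (
  let v82 := cst ⟨1649267441664, 0, 0, 0⟩; ok v82 && (
  let v83 := sub v81 v82; ok v83 && (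
  let v84 := scale ⟨824633720832, 0, 0, 0⟩ v16; ok v84 && (
  let v85 := add v83 v84; ok v85 && (
  let v86 := mul v10 v1; ok v86 && (
  let v87 := add v85 v86; ok v87 && (
  let v88 := add v87 v71; ok v88 && (
  let v89 := mul v12 v88; ok v89 && (
  let v90 := add v80 v89; ok v90 && (
  let v91 := mul v10 v8; ok v91 && (
  let v92 := mul v91 v1; ok v92 && (
  let v93 := scale ⟨137438953472, 0, 0, 0⟩ v92; ok v93 && (
  let v94 := mul v18 v93; ok v94 && (
  let v95 := add v90 v94; ok v95 && (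
  let v96 := mul v95 x0; ok v96 && (
  let v97 := cst ⟨3298534883328, 0, 0, 0⟩; ok v97 && (
  let v98 := sub v97 v81; ok v98 && (
  let v99 := mul v73 v98; ok v99 && (
  let v100 := mul v6 v6; ok v100 && (
  let v101 := scale ⟨549755813888, 0, 0, 0⟩ v100; ok v101 && (
  let v102 := sub v99 v101; ok v102 && (
  let v103 := mul v8 v8; ok v103 && (
  let v104 := mul v103 v63; ok v104 && (
  let v105 := sub v102 v104; ok v105 && (
  let v106 := sub v105 v71; ok v106 && (
  let v107 := mul v73 v101; ok v107 && (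
  let v108 := sub v81 v107; ok v108 && (
  let v109 := add v108 v71; ok v109 && (
  let v110 := mul v68 v1; ok v110 && (
  let v111 := scale ⟨1121502363648, 0, 0, 0⟩ v110; ok v111 && (
  let v112 := add v0 v111; ok v112 && (
  let v113 := mul v59 v64; ok v113 && (
  let v114 := scale ⟨2199023255552, 0, 0, 0⟩ v113; ok v114 && (
  let v115 := add v112 v114; ok v115 && (
  let v116 := mul v8 v115; ok v116 && (
  let v117 := mul v14 v71; ok v117 && (
  let v118 := add v116 v117; ok v118 && (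
  let v119 := mul v106 v14; ok v119 && (
  let v120 := mul v118 v118; ok v120 && (
  let v121 := add v100 v120; ok v121 && (
  let v122 := scale ⟨1098437885952, 0, 0, 0⟩ v106; ok v122 && (
  let v123 := mul v119 v119; ok v123 && (
  let v124 := add v121 v123; ok v124 && (
  let v125 := inv v124; ok v125 && (
  let v126 := mul v122 v125; ok v126 && (
  let v127 := neg v126; ok v127 && (
  let v128 := add v127 v0; ok v128 && (
  isPos 3 v128 && (
  let v129 := mul v103 v59; ok v129 && (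
  let v130 := scale ⟨2199023255552, 0, 0, 0⟩ v129; ok v130 && (
  let v131 := sub v0 v130; ok v131 && (
  let v132 := sub v131 v96; ok v132 && (
  let v133 := mul v96 v96; ok v133 && (
  let v134 := sub v132 v133; ok v134 && (
  let v135 := mul v134 v134; ok v135 && (
  let v136 := mul v12 v134; ok v136 && (
  let v137 := scale ⟨8796093022208, 0, 0, 0⟩ v1; ok v137 && (
  let v138 := sub v23 v137; ok v138 && (
  let v139 := scale ⟨7972533043200, 0, 0, 0⟩ v59; ok v139 && (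
  let v140 := sub v138 v139; ok v140 && (
  let v141 := scale ⟨1097968123904, 0, 0, 0⟩ v126; ok v141 && (
  let v142 := add v126 v0; ok v142 && (
  let v143 := scale ⟨1097968123904, 0, 0, 0⟩ v142; ok v143 && (
  let v144 := mul v141 v13; ok v144 && (
  let v145 := mul v144 v135; ok v145 && (
  let v146 := mul v140 v145; ok v146 && (
  let v147 := neg v146; ok v147 && (
  let v148 := exp v147; ok v148 && (
  let v149 := sub v0 v56; ok v149 && (
  isPos 3 v149 && (
  let v150 := inv v149; ok v150 && (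
  let v151 := scale ⟨549755813888, 0, 0, 0⟩ v56; ok v151 && (
  let v152 := add v0 v151; ok v152 && (
  let v153 := mul v56 v56; ok v153 && (
  let v154 := mul v153 v150; ok v154 && (
  let v155 := scale ⟨366504574976, 0, 0, 0⟩ v154; ok v155 && (
  let v156 := add v152 v155; ok v156 && (
  let v157 := mul v148 v56; ok v157 && (
  let v158 := scale ⟨549755813888, 0, 0, 0⟩ v157; ok v158 && (
  let v159 := add v0 v158; ok v159 && (
  let v160 := mul v157 v157; ok v160 && (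
  let v161 := sub v0 v157; ok v161 && (
  let v162 := inv v161; ok v162 && (
  let v163 := mul v160 v162; ok v163 && (
  let v164 := scale ⟨366504574976, 0, 0, 0⟩ v163; ok v164 && (
  let v165 := add v159 v164; ok v165 && (
  let v166 := inv v134; ok v166 && (
  let v167 := mul v95 v12; ok v167 && (
  let v168 := scale ⟨9191230013440, 0, 0, 0⟩ v167; ok v168 && (
  let v169 := add v167 v168; ok v169 && (
  let v170 := mul v56 v156; ok v170 && (
  let v171 := add v169 v170; ok v171 && (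
  let v172 := scale ⟨10290741641216, 0, 0, 0⟩ v167; ok v172 && (
  let v173 := mul v157 v165; ok v173 && (
  let v174 := add v172 v173; ok v174 && (
  let v175 := scale ⟨9191230013440, 0, 0, 0⟩ v96; ok v175 && (
  let v176 := add v175 v96; ok v176 && (
  let v177 := mul v55 v156; ok v177 && (
  let v178 := add v176 v177; ok v178 && (
  let v179 := mul v8 v178; ok v179 && (
  let v180 := neg v171; ok v180 && (
  let v181 := cst ⟨989989961728, 0, 0, 0⟩; ok v181 && (
  let v182 := add v180 v181; ok v182 && (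
  isPos 3 v182 && (
  let v183 := neg v174; ok v183 && (
  let v184 := add v183 v181; ok v184 && (
  isPos 3 v184 && (
  let v185 := scale ⟨1165482786816, 0, 0, 0⟩ v64; ok v185 && (
  let v186 := scale ⟨2199023255552, 0, 0, 0⟩ v171; ok v186 && (
  let v187 := add v186 v174; ok v187 && (
  let v188 := mul v1 v187; ok v188 && (
  let v189 := add v179 v188; ok v189 && (
  let v190 := mul v185 v189; ok v190 && (
  let v191 := mul v190 v14; ok v191 && (
  let v192 := mul v191 v166; ok v192 && (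
  let v193 := sub v0 v192; ok v193 && (
  isPos 3 v193 && (
  let v194 := scale ⟨2199023255552, 0, 0, 0⟩ v192; ok v194 && (
  let v195 := neg v194; ok v195 && (
  let v196 := cst ⟨1097095708672, 0, 0, 0⟩; ok v196 && (
  let v197 := add v195 v196; ok v197 && (
  let v198 := sub v121 v0; ok v198 && (
  let v199 := scale ⟨549755813888, 0, 0, 0⟩ v198; ok v199 && (
  let v200 := add v199 v0; ok v200 && (
  let v201 := cst ⟨2083864444928, 0, 0, 0⟩; ok v201 && (
  let v202 := add v96 v0; ok v202 && (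
  let v203 := mul v202 v202; ok v203 && (
  let v204 := sub v201 v203; ok v204 && (
  isPos 3 v204 && (
  let v205 := cst ⟨3189013217280, 0, 0, 0⟩; ok v205 && (
  let v206 := sub v205 v109; ok v206 && (
  let v207 := sub v206 v190; ok v207 && (
  let v208 := add v200 v96; ok v208 && (
  let v209 := add v208 v191; ok v209 && (
  let v210 := mul v209 v209; ok v210 && (
  let v211 := sub v207 v210; ok v211 && (
  isPos 3 v211 && (
  let v212 := mul v135 v197; ok v212 && (
  let v213 := scale ⟨10115506765824, 0, 0, 0⟩ v212; ok v213 && (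
  let v214 := sub v213 v205; ok v214 && (
  isPos 3 v214 && (
  let v215 := scale ⟨989560045568, 0, 0, 0⟩ v212; ok v215 && (
  let v216 := scale ⟨9249480507392, 0, 0, 0⟩ v59; ok v216 && (
  let v217 := sub v215 v216; ok v217 && (
  isPos 3 v217 && (
  isPos 3 v140 && (
  isPos 3 v132 && (
  isPos 3 v134 && (
  let v218 := mul v135 v193; ok v218 && (
  let v219 := inv v218; ok v219 && (
  let v220 := mul v190 v219; ok v220 && (
  let v221 := scale ⟨1121758216192, 0, 0, 0⟩ v220; ok v221 && (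
  let v222 := sub v126 v221; ok v222 && (
  let v223 := cst ⟨136096776192, 0, 0, 0⟩; ok v223 && (
  let v224 := sub v222 v223; ok v224 && (
  isPos 3 v224 && (
  let v225 := sub v106 v190; ok v225 && (
  isPos 3 v225 && (
  let v226 := sub v0 v194; ok v226 && (
  let v227 := mul v135 v226; ok v227 && (
  let v228 := scale ⟨2100239007744, 0, 0, 0⟩ v227; ok v228 && (
  let v229 := sub v228 v109; ok v229 && (
  let v230 := sub v229 v190; ok v230 && (
  isPos 3 v230 && (
  let v231 := mul v190 v13; ok v231 && (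
  let v232 := mul v118 x1; ok v232 && (
  let v233 := add v232 v231; ok v233 && (
  let v234 := neg v233; ok v234 && (
  let v235 := cst ⟨3518651957248, 0, 0, 0⟩; ok v235 && (
  let v236 := add v234 v235; ok v236 && (
  isPos 3 v236 && (
  let v237 := cst ⟨2858569170944, 0, 0, 0⟩; ok v237 && (
  let v238 := add v234 v237; ok v238 && (
  isPos 3 v238 && (
  let v239 := neg v10; ok v239 && (
  let v240 := add v239 v237; ok v240 && (
  isPos 3 v240 && (
  let v241 := cst ⟨1649267441664, 0, 0, 0⟩; ok v241 && (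
  let v242 := add v29 v241; ok v242 && (
  isPos 3 v242 && (
  let v243 := add v222 v0; ok v243 && (
  let v244 := scale ⟨1097968123904, 0, 0, 0⟩ v243; ok v244 && (
  let v245 := mul v244 v13; ok v245 && (
  let v246 := mul v245 v135; ok v246 && (
  let v247 := mul v246 v197; ok v247 && (
  let v248 := mul v140 v247; ok v248 && (
  let v249 := neg v248; ok v249 && (
  let v250 := exp v249; ok v250 && (
  let v251 := scale ⟨9191230013440, 0, 0, 0⟩ v231; ok v251 && (
  let v252 := add v251 v231; ok v252 && (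
  let v253 := scale ⟨9191230013440, 0, 0, 0⟩ v191; ok v253 && (
  let v254 := add v253 v191; ok v254 && (
  let v255 := scale ⟨274877906944, 0, 0, 0⟩ v9; ok v255 && (
  let v256 := add v255 v0; ok v256 && (
  let v257 := mul v254 v256; ok v257 && (
  let v258 := scale ⟨549755813888, 0, 0, 0⟩ v252; ok v258 && (
  let v259 := sub v0 v258; ok v259 && (
  isPos 3 v259 && (
  let v260 := inv v259; ok v260 && (
  let v261 := add v258 v0; ok v261 && (
  let v262 := mul v261 v260; ok v262 && (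
  let v263 := mul v109 v14; ok v263 && (
  let v264 := scale ⟨2199023255552, 0, 0, 0⟩ v6; ok v264 && (
  let v265 := add v263 v264; ok v265 && (
  let v266 := mul v263 v265; ok v266 && (
  let v267 := add v121 v266; ok v267 && (
  let v268 := mul v263 v263; ok v268 && (
  let v269 := add v121 v268; ok v269 && (
  let v270 := mul v14 v269; ok v270 && (
  let v271 := sub v267 v0; ok v271 && (
  let v272 := scale ⟨549755813888, 0, 0, 0⟩ v271; ok v272 && (
  let v273 := add v272 v0; ok v273 && (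
  let v274 := mul v257 v260; ok v274 && (
  let v275 := mul v262 v250; ok v275 && (
  let v276 := scale ⟨112608673792, 0, 0, 0⟩ v275; ok v276 && (
  let v277 := add v273 v270; ok v277 && (
  let v278 := add v277 v191; ok v278 && (
  let v279 := mul v276 v278; ok v279 && (
  let v280 := add v274 v279; ok v280 && (
  let v281 := neg v280; ok v281 && (
  let v282 := cst ⟨151731044352, 0, 0, 0⟩; ok v282 && (
  let v283 := add v281 v282; ok v283 && (
  isPos 3 v283 && (
  true))))))))))))))))))))))))))))))))))))))))))))))))))))))))))))))))))))))))))))))))))))))))))))))))))))))))))))))))))))))))))))))))))))))))))))))))))))))))))))))))))))))))))))))))))))))))))))))))))))))))))))))))))))))))))))))))))))))))))))))))))))))))))))))))))))))))))))))))))))))))))))))))))))))))))))))))))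
  | _ => false

set_option maxRecDepth 1000000 in
theorem chk7_eq (O : Ops) (m : List O.α)
    (h : chk7 O.cst O.add O.sub O.mul O.scale O.neg O.inv O.exp O.log O.ok O.isPos O.isLt m = true) :
    runG O 3 prog7 m = true := by
  match m, h with
  | [x0, x1, x2], h => exact h

def chkB7 : List opsE.α → Bool :=
  chk7 opsE.cst opsE.add opsE.sub opsE.mul opsE.scale opsE.neg opsE.inv opsE.exp opsE.log opsE.ok opsE.isPos opsE.isLt

theorem chkB7_eq (m : List opsE.α) (h : chkB7 m = true) : runG opsE 3 prog7 m = true :=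
  chk7_eq opsE m h

def prog8 : List Op := [
  .mul 2 2,
  .const ⟨1099511627776, 0, 0, 0⟩,
  .add 1 0,
  .inv 0,
  .mul 6 0,
  .scale ⟨2199023255552, 0, 0, 0⟩ 0,
  .mul 7 0,
  .const ⟨2714419331072, 0, 0, 0⟩,
  .sub 1 0,
  .pos 0]

def chk8 {α : Type} (cst : Z → α) (add sub mul : α → α → α) (scale : Z → α → α)
    (neg inv exp log : α → α) (ok : α → Bool) (isPos : Nat → α → Bool) (isLt : α → Nat → Bool) :
    List α → Bool
  | [x0, x1, x2] =>
  let v0 := mul x2 x2; ok v0 && (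
  let v1 := cst ⟨1099511627776, 0, 0, 0⟩; ok v1 && (
  let v2 := add v0 v1; ok v2 && (
  let v3 := inv v2; ok v3 && (
  let v4 := mul x2 v3; ok v4 && (
  let v5 := scale ⟨2199023255552, 0, 0, 0⟩ v4; ok v5 && (
  let v6 := mul x1 v5; ok v6 && (
  let v7 := cst ⟨2714419331072, 0, 0, 0⟩; ok v7 && (
  let v8 := sub v6 v7; ok v8 && (
  isPos 3 v8 && (
  true))))))))))
  | _ => false

set_option maxRecDepth 1000000 in
theorem chk8_eq (O : Ops) (m : List O.α)
    (h : chk8 O.cst O.add O.sub O.mul O.scale O.neg O.inv O.exp O.log O.ok O.isPos O.isLt m = true) :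
    runG O 3 prog8 m = true := by
  match m, h with
  | [x0, x1, x2], h => exact h

def chkB8 : List opsE.α → Bool :=
  chk8 opsE.cst opsE.add opsE.sub opsE.mul opsE.scale opsE.neg opsE.inv opsE.exp opsE.log opsE.ok opsE.isPos opsE.isLt

theorem chkB8_eq (m : List opsE.α) (h : chkB8 m = true) : runG opsE 3 prog8 m = true :=
  chk8_eq opsE m h

def prog9 : List Op := [
  .mul 2 2,
  .const ⟨1099511627776, 0, 0, 0⟩,
  .add 1 0,
  .inv 0,
  .sub 2 3,
  .mul 0 1,
  .mul 7 0,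
  .const ⟨1580547964928, 0, 0, 0⟩,
  .sub 1 0,
  .pos 0,
  .mul 11 5,
  .scale ⟨2199023255552, 0, 0, 0⟩ 0,
  .mul 12 0,
  .const ⟨2439541424128, 0, 0, 0⟩,
  .sub 1 0,
  .pos 0]

def chk9 {α : Type} (cst : Z → α) (add sub mul : α → α → α) (scale : Z → α → α)
    (neg inv exp log : α → α) (ok : α → Bool) (isPos : Nat → α → Bool) (isLt : α → Nat → Bool) :
    List α → Bool
  | [x0, x1, x2] =>
  let v0 := mul x2 x2; ok v0 && (
  let v1 := cst ⟨1099511627776, 0, 0, 0⟩; ok v1 && (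
  let v2 := add v0 v1; ok v2 && (
  let v3 := inv v2; ok v3 && (
  let v4 := sub v1 v0; ok v4 && (
  let v5 := mul v4 v3; ok v5 && (
  let v6 := mul x1 v5; ok v6 && (
  let v7 := cst ⟨1580547964928, 0, 0, 0⟩; ok v7 && (
  let v8 := sub v6 v7; ok v8 && (
  isPos 3 v8 && (
  let v9 := mul x2 v3; ok v9 && (
  let v10 := scale ⟨2199023255552, 0, 0, 0⟩ v9; ok v10 && (
  let v11 := mul x1 v10; ok v11 && (
  let v12 := cst ⟨2439541424128, 0, 0, 0⟩; ok v12 && (
  let v13 := sub v11 v12; ok v13 && (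
  isPos 3 v13 && (
  true))))))))))))))))
  | _ => false

set_option maxRecDepth 1000000 in
theorem chk9_eq (O : Ops) (m : List O.α)
    (h : chk9 O.cst O.add O.sub O.mul O.scale O.neg O.inv O.exp O.log O.ok O.isPos O.isLt m = true) :
    runG O 3 prog9 m = true := by
  match m, h with
  | [x0, x1, x2], h => exact h

def chkB9 : List opsE.α → Bool :=
  chk9 opsE.cst opsE.add opsE.sub opsE.mul opsE.scale opsE.neg opsE.inv opsE.exp opsE.log opsE.ok opsE.isPos opsE.isLt

theorem chkB9_eq (m : List opsE.α) (h : chkB9 m = true) : runG opsE 3 prog9 m = true :=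
  chk9_eq opsE m h

def prog10 : List Op := [
  .mul 2 2,
  .const ⟨1099511627776, 0, 0, 0⟩,
  .add 1 0,
  .inv 0,
  .sub 2 3,
  .mul 0 1,
  .mul 7 0,
  .const ⟨2714419331072, 0, 0, 0⟩,
  .sub 1 0,
  .pos 0]

def chk10 {α : Type} (cst : Z → α) (add sub mul : α → α → α) (scale : Z → α → α)
    (neg inv exp log : α → α) (ok : α → Bool) (isPos : Nat → α → Bool) (isLt : α → Nat → Bool) :
    List α → Bool
  | [x0, x1, x2] =>
  let v0 := mul x2 x2; ok v0 && (
  let v1 := cst ⟨1099511627776, 0, 0, 0⟩; ok v1 && (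
  let v2 := add v0 v1; ok v2 && (
  let v3 := inv v2; ok v3 && (
  let v4 := sub v1 v0; ok v4 && (
  let v5 := mul v4 v3; ok v5 && (
  let v6 := mul x1 v5; ok v6 && (
  let v7 := cst ⟨2714419331072, 0, 0, 0⟩; ok v7 && (
  let v8 := sub v6 v7; ok v8 && (
  isPos 3 v8 && (
  true))))))))))
  | _ => false

set_option maxRecDepth 1000000 in
theorem chk10_eq (O : Ops) (m : List O.α)
    (h : chk10 O.cst O.add O.sub O.mul O.scale O.neg O.inv O.exp O.log O.ok O.isPos O.isLt m = true) :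
    runG O 3 prog10 m = true := by
  match m, h with
  | [x0, x1, x2], h => exact h

def chkB10 : List opsE.α → Bool :=
  chk10 opsE.cst opsE.add opsE.sub opsE.mul opsE.scale opsE.neg opsE.inv opsE.exp opsE.log opsE.ok opsE.isPos opsE.isLt

theorem chkB10_eq (m : List opsE.α) (h : chkB10 m = true) : runG opsE 3 prog10 m = true :=
  chk10_eq opsE m h

def progs : List (List Op) := [prog0, prog1, prog2, prog3, prog4, prog5, prog6, prog7, prog8, prog9, prog10]

def chks : List (List opsE.α → Bool) := [chkB0, chkB1, chkB2, chkB3, chkB4, chkB5, chkB6, chkB7, chkB8, chkB9, chkB10]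

theorem chks_eq : List.Forall₂ (fun (ops : List Op) (chk : List opsE.α → Bool) =>
    ∀ m, chk m = true → runG opsE 3 ops m = true) progs chks :=
  List.Forall₂.cons chkB0_eq (List.Forall₂.cons chkB1_eq (List.Forall₂.cons chkB2_eq (List.Forall₂.cons chkB3_eq (List.Forall₂.cons chkB4_eq (List.Forall₂.cons chkB5_eq (List.Forall₂.cons chkB6_eq (List.Forall₂.cons chkB7_eq (List.Forall₂.cons chkB8_eq (List.Forall₂.cons chkB9_eq (List.Forall₂.cons chkB10_eq List.Forall₂.nil))))))))))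

end Pool.Agent.helper31.EQB.Cert.FR
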