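import Pool.Agent.helper31.IC.EngD
import Pool.Agent.helper14.QF.Inst

/-!
Generated: straight line program(s) and compiled form(s).
-/

namespace Pool.Agent.helper31.EQB.Cert.LA0

open Pool.Agent.helper31.IA (Z Op)
open Pool.Agent.helper31.IC

set_option maxRecDepth 100000

abbrev opsE : Ops := Pool.Agent.helper14.QF.opsF

def prog0 : List Op := [
  .const ⟨1099511627776, 0, 0, 0⟩,
  .mul 1 1,
  .mul 4 3,
  .mul 5 5,
  .mul 4 5,
  .mul 0 0,
  .mul 1 6,
  .mul 8 8,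
  .neg 4,
  .add 0 8,
  .mul 2 0,
  .mul 5 9,
  .const ⟨1099243192320, 0, 0, 0⟩,
  .scale ⟨3111703805952, 0, 0, 0⟩ 13,
  .sub 1 0,
  .scale ⟨32985348833280, 0, 0, 0⟩ 13,
  .sub 1 0,
  .scale ⟨1556388773888, 0, 0, 0⟩ 17,
  .sub 5 0,
  .scale ⟨26388279066624, 0, 0, 0⟩ 17,
  .sub 1 0,
  .scale ⟨8796093022208, 0, 0, 0⟩ 19,
  .sub 5 0,
  .scale ⟨11408506880000, 0, 0, 0⟩ 11,
  .sub 1 0,
  .scale ⟨3207803699200, 0, 0, 0⟩ 13,
  .scale ⟨3207803699200, 0, 0, 0⟩ 0,
  .add 0 26,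
  .scale ⟨1232655613952, 0, 0, 0⟩ 22,
  .mul 4 0,
  .neg 0,
  .exp 0,
  .scale ⟨1097093611520, 0, 0, 0⟩ 11,
  .mul 16 28,
  .scale ⟨1161716301824, 0, 0, 0⟩ 0,
  .mul 2 30,
  .scale ⟨549755813888, 0, 0, 0⟩ 0,
  .mul 1 1,
  .scale ⟨97184055296, 0, 0, 0⟩ 0,
  .const ⟨1554944884736, 0, 0, 0⟩,
  .add 1 0,
  .add 4 0,
  .inv 0,
  .mul 10 0,
  .add 0 9,
  .inv 0,
  .add 41 0,
  .mul 15 0,
  .mul 43 20,
  .mul 0 1,
  .mul 52 43,
  .scale ⟨1232655613952, 0, 0, 0⟩ 0,
  .scale ⟨2199023255552, 0, 0, 0⟩ 0,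
  .sub 25 0,
  .scale ⟨3207803699200, 0, 0, 0⟩ 3,
  .scale ⟨2199023255552, 0, 0, 0⟩ 0,
  .add 29 0,
  .scale ⟨549755813888, 0, 0, 0⟩ 0,
  .add 57 0,
  .const ⟨4398046511104, 0, 0, 0⟩,
  .add 57 0,
  .inv 0,
  .mul 3 0,
  .scale ⟨112608673792, 0, 0, 0⟩ 0,
  .scale ⟨4398046511104, 0, 0, 0⟩ 0,
  .mul 0 66,
  .sub 65 0,
  .pos 0,
  .inv 0,
  .const ⟨2199023255552, 0, 0, 0⟩,
  .scale ⟨274877906944, 0, 0, 0⟩ 58,
  .sub 1 0,
  .mul 60 60,
  .scale ⟨5727322112, 0, 0, 0⟩ 0,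
  .add 2 0,
  .mul 4 4,
  .mul 0 5,
  .mul 0 0,
  .scale ⟨900726784, 0, 0, 0⟩ 0,
  .add 4 0,
  .scale ⟨3207803699200, 0, 0, 0⟩ 73,
  .add 1 0,
  .mul 75 53,
  .scale ⟨659707396096, 0, 0, 0⟩ 0,
  .add 33 0,
  .exp 0,
  .add 4 0,
  .sub 0 85,
  .mul 87 59,
  .mul 0 40,
  .mul 24 21,
  .mul 3 0,
  .add 2 0,
  .mul 0 93,
  .scale ⟨4947802324992, 0, 0, 0⟩ 91,
  .scale ⟨91626668032, 0, 0, 0⟩ 94,
  .add 1 0,
  .mul 64 30,
  .sub 96 0,
  .inv 0,
  .mul 2 0,
  .mul 98 0,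
  .add 5 0,
  .sub 75 98,
  .const ⟨1108101562368, 0, 0, 0⟩,
  .add 1 0,
  .log 0,
  .scale ⟨549755813888, 0, 0, 0⟩ 0,
  .exp 0,
  .mul 0 109,
  .mul 0 107,
  .scale ⟨549755813888, 0, 0, 0⟩ 0,
  .const ⟨1116004679680, 0, 0, 0⟩,
  .add 1 0,
  .scale ⟨549755813888, 0, 0, 0⟩ 106,
  .mul 0 60,
  .scale ⟨2253999046656, 0, 0, 0⟩ 117,
  .add 8 0,
  .mul 2 0,
  .scale ⟨5497683968, 0, 0, 0⟩ 120,
  .add 11 0,
  .mul 0 28,
  .add 3 0,
  .mul 120 29,
  .scale ⟨1869170606080, 0, 0, 0⟩ 0,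
  .scale ⟨2418926419968, 0, 0, 0⟩ 22,
  .add 1 0,
  .mul 122 0,
  .add 5 0,
  .mul 15 0,
  .mul 0 123,
  .mul 1 123,
  .const ⟨1097095708672, 0, 0, 0⟩,
  .scale ⟨2199023255552, 0, 0, 0⟩ 1,
  .sub 1 0,
  .pos 109,
  .sub 133 3,
  .pos 0,
  .pos 1,
  .const ⟨4563402752000, 0, 0, 0⟩,
  .const ⟨3207803699200, 0, 0, 0⟩,
  .sub 1 0,
  .sub 0 9,
  .add 8 138,
  .mul 0 0,
  .sub 2 0,
  .pos 0,
  .scale ⟨10115506765824, 0, 0, 0⟩ 8,
  .sub 0 7,
  .pos 0,
  .scale ⟨989560045568, 0, 0, 0⟩ 10,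
  .scale ⟨18940000468992, 0, 0, 0⟩ 133,
  .sub 1 0,
  .pos 0,
  .const ⟨1232655613952, 0, 0, 0⟩,
  .sub 0 19,
  .pos 0,
  .scale ⟨243454181376, 0, 0, 0⟩ 14,
  .scale ⟨1124744560640, 0, 0, 0⟩ 21,
  .sub 1 0,
  .pos 0,
  .sub 151 19,
  .scale ⟨3463891124224, 0, 0, 0⟩ 0,
  .sub 0 17,
  .sub 0 26,
  .pos 0,
  .neg 33,
  .const ⟨10994319360, 0, 0, 0⟩,
  .add 1 0,
  .pos 0,
  .neg 57,
  .const ⟨21989687296, 0, 0, 0⟩,
  .add 1 0,
  .pos 0,
  .neg 52,
  .const ⟨109950533632, 0, 0, 0⟩,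
  .add 1 0,
  .pos 0,
  .mul 35 163,
  .neg 0,
  .const ⟨5496635392, 0, 0, 0⟩,
  .add 1 0,
  .pos 0,
  .neg 39,
  .const ⟨11005853696, 0, 0, 0⟩,
  .add 1 0,
  .pos 0,
  .mul 166 38,
  .scale ⟨2090604691456, 0, 0, 0⟩ 0,
  .mul 149 0,
  .neg 0,
  .exp 0,
  .scale ⟨1097095708672, 0, 0, 0⟩ 43,
  .neg 0,
  .add 0 178,
  .scale ⟨549755813888, 0, 0, 0⟩ 0,
  .add 1 180,
  .neg 0,
  .mul 2 0,
  .add 0 183,
  .mul 164 0,
  .mul 152 8,
  .scale ⟨1593763168256, 0, 0, 0⟩ 0,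
  .mul 2 183,
  .scale ⟨549755813888, 0, 0, 0⟩ 0,
  .mul 1 1,
  .scale ⟨97184055296, 0, 0, 0⟩ 0,
  .add 0 152,
  .add 3 0,
  .inv 0,
  .mul 9 0,
  .add 0 8,
  .inv 0,
  .add 193 0,
  .mul 22 0,
  .mul 195 0,
  .add 195 0,
  .mul 73 0,
  .mul 203 3,
  .add 197 0,
  .mul 76 0,
  .scale ⟨549755813888, 0, 0, 0⟩ 3,
  .sub 206 0,
  .pos 0,
  .inv 0,
  .add 2 208,
  .mul 0 1,
  .mul 5 2,
  .scale ⟨274877906944, 0, 0, 0⟩ 209,
  .add 0 212,
  .mul 2 0,
  .scale ⟨94623498240, 0, 0, 0⟩ 38,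
  .mul 5 0,
  .add 189 88,
  .mul 211 0,
  .add 0 218,
  .mul 3 0,
  .add 6 0,
  .neg 0,
  .const ⟨112606576640, 0, 0, 0⟩,
  .add 1 0,
  .pos 0]

def chk0 {α : Type} (cst : Z → α) (add sub mul : α → α → α) (scale : Z → α → α)
    (neg inv exp log : α → α) (ok : α → Bool) (isPos : Nat → α → Bool) (isLt : α → Nat → Bool) :
    List α → Bool
  | [x0, x1, x2] =>
  let v0 := cst ⟨1099511627776, 0, 0, 0⟩; ok v0 && (
  let v1 := mul x0 x0; ok v1 && (
  let v2 := mul x2 x1; ok v2 && (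
  let v3 := mul x2 x2; ok v3 && (
  let v4 := mul x0 x1; ok v4 && (
  let v5 := mul v4 v4; ok v5 && (
  let v6 := mul v4 x0; ok v6 && (
  let v7 := mul x1 x1; ok v7 && (
  let v8 := neg v3; ok v8 && (
  let v9 := add v8 v0; ok v9 && (
  let v10 := mul v7 v9; ok v10 && (
  let v11 := mul v5 v1; ok v11 && (
  let v12 := cst ⟨1099243192320, 0, 0, 0⟩; ok v12 && (
  let v13 := scale ⟨3111703805952, 0, 0, 0⟩ x0; ok v13 && (
  let v14 := sub v12 v13; ok v14 && (
  let v15 := scale ⟨32985348833280, 0, 0, 0⟩ v1; ok v15 && (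
  let v16 := sub v14 v15; ok v16 && (
  let v17 := scale ⟨1556388773888, 0, 0, 0⟩ x0; ok v17 && (
  let v18 := sub v12 v17; ok v18 && (
  let v19 := scale ⟨26388279066624, 0, 0, 0⟩ v1; ok v19 && (
  let v20 := sub v18 v19; ok v20 && (
  let v21 := scale ⟨8796093022208, 0, 0, 0⟩ v1; ok v21 && (
  let v22 := sub v16 v21; ok v22 && (
  let v23 := scale ⟨11408506880000, 0, 0, 0⟩ v11; ok v23 && (
  let v24 := sub v22 v23; ok v24 && (
  let v25 := scale ⟨3207803699200, 0, 0, 0⟩ v11; ok v25 && (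
  let v26 := scale ⟨3207803699200, 0, 0, 0⟩ v25; ok v26 && (
  let v27 := add v26 v0; ok v27 && (
  let v28 := scale ⟨1232655613952, 0, 0, 0⟩ v5; ok v28 && (
  let v29 := mul v24 v28; ok v29 && (
  let v30 := neg v29; ok v30 && (
  let v31 := exp v30; ok v31 && (
  let v32 := scale ⟨1097093611520, 0, 0, 0⟩ v20; ok v32 && (
  let v33 := mul v16 v4; ok v33 && (
  let v34 := scale ⟨1161716301824, 0, 0, 0⟩ v33; ok v34 && (
  let v35 := mul v32 v4; ok v35 && (
  let v36 := scale ⟨549755813888, 0, 0, 0⟩ v35; ok v36 && (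
  let v37 := mul v35 v35; ok v37 && (
  let v38 := scale ⟨97184055296, 0, 0, 0⟩ v37; ok v38 && (
  let v39 := cst ⟨1554944884736, 0, 0, 0⟩; ok v39 && (
  let v40 := add v38 v39; ok v40 && (
  let v41 := add v36 v40; ok v41 && (
  let v42 := inv v41; ok v42 && (
  let v43 := mul v32 v42; ok v43 && (
  let v44 := add v43 v34; ok v44 && (
  let v45 := inv v44; ok v45 && (
  let v46 := add v4 v45; ok v46 && (
  let v47 := mul v31 v46; ok v47 && (
  let v48 := mul v4 v27; ok v48 && (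
  let v49 := mul v48 v47; ok v49 && (
  let v50 := mul x2 v6; ok v50 && (
  let v51 := scale ⟨1232655613952, 0, 0, 0⟩ v50; ok v51 && (
  let v52 := scale ⟨2199023255552, 0, 0, 0⟩ v51; ok v52 && (
  let v53 := sub v27 v52; ok v53 && (
  let v54 := scale ⟨3207803699200, 0, 0, 0⟩ v50; ok v54 && (
  let v55 := scale ⟨2199023255552, 0, 0, 0⟩ v54; ok v55 && (
  let v56 := add v26 v55; ok v56 && (
  let v57 := scale ⟨549755813888, 0, 0, 0⟩ v56; ok v57 && (
  let v58 := add v0 v57; ok v58 && (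
  let v59 := cst ⟨4398046511104, 0, 0, 0⟩; ok v59 && (
  let v60 := add v2 v59; ok v60 && (
  let v61 := inv v60; ok v61 && (
  let v62 := mul v58 v61; ok v62 && (
  let v63 := scale ⟨112608673792, 0, 0, 0⟩ v62; ok v63 && (
  let v64 := scale ⟨4398046511104, 0, 0, 0⟩ v63; ok v64 && (
  let v65 := mul v64 x1; ok v65 && (
  let v66 := sub v0 v65; ok v66 && (
  isPos 3 v66 && (
  let v67 := inv v66; ok v67 && (
  let v68 := cst ⟨2199023255552, 0, 0, 0⟩; ok v68 && (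
  let v69 := scale ⟨274877906944, 0, 0, 0⟩ v10; ok v69 && (
  let v70 := sub v68 v69; ok v70 && (
  let v71 := mul v10 v10; ok v71 && (
  let v72 := scale ⟨5727322112, 0, 0, 0⟩ v71; ok v72 && (
  let v73 := add v70 v72; ok v73 && (
  let v74 := mul v69 v69; ok v74 && (
  let v75 := mul v74 v69; ok v75 && (
  let v76 := mul v75 v75; ok v76 && (
  let v77 := scale ⟨900726784, 0, 0, 0⟩ v76; ok v77 && (
  let v78 := add v73 v77; ok v78 && (
  let v79 := scale ⟨3207803699200, 0, 0, 0⟩ v5; ok v79 && (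
  let v80 := add v78 v79; ok v80 && (
  let v81 := mul v5 v27; ok v81 && (
  let v82 := scale ⟨659707396096, 0, 0, 0⟩ v81; ok v82 && (
  let v83 := add v49 v82; ok v83 && (
  let v84 := exp v83; ok v84 && (
  let v85 := add v80 v84; ok v85 && (
  let v86 := sub v85 v0; ok v86 && (
  let v87 := mul x0 v27; ok v87 && (
  let v88 := mul v87 v47; ok v88 && (
  let v89 := mul v64 v67; ok v89 && (
  let v90 := mul v86 v89; ok v90 && (
  let v91 := add v88 v90; ok v91 && (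
  let v92 := mul v91 x1; ok v92 && (
  let v93 := scale ⟨4947802324992, 0, 0, 0⟩ v1; ok v93 && (
  let v94 := scale ⟨91626668032, 0, 0, 0⟩ x0; ok v94 && (
  let v95 := add v93 v94; ok v95 && (
  let v96 := mul v31 v65; ok v96 && (
  let v97 := sub v0 v96; ok v97 && (
  let v98 := inv v97; ok v98 && (
  let v99 := mul v96 v98; ok v99 && (
  let v100 := mul v1 v99; ok v100 && (
  let v101 := add v95 v100; ok v101 && (
  let v102 := sub v26 v3; ok v102 && (
  let v103 := cst ⟨1108101562368, 0, 0, 0⟩; ok v103 && (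
  let v104 := add v102 v103; ok v104 && (
  let v105 := log v104; ok v105 && (
  let v106 := scale ⟨549755813888, 0, 0, 0⟩ v105; ok v106 && (
  let v107 := exp v106; ok v107 && (
  let v108 := mul v107 x1; ok v108 && (
  let v109 := mul v108 v1; ok v109 && (
  let v110 := scale ⟨549755813888, 0, 0, 0⟩ v109; ok v110 && (
  let v111 := cst ⟨1116004679680, 0, 0, 0⟩; ok v111 && (
  let v112 := add v110 v111; ok v112 && (
  let v113 := scale ⟨549755813888, 0, 0, 0⟩ v6; ok v113 && (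
  let v114 := mul v113 v53; ok v114 && (
  let v115 := scale ⟨2253999046656, 0, 0, 0⟩ x2; ok v115 && (
  let v116 := add v107 v115; ok v116 && (
  let v117 := mul v114 v116; ok v117 && (
  let v118 := scale ⟨5497683968, 0, 0, 0⟩ x2; ok v118 && (
  let v119 := add v107 v118; ok v119 && (
  let v120 := mul v119 v91; ok v120 && (
  let v121 := add v117 v120; ok v121 && (
  let v122 := mul v1 v92; ok v122 && (
  let v123 := scale ⟨1869170606080, 0, 0, 0⟩ v122; ok v123 && (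
  let v124 := scale ⟨2418926419968, 0, 0, 0⟩ v101; ok v124 && (
  let v125 := add v123 v124; ok v125 && (
  let v126 := mul v3 v125; ok v126 && (
  let v127 := add v121 v126; ok v127 && (
  let v128 := mul v112 v127; ok v128 && (
  let v129 := mul v128 v5; ok v129 && (
  let v130 := mul v128 v6; ok v130 && (
  let v131 := cst ⟨1097095708672, 0, 0, 0⟩; ok v131 && (
  let v132 := scale ⟨2199023255552, 0, 0, 0⟩ v130; ok v132 && (
  let v133 := sub v131 v132; ok v133 && (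
  isPos 3 v24 && (
  let v134 := sub v0 v130; ok v134 && (
  isPos 3 v134 && (
  isPos 3 v133 && (
  let v135 := cst ⟨4563402752000, 0, 0, 0⟩; ok v135 && (
  let v136 := cst ⟨3207803699200, 0, 0, 0⟩; ok v136 && (
  let v137 := sub v135 v136; ok v137 && (
  let v138 := sub v137 v128; ok v138 && (
  let v139 := add v130 v0; ok v139 && (
  let v140 := mul v139 v139; ok v140 && (
  let v141 := sub v138 v140; ok v141 && (
  isPos 3 v141 && (
  let v142 := scale ⟨10115506765824, 0, 0, 0⟩ v133; ok v142 && (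
  let v143 := sub v142 v135; ok v143 && (
  isPos 3 v143 && (
  let v144 := scale ⟨989560045568, 0, 0, 0⟩ v133; ok v144 && (
  let v145 := scale ⟨18940000468992, 0, 0, 0⟩ v11; ok v145 && (
  let v146 := sub v144 v145; ok v146 && (
  isPos 3 v146 && (
  let v147 := cst ⟨1232655613952, 0, 0, 0⟩; ok v147 && (
  let v148 := sub v147 v128; ok v148 && (
  isPos 3 v148 && (
  let v149 := scale ⟨243454181376, 0, 0, 0⟩ v134; ok v149 && (
  let v150 := scale ⟨1124744560640, 0, 0, 0⟩ v128; ok v150 && (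
  let v151 := sub v149 v150; ok v151 && (
  isPos 3 v151 && (
  let v152 := sub v0 v132; ok v152 && (
  let v153 := scale ⟨3463891124224, 0, 0, 0⟩ v152; ok v153 && (
  let v154 := sub v153 v136; ok v154 && (
  let v155 := sub v154 v128; ok v155 && (
  isPos 3 v155 && (
  let v156 := neg v122; ok v156 && (
  let v157 := cst ⟨10994319360, 0, 0, 0⟩; ok v157 && (
  let v158 := add v156 v157; ok v158 && (
  isPos 3 v158 && (
  let v159 := neg v101; ok v159 && (
  let v160 := cst ⟨21989687296, 0, 0, 0⟩; ok v160 && (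
  let v161 := add v159 v160; ok v161 && (
  isPos 3 v161 && (
  let v162 := neg v109; ok v162 && (
  let v163 := cst ⟨109950533632, 0, 0, 0⟩; ok v163 && (
  let v164 := add v162 v163; ok v164 && (
  isPos 3 v164 && (
  let v165 := mul v129 v1; ok v165 && (
  let v166 := neg v165; ok v166 && (
  let v167 := cst ⟨5496635392, 0, 0, 0⟩; ok v167 && (
  let v168 := add v166 v167; ok v168 && (
  isPos 3 v168 && (
  let v169 := neg v129; ok v169 && (
  let v170 := cst ⟨11005853696, 0, 0, 0⟩; ok v170 && (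
  let v171 := add v169 v170; ok v171 && (
  isPos 3 v171 && (
  let v172 := mul v5 v133; ok v172 && (
  let v173 := scale ⟨2090604691456, 0, 0, 0⟩ v172; ok v173 && (
  let v174 := mul v24 v173; ok v174 && (
  let v175 := neg v174; ok v175 && (
  let v176 := exp v175; ok v176 && (
  let v177 := scale ⟨1097095708672, 0, 0, 0⟩ v133; ok v177 && (
  let v178 := neg v177; ok v178 && (
  let v179 := add v178 v0; ok v179 && (
  let v180 := scale ⟨549755813888, 0, 0, 0⟩ v179; ok v180 && (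
  let v181 := add v179 v0; ok v181 && (
  let v182 := neg v181; ok v182 && (
  let v183 := mul v180 v182; ok v183 && (
  let v184 := add v183 v0; ok v184 && (
  let v185 := mul v20 v184; ok v185 && (
  let v186 := mul v33 v177; ok v186 && (
  let v187 := scale ⟨1593763168256, 0, 0, 0⟩ v186; ok v187 && (
  let v188 := mul v185 v4; ok v188 && (
  let v189 := scale ⟨549755813888, 0, 0, 0⟩ v188; ok v189 && (
  let v190 := mul v188 v188; ok v190 && (
  let v191 := scale ⟨97184055296, 0, 0, 0⟩ v190; ok v191 && (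
  let v192 := add v191 v39; ok v192 && (
  let v193 := add v189 v192; ok v193 && (
  let v194 := inv v193; ok v194 && (
  let v195 := mul v185 v194; ok v195 && (
  let v196 := add v195 v187; ok v196 && (
  let v197 := inv v196; ok v197 && (
  let v198 := add v4 v197; ok v198 && (
  let v199 := mul v176 v198; ok v199 && (
  let v200 := mul v4 v199; ok v200 && (
  let v201 := add v5 v200; ok v201 && (
  let v202 := mul v128 v201; ok v202 && (
  let v203 := mul x0 v199; ok v203 && (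
  let v204 := add v6 v203; ok v204 && (
  let v205 := mul v128 v204; ok v205 && (
  let v206 := scale ⟨549755813888, 0, 0, 0⟩ v202; ok v206 && (
  let v207 := sub v0 v206; ok v207 && (
  isPos 3 v207 && (
  let v208 := inv v207; ok v208 && (
  let v209 := add v206 v0; ok v209 && (
  let v210 := mul v209 v208; ok v210 && (
  let v211 := mul v205 v208; ok v211 && (
  let v212 := scale ⟨274877906944, 0, 0, 0⟩ v2; ok v212 && (
  let v213 := add v212 v0; ok v213 && (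
  let v214 := mul v211 v213; ok v214 && (
  let v215 := scale ⟨94623498240, 0, 0, 0⟩ v176; ok v215 && (
  let v216 := mul v210 v215; ok v216 && (
  let v217 := add v27 v128; ok v217 && (
  let v218 := mul v6 v217; ok v218 && (
  let v219 := add v218 v0; ok v219 && (
  let v220 := mul v216 v219; ok v220 && (
  let v221 := add v214 v220; ok v221 && (
  let v222 := neg v221; ok v222 && (
  let v223 := cst ⟨112606576640, 0, 0, 0⟩; ok v223 && (
  let v224 := add v222 v223; ok v224 && (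
  isPos 3 v224 && (
  true))))))))))))))))))))))))))))))))))))))))))))))))))))))))))))))))))))))))))))))))))))))))))))))))))))))))))))))))))))))))))))))))))))))))))))))))))))))))))))))))))))))))))))))))))))))))))))))))))))))))))))))))))))))))))))))))))))))))))))))))))
  | _ => false

set_option maxRecDepth 1000000 in
theorem chk0_eq (O : Ops) (m : List O.α)
    (h : chk0 O.cst O.add O.sub O.mul O.scale O.neg O.inv O.exp O.log O.ok O.isPos O.isLt m = true) :
    runG O 3 prog0 m = true := by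
  match m, h with
  | [x0, x1, x2], h => exact h

def chkB0 : List opsE.α → Bool :=
  chk0 opsE.cst opsE.add opsE.sub opsE.mul opsE.scale opsE.neg opsE.inv opsE.exp opsE.log opsE.ok opsE.isPos opsE.isLt

theorem chkB0_eq (m : List opsE.α) (h : chkB0 m = true) : runG opsE 3 prog0 m = true :=
  chk0_eq opsE m h

def prog1 : List Op := [
  .const ⟨1099511627776, 0, 0, 0⟩,
  .mul 1 1,
  .mul 4 3,
  .mul 5 5,
  .mul 4 5,
  .mul 0 0,
  .mul 1 6,
  .mul 8 8,
  .neg 4,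
  .add 0 8,
  .mul 2 0,
  .mul 5 9,
  .const ⟨1099243192320, 0, 0, 0⟩,
  .scale ⟨3111703805952, 0, 0, 0⟩ 13,
  .sub 1 0,
  .scale ⟨32985348833280, 0, 0, 0⟩ 13,
  .sub 1 0,
  .scale ⟨1556388773888, 0, 0, 0⟩ 17,
  .sub 5 0,
  .scale ⟨26388279066624, 0, 0, 0⟩ 17,
  .sub 1 0,
  .scale ⟨8796093022208, 0, 0, 0⟩ 19,
  .sub 5 0,
  .scale ⟨11408506880000, 0, 0, 0⟩ 11,
  .sub 1 0,
  .scale ⟨3207803699200, 0, 0, 0⟩ 13,
  .scale ⟨3207803699200, 0, 0, 0⟩ 0,
  .add 0 26,
  .scale ⟨1232655613952, 0, 0, 0⟩ 22,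
  .mul 4 0,
  .neg 0,
  .exp 0,
  .const ⟨1077499920384, 0, 0, 0⟩,
  .sub 0 22,
  .pos 0,
  .const ⟨5498631880704, 0, 0, 0⟩,
  .sub 0 32,
  .pos 0,
  .scale ⟨1992864825344, 0, 0, 0⟩ 31,
  .mul 32 9,
  .mul 0 1,
  .mul 41 32,
  .scale ⟨1232655613952, 0, 0, 0⟩ 0,
  .scale ⟨2199023255552, 0, 0, 0⟩ 0,
  .sub 14 0,
  .scale ⟨3207803699200, 0, 0, 0⟩ 3,
  .scale ⟨2199023255552, 0, 0, 0⟩ 0,
  .add 18 0,
  .scale ⟨549755813888, 0, 0, 0⟩ 0,
  .add 46 0,
  .const ⟨4398046511104, 0, 0, 0⟩,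
  .add 46 0,
  .inv 0,
  .mul 3 0,
  .scale ⟨112608673792, 0, 0, 0⟩ 0,
  .scale ⟨4398046511104, 0, 0, 0⟩ 0,
  .mul 0 55,
  .sub 54 0,
  .pos 0,
  .inv 0,
  .const ⟨2199023255552, 0, 0, 0⟩,
  .scale ⟨274877906944, 0, 0, 0⟩ 47,
  .sub 1 0,
  .mul 49 49,
  .scale ⟨5727322112, 0, 0, 0⟩ 0,
  .add 2 0,
  .mul 4 4,
  .mul 0 5,
  .mul 0 0,
  .scale ⟨900726784, 0, 0, 0⟩ 0,
  .add 4 0,
  .scale ⟨3207803699200, 0, 0, 0⟩ 62,
  .add 1 0,
  .mul 64 42,
  .scale ⟨659707396096, 0, 0, 0⟩ 0,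
  .add 33 0,
  .exp 0,
  .add 4 0,
  .sub 0 74,
  .mul 76 48,
  .mul 0 40,
  .mul 24 21,
  .mul 3 0,
  .add 2 0,
  .mul 0 82,
  .scale ⟨4947802324992, 0, 0, 0⟩ 80,
  .scale ⟨91626668032, 0, 0, 0⟩ 83,
  .add 1 0,
  .mul 53 30,
  .sub 85 0,
  .inv 0,
  .mul 2 0,
  .mul 87 0,
  .add 5 0,
  .sub 64 87,
  .const ⟨1108101562368, 0, 0, 0⟩,
  .add 1 0,
  .log 0,
  .scale ⟨549755813888, 0, 0, 0⟩ 0,
  .exp 0,
  .mul 0 98,
  .mul 0 96,
  .scale ⟨549755813888, 0, 0, 0⟩ 0,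
  .const ⟨1116004679680, 0, 0, 0⟩,
  .add 1 0,
  .scale ⟨549755813888, 0, 0, 0⟩ 95,
  .mul 0 60,
  .scale ⟨2253999046656, 0, 0, 0⟩ 106,
  .add 8 0,
  .mul 2 0,
  .scale ⟨5497683968, 0, 0, 0⟩ 109,
  .add 11 0,
  .mul 0 28,
  .add 3 0,
  .mul 109 29,
  .scale ⟨1869170606080, 0, 0, 0⟩ 0,
  .scale ⟨2418926419968, 0, 0, 0⟩ 22,
  .add 1 0,
  .mul 111 0,
  .add 5 0,
  .mul 15 0,
  .mul 0 112,
  .mul 1 112,
  .const ⟨1097095708672, 0, 0, 0⟩,
  .scale ⟨2199023255552, 0, 0, 0⟩ 1,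
  .sub 1 0,
  .pos 98,
  .sub 122 3,
  .pos 0,
  .pos 1,
  .const ⟨4563402752000, 0, 0, 0⟩,
  .const ⟨3207803699200, 0, 0, 0⟩,
  .sub 1 0,
  .sub 0 9,
  .add 8 127,
  .mul 0 0,
  .sub 2 0,
  .pos 0,
  .scale ⟨10115506765824, 0, 0, 0⟩ 8,
  .sub 0 7,
  .pos 0,
  .scale ⟨989560045568, 0, 0, 0⟩ 10,
  .scale ⟨18940000468992, 0, 0, 0⟩ 122,
  .sub 1 0,
  .pos 0,
  .const ⟨1232655613952, 0, 0, 0⟩,
  .sub 0 19,
  .pos 0,
  .scale ⟨243454181376, 0, 0, 0⟩ 14,
  .scale ⟨1124744560640, 0, 0, 0⟩ 21,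
  .sub 1 0,
  .pos 0,
  .sub 140 19,
  .scale ⟨3463891124224, 0, 0, 0⟩ 0,
  .sub 0 17,
  .sub 0 26,
  .pos 0,
  .neg 33,
  .const ⟨10994319360, 0, 0, 0⟩,
  .add 1 0,
  .pos 0,
  .neg 57,
  .const ⟨21989687296, 0, 0, 0⟩,
  .add 1 0,
  .pos 0,
  .neg 52,
  .const ⟨109950533632, 0, 0, 0⟩,
  .add 1 0,
  .pos 0,
  .mul 35 152,
  .neg 0,
  .const ⟨5496635392, 0, 0, 0⟩,
  .add 1 0,
  .pos 0,
  .neg 39,
  .const ⟨11005853696, 0, 0, 0⟩,
  .add 1 0,
  .pos 0,
  .mul 155 38,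
  .scale ⟨2090604691456, 0, 0, 0⟩ 0,
  .mul 138 0,
  .neg 0,
  .exp 0,
  .scale ⟨1202590842880, 0, 0, 0⟩ 47,
  .add 0 48,
  .scale ⟨1202590842880, 0, 0, 0⟩ 48,
  .add 0 49,
  .scale ⟨549755813888, 0, 0, 0⟩ 2,
  .sub 170 0,
  .pos 0,
  .inv 0,
  .add 2 172,
  .mul 0 1,
  .mul 5 2,
  .scale ⟨274877906944, 0, 0, 0⟩ 173,
  .add 0 176,
  .mul 2 0,
  .scale ⟨94623498240, 0, 0, 0⟩ 13,
  .mul 5 0,
  .add 153 63,
  .mul 175 0,
  .add 0 182,
  .mul 3 0,
  .add 6 0,
  .neg 0,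
  .const ⟨112606576640, 0, 0, 0⟩,
  .add 1 0,
  .pos 0]

def chk1 {α : Type} (cst : Z → α) (add sub mul : α → α → α) (scale : Z → α → α)
    (neg inv exp log : α → α) (ok : α → Bool) (isPos : Nat → α → Bool) (isLt : α → Nat → Bool) :
    List α → Bool
  | [x0, x1, x2] =>
  let v0 := cst ⟨1099511627776, 0, 0, 0⟩; ok v0 && (
  let v1 := mul x0 x0; ok v1 && (
  let v2 := mul x2 x1; ok v2 && (
  let v3 := mul x2 x2; ok v3 && (
  let v4 := mul x0 x1; ok v4 && (
  let v5 := mul v4 v4; ok v5 && (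
  let v6 := mul v4 x0; ok v6 && (
  let v7 := mul x1 x1; ok v7 && (
  let v8 := neg v3; ok v8 && (
  let v9 := add v8 v0; ok v9 && (
  let v10 := mul v7 v9; ok v10 && (
  let v11 := mul v5 v1; ok v11 && (
  let v12 := cst ⟨1099243192320, 0, 0, 0⟩; ok v12 && (
  let v13 := scale ⟨3111703805952, 0, 0, 0⟩ x0; ok v13 && (
  let v14 := sub v12 v13; ok v14 && (
  let v15 := scale ⟨32985348833280, 0, 0, 0⟩ v1; ok v15 && (
  let v16 := sub v14 v15; ok v16 && (
  let v17 := scale ⟨1556388773888, 0, 0, 0⟩ x0; ok v17 && (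
  let v18 := sub v12 v17; ok v18 && (
  let v19 := scale ⟨26388279066624, 0, 0, 0⟩ v1; ok v19 && (
  let v20 := sub v18 v19; ok v20 && (
  let v21 := scale ⟨8796093022208, 0, 0, 0⟩ v1; ok v21 && (
  let v22 := sub v16 v21; ok v22 && (
  let v23 := scale ⟨11408506880000, 0, 0, 0⟩ v11; ok v23 && (
  let v24 := sub v22 v23; ok v24 && (
  let v25 := scale ⟨3207803699200, 0, 0, 0⟩ v11; ok v25 && (
  let v26 := scale ⟨3207803699200, 0, 0, 0⟩ v25; ok v26 && (
  let v27 := add v26 v0; ok v27 && (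
  let v28 := scale ⟨1232655613952, 0, 0, 0⟩ v5; ok v28 && (
  let v29 := mul v24 v28; ok v29 && (
  let v30 := neg v29; ok v30 && (
  let v31 := exp v30; ok v31 && (
  let v32 := cst ⟨1077499920384, 0, 0, 0⟩; ok v32 && (
  let v33 := sub v32 v10; ok v33 && (
  isPos 3 v33 && (
  let v34 := cst ⟨5498631880704, 0, 0, 0⟩; ok v34 && (
  let v35 := sub v34 v2; ok v35 && (
  isPos 3 v35 && (
  let v36 := scale ⟨1992864825344, 0, 0, 0⟩ v4; ok v36 && (
  let v37 := mul v4 v27; ok v37 && (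
  let v38 := mul v37 v36; ok v38 && (
  let v39 := mul x2 v6; ok v39 && (
  let v40 := scale ⟨1232655613952, 0, 0, 0⟩ v39; ok v40 && (
  let v41 := scale ⟨2199023255552, 0, 0, 0⟩ v40; ok v41 && (
  let v42 := sub v27 v41; ok v42 && (
  let v43 := scale ⟨3207803699200, 0, 0, 0⟩ v39; ok v43 && (
  let v44 := scale ⟨2199023255552, 0, 0, 0⟩ v43; ok v44 && (
  let v45 := add v26 v44; ok v45 && (
  let v46 := scale ⟨549755813888, 0, 0, 0⟩ v45; ok v46 && (
  let v47 := add v0 v46; ok v47 && (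
  let v48 := cst ⟨4398046511104, 0, 0, 0⟩; ok v48 && (
  let v49 := add v2 v48; ok v49 && (
  let v50 := inv v49; ok v50 && (
  let v51 := mul v47 v50; ok v51 && (
  let v52 := scale ⟨112608673792, 0, 0, 0⟩ v51; ok v52 && (
  let v53 := scale ⟨4398046511104, 0, 0, 0⟩ v52; ok v53 && (
  let v54 := mul v53 x1; ok v54 && (
  let v55 := sub v0 v54; ok v55 && (
  isPos 3 v55 && (
  let v56 := inv v55; ok v56 && (
  let v57 := cst ⟨2199023255552, 0, 0, 0⟩; ok v57 && (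
  let v58 := scale ⟨274877906944, 0, 0, 0⟩ v10; ok v58 && (
  let v59 := sub v57 v58; ok v59 && (
  let v60 := mul v10 v10; ok v60 && (
  let v61 := scale ⟨5727322112, 0, 0, 0⟩ v60; ok v61 && (
  let v62 := add v59 v61; ok v62 && (
  let v63 := mul v58 v58; ok v63 && (
  let v64 := mul v63 v58; ok v64 && (
  let v65 := mul v64 v64; ok v65 && (
  let v66 := scale ⟨900726784, 0, 0, 0⟩ v65; ok v66 && (
  let v67 := add v62 v66; ok v67 && (
  let v68 := scale ⟨3207803699200, 0, 0, 0⟩ v5; ok v68 && (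
  let v69 := add v67 v68; ok v69 && (
  let v70 := mul v5 v27; ok v70 && (
  let v71 := scale ⟨659707396096, 0, 0, 0⟩ v70; ok v71 && (
  let v72 := add v38 v71; ok v72 && (
  let v73 := exp v72; ok v73 && (
  let v74 := add v69 v73; ok v74 && (
  let v75 := sub v74 v0; ok v75 && (
  let v76 := mul x0 v27; ok v76 && (
  let v77 := mul v76 v36; ok v77 && (
  let v78 := mul v53 v56; ok v78 && (
  let v79 := mul v75 v78; ok v79 && (
  let v80 := add v77 v79; ok v80 && (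
  let v81 := mul v80 x1; ok v81 && (
  let v82 := scale ⟨4947802324992, 0, 0, 0⟩ v1; ok v82 && (
  let v83 := scale ⟨91626668032, 0, 0, 0⟩ x0; ok v83 && (
  let v84 := add v82 v83; ok v84 && (
  let v85 := mul v31 v54; ok v85 && (
  let v86 := sub v0 v85; ok v86 && (
  let v87 := inv v86; ok v87 && (
  let v88 := mul v85 v87; ok v88 && (
  let v89 := mul v1 v88; ok v89 && (
  let v90 := add v84 v89; ok v90 && (
  let v91 := sub v26 v3; ok v91 && (
  let v92 := cst ⟨1108101562368, 0, 0, 0⟩; ok v92 && (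
  let v93 := add v91 v92; ok v93 && (
  let v94 := log v93; ok v94 && (
  let v95 := scale ⟨549755813888, 0, 0, 0⟩ v94; ok v95 && (
  let v96 := exp v95; ok v96 && (
  let v97 := mul v96 x1; ok v97 && (
  let v98 := mul v97 v1; ok v98 && (
  let v99 := scale ⟨549755813888, 0, 0, 0⟩ v98; ok v99 && (
  let v100 := cst ⟨1116004679680, 0, 0, 0⟩; ok v100 && (
  let v101 := add v99 v100; ok v101 && (
  let v102 := scale ⟨549755813888, 0, 0, 0⟩ v6; ok v102 && (
  let v103 := mul v102 v42; ok v103 && (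
  let v104 := scale ⟨2253999046656, 0, 0, 0⟩ x2; ok v104 && (
  let v105 := add v96 v104; ok v105 && (
  let v106 := mul v103 v105; ok v106 && (
  let v107 := scale ⟨5497683968, 0, 0, 0⟩ x2; ok v107 && (
  let v108 := add v96 v107; ok v108 && (
  let v109 := mul v108 v80; ok v109 && (
  let v110 := add v106 v109; ok v110 && (
  let v111 := mul v1 v81; ok v111 && (
  let v112 := scale ⟨1869170606080, 0, 0, 0⟩ v111; ok v112 && (
  let v113 := scale ⟨2418926419968, 0, 0, 0⟩ v90; ok v113 && (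
  let v114 := add v112 v113; ok v114 && (
  let v115 := mul v3 v114; ok v115 && (
  let v116 := add v110 v115; ok v116 && (
  let v117 := mul v101 v116; ok v117 && (
  let v118 := mul v117 v5; ok v118 && (
  let v119 := mul v117 v6; ok v119 && (
  let v120 := cst ⟨1097095708672, 0, 0, 0⟩; ok v120 && (
  let v121 := scale ⟨2199023255552, 0, 0, 0⟩ v119; ok v121 && (
  let v122 := sub v120 v121; ok v122 && (
  isPos 3 v24 && (
  let v123 := sub v0 v119; ok v123 && (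
  isPos 3 v123 && (
  isPos 3 v122 && (
  let v124 := cst ⟨4563402752000, 0, 0, 0⟩; ok v124 && (
  let v125 := cst ⟨3207803699200, 0, 0, 0⟩; ok v125 && (
  let v126 := sub v124 v125; ok v126 && (
  let v127 := sub v126 v117; ok v127 && (
  let v128 := add v119 v0; ok v128 && (
  let v129 := mul v128 v128; ok v129 && (
  let v130 := sub v127 v129; ok v130 && (
  isPos 3 v130 && (
  let v131 := scale ⟨10115506765824, 0, 0, 0⟩ v122; ok v131 && (
  let v132 := sub v131 v124; ok v132 && (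
  isPos 3 v132 && (
  let v133 := scale ⟨989560045568, 0, 0, 0⟩ v122; ok v133 && (
  let v134 := scale ⟨18940000468992, 0, 0, 0⟩ v11; ok v134 && (
  let v135 := sub v133 v134; ok v135 && (
  isPos 3 v135 && (
  let v136 := cst ⟨1232655613952, 0, 0, 0⟩; ok v136 && (
  let v137 := sub v136 v117; ok v137 && (
  isPos 3 v137 && (
  let v138 := scale ⟨243454181376, 0, 0, 0⟩ v123; ok v138 && (
  let v139 := scale ⟨1124744560640, 0, 0, 0⟩ v117; ok v139 && (
  let v140 := sub v138 v139; ok v140 && (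
  isPos 3 v140 && (
  let v141 := sub v0 v121; ok v141 && (
  let v142 := scale ⟨3463891124224, 0, 0, 0⟩ v141; ok v142 && (
  let v143 := sub v142 v125; ok v143 && (
  let v144 := sub v143 v117; ok v144 && (
  isPos 3 v144 && (
  let v145 := neg v111; ok v145 && (
  let v146 := cst ⟨10994319360, 0, 0, 0⟩; ok v146 && (
  let v147 := add v145 v146; ok v147 && (
  isPos 3 v147 && (
  let v148 := neg v90; ok v148 && (
  let v149 := cst ⟨21989687296, 0, 0, 0⟩; ok v149 && (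
  let v150 := add v148 v149; ok v150 && (
  isPos 3 v150 && (
  let v151 := neg v98; ok v151 && (
  let v152 := cst ⟨109950533632, 0, 0, 0⟩; ok v152 && (
  let v153 := add v151 v152; ok v153 && (
  isPos 3 v153 && (
  let v154 := mul v118 v1; ok v154 && (
  let v155 := neg v154; ok v155 && (
  let v156 := cst ⟨5496635392, 0, 0, 0⟩; ok v156 && (
  let v157 := add v155 v156; ok v157 && (
  isPos 3 v157 && (
  let v158 := neg v118; ok v158 && (
  let v159 := cst ⟨11005853696, 0, 0, 0⟩; ok v159 && (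
  let v160 := add v158 v159; ok v160 && (
  isPos 3 v160 && (
  let v161 := mul v5 v122; ok v161 && (
  let v162 := scale ⟨2090604691456, 0, 0, 0⟩ v161; ok v162 && (
  let v163 := mul v24 v162; ok v163 && (
  let v164 := neg v163; ok v164 && (
  let v165 := exp v164; ok v165 && (
  let v166 := scale ⟨1202590842880, 0, 0, 0⟩ v118; ok v166 && (
  let v167 := add v166 v118; ok v167 && (
  let v168 := scale ⟨1202590842880, 0, 0, 0⟩ v119; ok v168 && (
  let v169 := add v168 v119; ok v169 && (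
  let v170 := scale ⟨549755813888, 0, 0, 0⟩ v167; ok v170 && (
  let v171 := sub v0 v170; ok v171 && (
  isPos 3 v171 && (
  let v172 := inv v171; ok v172 && (
  let v173 := add v170 v0; ok v173 && (
  let v174 := mul v173 v172; ok v174 && (
  let v175 := mul v169 v172; ok v175 && (
  let v176 := scale ⟨274877906944, 0, 0, 0⟩ v2; ok v176 && (
  let v177 := add v176 v0; ok v177 && (
  let v178 := mul v175 v177; ok v178 && (
  let v179 := scale ⟨94623498240, 0, 0, 0⟩ v165; ok v179 && (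
  let v180 := mul v174 v179; ok v180 && (
  let v181 := add v27 v117; ok v181 && (
  let v182 := mul v6 v181; ok v182 && (
  let v183 := add v182 v0; ok v183 && (
  let v184 := mul v180 v183; ok v184 && (
  let v185 := add v178 v184; ok v185 && (
  let v186 := neg v185; ok v186 && (
  let v187 := cst ⟨112606576640, 0, 0, 0⟩; ok v187 && (
  let v188 := add v186 v187; ok v188 && (
  isPos 3 v188 && (
  true))))))))))))))))))))))))))))))))))))))))))))))))))))))))))))))))))))))))))))))))))))))))))))))))))))))))))))))))))))))))))))))))))))))))))))))))))))))))))))))))))))))))))))))))))))))))))))))))))))))))))))))))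
  | _ => false

set_option maxRecDepth 1000000 in
theorem chk1_eq (O : Ops) (m : List O.α)
    (h : chk1 O.cst O.add O.sub O.mul O.scale O.neg O.inv O.exp O.log O.ok O.isPos O.isLt m = true) :
    runG O 3 prog1 m = true := by
  match m, h with
  | [x0, x1, x2], h => exact h

def chkB1 : List opsE.α → Bool :=
  chk1 opsE.cst opsE.add opsE.sub opsE.mul opsE.scale opsE.neg opsE.inv opsE.exp opsE.log opsE.ok opsE.isPos opsE.isLt

theorem chkB1_eq (m : List opsE.α) (h : chkB1 m = true) : runG opsE 3 prog1 m = true :=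
  chk1_eq opsE m h

def prog2 : List Op := [
  .const ⟨1099511627776, 0, 0, 0⟩,
  .mul 1 1,
  .mul 4 3,
  .mul 5 5,
  .mul 4 5,
  .mul 0 0,
  .mul 1 6,
  .mul 8 8,
  .neg 4,
  .add 0 8,
  .mul 2 0,
  .mul 5 9,
  .const ⟨1099243192320, 0, 0, 0⟩,
  .scale ⟨3111703805952, 0, 0, 0⟩ 13,
  .sub 1 0,
  .scale ⟨32985348833280, 0, 0, 0⟩ 13,
  .sub 1 0,
  .scale ⟨1556388773888, 0, 0, 0⟩ 17,
  .sub 5 0,
  .scale ⟨26388279066624, 0, 0, 0⟩ 17,
  .sub 1 0,
  .scale ⟨8796093022208, 0, 0, 0⟩ 19,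
  .sub 5 0,
  .scale ⟨11408506880000, 0, 0, 0⟩ 11,
  .sub 1 0,
  .scale ⟨3207803699200, 0, 0, 0⟩ 13,
  .scale ⟨3207803699200, 0, 0, 0⟩ 0,
  .add 0 26,
  .scale ⟨1232655613952, 0, 0, 0⟩ 22,
  .mul 4 0,
  .neg 0,
  .exp 0,
  .const ⟨2440883601408, 0, 0, 0⟩,
  .sub 0 22,
  .pos 0,
  .const ⟨5498631880704, 0, 0, 0⟩,
  .sub 0 32,
  .pos 0,
  .scale ⟨2576980377600, 0, 0, 0⟩ 31,
  .mul 32 9,
  .mul 0 1,
  .mul 41 32,
  .scale ⟨1232655613952, 0, 0, 0⟩ 0,
  .scale ⟨2199023255552, 0, 0, 0⟩ 0,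
  .sub 14 0,
  .scale ⟨3207803699200, 0, 0, 0⟩ 3,
  .scale ⟨2199023255552, 0, 0, 0⟩ 0,
  .add 18 0,
  .scale ⟨549755813888, 0, 0, 0⟩ 0,
  .add 46 0,
  .const ⟨4398046511104, 0, 0, 0⟩,
  .add 46 0,
  .inv 0,
  .mul 3 0,
  .scale ⟨112608673792, 0, 0, 0⟩ 0,
  .scale ⟨4398046511104, 0, 0, 0⟩ 0,
  .mul 0 55,
  .sub 54 0,
  .pos 0,
  .inv 0,
  .const ⟨2199023255552, 0, 0, 0⟩,
  .scale ⟨274877906944, 0, 0, 0⟩ 47,
  .sub 1 0,
  .mul 49 49,
  .scale ⟨5727322112, 0, 0, 0⟩ 0,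
  .add 2 0,
  .mul 4 4,
  .mul 0 5,
  .mul 0 0,
  .scale ⟨900726784, 0, 0, 0⟩ 0,
  .add 4 0,
  .scale ⟨3207803699200, 0, 0, 0⟩ 62,
  .add 1 0,
  .mul 64 42,
  .scale ⟨659707396096, 0, 0, 0⟩ 0,
  .add 33 0,
  .exp 0,
  .add 4 0,
  .sub 0 74,
  .mul 76 48,
  .mul 0 40,
  .mul 24 21,
  .mul 3 0,
  .add 2 0,
  .mul 0 82,
  .scale ⟨4947802324992, 0, 0, 0⟩ 80,
  .scale ⟨91626668032, 0, 0, 0⟩ 83,
  .add 1 0,
  .mul 53 30,
  .sub 85 0,
  .inv 0,
  .mul 2 0,
  .mul 87 0,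
  .add 5 0,
  .sub 64 87,
  .const ⟨1108101562368, 0, 0, 0⟩,
  .add 1 0,
  .log 0,
  .scale ⟨549755813888, 0, 0, 0⟩ 0,
  .exp 0,
  .mul 0 98,
  .mul 0 96,
  .scale ⟨549755813888, 0, 0, 0⟩ 0,
  .const ⟨1116004679680, 0, 0, 0⟩,
  .add 1 0,
  .scale ⟨549755813888, 0, 0, 0⟩ 95,
  .mul 0 60,
  .scale ⟨2253999046656, 0, 0, 0⟩ 106,
  .add 8 0,
  .mul 2 0,
  .scale ⟨5497683968, 0, 0, 0⟩ 109,
  .add 11 0,
  .mul 0 28,
  .add 3 0,
  .mul 109 29,
  .scale ⟨1869170606080, 0, 0, 0⟩ 0,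
  .scale ⟨2418926419968, 0, 0, 0⟩ 22,
  .add 1 0,
  .mul 111 0,
  .add 5 0,
  .mul 15 0,
  .mul 0 112,
  .mul 1 112,
  .const ⟨1097095708672, 0, 0, 0⟩,
  .scale ⟨2199023255552, 0, 0, 0⟩ 1,
  .sub 1 0,
  .pos 98,
  .sub 122 3,
  .pos 0,
  .pos 1,
  .const ⟨4563402752000, 0, 0, 0⟩,
  .const ⟨3207803699200, 0, 0, 0⟩,
  .sub 1 0,
  .sub 0 9,
  .add 8 127,
  .mul 0 0,
  .sub 2 0,
  .pos 0,
  .scale ⟨10115506765824, 0, 0, 0⟩ 8,
  .sub 0 7,
  .pos 0,
  .scale ⟨989560045568, 0, 0, 0⟩ 10,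
  .scale ⟨18940000468992, 0, 0, 0⟩ 122,
  .sub 1 0,
  .pos 0,
  .const ⟨1232655613952, 0, 0, 0⟩,
  .sub 0 19,
  .pos 0,
  .scale ⟨243454181376, 0, 0, 0⟩ 14,
  .scale ⟨1124744560640, 0, 0, 0⟩ 21,
  .sub 1 0,
  .pos 0,
  .sub 140 19,
  .scale ⟨3463891124224, 0, 0, 0⟩ 0,
  .sub 0 17,
  .sub 0 26,
  .pos 0,
  .neg 33,
  .const ⟨10994319360, 0, 0, 0⟩,
  .add 1 0,
  .pos 0,
  .neg 57,
  .const ⟨21989687296, 0, 0, 0⟩,
  .add 1 0,
  .pos 0,
  .neg 52,
  .const ⟨109950533632, 0, 0, 0⟩,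
  .add 1 0,
  .pos 0,
  .mul 35 152,
  .neg 0,
  .const ⟨5496635392, 0, 0, 0⟩,
  .add 1 0,
  .pos 0,
  .neg 39,
  .const ⟨11005853696, 0, 0, 0⟩,
  .add 1 0,
  .pos 0,
  .mul 155 38,
  .scale ⟨2090604691456, 0, 0, 0⟩ 0,
  .mul 138 0,
  .neg 0,
  .exp 0,
  .scale ⟨1632087572480, 0, 0, 0⟩ 47,
  .add 0 48,
  .scale ⟨1632087572480, 0, 0, 0⟩ 48,
  .add 0 49,
  .scale ⟨549755813888, 0, 0, 0⟩ 2,
  .sub 170 0,
  .pos 0,
  .inv 0,
  .add 2 172,
  .mul 0 1,
  .mul 5 2,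
  .scale ⟨274877906944, 0, 0, 0⟩ 173,
  .add 0 176,
  .mul 2 0,
  .scale ⟨94623498240, 0, 0, 0⟩ 13,
  .mul 5 0,
  .add 153 63,
  .mul 175 0,
  .add 0 182,
  .mul 3 0,
  .add 6 0,
  .neg 0,
  .const ⟨112606576640, 0, 0, 0⟩,
  .add 1 0,
  .pos 0]

def chk2 {α : Type} (cst : Z → α) (add sub mul : α → α → α) (scale : Z → α → α)
    (neg inv exp log : α → α) (ok : α → Bool) (isPos : Nat → α → Bool) (isLt : α → Nat → Bool) :
    List α → Bool
  | [x0, x1, x2] =>
  let v0 := cst ⟨1099511627776, 0, 0, 0⟩; ok v0 && (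
  let v1 := mul x0 x0; ok v1 && (
  let v2 := mul x2 x1; ok v2 && (
  let v3 := mul x2 x2; ok v3 && (
  let v4 := mul x0 x1; ok v4 && (
  let v5 := mul v4 v4; ok v5 && (
  let v6 := mul v4 x0; ok v6 && (
  let v7 := mul x1 x1; ok v7 && (
  let v8 := neg v3; ok v8 && (
  let v9 := add v8 v0; ok v9 && (
  let v10 := mul v7 v9; ok v10 && (
  let v11 := mul v5 v1; ok v11 && (
  let v12 := cst ⟨1099243192320, 0, 0, 0⟩; ok v12 && (
  let v13 := scale ⟨3111703805952, 0, 0, 0⟩ x0; ok v13 && (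
  let v14 := sub v12 v13; ok v14 && (
  let v15 := scale ⟨32985348833280, 0, 0, 0⟩ v1; ok v15 && (
  let v16 := sub v14 v15; ok v16 && (
  let v17 := scale ⟨1556388773888, 0, 0, 0⟩ x0; ok v17 && (
  let v18 := sub v12 v17; ok v18 && (
  let v19 := scale ⟨26388279066624, 0, 0, 0⟩ v1; ok v19 && (
  let v20 := sub v18 v19; ok v20 && (
  let v21 := scale ⟨8796093022208, 0, 0, 0⟩ v1; ok v21 && (
  let v22 := sub v16 v21; ok v22 && (
  let v23 := scale ⟨11408506880000, 0, 0, 0⟩ v11; ok v23 && (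
  let v24 := sub v22 v23; ok v24 && (
  let v25 := scale ⟨3207803699200, 0, 0, 0⟩ v11; ok v25 && (
  let v26 := scale ⟨3207803699200, 0, 0, 0⟩ v25; ok v26 && (
  let v27 := add v26 v0; ok v27 && (
  let v28 := scale ⟨1232655613952, 0, 0, 0⟩ v5; ok v28 && (
  let v29 := mul v24 v28; ok v29 && (
  let v30 := neg v29; ok v30 && (
  let v31 := exp v30; ok v31 && (
  let v32 := cst ⟨2440883601408, 0, 0, 0⟩; ok v32 && (
  let v33 := sub v32 v10; ok v33 && (
  isPos 3 v33 && (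
  let v34 := cst ⟨5498631880704, 0, 0, 0⟩; ok v34 && (
  let v35 := sub v34 v2; ok v35 && (
  isPos 3 v35 && (
  let v36 := scale ⟨2576980377600, 0, 0, 0⟩ v4; ok v36 && (
  let v37 := mul v4 v27; ok v37 && (
  let v38 := mul v37 v36; ok v38 && (
  let v39 := mul x2 v6; ok v39 && (
  let v40 := scale ⟨1232655613952, 0, 0, 0⟩ v39; ok v40 && (
  let v41 := scale ⟨2199023255552, 0, 0, 0⟩ v40; ok v41 && (
  let v42 := sub v27 v41; ok v42 && (
  let v43 := scale ⟨3207803699200, 0, 0, 0⟩ v39; ok v43 && (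
  let v44 := scale ⟨2199023255552, 0, 0, 0⟩ v43; ok v44 && (
  let v45 := add v26 v44; ok v45 && (
  let v46 := scale ⟨549755813888, 0, 0, 0⟩ v45; ok v46 && (
  let v47 := add v0 v46; ok v47 && (
  let v48 := cst ⟨4398046511104, 0, 0, 0⟩; ok v48 && (
  let v49 := add v2 v48; ok v49 && (
  let v50 := inv v49; ok v50 && (
  let v51 := mul v47 v50; ok v51 && (
  let v52 := scale ⟨112608673792, 0, 0, 0⟩ v51; ok v52 && (
  let v53 := scale ⟨4398046511104, 0, 0, 0⟩ v52; ok v53 && (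
  let v54 := mul v53 x1; ok v54 && (
  let v55 := sub v0 v54; ok v55 && (
  isPos 3 v55 && (
  let v56 := inv v55; ok v56 && (
  let v57 := cst ⟨2199023255552, 0, 0, 0⟩; ok v57 && (
  let v58 := scale ⟨274877906944, 0, 0, 0⟩ v10; ok v58 && (
  let v59 := sub v57 v58; ok v59 && (
  let v60 := mul v10 v10; ok v60 && (
  let v61 := scale ⟨5727322112, 0, 0, 0⟩ v60; ok v61 && (
  let v62 := add v59 v61; ok v62 && (
  let v63 := mul v58 v58; ok v63 && (
  let v64 := mul v63 v58; ok v64 && (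
  let v65 := mul v64 v64; ok v65 && (
  let v66 := scale ⟨900726784, 0, 0, 0⟩ v65; ok v66 && (
  let v67 := add v62 v66; ok v67 && (
  let v68 := scale ⟨3207803699200, 0, 0, 0⟩ v5; ok v68 && (
  let v69 := add v67 v68; ok v69 && (
  let v70 := mul v5 v27; ok v70 && (
  let v71 := scale ⟨659707396096, 0, 0, 0⟩ v70; ok v71 && (
  let v72 := add v38 v71; ok v72 && (
  let v73 := exp v72; ok v73 && (
  let v74 := add v69 v73; ok v74 && (
  let v75 := sub v74 v0; ok v75 && (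
  let v76 := mul x0 v27; ok v76 && (
  let v77 := mul v76 v36; ok v77 && (
  let v78 := mul v53 v56; ok v78 && (
  let v79 := mul v75 v78; ok v79 && (
  let v80 := add v77 v79; ok v80 && (
  let v81 := mul v80 x1; ok v81 && (
  let v82 := scale ⟨4947802324992, 0, 0, 0⟩ v1; ok v82 && (
  let v83 := scale ⟨91626668032, 0, 0, 0⟩ x0; ok v83 && (
  let v84 := add v82 v83; ok v84 && (
  let v85 := mul v31 v54; ok v85 && (
  let v86 := sub v0 v85; ok v86 && (
  let v87 := inv v86; ok v87 && (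
  let v88 := mul v85 v87; ok v88 && (
  let v89 := mul v1 v88; ok v89 && (
  let v90 := add v84 v89; ok v90 && (
  let v91 := sub v26 v3; ok v91 && (
  let v92 := cst ⟨1108101562368, 0, 0, 0⟩; ok v92 && (
  let v93 := add v91 v92; ok v93 && (
  let v94 := log v93; ok v94 && (
  let v95 := scale ⟨549755813888, 0, 0, 0⟩ v94; ok v95 && (
  let v96 := exp v95; ok v96 && (
  let v97 := mul v96 x1; ok v97 && (
  let v98 := mul v97 v1; ok v98 && (
  let v99 := scale ⟨549755813888, 0, 0, 0⟩ v98; ok v99 && (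
  let v100 := cst ⟨1116004679680, 0, 0, 0⟩; ok v100 && (
  let v101 := add v99 v100; ok v101 && (
  let v102 := scale ⟨549755813888, 0, 0, 0⟩ v6; ok v102 && (
  let v103 := mul v102 v42; ok v103 && (
  let v104 := scale ⟨2253999046656, 0, 0, 0⟩ x2; ok v104 && (
  let v105 := add v96 v104; ok v105 && (
  let v106 := mul v103 v105; ok v106 && (
  let v107 := scale ⟨5497683968, 0, 0, 0⟩ x2; ok v107 && (
  let v108 := add v96 v107; ok v108 && (
  let v109 := mul v108 v80; ok v109 && (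
  let v110 := add v106 v109; ok v110 && (
  let v111 := mul v1 v81; ok v111 && (
  let v112 := scale ⟨1869170606080, 0, 0, 0⟩ v111; ok v112 && (
  let v113 := scale ⟨2418926419968, 0, 0, 0⟩ v90; ok v113 && (
  let v114 := add v112 v113; ok v114 && (
  let v115 := mul v3 v114; ok v115 && (
  let v116 := add v110 v115; ok v116 && (
  let v117 := mul v101 v116; ok v117 && (
  let v118 := mul v117 v5; ok v118 && (
  let v119 := mul v117 v6; ok v119 && (
  let v120 := cst ⟨1097095708672, 0, 0, 0⟩; ok v120 && (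
  let v121 := scale ⟨2199023255552, 0, 0, 0⟩ v119; ok v121 && (
  let v122 := sub v120 v121; ok v122 && (
  isPos 3 v24 && (
  let v123 := sub v0 v119; ok v123 && (
  isPos 3 v123 && (
  isPos 3 v122 && (
  let v124 := cst ⟨4563402752000, 0, 0, 0⟩; ok v124 && (
  let v125 := cst ⟨3207803699200, 0, 0, 0⟩; ok v125 && (
  let v126 := sub v124 v125; ok v126 && (
  let v127 := sub v126 v117; ok v127 && (
  let v128 := add v119 v0; ok v128 && (
  let v129 := mul v128 v128; ok v129 && (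
  let v130 := sub v127 v129; ok v130 && (
  isPos 3 v130 && (
  let v131 := scale ⟨10115506765824, 0, 0, 0⟩ v122; ok v131 && (
  let v132 := sub v131 v124; ok v132 && (
  isPos 3 v132 && (
  let v133 := scale ⟨989560045568, 0, 0, 0⟩ v122; ok v133 && (
  let v134 := scale ⟨18940000468992, 0, 0, 0⟩ v11; ok v134 && (
  let v135 := sub v133 v134; ok v135 && (
  isPos 3 v135 && (
  let v136 := cst ⟨1232655613952, 0, 0, 0⟩; ok v136 && (
  let v137 := sub v136 v117; ok v137 && (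
  isPos 3 v137 && (
  let v138 := scale ⟨243454181376, 0, 0, 0⟩ v123; ok v138 && (
  let v139 := scale ⟨1124744560640, 0, 0, 0⟩ v117; ok v139 && (
  let v140 := sub v138 v139; ok v140 && (
  isPos 3 v140 && (
  let v141 := sub v0 v121; ok v141 && (
  let v142 := scale ⟨3463891124224, 0, 0, 0⟩ v141; ok v142 && (
  let v143 := sub v142 v125; ok v143 && (
  let v144 := sub v143 v117; ok v144 && (
  isPos 3 v144 && (
  let v145 := neg v111; ok v145 && (
  let v146 := cst ⟨10994319360, 0, 0, 0⟩; ok v146 && (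
  let v147 := add v145 v146; ok v147 && (
  isPos 3 v147 && (
  let v148 := neg v90; ok v148 && (
  let v149 := cst ⟨21989687296, 0, 0, 0⟩; ok v149 && (
  let v150 := add v148 v149; ok v150 && (
  isPos 3 v150 && (
  let v151 := neg v98; ok v151 && (
  let v152 := cst ⟨109950533632, 0, 0, 0⟩; ok v152 && (
  let v153 := add v151 v152; ok v153 && (
  isPos 3 v153 && (
  let v154 := mul v118 v1; ok v154 && (
  let v155 := neg v154; ok v155 && (
  let v156 := cst ⟨5496635392, 0, 0, 0⟩; ok v156 && (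
  let v157 := add v155 v156; ok v157 && (
  isPos 3 v157 && (
  let v158 := neg v118; ok v158 && (
  let v159 := cst ⟨11005853696, 0, 0, 0⟩; ok v159 && (
  let v160 := add v158 v159; ok v160 && (
  isPos 3 v160 && (
  let v161 := mul v5 v122; ok v161 && (
  let v162 := scale ⟨2090604691456, 0, 0, 0⟩ v161; ok v162 && (
  let v163 := mul v24 v162; ok v163 && (
  let v164 := neg v163; ok v164 && (
  let v165 := exp v164; ok v165 && (
  let v166 := scale ⟨1632087572480, 0, 0, 0⟩ v118; ok v166 && (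
  let v167 := add v166 v118; ok v167 && (
  let v168 := scale ⟨1632087572480, 0, 0, 0⟩ v119; ok v168 && (
  let v169 := add v168 v119; ok v169 && (
  let v170 := scale ⟨549755813888, 0, 0, 0⟩ v167; ok v170 && (
  let v171 := sub v0 v170; ok v171 && (
  isPos 3 v171 && (
  let v172 := inv v171; ok v172 && (
  let v173 := add v170 v0; ok v173 && (
  let v174 := mul v173 v172; ok v174 && (
  let v175 := mul v169 v172; ok v175 && (
  let v176 := scale ⟨274877906944, 0, 0, 0⟩ v2; ok v176 && (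
  let v177 := add v176 v0; ok v177 && (
  let v178 := mul v175 v177; ok v178 && (
  let v179 := scale ⟨94623498240, 0, 0, 0⟩ v165; ok v179 && (
  let v180 := mul v174 v179; ok v180 && (
  let v181 := add v27 v117; ok v181 && (
  let v182 := mul v6 v181; ok v182 && (
  let v183 := add v182 v0; ok v183 && (
  let v184 := mul v180 v183; ok v184 && (
  let v185 := add v178 v184; ok v185 && (
  let v186 := neg v185; ok v186 && (
  let v187 := cst ⟨112606576640, 0, 0, 0⟩; ok v187 && (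
  let v188 := add v186 v187; ok v188 && (
  isPos 3 v188 && (
  true))))))))))))))))))))))))))))))))))))))))))))))))))))))))))))))))))))))))))))))))))))))))))))))))))))))))))))))))))))))))))))))))))))))))))))))))))))))))))))))))))))))))))))))))))))))))))))))))))))))))))))))))
  | _ => false

set_option maxRecDepth 1000000 in
theorem chk2_eq (O : Ops) (m : List O.α)
    (h : chk2 O.cst O.add O.sub O.mul O.scale O.neg O.inv O.exp O.log O.ok O.isPos O.isLt m = true) :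
    runG O 3 prog2 m = true := by
  match m, h with
  | [x0, x1, x2], h => exact h

def chkB2 : List opsE.α → Bool :=
  chk2 opsE.cst opsE.add opsE.sub opsE.mul opsE.scale opsE.neg opsE.inv opsE.exp opsE.log opsE.ok opsE.isPos opsE.isLt

theorem chkB2_eq (m : List opsE.α) (h : chkB2 m = true) : runG opsE 3 prog2 m = true :=
  chk2_eq opsE m h

def prog3 : List Op := [
  .const ⟨1099511627776, 0, 0, 0⟩,
  .mul 1 1,
  .mul 4 3,
  .mul 5 5,
  .mul 4 5,
  .mul 0 0,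
  .mul 1 6,
  .mul 8 8,
  .neg 4,
  .add 0 8,
  .mul 2 0,
  .mul 5 9,
  .const ⟨1099243192320, 0, 0, 0⟩,
  .scale ⟨3111703805952, 0, 0, 0⟩ 13,
  .sub 1 0,
  .scale ⟨32985348833280, 0, 0, 0⟩ 13,
  .sub 1 0,
  .scale ⟨1556388773888, 0, 0, 0⟩ 17,
  .sub 5 0,
  .scale ⟨26388279066624, 0, 0, 0⟩ 17,
  .sub 1 0,
  .scale ⟨8796093022208, 0, 0, 0⟩ 19,
  .sub 5 0,
  .scale ⟨11408506880000, 0, 0, 0⟩ 11,
  .sub 1 0,
  .scale ⟨3207803699200, 0, 0, 0⟩ 13,
  .scale ⟨3207803699200, 0, 0, 0⟩ 0,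
  .add 0 26,
  .scale ⟨1232655613952, 0, 0, 0⟩ 22,
  .mul 4 0,
  .neg 0,
  .exp 0,
  .const ⟨4354023096320, 0, 0, 0⟩,
  .sub 0 22,
  .pos 0,
  .const ⟨5498631880704, 0, 0, 0⟩,
  .sub 0 32,
  .pos 0,
  .scale ⟨4020089389056, 0, 0, 0⟩ 31,
  .mul 32 9,
  .mul 0 1,
  .mul 41 32,
  .scale ⟨1232655613952, 0, 0, 0⟩ 0,
  .scale ⟨2199023255552, 0, 0, 0⟩ 0,
  .sub 14 0,
  .scale ⟨3207803699200, 0, 0, 0⟩ 3,
  .scale ⟨2199023255552, 0, 0, 0⟩ 0,
  .add 18 0,
  .scale ⟨549755813888, 0, 0, 0⟩ 0,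
  .add 46 0,
  .const ⟨4398046511104, 0, 0, 0⟩,
  .add 46 0,
  .inv 0,
  .mul 3 0,
  .scale ⟨112608673792, 0, 0, 0⟩ 0,
  .scale ⟨4398046511104, 0, 0, 0⟩ 0,
  .mul 0 55,
  .sub 54 0,
  .pos 0,
  .inv 0,
  .const ⟨2199023255552, 0, 0, 0⟩,
  .scale ⟨274877906944, 0, 0, 0⟩ 47,
  .sub 1 0,
  .mul 49 49,
  .scale ⟨5727322112, 0, 0, 0⟩ 0,
  .add 2 0,
  .mul 4 4,
  .mul 0 5,
  .mul 0 0,
  .scale ⟨900726784, 0, 0, 0⟩ 0,
  .add 4 0,
  .scale ⟨3207803699200, 0, 0, 0⟩ 62,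
  .add 1 0,
  .mul 64 42,
  .scale ⟨659707396096, 0, 0, 0⟩ 0,
  .add 33 0,
  .exp 0,
  .add 4 0,
  .sub 0 74,
  .mul 76 48,
  .mul 0 40,
  .mul 24 21,
  .mul 3 0,
  .add 2 0,
  .mul 0 82,
  .scale ⟨4947802324992, 0, 0, 0⟩ 80,
  .scale ⟨91626668032, 0, 0, 0⟩ 83,
  .add 1 0,
  .mul 53 30,
  .sub 85 0,
  .inv 0,
  .mul 2 0,
  .mul 87 0,
  .add 5 0,
  .sub 64 87,
  .const ⟨1108101562368, 0, 0, 0⟩,
  .add 1 0,
  .log 0,
  .scale ⟨549755813888, 0, 0, 0⟩ 0,
  .exp 0,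
  .mul 0 98,
  .mul 0 96,
  .scale ⟨549755813888, 0, 0, 0⟩ 0,
  .const ⟨1116004679680, 0, 0, 0⟩,
  .add 1 0,
  .scale ⟨549755813888, 0, 0, 0⟩ 95,
  .mul 0 60,
  .scale ⟨2253999046656, 0, 0, 0⟩ 106,
  .add 8 0,
  .mul 2 0,
  .scale ⟨5497683968, 0, 0, 0⟩ 109,
  .add 11 0,
  .mul 0 28,
  .add 3 0,
  .mul 109 29,
  .scale ⟨1869170606080, 0, 0, 0⟩ 0,
  .scale ⟨2418926419968, 0, 0, 0⟩ 22,
  .add 1 0,
  .mul 111 0,
  .add 5 0,
  .mul 15 0,
  .mul 0 112,
  .mul 1 112,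
  .const ⟨1097095708672, 0, 0, 0⟩,
  .scale ⟨2199023255552, 0, 0, 0⟩ 1,
  .sub 1 0,
  .pos 98,
  .sub 122 3,
  .pos 0,
  .pos 1,
  .const ⟨4563402752000, 0, 0, 0⟩,
  .const ⟨3207803699200, 0, 0, 0⟩,
  .sub 1 0,
  .sub 0 9,
  .add 8 127,
  .mul 0 0,
  .sub 2 0,
  .pos 0,
  .scale ⟨10115506765824, 0, 0, 0⟩ 8,
  .sub 0 7,
  .pos 0,
  .scale ⟨989560045568, 0, 0, 0⟩ 10,
  .scale ⟨18940000468992, 0, 0, 0⟩ 122,
  .sub 1 0,
  .pos 0,
  .const ⟨1232655613952, 0, 0, 0⟩,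
  .sub 0 19,
  .pos 0,
  .scale ⟨243454181376, 0, 0, 0⟩ 14,
  .scale ⟨1124744560640, 0, 0, 0⟩ 21,
  .sub 1 0,
  .pos 0,
  .sub 140 19,
  .scale ⟨3463891124224, 0, 0, 0⟩ 0,
  .sub 0 17,
  .sub 0 26,
  .pos 0,
  .neg 33,
  .const ⟨10994319360, 0, 0, 0⟩,
  .add 1 0,
  .pos 0,
  .neg 57,
  .const ⟨21989687296, 0, 0, 0⟩,
  .add 1 0,
  .pos 0,
  .neg 52,
  .const ⟨109950533632, 0, 0, 0⟩,
  .add 1 0,
  .pos 0,
  .mul 35 152,
  .neg 0,
  .const ⟨5496635392, 0, 0, 0⟩,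
  .add 1 0,
  .pos 0,
  .neg 39,
  .const ⟨11005853696, 0, 0, 0⟩,
  .add 1 0,
  .pos 0,
  .mul 155 38,
  .scale ⟨2090604691456, 0, 0, 0⟩ 0,
  .mul 138 0,
  .neg 0,
  .exp 0,
  .scale ⟨3161095929856, 0, 0, 0⟩ 47,
  .add 0 48,
  .scale ⟨3161095929856, 0, 0, 0⟩ 48,
  .add 0 49,
  .scale ⟨549755813888, 0, 0, 0⟩ 2,
  .sub 170 0,
  .pos 0,
  .inv 0,
  .add 2 172,
  .mul 0 1,
  .mul 5 2,
  .scale ⟨274877906944, 0, 0, 0⟩ 173,
  .add 0 176,
  .mul 2 0,
  .scale ⟨94623498240, 0, 0, 0⟩ 13,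
  .mul 5 0,
  .add 153 63,
  .mul 175 0,
  .add 0 182,
  .mul 3 0,
  .add 6 0,
  .neg 0,
  .const ⟨112606576640, 0, 0, 0⟩,
  .add 1 0,
  .pos 0]

def chk3 {α : Type} (cst : Z → α) (add sub mul : α → α → α) (scale : Z → α → α)
    (neg inv exp log : α → α) (ok : α → Bool) (isPos : Nat → α → Bool) (isLt : α → Nat → Bool) :
    List α → Bool
  | [x0, x1, x2] =>
  let v0 := cst ⟨1099511627776, 0, 0, 0⟩; ok v0 && (
  let v1 := mul x0 x0; ok v1 && (
  let v2 := mul x2 x1; ok v2 && (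
  let v3 := mul x2 x2; ok v3 && (
  let v4 := mul x0 x1; ok v4 && (
  let v5 := mul v4 v4; ok v5 && (
  let v6 := mul v4 x0; ok v6 && (
  let v7 := mul x1 x1; ok v7 && (
  let v8 := neg v3; ok v8 && (
  let v9 := add v8 v0; ok v9 && (
  let v10 := mul v7 v9; ok v10 && (
  let v11 := mul v5 v1; ok v11 && (
  let v12 := cst ⟨1099243192320, 0, 0, 0⟩; ok v12 && (
  let v13 := scale ⟨3111703805952, 0, 0, 0⟩ x0; ok v13 && (
  let v14 := sub v12 v13; ok v14 && (
  let v15 := scale ⟨32985348833280, 0, 0, 0⟩ v1; ok v15 && (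
  let v16 := sub v14 v15; ok v16 && (
  let v17 := scale ⟨1556388773888, 0, 0, 0⟩ x0; ok v17 && (
  let v18 := sub v12 v17; ok v18 && (
  let v19 := scale ⟨26388279066624, 0, 0, 0⟩ v1; ok v19 && (
  let v20 := sub v18 v19; ok v20 && (
  let v21 := scale ⟨8796093022208, 0, 0, 0⟩ v1; ok v21 && (
  let v22 := sub v16 v21; ok v22 && (
  let v23 := scale ⟨11408506880000, 0, 0, 0⟩ v11; ok v23 && (
  let v24 := sub v22 v23; ok v24 && (
  let v25 := scale ⟨3207803699200, 0, 0, 0⟩ v11; ok v25 && (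
  let v26 := scale ⟨3207803699200, 0, 0, 0⟩ v25; ok v26 && (
  let v27 := add v26 v0; ok v27 && (
  let v28 := scale ⟨1232655613952, 0, 0, 0⟩ v5; ok v28 && (
  let v29 := mul v24 v28; ok v29 && (
  let v30 := neg v29; ok v30 && (
  let v31 := exp v30; ok v31 && (
  let v32 := cst ⟨4354023096320, 0, 0, 0⟩; ok v32 && (
  let v33 := sub v32 v10; ok v33 && (
  isPos 3 v33 && (
  let v34 := cst ⟨5498631880704, 0, 0, 0⟩; ok v34 && (
  let v35 := sub v34 v2; ok v35 && (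
  isPos 3 v35 && (
  let v36 := scale ⟨4020089389056, 0, 0, 0⟩ v4; ok v36 && (
  let v37 := mul v4 v27; ok v37 && (
  let v38 := mul v37 v36; ok v38 && (
  let v39 := mul x2 v6; ok v39 && (
  let v40 := scale ⟨1232655613952, 0, 0, 0⟩ v39; ok v40 && (
  let v41 := scale ⟨2199023255552, 0, 0, 0⟩ v40; ok v41 && (
  let v42 := sub v27 v41; ok v42 && (
  let v43 := scale ⟨3207803699200, 0, 0, 0⟩ v39; ok v43 && (
  let v44 := scale ⟨2199023255552, 0, 0, 0⟩ v43; ok v44 && (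
  let v45 := add v26 v44; ok v45 && (
  let v46 := scale ⟨549755813888, 0, 0, 0⟩ v45; ok v46 && (
  let v47 := add v0 v46; ok v47 && (
  let v48 := cst ⟨4398046511104, 0, 0, 0⟩; ok v48 && (
  let v49 := add v2 v48; ok v49 && (
  let v50 := inv v49; ok v50 && (
  let v51 := mul v47 v50; ok v51 && (
  let v52 := scale ⟨112608673792, 0, 0, 0⟩ v51; ok v52 && (
  let v53 := scale ⟨4398046511104, 0, 0, 0⟩ v52; ok v53 && (
  let v54 := mul v53 x1; ok v54 && (
  let v55 := sub v0 v54; ok v55 && (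
  isPos 3 v55 && (
  let v56 := inv v55; ok v56 && (
  let v57 := cst ⟨2199023255552, 0, 0, 0⟩; ok v57 && (
  let v58 := scale ⟨274877906944, 0, 0, 0⟩ v10; ok v58 && (
  let v59 := sub v57 v58; ok v59 && (
  let v60 := mul v10 v10; ok v60 && (
  let v61 := scale ⟨5727322112, 0, 0, 0⟩ v60; ok v61 && (
  let v62 := add v59 v61; ok v62 && (
  let v63 := mul v58 v58; ok v63 && (
  let v64 := mul v63 v58; ok v64 && (
  let v65 := mul v64 v64; ok v65 && (
  let v66 := scale ⟨900726784, 0, 0, 0⟩ v65; ok v66 && (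
  let v67 := add v62 v66; ok v67 && (
  let v68 := scale ⟨3207803699200, 0, 0, 0⟩ v5; ok v68 && (
  let v69 := add v67 v68; ok v69 && (
  let v70 := mul v5 v27; ok v70 && (
  let v71 := scale ⟨659707396096, 0, 0, 0⟩ v70; ok v71 && (
  let v72 := add v38 v71; ok v72 && (
  let v73 := exp v72; ok v73 && (
  let v74 := add v69 v73; ok v74 && (
  let v75 := sub v74 v0; ok v75 && (
  let v76 := mul x0 v27; ok v76 && (
  let v77 := mul v76 v36; ok v77 && (
  let v78 := mul v53 v56; ok v78 && (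
  let v79 := mul v75 v78; ok v79 && (
  let v80 := add v77 v79; ok v80 && (
  let v81 := mul v80 x1; ok v81 && (
  let v82 := scale ⟨4947802324992, 0, 0, 0⟩ v1; ok v82 && (
  let v83 := scale ⟨91626668032, 0, 0, 0⟩ x0; ok v83 && (
  let v84 := add v82 v83; ok v84 && (
  let v85 := mul v31 v54; ok v85 && (
  let v86 := sub v0 v85; ok v86 && (
  let v87 := inv v86; ok v87 && (
  let v88 := mul v85 v87; ok v88 && (
  let v89 := mul v1 v88; ok v89 && (
  let v90 := add v84 v89; ok v90 && (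
  let v91 := sub v26 v3; ok v91 && (
  let v92 := cst ⟨1108101562368, 0, 0, 0⟩; ok v92 && (
  let v93 := add v91 v92; ok v93 && (
  let v94 := log v93; ok v94 && (
  let v95 := scale ⟨549755813888, 0, 0, 0⟩ v94; ok v95 && (
  let v96 := exp v95; ok v96 && (
  let v97 := mul v96 x1; ok v97 && (
  let v98 := mul v97 v1; ok v98 && (
  let v99 := scale ⟨549755813888, 0, 0, 0⟩ v98; ok v99 && (
  let v100 := cst ⟨1116004679680, 0, 0, 0⟩; ok v100 && (
  let v101 := add v99 v100; ok v101 && (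
  let v102 := scale ⟨549755813888, 0, 0, 0⟩ v6; ok v102 && (
  let v103 := mul v102 v42; ok v103 && (
  let v104 := scale ⟨2253999046656, 0, 0, 0⟩ x2; ok v104 && (
  let v105 := add v96 v104; ok v105 && (
  let v106 := mul v103 v105; ok v106 && (
  let v107 := scale ⟨5497683968, 0, 0, 0⟩ x2; ok v107 && (
  let v108 := add v96 v107; ok v108 && (
  let v109 := mul v108 v80; ok v109 && (
  let v110 := add v106 v109; ok v110 && (
  let v111 := mul v1 v81; ok v111 && (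
  let v112 := scale ⟨1869170606080, 0, 0, 0⟩ v111; ok v112 && (
  let v113 := scale ⟨2418926419968, 0, 0, 0⟩ v90; ok v113 && (
  let v114 := add v112 v113; ok v114 && (
  let v115 := mul v3 v114; ok v115 && (
  let v116 := add v110 v115; ok v116 && (
  let v117 := mul v101 v116; ok v117 && (
  let v118 := mul v117 v5; ok v118 && (
  let v119 := mul v117 v6; ok v119 && (
  let v120 := cst ⟨1097095708672, 0, 0, 0⟩; ok v120 && (
  let v121 := scale ⟨2199023255552, 0, 0, 0⟩ v119; ok v121 && (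
  let v122 := sub v120 v121; ok v122 && (
  isPos 3 v24 && (
  let v123 := sub v0 v119; ok v123 && (
  isPos 3 v123 && (
  isPos 3 v122 && (
  let v124 := cst ⟨4563402752000, 0, 0, 0⟩; ok v124 && (
  let v125 := cst ⟨3207803699200, 0, 0, 0⟩; ok v125 && (
  let v126 := sub v124 v125; ok v126 && (
  let v127 := sub v126 v117; ok v127 && (
  let v128 := add v119 v0; ok v128 && (
  let v129 := mul v128 v128; ok v129 && (
  let v130 := sub v127 v129; ok v130 && (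
  isPos 3 v130 && (
  let v131 := scale ⟨10115506765824, 0, 0, 0⟩ v122; ok v131 && (
  let v132 := sub v131 v124; ok v132 && (
  isPos 3 v132 && (
  let v133 := scale ⟨989560045568, 0, 0, 0⟩ v122; ok v133 && (
  let v134 := scale ⟨18940000468992, 0, 0, 0⟩ v11; ok v134 && (
  let v135 := sub v133 v134; ok v135 && (
  isPos 3 v135 && (
  let v136 := cst ⟨1232655613952, 0, 0, 0⟩; ok v136 && (
  let v137 := sub v136 v117; ok v137 && (
  isPos 3 v137 && (
  let v138 := scale ⟨243454181376, 0, 0, 0⟩ v123; ok v138 && (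
  let v139 := scale ⟨1124744560640, 0, 0, 0⟩ v117; ok v139 && (
  let v140 := sub v138 v139; ok v140 && (
  isPos 3 v140 && (
  let v141 := sub v0 v121; ok v141 && (
  let v142 := scale ⟨3463891124224, 0, 0, 0⟩ v141; ok v142 && (
  let v143 := sub v142 v125; ok v143 && (
  let v144 := sub v143 v117; ok v144 && (
  isPos 3 v144 && (
  let v145 := neg v111; ok v145 && (
  let v146 := cst ⟨10994319360, 0, 0, 0⟩; ok v146 && (
  let v147 := add v145 v146; ok v147 && (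
  isPos 3 v147 && (
  let v148 := neg v90; ok v148 && (
  let v149 := cst ⟨21989687296, 0, 0, 0⟩; ok v149 && (
  let v150 := add v148 v149; ok v150 && (
  isPos 3 v150 && (
  let v151 := neg v98; ok v151 && (
  let v152 := cst ⟨109950533632, 0, 0, 0⟩; ok v152 && (
  let v153 := add v151 v152; ok v153 && (
  isPos 3 v153 && (
  let v154 := mul v118 v1; ok v154 && (
  let v155 := neg v154; ok v155 && (
  let v156 := cst ⟨5496635392, 0, 0, 0⟩; ok v156 && (
  let v157 := add v155 v156; ok v157 && (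
  isPos 3 v157 && (
  let v158 := neg v118; ok v158 && (
  let v159 := cst ⟨11005853696, 0, 0, 0⟩; ok v159 && (
  let v160 := add v158 v159; ok v160 && (
  isPos 3 v160 && (
  let v161 := mul v5 v122; ok v161 && (
  let v162 := scale ⟨2090604691456, 0, 0, 0⟩ v161; ok v162 && (
  let v163 := mul v24 v162; ok v163 && (
  let v164 := neg v163; ok v164 && (
  let v165 := exp v164; ok v165 && (
  let v166 := scale ⟨3161095929856, 0, 0, 0⟩ v118; ok v166 && (
  let v167 := add v166 v118; ok v167 && (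
  let v168 := scale ⟨3161095929856, 0, 0, 0⟩ v119; ok v168 && (
  let v169 := add v168 v119; ok v169 && (
  let v170 := scale ⟨549755813888, 0, 0, 0⟩ v167; ok v170 && (
  let v171 := sub v0 v170; ok v171 && (
  isPos 3 v171 && (
  let v172 := inv v171; ok v172 && (
  let v173 := add v170 v0; ok v173 && (
  let v174 := mul v173 v172; ok v174 && (
  let v175 := mul v169 v172; ok v175 && (
  let v176 := scale ⟨274877906944, 0, 0, 0⟩ v2; ok v176 && (
  let v177 := add v176 v0; ok v177 && (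
  let v178 := mul v175 v177; ok v178 && (
  let v179 := scale ⟨94623498240, 0, 0, 0⟩ v165; ok v179 && (
  let v180 := mul v174 v179; ok v180 && (
  let v181 := add v27 v117; ok v181 && (
  let v182 := mul v6 v181; ok v182 && (
  let v183 := add v182 v0; ok v183 && (
  let v184 := mul v180 v183; ok v184 && (
  let v185 := add v178 v184; ok v185 && (
  let v186 := neg v185; ok v186 && (
  let v187 := cst ⟨112606576640, 0, 0, 0⟩; ok v187 && (
  let v188 := add v186 v187; ok v188 && (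
  isPos 3 v188 && (
  true))))))))))))))))))))))))))))))))))))))))))))))))))))))))))))))))))))))))))))))))))))))))))))))))))))))))))))))))))))))))))))))))))))))))))))))))))))))))))))))))))))))))))))))))))))))))))))))))))))))))))))))))
  | _ => false

set_option maxRecDepth 1000000 in
theorem chk3_eq (O : Ops) (m : List O.α)
    (h : chk3 O.cst O.add O.sub O.mul O.scale O.neg O.inv O.exp O.log O.ok O.isPos O.isLt m = true) :
    runG O 3 prog3 m = true := by
  match m, h with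
  | [x0, x1, x2], h => exact h

def chkB3 : List opsE.α → Bool :=
  chk3 opsE.cst opsE.add opsE.sub opsE.mul opsE.scale opsE.neg opsE.inv opsE.exp opsE.log opsE.ok opsE.isPos opsE.isLt

theorem chkB3_eq (m : List opsE.α) (h : chkB3 m = true) : runG opsE 3 prog3 m = true :=
  chk3_eq opsE m h

def prog4 : List Op := [
  .const ⟨1099511627776, 0, 0, 0⟩,
  .mul 1 1,
  .mul 4 3,
  .mul 5 5,
  .mul 4 5,
  .mul 0 0,
  .mul 1 6,
  .mul 8 8,
  .neg 4,
  .add 0 8,
  .mul 2 0,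
  .mul 5 9,
  .const ⟨1099243192320, 0, 0, 0⟩,
  .scale ⟨3111703805952, 0, 0, 0⟩ 13,
  .sub 1 0,
  .scale ⟨32985348833280, 0, 0, 0⟩ 13,
  .sub 1 0,
  .scale ⟨1556388773888, 0, 0, 0⟩ 17,
  .sub 5 0,
  .scale ⟨26388279066624, 0, 0, 0⟩ 17,
  .sub 1 0,
  .scale ⟨8796093022208, 0, 0, 0⟩ 19,
  .sub 5 0,
  .scale ⟨11408506880000, 0, 0, 0⟩ 11,
  .sub 1 0,
  .scale ⟨3207803699200, 0, 0, 0⟩ 13,
  .scale ⟨3207803699200, 0, 0, 0⟩ 0,
  .add 0 26,
  .scale ⟨1232655613952, 0, 0, 0⟩ 22,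
  .mul 4 0,
  .neg 0,
  .exp 0,
  .const ⟨5516617056256, 0, 0, 0⟩,
  .sub 0 22,
  .pos 0,
  .const ⟨5498631880704, 0, 0, 0⟩,
  .sub 0 32,
  .pos 0,
  .scale ⟨5875515260928, 0, 0, 0⟩ 31,
  .mul 32 9,
  .mul 0 1,
  .mul 41 32,
  .scale ⟨1232655613952, 0, 0, 0⟩ 0,
  .scale ⟨2199023255552, 0, 0, 0⟩ 0,
  .sub 14 0,
  .scale ⟨3207803699200, 0, 0, 0⟩ 3,
  .scale ⟨2199023255552, 0, 0, 0⟩ 0,
  .add 18 0,
  .scale ⟨549755813888, 0, 0, 0⟩ 0,
  .add 46 0,
  .const ⟨4398046511104, 0, 0, 0⟩,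
  .add 46 0,
  .inv 0,
  .mul 3 0,
  .scale ⟨112608673792, 0, 0, 0⟩ 0,
  .scale ⟨4398046511104, 0, 0, 0⟩ 0,
  .mul 0 55,
  .sub 54 0,
  .pos 0,
  .inv 0,
  .const ⟨2199023255552, 0, 0, 0⟩,
  .scale ⟨274877906944, 0, 0, 0⟩ 47,
  .sub 1 0,
  .mul 49 49,
  .scale ⟨5727322112, 0, 0, 0⟩ 0,
  .add 2 0,
  .mul 4 4,
  .mul 0 5,
  .mul 0 0,
  .scale ⟨900726784, 0, 0, 0⟩ 0,
  .add 4 0,
  .scale ⟨3207803699200, 0, 0, 0⟩ 62,
  .add 1 0,
  .mul 64 42,
  .scale ⟨659707396096, 0, 0, 0⟩ 0,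
  .add 33 0,
  .exp 0,
  .add 4 0,
  .sub 0 74,
  .mul 76 48,
  .mul 0 40,
  .mul 24 21,
  .mul 3 0,
  .add 2 0,
  .mul 0 82,
  .scale ⟨4947802324992, 0, 0, 0⟩ 80,
  .scale ⟨91626668032, 0, 0, 0⟩ 83,
  .add 1 0,
  .mul 53 30,
  .sub 85 0,
  .inv 0,
  .mul 2 0,
  .mul 87 0,
  .add 5 0,
  .sub 64 87,
  .const ⟨1108101562368, 0, 0, 0⟩,
  .add 1 0,
  .log 0,
  .scale ⟨549755813888, 0, 0, 0⟩ 0,
  .exp 0,
  .mul 0 98,
  .mul 0 96,
  .scale ⟨549755813888, 0, 0, 0⟩ 0,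
  .const ⟨1116004679680, 0, 0, 0⟩,
  .add 1 0,
  .scale ⟨549755813888, 0, 0, 0⟩ 95,
  .mul 0 60,
  .scale ⟨2253999046656, 0, 0, 0⟩ 106,
  .add 8 0,
  .mul 2 0,
  .scale ⟨5497683968, 0, 0, 0⟩ 109,
  .add 11 0,
  .mul 0 28,
  .add 3 0,
  .mul 109 29,
  .scale ⟨1869170606080, 0, 0, 0⟩ 0,
  .scale ⟨2418926419968, 0, 0, 0⟩ 22,
  .add 1 0,
  .mul 111 0,
  .add 5 0,
  .mul 15 0,
  .mul 0 112,
  .mul 1 112,
  .const ⟨1097095708672, 0, 0, 0⟩,
  .scale ⟨2199023255552, 0, 0, 0⟩ 1,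
  .sub 1 0,
  .pos 98,
  .sub 122 3,
  .pos 0,
  .pos 1,
  .const ⟨4563402752000, 0, 0, 0⟩,
  .const ⟨3207803699200, 0, 0, 0⟩,
  .sub 1 0,
  .sub 0 9,
  .add 8 127,
  .mul 0 0,
  .sub 2 0,
  .pos 0,
  .scale ⟨10115506765824, 0, 0, 0⟩ 8,
  .sub 0 7,
  .pos 0,
  .scale ⟨989560045568, 0, 0, 0⟩ 10,
  .scale ⟨18940000468992, 0, 0, 0⟩ 122,
  .sub 1 0,
  .pos 0,
  .const ⟨1232655613952, 0, 0, 0⟩,
  .sub 0 19,
  .pos 0,
  .scale ⟨243454181376, 0, 0, 0⟩ 14,
  .scale ⟨1124744560640, 0, 0, 0⟩ 21,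
  .sub 1 0,
  .pos 0,
  .sub 140 19,
  .scale ⟨3463891124224, 0, 0, 0⟩ 0,
  .sub 0 17,
  .sub 0 26,
  .pos 0,
  .neg 33,
  .const ⟨10994319360, 0, 0, 0⟩,
  .add 1 0,
  .pos 0,
  .neg 57,
  .const ⟨21989687296, 0, 0, 0⟩,
  .add 1 0,
  .pos 0,
  .neg 52,
  .const ⟨109950533632, 0, 0, 0⟩,
  .add 1 0,
  .pos 0,
  .mul 35 152,
  .neg 0,
  .const ⟨5496635392, 0, 0, 0⟩,
  .add 1 0,
  .pos 0,
  .neg 39,
  .const ⟨11005853696, 0, 0, 0⟩,
  .add 1 0,
  .pos 0,
  .mul 155 38,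
  .scale ⟨2090604691456, 0, 0, 0⟩ 0,
  .mul 138 0,
  .neg 0,
  .exp 0,
  .scale ⟨4913442586624, 0, 0, 0⟩ 47,
  .add 0 48,
  .scale ⟨4913442586624, 0, 0, 0⟩ 48,
  .add 0 49,
  .scale ⟨549755813888, 0, 0, 0⟩ 2,
  .sub 170 0,
  .pos 0,
  .inv 0,
  .add 2 172,
  .mul 0 1,
  .mul 5 2,
  .scale ⟨274877906944, 0, 0, 0⟩ 173,
  .add 0 176,
  .mul 2 0,
  .scale ⟨94623498240, 0, 0, 0⟩ 13,
  .mul 5 0,
  .add 153 63,
  .mul 175 0,
  .add 0 182,
  .mul 3 0,
  .add 6 0,
  .neg 0,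
  .const ⟨112606576640, 0, 0, 0⟩,
  .add 1 0,
  .pos 0]

def chk4 {α : Type} (cst : Z → α) (add sub mul : α → α → α) (scale : Z → α → α)
    (neg inv exp log : α → α) (ok : α → Bool) (isPos : Nat → α → Bool) (isLt : α → Nat → Bool) :
    List α → Bool
  | [x0, x1, x2] =>
  let v0 := cst ⟨1099511627776, 0, 0, 0⟩; ok v0 && (
  let v1 := mul x0 x0; ok v1 && (
  let v2 := mul x2 x1; ok v2 && (
  let v3 := mul x2 x2; ok v3 && (
  let v4 := mul x0 x1; ok v4 && (
  let v5 := mul v4 v4; ok v5 && (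
  let v6 := mul v4 x0; ok v6 && (
  let v7 := mul x1 x1; ok v7 && (
  let v8 := neg v3; ok v8 && (
  let v9 := add v8 v0; ok v9 && (
  let v10 := mul v7 v9; ok v10 && (
  let v11 := mul v5 v1; ok v11 && (
  let v12 := cst ⟨1099243192320, 0, 0, 0⟩; ok v12 && (
  let v13 := scale ⟨3111703805952, 0, 0, 0⟩ x0; ok v13 && (
  let v14 := sub v12 v13; ok v14 && (
  let v15 := scale ⟨32985348833280, 0, 0, 0⟩ v1; ok v15 && (
  let v16 := sub v14 v15; ok v16 && (
  let v17 := scale ⟨1556388773888, 0, 0, 0⟩ x0; ok v17 && (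
  let v18 := sub v12 v17; ok v18 && (
  let v19 := scale ⟨26388279066624, 0, 0, 0⟩ v1; ok v19 && (
  let v20 := sub v18 v19; ok v20 && (
  let v21 := scale ⟨8796093022208, 0, 0, 0⟩ v1; ok v21 && (
  let v22 := sub v16 v21; ok v22 && (
  let v23 := scale ⟨11408506880000, 0, 0, 0⟩ v11; ok v23 && (
  let v24 := sub v22 v23; ok v24 && (
  let v25 := scale ⟨3207803699200, 0, 0, 0⟩ v11; ok v25 && (
  let v26 := scale ⟨3207803699200, 0, 0, 0⟩ v25; ok v26 && (
  let v27 := add v26 v0; ok v27 && (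
  let v28 := scale ⟨1232655613952, 0, 0, 0⟩ v5; ok v28 && (
  let v29 := mul v24 v28; ok v29 && (
  let v30 := neg v29; ok v30 && (
  let v31 := exp v30; ok v31 && (
  let v32 := cst ⟨5516617056256, 0, 0, 0⟩; ok v32 && (
  let v33 := sub v32 v10; ok v33 && (
  isPos 3 v33 && (
  let v34 := cst ⟨5498631880704, 0, 0, 0⟩; ok v34 && (
  let v35 := sub v34 v2; ok v35 && (
  isPos 3 v35 && (
  let v36 := scale ⟨5875515260928, 0, 0, 0⟩ v4; ok v36 && (
  let v37 := mul v4 v27; ok v37 && (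
  let v38 := mul v37 v36; ok v38 && (
  let v39 := mul x2 v6; ok v39 && (
  let v40 := scale ⟨1232655613952, 0, 0, 0⟩ v39; ok v40 && (
  let v41 := scale ⟨2199023255552, 0, 0, 0⟩ v40; ok v41 && (
  let v42 := sub v27 v41; ok v42 && (
  let v43 := scale ⟨3207803699200, 0, 0, 0⟩ v39; ok v43 && (
  let v44 := scale ⟨2199023255552, 0, 0, 0⟩ v43; ok v44 && (
  let v45 := add v26 v44; ok v45 && (
  let v46 := scale ⟨549755813888, 0, 0, 0⟩ v45; ok v46 && (
  let v47 := add v0 v46; ok v47 && (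
  let v48 := cst ⟨4398046511104, 0, 0, 0⟩; ok v48 && (
  let v49 := add v2 v48; ok v49 && (
  let v50 := inv v49; ok v50 && (
  let v51 := mul v47 v50; ok v51 && (
  let v52 := scale ⟨112608673792, 0, 0, 0⟩ v51; ok v52 && (
  let v53 := scale ⟨4398046511104, 0, 0, 0⟩ v52; ok v53 && (
  let v54 := mul v53 x1; ok v54 && (
  let v55 := sub v0 v54; ok v55 && (
  isPos 3 v55 && (
  let v56 := inv v55; ok v56 && (
  let v57 := cst ⟨2199023255552, 0, 0, 0⟩; ok v57 && (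
  let v58 := scale ⟨274877906944, 0, 0, 0⟩ v10; ok v58 && (
  let v59 := sub v57 v58; ok v59 && (
  let v60 := mul v10 v10; ok v60 && (
  let v61 := scale ⟨5727322112, 0, 0, 0⟩ v60; ok v61 && (
  let v62 := add v59 v61; ok v62 && (
  let v63 := mul v58 v58; ok v63 && (
  let v64 := mul v63 v58; ok v64 && (
  let v65 := mul v64 v64; ok v65 && (
  let v66 := scale ⟨900726784, 0, 0, 0⟩ v65; ok v66 && (
  let v67 := add v62 v66; ok v67 && (
  let v68 := scale ⟨3207803699200, 0, 0, 0⟩ v5; ok v68 && (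
  let v69 := add v67 v68; ok v69 && (
  let v70 := mul v5 v27; ok v70 && (
  let v71 := scale ⟨659707396096, 0, 0, 0⟩ v70; ok v71 && (
  let v72 := add v38 v71; ok v72 && (
  let v73 := exp v72; ok v73 && (
  let v74 := add v69 v73; ok v74 && (
  let v75 := sub v74 v0; ok v75 && (
  let v76 := mul x0 v27; ok v76 && (
  let v77 := mul v76 v36; ok v77 && (
  let v78 := mul v53 v56; ok v78 && (
  let v79 := mul v75 v78; ok v79 && (
  let v80 := add v77 v79; ok v80 && (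
  let v81 := mul v80 x1; ok v81 && (
  let v82 := scale ⟨4947802324992, 0, 0, 0⟩ v1; ok v82 && (
  let v83 := scale ⟨91626668032, 0, 0, 0⟩ x0; ok v83 && (
  let v84 := add v82 v83; ok v84 && (
  let v85 := mul v31 v54; ok v85 && (
  let v86 := sub v0 v85; ok v86 && (
  let v87 := inv v86; ok v87 && (
  let v88 := mul v85 v87; ok v88 && (
  let v89 := mul v1 v88; ok v89 && (
  let v90 := add v84 v89; ok v90 && (
  let v91 := sub v26 v3; ok v91 && (
  let v92 := cst ⟨1108101562368, 0, 0, 0⟩; ok v92 && (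
  let v93 := add v91 v92; ok v93 && (
  let v94 := log v93; ok v94 && (
  let v95 := scale ⟨549755813888, 0, 0, 0⟩ v94; ok v95 && (
  let v96 := exp v95; ok v96 && (
  let v97 := mul v96 x1; ok v97 && (
  let v98 := mul v97 v1; ok v98 && (
  let v99 := scale ⟨549755813888, 0, 0, 0⟩ v98; ok v99 && (
  let v100 := cst ⟨1116004679680, 0, 0, 0⟩; ok v100 && (
  let v101 := add v99 v100; ok v101 && (
  let v102 := scale ⟨549755813888, 0, 0, 0⟩ v6; ok v102 && (
  let v103 := mul v102 v42; ok v103 && (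
  let v104 := scale ⟨2253999046656, 0, 0, 0⟩ x2; ok v104 && (
  let v105 := add v96 v104; ok v105 && (
  let v106 := mul v103 v105; ok v106 && (
  let v107 := scale ⟨5497683968, 0, 0, 0⟩ x2; ok v107 && (
  let v108 := add v96 v107; ok v108 && (
  let v109 := mul v108 v80; ok v109 && (
  let v110 := add v106 v109; ok v110 && (
  let v111 := mul v1 v81; ok v111 && (
  let v112 := scale ⟨1869170606080, 0, 0, 0⟩ v111; ok v112 && (
  let v113 := scale ⟨2418926419968, 0, 0, 0⟩ v90; ok v113 && (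
  let v114 := add v112 v113; ok v114 && (
  let v115 := mul v3 v114; ok v115 && (
  let v116 := add v110 v115; ok v116 && (
  let v117 := mul v101 v116; ok v117 && (
  let v118 := mul v117 v5; ok v118 && (
  let v119 := mul v117 v6; ok v119 && (
  let v120 := cst ⟨1097095708672, 0, 0, 0⟩; ok v120 && (
  let v121 := scale ⟨2199023255552, 0, 0, 0⟩ v119; ok v121 && (
  let v122 := sub v120 v121; ok v122 && (
  isPos 3 v24 && (
  let v123 := sub v0 v119; ok v123 && (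
  isPos 3 v123 && (
  isPos 3 v122 && (
  let v124 := cst ⟨4563402752000, 0, 0, 0⟩; ok v124 && (
  let v125 := cst ⟨3207803699200, 0, 0, 0⟩; ok v125 && (
  let v126 := sub v124 v125; ok v126 && (
  let v127 := sub v126 v117; ok v127 && (
  let v128 := add v119 v0; ok v128 && (
  let v129 := mul v128 v128; ok v129 && (
  let v130 := sub v127 v129; ok v130 && (
  isPos 3 v130 && (
  let v131 := scale ⟨10115506765824, 0, 0, 0⟩ v122; ok v131 && (
  let v132 := sub v131 v124; ok v132 && (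
  isPos 3 v132 && (
  let v133 := scale ⟨989560045568, 0, 0, 0⟩ v122; ok v133 && (
  let v134 := scale ⟨18940000468992, 0, 0, 0⟩ v11; ok v134 && (
  let v135 := sub v133 v134; ok v135 && (
  isPos 3 v135 && (
  let v136 := cst ⟨1232655613952, 0, 0, 0⟩; ok v136 && (
  let v137 := sub v136 v117; ok v137 && (
  isPos 3 v137 && (
  let v138 := scale ⟨243454181376, 0, 0, 0⟩ v123; ok v138 && (
  let v139 := scale ⟨1124744560640, 0, 0, 0⟩ v117; ok v139 && (
  let v140 := sub v138 v139; ok v140 && (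
  isPos 3 v140 && (
  let v141 := sub v0 v121; ok v141 && (
  let v142 := scale ⟨3463891124224, 0, 0, 0⟩ v141; ok v142 && (
  let v143 := sub v142 v125; ok v143 && (
  let v144 := sub v143 v117; ok v144 && (
  isPos 3 v144 && (
  let v145 := neg v111; ok v145 && (
  let v146 := cst ⟨10994319360, 0, 0, 0⟩; ok v146 && (
  let v147 := add v145 v146; ok v147 && (
  isPos 3 v147 && (
  let v148 := neg v90; ok v148 && (
  let v149 := cst ⟨21989687296, 0, 0, 0⟩; ok v149 && (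
  let v150 := add v148 v149; ok v150 && (
  isPos 3 v150 && (
  let v151 := neg v98; ok v151 && (
  let v152 := cst ⟨109950533632, 0, 0, 0⟩; ok v152 && (
  let v153 := add v151 v152; ok v153 && (
  isPos 3 v153 && (
  let v154 := mul v118 v1; ok v154 && (
  let v155 := neg v154; ok v155 && (
  let v156 := cst ⟨5496635392, 0, 0, 0⟩; ok v156 && (
  let v157 := add v155 v156; ok v157 && (
  isPos 3 v157 && (
  let v158 := neg v118; ok v158 && (
  let v159 := cst ⟨11005853696, 0, 0, 0⟩; ok v159 && (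
  let v160 := add v158 v159; ok v160 && (
  isPos 3 v160 && (
  let v161 := mul v5 v122; ok v161 && (
  let v162 := scale ⟨2090604691456, 0, 0, 0⟩ v161; ok v162 && (
  let v163 := mul v24 v162; ok v163 && (
  let v164 := neg v163; ok v164 && (
  let v165 := exp v164; ok v165 && (
  let v166 := scale ⟨4913442586624, 0, 0, 0⟩ v118; ok v166 && (
  let v167 := add v166 v118; ok v167 && (
  let v168 := scale ⟨4913442586624, 0, 0, 0⟩ v119; ok v168 && (
  let v169 := add v168 v119; ok v169 && (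
  let v170 := scale ⟨549755813888, 0, 0, 0⟩ v167; ok v170 && (
  let v171 := sub v0 v170; ok v171 && (
  isPos 3 v171 && (
  let v172 := inv v171; ok v172 && (
  let v173 := add v170 v0; ok v173 && (
  let v174 := mul v173 v172; ok v174 && (
  let v175 := mul v169 v172; ok v175 && (
  let v176 := scale ⟨274877906944, 0, 0, 0⟩ v2; ok v176 && (
  let v177 := add v176 v0; ok v177 && (
  let v178 := mul v175 v177; ok v178 && (
  let v179 := scale ⟨94623498240, 0, 0, 0⟩ v165; ok v179 && (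
  let v180 := mul v174 v179; ok v180 && (
  let v181 := add v27 v117; ok v181 && (
  let v182 := mul v6 v181; ok v182 && (
  let v183 := add v182 v0; ok v183 && (
  let v184 := mul v180 v183; ok v184 && (
  let v185 := add v178 v184; ok v185 && (
  let v186 := neg v185; ok v186 && (
  let v187 := cst ⟨112606576640, 0, 0, 0⟩; ok v187 && (
  let v188 := add v186 v187; ok v188 && (
  isPos 3 v188 && (
  true))))))))))))))))))))))))))))))))))))))))))))))))))))))))))))))))))))))))))))))))))))))))))))))))))))))))))))))))))))))))))))))))))))))))))))))))))))))))))))))))))))))))))))))))))))))))))))))))))))))))))))))))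
  | _ => false

set_option maxRecDepth 1000000 in
theorem chk4_eq (O : Ops) (m : List O.α)
    (h : chk4 O.cst O.add O.sub O.mul O.scale O.neg O.inv O.exp O.log O.ok O.isPos O.isLt m = true) :
    runG O 3 prog4 m = true := by
  match m, h with
  | [x0, x1, x2], h => exact h

def chkB4 : List opsE.α → Bool :=
  chk4 opsE.cst opsE.add opsE.sub opsE.mul opsE.scale opsE.neg opsE.inv opsE.exp opsE.log opsE.ok opsE.isPos opsE.isLt

theorem chkB4_eq (m : List opsE.α) (h : chkB4 m = true) : runG opsE 3 prog4 m = true :=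
  chk4_eq opsE m h

def prog5 : List Op := [
  .const ⟨1099511627776, 0, 0, 0⟩,
  .mul 1 1,
  .mul 4 3,
  .mul 5 5,
  .mul 4 5,
  .mul 0 0,
  .mul 1 6,
  .mul 8 8,
  .neg 4,
  .add 0 8,
  .mul 2 0,
  .mul 5 9,
  .const ⟨1099243192320, 0, 0, 0⟩,
  .scale ⟨3111703805952, 0, 0, 0⟩ 13,
  .sub 1 0,
  .scale ⟨32985348833280, 0, 0, 0⟩ 13,
  .sub 1 0,
  .scale ⟨1556388773888, 0, 0, 0⟩ 17,
  .sub 5 0,
  .scale ⟨26388279066624, 0, 0, 0⟩ 17,
  .sub 1 0,
  .scale ⟨8796093022208, 0, 0, 0⟩ 19,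
  .sub 5 0,
  .scale ⟨11408506880000, 0, 0, 0⟩ 11,
  .sub 1 0,
  .scale ⟨3207803699200, 0, 0, 0⟩ 13,
  .scale ⟨3207803699200, 0, 0, 0⟩ 0,
  .add 0 26,
  .scale ⟨1232655613952, 0, 0, 0⟩ 22,
  .mul 4 0,
  .neg 0,
  .exp 0,
  .const ⟨5516617056256, 0, 0, 0⟩,
  .sub 0 22,
  .pos 0,
  .const ⟨2748779069440, 0, 0, 0⟩,
  .sub 0 32,
  .pos 0,
  .scale ⟨4861902979072, 0, 0, 0⟩ 31,
  .mul 32 9,
  .mul 0 1,
  .mul 41 32,
  .scale ⟨1232655613952, 0, 0, 0⟩ 0,
  .scale ⟨2199023255552, 0, 0, 0⟩ 0,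
  .sub 14 0,
  .scale ⟨3207803699200, 0, 0, 0⟩ 3,
  .scale ⟨2199023255552, 0, 0, 0⟩ 0,
  .add 18 0,
  .scale ⟨549755813888, 0, 0, 0⟩ 0,
  .add 46 0,
  .const ⟨4398046511104, 0, 0, 0⟩,
  .add 46 0,
  .inv 0,
  .mul 3 0,
  .scale ⟨112608673792, 0, 0, 0⟩ 0,
  .scale ⟨4398046511104, 0, 0, 0⟩ 0,
  .mul 0 55,
  .sub 54 0,
  .pos 0,
  .inv 0,
  .const ⟨2199023255552, 0, 0, 0⟩,
  .scale ⟨274877906944, 0, 0, 0⟩ 47,
  .sub 1 0,
  .mul 49 49,
  .scale ⟨5727322112, 0, 0, 0⟩ 0,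
  .add 2 0,
  .mul 4 4,
  .mul 0 5,
  .mul 0 0,
  .scale ⟨900726784, 0, 0, 0⟩ 0,
  .add 4 0,
  .scale ⟨3207803699200, 0, 0, 0⟩ 62,
  .add 1 0,
  .mul 64 42,
  .scale ⟨659707396096, 0, 0, 0⟩ 0,
  .add 33 0,
  .exp 0,
  .add 4 0,
  .sub 0 74,
  .mul 76 48,
  .mul 0 40,
  .mul 24 21,
  .mul 3 0,
  .add 2 0,
  .mul 0 82,
  .scale ⟨4947802324992, 0, 0, 0⟩ 80,
  .scale ⟨91626668032, 0, 0, 0⟩ 83,
  .add 1 0,
  .mul 53 30,
  .sub 85 0,
  .inv 0,
  .mul 2 0,
  .mul 87 0,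
  .add 5 0,
  .sub 64 87,
  .const ⟨1108101562368, 0, 0, 0⟩,
  .add 1 0,
  .log 0,
  .scale ⟨549755813888, 0, 0, 0⟩ 0,
  .exp 0,
  .mul 0 98,
  .mul 0 96,
  .scale ⟨549755813888, 0, 0, 0⟩ 0,
  .const ⟨1116004679680, 0, 0, 0⟩,
  .add 1 0,
  .scale ⟨549755813888, 0, 0, 0⟩ 95,
  .mul 0 60,
  .scale ⟨2253999046656, 0, 0, 0⟩ 106,
  .add 8 0,
  .mul 2 0,
  .scale ⟨5497683968, 0, 0, 0⟩ 109,
  .add 11 0,
  .mul 0 28,
  .add 3 0,
  .mul 109 29,
  .scale ⟨1869170606080, 0, 0, 0⟩ 0,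
  .scale ⟨2418926419968, 0, 0, 0⟩ 22,
  .add 1 0,
  .mul 111 0,
  .add 5 0,
  .mul 15 0,
  .mul 0 112,
  .mul 1 112,
  .const ⟨1097095708672, 0, 0, 0⟩,
  .scale ⟨2199023255552, 0, 0, 0⟩ 1,
  .sub 1 0,
  .pos 98,
  .sub 122 3,
  .pos 0,
  .pos 1,
  .const ⟨4563402752000, 0, 0, 0⟩,
  .const ⟨3207803699200, 0, 0, 0⟩,
  .sub 1 0,
  .sub 0 9,
  .add 8 127,
  .mul 0 0,
  .sub 2 0,
  .pos 0,
  .scale ⟨10115506765824, 0, 0, 0⟩ 8,
  .sub 0 7,
  .pos 0,
  .scale ⟨989560045568, 0, 0, 0⟩ 10,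
  .scale ⟨18940000468992, 0, 0, 0⟩ 122,
  .sub 1 0,
  .pos 0,
  .const ⟨1232655613952, 0, 0, 0⟩,
  .sub 0 19,
  .pos 0,
  .scale ⟨243454181376, 0, 0, 0⟩ 14,
  .scale ⟨1124744560640, 0, 0, 0⟩ 21,
  .sub 1 0,
  .pos 0,
  .sub 140 19,
  .scale ⟨3463891124224, 0, 0, 0⟩ 0,
  .sub 0 17,
  .sub 0 26,
  .pos 0,
  .neg 33,
  .const ⟨10994319360, 0, 0, 0⟩,
  .add 1 0,
  .pos 0,
  .neg 57,
  .const ⟨21989687296, 0, 0, 0⟩,
  .add 1 0,
  .pos 0,
  .neg 52,
  .const ⟨109950533632, 0, 0, 0⟩,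
  .add 1 0,
  .pos 0,
  .mul 35 152,
  .neg 0,
  .const ⟨5496635392, 0, 0, 0⟩,
  .add 1 0,
  .pos 0,
  .neg 39,
  .const ⟨11005853696, 0, 0, 0⟩,
  .add 1 0,
  .pos 0,
  .mul 155 38,
  .scale ⟨2090604691456, 0, 0, 0⟩ 0,
  .mul 138 0,
  .neg 0,
  .exp 0,
  .scale ⟨3968549781504, 0, 0, 0⟩ 47,
  .add 0 48,
  .scale ⟨3968549781504, 0, 0, 0⟩ 48,
  .add 0 49,
  .scale ⟨549755813888, 0, 0, 0⟩ 2,
  .sub 170 0,
  .pos 0,
  .inv 0,
  .add 2 172,
  .mul 0 1,
  .mul 5 2,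
  .scale ⟨274877906944, 0, 0, 0⟩ 173,
  .add 0 176,
  .mul 2 0,
  .scale ⟨94623498240, 0, 0, 0⟩ 13,
  .mul 5 0,
  .add 153 63,
  .mul 175 0,
  .add 0 182,
  .mul 3 0,
  .add 6 0,
  .neg 0,
  .const ⟨112606576640, 0, 0, 0⟩,
  .add 1 0,
  .pos 0]

def chk5 {α : Type} (cst : Z → α) (add sub mul : α → α → α) (scale : Z → α → α)
    (neg inv exp log : α → α) (ok : α → Bool) (isPos : Nat → α → Bool) (isLt : α → Nat → Bool) :
    List α → Bool
  | [x0, x1, x2] =>
  let v0 := cst ⟨1099511627776, 0, 0, 0⟩; ok v0 && (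
  let v1 := mul x0 x0; ok v1 && (
  let v2 := mul x2 x1; ok v2 && (
  let v3 := mul x2 x2; ok v3 && (
  let v4 := mul x0 x1; ok v4 && (
  let v5 := mul v4 v4; ok v5 && (
  let v6 := mul v4 x0; ok v6 && (
  let v7 := mul x1 x1; ok v7 && (
  let v8 := neg v3; ok v8 && (
  let v9 := add v8 v0; ok v9 && (
  let v10 := mul v7 v9; ok v10 && (
  let v11 := mul v5 v1; ok v11 && (
  let v12 := cst ⟨1099243192320, 0, 0, 0⟩; ok v12 && (
  let v13 := scale ⟨3111703805952, 0, 0, 0⟩ x0; ok v13 && (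
  let v14 := sub v12 v13; ok v14 && (
  let v15 := scale ⟨32985348833280, 0, 0, 0⟩ v1; ok v15 && (
  let v16 := sub v14 v15; ok v16 && (
  let v17 := scale ⟨1556388773888, 0, 0, 0⟩ x0; ok v17 && (
  let v18 := sub v12 v17; ok v18 && (
  let v19 := scale ⟨26388279066624, 0, 0, 0⟩ v1; ok v19 && (
  let v20 := sub v18 v19; ok v20 && (
  let v21 := scale ⟨8796093022208, 0, 0, 0⟩ v1; ok v21 && (
  let v22 := sub v16 v21; ok v22 && (
  let v23 := scale ⟨11408506880000, 0, 0, 0⟩ v11; ok v23 && (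
  let v24 := sub v22 v23; ok v24 && (
  let v25 := scale ⟨3207803699200, 0, 0, 0⟩ v11; ok v25 && (
  let v26 := scale ⟨3207803699200, 0, 0, 0⟩ v25; ok v26 && (
  let v27 := add v26 v0; ok v27 && (
  let v28 := scale ⟨1232655613952, 0, 0, 0⟩ v5; ok v28 && (
  let v29 := mul v24 v28; ok v29 && (
  let v30 := neg v29; ok v30 && (
  let v31 := exp v30; ok v31 && (
  let v32 := cst ⟨5516617056256, 0, 0, 0⟩; ok v32 && (
  let v33 := sub v32 v10; ok v33 && (
  isPos 3 v33 && (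
  let v34 := cst ⟨2748779069440, 0, 0, 0⟩; ok v34 && (
  let v35 := sub v34 v2; ok v35 && (
  isPos 3 v35 && (
  let v36 := scale ⟨4861902979072, 0, 0, 0⟩ v4; ok v36 && (
  let v37 := mul v4 v27; ok v37 && (
  let v38 := mul v37 v36; ok v38 && (
  let v39 := mul x2 v6; ok v39 && (
  let v40 := scale ⟨1232655613952, 0, 0, 0⟩ v39; ok v40 && (
  let v41 := scale ⟨2199023255552, 0, 0, 0⟩ v40; ok v41 && (
  let v42 := sub v27 v41; ok v42 && (
  let v43 := scale ⟨3207803699200, 0, 0, 0⟩ v39; ok v43 && (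
  let v44 := scale ⟨2199023255552, 0, 0, 0⟩ v43; ok v44 && (
  let v45 := add v26 v44; ok v45 && (
  let v46 := scale ⟨549755813888, 0, 0, 0⟩ v45; ok v46 && (
  let v47 := add v0 v46; ok v47 && (
  let v48 := cst ⟨4398046511104, 0, 0, 0⟩; ok v48 && (
  let v49 := add v2 v48; ok v49 && (
  let v50 := inv v49; ok v50 && (
  let v51 := mul v47 v50; ok v51 && (
  let v52 := scale ⟨112608673792, 0, 0, 0⟩ v51; ok v52 && (
  let v53 := scale ⟨4398046511104, 0, 0, 0⟩ v52; ok v53 && (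
  let v54 := mul v53 x1; ok v54 && (
  let v55 := sub v0 v54; ok v55 && (
  isPos 3 v55 && (
  let v56 := inv v55; ok v56 && (
  let v57 := cst ⟨2199023255552, 0, 0, 0⟩; ok v57 && (
  let v58 := scale ⟨274877906944, 0, 0, 0⟩ v10; ok v58 && (
  let v59 := sub v57 v58; ok v59 && (
  let v60 := mul v10 v10; ok v60 && (
  let v61 := scale ⟨5727322112, 0, 0, 0⟩ v60; ok v61 && (
  let v62 := add v59 v61; ok v62 && (
  let v63 := mul v58 v58; ok v63 && (
  let v64 := mul v63 v58; ok v64 && (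
  let v65 := mul v64 v64; ok v65 && (
  let v66 := scale ⟨900726784, 0, 0, 0⟩ v65; ok v66 && (
  let v67 := add v62 v66; ok v67 && (
  let v68 := scale ⟨3207803699200, 0, 0, 0⟩ v5; ok v68 && (
  let v69 := add v67 v68; ok v69 && (
  let v70 := mul v5 v27; ok v70 && (
  let v71 := scale ⟨659707396096, 0, 0, 0⟩ v70; ok v71 && (
  let v72 := add v38 v71; ok v72 && (
  let v73 := exp v72; ok v73 && (
  let v74 := add v69 v73; ok v74 && (
  let v75 := sub v74 v0; ok v75 && (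
  let v76 := mul x0 v27; ok v76 && (
  let v77 := mul v76 v36; ok v77 && (
  let v78 := mul v53 v56; ok v78 && (
  let v79 := mul v75 v78; ok v79 && (
  let v80 := add v77 v79; ok v80 && (
  let v81 := mul v80 x1; ok v81 && (
  let v82 := scale ⟨4947802324992, 0, 0, 0⟩ v1; ok v82 && (
  let v83 := scale ⟨91626668032, 0, 0, 0⟩ x0; ok v83 && (
  let v84 := add v82 v83; ok v84 && (
  let v85 := mul v31 v54; ok v85 && (
  let v86 := sub v0 v85; ok v86 && (
  let v87 := inv v86; ok v87 && (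
  let v88 := mul v85 v87; ok v88 && (
  let v89 := mul v1 v88; ok v89 && (
  let v90 := add v84 v89; ok v90 && (
  let v91 := sub v26 v3; ok v91 && (
  let v92 := cst ⟨1108101562368, 0, 0, 0⟩; ok v92 && (
  let v93 := add v91 v92; ok v93 && (
  let v94 := log v93; ok v94 && (
  let v95 := scale ⟨549755813888, 0, 0, 0⟩ v94; ok v95 && (
  let v96 := exp v95; ok v96 && (
  let v97 := mul v96 x1; ok v97 && (
  let v98 := mul v97 v1; ok v98 && (
  let v99 := scale ⟨549755813888, 0, 0, 0⟩ v98; ok v99 && (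
  let v100 := cst ⟨1116004679680, 0, 0, 0⟩; ok v100 && (
  let v101 := add v99 v100; ok v101 && (
  let v102 := scale ⟨549755813888, 0, 0, 0⟩ v6; ok v102 && (
  let v103 := mul v102 v42; ok v103 && (
  let v104 := scale ⟨2253999046656, 0, 0, 0⟩ x2; ok v104 && (
  let v105 := add v96 v104; ok v105 && (
  let v106 := mul v103 v105; ok v106 && (
  let v107 := scale ⟨5497683968, 0, 0, 0⟩ x2; ok v107 && (
  let v108 := add v96 v107; ok v108 && (
  let v109 := mul v108 v80; ok v109 && (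
  let v110 := add v106 v109; ok v110 && (
  let v111 := mul v1 v81; ok v111 && (
  let v112 := scale ⟨1869170606080, 0, 0, 0⟩ v111; ok v112 && (
  let v113 := scale ⟨2418926419968, 0, 0, 0⟩ v90; ok v113 && (
  let v114 := add v112 v113; ok v114 && (
  let v115 := mul v3 v114; ok v115 && (
  let v116 := add v110 v115; ok v116 && (
  let v117 := mul v101 v116; ok v117 && (
  let v118 := mul v117 v5; ok v118 && (
  let v119 := mul v117 v6; ok v119 && (
  let v120 := cst ⟨1097095708672, 0, 0, 0⟩; ok v120 && (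
  let v121 := scale ⟨2199023255552, 0, 0, 0⟩ v119; ok v121 && (
  let v122 := sub v120 v121; ok v122 && (
  isPos 3 v24 && (
  let v123 := sub v0 v119; ok v123 && (
  isPos 3 v123 && (
  isPos 3 v122 && (
  let v124 := cst ⟨4563402752000, 0, 0, 0⟩; ok v124 && (
  let v125 := cst ⟨3207803699200, 0, 0, 0⟩; ok v125 && (
  let v126 := sub v124 v125; ok v126 && (
  let v127 := sub v126 v117; ok v127 && (
  let v128 := add v119 v0; ok v128 && (
  let v129 := mul v128 v128; ok v129 && (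
  let v130 := sub v127 v129; ok v130 && (
  isPos 3 v130 && (
  let v131 := scale ⟨10115506765824, 0, 0, 0⟩ v122; ok v131 && (
  let v132 := sub v131 v124; ok v132 && (
  isPos 3 v132 && (
  let v133 := scale ⟨989560045568, 0, 0, 0⟩ v122; ok v133 && (
  let v134 := scale ⟨18940000468992, 0, 0, 0⟩ v11; ok v134 && (
  let v135 := sub v133 v134; ok v135 && (
  isPos 3 v135 && (
  let v136 := cst ⟨1232655613952, 0, 0, 0⟩; ok v136 && (
  let v137 := sub v136 v117; ok v137 && (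
  isPos 3 v137 && (
  let v138 := scale ⟨243454181376, 0, 0, 0⟩ v123; ok v138 && (
  let v139 := scale ⟨1124744560640, 0, 0, 0⟩ v117; ok v139 && (
  let v140 := sub v138 v139; ok v140 && (
  isPos 3 v140 && (
  let v141 := sub v0 v121; ok v141 && (
  let v142 := scale ⟨3463891124224, 0, 0, 0⟩ v141; ok v142 && (
  let v143 := sub v142 v125; ok v143 && (
  let v144 := sub v143 v117; ok v144 && (
  isPos 3 v144 && (
  let v145 := neg v111; ok v145 && (
  let v146 := cst ⟨10994319360, 0, 0, 0⟩; ok v146 && (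
  let v147 := add v145 v146; ok v147 && (
  isPos 3 v147 && (
  let v148 := neg v90; ok v148 && (
  let v149 := cst ⟨21989687296, 0, 0, 0⟩; ok v149 && (
  let v150 := add v148 v149; ok v150 && (
  isPos 3 v150 && (
  let v151 := neg v98; ok v151 && (
  let v152 := cst ⟨109950533632, 0, 0, 0⟩; ok v152 && (
  let v153 := add v151 v152; ok v153 && (
  isPos 3 v153 && (
  let v154 := mul v118 v1; ok v154 && (
  let v155 := neg v154; ok v155 && (
  let v156 := cst ⟨5496635392, 0, 0, 0⟩; ok v156 && (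
  let v157 := add v155 v156; ok v157 && (
  isPos 3 v157 && (
  let v158 := neg v118; ok v158 && (
  let v159 := cst ⟨11005853696, 0, 0, 0⟩; ok v159 && (
  let v160 := add v158 v159; ok v160 && (
  isPos 3 v160 && (
  let v161 := mul v5 v122; ok v161 && (
  let v162 := scale ⟨2090604691456, 0, 0, 0⟩ v161; ok v162 && (
  let v163 := mul v24 v162; ok v163 && (
  let v164 := neg v163; ok v164 && (
  let v165 := exp v164; ok v165 && (
  let v166 := scale ⟨3968549781504, 0, 0, 0⟩ v118; ok v166 && (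
  let v167 := add v166 v118; ok v167 && (
  let v168 := scale ⟨3968549781504, 0, 0, 0⟩ v119; ok v168 && (
  let v169 := add v168 v119; ok v169 && (
  let v170 := scale ⟨549755813888, 0, 0, 0⟩ v167; ok v170 && (
  let v171 := sub v0 v170; ok v171 && (
  isPos 3 v171 && (
  let v172 := inv v171; ok v172 && (
  let v173 := add v170 v0; ok v173 && (
  let v174 := mul v173 v172; ok v174 && (
  let v175 := mul v169 v172; ok v175 && (
  let v176 := scale ⟨274877906944, 0, 0, 0⟩ v2; ok v176 && (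
  let v177 := add v176 v0; ok v177 && (
  let v178 := mul v175 v177; ok v178 && (
  let v179 := scale ⟨94623498240, 0, 0, 0⟩ v165; ok v179 && (
  let v180 := mul v174 v179; ok v180 && (
  let v181 := add v27 v117; ok v181 && (
  let v182 := mul v6 v181; ok v182 && (
  let v183 := add v182 v0; ok v183 && (
  let v184 := mul v180 v183; ok v184 && (
  let v185 := add v178 v184; ok v185 && (
  let v186 := neg v185; ok v186 && (
  let v187 := cst ⟨112606576640, 0, 0, 0⟩; ok v187 && (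
  let v188 := add v186 v187; ok v188 && (
  isPos 3 v188 && (
  true))))))))))))))))))))))))))))))))))))))))))))))))))))))))))))))))))))))))))))))))))))))))))))))))))))))))))))))))))))))))))))))))))))))))))))))))))))))))))))))))))))))))))))))))))))))))))))))))))))))))))))))))
  | _ => false

set_option maxRecDepth 1000000 in
theorem chk5_eq (O : Ops) (m : List O.α)
    (h : chk5 O.cst O.add O.sub O.mul O.scale O.neg O.inv O.exp O.log O.ok O.isPos O.isLt m = true) :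
    runG O 3 prog5 m = true := by
  match m, h with
  | [x0, x1, x2], h => exact h

def chkB5 : List opsE.α → Bool :=
  chk5 opsE.cst opsE.add opsE.sub opsE.mul opsE.scale opsE.neg opsE.inv opsE.exp opsE.log opsE.ok opsE.isPos opsE.isLt

theorem chkB5_eq (m : List opsE.α) (h : chkB5 m = true) : runG opsE 3 prog5 m = true :=
  chk5_eq opsE m h

def prog6 : List Op := [
  .const ⟨1099511627776, 0, 0, 0⟩,
  .mul 1 1,
  .mul 4 3,
  .mul 5 5,
  .mul 4 5,
  .mul 0 0,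
  .mul 1 6,
  .mul 8 8,
  .neg 4,
  .add 0 8,
  .mul 2 0,
  .mul 5 9,
  .const ⟨1099243192320, 0, 0, 0⟩,
  .scale ⟨3111703805952, 0, 0, 0⟩ 13,
  .sub 1 0,
  .scale ⟨32985348833280, 0, 0, 0⟩ 13,
  .sub 1 0,
  .scale ⟨1556388773888, 0, 0, 0⟩ 17,
  .sub 5 0,
  .scale ⟨26388279066624, 0, 0, 0⟩ 17,
  .sub 1 0,
  .scale ⟨8796093022208, 0, 0, 0⟩ 19,
  .sub 5 0,
  .scale ⟨11408506880000, 0, 0, 0⟩ 11,
  .sub 1 0,
  .scale ⟨3207803699200, 0, 0, 0⟩ 13,
  .scale ⟨3207803699200, 0, 0, 0⟩ 0,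
  .add 0 26,
  .scale ⟨1232655613952, 0, 0, 0⟩ 22,
  .mul 4 0,
  .neg 0,
  .exp 0,
  .const ⟨6280315928576, 0, 0, 0⟩,
  .sub 0 22,
  .pos 0,
  .const ⟨3298534883328, 0, 0, 0⟩,
  .sub 0 32,
  .pos 0,
  .scale ⟨6442450944000, 0, 0, 0⟩ 31,
  .mul 32 9,
  .mul 0 1,
  .mul 41 32,
  .scale ⟨1232655613952, 0, 0, 0⟩ 0,
  .scale ⟨2199023255552, 0, 0, 0⟩ 0,
  .sub 14 0,
  .scale ⟨3207803699200, 0, 0, 0⟩ 3,
  .scale ⟨2199023255552, 0, 0, 0⟩ 0,
  .add 18 0,
  .scale ⟨549755813888, 0, 0, 0⟩ 0,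
  .add 46 0,
  .const ⟨4398046511104, 0, 0, 0⟩,
  .add 46 0,
  .inv 0,
  .mul 3 0,
  .scale ⟨112608673792, 0, 0, 0⟩ 0,
  .scale ⟨4398046511104, 0, 0, 0⟩ 0,
  .mul 0 55,
  .sub 54 0,
  .pos 0,
  .inv 0,
  .const ⟨2199023255552, 0, 0, 0⟩,
  .scale ⟨274877906944, 0, 0, 0⟩ 47,
  .sub 1 0,
  .mul 49 49,
  .scale ⟨5727322112, 0, 0, 0⟩ 0,
  .add 2 0,
  .mul 4 4,
  .mul 0 5,
  .mul 0 0,
  .scale ⟨900726784, 0, 0, 0⟩ 0,
  .add 4 0,
  .scale ⟨3207803699200, 0, 0, 0⟩ 62,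
  .add 1 0,
  .mul 64 42,
  .scale ⟨659707396096, 0, 0, 0⟩ 0,
  .add 33 0,
  .exp 0,
  .add 4 0,
  .sub 0 74,
  .mul 76 48,
  .mul 0 40,
  .mul 24 21,
  .mul 3 0,
  .add 2 0,
  .mul 0 82,
  .scale ⟨4947802324992, 0, 0, 0⟩ 80,
  .scale ⟨91626668032, 0, 0, 0⟩ 83,
  .add 1 0,
  .mul 53 30,
  .sub 85 0,
  .inv 0,
  .mul 2 0,
  .mul 87 0,
  .add 5 0,
  .sub 64 87,
  .const ⟨1108101562368, 0, 0, 0⟩,
  .add 1 0,
  .log 0,
  .scale ⟨549755813888, 0, 0, 0⟩ 0,
  .exp 0,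
  .mul 0 98,
  .mul 0 96,
  .scale ⟨549755813888, 0, 0, 0⟩ 0,
  .const ⟨1116004679680, 0, 0, 0⟩,
  .add 1 0,
  .scale ⟨549755813888, 0, 0, 0⟩ 95,
  .mul 0 60,
  .scale ⟨2253999046656, 0, 0, 0⟩ 106,
  .add 8 0,
  .mul 2 0,
  .scale ⟨5497683968, 0, 0, 0⟩ 109,
  .add 11 0,
  .mul 0 28,
  .add 3 0,
  .mul 109 29,
  .scale ⟨1869170606080, 0, 0, 0⟩ 0,
  .scale ⟨2418926419968, 0, 0, 0⟩ 22,
  .add 1 0,
  .mul 111 0,
  .add 5 0,
  .mul 15 0,
  .mul 0 112,
  .mul 1 112,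
  .const ⟨1097095708672, 0, 0, 0⟩,
  .scale ⟨2199023255552, 0, 0, 0⟩ 1,
  .sub 1 0,
  .pos 98,
  .sub 122 3,
  .pos 0,
  .pos 1,
  .const ⟨4563402752000, 0, 0, 0⟩,
  .const ⟨3207803699200, 0, 0, 0⟩,
  .sub 1 0,
  .sub 0 9,
  .add 8 127,
  .mul 0 0,
  .sub 2 0,
  .pos 0,
  .scale ⟨10115506765824, 0, 0, 0⟩ 8,
  .sub 0 7,
  .pos 0,
  .scale ⟨989560045568, 0, 0, 0⟩ 10,
  .scale ⟨18940000468992, 0, 0, 0⟩ 122,
  .sub 1 0,
  .pos 0,
  .const ⟨1232655613952, 0, 0, 0⟩,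
  .sub 0 19,
  .pos 0,
  .scale ⟨243454181376, 0, 0, 0⟩ 14,
  .scale ⟨1124744560640, 0, 0, 0⟩ 21,
  .sub 1 0,
  .pos 0,
  .sub 140 19,
  .scale ⟨3463891124224, 0, 0, 0⟩ 0,
  .sub 0 17,
  .sub 0 26,
  .pos 0,
  .neg 33,
  .const ⟨10994319360, 0, 0, 0⟩,
  .add 1 0,
  .pos 0,
  .neg 57,
  .const ⟨21989687296, 0, 0, 0⟩,
  .add 1 0,
  .pos 0,
  .neg 52,
  .const ⟨109950533632, 0, 0, 0⟩,
  .add 1 0,
  .pos 0,
  .mul 35 152,
  .neg 0,
  .const ⟨5496635392, 0, 0, 0⟩,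
  .add 1 0,
  .pos 0,
  .neg 39,
  .const ⟨11005853696, 0, 0, 0⟩,
  .add 1 0,
  .pos 0,
  .mul 155 38,
  .scale ⟨2090604691456, 0, 0, 0⟩ 0,
  .mul 138 0,
  .neg 0,
  .exp 0,
  .scale ⟨5531917877248, 0, 0, 0⟩ 47,
  .add 0 48,
  .scale ⟨5531917877248, 0, 0, 0⟩ 48,
  .add 0 49,
  .scale ⟨549755813888, 0, 0, 0⟩ 2,
  .sub 170 0,
  .pos 0,
  .inv 0,
  .add 2 172,
  .mul 0 1,
  .mul 5 2,
  .scale ⟨274877906944, 0, 0, 0⟩ 173,
  .add 0 176,
  .mul 2 0,
  .scale ⟨94623498240, 0, 0, 0⟩ 13,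
  .mul 5 0,
  .add 153 63,
  .mul 175 0,
  .add 0 182,
  .mul 3 0,
  .add 6 0,
  .neg 0,
  .const ⟨112606576640, 0, 0, 0⟩,
  .add 1 0,
  .pos 0]

def chk6 {α : Type} (cst : Z → α) (add sub mul : α → α → α) (scale : Z → α → α)
    (neg inv exp log : α → α) (ok : α → Bool) (isPos : Nat → α → Bool) (isLt : α → Nat → Bool) :
    List α → Bool
  | [x0, x1, x2] =>
  let v0 := cst ⟨1099511627776, 0, 0, 0⟩; ok v0 && (
  let v1 := mul x0 x0; ok v1 && (
  let v2 := mul x2 x1; ok v2 && (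
  let v3 := mul x2 x2; ok v3 && (
  let v4 := mul x0 x1; ok v4 && (
  let v5 := mul v4 v4; ok v5 && (
  let v6 := mul v4 x0; ok v6 && (
  let v7 := mul x1 x1; ok v7 && (
  let v8 := neg v3; ok v8 && (
  let v9 := add v8 v0; ok v9 && (
  let v10 := mul v7 v9; ok v10 && (
  let v11 := mul v5 v1; ok v11 && (
  let v12 := cst ⟨1099243192320, 0, 0, 0⟩; ok v12 && (
  let v13 := scale ⟨3111703805952, 0, 0, 0⟩ x0; ok v13 && (
  let v14 := sub v12 v13; ok v14 && (
  let v15 := scale ⟨32985348833280, 0, 0, 0⟩ v1; ok v15 && (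
  let v16 := sub v14 v15; ok v16 && (
  let v17 := scale ⟨1556388773888, 0, 0, 0⟩ x0; ok v17 && (
  let v18 := sub v12 v17; ok v18 && (
  let v19 := scale ⟨26388279066624, 0, 0, 0⟩ v1; ok v19 && (
  let v20 := sub v18 v19; ok v20 && (
  let v21 := scale ⟨8796093022208, 0, 0, 0⟩ v1; ok v21 && (
  let v22 := sub v16 v21; ok v22 && (
  let v23 := scale ⟨11408506880000, 0, 0, 0⟩ v11; ok v23 && (
  let v24 := sub v22 v23; ok v24 && (
  let v25 := scale ⟨3207803699200, 0, 0, 0⟩ v11; ok v25 && (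
  let v26 := scale ⟨3207803699200, 0, 0, 0⟩ v25; ok v26 && (
  let v27 := add v26 v0; ok v27 && (
  let v28 := scale ⟨1232655613952, 0, 0, 0⟩ v5; ok v28 && (
  let v29 := mul v24 v28; ok v29 && (
  let v30 := neg v29; ok v30 && (
  let v31 := exp v30; ok v31 && (
  let v32 := cst ⟨6280315928576, 0, 0, 0⟩; ok v32 && (
  let v33 := sub v32 v10; ok v33 && (
  isPos 3 v33 && (
  let v34 := cst ⟨3298534883328, 0, 0, 0⟩; ok v34 && (
  let v35 := sub v34 v2; ok v35 && (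
  isPos 3 v35 && (
  let v36 := scale ⟨6442450944000, 0, 0, 0⟩ v4; ok v36 && (
  let v37 := mul v4 v27; ok v37 && (
  let v38 := mul v37 v36; ok v38 && (
  let v39 := mul x2 v6; ok v39 && (
  let v40 := scale ⟨1232655613952, 0, 0, 0⟩ v39; ok v40 && (
  let v41 := scale ⟨2199023255552, 0, 0, 0⟩ v40; ok v41 && (
  let v42 := sub v27 v41; ok v42 && (
  let v43 := scale ⟨3207803699200, 0, 0, 0⟩ v39; ok v43 && (
  let v44 := scale ⟨2199023255552, 0, 0, 0⟩ v43; ok v44 && (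
  let v45 := add v26 v44; ok v45 && (
  let v46 := scale ⟨549755813888, 0, 0, 0⟩ v45; ok v46 && (
  let v47 := add v0 v46; ok v47 && (
  let v48 := cst ⟨4398046511104, 0, 0, 0⟩; ok v48 && (
  let v49 := add v2 v48; ok v49 && (
  let v50 := inv v49; ok v50 && (
  let v51 := mul v47 v50; ok v51 && (
  let v52 := scale ⟨112608673792, 0, 0, 0⟩ v51; ok v52 && (
  let v53 := scale ⟨4398046511104, 0, 0, 0⟩ v52; ok v53 && (
  let v54 := mul v53 x1; ok v54 && (
  let v55 := sub v0 v54; ok v55 && (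
  isPos 3 v55 && (
  let v56 := inv v55; ok v56 && (
  let v57 := cst ⟨2199023255552, 0, 0, 0⟩; ok v57 && (
  let v58 := scale ⟨274877906944, 0, 0, 0⟩ v10; ok v58 && (
  let v59 := sub v57 v58; ok v59 && (
  let v60 := mul v10 v10; ok v60 && (
  let v61 := scale ⟨5727322112, 0, 0, 0⟩ v60; ok v61 && (
  let v62 := add v59 v61; ok v62 && (
  let v63 := mul v58 v58; ok v63 && (
  let v64 := mul v63 v58; ok v64 && (
  let v65 := mul v64 v64; ok v65 && (
  let v66 := scale ⟨900726784, 0, 0, 0⟩ v65; ok v66 && (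
  let v67 := add v62 v66; ok v67 && (
  let v68 := scale ⟨3207803699200, 0, 0, 0⟩ v5; ok v68 && (
  let v69 := add v67 v68; ok v69 && (
  let v70 := mul v5 v27; ok v70 && (
  let v71 := scale ⟨659707396096, 0, 0, 0⟩ v70; ok v71 && (
  let v72 := add v38 v71; ok v72 && (
  let v73 := exp v72; ok v73 && (
  let v74 := add v69 v73; ok v74 && (
  let v75 := sub v74 v0; ok v75 && (
  let v76 := mul x0 v27; ok v76 && (
  let v77 := mul v76 v36; ok v77 && (
  let v78 := mul v53 v56; ok v78 && (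
  let v79 := mul v75 v78; ok v79 && (
  let v80 := add v77 v79; ok v80 && (
  let v81 := mul v80 x1; ok v81 && (
  let v82 := scale ⟨4947802324992, 0, 0, 0⟩ v1; ok v82 && (
  let v83 := scale ⟨91626668032, 0, 0, 0⟩ x0; ok v83 && (
  let v84 := add v82 v83; ok v84 && (
  let v85 := mul v31 v54; ok v85 && (
  let v86 := sub v0 v85; ok v86 && (
  let v87 := inv v86; ok v87 && (
  let v88 := mul v85 v87; ok v88 && (
  let v89 := mul v1 v88; ok v89 && (
  let v90 := add v84 v89; ok v90 && (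
  let v91 := sub v26 v3; ok v91 && (
  let v92 := cst ⟨1108101562368, 0, 0, 0⟩; ok v92 && (
  let v93 := add v91 v92; ok v93 && (
  let v94 := log v93; ok v94 && (
  let v95 := scale ⟨549755813888, 0, 0, 0⟩ v94; ok v95 && (
  let v96 := exp v95; ok v96 && (
  let v97 := mul v96 x1; ok v97 && (
  let v98 := mul v97 v1; ok v98 && (
  let v99 := scale ⟨549755813888, 0, 0, 0⟩ v98; ok v99 && (
  let v100 := cst ⟨1116004679680, 0, 0, 0⟩; ok v100 && (
  let v101 := add v99 v100; ok v101 && (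
  let v102 := scale ⟨549755813888, 0, 0, 0⟩ v6; ok v102 && (
  let v103 := mul v102 v42; ok v103 && (
  let v104 := scale ⟨2253999046656, 0, 0, 0⟩ x2; ok v104 && (
  let v105 := add v96 v104; ok v105 && (
  let v106 := mul v103 v105; ok v106 && (
  let v107 := scale ⟨5497683968, 0, 0, 0⟩ x2; ok v107 && (
  let v108 := add v96 v107; ok v108 && (
  let v109 := mul v108 v80; ok v109 && (
  let v110 := add v106 v109; ok v110 && (
  let v111 := mul v1 v81; ok v111 && (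
  let v112 := scale ⟨1869170606080, 0, 0, 0⟩ v111; ok v112 && (
  let v113 := scale ⟨2418926419968, 0, 0, 0⟩ v90; ok v113 && (
  let v114 := add v112 v113; ok v114 && (
  let v115 := mul v3 v114; ok v115 && (
  let v116 := add v110 v115; ok v116 && (
  let v117 := mul v101 v116; ok v117 && (
  let v118 := mul v117 v5; ok v118 && (
  let v119 := mul v117 v6; ok v119 && (
  let v120 := cst ⟨1097095708672, 0, 0, 0⟩; ok v120 && (
  let v121 := scale ⟨2199023255552, 0, 0, 0⟩ v119; ok v121 && (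
  let v122 := sub v120 v121; ok v122 && (
  isPos 3 v24 && (
  let v123 := sub v0 v119; ok v123 && (
  isPos 3 v123 && (
  isPos 3 v122 && (
  let v124 := cst ⟨4563402752000, 0, 0, 0⟩; ok v124 && (
  let v125 := cst ⟨3207803699200, 0, 0, 0⟩; ok v125 && (
  let v126 := sub v124 v125; ok v126 && (
  let v127 := sub v126 v117; ok v127 && (
  let v128 := add v119 v0; ok v128 && (
  let v129 := mul v128 v128; ok v129 && (
  let v130 := sub v127 v129; ok v130 && (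
  isPos 3 v130 && (
  let v131 := scale ⟨10115506765824, 0, 0, 0⟩ v122; ok v131 && (
  let v132 := sub v131 v124; ok v132 && (
  isPos 3 v132 && (
  let v133 := scale ⟨989560045568, 0, 0, 0⟩ v122; ok v133 && (
  let v134 := scale ⟨18940000468992, 0, 0, 0⟩ v11; ok v134 && (
  let v135 := sub v133 v134; ok v135 && (
  isPos 3 v135 && (
  let v136 := cst ⟨1232655613952, 0, 0, 0⟩; ok v136 && (
  let v137 := sub v136 v117; ok v137 && (
  isPos 3 v137 && (
  let v138 := scale ⟨243454181376, 0, 0, 0⟩ v123; ok v138 && (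
  let v139 := scale ⟨1124744560640, 0, 0, 0⟩ v117; ok v139 && (
  let v140 := sub v138 v139; ok v140 && (
  isPos 3 v140 && (
  let v141 := sub v0 v121; ok v141 && (
  let v142 := scale ⟨3463891124224, 0, 0, 0⟩ v141; ok v142 && (
  let v143 := sub v142 v125; ok v143 && (
  let v144 := sub v143 v117; ok v144 && (
  isPos 3 v144 && (
  let v145 := neg v111; ok v145 && (
  let v146 := cst ⟨10994319360, 0, 0, 0⟩; ok v146 && (
  let v147 := add v145 v146; ok v147 && (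
  isPos 3 v147 && (
  let v148 := neg v90; ok v148 && (
  let v149 := cst ⟨21989687296, 0, 0, 0⟩; ok v149 && (
  let v150 := add v148 v149; ok v150 && (
  isPos 3 v150 && (
  let v151 := neg v98; ok v151 && (
  let v152 := cst ⟨109950533632, 0, 0, 0⟩; ok v152 && (
  let v153 := add v151 v152; ok v153 && (
  isPos 3 v153 && (
  let v154 := mul v118 v1; ok v154 && (
  let v155 := neg v154; ok v155 && (
  let v156 := cst ⟨5496635392, 0, 0, 0⟩; ok v156 && (
  let v157 := add v155 v156; ok v157 && (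
  isPos 3 v157 && (
  let v158 := neg v118; ok v158 && (
  let v159 := cst ⟨11005853696, 0, 0, 0⟩; ok v159 && (
  let v160 := add v158 v159; ok v160 && (
  isPos 3 v160 && (
  let v161 := mul v5 v122; ok v161 && (
  let v162 := scale ⟨2090604691456, 0, 0, 0⟩ v161; ok v162 && (
  let v163 := mul v24 v162; ok v163 && (
  let v164 := neg v163; ok v164 && (
  let v165 := exp v164; ok v165 && (
  let v166 := scale ⟨5531917877248, 0, 0, 0⟩ v118; ok v166 && (
  let v167 := add v166 v118; ok v167 && (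
  let v168 := scale ⟨5531917877248, 0, 0, 0⟩ v119; ok v168 && (
  let v169 := add v168 v119; ok v169 && (
  let v170 := scale ⟨549755813888, 0, 0, 0⟩ v167; ok v170 && (
  let v171 := sub v0 v170; ok v171 && (
  isPos 3 v171 && (
  let v172 := inv v171; ok v172 && (
  let v173 := add v170 v0; ok v173 && (
  let v174 := mul v173 v172; ok v174 && (
  let v175 := mul v169 v172; ok v175 && (
  let v176 := scale ⟨274877906944, 0, 0, 0⟩ v2; ok v176 && (
  let v177 := add v176 v0; ok v177 && (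
  let v178 := mul v175 v177; ok v178 && (
  let v179 := scale ⟨94623498240, 0, 0, 0⟩ v165; ok v179 && (
  let v180 := mul v174 v179; ok v180 && (
  let v181 := add v27 v117; ok v181 && (
  let v182 := mul v6 v181; ok v182 && (
  let v183 := add v182 v0; ok v183 && (
  let v184 := mul v180 v183; ok v184 && (
  let v185 := add v178 v184; ok v185 && (
  let v186 := neg v185; ok v186 && (
  let v187 := cst ⟨112606576640, 0, 0, 0⟩; ok v187 && (
  let v188 := add v186 v187; ok v188 && (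
  isPos 3 v188 && (
  true))))))))))))))))))))))))))))))))))))))))))))))))))))))))))))))))))))))))))))))))))))))))))))))))))))))))))))))))))))))))))))))))))))))))))))))))))))))))))))))))))))))))))))))))))))))))))))))))))))))))))))))))
  | _ => false

set_option maxRecDepth 1000000 in
theorem chk6_eq (O : Ops) (m : List O.α)
    (h : chk6 O.cst O.add O.sub O.mul O.scale O.neg O.inv O.exp O.log O.ok O.isPos O.isLt m = true) :
    runG O 3 prog6 m = true := by
  match m, h with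
  | [x0, x1, x2], h => exact h

def chkB6 : List opsE.α → Bool :=
  chk6 opsE.cst opsE.add opsE.sub opsE.mul opsE.scale opsE.neg opsE.inv opsE.exp opsE.log opsE.ok opsE.isPos opsE.isLt

theorem chkB6_eq (m : List opsE.α) (h : chkB6 m = true) : runG opsE 3 prog6 m = true :=
  chk6_eq opsE m h

def prog7 : List Op := [
  .const ⟨1099511627776, 0, 0, 0⟩,
  .mul 1 1,
  .mul 4 3,
  .mul 5 5,
  .mul 4 5,
  .mul 0 0,
  .mul 1 6,
  .mul 8 8,
  .neg 4,
  .add 0 8,
  .mul 2 0,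
  .mul 5 9,
  .const ⟨1099243192320, 0, 0, 0⟩,
  .scale ⟨3111703805952, 0, 0, 0⟩ 13,
  .sub 1 0,
  .scale ⟨32985348833280, 0, 0, 0⟩ 13,
  .sub 1 0,
  .scale ⟨1556388773888, 0, 0, 0⟩ 17,
  .sub 5 0,
  .scale ⟨26388279066624, 0, 0, 0⟩ 17,
  .sub 1 0,
  .scale ⟨8796093022208, 0, 0, 0⟩ 19,
  .sub 5 0,
  .scale ⟨11408506880000, 0, 0, 0⟩ 11,
  .sub 1 0,
  .scale ⟨3207803699200, 0, 0, 0⟩ 13,
  .scale ⟨3207803699200, 0, 0, 0⟩ 0,
  .add 0 26,
  .scale ⟨1232655613952, 0, 0, 0⟩ 22,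
  .mul 4 0,
  .neg 0,
  .exp 0,
  .const ⟨6816918405120, 0, 0, 0⟩,
  .sub 0 22,
  .pos 0,
  .const ⟨2199023255552, 0, 0, 0⟩,
  .sub 0 32,
  .pos 0,
  .scale ⟨7335804141568, 0, 0, 0⟩ 31,
  .mul 32 9,
  .mul 0 1,
  .mul 41 32,
  .scale ⟨1232655613952, 0, 0, 0⟩ 0,
  .scale ⟨2199023255552, 0, 0, 0⟩ 0,
  .sub 14 0,
  .scale ⟨3207803699200, 0, 0, 0⟩ 3,
  .scale ⟨2199023255552, 0, 0, 0⟩ 0,
  .add 18 0,
  .scale ⟨549755813888, 0, 0, 0⟩ 0,
  .add 46 0,
  .const ⟨4398046511104, 0, 0, 0⟩,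
  .add 46 0,
  .inv 0,
  .mul 3 0,
  .scale ⟨112608673792, 0, 0, 0⟩ 0,
  .scale ⟨4398046511104, 0, 0, 0⟩ 0,
  .mul 0 55,
  .sub 54 0,
  .pos 0,
  .inv 0,
  .const ⟨2199023255552, 0, 0, 0⟩,
  .scale ⟨274877906944, 0, 0, 0⟩ 47,
  .sub 1 0,
  .mul 49 49,
  .scale ⟨5727322112, 0, 0, 0⟩ 0,
  .add 2 0,
  .mul 4 4,
  .mul 0 5,
  .mul 0 0,
  .scale ⟨900726784, 0, 0, 0⟩ 0,
  .add 4 0,
  .scale ⟨3207803699200, 0, 0, 0⟩ 62,
  .add 1 0,
  .mul 64 42,
  .scale ⟨659707396096, 0, 0, 0⟩ 0,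
  .add 33 0,
  .exp 0,
  .add 4 0,
  .sub 0 74,
  .mul 76 48,
  .mul 0 40,
  .mul 24 21,
  .mul 3 0,
  .add 2 0,
  .mul 0 82,
  .scale ⟨4947802324992, 0, 0, 0⟩ 80,
  .scale ⟨91626668032, 0, 0, 0⟩ 83,
  .add 1 0,
  .mul 53 30,
  .sub 85 0,
  .inv 0,
  .mul 2 0,
  .mul 87 0,
  .add 5 0,
  .sub 64 87,
  .const ⟨1108101562368, 0, 0, 0⟩,
  .add 1 0,
  .log 0,
  .scale ⟨549755813888, 0, 0, 0⟩ 0,
  .exp 0,
  .mul 0 98,
  .mul 0 96,
  .scale ⟨549755813888, 0, 0, 0⟩ 0,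
  .const ⟨1116004679680, 0, 0, 0⟩,
  .add 1 0,
  .scale ⟨549755813888, 0, 0, 0⟩ 95,
  .mul 0 60,
  .scale ⟨2253999046656, 0, 0, 0⟩ 106,
  .add 8 0,
  .mul 2 0,
  .scale ⟨5497683968, 0, 0, 0⟩ 109,
  .add 11 0,
  .mul 0 28,
  .add 3 0,
  .mul 109 29,
  .scale ⟨1869170606080, 0, 0, 0⟩ 0,
  .scale ⟨2418926419968, 0, 0, 0⟩ 22,
  .add 1 0,
  .mul 111 0,
  .add 5 0,
  .mul 15 0,
  .mul 0 112,
  .mul 1 112,
  .const ⟨1097095708672, 0, 0, 0⟩,
  .scale ⟨2199023255552, 0, 0, 0⟩ 1,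
  .sub 1 0,
  .pos 98,
  .sub 122 3,
  .pos 0,
  .pos 1,
  .const ⟨4563402752000, 0, 0, 0⟩,
  .const ⟨3207803699200, 0, 0, 0⟩,
  .sub 1 0,
  .sub 0 9,
  .add 8 127,
  .mul 0 0,
  .sub 2 0,
  .pos 0,
  .scale ⟨10115506765824, 0, 0, 0⟩ 8,
  .sub 0 7,
  .pos 0,
  .scale ⟨989560045568, 0, 0, 0⟩ 10,
  .scale ⟨18940000468992, 0, 0, 0⟩ 122,
  .sub 1 0,
  .pos 0,
  .const ⟨1232655613952, 0, 0, 0⟩,
  .sub 0 19,
  .pos 0,
  .scale ⟨243454181376, 0, 0, 0⟩ 14,
  .scale ⟨1124744560640, 0, 0, 0⟩ 21,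
  .sub 1 0,
  .pos 0,
  .sub 140 19,
  .scale ⟨3463891124224, 0, 0, 0⟩ 0,
  .sub 0 17,
  .sub 0 26,
  .pos 0,
  .neg 33,
  .const ⟨10994319360, 0, 0, 0⟩,
  .add 1 0,
  .pos 0,
  .neg 57,
  .const ⟨21989687296, 0, 0, 0⟩,
  .add 1 0,
  .pos 0,
  .neg 52,
  .const ⟨109950533632, 0, 0, 0⟩,
  .add 1 0,
  .pos 0,
  .mul 35 152,
  .neg 0,
  .const ⟨5496635392, 0, 0, 0⟩,
  .add 1 0,
  .pos 0,
  .neg 39,
  .const ⟨11005853696, 0, 0, 0⟩,
  .add 1 0,
  .pos 0,
  .mul 155 38,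
  .scale ⟨2090604691456, 0, 0, 0⟩ 0,
  .mul 138 0,
  .neg 0,
  .exp 0,
  .scale ⟨6579889897472, 0, 0, 0⟩ 47,
  .add 0 48,
  .scale ⟨6579889897472, 0, 0, 0⟩ 48,
  .add 0 49,
  .scale ⟨549755813888, 0, 0, 0⟩ 2,
  .sub 170 0,
  .pos 0,
  .inv 0,
  .add 2 172,
  .mul 0 1,
  .mul 5 2,
  .scale ⟨274877906944, 0, 0, 0⟩ 173,
  .add 0 176,
  .mul 2 0,
  .scale ⟨94623498240, 0, 0, 0⟩ 13,
  .mul 5 0,
  .add 153 63,
  .mul 175 0,
  .add 0 182,
  .mul 3 0,
  .add 6 0,
  .neg 0,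
  .const ⟨112606576640, 0, 0, 0⟩,
  .add 1 0,
  .pos 0]

def chk7 {α : Type} (cst : Z → α) (add sub mul : α → α → α) (scale : Z → α → α)
    (neg inv exp log : α → α) (ok : α → Bool) (isPos : Nat → α → Bool) (isLt : α → Nat → Bool) :
    List α → Bool
  | [x0, x1, x2] =>
  let v0 := cst ⟨1099511627776, 0, 0, 0⟩; ok v0 && (
  let v1 := mul x0 x0; ok v1 && (
  let v2 := mul x2 x1; ok v2 && (
  let v3 := mul x2 x2; ok v3 && (
  let v4 := mul x0 x1; ok v4 && (
  let v5 := mul v4 v4; ok v5 && (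
  let v6 := mul v4 x0; ok v6 && (
  let v7 := mul x1 x1; ok v7 && (
  let v8 := neg v3; ok v8 && (
  let v9 := add v8 v0; ok v9 && (
  let v10 := mul v7 v9; ok v10 && (
  let v11 := mul v5 v1; ok v11 && (
  let v12 := cst ⟨1099243192320, 0, 0, 0⟩; ok v12 && (
  let v13 := scale ⟨3111703805952, 0, 0, 0⟩ x0; ok v13 && (
  let v14 := sub v12 v13; ok v14 && (
  let v15 := scale ⟨32985348833280, 0, 0, 0⟩ v1; ok v15 && (
  let v16 := sub v14 v15; ok v16 && (
  let v17 := scale ⟨1556388773888, 0, 0, 0⟩ x0; ok v17 && (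
  let v18 := sub v12 v17; ok v18 && (
  let v19 := scale ⟨26388279066624, 0, 0, 0⟩ v1; ok v19 && (
  let v20 := sub v18 v19; ok v20 && (
  let v21 := scale ⟨8796093022208, 0, 0, 0⟩ v1; ok v21 && (
  let v22 := sub v16 v21; ok v22 && (
  let v23 := scale ⟨11408506880000, 0, 0, 0⟩ v11; ok v23 && (
  let v24 := sub v22 v23; ok v24 && (
  let v25 := scale ⟨3207803699200, 0, 0, 0⟩ v11; ok v25 && (
  let v26 := scale ⟨3207803699200, 0, 0, 0⟩ v25; ok v26 && (
  let v27 := add v26 v0; ok v27 && (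
  let v28 := scale ⟨1232655613952, 0, 0, 0⟩ v5; ok v28 && (
  let v29 := mul v24 v28; ok v29 && (
  let v30 := neg v29; ok v30 && (
  let v31 := exp v30; ok v31 && (
  let v32 := cst ⟨6816918405120, 0, 0, 0⟩; ok v32 && (
  let v33 := sub v32 v10; ok v33 && (
  isPos 3 v33 && (
  let v34 := cst ⟨2199023255552, 0, 0, 0⟩; ok v34 && (
  let v35 := sub v34 v2; ok v35 && (
  isPos 3 v35 && (
  let v36 := scale ⟨7335804141568, 0, 0, 0⟩ v4; ok v36 && (
  let v37 := mul v4 v27; ok v37 && (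
  let v38 := mul v37 v36; ok v38 && (
  let v39 := mul x2 v6; ok v39 && (
  let v40 := scale ⟨1232655613952, 0, 0, 0⟩ v39; ok v40 && (
  let v41 := scale ⟨2199023255552, 0, 0, 0⟩ v40; ok v41 && (
  let v42 := sub v27 v41; ok v42 && (
  let v43 := scale ⟨3207803699200, 0, 0, 0⟩ v39; ok v43 && (
  let v44 := scale ⟨2199023255552, 0, 0, 0⟩ v43; ok v44 && (
  let v45 := add v26 v44; ok v45 && (
  let v46 := scale ⟨549755813888, 0, 0, 0⟩ v45; ok v46 && (
  let v47 := add v0 v46; ok v47 && (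
  let v48 := cst ⟨4398046511104, 0, 0, 0⟩; ok v48 && (
  let v49 := add v2 v48; ok v49 && (
  let v50 := inv v49; ok v50 && (
  let v51 := mul v47 v50; ok v51 && (
  let v52 := scale ⟨112608673792, 0, 0, 0⟩ v51; ok v52 && (
  let v53 := scale ⟨4398046511104, 0, 0, 0⟩ v52; ok v53 && (
  let v54 := mul v53 x1; ok v54 && (
  let v55 := sub v0 v54; ok v55 && (
  isPos 3 v55 && (
  let v56 := inv v55; ok v56 && (
  let v57 := cst ⟨2199023255552, 0, 0, 0⟩; ok v57 && (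
  let v58 := scale ⟨274877906944, 0, 0, 0⟩ v10; ok v58 && (
  let v59 := sub v57 v58; ok v59 && (
  let v60 := mul v10 v10; ok v60 && (
  let v61 := scale ⟨5727322112, 0, 0, 0⟩ v60; ok v61 && (
  let v62 := add v59 v61; ok v62 && (
  let v63 := mul v58 v58; ok v63 && (
  let v64 := mul v63 v58; ok v64 && (
  let v65 := mul v64 v64; ok v65 && (
  let v66 := scale ⟨900726784, 0, 0, 0⟩ v65; ok v66 && (
  let v67 := add v62 v66; ok v67 && (
  let v68 := scale ⟨3207803699200, 0, 0, 0⟩ v5; ok v68 && (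
  let v69 := add v67 v68; ok v69 && (
  let v70 := mul v5 v27; ok v70 && (
  let v71 := scale ⟨659707396096, 0, 0, 0⟩ v70; ok v71 && (
  let v72 := add v38 v71; ok v72 && (
  let v73 := exp v72; ok v73 && (
  let v74 := add v69 v73; ok v74 && (
  let v75 := sub v74 v0; ok v75 && (
  let v76 := mul x0 v27; ok v76 && (
  let v77 := mul v76 v36; ok v77 && (
  let v78 := mul v53 v56; ok v78 && (
  let v79 := mul v75 v78; ok v79 && (
  let v80 := add v77 v79; ok v80 && (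
  let v81 := mul v80 x1; ok v81 && (
  let v82 := scale ⟨4947802324992, 0, 0, 0⟩ v1; ok v82 && (
  let v83 := scale ⟨91626668032, 0, 0, 0⟩ x0; ok v83 && (
  let v84 := add v82 v83; ok v84 && (
  let v85 := mul v31 v54; ok v85 && (
  let v86 := sub v0 v85; ok v86 && (
  let v87 := inv v86; ok v87 && (
  let v88 := mul v85 v87; ok v88 && (
  let v89 := mul v1 v88; ok v89 && (
  let v90 := add v84 v89; ok v90 && (
  let v91 := sub v26 v3; ok v91 && (
  let v92 := cst ⟨1108101562368, 0, 0, 0⟩; ok v92 && (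
  let v93 := add v91 v92; ok v93 && (
  let v94 := log v93; ok v94 && (
  let v95 := scale ⟨549755813888, 0, 0, 0⟩ v94; ok v95 && (
  let v96 := exp v95; ok v96 && (
  let v97 := mul v96 x1; ok v97 && (
  let v98 := mul v97 v1; ok v98 && (
  let v99 := scale ⟨549755813888, 0, 0, 0⟩ v98; ok v99 && (
  let v100 := cst ⟨1116004679680, 0, 0, 0⟩; ok v100 && (
  let v101 := add v99 v100; ok v101 && (
  let v102 := scale ⟨549755813888, 0, 0, 0⟩ v6; ok v102 && (
  let v103 := mul v102 v42; ok v103 && (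
  let v104 := scale ⟨2253999046656, 0, 0, 0⟩ x2; ok v104 && (
  let v105 := add v96 v104; ok v105 && (
  let v106 := mul v103 v105; ok v106 && (
  let v107 := scale ⟨5497683968, 0, 0, 0⟩ x2; ok v107 && (
  let v108 := add v96 v107; ok v108 && (
  let v109 := mul v108 v80; ok v109 && (
  let v110 := add v106 v109; ok v110 && (
  let v111 := mul v1 v81; ok v111 && (
  let v112 := scale ⟨1869170606080, 0, 0, 0⟩ v111; ok v112 && (
  let v113 := scale ⟨2418926419968, 0, 0, 0⟩ v90; ok v113 && (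
  let v114 := add v112 v113; ok v114 && (
  let v115 := mul v3 v114; ok v115 && (
  let v116 := add v110 v115; ok v116 && (
  let v117 := mul v101 v116; ok v117 && (
  let v118 := mul v117 v5; ok v118 && (
  let v119 := mul v117 v6; ok v119 && (
  let v120 := cst ⟨1097095708672, 0, 0, 0⟩; ok v120 && (
  let v121 := scale ⟨2199023255552, 0, 0, 0⟩ v119; ok v121 && (
  let v122 := sub v120 v121; ok v122 && (
  isPos 3 v24 && (
  let v123 := sub v0 v119; ok v123 && (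
  isPos 3 v123 && (
  isPos 3 v122 && (
  let v124 := cst ⟨4563402752000, 0, 0, 0⟩; ok v124 && (
  let v125 := cst ⟨3207803699200, 0, 0, 0⟩; ok v125 && (
  let v126 := sub v124 v125; ok v126 && (
  let v127 := sub v126 v117; ok v127 && (
  let v128 := add v119 v0; ok v128 && (
  let v129 := mul v128 v128; ok v129 && (
  let v130 := sub v127 v129; ok v130 && (
  isPos 3 v130 && (
  let v131 := scale ⟨10115506765824, 0, 0, 0⟩ v122; ok v131 && (
  let v132 := sub v131 v124; ok v132 && (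
  isPos 3 v132 && (
  let v133 := scale ⟨989560045568, 0, 0, 0⟩ v122; ok v133 && (
  let v134 := scale ⟨18940000468992, 0, 0, 0⟩ v11; ok v134 && (
  let v135 := sub v133 v134; ok v135 && (
  isPos 3 v135 && (
  let v136 := cst ⟨1232655613952, 0, 0, 0⟩; ok v136 && (
  let v137 := sub v136 v117; ok v137 && (
  isPos 3 v137 && (
  let v138 := scale ⟨243454181376, 0, 0, 0⟩ v123; ok v138 && (
  let v139 := scale ⟨1124744560640, 0, 0, 0⟩ v117; ok v139 && (
  let v140 := sub v138 v139; ok v140 && (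
  isPos 3 v140 && (
  let v141 := sub v0 v121; ok v141 && (
  let v142 := scale ⟨3463891124224, 0, 0, 0⟩ v141; ok v142 && (
  let v143 := sub v142 v125; ok v143 && (
  let v144 := sub v143 v117; ok v144 && (
  isPos 3 v144 && (
  let v145 := neg v111; ok v145 && (
  let v146 := cst ⟨10994319360, 0, 0, 0⟩; ok v146 && (
  let v147 := add v145 v146; ok v147 && (
  isPos 3 v147 && (
  let v148 := neg v90; ok v148 && (
  let v149 := cst ⟨21989687296, 0, 0, 0⟩; ok v149 && (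
  let v150 := add v148 v149; ok v150 && (
  isPos 3 v150 && (
  let v151 := neg v98; ok v151 && (
  let v152 := cst ⟨109950533632, 0, 0, 0⟩; ok v152 && (
  let v153 := add v151 v152; ok v153 && (
  isPos 3 v153 && (
  let v154 := mul v118 v1; ok v154 && (
  let v155 := neg v154; ok v155 && (
  let v156 := cst ⟨5496635392, 0, 0, 0⟩; ok v156 && (
  let v157 := add v155 v156; ok v157 && (
  isPos 3 v157 && (
  let v158 := neg v118; ok v158 && (
  let v159 := cst ⟨11005853696, 0, 0, 0⟩; ok v159 && (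
  let v160 := add v158 v159; ok v160 && (
  isPos 3 v160 && (
  let v161 := mul v5 v122; ok v161 && (
  let v162 := scale ⟨2090604691456, 0, 0, 0⟩ v161; ok v162 && (
  let v163 := mul v24 v162; ok v163 && (
  let v164 := neg v163; ok v164 && (
  let v165 := exp v164; ok v165 && (
  let v166 := scale ⟨6579889897472, 0, 0, 0⟩ v118; ok v166 && (
  let v167 := add v166 v118; ok v167 && (
  let v168 := scale ⟨6579889897472, 0, 0, 0⟩ v119; ok v168 && (
  let v169 := add v168 v119; ok v169 && (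
  let v170 := scale ⟨549755813888, 0, 0, 0⟩ v167; ok v170 && (
  let v171 := sub v0 v170; ok v171 && (
  isPos 3 v171 && (
  let v172 := inv v171; ok v172 && (
  let v173 := add v170 v0; ok v173 && (
  let v174 := mul v173 v172; ok v174 && (
  let v175 := mul v169 v172; ok v175 && (
  let v176 := scale ⟨274877906944, 0, 0, 0⟩ v2; ok v176 && (
  let v177 := add v176 v0; ok v177 && (
  let v178 := mul v175 v177; ok v178 && (
  let v179 := scale ⟨94623498240, 0, 0, 0⟩ v165; ok v179 && (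
  let v180 := mul v174 v179; ok v180 && (
  let v181 := add v27 v117; ok v181 && (
  let v182 := mul v6 v181; ok v182 && (
  let v183 := add v182 v0; ok v183 && (
  let v184 := mul v180 v183; ok v184 && (
  let v185 := add v178 v184; ok v185 && (
  let v186 := neg v185; ok v186 && (
  let v187 := cst ⟨112606576640, 0, 0, 0⟩; ok v187 && (
  let v188 := add v186 v187; ok v188 && (
  isPos 3 v188 && (
  true))))))))))))))))))))))))))))))))))))))))))))))))))))))))))))))))))))))))))))))))))))))))))))))))))))))))))))))))))))))))))))))))))))))))))))))))))))))))))))))))))))))))))))))))))))))))))))))))))))))))))))))))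
  | _ => false

set_option maxRecDepth 1000000 in
theorem chk7_eq (O : Ops) (m : List O.α)
    (h : chk7 O.cst O.add O.sub O.mul O.scale O.neg O.inv O.exp O.log O.ok O.isPos O.isLt m = true) :
    runG O 3 prog7 m = true := by
  match m, h with
  | [x0, x1, x2], h => exact h

def chkB7 : List opsE.α → Bool :=
  chk7 opsE.cst opsE.add opsE.sub opsE.mul opsE.scale opsE.neg opsE.inv opsE.exp opsE.log opsE.ok opsE.isPos opsE.isLt

theorem chkB7_eq (m : List opsE.α) (h : chkB7 m = true) : runG opsE 3 prog7 m = true :=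
  chk7_eq opsE m h

def prog8 : List Op := [
  .const ⟨1099511627776, 0, 0, 0⟩,
  .mul 1 1,
  .mul 4 3,
  .mul 5 5,
  .mul 4 5,
  .mul 0 0,
  .mul 1 6,
  .mul 8 8,
  .neg 4,
  .add 0 8,
  .mul 2 0,
  .mul 5 9,
  .const ⟨1099243192320, 0, 0, 0⟩,
  .scale ⟨3111703805952, 0, 0, 0⟩ 13,
  .sub 1 0,
  .scale ⟨32985348833280, 0, 0, 0⟩ 13,
  .sub 1 0,
  .scale ⟨1556388773888, 0, 0, 0⟩ 17,
  .sub 5 0,
  .scale ⟨26388279066624, 0, 0, 0⟩ 17,
  .sub 1 0,
  .scale ⟨8796093022208, 0, 0, 0⟩ 19,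
  .sub 5 0,
  .scale ⟨11408506880000, 0, 0, 0⟩ 11,
  .sub 1 0,
  .scale ⟨3207803699200, 0, 0, 0⟩ 13,
  .scale ⟨3207803699200, 0, 0, 0⟩ 0,
  .add 0 26,
  .scale ⟨1232655613952, 0, 0, 0⟩ 22,
  .mul 4 0,
  .neg 0,
  .exp 0,
  .const ⟨7375532589056, 0, 0, 0⟩,
  .sub 0 22,
  .pos 0,
  .const ⟨1649267441664, 0, 0, 0⟩,
  .sub 0 32,
  .pos 0,
  .scale ⟨9191230013440, 0, 0, 0⟩ 31,
  .mul 32 9,
  .mul 0 1,
  .mul 41 32,
  .scale ⟨1232655613952, 0, 0, 0⟩ 0,
  .scale ⟨2199023255552, 0, 0, 0⟩ 0,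
  .sub 14 0,
  .scale ⟨3207803699200, 0, 0, 0⟩ 3,
  .scale ⟨2199023255552, 0, 0, 0⟩ 0,
  .add 18 0,
  .scale ⟨549755813888, 0, 0, 0⟩ 0,
  .add 46 0,
  .const ⟨4398046511104, 0, 0, 0⟩,
  .add 46 0,
  .inv 0,
  .mul 3 0,
  .scale ⟨112608673792, 0, 0, 0⟩ 0,
  .scale ⟨4398046511104, 0, 0, 0⟩ 0,
  .mul 0 55,
  .sub 54 0,
  .pos 0,
  .inv 0,
  .const ⟨2199023255552, 0, 0, 0⟩,
  .scale ⟨274877906944, 0, 0, 0⟩ 47,
  .sub 1 0,
  .mul 49 49,
  .scale ⟨5727322112, 0, 0, 0⟩ 0,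
  .add 2 0,
  .mul 4 4,
  .mul 0 5,
  .mul 0 0,
  .scale ⟨900726784, 0, 0, 0⟩ 0,
  .add 4 0,
  .scale ⟨3207803699200, 0, 0, 0⟩ 62,
  .add 1 0,
  .mul 64 42,
  .scale ⟨659707396096, 0, 0, 0⟩ 0,
  .add 33 0,
  .exp 0,
  .add 4 0,
  .sub 0 74,
  .mul 76 48,
  .mul 0 40,
  .mul 24 21,
  .mul 3 0,
  .add 2 0,
  .mul 0 82,
  .scale ⟨4947802324992, 0, 0, 0⟩ 80,
  .scale ⟨91626668032, 0, 0, 0⟩ 83,
  .add 1 0,
  .mul 53 30,
  .sub 85 0,
  .inv 0,
  .mul 2 0,
  .mul 87 0,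
  .add 5 0,
  .sub 64 87,
  .const ⟨1108101562368, 0, 0, 0⟩,
  .add 1 0,
  .log 0,
  .scale ⟨549755813888, 0, 0, 0⟩ 0,
  .exp 0,
  .mul 0 98,
  .mul 0 96,
  .scale ⟨549755813888, 0, 0, 0⟩ 0,
  .const ⟨1116004679680, 0, 0, 0⟩,
  .add 1 0,
  .scale ⟨549755813888, 0, 0, 0⟩ 95,
  .mul 0 60,
  .scale ⟨2253999046656, 0, 0, 0⟩ 106,
  .add 8 0,
  .mul 2 0,
  .scale ⟨5497683968, 0, 0, 0⟩ 109,
  .add 11 0,
  .mul 0 28,
  .add 3 0,
  .mul 109 29,
  .scale ⟨1869170606080, 0, 0, 0⟩ 0,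
  .scale ⟨2418926419968, 0, 0, 0⟩ 22,
  .add 1 0,
  .mul 111 0,
  .add 5 0,
  .mul 15 0,
  .mul 0 112,
  .mul 1 112,
  .const ⟨1097095708672, 0, 0, 0⟩,
  .scale ⟨2199023255552, 0, 0, 0⟩ 1,
  .sub 1 0,
  .pos 98,
  .sub 122 3,
  .pos 0,
  .pos 1,
  .const ⟨4563402752000, 0, 0, 0⟩,
  .const ⟨3207803699200, 0, 0, 0⟩,
  .sub 1 0,
  .sub 0 9,
  .add 8 127,
  .mul 0 0,
  .sub 2 0,
  .pos 0,
  .scale ⟨10115506765824, 0, 0, 0⟩ 8,
  .sub 0 7,
  .pos 0,
  .scale ⟨989560045568, 0, 0, 0⟩ 10,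
  .scale ⟨18940000468992, 0, 0, 0⟩ 122,
  .sub 1 0,
  .pos 0,
  .const ⟨1232655613952, 0, 0, 0⟩,
  .sub 0 19,
  .pos 0,
  .scale ⟨243454181376, 0, 0, 0⟩ 14,
  .scale ⟨1124744560640, 0, 0, 0⟩ 21,
  .sub 1 0,
  .pos 0,
  .sub 140 19,
  .scale ⟨3463891124224, 0, 0, 0⟩ 0,
  .sub 0 17,
  .sub 0 26,
  .pos 0,
  .neg 33,
  .const ⟨10994319360, 0, 0, 0⟩,
  .add 1 0,
  .pos 0,
  .neg 57,
  .const ⟨21989687296, 0, 0, 0⟩,
  .add 1 0,
  .pos 0,
  .neg 52,
  .const ⟨109950533632, 0, 0, 0⟩,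
  .add 1 0,
  .pos 0,
  .mul 35 152,
  .neg 0,
  .const ⟨5496635392, 0, 0, 0⟩,
  .add 1 0,
  .pos 0,
  .neg 39,
  .const ⟨11005853696, 0, 0, 0⟩,
  .add 1 0,
  .pos 0,
  .mul 155 38,
  .scale ⟨2090604691456, 0, 0, 0⟩ 0,
  .mul 138 0,
  .neg 0,
  .exp 0,
  .scale ⟨8418135900160, 0, 0, 0⟩ 47,
  .add 0 48,
  .scale ⟨8418135900160, 0, 0, 0⟩ 48,
  .add 0 49,
  .scale ⟨549755813888, 0, 0, 0⟩ 2,
  .sub 170 0,
  .pos 0,
  .inv 0,
  .add 2 172,
  .mul 0 1,
  .mul 5 2,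
  .scale ⟨274877906944, 0, 0, 0⟩ 173,
  .add 0 176,
  .mul 2 0,
  .scale ⟨94623498240, 0, 0, 0⟩ 13,
  .mul 5 0,
  .add 153 63,
  .mul 175 0,
  .add 0 182,
  .mul 3 0,
  .add 6 0,
  .neg 0,
  .const ⟨112606576640, 0, 0, 0⟩,
  .add 1 0,
  .pos 0]

def chk8 {α : Type} (cst : Z → α) (add sub mul : α → α → α) (scale : Z → α → α)
    (neg inv exp log : α → α) (ok : α → Bool) (isPos : Nat → α → Bool) (isLt : α → Nat → Bool) :
    List α → Bool
  | [x0, x1, x2] =>
  let v0 := cst ⟨1099511627776, 0, 0, 0⟩; ok v0 && (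
  let v1 := mul x0 x0; ok v1 && (
  let v2 := mul x2 x1; ok v2 && (
  let v3 := mul x2 x2; ok v3 && (
  let v4 := mul x0 x1; ok v4 && (
  let v5 := mul v4 v4; ok v5 && (
  let v6 := mul v4 x0; ok v6 && (
  let v7 := mul x1 x1; ok v7 && (
  let v8 := neg v3; ok v8 && (
  let v9 := add v8 v0; ok v9 && (
  let v10 := mul v7 v9; ok v10 && (
  let v11 := mul v5 v1; ok v11 && (
  let v12 := cst ⟨1099243192320, 0, 0, 0⟩; ok v12 && (
  let v13 := scale ⟨3111703805952, 0, 0, 0⟩ x0; ok v13 && (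
  let v14 := sub v12 v13; ok v14 && (
  let v15 := scale ⟨32985348833280, 0, 0, 0⟩ v1; ok v15 && (
  let v16 := sub v14 v15; ok v16 && (
  let v17 := scale ⟨1556388773888, 0, 0, 0⟩ x0; ok v17 && (
  let v18 := sub v12 v17; ok v18 && (
  let v19 := scale ⟨26388279066624, 0, 0, 0⟩ v1; ok v19 && (
  let v20 := sub v18 v19; ok v20 && (
  let v21 := scale ⟨8796093022208, 0, 0, 0⟩ v1; ok v21 && (
  let v22 := sub v16 v21; ok v22 && (
  let v23 := scale ⟨11408506880000, 0, 0, 0⟩ v11; ok v23 && (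
  let v24 := sub v22 v23; ok v24 && (
  let v25 := scale ⟨3207803699200, 0, 0, 0⟩ v11; ok v25 && (
  let v26 := scale ⟨3207803699200, 0, 0, 0⟩ v25; ok v26 && (
  let v27 := add v26 v0; ok v27 && (
  let v28 := scale ⟨1232655613952, 0, 0, 0⟩ v5; ok v28 && (
  let v29 := mul v24 v28; ok v29 && (
  let v30 := neg v29; ok v30 && (
  let v31 := exp v30; ok v31 && (
  let v32 := cst ⟨7375532589056, 0, 0, 0⟩; ok v32 && (
  let v33 := sub v32 v10; ok v33 && (
  isPos 3 v33 && (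
  let v34 := cst ⟨1649267441664, 0, 0, 0⟩; ok v34 && (
  let v35 := sub v34 v2; ok v35 && (
  isPos 3 v35 && (
  let v36 := scale ⟨9191230013440, 0, 0, 0⟩ v4; ok v36 && (
  let v37 := mul v4 v27; ok v37 && (
  let v38 := mul v37 v36; ok v38 && (
  let v39 := mul x2 v6; ok v39 && (
  let v40 := scale ⟨1232655613952, 0, 0, 0⟩ v39; ok v40 && (
  let v41 := scale ⟨2199023255552, 0, 0, 0⟩ v40; ok v41 && (
  let v42 := sub v27 v41; ok v42 && (
  let v43 := scale ⟨3207803699200, 0, 0, 0⟩ v39; ok v43 && (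
  let v44 := scale ⟨2199023255552, 0, 0, 0⟩ v43; ok v44 && (
  let v45 := add v26 v44; ok v45 && (
  let v46 := scale ⟨549755813888, 0, 0, 0⟩ v45; ok v46 && (
  let v47 := add v0 v46; ok v47 && (
  let v48 := cst ⟨4398046511104, 0, 0, 0⟩; ok v48 && (
  let v49 := add v2 v48; ok v49 && (
  let v50 := inv v49; ok v50 && (
  let v51 := mul v47 v50; ok v51 && (
  let v52 := scale ⟨112608673792, 0, 0, 0⟩ v51; ok v52 && (
  let v53 := scale ⟨4398046511104, 0, 0, 0⟩ v52; ok v53 && (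
  let v54 := mul v53 x1; ok v54 && (
  let v55 := sub v0 v54; ok v55 && (
  isPos 3 v55 && (
  let v56 := inv v55; ok v56 && (
  let v57 := cst ⟨2199023255552, 0, 0, 0⟩; ok v57 && (
  let v58 := scale ⟨274877906944, 0, 0, 0⟩ v10; ok v58 && (
  let v59 := sub v57 v58; ok v59 && (
  let v60 := mul v10 v10; ok v60 && (
  let v61 := scale ⟨5727322112, 0, 0, 0⟩ v60; ok v61 && (
  let v62 := add v59 v61; ok v62 && (
  let v63 := mul v58 v58; ok v63 && (
  let v64 := mul v63 v58; ok v64 && (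
  let v65 := mul v64 v64; ok v65 && (
  let v66 := scale ⟨900726784, 0, 0, 0⟩ v65; ok v66 && (
  let v67 := add v62 v66; ok v67 && (
  let v68 := scale ⟨3207803699200, 0, 0, 0⟩ v5; ok v68 && (
  let v69 := add v67 v68; ok v69 && (
  let v70 := mul v5 v27; ok v70 && (
  let v71 := scale ⟨659707396096, 0, 0, 0⟩ v70; ok v71 && (
  let v72 := add v38 v71; ok v72 && (
  let v73 := exp v72; ok v73 && (
  let v74 := add v69 v73; ok v74 && (
  let v75 := sub v74 v0; ok v75 && (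
  let v76 := mul x0 v27; ok v76 && (
  let v77 := mul v76 v36; ok v77 && (
  let v78 := mul v53 v56; ok v78 && (
  let v79 := mul v75 v78; ok v79 && (
  let v80 := add v77 v79; ok v80 && (
  let v81 := mul v80 x1; ok v81 && (
  let v82 := scale ⟨4947802324992, 0, 0, 0⟩ v1; ok v82 && (
  let v83 := scale ⟨91626668032, 0, 0, 0⟩ x0; ok v83 && (
  let v84 := add v82 v83; ok v84 && (
  let v85 := mul v31 v54; ok v85 && (
  let v86 := sub v0 v85; ok v86 && (
  let v87 := inv v86; ok v87 && (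
  let v88 := mul v85 v87; ok v88 && (
  let v89 := mul v1 v88; ok v89 && (
  let v90 := add v84 v89; ok v90 && (
  let v91 := sub v26 v3; ok v91 && (
  let v92 := cst ⟨1108101562368, 0, 0, 0⟩; ok v92 && (
  let v93 := add v91 v92; ok v93 && (
  let v94 := log v93; ok v94 && (
  let v95 := scale ⟨549755813888, 0, 0, 0⟩ v94; ok v95 && (
  let v96 := exp v95; ok v96 && (
  let v97 := mul v96 x1; ok v97 && (
  let v98 := mul v97 v1; ok v98 && (
  let v99 := scale ⟨549755813888, 0, 0, 0⟩ v98; ok v99 && (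
  let v100 := cst ⟨1116004679680, 0, 0, 0⟩; ok v100 && (
  let v101 := add v99 v100; ok v101 && (
  let v102 := scale ⟨549755813888, 0, 0, 0⟩ v6; ok v102 && (
  let v103 := mul v102 v42; ok v103 && (
  let v104 := scale ⟨2253999046656, 0, 0, 0⟩ x2; ok v104 && (
  let v105 := add v96 v104; ok v105 && (
  let v106 := mul v103 v105; ok v106 && (
  let v107 := scale ⟨5497683968, 0, 0, 0⟩ x2; ok v107 && (
  let v108 := add v96 v107; ok v108 && (
  let v109 := mul v108 v80; ok v109 && (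
  let v110 := add v106 v109; ok v110 && (
  let v111 := mul v1 v81; ok v111 && (
  let v112 := scale ⟨1869170606080, 0, 0, 0⟩ v111; ok v112 && (
  let v113 := scale ⟨2418926419968, 0, 0, 0⟩ v90; ok v113 && (
  let v114 := add v112 v113; ok v114 && (
  let v115 := mul v3 v114; ok v115 && (
  let v116 := add v110 v115; ok v116 && (
  let v117 := mul v101 v116; ok v117 && (
  let v118 := mul v117 v5; ok v118 && (
  let v119 := mul v117 v6; ok v119 && (
  let v120 := cst ⟨1097095708672, 0, 0, 0⟩; ok v120 && (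
  let v121 := scale ⟨2199023255552, 0, 0, 0⟩ v119; ok v121 && (
  let v122 := sub v120 v121; ok v122 && (
  isPos 3 v24 && (
  let v123 := sub v0 v119; ok v123 && (
  isPos 3 v123 && (
  isPos 3 v122 && (
  let v124 := cst ⟨4563402752000, 0, 0, 0⟩; ok v124 && (
  let v125 := cst ⟨3207803699200, 0, 0, 0⟩; ok v125 && (
  let v126 := sub v124 v125; ok v126 && (
  let v127 := sub v126 v117; ok v127 && (
  let v128 := add v119 v0; ok v128 && (
  let v129 := mul v128 v128; ok v129 && (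
  let v130 := sub v127 v129; ok v130 && (
  isPos 3 v130 && (
  let v131 := scale ⟨10115506765824, 0, 0, 0⟩ v122; ok v131 && (
  let v132 := sub v131 v124; ok v132 && (
  isPos 3 v132 && (
  let v133 := scale ⟨989560045568, 0, 0, 0⟩ v122; ok v133 && (
  let v134 := scale ⟨18940000468992, 0, 0, 0⟩ v11; ok v134 && (
  let v135 := sub v133 v134; ok v135 && (
  isPos 3 v135 && (
  let v136 := cst ⟨1232655613952, 0, 0, 0⟩; ok v136 && (
  let v137 := sub v136 v117; ok v137 && (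
  isPos 3 v137 && (
  let v138 := scale ⟨243454181376, 0, 0, 0⟩ v123; ok v138 && (
  let v139 := scale ⟨1124744560640, 0, 0, 0⟩ v117; ok v139 && (
  let v140 := sub v138 v139; ok v140 && (
  isPos 3 v140 && (
  let v141 := sub v0 v121; ok v141 && (
  let v142 := scale ⟨3463891124224, 0, 0, 0⟩ v141; ok v142 && (
  let v143 := sub v142 v125; ok v143 && (
  let v144 := sub v143 v117; ok v144 && (
  isPos 3 v144 && (
  let v145 := neg v111; ok v145 && (
  let v146 := cst ⟨10994319360, 0, 0, 0⟩; ok v146 && (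
  let v147 := add v145 v146; ok v147 && (
  isPos 3 v147 && (
  let v148 := neg v90; ok v148 && (
  let v149 := cst ⟨21989687296, 0, 0, 0⟩; ok v149 && (
  let v150 := add v148 v149; ok v150 && (
  isPos 3 v150 && (
  let v151 := neg v98; ok v151 && (
  let v152 := cst ⟨109950533632, 0, 0, 0⟩; ok v152 && (
  let v153 := add v151 v152; ok v153 && (
  isPos 3 v153 && (
  let v154 := mul v118 v1; ok v154 && (
  let v155 := neg v154; ok v155 && (
  let v156 := cst ⟨5496635392, 0, 0, 0⟩; ok v156 && (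
  let v157 := add v155 v156; ok v157 && (
  isPos 3 v157 && (
  let v158 := neg v118; ok v158 && (
  let v159 := cst ⟨11005853696, 0, 0, 0⟩; ok v159 && (
  let v160 := add v158 v159; ok v160 && (
  isPos 3 v160 && (
  let v161 := mul v5 v122; ok v161 && (
  let v162 := scale ⟨2090604691456, 0, 0, 0⟩ v161; ok v162 && (
  let v163 := mul v24 v162; ok v163 && (
  let v164 := neg v163; ok v164 && (
  let v165 := exp v164; ok v165 && (
  let v166 := scale ⟨8418135900160, 0, 0, 0⟩ v118; ok v166 && (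
  let v167 := add v166 v118; ok v167 && (
  let v168 := scale ⟨8418135900160, 0, 0, 0⟩ v119; ok v168 && (
  let v169 := add v168 v119; ok v169 && (
  let v170 := scale ⟨549755813888, 0, 0, 0⟩ v167; ok v170 && (
  let v171 := sub v0 v170; ok v171 && (
  isPos 3 v171 && (
  let v172 := inv v171; ok v172 && (
  let v173 := add v170 v0; ok v173 && (
  let v174 := mul v173 v172; ok v174 && (
  let v175 := mul v169 v172; ok v175 && (
  let v176 := scale ⟨274877906944, 0, 0, 0⟩ v2; ok v176 && (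
  let v177 := add v176 v0; ok v177 && (
  let v178 := mul v175 v177; ok v178 && (
  let v179 := scale ⟨94623498240, 0, 0, 0⟩ v165; ok v179 && (
  let v180 := mul v174 v179; ok v180 && (
  let v181 := add v27 v117; ok v181 && (
  let v182 := mul v6 v181; ok v182 && (
  let v183 := add v182 v0; ok v183 && (
  let v184 := mul v180 v183; ok v184 && (
  let v185 := add v178 v184; ok v185 && (
  let v186 := neg v185; ok v186 && (
  let v187 := cst ⟨112606576640, 0, 0, 0⟩; ok v187 && (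
  let v188 := add v186 v187; ok v188 && (
  isPos 3 v188 && (
  true))))))))))))))))))))))))))))))))))))))))))))))))))))))))))))))))))))))))))))))))))))))))))))))))))))))))))))))))))))))))))))))))))))))))))))))))))))))))))))))))))))))))))))))))))))))))))))))))))))))))))))))))
  | _ => false

set_option maxRecDepth 1000000 in
theorem chk8_eq (O : Ops) (m : List O.α)
    (h : chk8 O.cst O.add O.sub O.mul O.scale O.neg O.inv O.exp O.log O.ok O.isPos O.isLt m = true) :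
    runG O 3 prog8 m = true := by
  match m, h with
  | [x0, x1, x2], h => exact h

def chkB8 : List opsE.α → Bool :=
  chk8 opsE.cst opsE.add opsE.sub opsE.mul opsE.scale opsE.neg opsE.inv opsE.exp opsE.log opsE.ok opsE.isPos opsE.isLt

theorem chkB8_eq (m : List opsE.α) (h : chkB8 m = true) : runG opsE 3 prog8 m = true :=
  chk8_eq opsE m h

def prog9 : List Op := [
  .mul 2 1,
  .const ⟨5498217693184, 0, 0, 0⟩,
  .sub 1 0,
  .pos 0]

def chk9 {α : Type} (cst : Z → α) (add sub mul : α → α → α) (scale : Z → α → α)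
    (neg inv exp log : α → α) (ok : α → Bool) (isPos : Nat → α → Bool) (isLt : α → Nat → Bool) :
    List α → Bool
  | [x0, x1, x2] =>
  let v0 := mul x2 x1; ok v0 && (
  let v1 := cst ⟨5498217693184, 0, 0, 0⟩; ok v1 && (
  let v2 := sub v0 v1; ok v2 && (
  isPos 3 v2 && (
  true))))
  | _ => false

set_option maxRecDepth 1000000 in
theorem chk9_eq (O : Ops) (m : List O.α)
    (h : chk9 O.cst O.add O.sub O.mul O.scale O.neg O.inv O.exp O.log O.ok O.isPos O.isLt m = true) :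
    runG O 3 prog9 m = true := by
  match m, h with
  | [x0, x1, x2], h => exact h

def chkB9 : List opsE.α → Bool :=
  chk9 opsE.cst opsE.add opsE.sub opsE.mul opsE.scale opsE.neg opsE.inv opsE.exp opsE.log opsE.ok opsE.isPos opsE.isLt

theorem chkB9_eq (m : List opsE.α) (h : chkB9 m = true) : runG opsE 3 prog9 m = true :=
  chk9_eq opsE m h

def prog10 : List Op := [
  .mul 1 1,
  .mul 3 3,
  .neg 0,
  .const ⟨1099511627776, 0, 0, 0⟩,
  .add 1 0,
  .mul 4 0,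
  .const ⟨11260598943744, 0, 0, 0⟩,
  .sub 1 0,
  .pos 0]

def chk10 {α : Type} (cst : Z → α) (add sub mul : α → α → α) (scale : Z → α → α)
    (neg inv exp log : α → α) (ok : α → Bool) (isPos : Nat → α → Bool) (isLt : α → Nat → Bool) :
    List α → Bool
  | [x0, x1, x2] =>
  let v0 := mul x1 x1; ok v0 && (
  let v1 := mul x2 x2; ok v1 && (
  let v2 := neg v1; ok v2 && (
  let v3 := cst ⟨1099511627776, 0, 0, 0⟩; ok v3 && (
  let v4 := add v2 v3; ok v4 && (
  let v5 := mul v0 v4; ok v5 && (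
  let v6 := cst ⟨11260598943744, 0, 0, 0⟩; ok v6 && (
  let v7 := sub v5 v6; ok v7 && (
  isPos 3 v7 && (
  true)))))))))
  | _ => false

set_option maxRecDepth 1000000 in
theorem chk10_eq (O : Ops) (m : List O.α)
    (h : chk10 O.cst O.add O.sub O.mul O.scale O.neg O.inv O.exp O.log O.ok O.isPos O.isLt m = true) :
    runG O 3 prog10 m = true := by
  match m, h with
  | [x0, x1, x2], h => exact h

def chkB10 : List opsE.α → Bool :=
  chk10 opsE.cst opsE.add opsE.sub opsE.mul opsE.scale opsE.neg opsE.inv opsE.exp opsE.log opsE.ok opsE.isPos opsE.isLt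

theorem chkB10_eq (m : List opsE.α) (h : chkB10 m = true) : runG opsE 3 prog10 m = true :=
  chk10_eq opsE m h

def progs : List (List Op) := [prog0, prog1, prog2, prog3, prog4, prog5, prog6, prog7, prog8, prog9, prog10]

def chks : List (List opsE.α → Bool) := [chkB0, chkB1, chkB2, chkB3, chkB4, chkB5, chkB6, chkB7, chkB8, chkB9, chkB10]

theorem chks_eq : List.Forall₂ (fun (ops : List Op) (chk : List opsE.α → Bool) =>
    ∀ m, chk m = true → runG opsE 3 ops m = true) progs chks :=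
  List.Forall₂.cons chkB0_eq (List.Forall₂.cons chkB1_eq (List.Forall₂.cons chkB2_eq (List.Forall₂.cons chkB3_eq (List.Forall₂.cons chkB4_eq (List.Forall₂.cons chkB5_eq (List.Forall₂.cons chkB6_eq (List.Forall₂.cons chkB7_eq (List.Forall₂.cons chkB8_eq (List.Forall₂.cons chkB9_eq (List.Forall₂.cons chkB10_eq List.Forall₂.nil))))))))))

end Pool.Agent.helper31.EQB.Cert.LA0
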