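import Pool.Agent.helper31.EQB.Cert.LA0P

/-!
Generated certificates.
-/

namespace Pool.Agent.helper31.EQB.Cert.LA0

open Pool.Agent.helper31.IA (Z Op)
open Pool.Agent.helper31.IC

mutual
theorem c0_m0_t0 : CovD 0 progs [(24629084160, 24629084160), (412316860416, 412316860416), (274877906944, 274877906944)] :=
  Pool.Agent.helper14.QF.covD_F chks_eq (.n 1 (.n 2 (.n 2 (.n 1 (.l 1) (.n 2 (.l 1) (.l 1))) (.l 1)) (.n 0 (.l 1) (.l 1))) (.n 1 (.n 2 (.n 2 (.n 0 (.l 1) (.n 2 (.n 1 (.l 1) (.n 2 (.l 1) (.l 1))) (.l 1))) (.l 1)) (.l 1)) (.n 2 (.n 2 (.n 0 (.l 1) (.n 2 (.n 1 (.n 0 (.l 1) (.n 1 (.l 1) (.l 1))) (.l 1)) (.l 1))) (.l 1)) (.l 1))))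
    [(24629084160, 24629084160), (412316860416, 412316860416), (274877906944, 274877906944)] rfl (by decide +kernel)
theorem c0_m0_t1 : CovD 0 progs [(24629084160, 24629084160), (1236950581248, 412316860416), (274877906944, 274877906944)] :=
  Pool.Agent.helper14.QF.covD_F chks_eq (.n 1 (.n 2 (.n 0 (.n 1 (.l 1) (.l 2)) (.n 2 (.n 1 (.n 1 (.l 1) (.l 1)) (.l 2)) (.l 2))) (.l 2)) (.n 2 (.n 1 (.l 2) (.l 3)) (.l 2)))
    [(24629084160, 24629084160), (1236950581248, 412316860416), (274877906944, 274877906944)] rfl (by decide +kernel)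
end
mutual
theorem c1_m0 : CovD 0 progs [(24629084160, 24629084160), (824633720832, 824633720832), (824633720832, 274877906944)] :=
  Pool.Agent.helper14.QF.covD_F chks_eq (.n 2 (.n 1 (.l 1) (.l 2)) (.n 2 (.l 2) (.n 2 (.l 1) (.n 2 (.l 0) (.n 2 (.l 0) (.n 2 (.l 0) (.n 2 (.l 0) (.l 0))))))))
    [(24629084160, 24629084160), (824633720832, 824633720832), (824633720832, 274877906944)] rfl (by decide +kernel)
theorem c2_m0 : CovD 0 progs [(24629084160, 24629084160), (2473901162496, 824633720832), (274877906944, 274877906944)] :=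
  Pool.Agent.helper14.QF.covD_F chks_eq (.n 1 (.n 1 (.n 0 (.l 3) (.l 3)) (.l 6)) (.n 1 (.n 1 (.l 8) (.n 2 (.n 1 (.l 8) (.n 2 (.l 0) (.n 1 (.l 8) (.l 0)))) (.l 8))) (.n 0 (.l 0) (.n 0 (.l 0) (.n 1 (.n 1 (.n 2 (.l 0) (.n 2 (.n 2 (.l 0) (.l 8)) (.l 8))) (.n 2 (.l 0) (.n 2 (.l 0) (.n 2 (.l 0) (.l 8))))) (.n 2 (.l 0) (.n 2 (.l 0) (.n 2 (.l 0) (.l 0)))))))))
    [(24629084160, 24629084160), (2473901162496, 824633720832), (274877906944, 274877906944)] rfl (by decide +kernel)
end
mutual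
theorem c3_m0 : CovD 0 progs [(24629084160, 24629084160), (2473901162496, 824633720832), (824633720832, 274877906944)] :=
  Pool.Agent.helper14.QF.covD_F chks_eq (.n 2 (.n 0 (.l 0) (.n 1 (.l 3) (.n 0 (.l 0) (.n 1 (.l 6) (.n 0 (.l 0) (.n 2 (.n 1 (.l 7) (.n 1 (.n 1 (.l 7) (.n 2 (.n 2 (.l 0) (.l 7)) (.l 7))) (.n 2 (.n 1 (.n 2 (.l 0) (.l 0)) (.l 0)) (.l 7)))) (.l 6))))))) (.n 2 (.l 4) (.n 2 (.l 2) (.n 2 (.l 2) (.n 2 (.l 0) (.n 2 (.l 0) (.n 2 (.l 0) (.l 0))))))))
    [(24629084160, 24629084160), (2473901162496, 824633720832), (824633720832, 274877906944)] rfl (by decide +kernel)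
theorem c4_m0 : CovD 0 progs [(24629084160, 24629084160), (4123168604160, 824633720832), (274877906944, 274877906944)] :=
  Pool.Agent.helper14.QF.covD_F chks_eq (.n 1 (.n 1 (.n 0 (.l 0) (.n 2 (.l 0) (.n 1 (.l 0) (.l 0)))) (.n 2 (.l 10) (.n 0 (.l 0) (.n 1 (.l 0) (.n 2 (.l 10) (.l 0)))))) (.n 1 (.n 1 (.l 10) (.l 10)) (.l 10)))
    [(24629084160, 24629084160), (4123168604160, 824633720832), (274877906944, 274877906944)] rfl (by decide +kernel)
end
mutual
theorem c5_m0_t0 : CovD 0 progs [(24629084160, 24629084160), (4123168604160, 824633720832), (618475290624, 68719476736)] :=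
  Pool.Agent.helper14.QF.covD_F chks_eq (.n 0 (.n 1 (.l 0) (.l 0)) (.n 1 (.n 1 (.n 1 (.n 2 (.l 0) (.n 1 (.n 2 (.l 0) (.n 2 (.l 7) (.l 7))) (.l 0))) (.l 0)) (.l 0)) (.n 1 (.n 1 (.l 0) (.n 2 (.l 10) (.l 0))) (.n 1 (.n 1 (.l 10) (.l 10)) (.l 10)))))
    [(24629084160, 24629084160), (4123168604160, 824633720832), (618475290624, 68719476736)] rfl (by decide +kernel)
theorem c5_m0_t1 : CovD 0 progs [(12314542080, 12314542080), (4123168604160, 824633720832), (755914244096, 68719476736)] :=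
  Pool.Agent.helper14.QF.covD_F chks_eq (.l 0)
    [(12314542080, 12314542080), (4123168604160, 824633720832), (755914244096, 68719476736)] rfl (by decide +kernel)
end
mutual
theorem c5_m0_t2 : CovD 0 progs [(30786355200, 6157271040), (4123168604160, 824633720832), (755914244096, 68719476736)] :=
  Pool.Agent.helper14.QF.covD_F chks_eq (.l 0)
    [(30786355200, 6157271040), (4123168604160, 824633720832), (755914244096, 68719476736)] rfl (by decide +kernel)
theorem c5_m0_t3 : CovD 0 progs [(40022261760, 3078635520), (4123168604160, 824633720832), (755914244096, 68719476736)] :=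
  Pool.Agent.helper14.QF.covD_F chks_eq (.n 1 (.l 0) (.l 0))
    [(40022261760, 3078635520), (4123168604160, 824633720832), (755914244096, 68719476736)] rfl (by decide +kernel)
end
mutual
theorem c5_m0_t4 : CovD 0 progs [(44640215040, 1539317760), (3504693313536, 206158430208), (755914244096, 68719476736)] :=
  Pool.Agent.helper14.QF.covD_F chks_eq (.l 0)
    [(44640215040, 1539317760), (3504693313536, 206158430208), (755914244096, 68719476736)] rfl (by decide +kernel)
theorem c5_m0_t5 : CovD 0 progs [(47718850560, 1539317760), (3401614098432, 103079215104), (755914244096, 68719476736)] :=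
  Pool.Agent.helper14.QF.covD_F chks_eq (.n 2 (.n 0 (.l 0) (.n 1 (.n 2 (.n 2 (.l 7) (.l 6)) (.l 6)) (.n 0 (.l 0) (.n 1 (.n 1 (.n 2 (.n 2 (.l 0) (.n 1 (.l 6) (.n 2 (.l 0) (.l 6)))) (.l 6)) (.n 2 (.n 1 (.n 2 (.l 0) (.n 2 (.l 0) (.l 6))) (.l 0)) (.l 6))) (.n 2 (.l 0) (.n 1 (.l 6) (.n 2 (.n 2 (.l 0) (.l 6)) (.l 6)))))))) (.l 6))
    [(47718850560, 1539317760), (3401614098432, 103079215104), (755914244096, 68719476736)] rfl (by decide +kernel)
end
mutual
theorem c5_m0_t6 : CovD 0 progs [(47718850560, 1539317760), (3607772528640, 103079215104), (755914244096, 68719476736)] :=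
  Pool.Agent.helper14.QF.covD_F chks_eq (.n 1 (.n 2 (.n 1 (.n 2 (.l 0) (.n 2 (.l 0) (.n 1 (.l 6) (.n 1 (.l 6) (.l 0))))) (.l 0)) (.l 6)) (.n 2 (.l 0) (.n 2 (.n 1 (.n 2 (.l 0) (.l 6)) (.l 0)) (.l 6))))
    [(47718850560, 1539317760), (3607772528640, 103079215104), (755914244096, 68719476736)] rfl (by decide +kernel)
theorem c5_m0_t9 : CovD 0 progs [(46179532800, 3078635520), (3917010173952, 206158430208), (755914244096, 68719476736)] :=
  Pool.Agent.helper14.QF.covD_F chks_eq (.n 1 (.n 2 (.l 0) (.n 1 (.n 2 (.l 0) (.n 2 (.l 0) (.l 6))) (.l 0))) (.l 0))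
    [(46179532800, 3078635520), (3917010173952, 206158430208), (755914244096, 68719476736)] rfl (by decide +kernel)
end
mutual
theorem c5_m0_t11 : CovD 0 progs [(46179532800, 3078635520), (4535485464576, 412316860416), (755914244096, 68719476736)] :=
  Pool.Agent.helper14.QF.covD_F chks_eq (.n 1 (.n 1 (.l 0) (.l 0)) (.n 1 (.l 0) (.l 0)))
    [(46179532800, 3078635520), (4535485464576, 412316860416), (755914244096, 68719476736)] rfl (by decide +kernel)
theorem c5_m0_t17 : CovD 0 progs [(24629084160, 24629084160), (4123168604160, 824633720832), (962072674304, 137438953472)] :=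
  Pool.Agent.helper14.QF.covD_F chks_eq (.n 2 (.n 0 (.l 0) (.n 0 (.l 0) (.n 0 (.n 1 (.l 0) (.l 0)) (.n 1 (.n 1 (.l 6) (.n 2 (.n 1 (.l 6) (.n 2 (.l 0) (.n 1 (.l 6) (.l 0)))) (.l 4))) (.n 2 (.n 1 (.n 2 (.l 0) (.l 0)) (.l 0)) (.n 0 (.l 0) (.n 1 (.n 2 (.n 1 (.l 0) (.l 0)) (.l 4)) (.l 0)))))))) (.n 2 (.l 4) (.n 2 (.l 3) (.n 2 (.l 2) (.n 2 (.l 0) (.n 2 (.l 0) (.l 0)))))))
    [(24629084160, 24629084160), (4123168604160, 824633720832), (962072674304, 137438953472)] rfl (by decide +kernel)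
end
mutual
theorem c6_m0 : CovD 0 progs [(24629084160, 24629084160), (5772436045824, 824633720832), (274877906944, 274877906944)] :=
  Pool.Agent.helper14.QF.covD_F chks_eq (.l 10)
    [(24629084160, 24629084160), (5772436045824, 824633720832), (274877906944, 274877906944)] rfl (by decide +kernel)
theorem c7_m0_t0 : CovD 0 progs [(24629084160, 24629084160), (5360119185408, 412316860416), (687194767360, 137438953472)] :=
  Pool.Agent.helper14.QF.covD_F chks_eq (.n 2 (.l 10) (.n 1 (.n 0 (.l 0) (.n 0 (.l 0) (.n 2 (.l 10) (.l 0)))) (.n 1 (.n 1 (.l 10) (.l 10)) (.l 10))))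
    [(24629084160, 24629084160), (5360119185408, 412316860416), (687194767360, 137438953472)] rfl (by decide +kernel)
end
mutual
theorem c7_m0_t1 : CovD 0 progs [(24629084160, 24629084160), (5360119185408, 412316860416), (962072674304, 137438953472)] :=
  Pool.Agent.helper14.QF.covD_F chks_eq (.n 0 (.n 2 (.l 0) (.n 2 (.l 0) (.n 2 (.l 0) (.n 2 (.l 0) (.n 2 (.l 0) (.n 2 (.l 0) (.l 0))))))) (.n 2 (.n 1 (.n 2 (.l 0) (.l 0)) (.n 2 (.l 0) (.l 0))) (.n 2 (.n 0 (.l 0) (.n 1 (.l 0) (.l 0))) (.n 2 (.l 0) (.n 2 (.l 0) (.n 2 (.l 0) (.n 2 (.l 0) (.l 0))))))))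
    [(24629084160, 24629084160), (5360119185408, 412316860416), (962072674304, 137438953472)] rfl (by decide +kernel)
theorem c7_m0_t3 : CovD 0 progs [(24629084160, 24629084160), (6184752906240, 412316860416), (824633720832, 274877906944)] :=
  Pool.Agent.helper14.QF.covD_F chks_eq (.n 2 (.l 10) (.n 2 (.n 0 (.l 0) (.n 1 (.n 2 (.n 2 (.l 10) (.l 0)) (.l 0)) (.n 2 (.l 10) (.l 0)))) (.n 2 (.n 0 (.l 0) (.n 0 (.l 0) (.l 0))) (.n 2 (.n 0 (.l 0) (.l 0)) (.l 9)))))
    [(24629084160, 24629084160), (6184752906240, 412316860416), (824633720832, 274877906944)] rfl (by decide +kernel)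
end

theorem c0_m0 : CovD 0 progs [(24629084160, 24629084160), (824633720832, 824633720832), (274877906944, 274877906944)] :=
  covD_split 1 (by decide +kernel) c0_m0_t0 c0_m0_t1
theorem c5_m0_t7 : CovD 0 progs [(47718850560, 1539317760), (3504693313536, 206158430208), (755914244096, 68719476736)] :=
  covD_split 1 (by decide +kernel) c5_m0_t5 c5_m0_t6
theorem c5_m0_t8 : CovD 0 progs [(46179532800, 3078635520), (3504693313536, 206158430208), (755914244096, 68719476736)] :=
  covD_split 0 (by decide +kernel) c5_m0_t4 c5_m0_t7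
theorem c5_m0_t10 : CovD 0 progs [(46179532800, 3078635520), (3710851743744, 412316860416), (755914244096, 68719476736)] :=
  covD_split 1 (by decide +kernel) c5_m0_t8 c5_m0_t9
theorem c5_m0_t12 : CovD 0 progs [(46179532800, 3078635520), (4123168604160, 824633720832), (755914244096, 68719476736)] :=
  covD_split 1 (by decide +kernel) c5_m0_t10 c5_m0_t11
theorem c5_m0_t13 : CovD 0 progs [(43100897280, 6157271040), (4123168604160, 824633720832), (755914244096, 68719476736)] :=
  covD_split 0 (by decide +kernel) c5_m0_t3 c5_m0_t12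
theorem c5_m0_t14 : CovD 0 progs [(36943626240, 12314542080), (4123168604160, 824633720832), (755914244096, 68719476736)] :=
  covD_split 0 (by decide +kernel) c5_m0_t2 c5_m0_t13
theorem c5_m0_t15 : CovD 0 progs [(24629084160, 24629084160), (4123168604160, 824633720832), (755914244096, 68719476736)] :=
  covD_split 0 (by decide +kernel) c5_m0_t1 c5_m0_t14
theorem c5_m0_t16 : CovD 0 progs [(24629084160, 24629084160), (4123168604160, 824633720832), (687194767360, 137438953472)] :=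
  covD_split 2 (by decide +kernel) c5_m0_t0 c5_m0_t15
theorem c5_m0 : CovD 0 progs [(24629084160, 24629084160), (4123168604160, 824633720832), (824633720832, 274877906944)] :=
  covD_split 2 (by decide +kernel) c5_m0_t16 c5_m0_t17
theorem c7_m0_t2 : CovD 0 progs [(24629084160, 24629084160), (5360119185408, 412316860416), (824633720832, 274877906944)] :=
  covD_split 2 (by decide +kernel) c7_m0_t0 c7_m0_t1
theorem c7_m0 : CovD 0 progs [(24629084160, 24629084160), (5772436045824, 824633720832), (824633720832, 274877906944)] :=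
  covD_split 1 (by decide +kernel) c7_m0_t2 c7_m0_t3

end Pool.Agent.helper31.EQB.Cert.LA0
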