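import Pool.Agent.helper31.EQB.Cert.LA2P

/-!
Generated certificates.
-/

namespace Pool.Agent.helper31.EQB.Cert.LA2

open Pool.Agent.helper31.IA (Z Op)
open Pool.Agent.helper31.IC

mutual
theorem c0_m0 : CovD 0 progs [(24629084160, 24629084160), (824633720832, 824633720832), (274877906944, 274877906944)] :=
  Pool.Agent.helper14.QF.covD_F chks_eq (.n 2 (.n 1 (.n 1 (.n 2 (.l 1) (.l 1)) (.n 2 (.n 1 (.l 1) (.l 1)) (.l 1))) (.n 1 (.n 1 (.l 1) (.l 2)) (.l 3))) (.n 1 (.n 2 (.n 0 (.l 1) (.l 1)) (.l 1)) (.n 0 (.l 2) (.l 2))))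
    [(24629084160, 24629084160), (824633720832, 824633720832), (274877906944, 274877906944)] rfl (by decide +kernel)
theorem c1_m0 : CovD 0 progs [(24629084160, 24629084160), (824633720832, 824633720832), (824633720832, 274877906944)] :=
  Pool.Agent.helper14.QF.covD_F chks_eq (.n 2 (.n 1 (.n 0 (.l 1) (.l 1)) (.l 2)) (.n 2 (.l 2) (.n 2 (.l 1) (.n 2 (.l 1) (.n 2 (.l 1) (.n 2 (.l 0) (.n 2 (.l 0) (.l 0))))))))
    [(24629084160, 24629084160), (824633720832, 824633720832), (824633720832, 274877906944)] rfl (by decide +kernel)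
end
mutual
theorem c2_m0_t0 : CovD 0 progs [(24629084160, 24629084160), (2061584302080, 412316860416), (274877906944, 274877906944)] :=
  Pool.Agent.helper14.QF.covD_F chks_eq (.n 1 (.l 3) (.l 6))
    [(24629084160, 24629084160), (2061584302080, 412316860416), (274877906944, 274877906944)] rfl (by decide +kernel)
theorem c2_m0_t1 : CovD 0 progs [(12314542080, 12314542080), (2886218022912, 412316860416), (274877906944, 274877906944)] :=
  Pool.Agent.helper14.QF.covD_F chks_eq (.l 0)
    [(12314542080, 12314542080), (2886218022912, 412316860416), (274877906944, 274877906944)] rfl (by decide +kernel)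
end
mutual
theorem c2_m0_t2 : CovD 0 progs [(30786355200, 6157271040), (2886218022912, 412316860416), (274877906944, 274877906944)] :=
  Pool.Agent.helper14.QF.covD_F chks_eq (.n 1 (.l 0) (.l 0))
    [(30786355200, 6157271040), (2886218022912, 412316860416), (274877906944, 274877906944)] rfl (by decide +kernel)
theorem c2_m0_t3 : CovD 0 progs [(43100897280, 6157271040), (2680059592704, 206158430208), (274877906944, 274877906944)] :=
  Pool.Agent.helper14.QF.covD_F chks_eq (.n 1 (.l 8) (.n 2 (.n 1 (.l 8) (.n 2 (.l 0) (.n 1 (.l 8) (.n 2 (.l 0) (.l 8))))) (.l 8)))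
    [(43100897280, 6157271040), (2680059592704, 206158430208), (274877906944, 274877906944)] rfl (by decide +kernel)
end
mutual
theorem c2_m0_t4 : CovD 0 progs [(43100897280, 6157271040), (3092376453120, 206158430208), (274877906944, 274877906944)] :=
  Pool.Agent.helper14.QF.covD_F chks_eq (.n 1 (.n 1 (.n 0 (.l 0) (.n 2 (.l 0) (.n 2 (.n 2 (.n 1 (.l 8) (.l 0)) (.l 8)) (.l 8)))) (.n 0 (.l 0) (.n 2 (.l 0) (.n 2 (.n 2 (.l 0) (.l 0)) (.n 1 (.l 8) (.n 2 (.n 2 (.l 0) (.l 8)) (.l 8))))))) (.n 2 (.l 0) (.n 2 (.l 0) (.n 1 (.n 2 (.l 0) (.n 1 (.l 8) (.n 2 (.l 0) (.l 8)))) (.l 0)))))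
    [(43100897280, 6157271040), (3092376453120, 206158430208), (274877906944, 274877906944)] rfl (by decide +kernel)
theorem c3_m0_t0 : CovD 0 progs [(12314542080, 12314542080), (2473901162496, 824633720832), (687194767360, 137438953472)] :=
  Pool.Agent.helper14.QF.covD_F chks_eq (.l 0)
    [(12314542080, 12314542080), (2473901162496, 824633720832), (687194767360, 137438953472)] rfl (by decide +kernel)
end
mutual
theorem c3_m0_t1 : CovD 0 progs [(36943626240, 12314542080), (2061584302080, 412316860416), (687194767360, 137438953472)] :=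
  Pool.Agent.helper14.QF.covD_F chks_eq (.l 3)
    [(36943626240, 12314542080), (2061584302080, 412316860416), (687194767360, 137438953472)] rfl (by decide +kernel)
theorem c3_m0_t2 : CovD 0 progs [(30786355200, 6157271040), (2886218022912, 412316860416), (687194767360, 137438953472)] :=
  Pool.Agent.helper14.QF.covD_F chks_eq (.l 0)
    [(30786355200, 6157271040), (2886218022912, 412316860416), (687194767360, 137438953472)] rfl (by decide +kernel)
end
mutual
theorem c3_m0_t3 : CovD 0 progs [(43100897280, 6157271040), (2680059592704, 206158430208), (687194767360, 137438953472)] :=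
  Pool.Agent.helper14.QF.covD_F chks_eq (.l 6)
    [(43100897280, 6157271040), (2680059592704, 206158430208), (687194767360, 137438953472)] rfl (by decide +kernel)
theorem c3_m0_t4 : CovD 0 progs [(40022261760, 3078635520), (3092376453120, 206158430208), (618475290624, 68719476736)] :=
  Pool.Agent.helper14.QF.covD_F chks_eq (.l 0)
    [(40022261760, 3078635520), (3092376453120, 206158430208), (618475290624, 68719476736)] rfl (by decide +kernel)
end
mutual
theorem c3_m0_t5 : CovD 0 progs [(46179532800, 3078635520), (2989297238016, 103079215104), (618475290624, 68719476736)] :=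
  Pool.Agent.helper14.QF.covD_F chks_eq (.l 7)
    [(46179532800, 3078635520), (2989297238016, 103079215104), (618475290624, 68719476736)] rfl (by decide +kernel)
theorem c3_m0_t6 : CovD 0 progs [(44640215040, 1539317760), (3195455668224, 103079215104), (618475290624, 68719476736)] :=
  Pool.Agent.helper14.QF.covD_F chks_eq (.l 0)
    [(44640215040, 1539317760), (3195455668224, 103079215104), (618475290624, 68719476736)] rfl (by decide +kernel)
end
mutual
theorem c3_m0_t7 : CovD 0 progs [(47718850560, 1539317760), (3143916060672, 51539607552), (584115552256, 34359738368)] :=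
  Pool.Agent.helper14.QF.covD_F chks_eq (.n 1 (.l 7) (.n 2 (.n 2 (.l 8) (.n 1 (.l 7) (.n 1 (.l 7) (.n 1 (.l 7) (.n 1 (.l 7) (.n 2 (.n 2 (.l 0) (.l 7)) (.l 7))))))) (.l 7)))
    [(47718850560, 1539317760), (3143916060672, 51539607552), (584115552256, 34359738368)] rfl (by decide +kernel)
theorem c3_m0_t8 : CovD 0 progs [(47718850560, 1539317760), (3221225472000, 25769803776), (584115552256, 34359738368)] :=
  Pool.Agent.helper14.QF.covD_F chks_eq (.n 0 (.l 0) (.n 0 (.l 0) (.n 1 (.n 1 (.n 2 (.n 2 (.l 0) (.n 2 (.n 1 (.n 2 (.l 0) (.l 7)) (.l 0)) (.l 7))) (.l 7)) (.n 2 (.n 2 (.l 0) (.n 2 (.l 0) (.n 2 (.l 0) (.l 7)))) (.l 7))) (.n 2 (.l 0) (.n 2 (.n 2 (.n 1 (.n 1 (.l 7) (.l 0)) (.l 0)) (.l 7)) (.l 7))))))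
    [(47718850560, 1539317760), (3221225472000, 25769803776), (584115552256, 34359738368)] rfl (by decide +kernel)
end
mutual
theorem c3_m0_t9 : CovD 0 progs [(47718850560, 1539317760), (3272765079552, 25769803776), (584115552256, 34359738368)] :=
  Pool.Agent.helper14.QF.covD_F chks_eq (.n 1 (.n 2 (.l 0) (.n 2 (.l 0) (.n 1 (.l 7) (.n 2 (.l 0) (.l 7))))) (.l 0))
    [(47718850560, 1539317760), (3272765079552, 25769803776), (584115552256, 34359738368)] rfl (by decide +kernel)
theorem c3_m0_t12 : CovD 0 progs [(47718850560, 1539317760), (3195455668224, 103079215104), (652835028992, 34359738368)] :=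
  Pool.Agent.helper14.QF.covD_F chks_eq (.l 7)
    [(47718850560, 1539317760), (3195455668224, 103079215104), (652835028992, 34359738368)] rfl (by decide +kernel)
end
mutual
theorem c3_m0_t17 : CovD 0 progs [(43100897280, 6157271040), (3092376453120, 206158430208), (755914244096, 68719476736)] :=
  Pool.Agent.helper14.QF.covD_F chks_eq (.l 6)
    [(43100897280, 6157271040), (3092376453120, 206158430208), (755914244096, 68719476736)] rfl (by decide +kernel)
theorem c3_m0_t23 : CovD 0 progs [(24629084160, 24629084160), (2473901162496, 824633720832), (962072674304, 137438953472)] :=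
  Pool.Agent.helper14.QF.covD_F chks_eq (.n 2 (.l 4) (.n 2 (.l 2) (.n 2 (.l 2) (.n 2 (.l 1) (.n 2 (.l 1) (.n 2 (.l 0) (.l 0)))))))
    [(24629084160, 24629084160), (2473901162496, 824633720832), (962072674304, 137438953472)] rfl (by decide +kernel)
end
mutual
theorem c4_m0 : CovD 0 progs [(24629084160, 24629084160), (4123168604160, 824633720832), (274877906944, 274877906944)] :=
  Pool.Agent.helper14.QF.covD_F chks_eq (.n 1 (.n 1 (.n 0 (.l 0) (.n 2 (.l 0) (.n 1 (.l 0) (.l 0)))) (.n 2 (.l 10) (.n 0 (.l 0) (.n 1 (.l 0) (.n 2 (.l 10) (.l 0)))))) (.n 1 (.n 1 (.n 1 (.l 10) (.l 10)) (.l 10)) (.l 10)))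
    [(24629084160, 24629084160), (4123168604160, 824633720832), (274877906944, 274877906944)] rfl (by decide +kernel)
theorem c5_m0_t0 : CovD 0 progs [(12314542080, 12314542080), (4123168604160, 824633720832), (687194767360, 137438953472)] :=
  Pool.Agent.helper14.QF.covD_F chks_eq (.n 1 (.l 0) (.n 2 (.l 0) (.l 0)))
    [(12314542080, 12314542080), (4123168604160, 824633720832), (687194767360, 137438953472)] rfl (by decide +kernel)
end
mutual
theorem c5_m0_t1 : CovD 0 progs [(30786355200, 6157271040), (3710851743744, 412316860416), (687194767360, 137438953472)] :=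
  Pool.Agent.helper14.QF.covD_F chks_eq (.l 0)
    [(30786355200, 6157271040), (3710851743744, 412316860416), (687194767360, 137438953472)] rfl (by decide +kernel)
theorem c5_m0_t2 : CovD 0 progs [(40022261760, 3078635520), (3710851743744, 412316860416), (687194767360, 137438953472)] :=
  Pool.Agent.helper14.QF.covD_F chks_eq (.n 1 (.l 0) (.l 0))
    [(40022261760, 3078635520), (3710851743744, 412316860416), (687194767360, 137438953472)] rfl (by decide +kernel)
end
mutual
theorem c5_m0_t3 : CovD 0 progs [(46179532800, 3078635520), (3504693313536, 206158430208), (618475290624, 68719476736)] :=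
  Pool.Agent.helper14.QF.covD_F chks_eq (.n 0 (.l 0) (.n 0 (.l 0) (.n 1 (.n 2 (.l 0) (.n 1 (.n 2 (.n 1 (.n 2 (.l 0) (.l 7)) (.l 0)) (.n 2 (.l 7) (.l 7))) (.l 0))) (.l 0))))
    [(46179532800, 3078635520), (3504693313536, 206158430208), (618475290624, 68719476736)] rfl (by decide +kernel)
theorem c5_m0_t4 : CovD 0 progs [(44640215040, 1539317760), (3504693313536, 206158430208), (721554505728, 34359738368)] :=
  Pool.Agent.helper14.QF.covD_F chks_eq (.l 0)
    [(44640215040, 1539317760), (3504693313536, 206158430208), (721554505728, 34359738368)] rfl (by decide +kernel)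
end
mutual
theorem c5_m0_t5 : CovD 0 progs [(47718850560, 1539317760), (3350074490880, 51539607552), (721554505728, 34359738368)] :=
  Pool.Agent.helper14.QF.covD_F chks_eq (.n 2 (.n 2 (.l 7) (.l 6)) (.l 6))
    [(47718850560, 1539317760), (3350074490880, 51539607552), (721554505728, 34359738368)] rfl (by decide +kernel)
theorem c5_m0_t6 : CovD 0 progs [(46949191680, 769658880), (3453153705984, 51539607552), (721554505728, 34359738368)] :=
  Pool.Agent.helper14.QF.covD_F chks_eq (.l 0)
    [(46949191680, 769658880), (3453153705984, 51539607552), (721554505728, 34359738368)] rfl (by decide +kernel)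
end
mutual
theorem c5_m0_t7 : CovD 0 progs [(48103680000, 384829440), (3427383902208, 25769803776), (704374636544, 17179869184)] :=
  Pool.Agent.helper14.QF.covD_F chks_eq (.l 0)
    [(48103680000, 384829440), (3427383902208, 25769803776), (704374636544, 17179869184)] rfl (by decide +kernel)
theorem c5_m0_t8 : CovD 0 progs [(48873338880, 384829440), (3414499000320, 12884901888), (704374636544, 17179869184)] :=
  Pool.Agent.helper14.QF.covD_F chks_eq (.n 2 (.l 7) (.n 1 (.l 6) (.n 0 (.l 0) (.n 1 (.l 6) (.n 2 (.n 2 (.n 2 (.n 2 (.l 7) (.n 1 (.l 6) (.n 1 (.l 6) (.n 2 (.n 1 (.n 2 (.l 0) (.l 6)) (.l 0)) (.l 6))))) (.l 6)) (.l 6)) (.l 6))))))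
    [(48873338880, 384829440), (3414499000320, 12884901888), (704374636544, 17179869184)] rfl (by decide +kernel)
end
mutual
theorem c5_m0_t9 : CovD 0 progs [(48873338880, 384829440), (3440268804096, 12884901888), (704374636544, 17179869184)] :=
  Pool.Agent.helper14.QF.covD_F chks_eq (.n 0 (.l 0) (.n 2 (.l 0) (.n 1 (.n 2 (.n 0 (.l 0) (.n 1 (.n 1 (.n 2 (.n 2 (.l 0) (.n 1 (.l 6) (.n 2 (.n 2 (.l 0) (.l 6)) (.l 6)))) (.l 6)) (.n 2 (.n 1 (.n 2 (.l 0) (.n 2 (.l 0) (.l 6))) (.l 0)) (.l 6))) (.n 2 (.l 0) (.n 2 (.n 2 (.l 0) (.l 6)) (.l 6))))) (.l 6)) (.n 2 (.l 0) (.n 1 (.l 6) (.n 1 (.l 6) (.n 2 (.l 0) (.l 6))))))))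
    [(48873338880, 384829440), (3440268804096, 12884901888), (704374636544, 17179869184)] rfl (by decide +kernel)
theorem c5_m0_t12 : CovD 0 progs [(48488509440, 769658880), (3427383902208, 25769803776), (738734374912, 17179869184)] :=
  Pool.Agent.helper14.QF.covD_F chks_eq (.l 6)
    [(48488509440, 769658880), (3427383902208, 25769803776), (738734374912, 17179869184)] rfl (by decide +kernel)
end
mutual
theorem c5_m0_t14 : CovD 0 progs [(48488509440, 769658880), (3478923509760, 25769803776), (721554505728, 34359738368)] :=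
  Pool.Agent.helper14.QF.covD_F chks_eq (.n 1 (.n 2 (.n 1 (.n 2 (.l 0) (.n 2 (.l 0) (.n 2 (.l 0) (.l 6)))) (.l 0)) (.l 6)) (.n 2 (.l 0) (.n 2 (.n 2 (.l 0) (.l 6)) (.l 6))))
    [(48488509440, 769658880), (3478923509760, 25769803776), (721554505728, 34359738368)] rfl (by decide +kernel)
theorem c5_m0_t18 : CovD 0 progs [(47718850560, 1539317760), (3607772528640, 103079215104), (721554505728, 34359738368)] :=
  Pool.Agent.helper14.QF.covD_F chks_eq (.n 1 (.n 1 (.n 2 (.l 0) (.n 1 (.n 2 (.l 0) (.l 6)) (.l 0))) (.l 0)) (.l 0))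
    [(47718850560, 1539317760), (3607772528640, 103079215104), (721554505728, 34359738368)] rfl (by decide +kernel)
end
mutual
theorem c5_m0_t21 : CovD 0 progs [(46179532800, 3078635520), (3504693313536, 206158430208), (790273982464, 34359738368)] :=
  Pool.Agent.helper14.QF.covD_F chks_eq (.n 1 (.l 6) (.n 1 (.l 6) (.n 2 (.l 0) (.l 6))))
    [(46179532800, 3078635520), (3504693313536, 206158430208), (790273982464, 34359738368)] rfl (by decide +kernel)
theorem c5_m0_t24 : CovD 0 progs [(46179532800, 3078635520), (3917010173952, 206158430208), (687194767360, 137438953472)] :=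
  Pool.Agent.helper14.QF.covD_F chks_eq (.n 2 (.l 0) (.n 1 (.n 2 (.l 0) (.l 0)) (.l 0)))
    [(46179532800, 3078635520), (3917010173952, 206158430208), (687194767360, 137438953472)] rfl (by decide +kernel)
end
mutual
theorem c5_m0_t28 : CovD 0 progs [(36943626240, 12314542080), (4535485464576, 412316860416), (687194767360, 137438953472)] :=
  Pool.Agent.helper14.QF.covD_F chks_eq (.n 1 (.n 2 (.l 0) (.l 0)) (.n 2 (.n 1 (.n 1 (.l 0) (.l 10)) (.l 10)) (.l 0)))
    [(36943626240, 12314542080), (4535485464576, 412316860416), (687194767360, 137438953472)] rfl (by decide +kernel)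
theorem c5_m0_t31 : CovD 0 progs [(24629084160, 24629084160), (4123168604160, 824633720832), (962072674304, 137438953472)] :=
  Pool.Agent.helper14.QF.covD_F chks_eq (.n 2 (.n 0 (.l 0) (.n 1 (.n 1 (.l 6) (.n 2 (.n 1 (.l 6) (.l 0)) (.l 4))) (.n 1 (.n 2 (.l 0) (.l 0)) (.l 0)))) (.n 2 (.l 4) (.n 2 (.l 3) (.n 2 (.l 2) (.n 2 (.l 1) (.n 2 (.l 1) (.n 0 (.l 0) (.l 0))))))))
    [(24629084160, 24629084160), (4123168604160, 824633720832), (962072674304, 137438953472)] rfl (by decide +kernel)
end
mutual
theorem c6_m0 : CovD 0 progs [(24629084160, 24629084160), (5772436045824, 824633720832), (274877906944, 274877906944)] :=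
  Pool.Agent.helper14.QF.covD_F chks_eq (.l 10)
    [(24629084160, 24629084160), (5772436045824, 824633720832), (274877906944, 274877906944)] rfl (by decide +kernel)
theorem c7_m0_t0 : CovD 0 progs [(24629084160, 24629084160), (5772436045824, 824633720832), (687194767360, 137438953472)] :=
  Pool.Agent.helper14.QF.covD_F chks_eq (.n 1 (.n 2 (.l 10) (.n 1 (.n 2 (.l 10) (.l 0)) (.n 1 (.n 0 (.l 0) (.n 2 (.l 10) (.l 0))) (.l 10)))) (.l 10))
    [(24629084160, 24629084160), (5772436045824, 824633720832), (687194767360, 137438953472)] rfl (by decide +kernel)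
theorem c7_m0_t1 : CovD 0 progs [(24629084160, 24629084160), (5772436045824, 824633720832), (962072674304, 137438953472)] :=
  Pool.Agent.helper14.QF.covD_F chks_eq (.n 2 (.n 0 (.n 1 (.l 0) (.l 0)) (.n 1 (.n 1 (.l 0) (.l 0)) (.n 2 (.n 1 (.l 0) (.l 10)) (.l 0)))) (.n 2 (.n 0 (.l 0) (.n 0 (.l 0) (.l 0))) (.n 2 (.n 0 (.l 0) (.l 0)) (.n 1 (.n 2 (.l 0) (.n 2 (.l 0) (.n 2 (.l 0) (.n 0 (.l 0) (.l 0))))) (.l 9)))))
    [(24629084160, 24629084160), (5772436045824, 824633720832), (962072674304, 137438953472)] rfl (by decide +kernel)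
end

theorem c2_m0_t5 : CovD 0 progs [(43100897280, 6157271040), (2886218022912, 412316860416), (274877906944, 274877906944)] :=
  covD_split 1 (by decide +kernel) c2_m0_t3 c2_m0_t4
theorem c2_m0_t6 : CovD 0 progs [(36943626240, 12314542080), (2886218022912, 412316860416), (274877906944, 274877906944)] :=
  covD_split 0 (by decide +kernel) c2_m0_t2 c2_m0_t5
theorem c2_m0_t7 : CovD 0 progs [(24629084160, 24629084160), (2886218022912, 412316860416), (274877906944, 274877906944)] :=
  covD_split 0 (by decide +kernel) c2_m0_t1 c2_m0_t6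
theorem c2_m0 : CovD 0 progs [(24629084160, 24629084160), (2473901162496, 824633720832), (274877906944, 274877906944)] :=
  covD_split 1 (by decide +kernel) c2_m0_t0 c2_m0_t7
theorem c3_m0_t10 : CovD 0 progs [(47718850560, 1539317760), (3246995275776, 51539607552), (584115552256, 34359738368)] :=
  covD_split 1 (by decide +kernel) c3_m0_t8 c3_m0_t9
theorem c3_m0_t11 : CovD 0 progs [(47718850560, 1539317760), (3195455668224, 103079215104), (584115552256, 34359738368)] :=
  covD_split 1 (by decide +kernel) c3_m0_t7 c3_m0_t10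
theorem c3_m0_t13 : CovD 0 progs [(47718850560, 1539317760), (3195455668224, 103079215104), (618475290624, 68719476736)] :=
  covD_split 2 (by decide +kernel) c3_m0_t11 c3_m0_t12
theorem c3_m0_t14 : CovD 0 progs [(46179532800, 3078635520), (3195455668224, 103079215104), (618475290624, 68719476736)] :=
  covD_split 0 (by decide +kernel) c3_m0_t6 c3_m0_t13
theorem c3_m0_t15 : CovD 0 progs [(46179532800, 3078635520), (3092376453120, 206158430208), (618475290624, 68719476736)] :=
  covD_split 1 (by decide +kernel) c3_m0_t5 c3_m0_t14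
theorem c3_m0_t16 : CovD 0 progs [(43100897280, 6157271040), (3092376453120, 206158430208), (618475290624, 68719476736)] :=
  covD_split 0 (by decide +kernel) c3_m0_t4 c3_m0_t15
theorem c3_m0_t18 : CovD 0 progs [(43100897280, 6157271040), (3092376453120, 206158430208), (687194767360, 137438953472)] :=
  covD_split 2 (by decide +kernel) c3_m0_t16 c3_m0_t17
theorem c3_m0_t19 : CovD 0 progs [(43100897280, 6157271040), (2886218022912, 412316860416), (687194767360, 137438953472)] :=
  covD_split 1 (by decide +kernel) c3_m0_t3 c3_m0_t18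
theorem c3_m0_t20 : CovD 0 progs [(36943626240, 12314542080), (2886218022912, 412316860416), (687194767360, 137438953472)] :=
  covD_split 0 (by decide +kernel) c3_m0_t2 c3_m0_t19
theorem c3_m0_t21 : CovD 0 progs [(36943626240, 12314542080), (2473901162496, 824633720832), (687194767360, 137438953472)] :=
  covD_split 1 (by decide +kernel) c3_m0_t1 c3_m0_t20
theorem c3_m0_t22 : CovD 0 progs [(24629084160, 24629084160), (2473901162496, 824633720832), (687194767360, 137438953472)] :=
  covD_split 0 (by decide +kernel) c3_m0_t0 c3_m0_t21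
theorem c3_m0 : CovD 0 progs [(24629084160, 24629084160), (2473901162496, 824633720832), (824633720832, 274877906944)] :=
  covD_split 2 (by decide +kernel) c3_m0_t22 c3_m0_t23
theorem c5_m0_t10 : CovD 0 progs [(48873338880, 384829440), (3427383902208, 25769803776), (704374636544, 17179869184)] :=
  covD_split 1 (by decide +kernel) c5_m0_t8 c5_m0_t9
theorem c5_m0_t11 : CovD 0 progs [(48488509440, 769658880), (3427383902208, 25769803776), (704374636544, 17179869184)] :=
  covD_split 0 (by decide +kernel) c5_m0_t7 c5_m0_t10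
theorem c5_m0_t13 : CovD 0 progs [(48488509440, 769658880), (3427383902208, 25769803776), (721554505728, 34359738368)] :=
  covD_split 2 (by decide +kernel) c5_m0_t11 c5_m0_t12
theorem c5_m0_t15 : CovD 0 progs [(48488509440, 769658880), (3453153705984, 51539607552), (721554505728, 34359738368)] :=
  covD_split 1 (by decide +kernel) c5_m0_t13 c5_m0_t14
theorem c5_m0_t16 : CovD 0 progs [(47718850560, 1539317760), (3453153705984, 51539607552), (721554505728, 34359738368)] :=
  covD_split 0 (by decide +kernel) c5_m0_t6 c5_m0_t15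
theorem c5_m0_t17 : CovD 0 progs [(47718850560, 1539317760), (3401614098432, 103079215104), (721554505728, 34359738368)] :=
  covD_split 1 (by decide +kernel) c5_m0_t5 c5_m0_t16
theorem c5_m0_t19 : CovD 0 progs [(47718850560, 1539317760), (3504693313536, 206158430208), (721554505728, 34359738368)] :=
  covD_split 1 (by decide +kernel) c5_m0_t17 c5_m0_t18
theorem c5_m0_t20 : CovD 0 progs [(46179532800, 3078635520), (3504693313536, 206158430208), (721554505728, 34359738368)] :=
  covD_split 0 (by decide +kernel) c5_m0_t4 c5_m0_t19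
theorem c5_m0_t22 : CovD 0 progs [(46179532800, 3078635520), (3504693313536, 206158430208), (755914244096, 68719476736)] :=
  covD_split 2 (by decide +kernel) c5_m0_t20 c5_m0_t21
theorem c5_m0_t23 : CovD 0 progs [(46179532800, 3078635520), (3504693313536, 206158430208), (687194767360, 137438953472)] :=
  covD_split 2 (by decide +kernel) c5_m0_t3 c5_m0_t22
theorem c5_m0_t25 : CovD 0 progs [(46179532800, 3078635520), (3710851743744, 412316860416), (687194767360, 137438953472)] :=
  covD_split 1 (by decide +kernel) c5_m0_t23 c5_m0_t24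
theorem c5_m0_t26 : CovD 0 progs [(43100897280, 6157271040), (3710851743744, 412316860416), (687194767360, 137438953472)] :=
  covD_split 0 (by decide +kernel) c5_m0_t2 c5_m0_t25
theorem c5_m0_t27 : CovD 0 progs [(36943626240, 12314542080), (3710851743744, 412316860416), (687194767360, 137438953472)] :=
  covD_split 0 (by decide +kernel) c5_m0_t1 c5_m0_t26
theorem c5_m0_t29 : CovD 0 progs [(36943626240, 12314542080), (4123168604160, 824633720832), (687194767360, 137438953472)] :=
  covD_split 1 (by decide +kernel) c5_m0_t27 c5_m0_t28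
theorem c5_m0_t30 : CovD 0 progs [(24629084160, 24629084160), (4123168604160, 824633720832), (687194767360, 137438953472)] :=
  covD_split 0 (by decide +kernel) c5_m0_t0 c5_m0_t29
theorem c5_m0 : CovD 0 progs [(24629084160, 24629084160), (4123168604160, 824633720832), (824633720832, 274877906944)] :=
  covD_split 2 (by decide +kernel) c5_m0_t30 c5_m0_t31
theorem c7_m0 : CovD 0 progs [(24629084160, 24629084160), (5772436045824, 824633720832), (824633720832, 274877906944)] :=
  covD_split 2 (by decide +kernel) c7_m0_t0 c7_m0_t1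

end Pool.Agent.helper31.EQB.Cert.LA2
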