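import Pool.Agent.helper31.EQB.Cert.LA3P

/-!
Generated certificates.
-/

namespace Pool.Agent.helper31.EQB.Cert.LA3

open Pool.Agent.helper31.IA (Z Op)
open Pool.Agent.helper31.IC

mutual
theorem c0_m0 : CovD 0 progs [(24629084160, 24629084160), (824633720832, 824633720832), (274877906944, 274877906944)] :=
  Pool.Agent.helper14.QF.covD_F chks_eq (.n 2 (.n 1 (.n 1 (.n 2 (.n 0 (.l 1) (.l 1)) (.l 1)) (.n 0 (.n 2 (.l 1) (.l 1)) (.n 2 (.n 1 (.l 1) (.l 1)) (.l 1)))) (.n 0 (.n 1 (.l 2) (.l 3)) (.n 1 (.n 1 (.l 1) (.l 2)) (.l 3)))) (.n 1 (.n 1 (.n 2 (.l 1) (.l 1)) (.n 2 (.l 1) (.l 1))) (.n 1 (.l 2) (.l 2))))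
    [(24629084160, 24629084160), (824633720832, 824633720832), (274877906944, 274877906944)] rfl (by decide +kernel)
theorem c1_m0 : CovD 0 progs [(24629084160, 24629084160), (824633720832, 824633720832), (824633720832, 274877906944)] :=
  Pool.Agent.helper14.QF.covD_F chks_eq (.n 2 (.n 1 (.n 0 (.l 1) (.l 1)) (.l 2)) (.n 2 (.l 2) (.n 2 (.l 1) (.n 2 (.l 1) (.n 2 (.l 1) (.n 2 (.l 1) (.n 2 (.l 0) (.l 0))))))))
    [(24629084160, 24629084160), (824633720832, 824633720832), (824633720832, 274877906944)] rfl (by decide +kernel)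
end
mutual
theorem c2_m0_t0 : CovD 0 progs [(12314542080, 12314542080), (2473901162496, 824633720832), (274877906944, 274877906944)] :=
  Pool.Agent.helper14.QF.covD_F chks_eq (.n 1 (.l 6) (.l 0))
    [(12314542080, 12314542080), (2473901162496, 824633720832), (274877906944, 274877906944)] rfl (by decide +kernel)
theorem c2_m0_t1 : CovD 0 progs [(36943626240, 12314542080), (2061584302080, 412316860416), (274877906944, 274877906944)] :=
  Pool.Agent.helper14.QF.covD_F chks_eq (.n 1 (.l 3) (.l 6))
    [(36943626240, 12314542080), (2061584302080, 412316860416), (274877906944, 274877906944)] rfl (by decide +kernel)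
end
mutual
theorem c2_m0_t2 : CovD 0 progs [(30786355200, 6157271040), (2886218022912, 412316860416), (274877906944, 274877906944)] :=
  Pool.Agent.helper14.QF.covD_F chks_eq (.n 2 (.l 0) (.l 0))
    [(30786355200, 6157271040), (2886218022912, 412316860416), (274877906944, 274877906944)] rfl (by decide +kernel)
theorem c2_m0_t3 : CovD 0 progs [(43100897280, 6157271040), (2680059592704, 206158430208), (274877906944, 274877906944)] :=
  Pool.Agent.helper14.QF.covD_F chks_eq (.n 1 (.l 8) (.n 2 (.n 2 (.n 1 (.l 8) (.n 1 (.l 8) (.l 0))) (.n 1 (.l 8) (.n 1 (.l 8) (.n 2 (.l 0) (.l 8))))) (.l 8)))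
    [(43100897280, 6157271040), (2680059592704, 206158430208), (274877906944, 274877906944)] rfl (by decide +kernel)
end
mutual
theorem c2_m0_t4 : CovD 0 progs [(43100897280, 6157271040), (3092376453120, 206158430208), (274877906944, 274877906944)] :=
  Pool.Agent.helper14.QF.covD_F chks_eq (.n 1 (.n 2 (.n 1 (.n 2 (.l 0) (.l 0)) (.l 0)) (.n 0 (.l 0) (.n 1 (.n 2 (.n 2 (.n 1 (.l 8) (.l 0)) (.l 8)) (.l 8)) (.n 1 (.n 2 (.n 1 (.n 2 (.l 0) (.n 2 (.l 0) (.l 8))) (.l 0)) (.l 8)) (.n 2 (.l 0) (.n 2 (.n 2 (.l 0) (.l 8)) (.l 8))))))) (.n 2 (.l 0) (.n 2 (.l 0) (.n 1 (.n 2 (.l 0) (.n 1 (.l 8) (.n 2 (.l 0) (.l 8)))) (.l 0)))))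
    [(43100897280, 6157271040), (3092376453120, 206158430208), (274877906944, 274877906944)] rfl (by decide +kernel)
theorem c3_m0_t0 : CovD 0 progs [(24629084160, 24629084160), (2061584302080, 412316860416), (687194767360, 137438953472)] :=
  Pool.Agent.helper14.QF.covD_F chks_eq (.l 3)
    [(24629084160, 24629084160), (2061584302080, 412316860416), (687194767360, 137438953472)] rfl (by decide +kernel)
end
mutual
theorem c3_m0_t1 : CovD 0 progs [(12314542080, 12314542080), (2886218022912, 412316860416), (687194767360, 137438953472)] :=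
  Pool.Agent.helper14.QF.covD_F chks_eq (.l 0)
    [(12314542080, 12314542080), (2886218022912, 412316860416), (687194767360, 137438953472)] rfl (by decide +kernel)
theorem c3_m0_t2 : CovD 0 progs [(36943626240, 12314542080), (2680059592704, 206158430208), (687194767360, 137438953472)] :=
  Pool.Agent.helper14.QF.covD_F chks_eq (.l 6)
    [(36943626240, 12314542080), (2680059592704, 206158430208), (687194767360, 137438953472)] rfl (by decide +kernel)
end
mutual
theorem c3_m0_t3 : CovD 0 progs [(30786355200, 6157271040), (3092376453120, 206158430208), (687194767360, 137438953472)] :=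
  Pool.Agent.helper14.QF.covD_F chks_eq (.l 0)
    [(30786355200, 6157271040), (3092376453120, 206158430208), (687194767360, 137438953472)] rfl (by decide +kernel)
theorem c3_m0_t4 : CovD 0 progs [(40022261760, 3078635520), (3092376453120, 206158430208), (618475290624, 68719476736)] :=
  Pool.Agent.helper14.QF.covD_F chks_eq (.l 0)
    [(40022261760, 3078635520), (3092376453120, 206158430208), (618475290624, 68719476736)] rfl (by decide +kernel)
end
mutual
theorem c3_m0_t5 : CovD 0 progs [(46179532800, 3078635520), (2989297238016, 103079215104), (618475290624, 68719476736)] :=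
  Pool.Agent.helper14.QF.covD_F chks_eq (.l 7)
    [(46179532800, 3078635520), (2989297238016, 103079215104), (618475290624, 68719476736)] rfl (by decide +kernel)
theorem c3_m0_t6 : CovD 0 progs [(44640215040, 1539317760), (3195455668224, 103079215104), (584115552256, 34359738368)] :=
  Pool.Agent.helper14.QF.covD_F chks_eq (.l 0)
    [(44640215040, 1539317760), (3195455668224, 103079215104), (584115552256, 34359738368)] rfl (by decide +kernel)
end
mutual
theorem c3_m0_t7 : CovD 0 progs [(47718850560, 1539317760), (3143916060672, 51539607552), (584115552256, 34359738368)] :=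
  Pool.Agent.helper14.QF.covD_F chks_eq (.n 1 (.l 7) (.n 0 (.l 0) (.n 2 (.n 2 (.l 8) (.n 1 (.l 7) (.n 1 (.l 7) (.n 1 (.l 7) (.n 1 (.l 7) (.n 1 (.l 7) (.n 2 (.n 2 (.l 0) (.l 7)) (.l 7)))))))) (.l 7))))
    [(47718850560, 1539317760), (3143916060672, 51539607552), (584115552256, 34359738368)] rfl (by decide +kernel)
theorem c3_m0_t8 : CovD 0 progs [(47718850560, 1539317760), (3246995275776, 51539607552), (584115552256, 34359738368)] :=
  Pool.Agent.helper14.QF.covD_F chks_eq (.n 0 (.l 0) (.n 1 (.n 1 (.n 1 (.n 2 (.n 2 (.l 0) (.n 2 (.n 1 (.n 2 (.l 0) (.l 7)) (.l 0)) (.l 7))) (.l 7)) (.n 2 (.n 2 (.l 0) (.n 2 (.l 0) (.n 2 (.l 0) (.l 7)))) (.l 7))) (.n 2 (.l 0) (.n 2 (.n 2 (.n 1 (.n 1 (.l 7) (.l 0)) (.l 0)) (.l 7)) (.l 7)))) (.n 1 (.n 2 (.l 0) (.n 2 (.l 0) (.n 1 (.l 7) (.n 1 (.l 7) (.l 0))))) (.l 0))))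
    [(47718850560, 1539317760), (3246995275776, 51539607552), (584115552256, 34359738368)] rfl (by decide +kernel)
end
mutual
theorem c3_m0_t11 : CovD 0 progs [(46179532800, 3078635520), (3195455668224, 103079215104), (652835028992, 34359738368)] :=
  Pool.Agent.helper14.QF.covD_F chks_eq (.l 7)
    [(46179532800, 3078635520), (3195455668224, 103079215104), (652835028992, 34359738368)] rfl (by decide +kernel)
theorem c3_m0_t15 : CovD 0 progs [(43100897280, 6157271040), (3092376453120, 206158430208), (755914244096, 68719476736)] :=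
  Pool.Agent.helper14.QF.covD_F chks_eq (.l 6)
    [(43100897280, 6157271040), (3092376453120, 206158430208), (755914244096, 68719476736)] rfl (by decide +kernel)
end
mutual
theorem c3_m0_t21 : CovD 0 progs [(24629084160, 24629084160), (2473901162496, 824633720832), (962072674304, 137438953472)] :=
  Pool.Agent.helper14.QF.covD_F chks_eq (.n 2 (.l 4) (.n 2 (.l 2) (.n 2 (.l 2) (.n 2 (.l 1) (.n 2 (.l 1) (.n 2 (.l 1) (.l 1)))))))
    [(24629084160, 24629084160), (2473901162496, 824633720832), (962072674304, 137438953472)] rfl (by decide +kernel)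
theorem c4_m0 : CovD 0 progs [(24629084160, 24629084160), (4123168604160, 824633720832), (274877906944, 274877906944)] :=
  Pool.Agent.helper14.QF.covD_F chks_eq (.n 1 (.n 1 (.n 0 (.l 0) (.n 2 (.l 0) (.n 1 (.l 0) (.l 0)))) (.n 2 (.l 10) (.n 0 (.l 0) (.n 2 (.l 0) (.l 0))))) (.n 1 (.n 1 (.n 1 (.n 1 (.l 10) (.l 10)) (.l 10)) (.l 10)) (.l 10)))
    [(24629084160, 24629084160), (4123168604160, 824633720832), (274877906944, 274877906944)] rfl (by decide +kernel)
end
mutual
theorem c5_m0_t0 : CovD 0 progs [(12314542080, 12314542080), (4123168604160, 824633720832), (824633720832, 274877906944)] :=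
  Pool.Agent.helper14.QF.covD_F chks_eq (.n 2 (.n 1 (.l 0) (.n 2 (.l 0) (.l 0))) (.n 2 (.l 0) (.n 2 (.l 0) (.n 2 (.l 0) (.n 2 (.l 0) (.n 2 (.l 0) (.n 2 (.l 0) (.l 0))))))))
    [(12314542080, 12314542080), (4123168604160, 824633720832), (824633720832, 274877906944)] rfl (by decide +kernel)
theorem c5_m0_t1 : CovD 0 progs [(30786355200, 6157271040), (3710851743744, 412316860416), (687194767360, 137438953472)] :=
  Pool.Agent.helper14.QF.covD_F chks_eq (.l 0)
    [(30786355200, 6157271040), (3710851743744, 412316860416), (687194767360, 137438953472)] rfl (by decide +kernel)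
end
mutual
theorem c5_m0_t2 : CovD 0 progs [(40022261760, 3078635520), (3504693313536, 206158430208), (687194767360, 137438953472)] :=
  Pool.Agent.helper14.QF.covD_F chks_eq (.l 0)
    [(40022261760, 3078635520), (3504693313536, 206158430208), (687194767360, 137438953472)] rfl (by decide +kernel)
theorem c5_m0_t3 : CovD 0 progs [(46179532800, 3078635520), (3504693313536, 206158430208), (618475290624, 68719476736)] :=
  Pool.Agent.helper14.QF.covD_F chks_eq (.n 0 (.l 0) (.n 0 (.l 0) (.n 1 (.n 1 (.n 2 (.l 0) (.n 2 (.n 1 (.n 2 (.l 0) (.l 7)) (.l 0)) (.n 2 (.l 7) (.l 7)))) (.l 0)) (.l 0))))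
    [(46179532800, 3078635520), (3504693313536, 206158430208), (618475290624, 68719476736)] rfl (by decide +kernel)
end
mutual
theorem c5_m0_t4 : CovD 0 progs [(46179532800, 3078635520), (3504693313536, 206158430208), (755914244096, 68719476736)] :=
  Pool.Agent.helper14.QF.covD_F chks_eq (.n 2 (.n 0 (.l 0) (.n 1 (.n 1 (.n 2 (.n 2 (.l 7) (.l 6)) (.l 6)) (.n 1 (.n 2 (.n 2 (.l 0) (.n 1 (.n 1 (.l 6) (.n 2 (.l 0) (.l 6))) (.l 0))) (.l 6)) (.n 2 (.l 0) (.n 1 (.l 6) (.n 2 (.l 0) (.l 6)))))) (.l 0))) (.n 1 (.l 6) (.n 1 (.l 6) (.n 2 (.l 0) (.l 0)))))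
    [(46179532800, 3078635520), (3504693313536, 206158430208), (755914244096, 68719476736)] rfl (by decide +kernel)
theorem c5_m0_t7 : CovD 0 progs [(43100897280, 6157271040), (3917010173952, 206158430208), (687194767360, 137438953472)] :=
  Pool.Agent.helper14.QF.covD_F chks_eq (.n 2 (.l 0) (.n 1 (.l 0) (.l 0)))
    [(43100897280, 6157271040), (3917010173952, 206158430208), (687194767360, 137438953472)] rfl (by decide +kernel)
end
mutual
theorem c5_m0_t10 : CovD 0 progs [(36943626240, 12314542080), (4535485464576, 412316860416), (687194767360, 137438953472)] :=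
  Pool.Agent.helper14.QF.covD_F chks_eq (.n 1 (.n 2 (.l 0) (.l 0)) (.n 2 (.n 2 (.l 10) (.l 0)) (.l 0)))
    [(36943626240, 12314542080), (4535485464576, 412316860416), (687194767360, 137438953472)] rfl (by decide +kernel)
theorem c5_m0_t12 : CovD 0 progs [(36943626240, 12314542080), (4123168604160, 824633720832), (962072674304, 137438953472)] :=
  Pool.Agent.helper14.QF.covD_F chks_eq (.n 2 (.n 0 (.l 0) (.n 1 (.n 1 (.l 6) (.n 2 (.n 1 (.l 6) (.l 0)) (.l 4))) (.n 1 (.l 0) (.l 0)))) (.n 2 (.l 4) (.n 2 (.l 3) (.n 2 (.l 2) (.n 2 (.l 0) (.n 2 (.l 0) (.n 0 (.l 0) (.l 0))))))))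
    [(36943626240, 12314542080), (4123168604160, 824633720832), (962072674304, 137438953472)] rfl (by decide +kernel)
end
mutual
theorem c6_m0 : CovD 0 progs [(24629084160, 24629084160), (5772436045824, 824633720832), (274877906944, 274877906944)] :=
  Pool.Agent.helper14.QF.covD_F chks_eq (.l 10)
    [(24629084160, 24629084160), (5772436045824, 824633720832), (274877906944, 274877906944)] rfl (by decide +kernel)
theorem c7_m0_t0 : CovD 0 progs [(24629084160, 24629084160), (5772436045824, 824633720832), (687194767360, 137438953472)] :=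
  Pool.Agent.helper14.QF.covD_F chks_eq (.n 1 (.n 1 (.n 2 (.l 10) (.n 2 (.l 10) (.l 0))) (.n 1 (.n 2 (.l 10) (.n 2 (.l 10) (.l 0))) (.l 10))) (.l 10))
    [(24629084160, 24629084160), (5772436045824, 824633720832), (687194767360, 137438953472)] rfl (by decide +kernel)
theorem c7_m0_t1 : CovD 0 progs [(24629084160, 24629084160), (5772436045824, 824633720832), (962072674304, 137438953472)] :=
  Pool.Agent.helper14.QF.covD_F chks_eq (.n 2 (.n 0 (.n 1 (.l 0) (.l 0)) (.n 1 (.l 0) (.n 1 (.l 0) (.n 2 (.l 10) (.l 0))))) (.n 2 (.n 0 (.l 0) (.n 0 (.l 0) (.l 0))) (.n 2 (.n 0 (.l 0) (.l 0)) (.n 1 (.n 0 (.n 2 (.l 0) (.n 2 (.l 0) (.n 2 (.l 0) (.l 0)))) (.n 2 (.l 0) (.n 2 (.l 0) (.n 2 (.l 0) (.n 0 (.l 0) (.l 0)))))) (.l 9)))))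
    [(24629084160, 24629084160), (5772436045824, 824633720832), (962072674304, 137438953472)] rfl (by decide +kernel)
end

theorem c2_m0_t5 : CovD 0 progs [(43100897280, 6157271040), (2886218022912, 412316860416), (274877906944, 274877906944)] :=
  covD_split 1 (by decide +kernel) c2_m0_t3 c2_m0_t4
theorem c2_m0_t6 : CovD 0 progs [(36943626240, 12314542080), (2886218022912, 412316860416), (274877906944, 274877906944)] :=
  covD_split 0 (by decide +kernel) c2_m0_t2 c2_m0_t5
theorem c2_m0_t7 : CovD 0 progs [(36943626240, 12314542080), (2473901162496, 824633720832), (274877906944, 274877906944)] :=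
  covD_split 1 (by decide +kernel) c2_m0_t1 c2_m0_t6
theorem c2_m0 : CovD 0 progs [(24629084160, 24629084160), (2473901162496, 824633720832), (274877906944, 274877906944)] :=
  covD_split 0 (by decide +kernel) c2_m0_t0 c2_m0_t7
theorem c3_m0_t9 : CovD 0 progs [(47718850560, 1539317760), (3195455668224, 103079215104), (584115552256, 34359738368)] :=
  covD_split 1 (by decide +kernel) c3_m0_t7 c3_m0_t8
theorem c3_m0_t10 : CovD 0 progs [(46179532800, 3078635520), (3195455668224, 103079215104), (584115552256, 34359738368)] :=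
  covD_split 0 (by decide +kernel) c3_m0_t6 c3_m0_t9
theorem c3_m0_t12 : CovD 0 progs [(46179532800, 3078635520), (3195455668224, 103079215104), (618475290624, 68719476736)] :=
  covD_split 2 (by decide +kernel) c3_m0_t10 c3_m0_t11
theorem c3_m0_t13 : CovD 0 progs [(46179532800, 3078635520), (3092376453120, 206158430208), (618475290624, 68719476736)] :=
  covD_split 1 (by decide +kernel) c3_m0_t5 c3_m0_t12
theorem c3_m0_t14 : CovD 0 progs [(43100897280, 6157271040), (3092376453120, 206158430208), (618475290624, 68719476736)] :=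
  covD_split 0 (by decide +kernel) c3_m0_t4 c3_m0_t13
theorem c3_m0_t16 : CovD 0 progs [(43100897280, 6157271040), (3092376453120, 206158430208), (687194767360, 137438953472)] :=
  covD_split 2 (by decide +kernel) c3_m0_t14 c3_m0_t15
theorem c3_m0_t17 : CovD 0 progs [(36943626240, 12314542080), (3092376453120, 206158430208), (687194767360, 137438953472)] :=
  covD_split 0 (by decide +kernel) c3_m0_t3 c3_m0_t16
theorem c3_m0_t18 : CovD 0 progs [(36943626240, 12314542080), (2886218022912, 412316860416), (687194767360, 137438953472)] :=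
  covD_split 1 (by decide +kernel) c3_m0_t2 c3_m0_t17
theorem c3_m0_t19 : CovD 0 progs [(24629084160, 24629084160), (2886218022912, 412316860416), (687194767360, 137438953472)] :=
  covD_split 0 (by decide +kernel) c3_m0_t1 c3_m0_t18
theorem c3_m0_t20 : CovD 0 progs [(24629084160, 24629084160), (2473901162496, 824633720832), (687194767360, 137438953472)] :=
  covD_split 1 (by decide +kernel) c3_m0_t0 c3_m0_t19
theorem c3_m0 : CovD 0 progs [(24629084160, 24629084160), (2473901162496, 824633720832), (824633720832, 274877906944)] :=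
  covD_split 2 (by decide +kernel) c3_m0_t20 c3_m0_t21
theorem c5_m0_t5 : CovD 0 progs [(46179532800, 3078635520), (3504693313536, 206158430208), (687194767360, 137438953472)] :=
  covD_split 2 (by decide +kernel) c5_m0_t3 c5_m0_t4
theorem c5_m0_t6 : CovD 0 progs [(43100897280, 6157271040), (3504693313536, 206158430208), (687194767360, 137438953472)] :=
  covD_split 0 (by decide +kernel) c5_m0_t2 c5_m0_t5
theorem c5_m0_t8 : CovD 0 progs [(43100897280, 6157271040), (3710851743744, 412316860416), (687194767360, 137438953472)] :=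
  covD_split 1 (by decide +kernel) c5_m0_t6 c5_m0_t7
theorem c5_m0_t9 : CovD 0 progs [(36943626240, 12314542080), (3710851743744, 412316860416), (687194767360, 137438953472)] :=
  covD_split 0 (by decide +kernel) c5_m0_t1 c5_m0_t8
theorem c5_m0_t11 : CovD 0 progs [(36943626240, 12314542080), (4123168604160, 824633720832), (687194767360, 137438953472)] :=
  covD_split 1 (by decide +kernel) c5_m0_t9 c5_m0_t10
theorem c5_m0_t13 : CovD 0 progs [(36943626240, 12314542080), (4123168604160, 824633720832), (824633720832, 274877906944)] :=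
  covD_split 2 (by decide +kernel) c5_m0_t11 c5_m0_t12
theorem c5_m0 : CovD 0 progs [(24629084160, 24629084160), (4123168604160, 824633720832), (824633720832, 274877906944)] :=
  covD_split 0 (by decide +kernel) c5_m0_t0 c5_m0_t13
theorem c7_m0 : CovD 0 progs [(24629084160, 24629084160), (5772436045824, 824633720832), (824633720832, 274877906944)] :=
  covD_split 2 (by decide +kernel) c7_m0_t0 c7_m0_t1

end Pool.Agent.helper31.EQB.Cert.LA3
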