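import Pool.Agent.helper31.EQB.Cert.LA4P

/-!
Generated certificates.
-/

namespace Pool.Agent.helper31.EQB.Cert.LA4

open Pool.Agent.helper31.IA (Z Op)
open Pool.Agent.helper31.IC

mutual
theorem c0_m0_t0 : CovD 0 progs [(24629084160, 24629084160), (824633720832, 824633720832), (137438953472, 137438953472)] :=
  Pool.Agent.helper14.QF.covD_F chks_eq (.n 1 (.n 0 (.n 1 (.n 2 (.l 1) (.l 1)) (.n 1 (.n 2 (.l 1) (.l 1)) (.l 1))) (.n 1 (.n 2 (.n 1 (.l 1) (.l 1)) (.l 1)) (.n 1 (.n 2 (.n 1 (.l 1) (.l 1)) (.l 1)) (.n 2 (.n 0 (.l 1) (.l 1)) (.l 1))))) (.n 1 (.n 1 (.n 2 (.l 1) (.l 1)) (.l 2)) (.n 1 (.l 2) (.l 3))))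
    [(24629084160, 24629084160), (824633720832, 824633720832), (137438953472, 137438953472)] rfl (by decide +kernel)
theorem c0_m0_t1 : CovD 0 progs [(24629084160, 24629084160), (824633720832, 824633720832), (412316860416, 137438953472)] :=
  Pool.Agent.helper14.QF.covD_F chks_eq (.n 1 (.n 1 (.n 0 (.l 1) (.n 2 (.l 1) (.l 1))) (.n 2 (.l 1) (.l 1))) (.n 0 (.l 2) (.n 0 (.l 2) (.l 2))))
    [(24629084160, 24629084160), (824633720832, 824633720832), (412316860416, 137438953472)] rfl (by decide +kernel)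
end
mutual
theorem c1_m0 : CovD 0 progs [(24629084160, 24629084160), (824633720832, 824633720832), (824633720832, 274877906944)] :=
  Pool.Agent.helper14.QF.covD_F chks_eq (.n 2 (.n 1 (.n 2 (.l 1) (.l 1)) (.n 0 (.l 2) (.l 2))) (.n 2 (.l 2) (.n 2 (.l 1) (.n 2 (.l 1) (.n 2 (.l 1) (.n 2 (.l 1) (.n 2 (.l 1) (.l 0))))))))
    [(24629084160, 24629084160), (824633720832, 824633720832), (824633720832, 274877906944)] rfl (by decide +kernel)
theorem c2_m0 : CovD 0 progs [(24629084160, 24629084160), (2473901162496, 824633720832), (274877906944, 274877906944)] :=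
  Pool.Agent.helper14.QF.covD_F chks_eq (.n 0 (.n 1 (.l 6) (.n 0 (.l 0) (.l 0))) (.n 1 (.n 1 (.l 3) (.l 6)) (.n 1 (.n 1 (.l 8) (.n 0 (.l 0) (.n 2 (.n 2 (.n 1 (.l 8) (.n 1 (.l 8) (.l 0))) (.n 1 (.l 8) (.n 1 (.l 8) (.l 0)))) (.l 8)))) (.n 0 (.l 0) (.n 2 (.l 0) (.n 2 (.n 1 (.n 1 (.n 2 (.l 0) (.l 8)) (.l 0)) (.l 0)) (.n 1 (.n 1 (.l 8) (.n 2 (.l 0) (.l 8))) (.l 0))))))))
    [(24629084160, 24629084160), (2473901162496, 824633720832), (274877906944, 274877906944)] rfl (by decide +kernel)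
end
mutual
theorem c3_m0 : CovD 0 progs [(24629084160, 24629084160), (2473901162496, 824633720832), (824633720832, 274877906944)] :=
  Pool.Agent.helper14.QF.covD_F chks_eq (.n 2 (.n 1 (.l 3) (.n 0 (.l 0) (.n 1 (.l 6) (.n 0 (.l 0) (.n 2 (.n 1 (.l 7) (.n 2 (.n 1 (.n 1 (.l 7) (.l 0)) (.l 0)) (.l 7))) (.l 6)))))) (.n 2 (.l 4) (.n 2 (.l 2) (.n 2 (.l 2) (.n 2 (.l 1) (.n 2 (.l 1) (.n 2 (.l 1) (.n 0 (.l 0) (.l 0)))))))))
    [(24629084160, 24629084160), (2473901162496, 824633720832), (824633720832, 274877906944)] rfl (by decide +kernel)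
theorem c4_m0 : CovD 0 progs [(24629084160, 24629084160), (4123168604160, 824633720832), (274877906944, 274877906944)] :=
  Pool.Agent.helper14.QF.covD_F chks_eq (.n 1 (.n 2 (.n 1 (.n 0 (.l 0) (.l 0)) (.n 1 (.l 10) (.l 10))) (.n 0 (.l 0) (.n 1 (.l 0) (.n 1 (.l 0) (.n 2 (.l 10) (.l 0)))))) (.n 1 (.n 1 (.n 1 (.n 1 (.n 1 (.l 10) (.l 10)) (.l 10)) (.l 10)) (.l 10)) (.l 10)))
    [(24629084160, 24629084160), (4123168604160, 824633720832), (274877906944, 274877906944)] rfl (by decide +kernel)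
end
mutual
theorem c5_m0_t0 : CovD 0 progs [(24629084160, 24629084160), (4123168604160, 824633720832), (687194767360, 137438953472)] :=
  Pool.Agent.helper14.QF.covD_F chks_eq (.n 0 (.n 1 (.l 0) (.n 2 (.l 0) (.l 0))) (.n 1 (.n 0 (.l 0) (.n 1 (.n 2 (.l 0) (.n 1 (.n 2 (.n 1 (.n 1 (.l 6) (.l 0)) (.l 0)) (.l 6)) (.l 0))) (.n 1 (.l 0) (.l 0)))) (.n 1 (.n 1 (.l 0) (.l 0)) (.n 2 (.n 2 (.l 10) (.l 0)) (.l 0)))))
    [(24629084160, 24629084160), (4123168604160, 824633720832), (687194767360, 137438953472)] rfl (by decide +kernel)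
theorem c5_m0_t1 : CovD 0 progs [(24629084160, 24629084160), (4123168604160, 824633720832), (962072674304, 137438953472)] :=
  Pool.Agent.helper14.QF.covD_F chks_eq (.n 0 (.n 2 (.l 0) (.n 2 (.l 0) (.n 2 (.l 0) (.n 2 (.l 0) (.n 2 (.l 0) (.n 2 (.l 0) (.l 0))))))) (.n 2 (.n 0 (.l 0) (.n 1 (.n 0 (.l 0) (.n 1 (.l 6) (.l 0))) (.l 0))) (.n 2 (.l 4) (.n 2 (.l 3) (.n 2 (.l 2) (.n 2 (.l 0) (.n 2 (.l 0) (.n 0 (.l 0) (.l 0)))))))))
    [(24629084160, 24629084160), (4123168604160, 824633720832), (962072674304, 137438953472)] rfl (by decide +kernel)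
end
mutual
theorem c6_m0 : CovD 0 progs [(24629084160, 24629084160), (5772436045824, 824633720832), (274877906944, 274877906944)] :=
  Pool.Agent.helper14.QF.covD_F chks_eq (.l 10)
    [(24629084160, 24629084160), (5772436045824, 824633720832), (274877906944, 274877906944)] rfl (by decide +kernel)
theorem c7_m0_t0 : CovD 0 progs [(24629084160, 24629084160), (5772436045824, 824633720832), (687194767360, 137438953472)] :=
  Pool.Agent.helper14.QF.covD_F chks_eq (.n 1 (.n 1 (.n 2 (.l 10) (.n 0 (.l 0) (.n 1 (.l 0) (.n 2 (.l 10) (.l 0))))) (.n 1 (.n 2 (.l 10) (.n 0 (.l 0) (.n 2 (.l 10) (.l 0)))) (.l 10))) (.n 1 (.l 10) (.l 10)))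
    [(24629084160, 24629084160), (5772436045824, 824633720832), (687194767360, 137438953472)] rfl (by decide +kernel)
theorem c7_m0_t1 : CovD 0 progs [(24629084160, 24629084160), (5772436045824, 824633720832), (962072674304, 137438953472)] :=
  Pool.Agent.helper14.QF.covD_F chks_eq (.n 2 (.n 0 (.n 0 (.l 0) (.n 0 (.l 0) (.l 0))) (.n 1 (.l 0) (.n 1 (.l 0) (.n 2 (.l 10) (.l 0))))) (.n 2 (.n 0 (.l 0) (.l 0)) (.n 2 (.n 0 (.l 0) (.l 0)) (.n 1 (.n 0 (.n 2 (.l 0) (.n 2 (.l 0) (.n 2 (.l 0) (.l 0)))) (.n 2 (.l 0) (.n 2 (.l 0) (.n 2 (.l 0) (.n 0 (.l 0) (.l 0)))))) (.l 9)))))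
    [(24629084160, 24629084160), (5772436045824, 824633720832), (962072674304, 137438953472)] rfl (by decide +kernel)
end

theorem c0_m0 : CovD 0 progs [(24629084160, 24629084160), (824633720832, 824633720832), (274877906944, 274877906944)] :=
  covD_split 2 (by decide +kernel) c0_m0_t0 c0_m0_t1
theorem c5_m0 : CovD 0 progs [(24629084160, 24629084160), (4123168604160, 824633720832), (824633720832, 274877906944)] :=
  covD_split 2 (by decide +kernel) c5_m0_t0 c5_m0_t1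
theorem c7_m0 : CovD 0 progs [(24629084160, 24629084160), (5772436045824, 824633720832), (824633720832, 274877906944)] :=
  covD_split 2 (by decide +kernel) c7_m0_t0 c7_m0_t1

end Pool.Agent.helper31.EQB.Cert.LA4
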