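import Pool.Agent.helper31.EQB.Cert.LB0P

/-!
Generated certificates.
-/

namespace Pool.Agent.helper31.EQB.Cert.LB0

open Pool.Agent.helper31.IA (Z Op)
open Pool.Agent.helper31.IC

mutual
theorem c3_m2_t0 : CovD 0 progs [(171798691840, 171798691840), (137438953472, 27487830016), (3487513444352, 120259084288)] :=
  Pool.Agent.helper14.QF.covD_F chks_eq (.n 2 (.l 0) (.n 2 (.n 2 (.n 0 (.l 0) (.l 0)) (.n 2 (.n 2 (.n 2 (.n 0 (.n 0 (.l 0) (.l 0)) (.l 0)) (.n 0 (.l 5) (.n 0 (.l 0) (.l 0)))) (.n 0 (.l 5) (.l 5))) (.l 5))) (.l 5)))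
    [(171798691840, 171798691840), (137438953472, 27487830016), (3487513444352, 120259084288)] rfl (by decide +kernel)
theorem c3_m2_t1 : CovD 0 progs [(429496729600, 85899345920), (137438953472, 27487830016), (3487513444352, 120259084288)] :=
  Pool.Agent.helper14.QF.covD_F chks_eq (.n 2 (.n 0 (.l 1) (.l 1)) (.n 2 (.n 2 (.l 1) (.n 2 (.n 0 (.l 1) (.l 1)) (.l 5))) (.l 5)))
    [(429496729600, 85899345920), (137438953472, 27487830016), (3487513444352, 120259084288)] rfl (by decide +kernel)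
end
mutual
theorem c3_m2_t2 : CovD 0 progs [(601295421440, 85899345920), (123695038464, 13743915008), (3487513444352, 120259084288)] :=
  Pool.Agent.helper14.QF.covD_F chks_eq (.n 2 (.n 0 (.l 1) (.n 0 (.l 1) (.n 0 (.l 1) (.n 1 (.l 1) (.n 1 (.l 1) (.l 3)))))) (.n 2 (.n 0 (.n 0 (.l 1) (.l 1)) (.n 0 (.l 1) (.n 0 (.l 1) (.n 1 (.l 1) (.n 1 (.l 1) (.l 3)))))) (.l 5)))
    [(601295421440, 85899345920), (123695038464, 13743915008), (3487513444352, 120259084288)] rfl (by decide +kernel)
theorem c3_m2_t3 : CovD 0 progs [(536870912000, 21474836480), (151182868480, 13743915008), (3487513444352, 120259084288)] :=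
  Pool.Agent.helper14.QF.covD_F chks_eq (.n 2 (.n 0 (.l 1) (.n 1 (.l 1) (.n 1 (.l 1) (.n 0 (.n 1 (.l 1) (.l 3)) (.l 3))))) (.n 2 (.n 1 (.l 1) (.n 2 (.n 0 (.l 1) (.n 1 (.l 1) (.n 0 (.n 1 (.l 1) (.l 3)) (.l 3)))) (.n 2 (.n 0 (.l 1) (.n 1 (.l 1) (.n 0 (.n 1 (.l 1) (.l 3)) (.l 3)))) (.l 5)))) (.l 5)))
    [(536870912000, 21474836480), (151182868480, 13743915008), (3487513444352, 120259084288)] rfl (by decide +kernel)
end
mutual
theorem c3_m2_t4 : CovD 0 progs [(579820584960, 21474836480), (151182868480, 13743915008), (3487513444352, 120259084288)] :=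
  Pool.Agent.helper14.QF.covD_F chks_eq (.n 1 (.n 2 (.n 0 (.l 1) (.n 1 (.l 1) (.n 1 (.l 1) (.l 3)))) (.n 2 (.n 0 (.l 1) (.n 1 (.l 1) (.n 1 (.l 1) (.l 3)))) (.l 5))) (.n 0 (.n 0 (.n 1 (.n 1 (.n 2 (.l 1) (.n 2 (.l 1) (.l 5))) (.l 3)) (.l 3)) (.l 3)) (.l 3)))
    [(579820584960, 21474836480), (151182868480, 13743915008), (3487513444352, 120259084288)] rfl (by decide +kernel)
theorem c3_m2_t6 : CovD 0 progs [(644245094400, 42949672960), (151182868480, 13743915008), (3487513444352, 120259084288)] :=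
  Pool.Agent.helper14.QF.covD_F chks_eq (.n 0 (.n 1 (.n 1 (.n 0 (.n 2 (.l 1) (.n 2 (.l 1) (.l 5))) (.l 3)) (.l 3)) (.l 3)) (.l 3))
    [(644245094400, 42949672960), (151182868480, 13743915008), (3487513444352, 120259084288)] rfl (by decide +kernel)
end
mutual
theorem c3_m2_t11 : CovD 0 progs [(343597383680, 343597383680), (137438953472, 27487830016), (3728031612928, 120259084288)] :=
  Pool.Agent.helper14.QF.covD_F chks_eq (.l 5)
    [(343597383680, 343597383680), (137438953472, 27487830016), (3728031612928, 120259084288)] rfl (by decide +kernel)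
theorem c3_m2_t13 : CovD 0 progs [(171798691840, 171798691840), (192414613504, 27487830016), (3607772528640, 240518168576)] :=
  Pool.Agent.helper14.QF.covD_F chks_eq (.n 2 (.n 2 (.n 0 (.l 0) (.n 0 (.l 0) (.l 1))) (.n 2 (.n 2 (.n 0 (.l 0) (.n 0 (.l 0) (.l 1))) (.n 2 (.n 2 (.n 2 (.n 0 (.n 0 (.l 0) (.l 0)) (.n 0 (.l 0) (.l 1))) (.n 0 (.l 5) (.n 0 (.l 0) (.l 1)))) (.n 0 (.l 5) (.n 0 (.l 5) (.l 2)))) (.l 5))) (.l 5))) (.l 5))
    [(171798691840, 171798691840), (192414613504, 27487830016), (3607772528640, 240518168576)] rfl (by decide +kernel)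
end
mutual
theorem c3_m2_t14 : CovD 0 progs [(365072220160, 21474836480), (192414613504, 27487830016), (3427383902208, 60129542144)] :=
  Pool.Agent.helper14.QF.covD_F chks_eq (.l 2)
    [(365072220160, 21474836480), (192414613504, 27487830016), (3427383902208, 60129542144)] rfl (by decide +kernel)
theorem c3_m2_t15 : CovD 0 progs [(408021893120, 21474836480), (178670698496, 13743915008), (3427383902208, 60129542144)] :=
  Pool.Agent.helper14.QF.covD_F chks_eq (.l 1)
    [(408021893120, 21474836480), (178670698496, 13743915008), (3427383902208, 60129542144)] rfl (by decide +kernel)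
end
mutual
theorem c3_m2_t16 : CovD 0 progs [(397284474880, 10737418240), (206158528512, 13743915008), (3427383902208, 60129542144)] :=
  Pool.Agent.helper14.QF.covD_F chks_eq (.n 0 (.n 0 (.l 2) (.n 1 (.l 1) (.n 1 (.l 2) (.n 1 (.l 2) (.n 1 (.l 2) (.l 3)))))) (.n 1 (.l 1) (.n 0 (.n 1 (.l 2) (.n 1 (.n 0 (.l 2) (.n 1 (.l 2) (.l 3))) (.l 3))) (.n 0 (.n 1 (.l 2) (.l 3)) (.n 1 (.n 1 (.l 2) (.n 1 (.l 2) (.l 3))) (.l 3))))))
    [(397284474880, 10737418240), (206158528512, 13743915008), (3427383902208, 60129542144)] rfl (by decide +kernel)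
theorem c3_m2_t17 : CovD 0 progs [(418759311360, 10737418240), (206158528512, 13743915008), (3427383902208, 60129542144)] :=
  Pool.Agent.helper14.QF.covD_F chks_eq (.n 0 (.n 1 (.l 2) (.n 1 (.n 0 (.n 1 (.l 2) (.l 3)) (.n 0 (.n 1 (.n 1 (.l 2) (.l 3)) (.l 3)) (.l 3))) (.l 3))) (.n 1 (.n 1 (.l 1) (.n 0 (.n 1 (.l 2) (.n 1 (.l 2) (.l 3))) (.n 1 (.n 0 (.l 2) (.n 1 (.l 2) (.l 3))) (.l 3)))) (.l 3)))
    [(418759311360, 10737418240), (206158528512, 13743915008), (3427383902208, 60129542144)] rfl (by decide +kernel)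
end
mutual
theorem c3_m2_t21 : CovD 0 progs [(386547056640, 42949672960), (178670698496, 13743915008), (3517578215424, 30064771072)] :=
  Pool.Agent.helper14.QF.covD_F chks_eq (.n 2 (.l 1) (.n 2 (.l 1) (.l 5)))
    [(386547056640, 42949672960), (178670698496, 13743915008), (3517578215424, 30064771072)] rfl (by decide +kernel)
theorem c3_m2_t22 : CovD 0 progs [(365072220160, 21474836480), (206158528512, 13743915008), (3502545829888, 15032385536)] :=
  Pool.Agent.helper14.QF.covD_F chks_eq (.l 2)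
    [(365072220160, 21474836480), (206158528512, 13743915008), (3502545829888, 15032385536)] rfl (by decide +kernel)
end
mutual
theorem c3_m2_t23 : CovD 0 progs [(397284474880, 10737418240), (206158528512, 13743915008), (3502545829888, 15032385536)] :=
  Pool.Agent.helper14.QF.covD_F chks_eq (.n 0 (.n 0 (.l 2) (.n 1 (.l 1) (.n 1 (.l 2) (.n 1 (.l 2) (.n 1 (.l 2) (.l 3)))))) (.n 1 (.l 1) (.n 0 (.n 1 (.l 2) (.n 1 (.n 0 (.l 2) (.n 1 (.l 2) (.l 3))) (.l 3))) (.n 1 (.n 0 (.l 2) (.n 1 (.l 2) (.n 1 (.l 2) (.l 3)))) (.l 3)))))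
    [(397284474880, 10737418240), (206158528512, 13743915008), (3502545829888, 15032385536)] rfl (by decide +kernel)
theorem c3_m2_t24 : CovD 0 progs [(418759311360, 10737418240), (206158528512, 13743915008), (3502545829888, 15032385536)] :=
  Pool.Agent.helper14.QF.covD_F chks_eq (.n 0 (.n 1 (.l 2) (.n 1 (.n 0 (.n 1 (.l 2) (.l 3)) (.n 0 (.n 1 (.n 1 (.l 2) (.l 3)) (.l 3)) (.l 3))) (.l 3))) (.n 1 (.n 1 (.l 2) (.n 0 (.n 1 (.l 2) (.n 1 (.n 0 (.l 2) (.n 0 (.l 2) (.l 3))) (.l 3))) (.n 1 (.n 0 (.l 2) (.n 1 (.l 2) (.l 3))) (.l 3)))) (.l 3)))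
    [(418759311360, 10737418240), (206158528512, 13743915008), (3502545829888, 15032385536)] rfl (by decide +kernel)
end
mutual
theorem c3_m2_t27 : CovD 0 progs [(365072220160, 21474836480), (206158528512, 13743915008), (3525094408192, 7516192768)] :=
  Pool.Agent.helper14.QF.covD_F chks_eq (.l 2)
    [(365072220160, 21474836480), (206158528512, 13743915008), (3525094408192, 7516192768)] rfl (by decide +kernel)
theorem c3_m2_t28 : CovD 0 progs [(397284474880, 10737418240), (206158528512, 13743915008), (3525094408192, 7516192768)] :=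
  Pool.Agent.helper14.QF.covD_F chks_eq (.n 1 (.l 1) (.n 0 (.n 0 (.l 2) (.n 1 (.l 2) (.n 1 (.l 2) (.n 1 (.l 2) (.l 3))))) (.n 0 (.n 1 (.l 2) (.n 1 (.n 0 (.l 2) (.n 1 (.l 2) (.l 3))) (.l 3))) (.n 1 (.n 0 (.l 2) (.n 1 (.l 2) (.n 1 (.l 2) (.l 3)))) (.l 3)))))
    [(397284474880, 10737418240), (206158528512, 13743915008), (3525094408192, 7516192768)] rfl (by decide +kernel)
end
mutual
theorem c3_m2_t29 : CovD 0 progs [(418759311360, 10737418240), (206158528512, 13743915008), (3525094408192, 7516192768)] :=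
  Pool.Agent.helper14.QF.covD_F chks_eq (.n 0 (.n 1 (.l 2) (.n 1 (.n 0 (.n 1 (.l 2) (.l 3)) (.n 0 (.n 1 (.n 1 (.l 2) (.l 3)) (.l 3)) (.l 3))) (.l 3))) (.n 1 (.n 1 (.l 2) (.n 0 (.n 1 (.l 2) (.n 1 (.n 0 (.l 2) (.n 0 (.l 2) (.l 3))) (.l 3))) (.n 1 (.n 0 (.l 2) (.n 1 (.l 2) (.l 3))) (.l 3)))) (.l 3)))
    [(418759311360, 10737418240), (206158528512, 13743915008), (3525094408192, 7516192768)] rfl (by decide +kernel)
theorem c3_m2_t32 : CovD 0 progs [(386547056640, 42949672960), (206158528512, 13743915008), (3540126793728, 7516192768)] :=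
  Pool.Agent.helper14.QF.covD_F chks_eq (.l 5)
    [(386547056640, 42949672960), (206158528512, 13743915008), (3540126793728, 7516192768)] rfl (by decide +kernel)
end
mutual
theorem c3_m2_t36 : CovD 0 progs [(386547056640, 42949672960), (192414613504, 27487830016), (3577707757568, 30064771072)] :=
  Pool.Agent.helper14.QF.covD_F chks_eq (.l 5)
    [(386547056640, 42949672960), (192414613504, 27487830016), (3577707757568, 30064771072)] rfl (by decide +kernel)
theorem c3_m2_t39 : CovD 0 progs [(450971566080, 21474836480), (171798740992, 6871957504), (3487513444352, 120259084288)] :=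
  Pool.Agent.helper14.QF.covD_F chks_eq (.n 2 (.l 1) (.n 2 (.n 2 (.l 1) (.n 2 (.l 1) (.l 5))) (.l 5)))
    [(450971566080, 21474836480), (171798740992, 6871957504), (3487513444352, 120259084288)] rfl (by decide +kernel)
end
mutual
theorem c3_m2_t40 : CovD 0 progs [(450971566080, 21474836480), (185542656000, 6871957504), (3427383902208, 60129542144)] :=
  Pool.Agent.helper14.QF.covD_F chks_eq (.n 0 (.n 0 (.l 1) (.n 0 (.l 1) (.n 0 (.l 2) (.n 0 (.l 2) (.n 1 (.l 1) (.n 1 (.l 1) (.n 1 (.l 1) (.l 3)))))))) (.n 0 (.n 0 (.n 1 (.l 1) (.n 1 (.l 1) (.n 0 (.n 1 (.l 2) (.l 3)) (.l 3)))) (.n 1 (.l 1) (.n 1 (.n 1 (.l 1) (.n 0 (.n 0 (.l 1) (.l 3)) (.l 3))) (.l 3)))) (.n 1 (.n 0 (.l 1) (.n 1 (.l 1) (.n 1 (.l 1) (.l 3)))) (.l 3))))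
    [(450971566080, 21474836480), (185542656000, 6871957504), (3427383902208, 60129542144)] rfl (by decide +kernel)
theorem c3_m2_t41 : CovD 0 progs [(450971566080, 21474836480), (182106677248, 3435978752), (3517578215424, 30064771072)] :=
  Pool.Agent.helper14.QF.covD_F chks_eq (.n 2 (.n 0 (.l 1) (.n 0 (.l 1) (.n 0 (.l 1) (.n 1 (.l 1) (.n 1 (.l 1) (.l 3)))))) (.n 2 (.n 0 (.l 1) (.n 0 (.l 1) (.n 0 (.l 1) (.n 1 (.l 1) (.n 1 (.l 1) (.l 3)))))) (.l 5)))
    [(450971566080, 21474836480), (182106677248, 3435978752), (3517578215424, 30064771072)] rfl (by decide +kernel)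
end
mutual
theorem c3_m2_t42 : CovD 0 progs [(440234147840, 10737418240), (188978634752, 3435978752), (3517578215424, 30064771072)] :=
  Pool.Agent.helper14.QF.covD_F chks_eq (.n 2 (.n 0 (.l 1) (.n 0 (.l 1) (.n 0 (.l 2) (.n 1 (.l 1) (.n 1 (.l 1) (.n 1 (.l 2) (.l 3))))))) (.n 2 (.n 0 (.l 1) (.n 0 (.l 1) (.n 0 (.l 2) (.n 1 (.l 1) (.n 1 (.l 1) (.n 1 (.l 2) (.l 3))))))) (.l 5)))
    [(440234147840, 10737418240), (188978634752, 3435978752), (3517578215424, 30064771072)] rfl (by decide +kernel)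
theorem c3_m2_t43 : CovD 0 progs [(461708984320, 10737418240), (188978634752, 3435978752), (3517578215424, 30064771072)] :=
  Pool.Agent.helper14.QF.covD_F chks_eq (.n 1 (.n 0 (.n 0 (.n 2 (.l 1) (.n 2 (.l 1) (.l 5))) (.n 1 (.n 2 (.l 1) (.n 2 (.l 1) (.l 5))) (.n 0 (.n 1 (.n 2 (.l 1) (.n 2 (.l 1) (.l 5))) (.l 3)) (.l 3)))) (.l 3)) (.n 0 (.n 0 (.n 0 (.n 1 (.n 1 (.n 2 (.l 1) (.n 2 (.l 1) (.l 5))) (.l 3)) (.l 3)) (.l 3)) (.l 3)) (.l 3)))
    [(461708984320, 10737418240), (188978634752, 3435978752), (3517578215424, 30064771072)] rfl (by decide +kernel)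
end
mutual
theorem c3_m2_t46 : CovD 0 progs [(450971566080, 21474836480), (185542656000, 6871957504), (3577707757568, 30064771072)] :=
  Pool.Agent.helper14.QF.covD_F chks_eq (.l 5)
    [(450971566080, 21474836480), (185542656000, 6871957504), (3577707757568, 30064771072)] rfl (by decide +kernel)
theorem c3_m2_t50 : CovD 0 progs [(432181084160, 2684354560), (199286571008, 6871957504), (3487513444352, 120259084288)] :=
  Pool.Agent.helper14.QF.covD_F chks_eq (.n 1 (.n 2 (.n 0 (.l 2) (.n 0 (.l 2) (.n 1 (.l 1) (.n 1 (.l 2) (.l 3))))) (.n 2 (.n 2 (.n 0 (.l 2) (.n 0 (.l 2) (.n 1 (.l 1) (.n 1 (.l 2) (.l 3))))) (.n 2 (.n 0 (.l 2) (.n 0 (.l 2) (.n 1 (.l 1) (.n 1 (.l 2) (.l 3))))) (.l 5))) (.l 5))) (.l 3))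
    [(432181084160, 2684354560), (199286571008, 6871957504), (3487513444352, 120259084288)] rfl (by decide +kernel)
end
mutual
theorem c3_m2_t51 : CovD 0 progs [(437549793280, 2684354560), (199286571008, 6871957504), (3487513444352, 120259084288)] :=
  Pool.Agent.helper14.QF.covD_F chks_eq (.n 1 (.n 1 (.n 2 (.l 2) (.n 2 (.n 2 (.l 2) (.n 2 (.l 2) (.l 5))) (.l 5))) (.n 0 (.n 1 (.n 1 (.n 2 (.l 2) (.n 2 (.n 2 (.l 2) (.n 2 (.l 2) (.l 5))) (.l 5))) (.l 3)) (.l 3)) (.l 3))) (.l 3))
    [(437549793280, 2684354560), (199286571008, 6871957504), (3487513444352, 120259084288)] rfl (by decide +kernel)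
theorem c3_m2_t53 : CovD 0 progs [(445602856960, 5368709120), (199286571008, 6871957504), (3487513444352, 120259084288)] :=
  Pool.Agent.helper14.QF.covD_F chks_eq (.n 0 (.n 0 (.n 1 (.n 1 (.n 2 (.n 0 (.l 2) (.n 1 (.l 1) (.l 3))) (.n 2 (.n 1 (.n 2 (.l 1) (.n 2 (.l 2) (.l 5))) (.n 1 (.n 2 (.l 2) (.n 2 (.l 2) (.l 5))) (.l 3))) (.l 5))) (.l 3)) (.l 3)) (.n 1 (.n 1 (.n 1 (.n 1 (.n 2 (.l 1) (.n 2 (.n 2 (.l 2) (.n 2 (.l 2) (.l 5))) (.l 5))) (.l 3)) (.l 3)) (.l 3)) (.l 3))) (.l 3))
    [(445602856960, 5368709120), (199286571008, 6871957504), (3487513444352, 120259084288)] rfl (by decide +kernel)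
end
mutual
theorem c3_m2_t55 : CovD 0 progs [(440234147840, 10737418240), (213030486016, 6871957504), (3487513444352, 120259084288)] :=
  Pool.Agent.helper14.QF.covD_F chks_eq (.l 3)
    [(440234147840, 10737418240), (213030486016, 6871957504), (3487513444352, 120259084288)] rfl (by decide +kernel)
theorem c3_m2_t57 : CovD 0 progs [(461708984320, 10737418240), (206158528512, 13743915008), (3487513444352, 120259084288)] :=
  Pool.Agent.helper14.QF.covD_F chks_eq (.l 3)
    [(461708984320, 10737418240), (206158528512, 13743915008), (3487513444352, 120259084288)] rfl (by decide +kernel)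
end
mutual
theorem c3_m2_t60 : CovD 0 progs [(483183820800, 10737418240), (171798740992, 6871957504), (3487513444352, 120259084288)] :=
  Pool.Agent.helper14.QF.covD_F chks_eq (.n 2 (.n 0 (.l 1) (.n 0 (.l 1) (.n 1 (.l 1) (.n 1 (.l 1) (.l 3))))) (.n 2 (.n 2 (.n 0 (.l 1) (.n 0 (.l 1) (.n 1 (.l 1) (.n 1 (.l 1) (.l 3))))) (.n 2 (.n 0 (.l 1) (.n 0 (.l 1) (.n 1 (.l 1) (.n 1 (.l 1) (.l 3))))) (.l 5))) (.l 5)))
    [(483183820800, 10737418240), (171798740992, 6871957504), (3487513444352, 120259084288)] rfl (by decide +kernel)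
theorem c3_m2_t61 : CovD 0 progs [(504658657280, 10737418240), (171798740992, 6871957504), (3487513444352, 120259084288)] :=
  Pool.Agent.helper14.QF.covD_F chks_eq (.n 1 (.n 2 (.n 0 (.l 1) (.n 0 (.l 1) (.n 1 (.l 1) (.l 3)))) (.n 2 (.n 2 (.n 0 (.l 1) (.n 0 (.l 1) (.n 1 (.l 1) (.l 3)))) (.n 2 (.n 0 (.l 1) (.n 0 (.l 1) (.n 1 (.l 1) (.l 3)))) (.l 5))) (.l 5))) (.n 0 (.n 0 (.n 1 (.n 1 (.n 2 (.l 1) (.n 2 (.n 2 (.l 1) (.n 2 (.l 1) (.l 5))) (.l 5))) (.l 3)) (.l 3)) (.l 3)) (.l 3)))
    [(504658657280, 10737418240), (171798740992, 6871957504), (3487513444352, 120259084288)] rfl (by decide +kernel)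
end
mutual
theorem c3_m2_t63 : CovD 0 progs [(493921239040, 21474836480), (185542656000, 6871957504), (3487513444352, 120259084288)] :=
  Pool.Agent.helper14.QF.covD_F chks_eq (.n 0 (.n 0 (.n 1 (.n 1 (.n 2 (.n 0 (.l 1) (.n 1 (.l 1) (.l 3))) (.n 2 (.n 0 (.n 2 (.l 1) (.n 2 (.l 1) (.l 5))) (.n 1 (.n 2 (.l 1) (.n 2 (.l 1) (.l 5))) (.l 3))) (.l 5))) (.l 3)) (.l 3)) (.l 3)) (.l 3))
    [(493921239040, 21474836480), (185542656000, 6871957504), (3487513444352, 120259084288)] rfl (by decide +kernel)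
theorem c3_m2_t65 : CovD 0 progs [(493921239040, 21474836480), (206158528512, 13743915008), (3487513444352, 120259084288)] :=
  Pool.Agent.helper14.QF.covD_F chks_eq (.l 3)
    [(493921239040, 21474836480), (206158528512, 13743915008), (3487513444352, 120259084288)] rfl (by decide +kernel)
end
mutual
theorem c3_m2_t69 : CovD 0 progs [(601295421440, 85899345920), (192414613504, 27487830016), (3487513444352, 120259084288)] :=
  Pool.Agent.helper14.QF.covD_F chks_eq (.n 0 (.n 0 (.n 0 (.n 0 (.n 0 (.n 1 (.n 1 (.n 1 (.n 1 (.n 1 (.n 2 (.l 1) (.n 2 (.n 2 (.l 1) (.n 2 (.l 1) (.l 5))) (.l 5))) (.l 3)) (.l 3)) (.l 3)) (.l 3)) (.l 3)) (.l 3)) (.l 3)) (.l 3)) (.l 3)) (.l 3))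
    [(601295421440, 85899345920), (192414613504, 27487830016), (3487513444352, 120259084288)] rfl (by decide +kernel)
theorem c3_m2_t71 : CovD 0 progs [(515396075520, 171798691840), (192414613504, 27487830016), (3728031612928, 120259084288)] :=
  Pool.Agent.helper14.QF.covD_F chks_eq (.l 5)
    [(515396075520, 171798691840), (192414613504, 27487830016), (3728031612928, 120259084288)] rfl (by decide +kernel)
end
mutual
theorem c4_m0_t0 : CovD 0 progs [(773094113280, 85899345920), (54975594496, 54975594496), (962072674304, 962072674304)] :=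
  Pool.Agent.helper14.QF.covD_F chks_eq (.n 0 (.n 2 (.n 2 (.l 1) (.l 1)) (.n 2 (.l 1) (.l 1))) (.n 0 (.n 2 (.l 1) (.l 1)) (.n 2 (.l 1) (.n 1 (.l 0) (.l 1)))))
    [(773094113280, 85899345920), (54975594496, 54975594496), (962072674304, 962072674304)] rfl (by decide +kernel)
theorem c4_m0_t1 : CovD 0 progs [(944892805120, 85899345920), (54975594496, 54975594496), (962072674304, 962072674304)] :=
  Pool.Agent.helper14.QF.covD_F chks_eq (.n 0 (.n 1 (.n 2 (.l 0) (.l 0)) (.n 1 (.n 2 (.l 1) (.l 1)) (.n 1 (.n 2 (.l 1) (.l 1)) (.n 1 (.n 2 (.l 1) (.l 1)) (.l 3))))) (.n 1 (.n 2 (.l 0) (.l 0)) (.n 1 (.n 2 (.l 1) (.l 1)) (.n 0 (.n 1 (.n 2 (.l 1) (.l 1)) (.l 3)) (.n 1 (.n 1 (.n 2 (.l 1) (.l 1)) (.l 3)) (.l 3))))))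
    [(944892805120, 85899345920), (54975594496, 54975594496), (962072674304, 962072674304)] rfl (by decide +kernel)
end
mutual
theorem c4_m0_t3 : CovD 0 progs [(1116691496960, 85899345920), (54975594496, 54975594496), (962072674304, 962072674304)] :=
  Pool.Agent.helper14.QF.covD_F chks_eq (.n 0 (.n 0 (.n 0 (.n 1 (.l 0) (.n 1 (.l 1) (.n 1 (.n 1 (.l 1) (.l 3)) (.l 3)))) (.n 1 (.l 0) (.n 1 (.l 1) (.l 3)))) (.n 1 (.l 0) (.n 1 (.l 1) (.l 3)))) (.n 1 (.l 1) (.n 1 (.n 1 (.l 1) (.n 1 (.l 1) (.n 1 (.n 0 (.l 1) (.l 3)) (.l 3)))) (.l 3))))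
    [(1116691496960, 85899345920), (54975594496, 54975594496), (962072674304, 962072674304)] rfl (by decide +kernel)
theorem c4_m0_t4 : CovD 0 progs [(1245540515840, 42949672960), (54975594496, 54975594496), (962072674304, 962072674304)] :=
  Pool.Agent.helper14.QF.covD_F chks_eq (.n 1 (.l 1) (.n 1 (.n 1 (.l 1) (.n 2 (.n 1 (.n 1 (.n 0 (.l 1) (.l 3)) (.l 3)) (.l 3)) (.n 1 (.n 1 (.n 0 (.l 1) (.l 3)) (.l 3)) (.l 3)))) (.l 3)))
    [(1245540515840, 42949672960), (54975594496, 54975594496), (962072674304, 962072674304)] rfl (by decide +kernel)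
theorem c4_m0_t5 : CovD 0 progs [(1331439861760, 42949672960), (54975594496, 54975594496), (962072674304, 962072674304)] :=
  Pool.Agent.helper14.QF.covD_F chks_eq (.n 0 (.n 1 (.l 1) (.n 1 (.n 0 (.n 1 (.l 1) (.l 3)) (.n 1 (.n 1 (.l 1) (.n 1 (.l 1) (.n 1 (.l 1) (.l 3)))) (.l 3))) (.l 3))) (.n 1 (.l 1) (.n 1 (.n 1 (.n 1 (.l 1) (.n 1 (.n 1 (.l 1) (.n 0 (.l 1) (.l 3))) (.l 3))) (.l 3)) (.l 3))))
    [(1331439861760, 42949672960), (54975594496, 54975594496), (962072674304, 962072674304)] rfl (by decide +kernel)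
end

theorem c3_m2_t5 : CovD 0 progs [(558345748480, 42949672960), (151182868480, 13743915008), (3487513444352, 120259084288)] :=
  covD_split 0 (by decide +kernel) c3_m2_t3 c3_m2_t4
theorem c3_m2_t7 : CovD 0 progs [(601295421440, 85899345920), (151182868480, 13743915008), (3487513444352, 120259084288)] :=
  covD_split 0 (by decide +kernel) c3_m2_t5 c3_m2_t6
theorem c3_m2_t8 : CovD 0 progs [(601295421440, 85899345920), (137438953472, 27487830016), (3487513444352, 120259084288)] :=
  covD_split 1 (by decide +kernel) c3_m2_t2 c3_m2_t7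
theorem c3_m2_t9 : CovD 0 progs [(515396075520, 171798691840), (137438953472, 27487830016), (3487513444352, 120259084288)] :=
  covD_split 0 (by decide +kernel) c3_m2_t1 c3_m2_t8
theorem c3_m2_t10 : CovD 0 progs [(343597383680, 343597383680), (137438953472, 27487830016), (3487513444352, 120259084288)] :=
  covD_split 0 (by decide +kernel) c3_m2_t0 c3_m2_t9
theorem c3_m2_t12 : CovD 0 progs [(343597383680, 343597383680), (137438953472, 27487830016), (3607772528640, 240518168576)] :=
  covD_split 2 (by decide +kernel) c3_m2_t10 c3_m2_t11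
theorem c3_m2_t18 : CovD 0 progs [(408021893120, 21474836480), (206158528512, 13743915008), (3427383902208, 60129542144)] :=
  covD_split 0 (by decide +kernel) c3_m2_t16 c3_m2_t17
theorem c3_m2_t19 : CovD 0 progs [(408021893120, 21474836480), (192414613504, 27487830016), (3427383902208, 60129542144)] :=
  covD_split 1 (by decide +kernel) c3_m2_t15 c3_m2_t18
theorem c3_m2_t20 : CovD 0 progs [(386547056640, 42949672960), (192414613504, 27487830016), (3427383902208, 60129542144)] :=
  covD_split 0 (by decide +kernel) c3_m2_t14 c3_m2_t19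
theorem c3_m2_t25 : CovD 0 progs [(408021893120, 21474836480), (206158528512, 13743915008), (3502545829888, 15032385536)] :=
  covD_split 0 (by decide +kernel) c3_m2_t23 c3_m2_t24
theorem c3_m2_t26 : CovD 0 progs [(386547056640, 42949672960), (206158528512, 13743915008), (3502545829888, 15032385536)] :=
  covD_split 0 (by decide +kernel) c3_m2_t22 c3_m2_t25
theorem c3_m2_t30 : CovD 0 progs [(408021893120, 21474836480), (206158528512, 13743915008), (3525094408192, 7516192768)] :=
  covD_split 0 (by decide +kernel) c3_m2_t28 c3_m2_t29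
theorem c3_m2_t31 : CovD 0 progs [(386547056640, 42949672960), (206158528512, 13743915008), (3525094408192, 7516192768)] :=
  covD_split 0 (by decide +kernel) c3_m2_t27 c3_m2_t30
theorem c3_m2_t33 : CovD 0 progs [(386547056640, 42949672960), (206158528512, 13743915008), (3532610600960, 15032385536)] :=
  covD_split 2 (by decide +kernel) c3_m2_t31 c3_m2_t32
theorem c3_m2_t34 : CovD 0 progs [(386547056640, 42949672960), (206158528512, 13743915008), (3517578215424, 30064771072)] :=
  covD_split 2 (by decide +kernel) c3_m2_t26 c3_m2_t33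
theorem c3_m2_t35 : CovD 0 progs [(386547056640, 42949672960), (192414613504, 27487830016), (3517578215424, 30064771072)] :=
  covD_split 1 (by decide +kernel) c3_m2_t21 c3_m2_t34
theorem c3_m2_t37 : CovD 0 progs [(386547056640, 42949672960), (192414613504, 27487830016), (3547642986496, 60129542144)] :=
  covD_split 2 (by decide +kernel) c3_m2_t35 c3_m2_t36
theorem c3_m2_t38 : CovD 0 progs [(386547056640, 42949672960), (192414613504, 27487830016), (3487513444352, 120259084288)] :=
  covD_split 2 (by decide +kernel) c3_m2_t20 c3_m2_t37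
theorem c3_m2_t44 : CovD 0 progs [(450971566080, 21474836480), (188978634752, 3435978752), (3517578215424, 30064771072)] :=
  covD_split 0 (by decide +kernel) c3_m2_t42 c3_m2_t43
theorem c3_m2_t45 : CovD 0 progs [(450971566080, 21474836480), (185542656000, 6871957504), (3517578215424, 30064771072)] :=
  covD_split 1 (by decide +kernel) c3_m2_t41 c3_m2_t44
theorem c3_m2_t47 : CovD 0 progs [(450971566080, 21474836480), (185542656000, 6871957504), (3547642986496, 60129542144)] :=
  covD_split 2 (by decide +kernel) c3_m2_t45 c3_m2_t46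
theorem c3_m2_t48 : CovD 0 progs [(450971566080, 21474836480), (185542656000, 6871957504), (3487513444352, 120259084288)] :=
  covD_split 2 (by decide +kernel) c3_m2_t40 c3_m2_t47
theorem c3_m2_t49 : CovD 0 progs [(450971566080, 21474836480), (178670698496, 13743915008), (3487513444352, 120259084288)] :=
  covD_split 1 (by decide +kernel) c3_m2_t39 c3_m2_t48
theorem c3_m2_t52 : CovD 0 progs [(434865438720, 5368709120), (199286571008, 6871957504), (3487513444352, 120259084288)] :=
  covD_split 0 (by decide +kernel) c3_m2_t50 c3_m2_t51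
theorem c3_m2_t54 : CovD 0 progs [(440234147840, 10737418240), (199286571008, 6871957504), (3487513444352, 120259084288)] :=
  covD_split 0 (by decide +kernel) c3_m2_t52 c3_m2_t53
theorem c3_m2_t56 : CovD 0 progs [(440234147840, 10737418240), (206158528512, 13743915008), (3487513444352, 120259084288)] :=
  covD_split 1 (by decide +kernel) c3_m2_t54 c3_m2_t55
theorem c3_m2_t58 : CovD 0 progs [(450971566080, 21474836480), (206158528512, 13743915008), (3487513444352, 120259084288)] :=
  covD_split 0 (by decide +kernel) c3_m2_t56 c3_m2_t57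
theorem c3_m2_t59 : CovD 0 progs [(450971566080, 21474836480), (192414613504, 27487830016), (3487513444352, 120259084288)] :=
  covD_split 1 (by decide +kernel) c3_m2_t49 c3_m2_t58
theorem c3_m2_t62 : CovD 0 progs [(493921239040, 21474836480), (171798740992, 6871957504), (3487513444352, 120259084288)] :=
  covD_split 0 (by decide +kernel) c3_m2_t60 c3_m2_t61
theorem c3_m2_t64 : CovD 0 progs [(493921239040, 21474836480), (178670698496, 13743915008), (3487513444352, 120259084288)] :=
  covD_split 1 (by decide +kernel) c3_m2_t62 c3_m2_t63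
theorem c3_m2_t66 : CovD 0 progs [(493921239040, 21474836480), (192414613504, 27487830016), (3487513444352, 120259084288)] :=
  covD_split 1 (by decide +kernel) c3_m2_t64 c3_m2_t65
theorem c3_m2_t67 : CovD 0 progs [(472446402560, 42949672960), (192414613504, 27487830016), (3487513444352, 120259084288)] :=
  covD_split 0 (by decide +kernel) c3_m2_t59 c3_m2_t66
theorem c3_m2_t68 : CovD 0 progs [(429496729600, 85899345920), (192414613504, 27487830016), (3487513444352, 120259084288)] :=
  covD_split 0 (by decide +kernel) c3_m2_t38 c3_m2_t67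
theorem c3_m2_t70 : CovD 0 progs [(515396075520, 171798691840), (192414613504, 27487830016), (3487513444352, 120259084288)] :=
  covD_split 0 (by decide +kernel) c3_m2_t68 c3_m2_t69
theorem c3_m2_t72 : CovD 0 progs [(515396075520, 171798691840), (192414613504, 27487830016), (3607772528640, 240518168576)] :=
  covD_split 2 (by decide +kernel) c3_m2_t70 c3_m2_t71
theorem c3_m2_t73 : CovD 0 progs [(343597383680, 343597383680), (192414613504, 27487830016), (3607772528640, 240518168576)] :=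
  covD_split 0 (by decide +kernel) c3_m2_t13 c3_m2_t72
theorem c3_m2 : CovD 0 progs [(343597383680, 343597383680), (164926783488, 54975660032), (3607772528640, 240518168576)] :=
  covD_split 1 (by decide +kernel) c3_m2_t12 c3_m2_t73
theorem c4_m0_t2 : CovD 0 progs [(858993459200, 171798691840), (54975594496, 54975594496), (962072674304, 962072674304)] :=
  covD_split 0 (by decide +kernel) c4_m0_t0 c4_m0_t1
theorem c4_m0_t6 : CovD 0 progs [(1288490188800, 85899345920), (54975594496, 54975594496), (962072674304, 962072674304)] :=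
  covD_split 0 (by decide +kernel) c4_m0_t4 c4_m0_t5
theorem c4_m0_t7 : CovD 0 progs [(1202590842880, 171798691840), (54975594496, 54975594496), (962072674304, 962072674304)] :=
  covD_split 0 (by decide +kernel) c4_m0_t3 c4_m0_t6
theorem c4_m0 : CovD 0 progs [(1030792151040, 343597383680), (54975594496, 54975594496), (962072674304, 962072674304)] :=
  covD_split 0 (by decide +kernel) c4_m0_t2 c4_m0_t7

end Pool.Agent.helper31.EQB.Cert.LB0
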