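import Pool.Agent.helper31.EQB.Cert.LB0P

/-!
Generated certificates.
-/

namespace Pool.Agent.helper31.EQB.Cert.LB0

open Pool.Agent.helper31.IA (Z Op)
open Pool.Agent.helper31.IC

mutual
theorem c5_m0_t0 : CovD 0 progs [(1030792151040, 343597383680), (27487797248, 27487797248), (2405181685760, 481036337152)] :=
  Pool.Agent.helper14.QF.covD_F chks_eq (.n 0 (.n 0 (.l 0) (.l 0)) (.n 0 (.l 1) (.n 0 (.l 1) (.l 1))))
    [(1030792151040, 343597383680), (27487797248, 27487797248), (2405181685760, 481036337152)] rfl (by decide +kernel)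
theorem c5_m0_t1 : CovD 0 progs [(1030792151040, 343597383680), (27487797248, 27487797248), (3126736191488, 240518168576)] :=
  Pool.Agent.helper14.QF.covD_F chks_eq (.n 0 (.l 1) (.n 0 (.l 1) (.n 0 (.l 1) (.l 1))))
    [(1030792151040, 343597383680), (27487797248, 27487797248), (3126736191488, 240518168576)] rfl (by decide +kernel)
end
mutual
theorem c5_m0_t2 : CovD 0 progs [(858993459200, 171798691840), (27487797248, 27487797248), (3487513444352, 120259084288)] :=
  Pool.Agent.helper14.QF.covD_F chks_eq (.n 2 (.l 0) (.n 2 (.n 2 (.n 1 (.n 0 (.l 0) (.l 0)) (.l 1)) (.n 2 (.n 2 (.n 2 (.n 1 (.n 1 (.n 0 (.l 0) (.l 0)) (.l 0)) (.l 1)) (.n 1 (.n 1 (.n 1 (.l 5) (.l 0)) (.l 0)) (.l 1))) (.n 1 (.n 1 (.l 5) (.n 0 (.l 5) (.n 1 (.l 5) (.l 1)))) (.n 0 (.l 1) (.l 1)))) (.n 1 (.l 5) (.l 5)))) (.l 5)))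
    [(858993459200, 171798691840), (27487797248, 27487797248), (3487513444352, 120259084288)] rfl (by decide +kernel)
theorem c5_m0_t3 : CovD 0 progs [(1202590842880, 171798691840), (27487797248, 27487797248), (3427383902208, 60129542144)] :=
  Pool.Agent.helper14.QF.covD_F chks_eq (.n 0 (.l 1) (.l 1))
    [(1202590842880, 171798691840), (27487797248, 27487797248), (3427383902208, 60129542144)] rfl (by decide +kernel)
end
mutual
theorem c5_m0_t4 : CovD 0 progs [(1116691496960, 85899345920), (27487797248, 27487797248), (3517578215424, 30064771072)] :=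
  Pool.Agent.helper14.QF.covD_F chks_eq (.n 1 (.n 2 (.l 1) (.n 1 (.n 1 (.n 2 (.n 2 (.n 2 (.l 0) (.n 1 (.l 5) (.l 1))) (.l 5)) (.l 5)) (.n 2 (.n 2 (.l 1) (.l 5)) (.l 5))) (.n 2 (.n 2 (.l 1) (.n 2 (.l 1) (.l 5))) (.l 5)))) (.n 2 (.l 1) (.n 2 (.n 0 (.l 1) (.l 1)) (.l 5))))
    [(1116691496960, 85899345920), (27487797248, 27487797248), (3517578215424, 30064771072)] rfl (by decide +kernel)
theorem c5_m0_t5 : CovD 0 progs [(1288490188800, 85899345920), (6871949312, 6871949312), (3517578215424, 30064771072)] :=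
  Pool.Agent.helper14.QF.covD_F chks_eq (.n 2 (.l 1) (.n 1 (.n 2 (.n 2 (.n 2 (.l 1) (.n 2 (.n 1 (.l 5) (.l 1)) (.l 5))) (.l 5)) (.l 5)) (.n 2 (.n 2 (.n 0 (.l 1) (.n 0 (.l 1) (.l 1))) (.n 1 (.l 5) (.n 0 (.l 5) (.n 0 (.n 0 (.n 1 (.l 5) (.l 5)) (.l 4)) (.l 4))))) (.l 5))))
    [(1288490188800, 85899345920), (6871949312, 6871949312), (3517578215424, 30064771072)] rfl (by decide +kernel)
end
mutual
theorem c5_m0_t6 : CovD 0 progs [(1288490188800, 85899345920), (20615847936, 6871949312), (3517578215424, 30064771072)] :=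
  Pool.Agent.helper14.QF.covD_F chks_eq (.n 0 (.n 2 (.l 1) (.n 2 (.n 2 (.l 1) (.n 2 (.n 0 (.l 1) (.l 1)) (.l 5))) (.l 5))) (.n 0 (.n 2 (.l 1) (.n 2 (.n 2 (.l 1) (.n 2 (.n 0 (.l 1) (.n 0 (.l 1) (.l 4))) (.l 5))) (.l 5))) (.l 4)))
    [(1288490188800, 85899345920), (20615847936, 6871949312), (3517578215424, 30064771072)] rfl (by decide +kernel)
theorem c5_m0_t8 : CovD 0 progs [(1245540515840, 42949672960), (41231695872, 13743898624), (3517578215424, 30064771072)] :=
  Pool.Agent.helper14.QF.covD_F chks_eq (.n 2 (.l 1) (.n 1 (.n 2 (.l 1) (.l 5)) (.n 2 (.n 2 (.l 1) (.n 1 (.l 1) (.l 5))) (.l 5))))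
    [(1245540515840, 42949672960), (41231695872, 13743898624), (3517578215424, 30064771072)] rfl (by decide +kernel)
end
mutual
theorem c5_m0_t9 : CovD 0 progs [(1331439861760, 42949672960), (41231695872, 13743898624), (3517578215424, 30064771072)] :=
  Pool.Agent.helper14.QF.covD_F chks_eq (.n 0 (.n 2 (.l 1) (.n 1 (.n 2 (.n 2 (.l 1) (.n 2 (.l 1) (.l 5))) (.l 5)) (.n 2 (.n 1 (.n 2 (.l 1) (.l 5)) (.n 2 (.n 2 (.l 1) (.l 5)) (.l 5))) (.l 5)))) (.n 0 (.n 1 (.l 4) (.n 2 (.l 1) (.n 2 (.n 2 (.n 1 (.l 1) (.n 1 (.n 2 (.l 1) (.l 5)) (.l 5))) (.l 5)) (.l 5)))) (.l 4)))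
    [(1331439861760, 42949672960), (41231695872, 13743898624), (3517578215424, 30064771072)] rfl (by decide +kernel)
theorem c5_m0_t13 : CovD 0 progs [(1202590842880, 171798691840), (27487797248, 27487797248), (3577707757568, 30064771072)] :=
  Pool.Agent.helper14.QF.covD_F chks_eq (.l 5)
    [(1202590842880, 171798691840), (27487797248, 27487797248), (3577707757568, 30064771072)] rfl (by decide +kernel)
end
mutual
theorem c5_m0_t17 : CovD 0 progs [(1030792151040, 343597383680), (27487797248, 27487797248), (3728031612928, 120259084288)] :=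
  Pool.Agent.helper14.QF.covD_F chks_eq (.l 5)
    [(1030792151040, 343597383680), (27487797248, 27487797248), (3728031612928, 120259084288)] rfl (by decide +kernel)
theorem c5_m0_t21 : CovD 0 progs [(1030792151040, 343597383680), (61847543808, 6871949312), (2405181685760, 481036337152)] :=
  Pool.Agent.helper14.QF.covD_F chks_eq (.n 0 (.n 0 (.l 0) (.l 1)) (.n 0 (.l 1) (.n 0 (.l 1) (.n 0 (.n 1 (.l 1) (.n 1 (.l 1) (.n 1 (.n 1 (.l 1) (.n 0 (.l 1) (.l 3))) (.l 3)))) (.n 0 (.n 1 (.l 1) (.n 1 (.n 0 (.l 1) (.n 0 (.l 1) (.n 1 (.l 1) (.l 3)))) (.l 3))) (.n 1 (.l 1) (.n 1 (.n 1 (.l 4) (.l 3)) (.l 3))))))))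
    [(1030792151040, 343597383680), (61847543808, 6871949312), (2405181685760, 481036337152)] rfl (by decide +kernel)
end
mutual
theorem c5_m0_t22 : CovD 0 progs [(1030792151040, 343597383680), (58411569152, 3435974656), (3126736191488, 240518168576)] :=
  Pool.Agent.helper14.QF.covD_F chks_eq (.n 0 (.l 0) (.n 0 (.l 1) (.l 1)))
    [(1030792151040, 343597383680), (58411569152, 3435974656), (3126736191488, 240518168576)] rfl (by decide +kernel)
theorem c5_m0_t23 : CovD 0 progs [(858993459200, 171798691840), (58411569152, 3435974656), (3487513444352, 120259084288)] :=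
  Pool.Agent.helper14.QF.covD_F chks_eq (.n 2 (.l 0) (.n 2 (.n 0 (.n 0 (.l 1) (.l 1)) (.l 1)) (.l 5)))
    [(858993459200, 171798691840), (58411569152, 3435974656), (3487513444352, 120259084288)] rfl (by decide +kernel)
end
mutual
theorem c5_m0_t24 : CovD 0 progs [(1202590842880, 171798691840), (58411569152, 3435974656), (3427383902208, 60129542144)] :=
  Pool.Agent.helper14.QF.covD_F chks_eq (.n 0 (.l 1) (.l 1))
    [(1202590842880, 171798691840), (58411569152, 3435974656), (3427383902208, 60129542144)] rfl (by decide +kernel)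
theorem c5_m0_t25 : CovD 0 progs [(1202590842880, 171798691840), (58411569152, 3435974656), (3547642986496, 60129542144)] :=
  Pool.Agent.helper14.QF.covD_F chks_eq (.n 2 (.n 2 (.n 0 (.l 1) (.n 0 (.l 1) (.n 2 (.l 1) (.n 0 (.n 0 (.l 1) (.n 1 (.l 1) (.n 2 (.l 1) (.n 2 (.l 1) (.l 5))))) (.n 0 (.n 2 (.l 1) (.n 1 (.n 2 (.l 1) (.l 5)) (.n 0 (.l 5) (.l 5)))) (.l 4)))))) (.n 2 (.n 0 (.l 1) (.n 2 (.n 0 (.n 0 (.l 1) (.n 0 (.l 1) (.l 1))) (.n 0 (.l 5) (.l 5))) (.l 5))) (.n 0 (.l 5) (.l 5)))) (.l 5))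
    [(1202590842880, 171798691840), (58411569152, 3435974656), (3547642986496, 60129542144)] rfl (by decide +kernel)
end
mutual
theorem c5_m0_t28 : CovD 0 progs [(1030792151040, 343597383680), (58411569152, 3435974656), (3728031612928, 120259084288)] :=
  Pool.Agent.helper14.QF.covD_F chks_eq (.l 5)
    [(1030792151040, 343597383680), (58411569152, 3435974656), (3728031612928, 120259084288)] rfl (by decide +kernel)
theorem c5_m0_t31 : CovD 0 progs [(1030792151040, 343597383680), (62706537472, 858993664), (3126736191488, 240518168576)] :=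
  Pool.Agent.helper14.QF.covD_F chks_eq (.n 0 (.l 0) (.n 0 (.l 1) (.n 0 (.l 1) (.n 0 (.l 1) (.n 0 (.l 1) (.l 4))))))
    [(1030792151040, 343597383680), (62706537472, 858993664), (3126736191488, 240518168576)] rfl (by decide +kernel)
end
mutual
theorem c5_m0_t32 : CovD 0 progs [(858993459200, 171798691840), (62706537472, 858993664), (3487513444352, 120259084288)] :=
  Pool.Agent.helper14.QF.covD_F chks_eq (.n 2 (.l 0) (.n 2 (.n 0 (.l 1) (.l 1)) (.l 5)))
    [(858993459200, 171798691840), (62706537472, 858993664), (3487513444352, 120259084288)] rfl (by decide +kernel)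
theorem c5_m0_t33 : CovD 0 progs [(1202590842880, 171798691840), (62706537472, 858993664), (3487513444352, 120259084288)] :=
  Pool.Agent.helper14.QF.covD_F chks_eq (.n 0 (.n 2 (.l 1) (.n 2 (.n 2 (.l 1) (.n 2 (.l 1) (.l 5))) (.l 5))) (.n 2 (.n 0 (.l 1) (.n 0 (.l 1) (.n 0 (.l 1) (.l 4)))) (.n 2 (.n 0 (.n 2 (.l 1) (.l 5)) (.n 2 (.n 0 (.n 0 (.l 1) (.n 2 (.l 1) (.n 2 (.l 1) (.l 5)))) (.n 0 (.n 2 (.l 1) (.n 2 (.n 0 (.l 1) (.n 2 (.l 1) (.l 5))) (.l 5))) (.l 4))) (.l 5))) (.l 5))))
    [(1202590842880, 171798691840), (62706537472, 858993664), (3487513444352, 120259084288)] rfl (by decide +kernel)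
end
mutual
theorem c5_m0_t35 : CovD 0 progs [(1030792151040, 343597383680), (62706537472, 858993664), (3728031612928, 120259084288)] :=
  Pool.Agent.helper14.QF.covD_F chks_eq (.l 5)
    [(1030792151040, 343597383680), (62706537472, 858993664), (3728031612928, 120259084288)] rfl (by decide +kernel)
theorem c5_m0_t38 : CovD 0 progs [(1030792151040, 343597383680), (64424524800, 858993664), (3126736191488, 240518168576)] :=
  Pool.Agent.helper14.QF.covD_F chks_eq (.n 0 (.l 0) (.n 0 (.l 1) (.n 1 (.n 0 (.l 1) (.n 0 (.l 1) (.n 0 (.l 1) (.l 3)))) (.n 0 (.l 1) (.n 0 (.l 1) (.l 3))))))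
    [(1030792151040, 343597383680), (64424524800, 858993664), (3126736191488, 240518168576)] rfl (by decide +kernel)
end
mutual
theorem c5_m0_t39 : CovD 0 progs [(858993459200, 171798691840), (64424524800, 858993664), (3487513444352, 120259084288)] :=
  Pool.Agent.helper14.QF.covD_F chks_eq (.n 2 (.l 0) (.n 2 (.n 0 (.l 1) (.l 1)) (.l 5)))
    [(858993459200, 171798691840), (64424524800, 858993664), (3487513444352, 120259084288)] rfl (by decide +kernel)
theorem c5_m0_t40 : CovD 0 progs [(1202590842880, 171798691840), (64424524800, 858993664), (3427383902208, 60129542144)] :=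
  Pool.Agent.helper14.QF.covD_F chks_eq (.n 0 (.l 1) (.n 0 (.l 1) (.n 0 (.l 1) (.n 0 (.n 0 (.l 1) (.n 0 (.n 1 (.l 1) (.l 3)) (.l 3))) (.l 3)))))
    [(1202590842880, 171798691840), (64424524800, 858993664), (3427383902208, 60129542144)] rfl (by decide +kernel)
end
mutual
theorem c5_m0_t41 : CovD 0 progs [(1202590842880, 171798691840), (64424524800, 858993664), (3547642986496, 60129542144)] :=
  Pool.Agent.helper14.QF.covD_F chks_eq (.n 2 (.n 0 (.n 2 (.l 1) (.n 2 (.l 1) (.l 5))) (.n 0 (.n 2 (.l 1) (.l 5)) (.n 0 (.n 2 (.n 2 (.l 1) (.n 2 (.l 1) (.l 5))) (.l 5)) (.n 0 (.n 1 (.n 2 (.n 0 (.n 2 (.l 1) (.n 2 (.l 1) (.l 5))) (.n 0 (.n 1 (.n 2 (.l 1) (.n 2 (.l 1) (.l 5))) (.l 3)) (.l 3))) (.l 5)) (.l 3)) (.l 3))))) (.l 5))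
    [(1202590842880, 171798691840), (64424524800, 858993664), (3547642986496, 60129542144)] rfl (by decide +kernel)
theorem c5_m0_t44 : CovD 0 progs [(1030792151040, 343597383680), (64424524800, 858993664), (3728031612928, 120259084288)] :=
  Pool.Agent.helper14.QF.covD_F chks_eq (.l 5)
    [(1030792151040, 343597383680), (64424524800, 858993664), (3728031612928, 120259084288)] rfl (by decide +kernel)
end
mutual
theorem c5_m0_t48 : CovD 0 progs [(1030792151040, 343597383680), (67001505792, 1717987328), (3126736191488, 240518168576)] :=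
  Pool.Agent.helper14.QF.covD_F chks_eq (.n 0 (.l 1) (.n 0 (.l 1) (.n 0 (.l 1) (.n 0 (.n 1 (.n 0 (.l 1) (.n 0 (.l 1) (.l 3))) (.l 3)) (.l 3)))))
    [(1030792151040, 343597383680), (67001505792, 1717987328), (3126736191488, 240518168576)] rfl (by decide +kernel)
theorem c5_m0_t49 : CovD 0 progs [(858993459200, 171798691840), (67001505792, 1717987328), (3487513444352, 120259084288)] :=
  Pool.Agent.helper14.QF.covD_F chks_eq (.n 2 (.l 1) (.n 2 (.n 0 (.l 1) (.l 1)) (.l 5)))
    [(858993459200, 171798691840), (67001505792, 1717987328), (3487513444352, 120259084288)] rfl (by decide +kernel)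
end
mutual
theorem c5_m0_t50 : CovD 0 progs [(1202590842880, 171798691840), (67001505792, 1717987328), (3427383902208, 60129542144)] :=
  Pool.Agent.helper14.QF.covD_F chks_eq (.n 0 (.l 1) (.n 0 (.l 1) (.n 0 (.n 1 (.n 0 (.l 1) (.n 0 (.l 1) (.l 3))) (.l 3)) (.l 3))))
    [(1202590842880, 171798691840), (67001505792, 1717987328), (3427383902208, 60129542144)] rfl (by decide +kernel)
theorem c5_m0_t51 : CovD 0 progs [(1202590842880, 171798691840), (67001505792, 1717987328), (3547642986496, 60129542144)] :=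
  Pool.Agent.helper14.QF.covD_F chks_eq (.n 2 (.n 0 (.n 2 (.l 1) (.n 2 (.n 0 (.l 1) (.l 1)) (.l 5))) (.n 0 (.n 2 (.n 0 (.l 1) (.n 0 (.l 1) (.n 0 (.l 1) (.n 1 (.l 1) (.l 3))))) (.l 5)) (.n 0 (.n 0 (.n 1 (.n 2 (.n 2 (.l 1) (.n 2 (.l 1) (.l 5))) (.l 5)) (.l 3)) (.n 0 (.n 0 (.l 3) (.l 3)) (.l 3))) (.l 3)))) (.l 5))
    [(1202590842880, 171798691840), (67001505792, 1717987328), (3547642986496, 60129542144)] rfl (by decide +kernel)
end
mutual
theorem c5_m0_t54 : CovD 0 progs [(1030792151040, 343597383680), (67001505792, 1717987328), (3728031612928, 120259084288)] :=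
  Pool.Agent.helper14.QF.covD_F chks_eq (.l 5)
    [(1030792151040, 343597383680), (67001505792, 1717987328), (3728031612928, 120259084288)] rfl (by decide +kernel)
theorem c5_m0_t60 : CovD 0 progs [(1030792151040, 343597383680), (72155467776, 3435974656), (2405181685760, 481036337152)] :=
  Pool.Agent.helper14.QF.covD_F chks_eq (.n 0 (.n 0 (.l 0) (.l 1)) (.n 0 (.l 1) (.n 0 (.n 1 (.n 0 (.l 1) (.l 3)) (.l 3)) (.l 3))))
    [(1030792151040, 343597383680), (72155467776, 3435974656), (2405181685760, 481036337152)] rfl (by decide +kernel)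
end
mutual
theorem c5_m0_t61 : CovD 0 progs [(1030792151040, 343597383680), (72155467776, 3435974656), (3126736191488, 240518168576)] :=
  Pool.Agent.helper14.QF.covD_F chks_eq (.n 0 (.l 1) (.n 0 (.l 1) (.n 0 (.n 1 (.n 0 (.l 1) (.l 3)) (.l 3)) (.l 3))))
    [(1030792151040, 343597383680), (72155467776, 3435974656), (3126736191488, 240518168576)] rfl (by decide +kernel)
theorem c5_m0_t62 : CovD 0 progs [(1030792151040, 343597383680), (72155467776, 3435974656), (3607772528640, 240518168576)] :=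
  Pool.Agent.helper14.QF.covD_F chks_eq (.n 2 (.n 0 (.n 2 (.l 1) (.n 2 (.n 0 (.l 1) (.l 1)) (.l 5))) (.n 0 (.n 2 (.l 1) (.n 2 (.n 2 (.l 1) (.n 2 (.n 0 (.l 1) (.n 0 (.l 1) (.l 5))) (.l 5))) (.l 5))) (.n 0 (.n 1 (.n 0 (.n 2 (.l 1) (.n 2 (.n 2 (.l 1) (.l 5)) (.l 5))) (.l 3)) (.l 3)) (.l 3)))) (.l 5))
    [(1030792151040, 343597383680), (72155467776, 3435974656), (3607772528640, 240518168576)] rfl (by decide +kernel)
end
mutual
theorem c5_m0_t65 : CovD 0 progs [(858993459200, 171798691840), (79027417088, 3435974656), (2886218022912, 962072674304)] :=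
  Pool.Agent.helper14.QF.covD_F chks_eq (.n 2 (.n 0 (.l 1) (.l 1)) (.n 2 (.l 1) (.n 2 (.n 2 (.l 1) (.n 2 (.n 0 (.l 1) (.n 0 (.l 1) (.n 2 (.l 1) (.n 2 (.l 1) (.l 5))))) (.l 5))) (.l 5))))
    [(858993459200, 171798691840), (79027417088, 3435974656), (2886218022912, 962072674304)] rfl (by decide +kernel)
theorem c5_m0_t66 : CovD 0 progs [(1202590842880, 171798691840), (79027417088, 3435974656), (2886218022912, 962072674304)] :=
  Pool.Agent.helper14.QF.covD_F chks_eq (.n 0 (.n 0 (.n 2 (.l 1) (.n 2 (.l 1) (.n 2 (.n 2 (.l 1) (.n 2 (.n 2 (.l 1) (.n 2 (.l 1) (.l 5))) (.l 5))) (.l 5)))) (.n 1 (.n 0 (.n 0 (.n 1 (.n 2 (.l 1) (.n 2 (.l 1) (.n 2 (.n 2 (.l 1) (.n 2 (.n 2 (.l 1) (.l 5)) (.l 5))) (.l 5)))) (.l 3)) (.l 3)) (.l 3)) (.l 3))) (.l 3))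
    [(1202590842880, 171798691840), (79027417088, 3435974656), (2886218022912, 962072674304)] rfl (by decide +kernel)
end
mutual
theorem c5_m0_t70 : CovD 0 progs [(858993459200, 171798691840), (89335341056, 6871949312), (2405181685760, 481036337152)] :=
  Pool.Agent.helper14.QF.covD_F chks_eq (.n 0 (.l 1) (.n 0 (.l 1) (.n 0 (.l 1) (.n 1 (.l 1) (.l 3)))))
    [(858993459200, 171798691840), (89335341056, 6871949312), (2405181685760, 481036337152)] rfl (by decide +kernel)
theorem c5_m0_t71 : CovD 0 progs [(858993459200, 171798691840), (89335341056, 6871949312), (3367254360064, 481036337152)] :=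
  Pool.Agent.helper14.QF.covD_F chks_eq (.n 2 (.n 0 (.l 1) (.n 0 (.l 1) (.n 0 (.l 1) (.n 1 (.l 1) (.l 3))))) (.n 2 (.n 2 (.n 0 (.l 1) (.n 0 (.l 1) (.n 0 (.l 1) (.n 1 (.l 1) (.l 3))))) (.n 2 (.n 0 (.l 1) (.n 0 (.n 2 (.l 1) (.n 2 (.l 1) (.l 5))) (.n 0 (.n 2 (.l 1) (.n 2 (.l 1) (.l 5))) (.n 1 (.n 2 (.l 1) (.n 2 (.l 1) (.l 5))) (.l 3))))) (.l 5))) (.l 5)))
    [(858993459200, 171798691840), (89335341056, 6871949312), (3367254360064, 481036337152)] rfl (by decide +kernel)
end
mutual
theorem c5_m0_t73 : CovD 0 progs [(1202590842880, 171798691840), (89335341056, 6871949312), (2886218022912, 962072674304)] :=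
  Pool.Agent.helper14.QF.covD_F chks_eq (.n 0 (.n 0 (.n 0 (.n 0 (.n 0 (.n 1 (.n 1 (.n 1 (.n 1 (.n 2 (.l 1) (.n 2 (.l 1) (.n 2 (.n 2 (.l 1) (.n 2 (.n 2 (.l 1) (.l 5)) (.l 5))) (.l 5)))) (.l 3)) (.l 3)) (.l 3)) (.l 3)) (.l 3)) (.l 3)) (.l 3)) (.l 3)) (.l 3))
    [(1202590842880, 171798691840), (89335341056, 6871949312), (2886218022912, 962072674304)] rfl (by decide +kernel)
theorem c5_m0_t75 : CovD 0 progs [(1030792151040, 343597383680), (103079239680, 6871949312), (2886218022912, 962072674304)] :=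
  Pool.Agent.helper14.QF.covD_F chks_eq (.n 0 (.n 0 (.n 2 (.n 0 (.l 1) (.l 1)) (.n 2 (.n 0 (.l 1) (.l 1)) (.n 2 (.n 2 (.l 1) (.n 2 (.n 0 (.l 1) (.n 2 (.l 1) (.n 2 (.l 1) (.l 5)))) (.l 5))) (.l 5)))) (.n 0 (.n 0 (.n 1 (.n 1 (.n 2 (.l 1) (.n 2 (.l 1) (.n 2 (.n 2 (.l 1) (.n 2 (.l 1) (.l 5))) (.l 5)))) (.l 3)) (.l 3)) (.l 3)) (.l 3))) (.l 3))
    [(1030792151040, 343597383680), (103079239680, 6871949312), (2886218022912, 962072674304)] rfl (by decide +kernel)
end
mutual
theorem c6_m0 : CovD 0 progs [(1030792151040, 343597383680), (164926783488, 54975660032), (962072674304, 962072674304)] :=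
  Pool.Agent.helper14.QF.covD_F chks_eq (.n 0 (.n 1 (.n 0 (.n 0 (.n 1 (.n 1 (.n 2 (.n 2 (.l 1) (.l 1)) (.n 2 (.l 1) (.l 1))) (.n 0 (.n 1 (.n 2 (.n 2 (.l 1) (.l 1)) (.n 2 (.l 1) (.l 1))) (.l 3)) (.l 3))) (.l 3)) (.n 0 (.n 1 (.n 1 (.n 1 (.n 2 (.l 1) (.l 1)) (.l 3)) (.l 3)) (.l 3)) (.l 3))) (.l 3)) (.l 3)) (.l 3))
    [(1030792151040, 343597383680), (164926783488, 54975660032), (962072674304, 962072674304)] rfl (by decide +kernel)
theorem c7_m0_t0 : CovD 0 progs [(708669603840, 21474836480), (137438953472, 27487830016), (2886218022912, 962072674304)] :=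
  Pool.Agent.helper14.QF.covD_F chks_eq (.n 1 (.n 1 (.n 2 (.l 1) (.n 2 (.l 1) (.n 2 (.n 2 (.l 1) (.n 2 (.l 1) (.l 5))) (.l 5)))) (.n 0 (.n 1 (.n 1 (.n 2 (.l 1) (.n 2 (.l 1) (.n 2 (.n 2 (.l 1) (.n 2 (.l 1) (.l 5))) (.l 5)))) (.l 3)) (.l 3)) (.l 3))) (.l 3))
    [(708669603840, 21474836480), (137438953472, 27487830016), (2886218022912, 962072674304)] rfl (by decide +kernel)
end
mutual
theorem c7_m0_t1 : CovD 0 progs [(751619276800, 21474836480), (137438953472, 27487830016), (2886218022912, 962072674304)] :=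
  Pool.Agent.helper14.QF.covD_F chks_eq (.n 0 (.n 1 (.n 1 (.n 2 (.l 1) (.n 2 (.l 1) (.n 2 (.n 2 (.l 1) (.n 2 (.l 1) (.l 5))) (.l 5)))) (.l 3)) (.l 3)) (.n 1 (.n 1 (.n 1 (.n 2 (.l 1) (.n 2 (.l 1) (.n 2 (.n 2 (.l 1) (.n 2 (.l 1) (.l 5))) (.l 5)))) (.l 3)) (.l 3)) (.l 3)))
    [(751619276800, 21474836480), (137438953472, 27487830016), (2886218022912, 962072674304)] rfl (by decide +kernel)
theorem c7_m0_t3 : CovD 0 progs [(816043786240, 42949672960), (137438953472, 27487830016), (2886218022912, 962072674304)] :=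
  Pool.Agent.helper14.QF.covD_F chks_eq (.n 0 (.n 0 (.n 1 (.n 1 (.n 1 (.n 1 (.n 2 (.l 1) (.n 2 (.l 1) (.n 2 (.n 2 (.l 1) (.n 2 (.l 1) (.l 5))) (.l 5)))) (.l 3)) (.l 3)) (.l 3)) (.l 3)) (.l 3)) (.l 3))
    [(816043786240, 42949672960), (137438953472, 27487830016), (2886218022912, 962072674304)] rfl (by decide +kernel)
end
mutual
theorem c7_m0_t5 : CovD 0 progs [(944892805120, 85899345920), (137438953472, 27487830016), (2886218022912, 962072674304)] :=
  Pool.Agent.helper14.QF.covD_F chks_eq (.l 3)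
    [(944892805120, 85899345920), (137438953472, 27487830016), (2886218022912, 962072674304)] rfl (by decide +kernel)
theorem c7_m0_t7 : CovD 0 progs [(858993459200, 171798691840), (192414613504, 27487830016), (2886218022912, 962072674304)] :=
  Pool.Agent.helper14.QF.covD_F chks_eq (.l 3)
    [(858993459200, 171798691840), (192414613504, 27487830016), (2886218022912, 962072674304)] rfl (by decide +kernel)
theorem c7_m0_t9 : CovD 0 progs [(1202590842880, 171798691840), (164926783488, 54975660032), (2886218022912, 962072674304)] :=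
  Pool.Agent.helper14.QF.covD_F chks_eq (.l 3)
    [(1202590842880, 171798691840), (164926783488, 54975660032), (2886218022912, 962072674304)] rfl (by decide +kernel)
end

theorem c5_m0_t7 : CovD 0 progs [(1288490188800, 85899345920), (13743898624, 13743898624), (3517578215424, 30064771072)] :=
  covD_split 1 (by decide +kernel) c5_m0_t5 c5_m0_t6
theorem c5_m0_t10 : CovD 0 progs [(1288490188800, 85899345920), (41231695872, 13743898624), (3517578215424, 30064771072)] :=
  covD_split 0 (by decide +kernel) c5_m0_t8 c5_m0_t9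
theorem c5_m0_t11 : CovD 0 progs [(1288490188800, 85899345920), (27487797248, 27487797248), (3517578215424, 30064771072)] :=
  covD_split 1 (by decide +kernel) c5_m0_t7 c5_m0_t10
theorem c5_m0_t12 : CovD 0 progs [(1202590842880, 171798691840), (27487797248, 27487797248), (3517578215424, 30064771072)] :=
  covD_split 0 (by decide +kernel) c5_m0_t4 c5_m0_t11
theorem c5_m0_t14 : CovD 0 progs [(1202590842880, 171798691840), (27487797248, 27487797248), (3547642986496, 60129542144)] :=
  covD_split 2 (by decide +kernel) c5_m0_t12 c5_m0_t13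
theorem c5_m0_t15 : CovD 0 progs [(1202590842880, 171798691840), (27487797248, 27487797248), (3487513444352, 120259084288)] :=
  covD_split 2 (by decide +kernel) c5_m0_t3 c5_m0_t14
theorem c5_m0_t16 : CovD 0 progs [(1030792151040, 343597383680), (27487797248, 27487797248), (3487513444352, 120259084288)] :=
  covD_split 0 (by decide +kernel) c5_m0_t2 c5_m0_t15
theorem c5_m0_t18 : CovD 0 progs [(1030792151040, 343597383680), (27487797248, 27487797248), (3607772528640, 240518168576)] :=
  covD_split 2 (by decide +kernel) c5_m0_t16 c5_m0_t17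
theorem c5_m0_t19 : CovD 0 progs [(1030792151040, 343597383680), (27487797248, 27487797248), (3367254360064, 481036337152)] :=
  covD_split 2 (by decide +kernel) c5_m0_t1 c5_m0_t18
theorem c5_m0_t20 : CovD 0 progs [(1030792151040, 343597383680), (27487797248, 27487797248), (2886218022912, 962072674304)] :=
  covD_split 2 (by decide +kernel) c5_m0_t0 c5_m0_t19
theorem c5_m0_t26 : CovD 0 progs [(1202590842880, 171798691840), (58411569152, 3435974656), (3487513444352, 120259084288)] :=
  covD_split 2 (by decide +kernel) c5_m0_t24 c5_m0_t25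
theorem c5_m0_t27 : CovD 0 progs [(1030792151040, 343597383680), (58411569152, 3435974656), (3487513444352, 120259084288)] :=
  covD_split 0 (by decide +kernel) c5_m0_t23 c5_m0_t26
theorem c5_m0_t29 : CovD 0 progs [(1030792151040, 343597383680), (58411569152, 3435974656), (3607772528640, 240518168576)] :=
  covD_split 2 (by decide +kernel) c5_m0_t27 c5_m0_t28
theorem c5_m0_t30 : CovD 0 progs [(1030792151040, 343597383680), (58411569152, 3435974656), (3367254360064, 481036337152)] :=
  covD_split 2 (by decide +kernel) c5_m0_t22 c5_m0_t29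
theorem c5_m0_t34 : CovD 0 progs [(1030792151040, 343597383680), (62706537472, 858993664), (3487513444352, 120259084288)] :=
  covD_split 0 (by decide +kernel) c5_m0_t32 c5_m0_t33
theorem c5_m0_t36 : CovD 0 progs [(1030792151040, 343597383680), (62706537472, 858993664), (3607772528640, 240518168576)] :=
  covD_split 2 (by decide +kernel) c5_m0_t34 c5_m0_t35
theorem c5_m0_t37 : CovD 0 progs [(1030792151040, 343597383680), (62706537472, 858993664), (3367254360064, 481036337152)] :=
  covD_split 2 (by decide +kernel) c5_m0_t31 c5_m0_t36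
theorem c5_m0_t42 : CovD 0 progs [(1202590842880, 171798691840), (64424524800, 858993664), (3487513444352, 120259084288)] :=
  covD_split 2 (by decide +kernel) c5_m0_t40 c5_m0_t41
theorem c5_m0_t43 : CovD 0 progs [(1030792151040, 343597383680), (64424524800, 858993664), (3487513444352, 120259084288)] :=
  covD_split 0 (by decide +kernel) c5_m0_t39 c5_m0_t42
theorem c5_m0_t45 : CovD 0 progs [(1030792151040, 343597383680), (64424524800, 858993664), (3607772528640, 240518168576)] :=
  covD_split 2 (by decide +kernel) c5_m0_t43 c5_m0_t44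
theorem c5_m0_t46 : CovD 0 progs [(1030792151040, 343597383680), (64424524800, 858993664), (3367254360064, 481036337152)] :=
  covD_split 2 (by decide +kernel) c5_m0_t38 c5_m0_t45
theorem c5_m0_t47 : CovD 0 progs [(1030792151040, 343597383680), (63565531136, 1717987328), (3367254360064, 481036337152)] :=
  covD_split 1 (by decide +kernel) c5_m0_t37 c5_m0_t46
theorem c5_m0_t52 : CovD 0 progs [(1202590842880, 171798691840), (67001505792, 1717987328), (3487513444352, 120259084288)] :=
  covD_split 2 (by decide +kernel) c5_m0_t50 c5_m0_t51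
theorem c5_m0_t53 : CovD 0 progs [(1030792151040, 343597383680), (67001505792, 1717987328), (3487513444352, 120259084288)] :=
  covD_split 0 (by decide +kernel) c5_m0_t49 c5_m0_t52
theorem c5_m0_t55 : CovD 0 progs [(1030792151040, 343597383680), (67001505792, 1717987328), (3607772528640, 240518168576)] :=
  covD_split 2 (by decide +kernel) c5_m0_t53 c5_m0_t54
theorem c5_m0_t56 : CovD 0 progs [(1030792151040, 343597383680), (67001505792, 1717987328), (3367254360064, 481036337152)] :=
  covD_split 2 (by decide +kernel) c5_m0_t48 c5_m0_t55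
theorem c5_m0_t57 : CovD 0 progs [(1030792151040, 343597383680), (65283518464, 3435974656), (3367254360064, 481036337152)] :=
  covD_split 1 (by decide +kernel) c5_m0_t47 c5_m0_t56
theorem c5_m0_t58 : CovD 0 progs [(1030792151040, 343597383680), (61847543808, 6871949312), (3367254360064, 481036337152)] :=
  covD_split 1 (by decide +kernel) c5_m0_t30 c5_m0_t57
theorem c5_m0_t59 : CovD 0 progs [(1030792151040, 343597383680), (61847543808, 6871949312), (2886218022912, 962072674304)] :=
  covD_split 2 (by decide +kernel) c5_m0_t21 c5_m0_t58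
theorem c5_m0_t63 : CovD 0 progs [(1030792151040, 343597383680), (72155467776, 3435974656), (3367254360064, 481036337152)] :=
  covD_split 2 (by decide +kernel) c5_m0_t61 c5_m0_t62
theorem c5_m0_t64 : CovD 0 progs [(1030792151040, 343597383680), (72155467776, 3435974656), (2886218022912, 962072674304)] :=
  covD_split 2 (by decide +kernel) c5_m0_t60 c5_m0_t63
theorem c5_m0_t67 : CovD 0 progs [(1030792151040, 343597383680), (79027417088, 3435974656), (2886218022912, 962072674304)] :=
  covD_split 0 (by decide +kernel) c5_m0_t65 c5_m0_t66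
theorem c5_m0_t68 : CovD 0 progs [(1030792151040, 343597383680), (75591442432, 6871949312), (2886218022912, 962072674304)] :=
  covD_split 1 (by decide +kernel) c5_m0_t64 c5_m0_t67
theorem c5_m0_t69 : CovD 0 progs [(1030792151040, 343597383680), (68719493120, 13743898624), (2886218022912, 962072674304)] :=
  covD_split 1 (by decide +kernel) c5_m0_t59 c5_m0_t68
theorem c5_m0_t72 : CovD 0 progs [(858993459200, 171798691840), (89335341056, 6871949312), (2886218022912, 962072674304)] :=
  covD_split 2 (by decide +kernel) c5_m0_t70 c5_m0_t71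
theorem c5_m0_t74 : CovD 0 progs [(1030792151040, 343597383680), (89335341056, 6871949312), (2886218022912, 962072674304)] :=
  covD_split 0 (by decide +kernel) c5_m0_t72 c5_m0_t73
theorem c5_m0_t76 : CovD 0 progs [(1030792151040, 343597383680), (96207290368, 13743898624), (2886218022912, 962072674304)] :=
  covD_split 1 (by decide +kernel) c5_m0_t74 c5_m0_t75
theorem c5_m0_t77 : CovD 0 progs [(1030792151040, 343597383680), (82463391744, 27487797248), (2886218022912, 962072674304)] :=
  covD_split 1 (by decide +kernel) c5_m0_t69 c5_m0_t76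
theorem c5_m0 : CovD 0 progs [(1030792151040, 343597383680), (54975594496, 54975594496), (2886218022912, 962072674304)] :=
  covD_split 1 (by decide +kernel) c5_m0_t20 c5_m0_t77
theorem c7_m0_t2 : CovD 0 progs [(730144440320, 42949672960), (137438953472, 27487830016), (2886218022912, 962072674304)] :=
  covD_split 0 (by decide +kernel) c7_m0_t0 c7_m0_t1
theorem c7_m0_t4 : CovD 0 progs [(773094113280, 85899345920), (137438953472, 27487830016), (2886218022912, 962072674304)] :=
  covD_split 0 (by decide +kernel) c7_m0_t2 c7_m0_t3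
theorem c7_m0_t6 : CovD 0 progs [(858993459200, 171798691840), (137438953472, 27487830016), (2886218022912, 962072674304)] :=
  covD_split 0 (by decide +kernel) c7_m0_t4 c7_m0_t5
theorem c7_m0_t8 : CovD 0 progs [(858993459200, 171798691840), (164926783488, 54975660032), (2886218022912, 962072674304)] :=
  covD_split 1 (by decide +kernel) c7_m0_t6 c7_m0_t7
theorem c7_m0 : CovD 0 progs [(1030792151040, 343597383680), (164926783488, 54975660032), (2886218022912, 962072674304)] :=
  covD_split 0 (by decide +kernel) c7_m0_t8 c7_m0_t9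

end Pool.Agent.helper31.EQB.Cert.LB0
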