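import Pool.Agent.helper31.EQB.Cert.LB0P

/-!
Generated certificates.
-/

namespace Pool.Agent.helper31.EQB.Cert.LB0

open Pool.Agent.helper31.IA (Z Op)
open Pool.Agent.helper31.IC

mutual
theorem c0_m0_t0 : CovD 0 progs [(42949672960, 42949672960), (54975594496, 54975594496), (962072674304, 962072674304)] :=
  Pool.Agent.helper14.QF.covD_F chks_eq (.n 2 (.n 2 (.n 2 (.n 2 (.l 0) (.l 0)) (.n 2 (.l 0) (.l 0))) (.n 2 (.l 0) (.l 0))) (.n 0 (.n 2 (.l 0) (.l 0)) (.n 2 (.l 0) (.l 0))))
    [(42949672960, 42949672960), (54975594496, 54975594496), (962072674304, 962072674304)] rfl (by decide +kernel)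
theorem c0_m0_t1 : CovD 0 progs [(128849018880, 42949672960), (54975594496, 54975594496), (962072674304, 962072674304)] :=
  Pool.Agent.helper14.QF.covD_F chks_eq (.n 2 (.n 2 (.n 1 (.n 2 (.n 2 (.n 2 (.l 0) (.l 0)) (.n 2 (.l 0) (.l 0))) (.n 2 (.l 0) (.l 0))) (.n 2 (.n 2 (.n 2 (.l 0) (.l 0)) (.n 2 (.l 0) (.l 0))) (.n 2 (.l 0) (.l 0)))) (.n 2 (.l 0) (.l 0))) (.n 2 (.l 0) (.l 0)))
    [(128849018880, 42949672960), (54975594496, 54975594496), (962072674304, 962072674304)] rfl (by decide +kernel)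
end
mutual
theorem c0_m0_t3 : CovD 0 progs [(257698037760, 85899345920), (54975594496, 54975594496), (962072674304, 962072674304)] :=
  Pool.Agent.helper14.QF.covD_F chks_eq (.n 2 (.n 2 (.n 2 (.n 0 (.n 0 (.n 2 (.l 0) (.l 0)) (.n 2 (.l 0) (.l 0))) (.n 0 (.n 2 (.l 0) (.l 0)) (.n 2 (.l 0) (.l 0)))) (.n 2 (.n 0 (.l 0) (.l 0)) (.l 0))) (.n 0 (.n 2 (.l 0) (.l 0)) (.n 2 (.l 0) (.l 0)))) (.n 0 (.n 2 (.l 0) (.l 0)) (.n 2 (.l 0) (.l 0))))
    [(257698037760, 85899345920), (54975594496, 54975594496), (962072674304, 962072674304)] rfl (by decide +kernel)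
theorem c0_m0_t5 : CovD 0 progs [(429496729600, 85899345920), (54975594496, 54975594496), (962072674304, 962072674304)] :=
  Pool.Agent.helper14.QF.covD_F chks_eq (.n 2 (.n 0 (.n 2 (.n 2 (.n 0 (.n 0 (.l 0) (.l 0)) (.l 0)) (.n 2 (.l 0) (.l 0))) (.n 2 (.l 0) (.l 0))) (.n 2 (.n 0 (.n 2 (.l 0) (.l 0)) (.n 2 (.l 0) (.l 0))) (.n 2 (.l 0) (.l 0)))) (.n 2 (.n 0 (.l 0) (.l 0)) (.l 0)))
    [(429496729600, 85899345920), (54975594496, 54975594496), (962072674304, 962072674304)] rfl (by decide +kernel)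
end
mutual
theorem c0_m0_t6 : CovD 0 progs [(601295421440, 85899345920), (54975594496, 54975594496), (962072674304, 962072674304)] :=
  Pool.Agent.helper14.QF.covD_F chks_eq (.n 2 (.n 0 (.n 2 (.n 2 (.l 0) (.l 0)) (.n 2 (.l 0) (.l 0))) (.n 2 (.l 1) (.l 1))) (.n 2 (.n 0 (.l 0) (.l 1)) (.l 1)))
    [(601295421440, 85899345920), (54975594496, 54975594496), (962072674304, 962072674304)] rfl (by decide +kernel)
theorem c1_m0_t0 : CovD 0 progs [(343597383680, 343597383680), (54975594496, 54975594496), (2405181685760, 481036337152)] :=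
  Pool.Agent.helper14.QF.covD_F chks_eq (.n 0 (.n 0 (.n 1 (.n 0 (.l 0) (.l 0)) (.l 0)) (.n 0 (.l 0) (.l 0))) (.n 0 (.l 1) (.n 0 (.l 0) (.l 1))))
    [(343597383680, 343597383680), (54975594496, 54975594496), (2405181685760, 481036337152)] rfl (by decide +kernel)
end
mutual
theorem c1_m0_t1 : CovD 0 progs [(343597383680, 343597383680), (54975594496, 54975594496), (3126736191488, 240518168576)] :=
  Pool.Agent.helper14.QF.covD_F chks_eq (.n 0 (.n 0 (.n 0 (.n 0 (.l 0) (.l 0)) (.l 0)) (.n 0 (.l 0) (.l 0))) (.n 0 (.l 1) (.l 1)))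
    [(343597383680, 343597383680), (54975594496, 54975594496), (3126736191488, 240518168576)] rfl (by decide +kernel)
theorem c1_m0_t2 : CovD 0 progs [(171798691840, 171798691840), (27487797248, 27487797248), (3487513444352, 120259084288)] :=
  Pool.Agent.helper14.QF.covD_F chks_eq (.n 2 (.n 0 (.n 0 (.l 0) (.l 0)) (.l 0)) (.n 2 (.n 2 (.n 0 (.n 0 (.l 0) (.l 0)) (.l 0)) (.n 2 (.n 2 (.n 2 (.n 0 (.n 0 (.l 0) (.l 0)) (.n 0 (.l 0) (.l 0))) (.l 5)) (.l 5)) (.l 5))) (.l 5)))
    [(171798691840, 171798691840), (27487797248, 27487797248), (3487513444352, 120259084288)] rfl (by decide +kernel)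
end
mutual
theorem c1_m0_t3 : CovD 0 progs [(171798691840, 171798691840), (82463391744, 27487797248), (3487513444352, 120259084288)] :=
  Pool.Agent.helper14.QF.covD_F chks_eq (.n 2 (.n 0 (.l 0) (.l 0)) (.n 2 (.n 2 (.n 0 (.l 0) (.l 0)) (.n 2 (.n 2 (.n 2 (.n 0 (.n 0 (.l 0) (.l 0)) (.l 0)) (.n 0 (.l 5) (.n 0 (.l 5) (.l 0)))) (.l 5)) (.l 5))) (.l 5)))
    [(171798691840, 171798691840), (82463391744, 27487797248), (3487513444352, 120259084288)] rfl (by decide +kernel)
theorem c1_m0_t5 : CovD 0 progs [(515396075520, 171798691840), (54975594496, 54975594496), (3427383902208, 60129542144)] :=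
  Pool.Agent.helper14.QF.covD_F chks_eq (.n 0 (.l 0) (.l 1))
    [(515396075520, 171798691840), (54975594496, 54975594496), (3427383902208, 60129542144)] rfl (by decide +kernel)
end
mutual
theorem c1_m0_t6 : CovD 0 progs [(515396075520, 171798691840), (54975594496, 54975594496), (3502545829888, 15032385536)] :=
  Pool.Agent.helper14.QF.covD_F chks_eq (.n 0 (.n 1 (.l 0) (.l 0)) (.n 1 (.l 0) (.l 1)))
    [(515396075520, 171798691840), (54975594496, 54975594496), (3502545829888, 15032385536)] rfl (by decide +kernel)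
theorem c1_m0_t7 : CovD 0 progs [(515396075520, 171798691840), (54975594496, 54975594496), (3532610600960, 15032385536)] :=
  Pool.Agent.helper14.QF.covD_F chks_eq (.n 2 (.n 2 (.n 2 (.n 1 (.n 1 (.n 1 (.n 0 (.l 0) (.l 0)) (.l 0)) (.n 0 (.l 0) (.l 0))) (.n 0 (.l 0) (.l 1))) (.n 0 (.n 1 (.n 1 (.l 5) (.l 0)) (.l 0)) (.n 1 (.n 1 (.n 1 (.l 5) (.l 0)) (.l 0)) (.l 1)))) (.n 0 (.n 1 (.l 5) (.n 0 (.l 5) (.l 0))) (.n 1 (.n 1 (.l 5) (.n 0 (.l 5) (.l 0))) (.l 1)))) (.n 1 (.l 5) (.l 5)))
    [(515396075520, 171798691840), (54975594496, 54975594496), (3532610600960, 15032385536)] rfl (by decide +kernel)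
end
mutual
theorem c1_m0_t9 : CovD 0 progs [(515396075520, 171798691840), (54975594496, 54975594496), (3577707757568, 30064771072)] :=
  Pool.Agent.helper14.QF.covD_F chks_eq (.l 5)
    [(515396075520, 171798691840), (54975594496, 54975594496), (3577707757568, 30064771072)] rfl (by decide +kernel)
theorem c1_m0_t13 : CovD 0 progs [(343597383680, 343597383680), (54975594496, 54975594496), (3728031612928, 120259084288)] :=
  Pool.Agent.helper14.QF.covD_F chks_eq (.l 5)
    [(343597383680, 343597383680), (54975594496, 54975594496), (3728031612928, 120259084288)] rfl (by decide +kernel)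
end
mutual
theorem c2_m0_t0 : CovD 0 progs [(85899345920, 85899345920), (164926783488, 54975660032), (962072674304, 962072674304)] :=
  Pool.Agent.helper14.QF.covD_F chks_eq (.n 2 (.n 1 (.n 2 (.n 2 (.n 2 (.n 2 (.l 0) (.l 0)) (.n 2 (.l 0) (.l 0))) (.n 2 (.l 0) (.l 0))) (.n 2 (.l 0) (.l 0))) (.n 2 (.n 2 (.n 2 (.n 2 (.l 0) (.l 0)) (.n 2 (.l 0) (.l 0))) (.n 2 (.l 0) (.l 0))) (.n 2 (.l 0) (.l 0)))) (.n 2 (.l 0) (.l 0)))
    [(85899345920, 85899345920), (164926783488, 54975660032), (962072674304, 962072674304)] rfl (by decide +kernel)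
theorem c2_m0_t1 : CovD 0 progs [(257698037760, 85899345920), (164926783488, 54975660032), (962072674304, 962072674304)] :=
  Pool.Agent.helper14.QF.covD_F chks_eq (.n 0 (.n 2 (.n 2 (.n 2 (.n 0 (.n 2 (.l 0) (.l 0)) (.n 2 (.l 0) (.l 0))) (.n 2 (.l 0) (.l 0))) (.n 2 (.l 0) (.l 0))) (.n 2 (.l 0) (.l 0))) (.n 2 (.n 2 (.n 2 (.n 0 (.n 2 (.l 0) (.l 0)) (.n 2 (.l 1) (.l 1))) (.n 2 (.l 1) (.l 1))) (.n 2 (.l 1) (.l 1))) (.n 2 (.l 1) (.l 1))))
    [(257698037760, 85899345920), (164926783488, 54975660032), (962072674304, 962072674304)] rfl (by decide +kernel)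
end
mutual
theorem c2_m0_t3 : CovD 0 progs [(386547056640, 42949672960), (164926783488, 54975660032), (962072674304, 962072674304)] :=
  Pool.Agent.helper14.QF.covD_F chks_eq (.n 2 (.n 2 (.n 2 (.n 0 (.n 0 (.l 1) (.l 1)) (.l 1)) (.n 2 (.l 1) (.l 1))) (.n 2 (.l 1) (.l 1))) (.n 1 (.n 2 (.l 1) (.l 1)) (.n 2 (.n 2 (.l 1) (.l 1)) (.n 0 (.l 1) (.n 0 (.l 1) (.n 1 (.l 1) (.n 1 (.l 1) (.n 1 (.l 1) (.l 3)))))))))
    [(386547056640, 42949672960), (164926783488, 54975660032), (962072674304, 962072674304)] rfl (by decide +kernel)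
theorem c2_m0_t4 : CovD 0 progs [(472446402560, 42949672960), (137438953472, 27487830016), (962072674304, 962072674304)] :=
  Pool.Agent.helper14.QF.covD_F chks_eq (.n 2 (.n 2 (.n 0 (.n 2 (.l 1) (.l 1)) (.n 2 (.l 1) (.l 1))) (.n 2 (.l 1) (.l 1))) (.n 2 (.l 1) (.l 1)))
    [(472446402560, 42949672960), (137438953472, 27487830016), (962072674304, 962072674304)] rfl (by decide +kernel)
end
mutual
theorem c2_m0_t5 : CovD 0 progs [(472446402560, 42949672960), (178670698496, 13743915008), (962072674304, 962072674304)] :=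
  Pool.Agent.helper14.QF.covD_F chks_eq (.n 2 (.n 2 (.n 0 (.n 2 (.l 1) (.l 1)) (.n 2 (.l 1) (.l 1))) (.n 2 (.l 1) (.n 0 (.l 1) (.l 1)))) (.n 0 (.n 2 (.l 1) (.l 1)) (.n 1 (.n 2 (.l 1) (.l 1)) (.n 0 (.n 1 (.n 2 (.l 1) (.l 1)) (.l 3)) (.l 3)))))
    [(472446402560, 42949672960), (178670698496, 13743915008), (962072674304, 962072674304)] rfl (by decide +kernel)
theorem c2_m0_t6 : CovD 0 progs [(472446402560, 42949672960), (206158528512, 13743915008), (962072674304, 962072674304)] :=
  Pool.Agent.helper14.QF.covD_F chks_eq (.n 0 (.n 0 (.n 1 (.n 1 (.n 2 (.n 2 (.n 2 (.l 1) (.l 1)) (.n 2 (.l 1) (.l 1))) (.n 2 (.l 1) (.l 1))) (.l 3)) (.l 3)) (.l 3)) (.l 3))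
    [(472446402560, 42949672960), (206158528512, 13743915008), (962072674304, 962072674304)] rfl (by decide +kernel)
end
mutual
theorem c2_m0_t10 : CovD 0 progs [(558345748480, 42949672960), (137438953472, 27487830016), (962072674304, 962072674304)] :=
  Pool.Agent.helper14.QF.covD_F chks_eq (.n 2 (.n 2 (.n 2 (.l 1) (.l 1)) (.n 2 (.l 1) (.n 0 (.l 1) (.n 0 (.l 1) (.l 1))))) (.n 0 (.n 2 (.l 1) (.l 1)) (.n 1 (.n 2 (.l 1) (.l 1)) (.n 1 (.n 2 (.l 1) (.l 1)) (.n 0 (.n 0 (.n 2 (.l 1) (.l 1)) (.l 3)) (.l 3))))))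
    [(558345748480, 42949672960), (137438953472, 27487830016), (962072674304, 962072674304)] rfl (by decide +kernel)
theorem c2_m0_t11 : CovD 0 progs [(558345748480, 42949672960), (192414613504, 27487830016), (962072674304, 962072674304)] :=
  Pool.Agent.helper14.QF.covD_F chks_eq (.n 0 (.n 0 (.n 1 (.n 1 (.n 1 (.n 2 (.n 2 (.l 1) (.l 1)) (.n 2 (.l 1) (.l 1))) (.l 3)) (.l 3)) (.l 3)) (.l 3)) (.l 3))
    [(558345748480, 42949672960), (192414613504, 27487830016), (962072674304, 962072674304)] rfl (by decide +kernel)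
end
mutual
theorem c2_m0_t13 : CovD 0 progs [(644245094400, 42949672960), (164926783488, 54975660032), (962072674304, 962072674304)] :=
  Pool.Agent.helper14.QF.covD_F chks_eq (.n 1 (.n 1 (.n 2 (.n 2 (.l 1) (.l 1)) (.n 2 (.l 1) (.l 1))) (.n 0 (.n 1 (.n 1 (.n 2 (.n 2 (.l 1) (.l 1)) (.n 2 (.l 1) (.l 1))) (.l 3)) (.l 3)) (.l 3))) (.l 3))
    [(644245094400, 42949672960), (164926783488, 54975660032), (962072674304, 962072674304)] rfl (by decide +kernel)
theorem c3_m0_t0 : CovD 0 progs [(171798691840, 171798691840), (164926783488, 54975660032), (2405181685760, 481036337152)] :=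
  Pool.Agent.helper14.QF.covD_F chks_eq (.n 0 (.l 0) (.n 0 (.l 0) (.n 0 (.l 0) (.l 1))))
    [(171798691840, 171798691840), (164926783488, 54975660032), (2405181685760, 481036337152)] rfl (by decide +kernel)
end
mutual
theorem c3_m0_t1 : CovD 0 progs [(386547056640, 42949672960), (137438953472, 27487830016), (2405181685760, 481036337152)] :=
  Pool.Agent.helper14.QF.covD_F chks_eq (.l 1)
    [(386547056640, 42949672960), (137438953472, 27487830016), (2405181685760, 481036337152)] rfl (by decide +kernel)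
theorem c3_m0_t2 : CovD 0 progs [(386547056640, 42949672960), (192414613504, 27487830016), (2164663517184, 240518168576)] :=
  Pool.Agent.helper14.QF.covD_F chks_eq (.n 0 (.l 1) (.n 1 (.l 1) (.n 1 (.l 1) (.n 0 (.n 0 (.l 1) (.n 0 (.l 1) (.n 1 (.l 1) (.l 3)))) (.n 0 (.n 1 (.n 2 (.l 1) (.l 1)) (.l 3)) (.l 3))))))
    [(386547056640, 42949672960), (192414613504, 27487830016), (2164663517184, 240518168576)] rfl (by decide +kernel)
end
mutual
theorem c3_m0_t3 : CovD 0 progs [(386547056640, 42949672960), (178670698496, 13743915008), (2645699854336, 240518168576)] :=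
  Pool.Agent.helper14.QF.covD_F chks_eq (.l 1)
    [(386547056640, 42949672960), (178670698496, 13743915008), (2645699854336, 240518168576)] rfl (by decide +kernel)
theorem c3_m0_t4 : CovD 0 progs [(386547056640, 42949672960), (199286571008, 6871957504), (2645699854336, 240518168576)] :=
  Pool.Agent.helper14.QF.covD_F chks_eq (.n 0 (.l 1) (.n 0 (.l 1) (.n 0 (.l 1) (.n 1 (.l 1) (.n 1 (.l 1) (.n 0 (.n 1 (.l 1) (.l 3)) (.l 3)))))))
    [(386547056640, 42949672960), (199286571008, 6871957504), (2645699854336, 240518168576)] rfl (by decide +kernel)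
end
mutual
theorem c3_m0_t5 : CovD 0 progs [(386547056640, 42949672960), (209594507264, 3435978752), (2645699854336, 240518168576)] :=
  Pool.Agent.helper14.QF.covD_F chks_eq (.n 1 (.n 0 (.l 1) (.n 0 (.l 1) (.n 0 (.n 0 (.l 1) (.n 0 (.n 1 (.l 1) (.l 3)) (.l 3))) (.l 3)))) (.n 0 (.l 1) (.n 0 (.n 0 (.l 1) (.n 2 (.l 1) (.n 2 (.l 1) (.n 2 (.l 1) (.l 1))))) (.n 0 (.n 0 (.l 3) (.l 3)) (.l 3)))))
    [(386547056640, 42949672960), (209594507264, 3435978752), (2645699854336, 240518168576)] rfl (by decide +kernel)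
theorem c3_m0_t6 : CovD 0 progs [(386547056640, 42949672960), (216466464768, 3435978752), (2645699854336, 240518168576)] :=
  Pool.Agent.helper14.QF.covD_F chks_eq (.n 0 (.l 1) (.n 0 (.n 0 (.n 0 (.l 1) (.n 1 (.l 1) (.n 1 (.n 2 (.l 1) (.n 2 (.l 1) (.l 2))) (.l 3)))) (.n 0 (.n 0 (.n 1 (.n 2 (.l 1) (.l 1)) (.l 3)) (.n 1 (.n 1 (.l 1) (.l 3)) (.l 3))) (.l 3))) (.l 3)))
    [(386547056640, 42949672960), (216466464768, 3435978752), (2645699854336, 240518168576)] rfl (by decide +kernel)
end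
mutual
theorem c3_m0_t12 : CovD 0 progs [(440234147840, 10737418240), (164926783488, 54975660032), (2405181685760, 481036337152)] :=
  Pool.Agent.helper14.QF.covD_F chks_eq (.n 1 (.l 1) (.n 1 (.n 2 (.l 1) (.l 1)) (.n 1 (.n 0 (.n 1 (.n 2 (.l 1) (.n 2 (.l 1) (.l 1))) (.l 3)) (.n 0 (.n 1 (.n 1 (.n 2 (.l 1) (.l 1)) (.l 3)) (.l 3)) (.l 3))) (.l 3))))
    [(440234147840, 10737418240), (164926783488, 54975660032), (2405181685760, 481036337152)] rfl (by decide +kernel)
theorem c3_m0_t13 : CovD 0 progs [(461708984320, 10737418240), (164926783488, 54975660032), (2405181685760, 481036337152)] :=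
  Pool.Agent.helper14.QF.covD_F chks_eq (.n 1 (.l 1) (.n 0 (.n 1 (.n 1 (.l 1) (.n 1 (.l 1) (.n 0 (.n 2 (.l 1) (.l 1)) (.n 1 (.n 2 (.l 1) (.l 1)) (.l 3))))) (.l 3)) (.n 1 (.n 1 (.l 1) (.n 1 (.n 2 (.l 1) (.l 1)) (.l 3))) (.l 3))))
    [(461708984320, 10737418240), (164926783488, 54975660032), (2405181685760, 481036337152)] rfl (by decide +kernel)
end
mutual
theorem c3_m0_t15 : CovD 0 progs [(493921239040, 21474836480), (164926783488, 54975660032), (2405181685760, 481036337152)] :=
  Pool.Agent.helper14.QF.covD_F chks_eq (.n 0 (.n 1 (.l 1) (.n 1 (.n 1 (.n 2 (.l 1) (.l 1)) (.n 0 (.n 1 (.n 1 (.n 2 (.l 1) (.l 1)) (.l 3)) (.l 3)) (.l 3))) (.l 3))) (.n 1 (.l 1) (.n 1 (.n 1 (.n 1 (.l 1) (.n 0 (.n 0 (.n 1 (.l 1) (.l 3)) (.l 3)) (.l 3))) (.l 3)) (.l 3))))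
    [(493921239040, 21474836480), (164926783488, 54975660032), (2405181685760, 481036337152)] rfl (by decide +kernel)
theorem c3_m0_t18 : CovD 0 progs [(558345748480, 42949672960), (164926783488, 54975660032), (2405181685760, 481036337152)] :=
  Pool.Agent.helper14.QF.covD_F chks_eq (.n 1 (.n 1 (.l 1) (.n 1 (.n 2 (.l 1) (.l 1)) (.n 0 (.n 0 (.l 1) (.n 0 (.n 2 (.l 1) (.l 1)) (.n 1 (.l 1) (.l 3)))) (.n 0 (.n 0 (.n 1 (.l 1) (.l 3)) (.l 3)) (.l 3))))) (.n 0 (.n 0 (.n 0 (.n 1 (.n 1 (.n 1 (.n 1 (.l 1) (.l 3)) (.l 3)) (.l 3)) (.l 3)) (.l 3)) (.l 3)) (.l 3)))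
    [(558345748480, 42949672960), (164926783488, 54975660032), (2405181685760, 481036337152)] rfl (by decide +kernel)
end
mutual
theorem c3_m0_t19 : CovD 0 progs [(644245094400, 42949672960), (164926783488, 54975660032), (2405181685760, 481036337152)] :=
  Pool.Agent.helper14.QF.covD_F chks_eq (.n 1 (.n 0 (.n 1 (.l 1) (.n 1 (.n 1 (.n 0 (.l 1) (.l 3)) (.l 3)) (.l 3))) (.n 1 (.n 0 (.l 1) (.n 1 (.l 1) (.n 1 (.l 1) (.l 3)))) (.l 3))) (.l 3))
    [(644245094400, 42949672960), (164926783488, 54975660032), (2405181685760, 481036337152)] rfl (by decide +kernel)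
theorem c3_m1_t0 : CovD 0 progs [(171798691840, 171798691840), (164926783488, 54975660032), (3126736191488, 240518168576)] :=
  Pool.Agent.helper14.QF.covD_F chks_eq (.n 0 (.l 0) (.n 0 (.l 0) (.l 1)))
    [(171798691840, 171798691840), (164926783488, 54975660032), (3126736191488, 240518168576)] rfl (by decide +kernel)
end
mutual
theorem c3_m1_t1 : CovD 0 progs [(386547056640, 42949672960), (137438953472, 27487830016), (3126736191488, 240518168576)] :=
  Pool.Agent.helper14.QF.covD_F chks_eq (.l 1)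
    [(386547056640, 42949672960), (137438953472, 27487830016), (3126736191488, 240518168576)] rfl (by decide +kernel)
theorem c3_m1_t2 : CovD 0 progs [(386547056640, 42949672960), (178670698496, 13743915008), (3126736191488, 240518168576)] :=
  Pool.Agent.helper14.QF.covD_F chks_eq (.l 1)
    [(386547056640, 42949672960), (178670698496, 13743915008), (3126736191488, 240518168576)] rfl (by decide +kernel)
end
mutual
theorem c3_m1_t3 : CovD 0 progs [(386547056640, 42949672960), (199286571008, 6871957504), (3126736191488, 240518168576)] :=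
  Pool.Agent.helper14.QF.covD_F chks_eq (.n 0 (.l 1) (.n 0 (.l 1) (.n 0 (.n 0 (.l 2) (.l 2)) (.n 0 (.n 1 (.l 1) (.n 1 (.l 2) (.n 1 (.n 2 (.n 2 (.l 1) (.l 2)) (.l 2)) (.l 3)))) (.n 0 (.n 1 (.l 1) (.n 1 (.n 2 (.l 1) (.l 2)) (.l 3))) (.n 1 (.l 1) (.n 1 (.n 1 (.l 2) (.l 3)) (.l 3))))))))
    [(386547056640, 42949672960), (199286571008, 6871957504), (3126736191488, 240518168576)] rfl (by decide +kernel)
theorem c3_m1_t4 : CovD 0 progs [(386547056640, 42949672960), (209594507264, 3435978752), (3126736191488, 240518168576)] :=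
  Pool.Agent.helper14.QF.covD_F chks_eq (.n 0 (.l 1) (.n 0 (.n 0 (.l 1) (.n 0 (.l 2) (.n 0 (.l 2) (.n 1 (.l 2) (.n 1 (.l 2) (.l 3)))))) (.n 0 (.n 0 (.n 1 (.n 2 (.l 2) (.l 2)) (.l 3)) (.n 0 (.n 1 (.n 1 (.l 2) (.l 3)) (.l 3)) (.l 3))) (.l 3))))
    [(386547056640, 42949672960), (209594507264, 3435978752), (3126736191488, 240518168576)] rfl (by decide +kernel)
end
mutual
theorem c3_m1_t5 : CovD 0 progs [(386547056640, 42949672960), (216466464768, 3435978752), (3126736191488, 240518168576)] :=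
  Pool.Agent.helper14.QF.covD_F chks_eq (.n 0 (.l 2) (.n 0 (.n 0 (.n 0 (.l 2) (.n 1 (.l 2) (.n 1 (.n 2 (.l 2) (.l 2)) (.l 3)))) (.n 0 (.n 0 (.n 1 (.n 1 (.l 2) (.l 2)) (.l 3)) (.n 1 (.n 1 (.l 2) (.l 3)) (.l 3))) (.l 3))) (.l 3)))
    [(386547056640, 42949672960), (216466464768, 3435978752), (3126736191488, 240518168576)] rfl (by decide +kernel)
theorem c3_m1_t10 : CovD 0 progs [(440234147840, 10737418240), (137438953472, 27487830016), (3126736191488, 240518168576)] :=
  Pool.Agent.helper14.QF.covD_F chks_eq (.l 1)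
    [(440234147840, 10737418240), (137438953472, 27487830016), (3126736191488, 240518168576)] rfl (by decide +kernel)
end
mutual
theorem c3_m1_t11 : CovD 0 progs [(440234147840, 10737418240), (178670698496, 13743915008), (3126736191488, 240518168576)] :=
  Pool.Agent.helper14.QF.covD_F chks_eq (.n 0 (.l 1) (.n 0 (.l 1) (.n 0 (.n 1 (.l 1) (.l 1)) (.n 0 (.n 2 (.l 1) (.l 2)) (.n 1 (.l 1) (.n 1 (.l 1) (.n 1 (.l 1) (.n 1 (.l 1) (.l 3)))))))))
    [(440234147840, 10737418240), (178670698496, 13743915008), (3126736191488, 240518168576)] rfl (by decide +kernel)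
theorem c3_m1_t12 : CovD 0 progs [(440234147840, 10737418240), (206158528512, 13743915008), (3126736191488, 240518168576)] :=
  Pool.Agent.helper14.QF.covD_F chks_eq (.n 1 (.n 1 (.n 0 (.n 0 (.n 2 (.l 1) (.l 2)) (.n 0 (.n 1 (.l 1) (.n 1 (.n 0 (.l 2) (.l 2)) (.l 3))) (.n 1 (.l 2) (.l 3)))) (.n 0 (.n 0 (.n 1 (.n 2 (.l 1) (.l 2)) (.l 3)) (.n 1 (.n 1 (.n 1 (.l 1) (.l 3)) (.l 3)) (.l 3))) (.l 3))) (.l 3)) (.l 3))
    [(440234147840, 10737418240), (206158528512, 13743915008), (3126736191488, 240518168576)] rfl (by decide +kernel)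
end
mutual
theorem c3_m1_t15 : CovD 0 progs [(456340275200, 5368709120), (164926783488, 54975660032), (3126736191488, 240518168576)] :=
  Pool.Agent.helper14.QF.covD_F chks_eq (.n 0 (.n 1 (.l 1) (.n 1 (.n 1 (.l 1) (.n 1 (.l 1) (.n 1 (.l 1) (.n 0 (.n 1 (.l 1) (.l 3)) (.l 3))))) (.l 3))) (.n 1 (.l 1) (.n 1 (.n 1 (.l 1) (.n 1 (.l 1) (.n 0 (.n 1 (.n 2 (.l 1) (.l 1)) (.l 3)) (.n 1 (.n 1 (.l 1) (.l 3)) (.l 3))))) (.l 3))))
    [(456340275200, 5368709120), (164926783488, 54975660032), (3126736191488, 240518168576)] rfl (by decide +kernel)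
theorem c3_m1_t16 : CovD 0 progs [(467077693440, 5368709120), (164926783488, 54975660032), (3126736191488, 240518168576)] :=
  Pool.Agent.helper14.QF.covD_F chks_eq (.n 1 (.l 1) (.n 1 (.n 1 (.l 1) (.n 1 (.n 0 (.l 1) (.n 1 (.l 1) (.n 1 (.l 1) (.l 3)))) (.l 3))) (.l 3)))
    [(467077693440, 5368709120), (164926783488, 54975660032), (3126736191488, 240518168576)] rfl (by decide +kernel)
end
mutual
theorem c3_m1_t19 : CovD 0 progs [(493921239040, 21474836480), (164926783488, 54975660032), (3126736191488, 240518168576)] :=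
  Pool.Agent.helper14.QF.covD_F chks_eq (.n 0 (.n 1 (.l 1) (.n 1 (.n 0 (.n 1 (.l 1) (.n 1 (.n 0 (.n 1 (.l 1) (.l 3)) (.n 1 (.n 1 (.l 1) (.l 3)) (.l 3))) (.l 3))) (.n 1 (.n 0 (.l 1) (.n 1 (.l 1) (.n 1 (.l 1) (.l 3)))) (.l 3))) (.l 3))) (.n 1 (.l 1) (.n 1 (.n 1 (.n 1 (.n 2 (.l 1) (.l 1)) (.n 0 (.n 0 (.n 1 (.l 1) (.l 3)) (.l 3)) (.l 3))) (.l 3)) (.l 3))))
    [(493921239040, 21474836480), (164926783488, 54975660032), (3126736191488, 240518168576)] rfl (by decide +kernel)
theorem c3_m1_t22 : CovD 0 progs [(558345748480, 42949672960), (164926783488, 54975660032), (3126736191488, 240518168576)] :=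
  Pool.Agent.helper14.QF.covD_F chks_eq (.n 1 (.n 1 (.l 1) (.n 0 (.n 0 (.l 1) (.n 1 (.l 1) (.n 1 (.l 1) (.n 0 (.n 1 (.l 1) (.l 3)) (.l 3))))) (.n 1 (.n 2 (.l 1) (.l 1)) (.n 0 (.n 0 (.n 1 (.l 1) (.l 3)) (.l 3)) (.l 3))))) (.n 0 (.n 0 (.n 0 (.n 1 (.n 1 (.n 1 (.n 1 (.l 1) (.l 3)) (.l 3)) (.l 3)) (.l 3)) (.l 3)) (.l 3)) (.l 3)))
    [(558345748480, 42949672960), (164926783488, 54975660032), (3126736191488, 240518168576)] rfl (by decide +kernel)
theorem c3_m1_t23 : CovD 0 progs [(644245094400, 42949672960), (164926783488, 54975660032), (3126736191488, 240518168576)] :=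
  Pool.Agent.helper14.QF.covD_F chks_eq (.n 1 (.n 0 (.n 1 (.l 1) (.n 1 (.n 1 (.n 0 (.l 1) (.l 3)) (.l 3)) (.l 3))) (.n 1 (.n 0 (.l 1) (.n 1 (.l 1) (.n 1 (.l 1) (.l 3)))) (.l 3))) (.l 3))
    [(644245094400, 42949672960), (164926783488, 54975660032), (3126736191488, 240518168576)] rfl (by decide +kernel)
end

theorem c0_m0_t2 : CovD 0 progs [(85899345920, 85899345920), (54975594496, 54975594496), (962072674304, 962072674304)] :=
  covD_split 0 (by decide +kernel) c0_m0_t0 c0_m0_t1
theorem c0_m0_t4 : CovD 0 progs [(171798691840, 171798691840), (54975594496, 54975594496), (962072674304, 962072674304)] :=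
  covD_split 0 (by decide +kernel) c0_m0_t2 c0_m0_t3
theorem c0_m0_t7 : CovD 0 progs [(515396075520, 171798691840), (54975594496, 54975594496), (962072674304, 962072674304)] :=
  covD_split 0 (by decide +kernel) c0_m0_t5 c0_m0_t6
theorem c0_m0 : CovD 0 progs [(343597383680, 343597383680), (54975594496, 54975594496), (962072674304, 962072674304)] :=
  covD_split 0 (by decide +kernel) c0_m0_t4 c0_m0_t7
theorem c1_m0_t4 : CovD 0 progs [(171798691840, 171798691840), (54975594496, 54975594496), (3487513444352, 120259084288)] :=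
  covD_split 1 (by decide +kernel) c1_m0_t2 c1_m0_t3
theorem c1_m0_t8 : CovD 0 progs [(515396075520, 171798691840), (54975594496, 54975594496), (3517578215424, 30064771072)] :=
  covD_split 2 (by decide +kernel) c1_m0_t6 c1_m0_t7
theorem c1_m0_t10 : CovD 0 progs [(515396075520, 171798691840), (54975594496, 54975594496), (3547642986496, 60129542144)] :=
  covD_split 2 (by decide +kernel) c1_m0_t8 c1_m0_t9
theorem c1_m0_t11 : CovD 0 progs [(515396075520, 171798691840), (54975594496, 54975594496), (3487513444352, 120259084288)] :=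
  covD_split 2 (by decide +kernel) c1_m0_t5 c1_m0_t10
theorem c1_m0_t12 : CovD 0 progs [(343597383680, 343597383680), (54975594496, 54975594496), (3487513444352, 120259084288)] :=
  covD_split 0 (by decide +kernel) c1_m0_t4 c1_m0_t11
theorem c1_m0_t14 : CovD 0 progs [(343597383680, 343597383680), (54975594496, 54975594496), (3607772528640, 240518168576)] :=
  covD_split 2 (by decide +kernel) c1_m0_t12 c1_m0_t13
theorem c1_m0_t15 : CovD 0 progs [(343597383680, 343597383680), (54975594496, 54975594496), (3367254360064, 481036337152)] :=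
  covD_split 2 (by decide +kernel) c1_m0_t1 c1_m0_t14
theorem c1_m0 : CovD 0 progs [(343597383680, 343597383680), (54975594496, 54975594496), (2886218022912, 962072674304)] :=
  covD_split 2 (by decide +kernel) c1_m0_t0 c1_m0_t15
theorem c2_m0_t2 : CovD 0 progs [(171798691840, 171798691840), (164926783488, 54975660032), (962072674304, 962072674304)] :=
  covD_split 0 (by decide +kernel) c2_m0_t0 c2_m0_t1
theorem c2_m0_t7 : CovD 0 progs [(472446402560, 42949672960), (192414613504, 27487830016), (962072674304, 962072674304)] :=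
  covD_split 1 (by decide +kernel) c2_m0_t5 c2_m0_t6
theorem c2_m0_t8 : CovD 0 progs [(472446402560, 42949672960), (164926783488, 54975660032), (962072674304, 962072674304)] :=
  covD_split 1 (by decide +kernel) c2_m0_t4 c2_m0_t7
theorem c2_m0_t9 : CovD 0 progs [(429496729600, 85899345920), (164926783488, 54975660032), (962072674304, 962072674304)] :=
  covD_split 0 (by decide +kernel) c2_m0_t3 c2_m0_t8
theorem c2_m0_t12 : CovD 0 progs [(558345748480, 42949672960), (164926783488, 54975660032), (962072674304, 962072674304)] :=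
  covD_split 1 (by decide +kernel) c2_m0_t10 c2_m0_t11
theorem c2_m0_t14 : CovD 0 progs [(601295421440, 85899345920), (164926783488, 54975660032), (962072674304, 962072674304)] :=
  covD_split 0 (by decide +kernel) c2_m0_t12 c2_m0_t13
theorem c2_m0_t15 : CovD 0 progs [(515396075520, 171798691840), (164926783488, 54975660032), (962072674304, 962072674304)] :=
  covD_split 0 (by decide +kernel) c2_m0_t9 c2_m0_t14
theorem c2_m0 : CovD 0 progs [(343597383680, 343597383680), (164926783488, 54975660032), (962072674304, 962072674304)] :=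
  covD_split 0 (by decide +kernel) c2_m0_t2 c2_m0_t15
theorem c3_m0_t7 : CovD 0 progs [(386547056640, 42949672960), (213030486016, 6871957504), (2645699854336, 240518168576)] :=
  covD_split 1 (by decide +kernel) c3_m0_t5 c3_m0_t6
theorem c3_m0_t8 : CovD 0 progs [(386547056640, 42949672960), (206158528512, 13743915008), (2645699854336, 240518168576)] :=
  covD_split 1 (by decide +kernel) c3_m0_t4 c3_m0_t7
theorem c3_m0_t9 : CovD 0 progs [(386547056640, 42949672960), (192414613504, 27487830016), (2645699854336, 240518168576)] :=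
  covD_split 1 (by decide +kernel) c3_m0_t3 c3_m0_t8
theorem c3_m0_t10 : CovD 0 progs [(386547056640, 42949672960), (192414613504, 27487830016), (2405181685760, 481036337152)] :=
  covD_split 2 (by decide +kernel) c3_m0_t2 c3_m0_t9
theorem c3_m0_t11 : CovD 0 progs [(386547056640, 42949672960), (164926783488, 54975660032), (2405181685760, 481036337152)] :=
  covD_split 1 (by decide +kernel) c3_m0_t1 c3_m0_t10
theorem c3_m0_t14 : CovD 0 progs [(450971566080, 21474836480), (164926783488, 54975660032), (2405181685760, 481036337152)] :=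
  covD_split 0 (by decide +kernel) c3_m0_t12 c3_m0_t13
theorem c3_m0_t16 : CovD 0 progs [(472446402560, 42949672960), (164926783488, 54975660032), (2405181685760, 481036337152)] :=
  covD_split 0 (by decide +kernel) c3_m0_t14 c3_m0_t15
theorem c3_m0_t17 : CovD 0 progs [(429496729600, 85899345920), (164926783488, 54975660032), (2405181685760, 481036337152)] :=
  covD_split 0 (by decide +kernel) c3_m0_t11 c3_m0_t16
theorem c3_m0_t20 : CovD 0 progs [(601295421440, 85899345920), (164926783488, 54975660032), (2405181685760, 481036337152)] :=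
  covD_split 0 (by decide +kernel) c3_m0_t18 c3_m0_t19
theorem c3_m0_t21 : CovD 0 progs [(515396075520, 171798691840), (164926783488, 54975660032), (2405181685760, 481036337152)] :=
  covD_split 0 (by decide +kernel) c3_m0_t17 c3_m0_t20
theorem c3_m0 : CovD 0 progs [(343597383680, 343597383680), (164926783488, 54975660032), (2405181685760, 481036337152)] :=
  covD_split 0 (by decide +kernel) c3_m0_t0 c3_m0_t21
theorem c3_m1_t6 : CovD 0 progs [(386547056640, 42949672960), (213030486016, 6871957504), (3126736191488, 240518168576)] :=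
  covD_split 1 (by decide +kernel) c3_m1_t4 c3_m1_t5
theorem c3_m1_t7 : CovD 0 progs [(386547056640, 42949672960), (206158528512, 13743915008), (3126736191488, 240518168576)] :=
  covD_split 1 (by decide +kernel) c3_m1_t3 c3_m1_t6
theorem c3_m1_t8 : CovD 0 progs [(386547056640, 42949672960), (192414613504, 27487830016), (3126736191488, 240518168576)] :=
  covD_split 1 (by decide +kernel) c3_m1_t2 c3_m1_t7
theorem c3_m1_t9 : CovD 0 progs [(386547056640, 42949672960), (164926783488, 54975660032), (3126736191488, 240518168576)] :=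
  covD_split 1 (by decide +kernel) c3_m1_t1 c3_m1_t8
theorem c3_m1_t13 : CovD 0 progs [(440234147840, 10737418240), (192414613504, 27487830016), (3126736191488, 240518168576)] :=
  covD_split 1 (by decide +kernel) c3_m1_t11 c3_m1_t12
theorem c3_m1_t14 : CovD 0 progs [(440234147840, 10737418240), (164926783488, 54975660032), (3126736191488, 240518168576)] :=
  covD_split 1 (by decide +kernel) c3_m1_t10 c3_m1_t13
theorem c3_m1_t17 : CovD 0 progs [(461708984320, 10737418240), (164926783488, 54975660032), (3126736191488, 240518168576)] :=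
  covD_split 0 (by decide +kernel) c3_m1_t15 c3_m1_t16
theorem c3_m1_t18 : CovD 0 progs [(450971566080, 21474836480), (164926783488, 54975660032), (3126736191488, 240518168576)] :=
  covD_split 0 (by decide +kernel) c3_m1_t14 c3_m1_t17
theorem c3_m1_t20 : CovD 0 progs [(472446402560, 42949672960), (164926783488, 54975660032), (3126736191488, 240518168576)] :=
  covD_split 0 (by decide +kernel) c3_m1_t18 c3_m1_t19
theorem c3_m1_t21 : CovD 0 progs [(429496729600, 85899345920), (164926783488, 54975660032), (3126736191488, 240518168576)] :=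
  covD_split 0 (by decide +kernel) c3_m1_t9 c3_m1_t20
theorem c3_m1_t24 : CovD 0 progs [(601295421440, 85899345920), (164926783488, 54975660032), (3126736191488, 240518168576)] :=
  covD_split 0 (by decide +kernel) c3_m1_t22 c3_m1_t23
theorem c3_m1_t25 : CovD 0 progs [(515396075520, 171798691840), (164926783488, 54975660032), (3126736191488, 240518168576)] :=
  covD_split 0 (by decide +kernel) c3_m1_t21 c3_m1_t24
theorem c3_m1 : CovD 0 progs [(343597383680, 343597383680), (164926783488, 54975660032), (3126736191488, 240518168576)] :=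
  covD_split 0 (by decide +kernel) c3_m1_t0 c3_m1_t25

end Pool.Agent.helper31.EQB.Cert.LB0
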