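import Pool.Agent.helper31.EQB.Cert.LB1P

/-!
Generated certificates.
-/

namespace Pool.Agent.helper31.EQB.Cert.LB1

open Pool.Agent.helper31.IA (Z Op)
open Pool.Agent.helper31.IC

mutual
theorem c3_m0_t0 : CovD 0 progs [(171798691840, 171798691840), (164926783488, 54975660032), (2886218022912, 962072674304)] :=
  Pool.Agent.helper14.QF.covD_F chks_eq (.n 0 (.n 2 (.l 0) (.n 2 (.l 0) (.n 2 (.n 2 (.l 0) (.n 2 (.l 0) (.l 5))) (.l 5)))) (.n 2 (.n 0 (.l 0) (.n 1 (.l 0) (.l 1))) (.n 2 (.n 0 (.l 0) (.l 2)) (.n 2 (.n 0 (.n 2 (.l 0) (.n 2 (.l 0) (.l 5))) (.n 2 (.l 1) (.n 2 (.l 1) (.n 2 (.n 2 (.l 1) (.l 5)) (.l 5))))) (.l 5)))))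
    [(171798691840, 171798691840), (164926783488, 54975660032), (2886218022912, 962072674304)] rfl (by decide +kernel)
theorem c3_m0_t1 : CovD 0 progs [(386547056640, 42949672960), (137438953472, 27487830016), (2405181685760, 481036337152)] :=
  Pool.Agent.helper14.QF.covD_F chks_eq (.l 1)
    [(386547056640, 42949672960), (137438953472, 27487830016), (2405181685760, 481036337152)] rfl (by decide +kernel)
end
mutual
theorem c3_m0_t2 : CovD 0 progs [(386547056640, 42949672960), (178670698496, 13743915008), (2405181685760, 481036337152)] :=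
  Pool.Agent.helper14.QF.covD_F chks_eq (.l 1)
    [(386547056640, 42949672960), (178670698496, 13743915008), (2405181685760, 481036337152)] rfl (by decide +kernel)
theorem c3_m0_t3 : CovD 0 progs [(365072220160, 21474836480), (206158528512, 13743915008), (2405181685760, 481036337152)] :=
  Pool.Agent.helper14.QF.covD_F chks_eq (.n 2 (.l 1) (.l 1))
    [(365072220160, 21474836480), (206158528512, 13743915008), (2405181685760, 481036337152)] rfl (by decide +kernel)
end
mutual
theorem c3_m0_t4 : CovD 0 progs [(397284474880, 10737418240), (206158528512, 13743915008), (2405181685760, 481036337152)] :=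
  Pool.Agent.helper14.QF.covD_F chks_eq (.n 1 (.l 1) (.n 0 (.n 0 (.n 2 (.l 1) (.l 1)) (.n 1 (.l 1) (.n 2 (.l 1) (.n 1 (.l 1) (.n 1 (.n 2 (.l 1) (.l 1)) (.l 3)))))) (.n 1 (.n 2 (.l 1) (.l 1)) (.n 0 (.n 1 (.n 2 (.l 1) (.n 0 (.l 1) (.n 1 (.l 1) (.l 3)))) (.l 3)) (.l 3)))))
    [(397284474880, 10737418240), (206158528512, 13743915008), (2405181685760, 481036337152)] rfl (by decide +kernel)
theorem c3_m0_t5 : CovD 0 progs [(418759311360, 10737418240), (206158528512, 13743915008), (2405181685760, 481036337152)] :=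
  Pool.Agent.helper14.QF.covD_F chks_eq (.n 1 (.n 2 (.l 1) (.n 2 (.l 1) (.l 1))) (.n 0 (.n 0 (.n 1 (.n 1 (.n 2 (.l 1) (.l 1)) (.l 3)) (.l 3)) (.n 1 (.n 1 (.n 2 (.l 1) (.l 1)) (.l 3)) (.l 3))) (.l 3)))
    [(418759311360, 10737418240), (206158528512, 13743915008), (2405181685760, 481036337152)] rfl (by decide +kernel)
end
mutual
theorem c3_m0_t10 : CovD 0 progs [(386547056640, 42949672960), (137438953472, 27487830016), (3126736191488, 240518168576)] :=
  Pool.Agent.helper14.QF.covD_F chks_eq (.l 1)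
    [(386547056640, 42949672960), (137438953472, 27487830016), (3126736191488, 240518168576)] rfl (by decide +kernel)
theorem c3_m0_t11 : CovD 0 progs [(386547056640, 42949672960), (178670698496, 13743915008), (3126736191488, 240518168576)] :=
  Pool.Agent.helper14.QF.covD_F chks_eq (.l 1)
    [(386547056640, 42949672960), (178670698496, 13743915008), (3126736191488, 240518168576)] rfl (by decide +kernel)
end
mutual
theorem c3_m0_t12 : CovD 0 progs [(386547056640, 42949672960), (199286571008, 6871957504), (3126736191488, 240518168576)] :=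
  Pool.Agent.helper14.QF.covD_F chks_eq (.n 0 (.l 1) (.n 0 (.l 1) (.n 0 (.l 1) (.n 0 (.l 1) (.n 1 (.l 1) (.n 1 (.l 1) (.l 3)))))))
    [(386547056640, 42949672960), (199286571008, 6871957504), (3126736191488, 240518168576)] rfl (by decide +kernel)
theorem c3_m0_t13 : CovD 0 progs [(386547056640, 42949672960), (209594507264, 3435978752), (3126736191488, 240518168576)] :=
  Pool.Agent.helper14.QF.covD_F chks_eq (.n 0 (.l 1) (.n 0 (.n 2 (.l 1) (.l 1)) (.n 0 (.n 0 (.n 1 (.l 1) (.l 3)) (.n 0 (.n 1 (.l 1) (.l 3)) (.l 3))) (.l 3))))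
    [(386547056640, 42949672960), (209594507264, 3435978752), (3126736191488, 240518168576)] rfl (by decide +kernel)
end
mutual
theorem c3_m0_t14 : CovD 0 progs [(386547056640, 42949672960), (216466464768, 3435978752), (3126736191488, 240518168576)] :=
  Pool.Agent.helper14.QF.covD_F chks_eq (.n 0 (.l 1) (.n 0 (.n 0 (.n 0 (.n 2 (.l 1) (.l 2)) (.n 0 (.n 1 (.l 1) (.n 1 (.n 2 (.l 1) (.l 1)) (.l 3))) (.n 0 (.n 1 (.l 1) (.n 1 (.n 1 (.l 1) (.l 3)) (.l 3))) (.n 1 (.l 1) (.l 3))))) (.n 0 (.n 0 (.n 1 (.n 2 (.l 1) (.l 2)) (.l 3)) (.n 1 (.n 1 (.l 1) (.l 3)) (.l 3))) (.l 3))) (.l 3)))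
    [(386547056640, 42949672960), (216466464768, 3435978752), (3126736191488, 240518168576)] rfl (by decide +kernel)
theorem c3_m0_t19 : CovD 0 progs [(386547056640, 42949672960), (137438953472, 27487830016), (3607772528640, 240518168576)] :=
  Pool.Agent.helper14.QF.covD_F chks_eq (.n 2 (.n 2 (.l 1) (.n 2 (.l 1) (.n 2 (.n 2 (.l 1) (.l 5)) (.l 5)))) (.l 5))
    [(386547056640, 42949672960), (137438953472, 27487830016), (3607772528640, 240518168576)] rfl (by decide +kernel)
end
mutual
theorem c3_m0_t20 : CovD 0 progs [(386547056640, 42949672960), (178670698496, 13743915008), (3607772528640, 240518168576)] :=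
  Pool.Agent.helper14.QF.covD_F chks_eq (.n 2 (.n 2 (.l 1) (.n 2 (.l 1) (.n 2 (.l 1) (.l 5)))) (.l 5))
    [(386547056640, 42949672960), (178670698496, 13743915008), (3607772528640, 240518168576)] rfl (by decide +kernel)
theorem c3_m0_t21 : CovD 0 progs [(365072220160, 21474836480), (206158528512, 13743915008), (3607772528640, 240518168576)] :=
  Pool.Agent.helper14.QF.covD_F chks_eq (.n 2 (.n 2 (.l 1) (.n 2 (.l 1) (.n 2 (.l 1) (.l 5)))) (.l 5))
    [(365072220160, 21474836480), (206158528512, 13743915008), (3607772528640, 240518168576)] rfl (by decide +kernel)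
end
mutual
theorem c3_m0_t22 : CovD 0 progs [(391915765760, 5368709120), (206158528512, 13743915008), (3607772528640, 240518168576)] :=
  Pool.Agent.helper14.QF.covD_F chks_eq (.n 2 (.n 2 (.n 0 (.l 2) (.n 1 (.l 1) (.n 1 (.l 1) (.n 1 (.l 1) (.n 1 (.l 2) (.l 3)))))) (.n 2 (.n 0 (.l 2) (.n 1 (.l 1) (.n 1 (.l 1) (.n 1 (.l 1) (.n 1 (.l 2) (.l 3)))))) (.n 2 (.n 0 (.l 2) (.n 1 (.l 1) (.n 1 (.l 1) (.n 1 (.l 1) (.n 1 (.l 2) (.l 3)))))) (.l 5)))) (.l 5))
    [(391915765760, 5368709120), (206158528512, 13743915008), (3607772528640, 240518168576)] rfl (by decide +kernel)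
theorem c3_m0_t23 : CovD 0 progs [(402653184000, 5368709120), (206158528512, 13743915008), (3607772528640, 240518168576)] :=
  Pool.Agent.helper14.QF.covD_F chks_eq (.n 2 (.n 2 (.n 1 (.l 1) (.n 1 (.l 1) (.n 0 (.n 1 (.n 0 (.l 2) (.n 1 (.l 1) (.l 3))) (.l 3)) (.l 3)))) (.n 2 (.n 1 (.l 1) (.n 1 (.l 1) (.n 0 (.n 1 (.n 0 (.l 2) (.n 1 (.l 1) (.l 3))) (.l 3)) (.l 3)))) (.n 2 (.n 1 (.l 1) (.n 1 (.l 1) (.n 0 (.n 1 (.n 0 (.l 2) (.n 1 (.l 1) (.l 3))) (.l 3)) (.l 3)))) (.l 5)))) (.l 5))
    [(402653184000, 5368709120), (206158528512, 13743915008), (3607772528640, 240518168576)] rfl (by decide +kernel)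
end
mutual
theorem c3_m0_t25 : CovD 0 progs [(418759311360, 10737418240), (199286571008, 6871957504), (3487513444352, 120259084288)] :=
  Pool.Agent.helper14.QF.covD_F chks_eq (.n 2 (.n 0 (.l 1) (.n 0 (.l 1) (.n 1 (.l 1) (.n 1 (.l 1) (.l 3))))) (.n 2 (.n 0 (.l 1) (.n 0 (.l 1) (.n 1 (.l 1) (.n 1 (.l 1) (.l 3))))) (.n 2 (.n 0 (.l 1) (.n 0 (.l 1) (.n 1 (.l 1) (.n 1 (.l 1) (.l 3))))) (.l 5))))
    [(418759311360, 10737418240), (199286571008, 6871957504), (3487513444352, 120259084288)] rfl (by decide +kernel)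
theorem c3_m0_t26 : CovD 0 progs [(418759311360, 10737418240), (213030486016, 6871957504), (3487513444352, 120259084288)] :=
  Pool.Agent.helper14.QF.covD_F chks_eq (.n 0 (.n 0 (.n 1 (.n 1 (.n 2 (.l 1) (.n 2 (.l 1) (.n 2 (.l 1) (.l 5)))) (.l 3)) (.l 3)) (.n 0 (.n 1 (.n 1 (.n 2 (.l 1) (.n 2 (.l 1) (.n 2 (.l 1) (.l 5)))) (.l 3)) (.l 3)) (.l 3))) (.l 3))
    [(418759311360, 10737418240), (213030486016, 6871957504), (3487513444352, 120259084288)] rfl (by decide +kernel)
end
mutual
theorem c3_m0_t28 : CovD 0 progs [(418759311360, 10737418240), (206158528512, 13743915008), (3728031612928, 120259084288)] :=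
  Pool.Agent.helper14.QF.covD_F chks_eq (.l 5)
    [(418759311360, 10737418240), (206158528512, 13743915008), (3728031612928, 120259084288)] rfl (by decide +kernel)
theorem c3_m0_t36 : CovD 0 progs [(450971566080, 21474836480), (164926783488, 54975660032), (2405181685760, 481036337152)] :=
  Pool.Agent.helper14.QF.covD_F chks_eq (.n 0 (.n 0 (.n 1 (.l 1) (.n 1 (.l 1) (.n 1 (.n 1 (.l 1) (.l 3)) (.l 3)))) (.n 1 (.l 1) (.n 1 (.l 1) (.n 1 (.n 1 (.n 1 (.l 1) (.l 3)) (.l 3)) (.l 3))))) (.n 1 (.l 1) (.n 1 (.n 0 (.n 1 (.l 1) (.l 1)) (.n 1 (.l 1) (.n 1 (.l 1) (.l 3)))) (.l 3))))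
    [(450971566080, 21474836480), (164926783488, 54975660032), (2405181685760, 481036337152)] rfl (by decide +kernel)
end
mutual
theorem c3_m0_t37 : CovD 0 progs [(450971566080, 21474836480), (164926783488, 54975660032), (3126736191488, 240518168576)] :=
  Pool.Agent.helper14.QF.covD_F chks_eq (.n 1 (.l 1) (.n 0 (.n 1 (.l 1) (.n 1 (.n 1 (.n 0 (.l 1) (.n 1 (.l 1) (.l 3))) (.l 3)) (.l 3))) (.n 1 (.n 0 (.l 1) (.n 1 (.l 1) (.n 1 (.l 1) (.l 3)))) (.l 3))))
    [(450971566080, 21474836480), (164926783488, 54975660032), (3126736191488, 240518168576)] rfl (by decide +kernel)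
theorem c3_m0_t38 : CovD 0 progs [(450971566080, 21474836480), (137438953472, 27487830016), (3487513444352, 120259084288)] :=
  Pool.Agent.helper14.QF.covD_F chks_eq (.n 2 (.l 1) (.n 2 (.l 1) (.n 2 (.l 1) (.l 5))))
    [(450971566080, 21474836480), (137438953472, 27487830016), (3487513444352, 120259084288)] rfl (by decide +kernel)
end
mutual
theorem c3_m0_t39 : CovD 0 progs [(450971566080, 21474836480), (178670698496, 13743915008), (3487513444352, 120259084288)] :=
  Pool.Agent.helper14.QF.covD_F chks_eq (.n 2 (.n 0 (.l 1) (.n 0 (.l 1) (.n 1 (.l 1) (.n 1 (.l 1) (.l 3))))) (.n 2 (.n 0 (.l 1) (.n 1 (.l 1) (.n 1 (.l 1) (.n 0 (.n 0 (.l 1) (.n 1 (.l 1) (.l 3))) (.l 3))))) (.n 2 (.n 0 (.l 1) (.n 1 (.l 1) (.n 1 (.l 1) (.n 0 (.n 0 (.l 1) (.n 1 (.l 1) (.l 3))) (.l 3))))) (.l 5))))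
    [(450971566080, 21474836480), (178670698496, 13743915008), (3487513444352, 120259084288)] rfl (by decide +kernel)
theorem c3_m0_t40 : CovD 0 progs [(450971566080, 21474836480), (206158528512, 13743915008), (3487513444352, 120259084288)] :=
  Pool.Agent.helper14.QF.covD_F chks_eq (.n 0 (.n 1 (.n 0 (.n 1 (.n 2 (.l 1) (.n 2 (.l 1) (.n 2 (.l 1) (.l 5)))) (.l 3)) (.n 1 (.n 1 (.n 2 (.l 1) (.n 2 (.l 1) (.n 2 (.l 1) (.l 5)))) (.l 3)) (.l 3))) (.l 3)) (.l 3))
    [(450971566080, 21474836480), (206158528512, 13743915008), (3487513444352, 120259084288)] rfl (by decide +kernel)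
end
mutual
theorem c3_m0_t43 : CovD 0 progs [(450971566080, 21474836480), (164926783488, 54975660032), (3728031612928, 120259084288)] :=
  Pool.Agent.helper14.QF.covD_F chks_eq (.l 5)
    [(450971566080, 21474836480), (164926783488, 54975660032), (3728031612928, 120259084288)] rfl (by decide +kernel)
theorem c3_m0_t47 : CovD 0 progs [(483183820800, 10737418240), (137438953472, 27487830016), (2886218022912, 962072674304)] :=
  Pool.Agent.helper14.QF.covD_F chks_eq (.n 2 (.l 1) (.n 2 (.l 1) (.n 2 (.n 2 (.l 1) (.n 2 (.l 1) (.n 2 (.l 1) (.l 5)))) (.l 5))))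
    [(483183820800, 10737418240), (137438953472, 27487830016), (2886218022912, 962072674304)] rfl (by decide +kernel)
end
mutual
theorem c3_m0_t48 : CovD 0 progs [(483183820800, 10737418240), (192414613504, 27487830016), (2886218022912, 962072674304)] :=
  Pool.Agent.helper14.QF.covD_F chks_eq (.n 1 (.n 1 (.n 2 (.l 1) (.n 2 (.l 1) (.n 2 (.n 2 (.l 1) (.n 2 (.l 1) (.n 2 (.l 1) (.l 5)))) (.l 5)))) (.n 0 (.n 1 (.n 1 (.n 2 (.l 1) (.n 2 (.l 1) (.n 2 (.n 2 (.l 1) (.n 2 (.l 1) (.n 2 (.l 1) (.l 5)))) (.l 5)))) (.l 3)) (.l 3)) (.l 3))) (.l 3))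
    [(483183820800, 10737418240), (192414613504, 27487830016), (2886218022912, 962072674304)] rfl (by decide +kernel)
theorem c3_m0_t50 : CovD 0 progs [(504658657280, 10737418240), (137438953472, 27487830016), (2886218022912, 962072674304)] :=
  Pool.Agent.helper14.QF.covD_F chks_eq (.n 2 (.l 1) (.n 2 (.l 1) (.n 2 (.n 2 (.l 1) (.n 2 (.l 1) (.n 2 (.l 1) (.l 5)))) (.l 5))))
    [(504658657280, 10737418240), (137438953472, 27487830016), (2886218022912, 962072674304)] rfl (by decide +kernel)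
end
mutual
theorem c3_m0_t51 : CovD 0 progs [(504658657280, 10737418240), (192414613504, 27487830016), (2886218022912, 962072674304)] :=
  Pool.Agent.helper14.QF.covD_F chks_eq (.n 1 (.n 1 (.n 1 (.n 2 (.l 1) (.n 2 (.l 1) (.n 2 (.n 2 (.l 1) (.n 2 (.l 1) (.n 2 (.l 1) (.l 5)))) (.l 5)))) (.n 1 (.n 0 (.n 2 (.l 1) (.n 2 (.l 1) (.n 2 (.n 2 (.l 1) (.n 2 (.l 1) (.n 2 (.l 1) (.l 5)))) (.l 5)))) (.l 3)) (.l 3))) (.l 3)) (.l 3))
    [(504658657280, 10737418240), (192414613504, 27487830016), (2886218022912, 962072674304)] rfl (by decide +kernel)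
theorem c3_m0_t56 : CovD 0 progs [(536870912000, 21474836480), (137438953472, 27487830016), (2405181685760, 481036337152)] :=
  Pool.Agent.helper14.QF.covD_F chks_eq (.n 1 (.l 1) (.n 1 (.l 1) (.n 2 (.l 1) (.l 1))))
    [(536870912000, 21474836480), (137438953472, 27487830016), (2405181685760, 481036337152)] rfl (by decide +kernel)
end
mutual
theorem c3_m0_t57 : CovD 0 progs [(536870912000, 21474836480), (137438953472, 27487830016), (3126736191488, 240518168576)] :=
  Pool.Agent.helper14.QF.covD_F chks_eq (.n 0 (.l 1) (.n 0 (.l 1) (.n 1 (.l 1) (.n 1 (.l 1) (.n 1 (.l 1) (.l 3))))))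
    [(536870912000, 21474836480), (137438953472, 27487830016), (3126736191488, 240518168576)] rfl (by decide +kernel)
theorem c3_m0_t58 : CovD 0 progs [(536870912000, 21474836480), (137438953472, 27487830016), (3607772528640, 240518168576)] :=
  Pool.Agent.helper14.QF.covD_F chks_eq (.n 2 (.n 1 (.n 2 (.l 1) (.n 2 (.l 1) (.n 2 (.l 1) (.l 5)))) (.n 0 (.n 2 (.l 1) (.n 2 (.l 1) (.n 2 (.l 1) (.l 5)))) (.n 0 (.n 2 (.l 1) (.n 2 (.l 1) (.n 2 (.l 1) (.l 5)))) (.n 1 (.n 2 (.l 1) (.n 2 (.l 1) (.n 2 (.l 1) (.l 5)))) (.n 1 (.n 2 (.l 1) (.n 2 (.l 1) (.n 2 (.l 1) (.l 5)))) (.l 3)))))) (.l 5))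
    [(536870912000, 21474836480), (137438953472, 27487830016), (3607772528640, 240518168576)] rfl (by decide +kernel)
end
mutual
theorem c3_m0_t61 : CovD 0 progs [(536870912000, 21474836480), (192414613504, 27487830016), (2886218022912, 962072674304)] :=
  Pool.Agent.helper14.QF.covD_F chks_eq (.n 0 (.n 0 (.n 1 (.n 1 (.n 1 (.n 1 (.n 2 (.l 1) (.n 2 (.l 1) (.n 2 (.n 2 (.l 1) (.n 2 (.l 1) (.n 2 (.l 1) (.l 5)))) (.l 5)))) (.l 3)) (.l 3)) (.l 3)) (.l 3)) (.l 3)) (.l 3))
    [(536870912000, 21474836480), (192414613504, 27487830016), (2886218022912, 962072674304)] rfl (by decide +kernel)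
theorem c3_m0_t63 : CovD 0 progs [(579820584960, 21474836480), (137438953472, 27487830016), (2405181685760, 481036337152)] :=
  Pool.Agent.helper14.QF.covD_F chks_eq (.n 1 (.l 1) (.n 1 (.l 1) (.n 0 (.n 1 (.l 1) (.l 3)) (.l 3))))
    [(579820584960, 21474836480), (137438953472, 27487830016), (2405181685760, 481036337152)] rfl (by decide +kernel)
end
mutual
theorem c3_m0_t64 : CovD 0 progs [(579820584960, 21474836480), (137438953472, 27487830016), (3367254360064, 481036337152)] :=
  Pool.Agent.helper14.QF.covD_F chks_eq (.n 2 (.n 1 (.l 1) (.n 1 (.l 1) (.n 0 (.n 0 (.n 1 (.l 1) (.l 3)) (.l 3)) (.l 3)))) (.n 2 (.n 1 (.n 2 (.l 1) (.n 2 (.l 1) (.n 2 (.l 1) (.n 1 (.l 5) (.l 5))))) (.n 0 (.n 1 (.n 2 (.l 1) (.n 2 (.l 1) (.n 2 (.l 1) (.l 5)))) (.n 0 (.n 1 (.l 1) (.l 3)) (.l 3))) (.n 1 (.l 1) (.l 3)))) (.l 5)))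
    [(579820584960, 21474836480), (137438953472, 27487830016), (3367254360064, 481036337152)] rfl (by decide +kernel)
theorem c3_m0_t66 : CovD 0 progs [(579820584960, 21474836480), (192414613504, 27487830016), (2886218022912, 962072674304)] :=
  Pool.Agent.helper14.QF.covD_F chks_eq (.l 3)
    [(579820584960, 21474836480), (192414613504, 27487830016), (2886218022912, 962072674304)] rfl (by decide +kernel)
end
mutual
theorem c3_m0_t69 : CovD 0 progs [(622770257920, 21474836480), (164926783488, 54975660032), (2886218022912, 962072674304)] :=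
  Pool.Agent.helper14.QF.covD_F chks_eq (.n 1 (.n 1 (.n 2 (.l 1) (.n 2 (.l 1) (.n 2 (.n 0 (.n 1 (.n 2 (.l 1) (.n 2 (.l 1) (.n 2 (.l 1) (.l 5)))) (.l 1)) (.l 1)) (.l 5)))) (.n 1 (.n 0 (.n 1 (.n 2 (.l 1) (.n 2 (.l 1) (.n 2 (.l 1) (.l 5)))) (.l 3)) (.n 0 (.l 3) (.l 3))) (.l 3))) (.l 3))
    [(622770257920, 21474836480), (164926783488, 54975660032), (2886218022912, 962072674304)] rfl (by decide +kernel)
theorem c3_m0_t70 : CovD 0 progs [(665719930880, 21474836480), (164926783488, 54975660032), (2886218022912, 962072674304)] :=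
  Pool.Agent.helper14.QF.covD_F chks_eq (.n 1 (.n 1 (.n 2 (.n 0 (.l 1) (.n 1 (.l 1) (.n 1 (.l 1) (.l 3)))) (.n 2 (.n 0 (.l 1) (.n 1 (.l 1) (.n 1 (.l 1) (.l 3)))) (.n 2 (.n 0 (.l 1) (.n 1 (.l 1) (.n 1 (.l 1) (.l 3)))) (.l 5)))) (.l 3)) (.l 3))
    [(665719930880, 21474836480), (164926783488, 54975660032), (2886218022912, 962072674304)] rfl (by decide +kernel)
end
mutual
theorem c4_m0_t0 : CovD 0 progs [(773094113280, 85899345920), (54975594496, 54975594496), (962072674304, 962072674304)] :=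
  Pool.Agent.helper14.QF.covD_F chks_eq (.n 0 (.n 2 (.l 1) (.n 0 (.l 1) (.l 1))) (.n 0 (.n 2 (.l 1) (.l 1)) (.n 0 (.n 2 (.l 1) (.l 1)) (.n 1 (.l 0) (.n 1 (.l 1) (.n 1 (.l 1) (.n 1 (.l 1) (.l 3))))))))
    [(773094113280, 85899345920), (54975594496, 54975594496), (962072674304, 962072674304)] rfl (by decide +kernel)
theorem c4_m0_t1 : CovD 0 progs [(944892805120, 85899345920), (54975594496, 54975594496), (962072674304, 962072674304)] :=
  Pool.Agent.helper14.QF.covD_F chks_eq (.n 0 (.n 0 (.n 1 (.l 0) (.n 1 (.l 1) (.n 1 (.l 1) (.n 1 (.l 1) (.l 3))))) (.n 1 (.l 0) (.n 1 (.l 1) (.n 1 (.l 1) (.l 3))))) (.n 1 (.l 0) (.n 1 (.l 1) (.n 1 (.n 1 (.l 1) (.n 1 (.n 0 (.l 1) (.l 3)) (.l 3))) (.l 3)))))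
    [(944892805120, 85899345920), (54975594496, 54975594496), (962072674304, 962072674304)] rfl (by decide +kernel)
end
mutual
theorem c4_m0_t3 : CovD 0 progs [(1116691496960, 85899345920), (54975594496, 54975594496), (962072674304, 962072674304)] :=
  Pool.Agent.helper14.QF.covD_F chks_eq (.n 0 (.n 0 (.n 1 (.l 0) (.n 1 (.l 1) (.n 1 (.n 1 (.n 1 (.l 1) (.l 3)) (.l 3)) (.l 3)))) (.n 1 (.l 0) (.n 1 (.n 0 (.l 1) (.n 1 (.l 1) (.l 1))) (.l 3)))) (.n 1 (.l 1) (.n 1 (.n 1 (.l 1) (.n 1 (.l 1) (.n 1 (.n 0 (.l 1) (.l 3)) (.l 3)))) (.l 3))))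
    [(1116691496960, 85899345920), (54975594496, 54975594496), (962072674304, 962072674304)] rfl (by decide +kernel)
theorem c4_m0_t4 : CovD 0 progs [(1245540515840, 42949672960), (54975594496, 54975594496), (962072674304, 962072674304)] :=
  Pool.Agent.helper14.QF.covD_F chks_eq (.n 1 (.l 1) (.n 1 (.n 1 (.l 1) (.n 1 (.n 1 (.n 0 (.l 1) (.l 3)) (.l 3)) (.l 3))) (.l 3)))
    [(1245540515840, 42949672960), (54975594496, 54975594496), (962072674304, 962072674304)] rfl (by decide +kernel)
theorem c4_m0_t5 : CovD 0 progs [(1331439861760, 42949672960), (54975594496, 54975594496), (962072674304, 962072674304)] :=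
  Pool.Agent.helper14.QF.covD_F chks_eq (.n 0 (.n 1 (.l 1) (.n 1 (.n 0 (.n 1 (.l 1) (.l 3)) (.n 1 (.n 1 (.l 1) (.n 1 (.l 1) (.n 1 (.l 1) (.l 3)))) (.l 3))) (.l 3))) (.n 1 (.n 0 (.l 1) (.l 1)) (.n 1 (.n 1 (.n 1 (.l 1) (.n 1 (.n 1 (.l 1) (.n 0 (.l 1) (.l 3))) (.l 3))) (.l 3)) (.l 3))))
    [(1331439861760, 42949672960), (54975594496, 54975594496), (962072674304, 962072674304)] rfl (by decide +kernel)
end

theorem c3_m0_t6 : CovD 0 progs [(408021893120, 21474836480), (206158528512, 13743915008), (2405181685760, 481036337152)] :=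
  covD_split 0 (by decide +kernel) c3_m0_t4 c3_m0_t5
theorem c3_m0_t7 : CovD 0 progs [(386547056640, 42949672960), (206158528512, 13743915008), (2405181685760, 481036337152)] :=
  covD_split 0 (by decide +kernel) c3_m0_t3 c3_m0_t6
theorem c3_m0_t8 : CovD 0 progs [(386547056640, 42949672960), (192414613504, 27487830016), (2405181685760, 481036337152)] :=
  covD_split 1 (by decide +kernel) c3_m0_t2 c3_m0_t7
theorem c3_m0_t9 : CovD 0 progs [(386547056640, 42949672960), (164926783488, 54975660032), (2405181685760, 481036337152)] :=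
  covD_split 1 (by decide +kernel) c3_m0_t1 c3_m0_t8
theorem c3_m0_t15 : CovD 0 progs [(386547056640, 42949672960), (213030486016, 6871957504), (3126736191488, 240518168576)] :=
  covD_split 1 (by decide +kernel) c3_m0_t13 c3_m0_t14
theorem c3_m0_t16 : CovD 0 progs [(386547056640, 42949672960), (206158528512, 13743915008), (3126736191488, 240518168576)] :=
  covD_split 1 (by decide +kernel) c3_m0_t12 c3_m0_t15
theorem c3_m0_t17 : CovD 0 progs [(386547056640, 42949672960), (192414613504, 27487830016), (3126736191488, 240518168576)] :=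
  covD_split 1 (by decide +kernel) c3_m0_t11 c3_m0_t16
theorem c3_m0_t18 : CovD 0 progs [(386547056640, 42949672960), (164926783488, 54975660032), (3126736191488, 240518168576)] :=
  covD_split 1 (by decide +kernel) c3_m0_t10 c3_m0_t17
theorem c3_m0_t24 : CovD 0 progs [(397284474880, 10737418240), (206158528512, 13743915008), (3607772528640, 240518168576)] :=
  covD_split 0 (by decide +kernel) c3_m0_t22 c3_m0_t23
theorem c3_m0_t27 : CovD 0 progs [(418759311360, 10737418240), (206158528512, 13743915008), (3487513444352, 120259084288)] :=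
  covD_split 1 (by decide +kernel) c3_m0_t25 c3_m0_t26
theorem c3_m0_t29 : CovD 0 progs [(418759311360, 10737418240), (206158528512, 13743915008), (3607772528640, 240518168576)] :=
  covD_split 2 (by decide +kernel) c3_m0_t27 c3_m0_t28
theorem c3_m0_t30 : CovD 0 progs [(408021893120, 21474836480), (206158528512, 13743915008), (3607772528640, 240518168576)] :=
  covD_split 0 (by decide +kernel) c3_m0_t24 c3_m0_t29
theorem c3_m0_t31 : CovD 0 progs [(386547056640, 42949672960), (206158528512, 13743915008), (3607772528640, 240518168576)] :=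
  covD_split 0 (by decide +kernel) c3_m0_t21 c3_m0_t30
theorem c3_m0_t32 : CovD 0 progs [(386547056640, 42949672960), (192414613504, 27487830016), (3607772528640, 240518168576)] :=
  covD_split 1 (by decide +kernel) c3_m0_t20 c3_m0_t31
theorem c3_m0_t33 : CovD 0 progs [(386547056640, 42949672960), (164926783488, 54975660032), (3607772528640, 240518168576)] :=
  covD_split 1 (by decide +kernel) c3_m0_t19 c3_m0_t32
theorem c3_m0_t34 : CovD 0 progs [(386547056640, 42949672960), (164926783488, 54975660032), (3367254360064, 481036337152)] :=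
  covD_split 2 (by decide +kernel) c3_m0_t18 c3_m0_t33
theorem c3_m0_t35 : CovD 0 progs [(386547056640, 42949672960), (164926783488, 54975660032), (2886218022912, 962072674304)] :=
  covD_split 2 (by decide +kernel) c3_m0_t9 c3_m0_t34
theorem c3_m0_t41 : CovD 0 progs [(450971566080, 21474836480), (192414613504, 27487830016), (3487513444352, 120259084288)] :=
  covD_split 1 (by decide +kernel) c3_m0_t39 c3_m0_t40
theorem c3_m0_t42 : CovD 0 progs [(450971566080, 21474836480), (164926783488, 54975660032), (3487513444352, 120259084288)] :=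
  covD_split 1 (by decide +kernel) c3_m0_t38 c3_m0_t41
theorem c3_m0_t44 : CovD 0 progs [(450971566080, 21474836480), (164926783488, 54975660032), (3607772528640, 240518168576)] :=
  covD_split 2 (by decide +kernel) c3_m0_t42 c3_m0_t43
theorem c3_m0_t45 : CovD 0 progs [(450971566080, 21474836480), (164926783488, 54975660032), (3367254360064, 481036337152)] :=
  covD_split 2 (by decide +kernel) c3_m0_t37 c3_m0_t44
theorem c3_m0_t46 : CovD 0 progs [(450971566080, 21474836480), (164926783488, 54975660032), (2886218022912, 962072674304)] :=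
  covD_split 2 (by decide +kernel) c3_m0_t36 c3_m0_t45
theorem c3_m0_t49 : CovD 0 progs [(483183820800, 10737418240), (164926783488, 54975660032), (2886218022912, 962072674304)] :=
  covD_split 1 (by decide +kernel) c3_m0_t47 c3_m0_t48
theorem c3_m0_t52 : CovD 0 progs [(504658657280, 10737418240), (164926783488, 54975660032), (2886218022912, 962072674304)] :=
  covD_split 1 (by decide +kernel) c3_m0_t50 c3_m0_t51
theorem c3_m0_t53 : CovD 0 progs [(493921239040, 21474836480), (164926783488, 54975660032), (2886218022912, 962072674304)] :=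
  covD_split 0 (by decide +kernel) c3_m0_t49 c3_m0_t52
theorem c3_m0_t54 : CovD 0 progs [(472446402560, 42949672960), (164926783488, 54975660032), (2886218022912, 962072674304)] :=
  covD_split 0 (by decide +kernel) c3_m0_t46 c3_m0_t53
theorem c3_m0_t55 : CovD 0 progs [(429496729600, 85899345920), (164926783488, 54975660032), (2886218022912, 962072674304)] :=
  covD_split 0 (by decide +kernel) c3_m0_t35 c3_m0_t54
theorem c3_m0_t59 : CovD 0 progs [(536870912000, 21474836480), (137438953472, 27487830016), (3367254360064, 481036337152)] :=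
  covD_split 2 (by decide +kernel) c3_m0_t57 c3_m0_t58
theorem c3_m0_t60 : CovD 0 progs [(536870912000, 21474836480), (137438953472, 27487830016), (2886218022912, 962072674304)] :=
  covD_split 2 (by decide +kernel) c3_m0_t56 c3_m0_t59
theorem c3_m0_t62 : CovD 0 progs [(536870912000, 21474836480), (164926783488, 54975660032), (2886218022912, 962072674304)] :=
  covD_split 1 (by decide +kernel) c3_m0_t60 c3_m0_t61
theorem c3_m0_t65 : CovD 0 progs [(579820584960, 21474836480), (137438953472, 27487830016), (2886218022912, 962072674304)] :=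
  covD_split 2 (by decide +kernel) c3_m0_t63 c3_m0_t64
theorem c3_m0_t67 : CovD 0 progs [(579820584960, 21474836480), (164926783488, 54975660032), (2886218022912, 962072674304)] :=
  covD_split 1 (by decide +kernel) c3_m0_t65 c3_m0_t66
theorem c3_m0_t68 : CovD 0 progs [(558345748480, 42949672960), (164926783488, 54975660032), (2886218022912, 962072674304)] :=
  covD_split 0 (by decide +kernel) c3_m0_t62 c3_m0_t67
theorem c3_m0_t71 : CovD 0 progs [(644245094400, 42949672960), (164926783488, 54975660032), (2886218022912, 962072674304)] :=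
  covD_split 0 (by decide +kernel) c3_m0_t69 c3_m0_t70
theorem c3_m0_t72 : CovD 0 progs [(601295421440, 85899345920), (164926783488, 54975660032), (2886218022912, 962072674304)] :=
  covD_split 0 (by decide +kernel) c3_m0_t68 c3_m0_t71
theorem c3_m0_t73 : CovD 0 progs [(515396075520, 171798691840), (164926783488, 54975660032), (2886218022912, 962072674304)] :=
  covD_split 0 (by decide +kernel) c3_m0_t55 c3_m0_t72
theorem c3_m0 : CovD 0 progs [(343597383680, 343597383680), (164926783488, 54975660032), (2886218022912, 962072674304)] :=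
  covD_split 0 (by decide +kernel) c3_m0_t0 c3_m0_t73
theorem c4_m0_t2 : CovD 0 progs [(858993459200, 171798691840), (54975594496, 54975594496), (962072674304, 962072674304)] :=
  covD_split 0 (by decide +kernel) c4_m0_t0 c4_m0_t1
theorem c4_m0_t6 : CovD 0 progs [(1288490188800, 85899345920), (54975594496, 54975594496), (962072674304, 962072674304)] :=
  covD_split 0 (by decide +kernel) c4_m0_t4 c4_m0_t5
theorem c4_m0_t7 : CovD 0 progs [(1202590842880, 171798691840), (54975594496, 54975594496), (962072674304, 962072674304)] :=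
  covD_split 0 (by decide +kernel) c4_m0_t3 c4_m0_t6
theorem c4_m0 : CovD 0 progs [(1030792151040, 343597383680), (54975594496, 54975594496), (962072674304, 962072674304)] :=
  covD_split 0 (by decide +kernel) c4_m0_t2 c4_m0_t7

end Pool.Agent.helper31.EQB.Cert.LB1
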