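import Pool.Agent.helper31.EQB.Cert.LB1P

/-!
Generated certificates.
-/

namespace Pool.Agent.helper31.EQB.Cert.LB1

open Pool.Agent.helper31.IA (Z Op)
open Pool.Agent.helper31.IC

mutual
theorem c5_m0_t0 : CovD 0 progs [(773094113280, 85899345920), (27487797248, 27487797248), (2886218022912, 962072674304)] :=
  Pool.Agent.helper14.QF.covD_F chks_eq (.n 2 (.l 0) (.n 2 (.l 0) (.n 2 (.n 2 (.l 0) (.n 2 (.l 0) (.n 1 (.n 2 (.n 2 (.n 1 (.l 5) (.l 0)) (.l 5)) (.l 5)) (.n 2 (.n 1 (.n 0 (.n 2 (.l 0) (.l 5)) (.l 1)) (.l 0)) (.l 5))))) (.l 5))))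
    [(773094113280, 85899345920), (27487797248, 27487797248), (2886218022912, 962072674304)] rfl (by decide +kernel)
theorem c5_m0_t1 : CovD 0 progs [(773094113280, 85899345920), (82463391744, 27487797248), (2405181685760, 481036337152)] :=
  Pool.Agent.helper14.QF.covD_F chks_eq (.n 0 (.l 1) (.n 0 (.l 1) (.n 0 (.l 1) (.n 1 (.l 1) (.n 1 (.l 1) (.n 1 (.l 1) (.l 3)))))))
    [(773094113280, 85899345920), (82463391744, 27487797248), (2405181685760, 481036337152)] rfl (by decide +kernel)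
end
mutual
theorem c5_m0_t2 : CovD 0 progs [(773094113280, 85899345920), (82463391744, 27487797248), (3126736191488, 240518168576)] :=
  Pool.Agent.helper14.QF.covD_F chks_eq (.n 0 (.l 1) (.n 0 (.l 1) (.n 0 (.l 1) (.n 1 (.l 1) (.n 1 (.l 1) (.n 1 (.l 1) (.l 3)))))))
    [(773094113280, 85899345920), (82463391744, 27487797248), (3126736191488, 240518168576)] rfl (by decide +kernel)
theorem c5_m0_t3 : CovD 0 progs [(773094113280, 85899345920), (82463391744, 27487797248), (3607772528640, 240518168576)] :=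
  Pool.Agent.helper14.QF.covD_F chks_eq (.n 2 (.n 0 (.n 2 (.l 1) (.n 2 (.l 1) (.n 2 (.l 1) (.n 2 (.n 0 (.n 1 (.l 5) (.l 1)) (.l 1)) (.n 1 (.l 5) (.l 5)))))) (.n 1 (.n 2 (.l 1) (.n 2 (.l 1) (.n 2 (.l 1) (.n 2 (.l 1) (.l 5))))) (.n 0 (.l 1) (.n 0 (.l 1) (.n 1 (.l 1) (.n 1 (.l 1) (.l 3))))))) (.l 5))
    [(773094113280, 85899345920), (82463391744, 27487797248), (3607772528640, 240518168576)] rfl (by decide +kernel)
end
mutual
theorem c5_m0_t7 : CovD 0 progs [(901943132160, 42949672960), (27487797248, 27487797248), (2886218022912, 962072674304)] :=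
  Pool.Agent.helper14.QF.covD_F chks_eq (.n 1 (.n 2 (.l 0) (.n 2 (.l 0) (.n 2 (.n 2 (.l 0) (.n 2 (.l 0) (.n 1 (.l 5) (.n 2 (.n 2 (.l 0) (.l 5)) (.l 5))))) (.l 5)))) (.n 2 (.l 0) (.n 2 (.l 0) (.n 2 (.n 2 (.l 0) (.n 2 (.l 0) (.n 2 (.l 1) (.n 1 (.l 5) (.n 2 (.l 1) (.l 5)))))) (.l 5)))))
    [(901943132160, 42949672960), (27487797248, 27487797248), (2886218022912, 962072674304)] rfl (by decide +kernel)
theorem c5_m0_t8 : CovD 0 progs [(901943132160, 42949672960), (82463391744, 27487797248), (2886218022912, 962072674304)] :=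
  Pool.Agent.helper14.QF.covD_F chks_eq (.n 1 (.n 2 (.l 1) (.n 2 (.l 1) (.n 2 (.n 1 (.n 2 (.l 0) (.n 2 (.l 0) (.n 2 (.l 1) (.n 2 (.l 1) (.l 5))))) (.l 1)) (.l 5)))) (.n 1 (.n 2 (.l 1) (.n 2 (.l 1) (.n 2 (.l 1) (.l 5)))) (.n 0 (.n 1 (.n 1 (.n 2 (.l 1) (.n 2 (.l 1) (.n 2 (.l 1) (.l 5)))) (.l 3)) (.l 3)) (.l 3))))
    [(901943132160, 42949672960), (82463391744, 27487797248), (2886218022912, 962072674304)] rfl (by decide +kernel)
end
mutual
theorem c5_m0_t10 : CovD 0 progs [(987842478080, 42949672960), (27487797248, 27487797248), (2886218022912, 962072674304)] :=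
  Pool.Agent.helper14.QF.covD_F chks_eq (.n 1 (.n 2 (.l 0) (.n 2 (.l 0) (.n 2 (.n 2 (.l 0) (.n 2 (.l 0) (.n 1 (.l 5) (.n 2 (.n 2 (.l 0) (.l 5)) (.l 5))))) (.l 5)))) (.n 2 (.l 0) (.n 2 (.l 0) (.n 2 (.n 2 (.l 0) (.n 2 (.l 0) (.n 2 (.l 1) (.n 1 (.l 5) (.n 2 (.l 1) (.l 5)))))) (.l 5)))))
    [(987842478080, 42949672960), (27487797248, 27487797248), (2886218022912, 962072674304)] rfl (by decide +kernel)
theorem c5_m0_t11 : CovD 0 progs [(966367641600, 21474836480), (82463391744, 27487797248), (2886218022912, 962072674304)] :=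
  Pool.Agent.helper14.QF.covD_F chks_eq (.n 1 (.n 2 (.l 1) (.n 2 (.l 1) (.n 2 (.l 1) (.l 5)))) (.n 1 (.n 2 (.n 1 (.l 1) (.n 1 (.l 1) (.l 3))) (.n 2 (.n 1 (.l 1) (.n 1 (.l 1) (.l 3))) (.n 2 (.n 1 (.l 1) (.n 1 (.l 1) (.l 3))) (.l 5)))) (.l 3)))
    [(966367641600, 21474836480), (82463391744, 27487797248), (2886218022912, 962072674304)] rfl (by decide +kernel)
end
mutual
theorem c5_m0_t12 : CovD 0 progs [(1009317314560, 21474836480), (82463391744, 27487797248), (2886218022912, 962072674304)] :=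
  Pool.Agent.helper14.QF.covD_F chks_eq (.n 1 (.n 2 (.l 1) (.n 2 (.l 1) (.n 2 (.l 1) (.l 5)))) (.n 1 (.n 1 (.n 0 (.n 2 (.l 1) (.n 2 (.l 1) (.n 2 (.l 1) (.l 5)))) (.n 1 (.n 2 (.l 1) (.n 2 (.l 1) (.n 2 (.l 1) (.l 5)))) (.l 3))) (.l 3)) (.l 3)))
    [(1009317314560, 21474836480), (82463391744, 27487797248), (2886218022912, 962072674304)] rfl (by decide +kernel)
theorem c5_m0_t17 : CovD 0 progs [(1073741824000, 42949672960), (13743898624, 13743898624), (2886218022912, 962072674304)] :=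
  Pool.Agent.helper14.QF.covD_F chks_eq (.n 2 (.l 0) (.n 2 (.l 0) (.n 2 (.n 1 (.n 2 (.l 0) (.n 2 (.l 0) (.n 1 (.l 5) (.l 5)))) (.n 2 (.l 0) (.n 2 (.l 0) (.n 2 (.n 1 (.n 2 (.l 0) (.l 5)) (.l 1)) (.l 5))))) (.l 5))))
    [(1073741824000, 42949672960), (13743898624, 13743898624), (2886218022912, 962072674304)] rfl (by decide +kernel)
end
mutual
theorem c5_m0_t18 : CovD 0 progs [(1073741824000, 42949672960), (41231695872, 13743898624), (2886218022912, 962072674304)] :=
  Pool.Agent.helper14.QF.covD_F chks_eq (.n 2 (.l 0) (.n 2 (.l 0) (.n 2 (.n 2 (.l 0) (.n 2 (.l 0) (.n 2 (.l 1) (.n 1 (.n 1 (.l 5) (.n 2 (.l 1) (.l 5))) (.n 1 (.n 2 (.l 1) (.l 5)) (.l 1)))))) (.l 5))))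
    [(1073741824000, 42949672960), (41231695872, 13743898624), (2886218022912, 962072674304)] rfl (by decide +kernel)
theorem c5_m0_t20 : CovD 0 progs [(1073741824000, 42949672960), (68719493120, 13743898624), (2886218022912, 962072674304)] :=
  Pool.Agent.helper14.QF.covD_F chks_eq (.n 2 (.n 0 (.l 1) (.n 0 (.l 1) (.n 1 (.l 1) (.n 1 (.l 1) (.n 1 (.l 1) (.l 3)))))) (.n 2 (.n 0 (.l 1) (.n 0 (.l 1) (.n 1 (.l 1) (.n 1 (.l 1) (.n 1 (.l 1) (.l 3)))))) (.n 2 (.n 0 (.l 1) (.n 0 (.l 1) (.n 1 (.l 1) (.n 1 (.l 1) (.n 1 (.l 1) (.l 3)))))) (.l 5))))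
    [(1073741824000, 42949672960), (68719493120, 13743898624), (2886218022912, 962072674304)] rfl (by decide +kernel)
end
mutual
theorem c5_m0_t21 : CovD 0 progs [(1073741824000, 42949672960), (96207290368, 13743898624), (2886218022912, 962072674304)] :=
  Pool.Agent.helper14.QF.covD_F chks_eq (.n 0 (.n 0 (.n 1 (.n 1 (.n 1 (.n 2 (.l 1) (.n 2 (.l 1) (.n 2 (.l 1) (.l 5)))) (.l 3)) (.l 3)) (.l 3)) (.l 3)) (.l 3))
    [(1073741824000, 42949672960), (96207290368, 13743898624), (2886218022912, 962072674304)] rfl (by decide +kernel)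
theorem c5_m0_t24 : CovD 0 progs [(1138166333440, 21474836480), (27487797248, 27487797248), (2886218022912, 962072674304)] :=
  Pool.Agent.helper14.QF.covD_F chks_eq (.n 2 (.l 1) (.n 2 (.l 0) (.n 2 (.n 2 (.l 0) (.n 2 (.l 1) (.n 1 (.n 1 (.n 2 (.n 1 (.l 5) (.n 2 (.l 1) (.l 5))) (.l 5)) (.n 2 (.n 1 (.n 2 (.l 0) (.l 5)) (.l 1)) (.l 5))) (.n 2 (.l 1) (.n 1 (.n 1 (.l 5) (.n 2 (.l 1) (.l 5))) (.n 1 (.n 2 (.l 1) (.l 5)) (.l 1))))))) (.n 1 (.l 5) (.l 5)))))
    [(1138166333440, 21474836480), (27487797248, 27487797248), (2886218022912, 962072674304)] rfl (by decide +kernel)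
end
mutual
theorem c5_m0_t25 : CovD 0 progs [(1138166333440, 21474836480), (82463391744, 27487797248), (2886218022912, 962072674304)] :=
  Pool.Agent.helper14.QF.covD_F chks_eq (.n 1 (.n 2 (.n 1 (.l 1) (.n 1 (.l 1) (.n 0 (.n 1 (.l 1) (.l 3)) (.l 3)))) (.n 2 (.n 1 (.l 1) (.n 1 (.l 1) (.n 0 (.n 1 (.l 1) (.l 3)) (.l 3)))) (.n 2 (.n 1 (.l 1) (.n 1 (.l 1) (.n 0 (.n 1 (.l 1) (.l 3)) (.l 3)))) (.l 5)))) (.l 3))
    [(1138166333440, 21474836480), (82463391744, 27487797248), (2886218022912, 962072674304)] rfl (by decide +kernel)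
theorem c5_m0_t27 : CovD 0 progs [(1181116006400, 21474836480), (27487797248, 27487797248), (2886218022912, 962072674304)] :=
  Pool.Agent.helper14.QF.covD_F chks_eq (.n 2 (.l 1) (.n 2 (.l 1) (.n 2 (.n 2 (.l 1) (.n 2 (.l 1) (.n 1 (.n 1 (.n 2 (.n 1 (.l 5) (.n 2 (.l 1) (.l 5))) (.l 5)) (.n 2 (.n 1 (.n 2 (.l 0) (.l 5)) (.l 1)) (.l 5))) (.n 1 (.n 2 (.l 1) (.n 2 (.n 1 (.n 1 (.l 5) (.l 1)) (.l 1)) (.l 5))) (.n 1 (.n 2 (.l 1) (.n 2 (.l 1) (.l 5))) (.l 1)))))) (.n 1 (.l 5) (.l 5)))))
    [(1181116006400, 21474836480), (27487797248, 27487797248), (2886218022912, 962072674304)] rfl (by decide +kernel)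
end
mutual
theorem c5_m0_t28 : CovD 0 progs [(1181116006400, 21474836480), (82463391744, 27487797248), (2886218022912, 962072674304)] :=
  Pool.Agent.helper14.QF.covD_F chks_eq (.n 1 (.n 1 (.n 2 (.l 1) (.n 2 (.l 1) (.n 2 (.l 1) (.l 5)))) (.n 1 (.n 1 (.n 2 (.l 1) (.n 2 (.l 1) (.n 2 (.l 1) (.l 5)))) (.n 1 (.n 2 (.l 1) (.n 2 (.l 1) (.n 2 (.l 1) (.l 5)))) (.l 3))) (.l 3))) (.l 3))
    [(1181116006400, 21474836480), (82463391744, 27487797248), (2886218022912, 962072674304)] rfl (by decide +kernel)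
theorem c5_m0_t32 : CovD 0 progs [(1245540515840, 42949672960), (27487797248, 27487797248), (2405181685760, 481036337152)] :=
  Pool.Agent.helper14.QF.covD_F chks_eq (.l 1)
    [(1245540515840, 42949672960), (27487797248, 27487797248), (2405181685760, 481036337152)] rfl (by decide +kernel)
end
mutual
theorem c5_m0_t33 : CovD 0 progs [(1245540515840, 42949672960), (27487797248, 27487797248), (3126736191488, 240518168576)] :=
  Pool.Agent.helper14.QF.covD_F chks_eq (.l 1)
    [(1245540515840, 42949672960), (27487797248, 27487797248), (3126736191488, 240518168576)] rfl (by decide +kernel)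
theorem c5_m0_t34 : CovD 0 progs [(1245540515840, 42949672960), (27487797248, 27487797248), (3427383902208, 60129542144)] :=
  Pool.Agent.helper14.QF.covD_F chks_eq (.l 1)
    [(1245540515840, 42949672960), (27487797248, 27487797248), (3427383902208, 60129542144)] rfl (by decide +kernel)
end
mutual
theorem c5_m0_t35 : CovD 0 progs [(1245540515840, 42949672960), (13743898624, 13743898624), (3547642986496, 60129542144)] :=
  Pool.Agent.helper14.QF.covD_F chks_eq (.n 1 (.n 2 (.l 0) (.n 2 (.n 1 (.l 5) (.n 2 (.l 1) (.l 5))) (.l 5))) (.n 1 (.n 2 (.l 0) (.n 2 (.n 2 (.l 1) (.n 2 (.l 1) (.l 5))) (.l 5))) (.n 2 (.l 0) (.n 2 (.l 1) (.l 5)))))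
    [(1245540515840, 42949672960), (13743898624, 13743898624), (3547642986496, 60129542144)] rfl (by decide +kernel)
theorem c5_m0_t36 : CovD 0 progs [(1245540515840, 42949672960), (41231695872, 13743898624), (3547642986496, 60129542144)] :=
  Pool.Agent.helper14.QF.covD_F chks_eq (.n 1 (.n 1 (.n 2 (.l 1) (.n 2 (.l 1) (.n 2 (.n 2 (.l 1) (.n 1 (.l 5) (.n 1 (.l 5) (.l 1)))) (.l 5)))) (.n 2 (.l 1) (.n 2 (.l 1) (.n 2 (.l 1) (.l 5))))) (.n 1 (.n 2 (.l 1) (.n 2 (.l 1) (.n 2 (.l 1) (.n 2 (.l 1) (.l 5))))) (.l 1)))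
    [(1245540515840, 42949672960), (41231695872, 13743898624), (3547642986496, 60129542144)] rfl (by decide +kernel)
end
mutual
theorem c5_m0_t39 : CovD 0 progs [(1245540515840, 42949672960), (27487797248, 27487797248), (3728031612928, 120259084288)] :=
  Pool.Agent.helper14.QF.covD_F chks_eq (.n 1 (.l 5) (.n 0 (.l 5) (.l 5)))
    [(1245540515840, 42949672960), (27487797248, 27487797248), (3728031612928, 120259084288)] rfl (by decide +kernel)
theorem c5_m0_t43 : CovD 0 progs [(1245540515840, 42949672960), (82463391744, 27487797248), (2886218022912, 962072674304)] :=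
  Pool.Agent.helper14.QF.covD_F chks_eq (.n 1 (.n 1 (.n 2 (.l 1) (.n 2 (.l 1) (.n 2 (.l 1) (.l 5)))) (.n 1 (.n 1 (.n 0 (.n 2 (.l 1) (.n 2 (.l 1) (.n 2 (.l 1) (.l 5)))) (.l 3)) (.l 3)) (.l 3))) (.l 3))
    [(1245540515840, 42949672960), (82463391744, 27487797248), (2886218022912, 962072674304)] rfl (by decide +kernel)
end
mutual
theorem c5_m0_t45 : CovD 0 progs [(1309965025280, 21474836480), (27487797248, 27487797248), (2405181685760, 481036337152)] :=
  Pool.Agent.helper14.QF.covD_F chks_eq (.l 1)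
    [(1309965025280, 21474836480), (27487797248, 27487797248), (2405181685760, 481036337152)] rfl (by decide +kernel)
theorem c5_m0_t46 : CovD 0 progs [(1309965025280, 21474836480), (27487797248, 27487797248), (3126736191488, 240518168576)] :=
  Pool.Agent.helper14.QF.covD_F chks_eq (.l 1)
    [(1309965025280, 21474836480), (27487797248, 27487797248), (3126736191488, 240518168576)] rfl (by decide +kernel)
end
mutual
theorem c5_m0_t47 : CovD 0 progs [(1309965025280, 21474836480), (27487797248, 27487797248), (3427383902208, 60129542144)] :=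
  Pool.Agent.helper14.QF.covD_F chks_eq (.l 1)
    [(1309965025280, 21474836480), (27487797248, 27487797248), (3427383902208, 60129542144)] rfl (by decide +kernel)
theorem c5_m0_t48 : CovD 0 progs [(1309965025280, 21474836480), (13743898624, 13743898624), (3547642986496, 60129542144)] :=
  Pool.Agent.helper14.QF.covD_F chks_eq (.n 2 (.l 1) (.n 2 (.n 1 (.n 1 (.l 5) (.n 2 (.l 1) (.l 5))) (.n 1 (.n 2 (.l 1) (.n 2 (.l 1) (.l 5))) (.l 1))) (.n 1 (.l 5) (.n 1 (.l 5) (.n 1 (.l 5) (.n 1 (.l 5) (.n 2 (.n 2 (.l 1) (.l 5)) (.l 5))))))))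
    [(1309965025280, 21474836480), (13743898624, 13743898624), (3547642986496, 60129542144)] rfl (by decide +kernel)
end
mutual
theorem c5_m0_t49 : CovD 0 progs [(1309965025280, 21474836480), (41231695872, 13743898624), (3547642986496, 60129542144)] :=
  Pool.Agent.helper14.QF.covD_F chks_eq (.n 1 (.n 1 (.n 2 (.l 1) (.n 2 (.l 1) (.n 2 (.n 2 (.l 1) (.n 2 (.n 1 (.l 5) (.l 1)) (.l 5))) (.l 5)))) (.n 2 (.l 1) (.n 2 (.l 1) (.n 2 (.l 1) (.n 2 (.n 2 (.n 1 (.l 5) (.l 1)) (.l 5)) (.l 5)))))) (.n 2 (.l 1) (.n 2 (.l 1) (.n 2 (.l 1) (.n 2 (.l 1) (.n 0 (.l 5) (.l 5)))))))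
    [(1309965025280, 21474836480), (41231695872, 13743898624), (3547642986496, 60129542144)] rfl (by decide +kernel)
theorem c5_m0_t52 : CovD 0 progs [(1309965025280, 21474836480), (27487797248, 27487797248), (3728031612928, 120259084288)] :=
  Pool.Agent.helper14.QF.covD_F chks_eq (.n 1 (.l 5) (.n 1 (.l 5) (.l 5)))
    [(1309965025280, 21474836480), (27487797248, 27487797248), (3728031612928, 120259084288)] rfl (by decide +kernel)
end
mutual
theorem c5_m0_t56 : CovD 0 progs [(1309965025280, 21474836480), (82463391744, 27487797248), (2886218022912, 962072674304)] :=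
  Pool.Agent.helper14.QF.covD_F chks_eq (.n 1 (.n 1 (.n 2 (.n 1 (.l 1) (.n 1 (.l 1) (.n 1 (.l 1) (.l 3)))) (.n 2 (.n 1 (.l 1) (.n 1 (.l 1) (.n 1 (.l 1) (.l 3)))) (.n 2 (.n 1 (.l 1) (.n 1 (.l 1) (.n 1 (.n 0 (.l 1) (.n 0 (.l 1) (.l 3))) (.l 3)))) (.l 5)))) (.l 3)) (.l 3))
    [(1309965025280, 21474836480), (82463391744, 27487797248), (2886218022912, 962072674304)] rfl (by decide +kernel)
theorem c5_m0_t58 : CovD 0 progs [(1352914698240, 21474836480), (27487797248, 27487797248), (2886218022912, 962072674304)] :=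
  Pool.Agent.helper14.QF.covD_F chks_eq (.n 0 (.n 1 (.l 4) (.n 1 (.l 4) (.n 2 (.l 1) (.n 2 (.l 1) (.n 2 (.n 2 (.l 1) (.n 2 (.l 1) (.n 2 (.l 1) (.n 2 (.l 1) (.n 2 (.n 0 (.l 1) (.l 1)) (.l 5)))))) (.l 5)))))) (.l 4))
    [(1352914698240, 21474836480), (27487797248, 27487797248), (2886218022912, 962072674304)] rfl (by decide +kernel)
end
mutual
theorem c5_m0_t59 : CovD 0 progs [(1352914698240, 21474836480), (82463391744, 27487797248), (2886218022912, 962072674304)] :=
  Pool.Agent.helper14.QF.covD_F chks_eq (.n 1 (.n 1 (.n 1 (.n 2 (.l 1) (.n 2 (.l 1) (.n 2 (.l 1) (.l 5)))) (.n 1 (.n 1 (.n 2 (.l 1) (.n 2 (.l 1) (.n 2 (.l 1) (.l 5)))) (.n 0 (.n 2 (.l 1) (.n 2 (.l 1) (.n 2 (.l 1) (.l 5)))) (.l 3))) (.l 3))) (.l 3)) (.l 3))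
    [(1352914698240, 21474836480), (82463391744, 27487797248), (2886218022912, 962072674304)] rfl (by decide +kernel)
theorem c6_m0 : CovD 0 progs [(1030792151040, 343597383680), (164926783488, 54975660032), (962072674304, 962072674304)] :=
  Pool.Agent.helper14.QF.covD_F chks_eq (.n 0 (.n 1 (.n 0 (.n 0 (.n 0 (.n 1 (.n 1 (.n 2 (.l 1) (.l 1)) (.n 0 (.n 1 (.n 2 (.l 1) (.l 1)) (.l 3)) (.l 3))) (.l 3)) (.n 1 (.n 1 (.n 2 (.l 1) (.n 0 (.l 1) (.n 1 (.l 1) (.l 3)))) (.l 3)) (.l 3))) (.n 0 (.n 0 (.n 1 (.n 1 (.n 1 (.n 2 (.l 1) (.l 1)) (.l 3)) (.l 3)) (.l 3)) (.l 3)) (.l 3))) (.l 3)) (.l 3)) (.l 3))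
    [(1030792151040, 343597383680), (164926783488, 54975660032), (962072674304, 962072674304)] rfl (by decide +kernel)
end
mutual
theorem c7_m0_t0 : CovD 0 progs [(730144440320, 42949672960), (137438953472, 27487830016), (2886218022912, 962072674304)] :=
  Pool.Agent.helper14.QF.covD_F chks_eq (.n 0 (.n 1 (.n 1 (.n 2 (.l 1) (.n 2 (.l 1) (.n 2 (.l 1) (.l 5)))) (.n 0 (.n 0 (.n 1 (.n 2 (.l 1) (.n 2 (.l 1) (.n 2 (.l 1) (.l 5)))) (.l 3)) (.l 3)) (.l 3))) (.l 3)) (.n 1 (.n 1 (.n 1 (.n 2 (.l 1) (.n 2 (.l 1) (.n 2 (.l 1) (.l 5)))) (.n 0 (.n 0 (.n 2 (.l 1) (.n 2 (.l 1) (.n 2 (.l 1) (.l 5)))) (.l 3)) (.l 3))) (.l 3)) (.l 3)))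
    [(730144440320, 42949672960), (137438953472, 27487830016), (2886218022912, 962072674304)] rfl (by decide +kernel)
theorem c7_m0_t1 : CovD 0 progs [(816043786240, 42949672960), (137438953472, 27487830016), (2886218022912, 962072674304)] :=
  Pool.Agent.helper14.QF.covD_F chks_eq (.n 0 (.n 0 (.n 0 (.n 1 (.n 1 (.n 1 (.n 2 (.l 1) (.n 2 (.l 1) (.n 2 (.l 1) (.l 5)))) (.l 3)) (.l 3)) (.l 3)) (.l 3)) (.l 3)) (.l 3))
    [(816043786240, 42949672960), (137438953472, 27487830016), (2886218022912, 962072674304)] rfl (by decide +kernel)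
end
mutual
theorem c7_m0_t3 : CovD 0 progs [(944892805120, 85899345920), (137438953472, 27487830016), (2886218022912, 962072674304)] :=
  Pool.Agent.helper14.QF.covD_F chks_eq (.l 3)
    [(944892805120, 85899345920), (137438953472, 27487830016), (2886218022912, 962072674304)] rfl (by decide +kernel)
theorem c7_m0_t5 : CovD 0 progs [(858993459200, 171798691840), (192414613504, 27487830016), (2886218022912, 962072674304)] :=
  Pool.Agent.helper14.QF.covD_F chks_eq (.l 3)
    [(858993459200, 171798691840), (192414613504, 27487830016), (2886218022912, 962072674304)] rfl (by decide +kernel)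
theorem c7_m0_t7 : CovD 0 progs [(1202590842880, 171798691840), (164926783488, 54975660032), (2886218022912, 962072674304)] :=
  Pool.Agent.helper14.QF.covD_F chks_eq (.l 3)
    [(1202590842880, 171798691840), (164926783488, 54975660032), (2886218022912, 962072674304)] rfl (by decide +kernel)
end

theorem c5_m0_t4 : CovD 0 progs [(773094113280, 85899345920), (82463391744, 27487797248), (3367254360064, 481036337152)] :=
  covD_split 2 (by decide +kernel) c5_m0_t2 c5_m0_t3
theorem c5_m0_t5 : CovD 0 progs [(773094113280, 85899345920), (82463391744, 27487797248), (2886218022912, 962072674304)] :=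
  covD_split 2 (by decide +kernel) c5_m0_t1 c5_m0_t4
theorem c5_m0_t6 : CovD 0 progs [(773094113280, 85899345920), (54975594496, 54975594496), (2886218022912, 962072674304)] :=
  covD_split 1 (by decide +kernel) c5_m0_t0 c5_m0_t5
theorem c5_m0_t9 : CovD 0 progs [(901943132160, 42949672960), (54975594496, 54975594496), (2886218022912, 962072674304)] :=
  covD_split 1 (by decide +kernel) c5_m0_t7 c5_m0_t8
theorem c5_m0_t13 : CovD 0 progs [(987842478080, 42949672960), (82463391744, 27487797248), (2886218022912, 962072674304)] :=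
  covD_split 0 (by decide +kernel) c5_m0_t11 c5_m0_t12
theorem c5_m0_t14 : CovD 0 progs [(987842478080, 42949672960), (54975594496, 54975594496), (2886218022912, 962072674304)] :=
  covD_split 1 (by decide +kernel) c5_m0_t10 c5_m0_t13
theorem c5_m0_t15 : CovD 0 progs [(944892805120, 85899345920), (54975594496, 54975594496), (2886218022912, 962072674304)] :=
  covD_split 0 (by decide +kernel) c5_m0_t9 c5_m0_t14
theorem c5_m0_t16 : CovD 0 progs [(858993459200, 171798691840), (54975594496, 54975594496), (2886218022912, 962072674304)] :=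
  covD_split 0 (by decide +kernel) c5_m0_t6 c5_m0_t15
theorem c5_m0_t19 : CovD 0 progs [(1073741824000, 42949672960), (27487797248, 27487797248), (2886218022912, 962072674304)] :=
  covD_split 1 (by decide +kernel) c5_m0_t17 c5_m0_t18
theorem c5_m0_t22 : CovD 0 progs [(1073741824000, 42949672960), (82463391744, 27487797248), (2886218022912, 962072674304)] :=
  covD_split 1 (by decide +kernel) c5_m0_t20 c5_m0_t21
theorem c5_m0_t23 : CovD 0 progs [(1073741824000, 42949672960), (54975594496, 54975594496), (2886218022912, 962072674304)] :=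
  covD_split 1 (by decide +kernel) c5_m0_t19 c5_m0_t22
theorem c5_m0_t26 : CovD 0 progs [(1138166333440, 21474836480), (54975594496, 54975594496), (2886218022912, 962072674304)] :=
  covD_split 1 (by decide +kernel) c5_m0_t24 c5_m0_t25
theorem c5_m0_t29 : CovD 0 progs [(1181116006400, 21474836480), (54975594496, 54975594496), (2886218022912, 962072674304)] :=
  covD_split 1 (by decide +kernel) c5_m0_t27 c5_m0_t28
theorem c5_m0_t30 : CovD 0 progs [(1159641169920, 42949672960), (54975594496, 54975594496), (2886218022912, 962072674304)] :=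
  covD_split 0 (by decide +kernel) c5_m0_t26 c5_m0_t29
theorem c5_m0_t31 : CovD 0 progs [(1116691496960, 85899345920), (54975594496, 54975594496), (2886218022912, 962072674304)] :=
  covD_split 0 (by decide +kernel) c5_m0_t23 c5_m0_t30
theorem c5_m0_t37 : CovD 0 progs [(1245540515840, 42949672960), (27487797248, 27487797248), (3547642986496, 60129542144)] :=
  covD_split 1 (by decide +kernel) c5_m0_t35 c5_m0_t36
theorem c5_m0_t38 : CovD 0 progs [(1245540515840, 42949672960), (27487797248, 27487797248), (3487513444352, 120259084288)] :=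
  covD_split 2 (by decide +kernel) c5_m0_t34 c5_m0_t37
theorem c5_m0_t40 : CovD 0 progs [(1245540515840, 42949672960), (27487797248, 27487797248), (3607772528640, 240518168576)] :=
  covD_split 2 (by decide +kernel) c5_m0_t38 c5_m0_t39
theorem c5_m0_t41 : CovD 0 progs [(1245540515840, 42949672960), (27487797248, 27487797248), (3367254360064, 481036337152)] :=
  covD_split 2 (by decide +kernel) c5_m0_t33 c5_m0_t40
theorem c5_m0_t42 : CovD 0 progs [(1245540515840, 42949672960), (27487797248, 27487797248), (2886218022912, 962072674304)] :=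
  covD_split 2 (by decide +kernel) c5_m0_t32 c5_m0_t41
theorem c5_m0_t44 : CovD 0 progs [(1245540515840, 42949672960), (54975594496, 54975594496), (2886218022912, 962072674304)] :=
  covD_split 1 (by decide +kernel) c5_m0_t42 c5_m0_t43
theorem c5_m0_t50 : CovD 0 progs [(1309965025280, 21474836480), (27487797248, 27487797248), (3547642986496, 60129542144)] :=
  covD_split 1 (by decide +kernel) c5_m0_t48 c5_m0_t49
theorem c5_m0_t51 : CovD 0 progs [(1309965025280, 21474836480), (27487797248, 27487797248), (3487513444352, 120259084288)] :=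
  covD_split 2 (by decide +kernel) c5_m0_t47 c5_m0_t50
theorem c5_m0_t53 : CovD 0 progs [(1309965025280, 21474836480), (27487797248, 27487797248), (3607772528640, 240518168576)] :=
  covD_split 2 (by decide +kernel) c5_m0_t51 c5_m0_t52
theorem c5_m0_t54 : CovD 0 progs [(1309965025280, 21474836480), (27487797248, 27487797248), (3367254360064, 481036337152)] :=
  covD_split 2 (by decide +kernel) c5_m0_t46 c5_m0_t53
theorem c5_m0_t55 : CovD 0 progs [(1309965025280, 21474836480), (27487797248, 27487797248), (2886218022912, 962072674304)] :=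
  covD_split 2 (by decide +kernel) c5_m0_t45 c5_m0_t54
theorem c5_m0_t57 : CovD 0 progs [(1309965025280, 21474836480), (54975594496, 54975594496), (2886218022912, 962072674304)] :=
  covD_split 1 (by decide +kernel) c5_m0_t55 c5_m0_t56
theorem c5_m0_t60 : CovD 0 progs [(1352914698240, 21474836480), (54975594496, 54975594496), (2886218022912, 962072674304)] :=
  covD_split 1 (by decide +kernel) c5_m0_t58 c5_m0_t59
theorem c5_m0_t61 : CovD 0 progs [(1331439861760, 42949672960), (54975594496, 54975594496), (2886218022912, 962072674304)] :=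
  covD_split 0 (by decide +kernel) c5_m0_t57 c5_m0_t60
theorem c5_m0_t62 : CovD 0 progs [(1288490188800, 85899345920), (54975594496, 54975594496), (2886218022912, 962072674304)] :=
  covD_split 0 (by decide +kernel) c5_m0_t44 c5_m0_t61
theorem c5_m0_t63 : CovD 0 progs [(1202590842880, 171798691840), (54975594496, 54975594496), (2886218022912, 962072674304)] :=
  covD_split 0 (by decide +kernel) c5_m0_t31 c5_m0_t62
theorem c5_m0 : CovD 0 progs [(1030792151040, 343597383680), (54975594496, 54975594496), (2886218022912, 962072674304)] :=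
  covD_split 0 (by decide +kernel) c5_m0_t16 c5_m0_t63
theorem c7_m0_t2 : CovD 0 progs [(773094113280, 85899345920), (137438953472, 27487830016), (2886218022912, 962072674304)] :=
  covD_split 0 (by decide +kernel) c7_m0_t0 c7_m0_t1
theorem c7_m0_t4 : CovD 0 progs [(858993459200, 171798691840), (137438953472, 27487830016), (2886218022912, 962072674304)] :=
  covD_split 0 (by decide +kernel) c7_m0_t2 c7_m0_t3
theorem c7_m0_t6 : CovD 0 progs [(858993459200, 171798691840), (164926783488, 54975660032), (2886218022912, 962072674304)] :=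
  covD_split 1 (by decide +kernel) c7_m0_t4 c7_m0_t5
theorem c7_m0 : CovD 0 progs [(1030792151040, 343597383680), (164926783488, 54975660032), (2886218022912, 962072674304)] :=
  covD_split 0 (by decide +kernel) c7_m0_t6 c7_m0_t7

end Pool.Agent.helper31.EQB.Cert.LB1
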