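import Pool.Agent.helper31.IC.EngD
import Pool.Agent.helper14.QF.Inst

/-!
Generated: straight line program(s) and compiled form(s).
-/

namespace Pool.Agent.helper31.EQB.Cert.LB1

open Pool.Agent.helper31.IA (Z Op)
open Pool.Agent.helper31.IC

set_option maxRecDepth 100000

abbrev opsE : Ops := Pool.Agent.helper14.QF.opsF

def prog0 : List Op := [
  .const ⟨1099511627776, 0, 0, 0⟩,
  .const ⟨3298534883328, 0, 0, 0⟩,
  .inv 0,
  .mul 2 0,
  .mul 4 5,
  .mul 0 0,
  .mul 6 1,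
  .mul 0 0,
  .const ⟨6597069766656, 0, 0, 0⟩,
  .inv 0,
  .mul 9 0,
  .mul 3 0,
  .sub 11 0,
  .mul 6 0,
  .scale ⟨3848290697216, 0, 0, 0⟩ 15,
  .mul 0 0,
  .const ⟨549755813888, 0, 0, 0⟩,
  .scale ⟨137438953472, 0, 0, 0⟩ 1,
  .sub 1 0,
  .mul 3 0,
  .add 19 0,
  .inv 0,
  .mul 7 0,
  .mul 0 0,
  .mul 1 19,
  .const ⟨1099243192320, 0, 0, 0⟩,
  .scale ⟨3111703805952, 0, 0, 0⟩ 1,
  .sub 1 0,
  .scale ⟨25288767438848, 0, 0, 0⟩ 22,
  .sub 1 0,
  .scale ⟨549755813888, 0, 0, 0⟩ 22,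
  .sub 1 0,
  .scale ⟨1556388773888, 0, 0, 0⟩ 7,
  .sub 7 0,
  .scale ⟨20890720927744, 0, 0, 0⟩ 28,
  .sub 1 0,
  .scale ⟨593779228672, 0, 0, 0⟩ 28,
  .sub 1 0,
  .mul 40 40,
  .mul 40 40,
  .mul 1 0,
  .add 0 40,
  .log 0,
  .scale ⟨549755813888, 0, 0, 0⟩ 0,
  .exp 0,
  .mul 45 0,
  .neg 2,
  .exp 0,
  .mul 2 2,
  .mul 50 1,
  .mul 2 2,
  .mul 5 46,
  .mul 3 46,
  .scale ⟨8796093022208, 0, 0, 0⟩ 47,
  .sub 22 0,
  .scale ⟨10816875134976, 0, 0, 0⟩ 31,
  .const ⟨2704218783744, 0, 0, 0⟩,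
  .add 1 0,
  .mul 5 0,
  .sub 4 0,
  .mul 54 54,
  .scale ⟨549755813888000, 0, 0, 0⟩ 0,
  .sub 61 0,
  .scale ⟨615726511554560, 0, 0, 0⟩ 2,
  .add 0 63,
  .scale ⟨4079145189376, 0, 0, 0⟩ 0,
  .mul 0 0,
  .mul 0 14,
  .add 0 67,
  .const ⟨2623956582400, 0, 0, 0⟩,
  .mul 56 0,
  .scale ⟨2199023255552, 0, 0, 0⟩ 0,
  .mul 0 0,
  .mul 0 69,
  .add 0 73,
  .inv 0,
  .mul 4 0,
  .mul 64 7,
  .mul 0 2,
  .mul 2 2,
  .scale ⟨274877906944, 0, 0, 0⟩ 0,
  .add 0 80,
  .mul 3 0,
  .const ⟨3723468210176, 0, 0, 0⟩,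
  .mul 70 0,
  .scale ⟨2199023255552, 0, 0, 0⟩ 0,
  .mul 0 0,
  .mul 0 83,
  .add 0 87,
  .inv 0,
  .mul 4 0,
  .mul 78 7,
  .mul 0 2,
  .mul 2 2,
  .scale ⟨274877906944, 0, 0, 0⟩ 0,
  .add 0 94,
  .mul 3 0,
  .mul 48 14,
  .mul 35 35,
  .neg 0,
  .add 0 99,
  .scale ⟨549755813888, 0, 0, 0⟩ 0,
  .add 1 101,
  .neg 0,
  .mul 2 0,
  .add 0 104,
  .mul 68 0,
  .mul 75 61,
  .mul 0 9,
  .mul 0 12,
  .scale ⟨549755813888, 0, 0, 0⟩ 0,
  .mul 4 65,
  .scale ⟨549755813888, 0, 0, 0⟩ 0,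
  .mul 1 1,
  .scale ⟨97184055296, 0, 0, 0⟩ 0,
  .const ⟨1554944884736, 0, 0, 0⟩,
  .add 1 0,
  .add 4 0,
  .inv 0,
  .mul 12 0,
  .add 0 9,
  .inv 0,
  .mul 62 24,
  .mul 0 60,
  .neg 0,
  .exp 0,
  .add 80 4,
  .mul 1 0,
  .neg 5,
  .exp 0,
  .mul 84 61,
  .mul 0 3,
  .mul 49 49,
  .mul 0 80,
  .mul 86 51,
  .mul 0 83,
  .scale ⟨2199023255552, 0, 0, 0⟩ 0,
  .sub 136 0,
  .add 4 0,
  .scale ⟨2199023255552, 0, 0, 0⟩ 91,
  .add 74 57,
  .mul 89 0,
  .sub 2 0,
  .pos 0,
  .mul 95 77,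
  .mul 0 92,
  .scale ⟨2199023255552, 0, 0, 0⟩ 0,
  .add 78 0,
  .const ⟨137438953472, 0, 0, 0⟩,
  .scale ⟨68719476736, 0, 0, 0⟩ 1,
  .sub 1 0,
  .mul 3 0,
  .sub 134 0,
  .mul 5 0,
  .add 152 0,
  .scale ⟨107642617856, 0, 0, 0⟩ 155,
  .const ⟨59122909184, 0, 0, 0⟩,
  .add 1 0,
  .scale ⟨27380416512, 0, 0, 0⟩ 158,
  .const ⟨58451820544, 0, 0, 0⟩,
  .add 1 0,
  .scale ⟨4398046511104, 0, 0, 0⟩ 110,
  .add 0 113,
  .inv 0,
  .mul 6 0,
  .mul 0 10,
  .scale ⟨4398046511104, 0, 0, 0⟩ 0,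
  .sub 165 0,
  .pos 0,
  .inv 0,
  .const ⟨2199023255552, 0, 0, 0⟩,
  .scale ⟨274877906944, 0, 0, 0⟩ 130,
  .sub 1 0,
  .mul 132 132,
  .scale ⟨5727322112, 0, 0, 0⟩ 0,
  .add 2 0,
  .mul 4 4,
  .mul 0 5,
  .mul 0 0,
  .scale ⟨900726784, 0, 0, 0⟩ 0,
  .add 4 0,
  .mul 130 113,
  .add 1 0,
  .mul 132 112,
  .scale ⟨659707396096, 0, 0, 0⟩ 0,
  .add 51 0,
  .exp 0,
  .add 4 0,
  .sub 0 185,
  .mul 21 19,
  .mul 1 0,
  .add 57 0,
  .mul 0 140,
  .scale ⟨4947802324992, 0, 0, 0⟩ 185,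
  .scale ⟨91626668032, 0, 0, 0⟩ 187,
  .add 1 0,
  .mul 64 28,
  .sub 194 0,
  .inv 0,
  .mul 2 0,
  .mul 192 0,
  .add 5 0,
  .mul 134 151,
  .mul 0 0,
  .add 0 163,
  .const ⟨17179869184, 0, 0, 0⟩,
  .add 1 0,
  .log 0,
  .scale ⟨549755813888, 0, 0, 0⟩ 0,
  .exp 0,
  .mul 0 158,
  .mul 1 203,
  .scale ⟨549755813888, 0, 0, 0⟩ 0,
  .const ⟨1116004679680, 0, 0, 0⟩,
  .add 1 0,
  .scale ⟨549755813888, 0, 0, 0⟩ 161,
  .mul 0 75,
  .scale ⟨2253999046656, 0, 0, 0⟩ 167,
  .add 7 0,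
  .mul 2 0,
  .mul 170 211,
  .scale ⟨549755813888, 0, 0, 0⟩ 0,
  .add 11 0,
  .mul 0 30,
  .add 4 0,
  .mul 217 33,
  .scale ⟨1869170606080, 0, 0, 0⟩ 0,
  .scale ⟨2418926419968, 0, 0, 0⟩ 25,
  .add 1 0,
  .mul 176 0,
  .add 5 0,
  .mul 16 0,
  .mul 0 181,
  .mul 1 179,
  .scale ⟨2199023255552, 0, 0, 0⟩ 0,
  .sub 170 0,
  .pos 174,
  .sub 233 2,
  .pos 0,
  .pos 1,
  .const ⟨5408437567488, 0, 0, 0⟩,
  .sub 0 170,
  .sub 0 7,
  .add 6 237,
  .mul 0 0,
  .sub 2 0,
  .pos 0,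
  .scale ⟨10115506765824, 0, 0, 0⟩ 7,
  .sub 0 6,
  .pos 0,
  .scale ⟨989560045568, 0, 0, 0⟩ 9,
  .scale ⟨26603832737792, 0, 0, 0⟩ 191,
  .sub 1 0,
  .pos 0,
  .sub 163 16,
  .pos 0,
  .scale ⟨187367948288, 0, 0, 0⟩ 234,
  .mul 0 13,
  .scale ⟨2623956582400, 0, 0, 0⟩ 242,
  .scale ⟨2199023255552, 0, 0, 0⟩ 0,
  .exp 0,
  .mul 22 0,
  .sub 4 0,
  .pos 0,
  .sub 253 21,
  .scale ⟨4335769485312, 0, 0, 0⟩ 0,
  .sub 0 190,
  .sub 0 27,
  .pos 0,
  .neg 34,
  .const ⟨10994319360, 0, 0, 0⟩,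
  .add 1 0,
  .pos 0,
  .neg 61,
  .const ⟨21989687296, 0, 0, 0⟩,
  .add 1 0,
  .pos 0,
  .neg 54,
  .const ⟨109950533632, 0, 0, 0⟩,
  .add 1 0,
  .pos 0,
  .mul 36 261,
  .neg 0,
  .const ⟨5496635392, 0, 0, 0⟩,
  .add 1 0,
  .pos 0,
  .neg 40,
  .sub 0 274,
  .scale ⟨2542620639232, 0, 0, 0⟩ 266,
  .add 1 0,
  .const ⟨3556501356544, 0, 0, 0⟩,
  .add 1 0,
  .pos 0,
  .const ⟨3848290697216, 0, 0, 0⟩,
  .add 5 0,
  .pos 0,
  .const ⟨3536100261888, 0, 0, 0⟩,
  .mul 266 0,
  .scale ⟨2199023255552, 0, 0, 0⟩ 0,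
  .mul 0 0,
  .mul 0 279,
  .add 0 283,
  .inv 0,
  .mul 4 0,
  .mul 274 7,
  .mul 0 2,
  .mul 2 2,
  .scale ⟨274877906944, 0, 0, 0⟩ 0,
  .add 0 290,
  .mul 3 0,
  .const ⟨4635611889664, 0, 0, 0⟩,
  .mul 280 0,
  .scale ⟨2199023255552, 0, 0, 0⟩ 0,
  .mul 0 0,
  .mul 0 293,
  .add 0 297,
  .inv 0,
  .mul 4 0,
  .mul 288 7,
  .mul 0 2,
  .mul 2 2,
  .scale ⟨274877906944, 0, 0, 0⟩ 0,
  .add 0 304,
  .mul 3 0,
  .mul 73 244,
  .neg 0,
  .add 0 308,
  .scale ⟨549755813888, 0, 0, 0⟩ 0,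
  .add 1 310,
  .neg 0,
  .mul 2 0,
  .add 0 313,
  .mul 277 0,
  .mul 208 8,
  .mul 0 10,
  .scale ⟨549755813888, 0, 0, 0⟩ 0,
  .mul 3 273,
  .scale ⟨549755813888, 0, 0, 0⟩ 0,
  .mul 1 1,
  .scale ⟨97184055296, 0, 0, 0⟩ 0,
  .add 0 207,
  .add 3 0,
  .inv 0,
  .mul 10 0,
  .add 0 8,
  .inv 0,
  .mul 269 36,
  .mul 0 281,
  .mul 0 97,
  .neg 0,
  .exp 0,
  .add 288 5,
  .mul 1 0,
  .mul 290 0,
  .add 288 0,
  .mul 108 0,
  .scale ⟨549755813888, 0, 0, 0⟩ 0,
  .sub 339 0,
  .pos 0,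
  .inv 0,
  .add 2 341,
  .mul 0 1,
  .mul 5 2,
  .scale ⟨274877906944, 0, 0, 0⟩ 297,
  .add 296 0,
  .mul 2 0,
  .scale ⟨1073741824, 0, 0, 0⟩ 341,
  .sub 348 0,
  .mul 0 193,
  .sub 0 3,
  .mul 18 192,
  .mul 9 0,
  .add 285 124,
  .mul 303 0,
  .add 0 355,
  .mul 3 0,
  .sub 6 0,
  .pos 0]

def chk0 {α : Type} (cst : Z → α) (add sub mul : α → α → α) (scale : Z → α → α)
    (neg inv exp log : α → α) (ok : α → Bool) (isPos : Nat → α → Bool) (isLt : α → Nat → Bool) :
    List α → Bool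
  | [x0, x1, x2] =>
  let v0 := cst ⟨1099511627776, 0, 0, 0⟩; ok v0 && (
  let v1 := cst ⟨3298534883328, 0, 0, 0⟩; ok v1 && (
  let v2 := inv v1; ok v2 && (
  let v3 := mul v0 v2; ok v3 && (
  let v4 := mul x0 x1; ok v4 && (
  let v5 := mul v4 v4; ok v5 && (
  let v6 := mul x0 v4; ok v6 && (
  let v7 := mul v6 v6; ok v7 && (
  let v8 := cst ⟨6597069766656, 0, 0, 0⟩; ok v8 && (
  let v9 := inv v8; ok v9 && (
  let v10 := mul v0 v9; ok v10 && (
  let v11 := mul v7 v10; ok v11 && (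
  let v12 := sub v0 v11; ok v12 && (
  let v13 := mul v6 v12; ok v13 && (
  let v14 := scale ⟨3848290697216, 0, 0, 0⟩ x1; ok v14 && (
  let v15 := mul v14 v14; ok v15 && (
  let v16 := cst ⟨549755813888, 0, 0, 0⟩; ok v16 && (
  let v17 := scale ⟨137438953472, 0, 0, 0⟩ v15; ok v17 && (
  let v18 := sub v16 v17; ok v18 && (
  let v19 := mul v15 v18; ok v19 && (
  let v20 := add v0 v19; ok v20 && (
  let v21 := inv v20; ok v21 && (
  let v22 := mul v14 v21; ok v22 && (
  let v23 := mul v22 v22; ok v23 && (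
  let v24 := mul v22 v4; ok v24 && (
  let v25 := cst ⟨1099243192320, 0, 0, 0⟩; ok v25 && (
  let v26 := scale ⟨3111703805952, 0, 0, 0⟩ v24; ok v26 && (
  let v27 := sub v25 v26; ok v27 && (
  let v28 := scale ⟨25288767438848, 0, 0, 0⟩ v5; ok v28 && (
  let v29 := sub v27 v28; ok v29 && (
  let v30 := scale ⟨549755813888, 0, 0, 0⟩ v7; ok v30 && (
  let v31 := sub v29 v30; ok v31 && (
  let v32 := scale ⟨1556388773888, 0, 0, 0⟩ v24; ok v32 && (
  let v33 := sub v25 v32; ok v33 && (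
  let v34 := scale ⟨20890720927744, 0, 0, 0⟩ v5; ok v34 && (
  let v35 := sub v33 v34; ok v35 && (
  let v36 := scale ⟨593779228672, 0, 0, 0⟩ v7; ok v36 && (
  let v37 := sub v35 v36; ok v37 && (
  let v38 := mul x2 x2; ok v38 && (
  let v39 := mul x1 x1; ok v39 && (
  let v40 := mul v38 v39; ok v40 && (
  let v41 := add v40 v0; ok v41 && (
  let v42 := log v41; ok v42 && (
  let v43 := scale ⟨549755813888, 0, 0, 0⟩ v42; ok v43 && (
  let v44 := exp v43; ok v44 && (
  let v45 := mul x0 v44; ok v45 && (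
  let v46 := neg v43; ok v46 && (
  let v47 := exp v46; ok v47 && (
  let v48 := mul v45 v45; ok v48 && (
  let v49 := mul x1 v47; ok v49 && (
  let v50 := mul v47 v47; ok v50 && (
  let v51 := mul v45 v4; ok v51 && (
  let v52 := mul v48 v5; ok v52 && (
  let v53 := scale ⟨8796093022208, 0, 0, 0⟩ v5; ok v53 && (
  let v54 := sub v31 v53; ok v54 && (
  let v55 := scale ⟨10816875134976, 0, 0, 0⟩ v23; ok v55 && (
  let v56 := cst ⟨2704218783744, 0, 0, 0⟩; ok v56 && (
  let v57 := add v55 v56; ok v57 && (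
  let v58 := mul v52 v57; ok v58 && (
  let v59 := sub v54 v58; ok v59 && (
  let v60 := mul v5 v5; ok v60 && (
  let v61 := scale ⟨549755813888000, 0, 0, 0⟩ v60; ok v61 && (
  let v62 := sub v0 v61; ok v62 && (
  let v63 := scale ⟨615726511554560, 0, 0, 0⟩ v60; ok v63 && (
  let v64 := add v63 v0; ok v64 && (
  let v65 := scale ⟨4079145189376, 0, 0, 0⟩ v64; ok v65 && (
  let v66 := mul v65 v65; ok v66 && (
  let v67 := mul v66 v52; ok v67 && (
  let v68 := add v67 v0; ok v68 && (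
  let v69 := cst ⟨2623956582400, 0, 0, 0⟩; ok v69 && (
  let v70 := mul v13 v69; ok v70 && (
  let v71 := scale ⟨2199023255552, 0, 0, 0⟩ v70; ok v71 && (
  let v72 := mul v71 v71; ok v72 && (
  let v73 := mul v72 v3; ok v73 && (
  let v74 := add v73 v0; ok v74 && (
  let v75 := inv v74; ok v75 && (
  let v76 := mul v71 v75; ok v76 && (
  let v77 := mul v12 v69; ok v77 && (
  let v78 := mul v77 v75; ok v78 && (
  let v79 := mul v76 v76; ok v79 && (
  let v80 := scale ⟨274877906944, 0, 0, 0⟩ v79; ok v80 && (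
  let v81 := add v80 v0; ok v81 && (
  let v82 := mul v78 v81; ok v82 && (
  let v83 := cst ⟨3723468210176, 0, 0, 0⟩; ok v83 && (
  let v84 := mul v13 v83; ok v84 && (
  let v85 := scale ⟨2199023255552, 0, 0, 0⟩ v84; ok v85 && (
  let v86 := mul v85 v85; ok v86 && (
  let v87 := mul v86 v3; ok v87 && (
  let v88 := add v87 v0; ok v88 && (
  let v89 := inv v88; ok v89 && (
  let v90 := mul v85 v89; ok v90 && (
  let v91 := mul v12 v83; ok v91 && (
  let v92 := mul v91 v89; ok v92 && (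
  let v93 := mul v90 v90; ok v93 && (
  let v94 := scale ⟨274877906944, 0, 0, 0⟩ v93; ok v94 && (
  let v95 := add v94 v0; ok v95 && (
  let v96 := mul v92 v95; ok v96 && (
  let v97 := mul v48 v82; ok v97 && (
  let v98 := mul v62 v62; ok v98 && (
  let v99 := neg v98; ok v99 && (
  let v100 := add v99 v0; ok v100 && (
  let v101 := scale ⟨549755813888, 0, 0, 0⟩ v100; ok v101 && (
  let v102 := add v100 v0; ok v102 && (
  let v103 := neg v102; ok v103 && (
  let v104 := mul v101 v103; ok v104 && (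
  let v105 := add v104 v0; ok v105 && (
  let v106 := mul v37 v105; ok v106 && (
  let v107 := mul v31 v45; ok v107 && (
  let v108 := mul v107 v98; ok v108 && (
  let v109 := mul v108 v96; ok v109 && (
  let v110 := scale ⟨549755813888, 0, 0, 0⟩ v109; ok v110 && (
  let v111 := mul v106 v45; ok v111 && (
  let v112 := scale ⟨549755813888, 0, 0, 0⟩ v111; ok v112 && (
  let v113 := mul v111 v111; ok v113 && (
  let v114 := scale ⟨97184055296, 0, 0, 0⟩ v113; ok v114 && (
  let v115 := cst ⟨1554944884736, 0, 0, 0⟩; ok v115 && (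
  let v116 := add v114 v115; ok v116 && (
  let v117 := add v112 v116; ok v117 && (
  let v118 := inv v117; ok v118 && (
  let v119 := mul v106 v118; ok v119 && (
  let v120 := add v119 v110; ok v120 && (
  let v121 := inv v120; ok v121 && (
  let v122 := mul v59 v97; ok v122 && (
  let v123 := mul v122 v62; ok v123 && (
  let v124 := neg v123; ok v124 && (
  let v125 := exp v124; ok v125 && (
  let v126 := add v45 v121; ok v126 && (
  let v127 := mul v125 v126; ok v127 && (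
  let v128 := neg v122; ok v128 && (
  let v129 := exp v128; ok v129 && (
  let v130 := mul v45 v68; ok v130 && (
  let v131 := mul v130 v127; ok v131 && (
  let v132 := mul v82 v82; ok v132 && (
  let v133 := mul v132 v52; ok v133 && (
  let v134 := mul v47 v82; ok v134 && (
  let v135 := mul v134 v51; ok v135 && (
  let v136 := scale ⟨2199023255552, 0, 0, 0⟩ v135; ok v136 && (
  let v137 := sub v0 v136; ok v137 && (
  let v138 := add v133 v137; ok v138 && (
  let v139 := scale ⟨2199023255552, 0, 0, 0⟩ v47; ok v139 && (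
  let v140 := add v65 v82; ok v140 && (
  let v141 := mul v51 v140; ok v141 && (
  let v142 := sub v139 v141; ok v142 && (
  isPos 3 v142 && (
  let v143 := mul v47 v65; ok v143 && (
  let v144 := mul v143 v51; ok v144 && (
  let v145 := scale ⟨2199023255552, 0, 0, 0⟩ v144; ok v145 && (
  let v146 := add v67 v145; ok v146 && (
  let v147 := cst ⟨137438953472, 0, 0, 0⟩; ok v147 && (
  let v148 := scale ⟨68719476736, 0, 0, 0⟩ v146; ok v148 && (
  let v149 := sub v147 v148; ok v149 && (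
  let v150 := mul v146 v149; ok v150 && (
  let v151 := sub v16 v150; ok v151 && (
  let v152 := mul v146 v151; ok v152 && (
  let v153 := add v0 v152; ok v153 && (
  let v154 := scale ⟨107642617856, 0, 0, 0⟩ x1; ok v154 && (
  let v155 := cst ⟨59122909184, 0, 0, 0⟩; ok v155 && (
  let v156 := add v154 v155; ok v156 && (
  let v157 := scale ⟨27380416512, 0, 0, 0⟩ x1; ok v157 && (
  let v158 := cst ⟨58451820544, 0, 0, 0⟩; ok v158 && (
  let v159 := add v157 v158; ok v159 && (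
  let v160 := scale ⟨4398046511104, 0, 0, 0⟩ v49; ok v160 && (
  let v161 := add v160 v47; ok v161 && (
  let v162 := inv v161; ok v162 && (
  let v163 := mul v156 v162; ok v163 && (
  let v164 := mul v163 v153; ok v164 && (
  let v165 := scale ⟨4398046511104, 0, 0, 0⟩ v164; ok v165 && (
  let v166 := sub v0 v165; ok v166 && (
  isPos 3 v166 && (
  let v167 := inv v166; ok v167 && (
  let v168 := cst ⟨2199023255552, 0, 0, 0⟩; ok v168 && (
  let v169 := scale ⟨274877906944, 0, 0, 0⟩ v38; ok v169 && (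
  let v170 := sub v168 v169; ok v170 && (
  let v171 := mul v38 v38; ok v171 && (
  let v172 := scale ⟨5727322112, 0, 0, 0⟩ v171; ok v172 && (
  let v173 := add v170 v172; ok v173 && (
  let v174 := mul v169 v169; ok v174 && (
  let v175 := mul v174 v169; ok v175 && (
  let v176 := mul v175 v175; ok v176 && (
  let v177 := scale ⟨900726784, 0, 0, 0⟩ v176; ok v177 && (
  let v178 := add v173 v177; ok v178 && (
  let v179 := mul v48 v65; ok v179 && (
  let v180 := add v178 v179; ok v180 && (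
  let v181 := mul v48 v68; ok v181 && (
  let v182 := scale ⟨659707396096, 0, 0, 0⟩ v181; ok v182 && (
  let v183 := add v131 v182; ok v183 && (
  let v184 := exp v183; ok v184 && (
  let v185 := add v180 v184; ok v185 && (
  let v186 := sub v185 v0; ok v186 && (
  let v187 := mul v165 v167; ok v187 && (
  let v188 := mul v186 v187; ok v188 && (
  let v189 := add v131 v188; ok v189 && (
  let v190 := mul v189 v49; ok v190 && (
  let v191 := scale ⟨4947802324992, 0, 0, 0⟩ v5; ok v191 && (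
  let v192 := scale ⟨91626668032, 0, 0, 0⟩ v4; ok v192 && (
  let v193 := add v191 v192; ok v193 && (
  let v194 := mul v129 v165; ok v194 && (
  let v195 := sub v0 v194; ok v195 && (
  let v196 := inv v195; ok v196 && (
  let v197 := mul v194 v196; ok v197 && (
  let v198 := mul v5 v197; ok v198 && (
  let v199 := add v193 v198; ok v199 && (
  let v200 := mul v65 v48; ok v200 && (
  let v201 := mul v200 v200; ok v201 && (
  let v202 := add v201 v38; ok v202 && (
  let v203 := cst ⟨17179869184, 0, 0, 0⟩; ok v203 && (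
  let v204 := add v202 v203; ok v204 && (
  let v205 := log v204; ok v205 && (
  let v206 := scale ⟨549755813888, 0, 0, 0⟩ v205; ok v206 && (
  let v207 := exp v206; ok v207 && (
  let v208 := mul v207 v49; ok v208 && (
  let v209 := mul v207 v5; ok v209 && (
  let v210 := scale ⟨549755813888, 0, 0, 0⟩ v209; ok v210 && (
  let v211 := cst ⟨1116004679680, 0, 0, 0⟩; ok v211 && (
  let v212 := add v210 v211; ok v212 && (
  let v213 := scale ⟨549755813888, 0, 0, 0⟩ v51; ok v213 && (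
  let v214 := mul v213 v138; ok v214 && (
  let v215 := scale ⟨2253999046656, 0, 0, 0⟩ v47; ok v215 && (
  let v216 := add v208 v215; ok v216 && (
  let v217 := mul v214 v216; ok v217 && (
  let v218 := mul v47 v6; ok v218 && (
  let v219 := scale ⟨549755813888, 0, 0, 0⟩ v218; ok v219 && (
  let v220 := add v208 v219; ok v220 && (
  let v221 := mul v220 v190; ok v221 && (
  let v222 := add v217 v221; ok v222 && (
  let v223 := mul v5 v189; ok v223 && (
  let v224 := scale ⟨1869170606080, 0, 0, 0⟩ v223; ok v224 && (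
  let v225 := scale ⟨2418926419968, 0, 0, 0⟩ v199; ok v225 && (
  let v226 := add v224 v225; ok v226 && (
  let v227 := mul v50 v226; ok v227 && (
  let v228 := add v222 v227; ok v228 && (
  let v229 := mul v212 v228; ok v229 && (
  let v230 := mul v229 v48; ok v230 && (
  let v231 := mul v229 v51; ok v231 && (
  let v232 := scale ⟨2199023255552, 0, 0, 0⟩ v231; ok v232 && (
  let v233 := sub v62 v232; ok v233 && (
  isPos 3 v59 && (
  let v234 := sub v0 v231; ok v234 && (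
  isPos 3 v234 && (
  isPos 3 v233 && (
  let v235 := cst ⟨5408437567488, 0, 0, 0⟩; ok v235 && (
  let v236 := sub v235 v65; ok v236 && (
  let v237 := sub v236 v229; ok v237 && (
  let v238 := add v231 v0; ok v238 && (
  let v239 := mul v238 v238; ok v239 && (
  let v240 := sub v237 v239; ok v240 && (
  isPos 3 v240 && (
  let v241 := scale ⟨10115506765824, 0, 0, 0⟩ v233; ok v241 && (
  let v242 := sub v241 v235; ok v242 && (
  isPos 3 v242 && (
  let v243 := scale ⟨989560045568, 0, 0, 0⟩ v233; ok v243 && (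
  let v244 := scale ⟨26603832737792, 0, 0, 0⟩ v52; ok v244 && (
  let v245 := sub v243 v244; ok v245 && (
  isPos 3 v245 && (
  let v246 := sub v82 v229; ok v246 && (
  isPos 3 v246 && (
  let v247 := scale ⟨187367948288, 0, 0, 0⟩ v12; ok v247 && (
  let v248 := mul v247 v234; ok v248 && (
  let v249 := scale ⟨2623956582400, 0, 0, 0⟩ v6; ok v249 && (
  let v250 := scale ⟨2199023255552, 0, 0, 0⟩ v249; ok v250 && (
  let v251 := exp v250; ok v251 && (
  let v252 := mul v229 v251; ok v252 && (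
  let v253 := sub v248 v252; ok v253 && (
  isPos 3 v253 && (
  let v254 := sub v0 v232; ok v254 && (
  let v255 := scale ⟨4335769485312, 0, 0, 0⟩ v254; ok v255 && (
  let v256 := sub v255 v65; ok v256 && (
  let v257 := sub v256 v229; ok v257 && (
  isPos 3 v257 && (
  let v258 := neg v223; ok v258 && (
  let v259 := cst ⟨10994319360, 0, 0, 0⟩; ok v259 && (
  let v260 := add v258 v259; ok v260 && (
  isPos 3 v260 && (
  let v261 := neg v199; ok v261 && (
  let v262 := cst ⟨21989687296, 0, 0, 0⟩; ok v262 && (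
  let v263 := add v261 v262; ok v263 && (
  isPos 3 v263 && (
  let v264 := neg v209; ok v264 && (
  let v265 := cst ⟨109950533632, 0, 0, 0⟩; ok v265 && (
  let v266 := add v264 v265; ok v266 && (
  isPos 3 v266 && (
  let v267 := mul v230 v5; ok v267 && (
  let v268 := neg v267; ok v268 && (
  let v269 := cst ⟨5496635392, 0, 0, 0⟩; ok v269 && (
  let v270 := add v268 v269; ok v270 && (
  isPos 3 v270 && (
  let v271 := neg v230; ok v271 && (
  let v272 := sub v271 x2; ok v272 && (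
  let v273 := scale ⟨2542620639232, 0, 0, 0⟩ v6; ok v273 && (
  let v274 := add v272 v273; ok v274 && (
  let v275 := cst ⟨3556501356544, 0, 0, 0⟩; ok v275 && (
  let v276 := add v274 v275; ok v276 && (
  isPos 3 v276 && (
  let v277 := cst ⟨3848290697216, 0, 0, 0⟩; ok v277 && (
  let v278 := add v272 v277; ok v278 && (
  isPos 3 v278 && (
  let v279 := cst ⟨3536100261888, 0, 0, 0⟩; ok v279 && (
  let v280 := mul v13 v279; ok v280 && (
  let v281 := scale ⟨2199023255552, 0, 0, 0⟩ v280; ok v281 && (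
  let v282 := mul v281 v281; ok v282 && (
  let v283 := mul v282 v3; ok v283 && (
  let v284 := add v283 v0; ok v284 && (
  let v285 := inv v284; ok v285 && (
  let v286 := mul v281 v285; ok v286 && (
  let v287 := mul v12 v279; ok v287 && (
  let v288 := mul v287 v285; ok v288 && (
  let v289 := mul v286 v286; ok v289 && (
  let v290 := scale ⟨274877906944, 0, 0, 0⟩ v289; ok v290 && (
  let v291 := add v290 v0; ok v291 && (
  let v292 := mul v288 v291; ok v292 && (
  let v293 := cst ⟨4635611889664, 0, 0, 0⟩; ok v293 && (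
  let v294 := mul v13 v293; ok v294 && (
  let v295 := scale ⟨2199023255552, 0, 0, 0⟩ v294; ok v295 && (
  let v296 := mul v295 v295; ok v296 && (
  let v297 := mul v296 v3; ok v297 && (
  let v298 := add v297 v0; ok v298 && (
  let v299 := inv v298; ok v299 && (
  let v300 := mul v295 v299; ok v300 && (
  let v301 := mul v12 v293; ok v301 && (
  let v302 := mul v301 v299; ok v302 && (
  let v303 := mul v300 v300; ok v303 && (
  let v304 := scale ⟨274877906944, 0, 0, 0⟩ v303; ok v304 && (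
  let v305 := add v304 v0; ok v305 && (
  let v306 := mul v302 v305; ok v306 && (
  let v307 := mul v233 v62; ok v307 && (
  let v308 := neg v307; ok v308 && (
  let v309 := add v308 v0; ok v309 && (
  let v310 := scale ⟨549755813888, 0, 0, 0⟩ v309; ok v310 && (
  let v311 := add v309 v0; ok v311 && (
  let v312 := neg v311; ok v312 && (
  let v313 := mul v310 v312; ok v313 && (
  let v314 := add v313 v0; ok v314 && (
  let v315 := mul v37 v314; ok v315 && (
  let v316 := mul v107 v307; ok v316 && (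
  let v317 := mul v316 v306; ok v317 && (
  let v318 := scale ⟨549755813888, 0, 0, 0⟩ v317; ok v318 && (
  let v319 := mul v315 v45; ok v319 && (
  let v320 := scale ⟨549755813888, 0, 0, 0⟩ v319; ok v320 && (
  let v321 := mul v319 v319; ok v321 && (
  let v322 := scale ⟨97184055296, 0, 0, 0⟩ v321; ok v322 && (
  let v323 := add v322 v115; ok v323 && (
  let v324 := add v320 v323; ok v324 && (
  let v325 := inv v324; ok v325 && (
  let v326 := mul v315 v325; ok v326 && (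
  let v327 := add v326 v318; ok v327 && (
  let v328 := inv v327; ok v328 && (
  let v329 := mul v59 v292; ok v329 && (
  let v330 := mul v329 v48; ok v330 && (
  let v331 := mul v330 v233; ok v331 && (
  let v332 := neg v331; ok v332 && (
  let v333 := exp v332; ok v333 && (
  let v334 := add v45 v328; ok v334 && (
  let v335 := mul v333 v334; ok v335 && (
  let v336 := mul v45 v335; ok v336 && (
  let v337 := add v48 v336; ok v337 && (
  let v338 := mul v229 v337; ok v338 && (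
  let v339 := scale ⟨549755813888, 0, 0, 0⟩ v338; ok v339 && (
  let v340 := sub v0 v339; ok v340 && (
  isPos 3 v340 && (
  let v341 := inv v340; ok v341 && (
  let v342 := add v339 v0; ok v342 && (
  let v343 := mul v342 v341; ok v343 && (
  let v344 := mul v338 v341; ok v344 && (
  let v345 := scale ⟨274877906944, 0, 0, 0⟩ v47; ok v345 && (
  let v346 := add v49 v345; ok v346 && (
  let v347 := mul v344 v346; ok v347 && (
  let v348 := scale ⟨1073741824, 0, 0, 0⟩ v6; ok v348 && (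
  let v349 := sub v0 v348; ok v349 && (
  let v350 := mul v349 v156; ok v350 && (
  let v351 := sub v350 v347; ok v351 && (
  let v352 := mul v333 v159; ok v352 && (
  let v353 := mul v343 v352; ok v353 && (
  let v354 := add v68 v229; ok v354 && (
  let v355 := mul v51 v354; ok v355 && (
  let v356 := add v355 v0; ok v356 && (
  let v357 := mul v353 v356; ok v357 && (
  let v358 := sub v351 v357; ok v358 && (
  isPos 3 v358 && (
  true))))))))))))))))))))))))))))))))))))))))))))))))))))))))))))))))))))))))))))))))))))))))))))))))))))))))))))))))))))))))))))))))))))))))))))))))))))))))))))))))))))))))))))))))))))))))))))))))))))))))))))))))))))))))))))))))))))))))))))))))))))))))))))))))))))))))))))))))))))))))))))))))))))))))))))))))))))))))))))))))))))))))))))))))))))))))))))))))))))))))))))))))))))))))))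
  | _ => false

set_option maxRecDepth 1000000 in
theorem chk0_eq (O : Ops) (m : List O.α)
    (h : chk0 O.cst O.add O.sub O.mul O.scale O.neg O.inv O.exp O.log O.ok O.isPos O.isLt m = true) :
    runG O 3 prog0 m = true := by
  match m, h with
  | [x0, x1, x2], h => exact h

def chkB0 : List opsE.α → Bool :=
  chk0 opsE.cst opsE.add opsE.sub opsE.mul opsE.scale opsE.neg opsE.inv opsE.exp opsE.log opsE.ok opsE.isPos opsE.isLt

theorem chkB0_eq (m : List opsE.α) (h : chkB0 m = true) : runG opsE 3 prog0 m = true :=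
  chk0_eq opsE m h

def prog1 : List Op := [
  .const ⟨1099511627776, 0, 0, 0⟩,
  .const ⟨3298534883328, 0, 0, 0⟩,
  .inv 0,
  .mul 2 0,
  .mul 4 5,
  .mul 0 0,
  .mul 6 1,
  .mul 0 0,
  .const ⟨6597069766656, 0, 0, 0⟩,
  .inv 0,
  .mul 9 0,
  .mul 3 0,
  .sub 11 0,
  .mul 6 0,
  .scale ⟨3848290697216, 0, 0, 0⟩ 15,
  .mul 0 0,
  .const ⟨549755813888, 0, 0, 0⟩,
  .scale ⟨137438953472, 0, 0, 0⟩ 1,
  .sub 1 0,
  .mul 3 0,
  .add 19 0,
  .inv 0,
  .mul 7 0,
  .mul 0 0,
  .mul 1 19,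
  .const ⟨1099243192320, 0, 0, 0⟩,
  .scale ⟨3111703805952, 0, 0, 0⟩ 1,
  .sub 1 0,
  .scale ⟨25288767438848, 0, 0, 0⟩ 22,
  .sub 1 0,
  .scale ⟨549755813888, 0, 0, 0⟩ 22,
  .sub 1 0,
  .scale ⟨1556388773888, 0, 0, 0⟩ 7,
  .sub 7 0,
  .scale ⟨20890720927744, 0, 0, 0⟩ 28,
  .sub 1 0,
  .scale ⟨593779228672, 0, 0, 0⟩ 28,
  .sub 1 0,
  .mul 40 40,
  .mul 40 40,
  .mul 1 0,
  .add 0 40,
  .log 0,
  .scale ⟨549755813888, 0, 0, 0⟩ 0,
  .exp 0,
  .mul 45 0,
  .neg 2,
  .exp 0,
  .mul 2 2,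
  .mul 50 1,
  .mul 2 2,
  .mul 5 46,
  .mul 3 46,
  .scale ⟨8796093022208, 0, 0, 0⟩ 47,
  .sub 22 0,
  .scale ⟨10816875134976, 0, 0, 0⟩ 31,
  .const ⟨2704218783744, 0, 0, 0⟩,
  .add 1 0,
  .mul 5 0,
  .sub 4 0,
  .mul 54 54,
  .scale ⟨549755813888000, 0, 0, 0⟩ 0,
  .sub 61 0,
  .scale ⟨615726511554560, 0, 0, 0⟩ 2,
  .add 0 63,
  .scale ⟨4079145189376, 0, 0, 0⟩ 0,
  .mul 0 0,
  .mul 0 14,
  .add 0 67,
  .const ⟨2623956582400, 0, 0, 0⟩,
  .mul 56 0,
  .scale ⟨2199023255552, 0, 0, 0⟩ 0,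
  .mul 0 0,
  .mul 0 69,
  .add 0 73,
  .inv 0,
  .mul 4 0,
  .mul 64 7,
  .mul 0 2,
  .mul 2 2,
  .scale ⟨274877906944, 0, 0, 0⟩ 0,
  .add 0 80,
  .mul 3 0,
  .const ⟨3723468210176, 0, 0, 0⟩,
  .mul 70 0,
  .scale ⟨2199023255552, 0, 0, 0⟩ 0,
  .mul 0 0,
  .mul 0 83,
  .add 0 87,
  .inv 0,
  .mul 4 0,
  .mul 78 7,
  .mul 0 2,
  .mul 2 2,
  .scale ⟨274877906944, 0, 0, 0⟩ 0,
  .add 0 94,
  .mul 3 0,
  .mul 48 14,
  .mul 35 35,
  .neg 0,
  .add 0 99,
  .scale ⟨549755813888, 0, 0, 0⟩ 0,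
  .add 1 101,
  .neg 0,
  .mul 2 0,
  .add 0 104,
  .mul 68 0,
  .mul 75 61,
  .mul 0 9,
  .mul 0 12,
  .scale ⟨549755813888, 0, 0, 0⟩ 0,
  .mul 4 65,
  .scale ⟨549755813888, 0, 0, 0⟩ 0,
  .mul 1 1,
  .scale ⟨97184055296, 0, 0, 0⟩ 0,
  .const ⟨1554944884736, 0, 0, 0⟩,
  .add 1 0,
  .add 4 0,
  .inv 0,
  .mul 12 0,
  .add 0 9,
  .inv 0,
  .mul 62 24,
  .mul 0 60,
  .neg 0,
  .exp 0,
  .add 80 4,
  .mul 1 0,
  .neg 5,
  .exp 0,
  .mul 84 61,
  .mul 0 3,
  .mul 49 49,
  .mul 0 80,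
  .mul 86 51,
  .mul 0 83,
  .scale ⟨2199023255552, 0, 0, 0⟩ 0,
  .sub 136 0,
  .add 4 0,
  .scale ⟨2199023255552, 0, 0, 0⟩ 91,
  .add 74 57,
  .mul 89 0,
  .sub 2 0,
  .pos 0,
  .mul 95 77,
  .mul 0 92,
  .scale ⟨2199023255552, 0, 0, 0⟩ 0,
  .add 78 0,
  .const ⟨137438953472, 0, 0, 0⟩,
  .scale ⟨68719476736, 0, 0, 0⟩ 1,
  .sub 1 0,
  .mul 3 0,
  .sub 134 0,
  .mul 5 0,
  .add 152 0,
  .scale ⟨107642617856, 0, 0, 0⟩ 155,
  .const ⟨59122909184, 0, 0, 0⟩,
  .add 1 0,
  .scale ⟨27380416512, 0, 0, 0⟩ 158,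
  .const ⟨58451820544, 0, 0, 0⟩,
  .add 1 0,
  .scale ⟨4398046511104, 0, 0, 0⟩ 110,
  .add 0 113,
  .inv 0,
  .mul 6 0,
  .mul 0 10,
  .scale ⟨4398046511104, 0, 0, 0⟩ 0,
  .sub 165 0,
  .pos 0,
  .inv 0,
  .add 38 167,
  .mul 3 1,
  .mul 1 0,
  .add 39 0,
  .mul 0 122,
  .sub 172 43,
  .pos 0,
  .const ⟨769658978304, 0, 0, 0⟩,
  .log 1,
  .sub 1 0,
  .mul 171 0,
  .mul 48 12,
  .sub 178 0,
  .inv 0,
  .mul 2 0,
  .mul 176 0,
  .add 5 0,
  .mul 118 135,
  .mul 0 0,
  .add 0 147,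
  .const ⟨17179869184, 0, 0, 0⟩,
  .add 1 0,
  .log 0,
  .scale ⟨549755813888, 0, 0, 0⟩ 0,
  .exp 0,
  .mul 0 142,
  .mul 1 187,
  .scale ⟨549755813888, 0, 0, 0⟩ 0,
  .const ⟨1116004679680, 0, 0, 0⟩,
  .add 1 0,
  .scale ⟨549755813888, 0, 0, 0⟩ 145,
  .mul 0 59,
  .scale ⟨2253999046656, 0, 0, 0⟩ 151,
  .add 7 0,
  .mul 2 0,
  .mul 154 195,
  .scale ⟨549755813888, 0, 0, 0⟩ 0,
  .add 11 0,
  .mul 0 32,
  .add 4 0,
  .mul 201 35,
  .scale ⟨1869170606080, 0, 0, 0⟩ 0,
  .scale ⟨2418926419968, 0, 0, 0⟩ 25,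
  .add 1 0,
  .mul 160 0,
  .add 5 0,
  .mul 16 0,
  .mul 0 165,
  .mul 1 163,
  .scale ⟨2199023255552, 0, 0, 0⟩ 0,
  .sub 154 0,
  .pos 158,
  .sub 217 2,
  .pos 0,
  .pos 1,
  .const ⟨5408437567488, 0, 0, 0⟩,
  .sub 0 154,
  .sub 0 7,
  .add 6 221,
  .mul 0 0,
  .sub 2 0,
  .pos 0,
  .scale ⟨10115506765824, 0, 0, 0⟩ 7,
  .sub 0 6,
  .pos 0,
  .scale ⟨989560045568, 0, 0, 0⟩ 9,
  .scale ⟨26603832737792, 0, 0, 0⟩ 175,
  .sub 1 0,
  .pos 0,
  .sub 147 16,
  .pos 0,
  .scale ⟨187367948288, 0, 0, 0⟩ 218,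
  .mul 0 13,
  .scale ⟨2623956582400, 0, 0, 0⟩ 226,
  .scale ⟨2199023255552, 0, 0, 0⟩ 0,
  .exp 0,
  .mul 22 0,
  .sub 4 0,
  .pos 0,
  .sub 237 21,
  .scale ⟨4335769485312, 0, 0, 0⟩ 0,
  .sub 0 174,
  .sub 0 27,
  .pos 0,
  .neg 34,
  .const ⟨10994319360, 0, 0, 0⟩,
  .add 1 0,
  .pos 0,
  .neg 61,
  .const ⟨21989687296, 0, 0, 0⟩,
  .add 1 0,
  .pos 0,
  .neg 54,
  .const ⟨109950533632, 0, 0, 0⟩,
  .add 1 0,
  .pos 0,
  .mul 36 245,
  .neg 0,
  .const ⟨5496635392, 0, 0, 0⟩,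
  .add 1 0,
  .pos 0,
  .neg 40,
  .sub 0 258,
  .scale ⟨2542620639232, 0, 0, 0⟩ 250,
  .add 1 0,
  .const ⟨3556501356544, 0, 0, 0⟩,
  .add 1 0,
  .pos 0,
  .const ⟨3848290697216, 0, 0, 0⟩,
  .add 5 0,
  .pos 0,
  .const ⟨3536100261888, 0, 0, 0⟩,
  .mul 250 0,
  .scale ⟨2199023255552, 0, 0, 0⟩ 0,
  .mul 0 0,
  .mul 0 263,
  .add 0 267,
  .inv 0,
  .mul 4 0,
  .mul 258 7,
  .mul 0 2,
  .mul 2 2,
  .scale ⟨274877906944, 0, 0, 0⟩ 0,
  .add 0 274,
  .mul 3 0,
  .const ⟨4635611889664, 0, 0, 0⟩,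
  .mul 264 0,
  .scale ⟨2199023255552, 0, 0, 0⟩ 0,
  .mul 0 0,
  .mul 0 277,
  .add 0 281,
  .inv 0,
  .mul 4 0,
  .mul 272 7,
  .mul 0 2,
  .mul 2 2,
  .scale ⟨274877906944, 0, 0, 0⟩ 0,
  .add 0 288,
  .mul 3 0,
  .mul 73 228,
  .neg 0,
  .add 0 292,
  .scale ⟨549755813888, 0, 0, 0⟩ 0,
  .add 1 294,
  .neg 0,
  .mul 2 0,
  .add 0 297,
  .mul 261 0,
  .mul 192 8,
  .mul 0 10,
  .scale ⟨549755813888, 0, 0, 0⟩ 0,
  .mul 3 257,
  .scale ⟨549755813888, 0, 0, 0⟩ 0,
  .mul 1 1,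
  .scale ⟨97184055296, 0, 0, 0⟩ 0,
  .add 0 191,
  .add 3 0,
  .inv 0,
  .mul 10 0,
  .add 0 8,
  .inv 0,
  .mul 253 36,
  .mul 0 265,
  .mul 0 97,
  .neg 0,
  .exp 0,
  .add 272 5,
  .mul 1 0,
  .mul 274 0,
  .add 272 0,
  .mul 108 0,
  .scale ⟨549755813888, 0, 0, 0⟩ 0,
  .sub 323 0,
  .pos 0,
  .inv 0,
  .add 2 325,
  .mul 0 1,
  .mul 5 2,
  .scale ⟨274877906944, 0, 0, 0⟩ 281,
  .add 280 0,
  .mul 2 0,
  .scale ⟨1073741824, 0, 0, 0⟩ 325,
  .sub 332 0,
  .mul 0 177,
  .sub 0 3,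
  .mul 18 176,
  .mul 9 0,
  .add 269 124,
  .mul 287 0,
  .add 0 339,
  .mul 3 0,
  .sub 6 0,
  .pos 0]

def chk1 {α : Type} (cst : Z → α) (add sub mul : α → α → α) (scale : Z → α → α)
    (neg inv exp log : α → α) (ok : α → Bool) (isPos : Nat → α → Bool) (isLt : α → Nat → Bool) :
    List α → Bool
  | [x0, x1, x2] =>
  let v0 := cst ⟨1099511627776, 0, 0, 0⟩; ok v0 && (
  let v1 := cst ⟨3298534883328, 0, 0, 0⟩; ok v1 && (
  let v2 := inv v1; ok v2 && (
  let v3 := mul v0 v2; ok v3 && (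
  let v4 := mul x0 x1; ok v4 && (
  let v5 := mul v4 v4; ok v5 && (
  let v6 := mul x0 v4; ok v6 && (
  let v7 := mul v6 v6; ok v7 && (
  let v8 := cst ⟨6597069766656, 0, 0, 0⟩; ok v8 && (
  let v9 := inv v8; ok v9 && (
  let v10 := mul v0 v9; ok v10 && (
  let v11 := mul v7 v10; ok v11 && (
  let v12 := sub v0 v11; ok v12 && (
  let v13 := mul v6 v12; ok v13 && (
  let v14 := scale ⟨3848290697216, 0, 0, 0⟩ x1; ok v14 && (
  let v15 := mul v14 v14; ok v15 && (
  let v16 := cst ⟨549755813888, 0, 0, 0⟩; ok v16 && (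
  let v17 := scale ⟨137438953472, 0, 0, 0⟩ v15; ok v17 && (
  let v18 := sub v16 v17; ok v18 && (
  let v19 := mul v15 v18; ok v19 && (
  let v20 := add v0 v19; ok v20 && (
  let v21 := inv v20; ok v21 && (
  let v22 := mul v14 v21; ok v22 && (
  let v23 := mul v22 v22; ok v23 && (
  let v24 := mul v22 v4; ok v24 && (
  let v25 := cst ⟨1099243192320, 0, 0, 0⟩; ok v25 && (
  let v26 := scale ⟨3111703805952, 0, 0, 0⟩ v24; ok v26 && (
  let v27 := sub v25 v26; ok v27 && (
  let v28 := scale ⟨25288767438848, 0, 0, 0⟩ v5; ok v28 && (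
  let v29 := sub v27 v28; ok v29 && (
  let v30 := scale ⟨549755813888, 0, 0, 0⟩ v7; ok v30 && (
  let v31 := sub v29 v30; ok v31 && (
  let v32 := scale ⟨1556388773888, 0, 0, 0⟩ v24; ok v32 && (
  let v33 := sub v25 v32; ok v33 && (
  let v34 := scale ⟨20890720927744, 0, 0, 0⟩ v5; ok v34 && (
  let v35 := sub v33 v34; ok v35 && (
  let v36 := scale ⟨593779228672, 0, 0, 0⟩ v7; ok v36 && (
  let v37 := sub v35 v36; ok v37 && (
  let v38 := mul x2 x2; ok v38 && (
  let v39 := mul x1 x1; ok v39 && (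
  let v40 := mul v38 v39; ok v40 && (
  let v41 := add v40 v0; ok v41 && (
  let v42 := log v41; ok v42 && (
  let v43 := scale ⟨549755813888, 0, 0, 0⟩ v42; ok v43 && (
  let v44 := exp v43; ok v44 && (
  let v45 := mul x0 v44; ok v45 && (
  let v46 := neg v43; ok v46 && (
  let v47 := exp v46; ok v47 && (
  let v48 := mul v45 v45; ok v48 && (
  let v49 := mul x1 v47; ok v49 && (
  let v50 := mul v47 v47; ok v50 && (
  let v51 := mul v45 v4; ok v51 && (
  let v52 := mul v48 v5; ok v52 && (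
  let v53 := scale ⟨8796093022208, 0, 0, 0⟩ v5; ok v53 && (
  let v54 := sub v31 v53; ok v54 && (
  let v55 := scale ⟨10816875134976, 0, 0, 0⟩ v23; ok v55 && (
  let v56 := cst ⟨2704218783744, 0, 0, 0⟩; ok v56 && (
  let v57 := add v55 v56; ok v57 && (
  let v58 := mul v52 v57; ok v58 && (
  let v59 := sub v54 v58; ok v59 && (
  let v60 := mul v5 v5; ok v60 && (
  let v61 := scale ⟨549755813888000, 0, 0, 0⟩ v60; ok v61 && (
  let v62 := sub v0 v61; ok v62 && (
  let v63 := scale ⟨615726511554560, 0, 0, 0⟩ v60; ok v63 && (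
  let v64 := add v63 v0; ok v64 && (
  let v65 := scale ⟨4079145189376, 0, 0, 0⟩ v64; ok v65 && (
  let v66 := mul v65 v65; ok v66 && (
  let v67 := mul v66 v52; ok v67 && (
  let v68 := add v67 v0; ok v68 && (
  let v69 := cst ⟨2623956582400, 0, 0, 0⟩; ok v69 && (
  let v70 := mul v13 v69; ok v70 && (
  let v71 := scale ⟨2199023255552, 0, 0, 0⟩ v70; ok v71 && (
  let v72 := mul v71 v71; ok v72 && (
  let v73 := mul v72 v3; ok v73 && (
  let v74 := add v73 v0; ok v74 && (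
  let v75 := inv v74; ok v75 && (
  let v76 := mul v71 v75; ok v76 && (
  let v77 := mul v12 v69; ok v77 && (
  let v78 := mul v77 v75; ok v78 && (
  let v79 := mul v76 v76; ok v79 && (
  let v80 := scale ⟨274877906944, 0, 0, 0⟩ v79; ok v80 && (
  let v81 := add v80 v0; ok v81 && (
  let v82 := mul v78 v81; ok v82 && (
  let v83 := cst ⟨3723468210176, 0, 0, 0⟩; ok v83 && (
  let v84 := mul v13 v83; ok v84 && (
  let v85 := scale ⟨2199023255552, 0, 0, 0⟩ v84; ok v85 && (
  let v86 := mul v85 v85; ok v86 && (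
  let v87 := mul v86 v3; ok v87 && (
  let v88 := add v87 v0; ok v88 && (
  let v89 := inv v88; ok v89 && (
  let v90 := mul v85 v89; ok v90 && (
  let v91 := mul v12 v83; ok v91 && (
  let v92 := mul v91 v89; ok v92 && (
  let v93 := mul v90 v90; ok v93 && (
  let v94 := scale ⟨274877906944, 0, 0, 0⟩ v93; ok v94 && (
  let v95 := add v94 v0; ok v95 && (
  let v96 := mul v92 v95; ok v96 && (
  let v97 := mul v48 v82; ok v97 && (
  let v98 := mul v62 v62; ok v98 && (
  let v99 := neg v98; ok v99 && (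
  let v100 := add v99 v0; ok v100 && (
  let v101 := scale ⟨549755813888, 0, 0, 0⟩ v100; ok v101 && (
  let v102 := add v100 v0; ok v102 && (
  let v103 := neg v102; ok v103 && (
  let v104 := mul v101 v103; ok v104 && (
  let v105 := add v104 v0; ok v105 && (
  let v106 := mul v37 v105; ok v106 && (
  let v107 := mul v31 v45; ok v107 && (
  let v108 := mul v107 v98; ok v108 && (
  let v109 := mul v108 v96; ok v109 && (
  let v110 := scale ⟨549755813888, 0, 0, 0⟩ v109; ok v110 && (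
  let v111 := mul v106 v45; ok v111 && (
  let v112 := scale ⟨549755813888, 0, 0, 0⟩ v111; ok v112 && (
  let v113 := mul v111 v111; ok v113 && (
  let v114 := scale ⟨97184055296, 0, 0, 0⟩ v113; ok v114 && (
  let v115 := cst ⟨1554944884736, 0, 0, 0⟩; ok v115 && (
  let v116 := add v114 v115; ok v116 && (
  let v117 := add v112 v116; ok v117 && (
  let v118 := inv v117; ok v118 && (
  let v119 := mul v106 v118; ok v119 && (
  let v120 := add v119 v110; ok v120 && (
  let v121 := inv v120; ok v121 && (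
  let v122 := mul v59 v97; ok v122 && (
  let v123 := mul v122 v62; ok v123 && (
  let v124 := neg v123; ok v124 && (
  let v125 := exp v124; ok v125 && (
  let v126 := add v45 v121; ok v126 && (
  let v127 := mul v125 v126; ok v127 && (
  let v128 := neg v122; ok v128 && (
  let v129 := exp v128; ok v129 && (
  let v130 := mul v45 v68; ok v130 && (
  let v131 := mul v130 v127; ok v131 && (
  let v132 := mul v82 v82; ok v132 && (
  let v133 := mul v132 v52; ok v133 && (
  let v134 := mul v47 v82; ok v134 && (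
  let v135 := mul v134 v51; ok v135 && (
  let v136 := scale ⟨2199023255552, 0, 0, 0⟩ v135; ok v136 && (
  let v137 := sub v0 v136; ok v137 && (
  let v138 := add v133 v137; ok v138 && (
  let v139 := scale ⟨2199023255552, 0, 0, 0⟩ v47; ok v139 && (
  let v140 := add v65 v82; ok v140 && (
  let v141 := mul v51 v140; ok v141 && (
  let v142 := sub v139 v141; ok v142 && (
  isPos 3 v142 && (
  let v143 := mul v47 v65; ok v143 && (
  let v144 := mul v143 v51; ok v144 && (
  let v145 := scale ⟨2199023255552, 0, 0, 0⟩ v144; ok v145 && (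
  let v146 := add v67 v145; ok v146 && (
  let v147 := cst ⟨137438953472, 0, 0, 0⟩; ok v147 && (
  let v148 := scale ⟨68719476736, 0, 0, 0⟩ v146; ok v148 && (
  let v149 := sub v147 v148; ok v149 && (
  let v150 := mul v146 v149; ok v150 && (
  let v151 := sub v16 v150; ok v151 && (
  let v152 := mul v146 v151; ok v152 && (
  let v153 := add v0 v152; ok v153 && (
  let v154 := scale ⟨107642617856, 0, 0, 0⟩ x1; ok v154 && (
  let v155 := cst ⟨59122909184, 0, 0, 0⟩; ok v155 && (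
  let v156 := add v154 v155; ok v156 && (
  let v157 := scale ⟨27380416512, 0, 0, 0⟩ x1; ok v157 && (
  let v158 := cst ⟨58451820544, 0, 0, 0⟩; ok v158 && (
  let v159 := add v157 v158; ok v159 && (
  let v160 := scale ⟨4398046511104, 0, 0, 0⟩ v49; ok v160 && (
  let v161 := add v160 v47; ok v161 && (
  let v162 := inv v161; ok v162 && (
  let v163 := mul v156 v162; ok v163 && (
  let v164 := mul v163 v153; ok v164 && (
  let v165 := scale ⟨4398046511104, 0, 0, 0⟩ v164; ok v165 && (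
  let v166 := sub v0 v165; ok v166 && (
  isPos 3 v166 && (
  let v167 := inv v166; ok v167 && (
  let v168 := add v129 v0; ok v168 && (
  let v169 := mul v165 v167; ok v169 && (
  let v170 := mul v168 v169; ok v170 && (
  let v171 := add v131 v170; ok v171 && (
  let v172 := mul v171 v49; ok v172 && (
  let v173 := sub v0 v129; ok v173 && (
  isPos 3 v173 && (
  let v174 := cst ⟨769658978304, 0, 0, 0⟩; ok v174 && (
  let v175 := log v173; ok v175 && (
  let v176 := sub v174 v175; ok v176 && (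
  let v177 := mul v5 v176; ok v177 && (
  let v178 := mul v129 v165; ok v178 && (
  let v179 := sub v0 v178; ok v179 && (
  let v180 := inv v179; ok v180 && (
  let v181 := mul v178 v180; ok v181 && (
  let v182 := mul v5 v181; ok v182 && (
  let v183 := add v177 v182; ok v183 && (
  let v184 := mul v65 v48; ok v184 && (
  let v185 := mul v184 v184; ok v185 && (
  let v186 := add v185 v38; ok v186 && (
  let v187 := cst ⟨17179869184, 0, 0, 0⟩; ok v187 && (
  let v188 := add v186 v187; ok v188 && (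
  let v189 := log v188; ok v189 && (
  let v190 := scale ⟨549755813888, 0, 0, 0⟩ v189; ok v190 && (
  let v191 := exp v190; ok v191 && (
  let v192 := mul v191 v49; ok v192 && (
  let v193 := mul v191 v5; ok v193 && (
  let v194 := scale ⟨549755813888, 0, 0, 0⟩ v193; ok v194 && (
  let v195 := cst ⟨1116004679680, 0, 0, 0⟩; ok v195 && (
  let v196 := add v194 v195; ok v196 && (
  let v197 := scale ⟨549755813888, 0, 0, 0⟩ v51; ok v197 && (
  let v198 := mul v197 v138; ok v198 && (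
  let v199 := scale ⟨2253999046656, 0, 0, 0⟩ v47; ok v199 && (
  let v200 := add v192 v199; ok v200 && (
  let v201 := mul v198 v200; ok v201 && (
  let v202 := mul v47 v6; ok v202 && (
  let v203 := scale ⟨549755813888, 0, 0, 0⟩ v202; ok v203 && (
  let v204 := add v192 v203; ok v204 && (
  let v205 := mul v204 v172; ok v205 && (
  let v206 := add v201 v205; ok v206 && (
  let v207 := mul v5 v171; ok v207 && (
  let v208 := scale ⟨1869170606080, 0, 0, 0⟩ v207; ok v208 && (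
  let v209 := scale ⟨2418926419968, 0, 0, 0⟩ v183; ok v209 && (
  let v210 := add v208 v209; ok v210 && (
  let v211 := mul v50 v210; ok v211 && (
  let v212 := add v206 v211; ok v212 && (
  let v213 := mul v196 v212; ok v213 && (
  let v214 := mul v213 v48; ok v214 && (
  let v215 := mul v213 v51; ok v215 && (
  let v216 := scale ⟨2199023255552, 0, 0, 0⟩ v215; ok v216 && (
  let v217 := sub v62 v216; ok v217 && (
  isPos 3 v59 && (
  let v218 := sub v0 v215; ok v218 && (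
  isPos 3 v218 && (
  isPos 3 v217 && (
  let v219 := cst ⟨5408437567488, 0, 0, 0⟩; ok v219 && (
  let v220 := sub v219 v65; ok v220 && (
  let v221 := sub v220 v213; ok v221 && (
  let v222 := add v215 v0; ok v222 && (
  let v223 := mul v222 v222; ok v223 && (
  let v224 := sub v221 v223; ok v224 && (
  isPos 3 v224 && (
  let v225 := scale ⟨10115506765824, 0, 0, 0⟩ v217; ok v225 && (
  let v226 := sub v225 v219; ok v226 && (
  isPos 3 v226 && (
  let v227 := scale ⟨989560045568, 0, 0, 0⟩ v217; ok v227 && (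
  let v228 := scale ⟨26603832737792, 0, 0, 0⟩ v52; ok v228 && (
  let v229 := sub v227 v228; ok v229 && (
  isPos 3 v229 && (
  let v230 := sub v82 v213; ok v230 && (
  isPos 3 v230 && (
  let v231 := scale ⟨187367948288, 0, 0, 0⟩ v12; ok v231 && (
  let v232 := mul v231 v218; ok v232 && (
  let v233 := scale ⟨2623956582400, 0, 0, 0⟩ v6; ok v233 && (
  let v234 := scale ⟨2199023255552, 0, 0, 0⟩ v233; ok v234 && (
  let v235 := exp v234; ok v235 && (
  let v236 := mul v213 v235; ok v236 && (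
  let v237 := sub v232 v236; ok v237 && (
  isPos 3 v237 && (
  let v238 := sub v0 v216; ok v238 && (
  let v239 := scale ⟨4335769485312, 0, 0, 0⟩ v238; ok v239 && (
  let v240 := sub v239 v65; ok v240 && (
  let v241 := sub v240 v213; ok v241 && (
  isPos 3 v241 && (
  let v242 := neg v207; ok v242 && (
  let v243 := cst ⟨10994319360, 0, 0, 0⟩; ok v243 && (
  let v244 := add v242 v243; ok v244 && (
  isPos 3 v244 && (
  let v245 := neg v183; ok v245 && (
  let v246 := cst ⟨21989687296, 0, 0, 0⟩; ok v246 && (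
  let v247 := add v245 v246; ok v247 && (
  isPos 3 v247 && (
  let v248 := neg v193; ok v248 && (
  let v249 := cst ⟨109950533632, 0, 0, 0⟩; ok v249 && (
  let v250 := add v248 v249; ok v250 && (
  isPos 3 v250 && (
  let v251 := mul v214 v5; ok v251 && (
  let v252 := neg v251; ok v252 && (
  let v253 := cst ⟨5496635392, 0, 0, 0⟩; ok v253 && (
  let v254 := add v252 v253; ok v254 && (
  isPos 3 v254 && (
  let v255 := neg v214; ok v255 && (
  let v256 := sub v255 x2; ok v256 && (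
  let v257 := scale ⟨2542620639232, 0, 0, 0⟩ v6; ok v257 && (
  let v258 := add v256 v257; ok v258 && (
  let v259 := cst ⟨3556501356544, 0, 0, 0⟩; ok v259 && (
  let v260 := add v258 v259; ok v260 && (
  isPos 3 v260 && (
  let v261 := cst ⟨3848290697216, 0, 0, 0⟩; ok v261 && (
  let v262 := add v256 v261; ok v262 && (
  isPos 3 v262 && (
  let v263 := cst ⟨3536100261888, 0, 0, 0⟩; ok v263 && (
  let v264 := mul v13 v263; ok v264 && (
  let v265 := scale ⟨2199023255552, 0, 0, 0⟩ v264; ok v265 && (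
  let v266 := mul v265 v265; ok v266 && (
  let v267 := mul v266 v3; ok v267 && (
  let v268 := add v267 v0; ok v268 && (
  let v269 := inv v268; ok v269 && (
  let v270 := mul v265 v269; ok v270 && (
  let v271 := mul v12 v263; ok v271 && (
  let v272 := mul v271 v269; ok v272 && (
  let v273 := mul v270 v270; ok v273 && (
  let v274 := scale ⟨274877906944, 0, 0, 0⟩ v273; ok v274 && (
  let v275 := add v274 v0; ok v275 && (
  let v276 := mul v272 v275; ok v276 && (
  let v277 := cst ⟨4635611889664, 0, 0, 0⟩; ok v277 && (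
  let v278 := mul v13 v277; ok v278 && (
  let v279 := scale ⟨2199023255552, 0, 0, 0⟩ v278; ok v279 && (
  let v280 := mul v279 v279; ok v280 && (
  let v281 := mul v280 v3; ok v281 && (
  let v282 := add v281 v0; ok v282 && (
  let v283 := inv v282; ok v283 && (
  let v284 := mul v279 v283; ok v284 && (
  let v285 := mul v12 v277; ok v285 && (
  let v286 := mul v285 v283; ok v286 && (
  let v287 := mul v284 v284; ok v287 && (
  let v288 := scale ⟨274877906944, 0, 0, 0⟩ v287; ok v288 && (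
  let v289 := add v288 v0; ok v289 && (
  let v290 := mul v286 v289; ok v290 && (
  let v291 := mul v217 v62; ok v291 && (
  let v292 := neg v291; ok v292 && (
  let v293 := add v292 v0; ok v293 && (
  let v294 := scale ⟨549755813888, 0, 0, 0⟩ v293; ok v294 && (
  let v295 := add v293 v0; ok v295 && (
  let v296 := neg v295; ok v296 && (
  let v297 := mul v294 v296; ok v297 && (
  let v298 := add v297 v0; ok v298 && (
  let v299 := mul v37 v298; ok v299 && (
  let v300 := mul v107 v291; ok v300 && (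
  let v301 := mul v300 v290; ok v301 && (
  let v302 := scale ⟨549755813888, 0, 0, 0⟩ v301; ok v302 && (
  let v303 := mul v299 v45; ok v303 && (
  let v304 := scale ⟨549755813888, 0, 0, 0⟩ v303; ok v304 && (
  let v305 := mul v303 v303; ok v305 && (
  let v306 := scale ⟨97184055296, 0, 0, 0⟩ v305; ok v306 && (
  let v307 := add v306 v115; ok v307 && (
  let v308 := add v304 v307; ok v308 && (
  let v309 := inv v308; ok v309 && (
  let v310 := mul v299 v309; ok v310 && (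
  let v311 := add v310 v302; ok v311 && (
  let v312 := inv v311; ok v312 && (
  let v313 := mul v59 v276; ok v313 && (
  let v314 := mul v313 v48; ok v314 && (
  let v315 := mul v314 v217; ok v315 && (
  let v316 := neg v315; ok v316 && (
  let v317 := exp v316; ok v317 && (
  let v318 := add v45 v312; ok v318 && (
  let v319 := mul v317 v318; ok v319 && (
  let v320 := mul v45 v319; ok v320 && (
  let v321 := add v48 v320; ok v321 && (
  let v322 := mul v213 v321; ok v322 && (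
  let v323 := scale ⟨549755813888, 0, 0, 0⟩ v322; ok v323 && (
  let v324 := sub v0 v323; ok v324 && (
  isPos 3 v324 && (
  let v325 := inv v324; ok v325 && (
  let v326 := add v323 v0; ok v326 && (
  let v327 := mul v326 v325; ok v327 && (
  let v328 := mul v322 v325; ok v328 && (
  let v329 := scale ⟨274877906944, 0, 0, 0⟩ v47; ok v329 && (
  let v330 := add v49 v329; ok v330 && (
  let v331 := mul v328 v330; ok v331 && (
  let v332 := scale ⟨1073741824, 0, 0, 0⟩ v6; ok v332 && (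
  let v333 := sub v0 v332; ok v333 && (
  let v334 := mul v333 v156; ok v334 && (
  let v335 := sub v334 v331; ok v335 && (
  let v336 := mul v317 v159; ok v336 && (
  let v337 := mul v327 v336; ok v337 && (
  let v338 := add v68 v213; ok v338 && (
  let v339 := mul v51 v338; ok v339 && (
  let v340 := add v339 v0; ok v340 && (
  let v341 := mul v337 v340; ok v341 && (
  let v342 := sub v335 v341; ok v342 && (
  isPos 3 v342 && (
  true)))))))))))))))))))))))))))))))))))))))))))))))))))))))))))))))))))))))))))))))))))))))))))))))))))))))))))))))))))))))))))))))))))))))))))))))))))))))))))))))))))))))))))))))))))))))))))))))))))))))))))))))))))))))))))))))))))))))))))))))))))))))))))))))))))))))))))))))))))))))))))))))))))))))))))))))))))))))))))))))))))))))))))))))))))))))))))))))))))))))))))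
  | _ => false

set_option maxRecDepth 1000000 in
theorem chk1_eq (O : Ops) (m : List O.α)
    (h : chk1 O.cst O.add O.sub O.mul O.scale O.neg O.inv O.exp O.log O.ok O.isPos O.isLt m = true) :
    runG O 3 prog1 m = true := by
  match m, h with
  | [x0, x1, x2], h => exact h

def chkB1 : List opsE.α → Bool :=
  chk1 opsE.cst opsE.add opsE.sub opsE.mul opsE.scale opsE.neg opsE.inv opsE.exp opsE.log opsE.ok opsE.isPos opsE.isLt

theorem chkB1_eq (m : List opsE.α) (h : chkB1 m = true) : runG opsE 3 prog1 m = true :=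
  chk1_eq opsE m h

def prog2 : List Op := [
  .const ⟨1099511627776, 0, 0, 0⟩,
  .const ⟨3298534883328, 0, 0, 0⟩,
  .inv 0,
  .mul 2 0,
  .mul 4 5,
  .mul 0 0,
  .mul 6 1,
  .mul 0 0,
  .const ⟨6597069766656, 0, 0, 0⟩,
  .inv 0,
  .mul 9 0,
  .mul 3 0,
  .sub 11 0,
  .mul 6 0,
  .scale ⟨3848290697216, 0, 0, 0⟩ 15,
  .mul 0 0,
  .const ⟨549755813888, 0, 0, 0⟩,
  .scale ⟨137438953472, 0, 0, 0⟩ 1,
  .sub 1 0,
  .mul 3 0,
  .add 19 0,
  .inv 0,
  .mul 7 0,
  .mul 0 0,
  .mul 1 19,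
  .const ⟨1099243192320, 0, 0, 0⟩,
  .scale ⟨3111703805952, 0, 0, 0⟩ 1,
  .sub 1 0,
  .scale ⟨25288767438848, 0, 0, 0⟩ 22,
  .sub 1 0,
  .scale ⟨549755813888, 0, 0, 0⟩ 22,
  .sub 1 0,
  .scale ⟨1556388773888, 0, 0, 0⟩ 7,
  .sub 7 0,
  .scale ⟨20890720927744, 0, 0, 0⟩ 28,
  .sub 1 0,
  .scale ⟨593779228672, 0, 0, 0⟩ 28,
  .sub 1 0,
  .mul 40 40,
  .mul 40 40,
  .mul 1 0,
  .add 0 40,
  .log 0,
  .scale ⟨549755813888, 0, 0, 0⟩ 0,
  .exp 0,
  .mul 45 0,
  .neg 2,
  .exp 0,
  .mul 2 2,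
  .mul 50 1,
  .mul 2 2,
  .mul 5 46,
  .mul 3 46,
  .scale ⟨8796093022208, 0, 0, 0⟩ 47,
  .sub 22 0,
  .scale ⟨10816875134976, 0, 0, 0⟩ 31,
  .const ⟨2704218783744, 0, 0, 0⟩,
  .add 1 0,
  .mul 5 0,
  .sub 4 0,
  .mul 54 54,
  .scale ⟨549755813888000, 0, 0, 0⟩ 0,
  .sub 61 0,
  .scale ⟨615726511554560, 0, 0, 0⟩ 2,
  .add 0 63,
  .scale ⟨4079145189376, 0, 0, 0⟩ 0,
  .mul 0 0,
  .mul 0 14,
  .add 0 67,
  .const ⟨2623956582400, 0, 0, 0⟩,
  .mul 56 0,
  .scale ⟨2199023255552, 0, 0, 0⟩ 0,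
  .mul 0 0,
  .mul 0 69,
  .add 0 73,
  .inv 0,
  .mul 4 0,
  .mul 64 7,
  .mul 0 2,
  .mul 2 2,
  .scale ⟨274877906944, 0, 0, 0⟩ 0,
  .add 0 80,
  .mul 3 0,
  .const ⟨3723468210176, 0, 0, 0⟩,
  .mul 70 0,
  .scale ⟨2199023255552, 0, 0, 0⟩ 0,
  .mul 0 0,
  .mul 0 83,
  .add 0 87,
  .inv 0,
  .mul 4 0,
  .mul 78 7,
  .mul 0 2,
  .mul 2 2,
  .scale ⟨274877906944, 0, 0, 0⟩ 0,
  .add 0 94,
  .mul 3 0,
  .mul 48 14,
  .mul 35 35,
  .neg 0,
  .add 0 99,
  .scale ⟨549755813888, 0, 0, 0⟩ 0,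
  .add 1 101,
  .neg 0,
  .mul 2 0,
  .add 0 104,
  .mul 68 0,
  .mul 75 61,
  .mul 0 9,
  .mul 0 12,
  .scale ⟨549755813888, 0, 0, 0⟩ 0,
  .mul 4 65,
  .scale ⟨549755813888, 0, 0, 0⟩ 0,
  .mul 1 1,
  .scale ⟨97184055296, 0, 0, 0⟩ 0,
  .const ⟨1554944884736, 0, 0, 0⟩,
  .add 1 0,
  .add 4 0,
  .inv 0,
  .mul 12 0,
  .add 0 9,
  .inv 0,
  .mul 62 24,
  .mul 0 60,
  .neg 0,
  .exp 0,
  .add 80 4,
  .mul 1 0,
  .neg 5,
  .exp 0,
  .mul 84 61,
  .mul 0 3,
  .mul 49 49,
  .mul 0 80,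
  .mul 86 51,
  .mul 0 83,
  .scale ⟨2199023255552, 0, 0, 0⟩ 0,
  .sub 136 0,
  .add 4 0,
  .scale ⟨2199023255552, 0, 0, 0⟩ 91,
  .add 74 57,
  .mul 89 0,
  .sub 2 0,
  .pos 0,
  .mul 95 77,
  .mul 0 92,
  .scale ⟨2199023255552, 0, 0, 0⟩ 0,
  .add 78 0,
  .const ⟨137438953472, 0, 0, 0⟩,
  .scale ⟨68719476736, 0, 0, 0⟩ 1,
  .sub 1 0,
  .mul 3 0,
  .sub 134 0,
  .mul 5 0,
  .add 152 0,
  .scale ⟨107642617856, 0, 0, 0⟩ 155,
  .const ⟨59122909184, 0, 0, 0⟩,
  .add 1 0,
  .scale ⟨27380416512, 0, 0, 0⟩ 158,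
  .const ⟨58451820544, 0, 0, 0⟩,
  .add 1 0,
  .scale ⟨4398046511104, 0, 0, 0⟩ 110,
  .add 0 113,
  .inv 0,
  .mul 6 0,
  .mul 0 10,
  .scale ⟨4398046511104, 0, 0, 0⟩ 0,
  .sub 165 0,
  .pos 0,
  .inv 0,
  .const ⟨2199023255552, 0, 0, 0⟩,
  .scale ⟨274877906944, 0, 0, 0⟩ 130,
  .sub 1 0,
  .mul 132 132,
  .scale ⟨5727322112, 0, 0, 0⟩ 0,
  .add 2 0,
  .mul 4 4,
  .mul 0 5,
  .mul 0 0,
  .scale ⟨900726784, 0, 0, 0⟩ 0,
  .add 4 0,
  .mul 130 113,
  .add 1 0,
  .mul 132 112,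
  .scale ⟨659707396096, 0, 0, 0⟩ 0,
  .add 51 0,
  .exp 0,
  .add 4 0,
  .sub 0 185,
  .mul 21 19,
  .mul 1 0,
  .add 57 0,
  .mul 0 140,
  .sub 190 61,
  .pos 0,
  .const ⟨769658978304, 0, 0, 0⟩,
  .log 1,
  .sub 1 0,
  .mul 189 0,
  .mul 66 30,
  .sub 196 0,
  .inv 0,
  .mul 2 0,
  .mul 194 0,
  .add 5 0,
  .mul 136 153,
  .mul 0 0,
  .add 0 165,
  .const ⟨17179869184, 0, 0, 0⟩,
  .add 1 0,
  .log 0,
  .scale ⟨549755813888, 0, 0, 0⟩ 0,
  .exp 0,
  .mul 0 160,
  .mul 1 205,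
  .scale ⟨549755813888, 0, 0, 0⟩ 0,
  .const ⟨1116004679680, 0, 0, 0⟩,
  .add 1 0,
  .scale ⟨549755813888, 0, 0, 0⟩ 163,
  .mul 0 77,
  .scale ⟨2253999046656, 0, 0, 0⟩ 169,
  .add 7 0,
  .mul 2 0,
  .mul 172 213,
  .scale ⟨549755813888, 0, 0, 0⟩ 0,
  .add 11 0,
  .mul 0 32,
  .add 4 0,
  .mul 219 35,
  .scale ⟨1869170606080, 0, 0, 0⟩ 0,
  .scale ⟨2418926419968, 0, 0, 0⟩ 25,
  .add 1 0,
  .mul 178 0,
  .add 5 0,
  .mul 16 0,
  .mul 0 183,
  .mul 1 181,
  .scale ⟨2199023255552, 0, 0, 0⟩ 0,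
  .sub 172 0,
  .pos 176,
  .sub 235 2,
  .pos 0,
  .pos 1,
  .const ⟨5408437567488, 0, 0, 0⟩,
  .sub 0 172,
  .sub 0 7,
  .add 6 239,
  .mul 0 0,
  .sub 2 0,
  .pos 0,
  .scale ⟨10115506765824, 0, 0, 0⟩ 7,
  .sub 0 6,
  .pos 0,
  .scale ⟨989560045568, 0, 0, 0⟩ 9,
  .scale ⟨26603832737792, 0, 0, 0⟩ 193,
  .sub 1 0,
  .pos 0,
  .sub 165 16,
  .pos 0,
  .scale ⟨187367948288, 0, 0, 0⟩ 236,
  .mul 0 13,
  .scale ⟨2623956582400, 0, 0, 0⟩ 244,
  .scale ⟨2199023255552, 0, 0, 0⟩ 0,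
  .exp 0,
  .mul 22 0,
  .sub 4 0,
  .pos 0,
  .sub 255 21,
  .scale ⟨4335769485312, 0, 0, 0⟩ 0,
  .sub 0 192,
  .sub 0 27,
  .pos 0,
  .neg 34,
  .const ⟨10994319360, 0, 0, 0⟩,
  .add 1 0,
  .pos 0,
  .neg 61,
  .const ⟨21989687296, 0, 0, 0⟩,
  .add 1 0,
  .pos 0,
  .neg 54,
  .const ⟨109950533632, 0, 0, 0⟩,
  .add 1 0,
  .pos 0,
  .mul 36 263,
  .neg 0,
  .const ⟨5496635392, 0, 0, 0⟩,
  .add 1 0,
  .pos 0,
  .neg 40,
  .sub 0 276,
  .scale ⟨2542620639232, 0, 0, 0⟩ 268,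
  .add 1 0,
  .const ⟨3556501356544, 0, 0, 0⟩,
  .add 1 0,
  .pos 0,
  .const ⟨3848290697216, 0, 0, 0⟩,
  .add 5 0,
  .pos 0,
  .const ⟨3536100261888, 0, 0, 0⟩,
  .mul 268 0,
  .scale ⟨2199023255552, 0, 0, 0⟩ 0,
  .mul 0 0,
  .mul 0 281,
  .add 0 285,
  .inv 0,
  .mul 4 0,
  .mul 276 7,
  .mul 0 2,
  .mul 2 2,
  .scale ⟨274877906944, 0, 0, 0⟩ 0,
  .add 0 292,
  .mul 3 0,
  .const ⟨4635611889664, 0, 0, 0⟩,
  .mul 282 0,
  .scale ⟨2199023255552, 0, 0, 0⟩ 0,
  .mul 0 0,
  .mul 0 295,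
  .add 0 299,
  .inv 0,
  .mul 4 0,
  .mul 290 7,
  .mul 0 2,
  .mul 2 2,
  .scale ⟨274877906944, 0, 0, 0⟩ 0,
  .add 0 306,
  .mul 3 0,
  .mul 73 246,
  .neg 0,
  .add 0 310,
  .scale ⟨549755813888, 0, 0, 0⟩ 0,
  .add 1 312,
  .neg 0,
  .mul 2 0,
  .add 0 315,
  .mul 279 0,
  .mul 210 8,
  .mul 0 10,
  .scale ⟨549755813888, 0, 0, 0⟩ 0,
  .mul 3 275,
  .scale ⟨549755813888, 0, 0, 0⟩ 0,
  .mul 1 1,
  .scale ⟨97184055296, 0, 0, 0⟩ 0,
  .add 0 209,
  .add 3 0,
  .inv 0,
  .mul 10 0,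
  .add 0 8,
  .inv 0,
  .mul 271 36,
  .mul 0 283,
  .mul 0 97,
  .neg 0,
  .exp 0,
  .add 290 5,
  .mul 1 0,
  .mul 292 0,
  .add 290 0,
  .mul 108 0,
  .scale ⟨549755813888, 0, 0, 0⟩ 0,
  .sub 341 0,
  .pos 0,
  .inv 0,
  .add 2 343,
  .mul 0 1,
  .mul 5 2,
  .scale ⟨274877906944, 0, 0, 0⟩ 299,
  .add 298 0,
  .mul 2 0,
  .scale ⟨1073741824, 0, 0, 0⟩ 343,
  .sub 350 0,
  .mul 0 195,
  .sub 0 3,
  .mul 18 194,
  .mul 9 0,
  .add 287 124,
  .mul 305 0,
  .add 0 357,
  .mul 3 0,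
  .sub 6 0,
  .pos 0]

def chk2 {α : Type} (cst : Z → α) (add sub mul : α → α → α) (scale : Z → α → α)
    (neg inv exp log : α → α) (ok : α → Bool) (isPos : Nat → α → Bool) (isLt : α → Nat → Bool) :
    List α → Bool
  | [x0, x1, x2] =>
  let v0 := cst ⟨1099511627776, 0, 0, 0⟩; ok v0 && (
  let v1 := cst ⟨3298534883328, 0, 0, 0⟩; ok v1 && (
  let v2 := inv v1; ok v2 && (
  let v3 := mul v0 v2; ok v3 && (
  let v4 := mul x0 x1; ok v4 && (
  let v5 := mul v4 v4; ok v5 && (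
  let v6 := mul x0 v4; ok v6 && (
  let v7 := mul v6 v6; ok v7 && (
  let v8 := cst ⟨6597069766656, 0, 0, 0⟩; ok v8 && (
  let v9 := inv v8; ok v9 && (
  let v10 := mul v0 v9; ok v10 && (
  let v11 := mul v7 v10; ok v11 && (
  let v12 := sub v0 v11; ok v12 && (
  let v13 := mul v6 v12; ok v13 && (
  let v14 := scale ⟨3848290697216, 0, 0, 0⟩ x1; ok v14 && (
  let v15 := mul v14 v14; ok v15 && (
  let v16 := cst ⟨549755813888, 0, 0, 0⟩; ok v16 && (
  let v17 := scale ⟨137438953472, 0, 0, 0⟩ v15; ok v17 && (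
  let v18 := sub v16 v17; ok v18 && (
  let v19 := mul v15 v18; ok v19 && (
  let v20 := add v0 v19; ok v20 && (
  let v21 := inv v20; ok v21 && (
  let v22 := mul v14 v21; ok v22 && (
  let v23 := mul v22 v22; ok v23 && (
  let v24 := mul v22 v4; ok v24 && (
  let v25 := cst ⟨1099243192320, 0, 0, 0⟩; ok v25 && (
  let v26 := scale ⟨3111703805952, 0, 0, 0⟩ v24; ok v26 && (
  let v27 := sub v25 v26; ok v27 && (
  let v28 := scale ⟨25288767438848, 0, 0, 0⟩ v5; ok v28 && (
  let v29 := sub v27 v28; ok v29 && (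
  let v30 := scale ⟨549755813888, 0, 0, 0⟩ v7; ok v30 && (
  let v31 := sub v29 v30; ok v31 && (
  let v32 := scale ⟨1556388773888, 0, 0, 0⟩ v24; ok v32 && (
  let v33 := sub v25 v32; ok v33 && (
  let v34 := scale ⟨20890720927744, 0, 0, 0⟩ v5; ok v34 && (
  let v35 := sub v33 v34; ok v35 && (
  let v36 := scale ⟨593779228672, 0, 0, 0⟩ v7; ok v36 && (
  let v37 := sub v35 v36; ok v37 && (
  let v38 := mul x2 x2; ok v38 && (
  let v39 := mul x1 x1; ok v39 && (
  let v40 := mul v38 v39; ok v40 && (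
  let v41 := add v40 v0; ok v41 && (
  let v42 := log v41; ok v42 && (
  let v43 := scale ⟨549755813888, 0, 0, 0⟩ v42; ok v43 && (
  let v44 := exp v43; ok v44 && (
  let v45 := mul x0 v44; ok v45 && (
  let v46 := neg v43; ok v46 && (
  let v47 := exp v46; ok v47 && (
  let v48 := mul v45 v45; ok v48 && (
  let v49 := mul x1 v47; ok v49 && (
  let v50 := mul v47 v47; ok v50 && (
  let v51 := mul v45 v4; ok v51 && (
  let v52 := mul v48 v5; ok v52 && (
  let v53 := scale ⟨8796093022208, 0, 0, 0⟩ v5; ok v53 && (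
  let v54 := sub v31 v53; ok v54 && (
  let v55 := scale ⟨10816875134976, 0, 0, 0⟩ v23; ok v55 && (
  let v56 := cst ⟨2704218783744, 0, 0, 0⟩; ok v56 && (
  let v57 := add v55 v56; ok v57 && (
  let v58 := mul v52 v57; ok v58 && (
  let v59 := sub v54 v58; ok v59 && (
  let v60 := mul v5 v5; ok v60 && (
  let v61 := scale ⟨549755813888000, 0, 0, 0⟩ v60; ok v61 && (
  let v62 := sub v0 v61; ok v62 && (
  let v63 := scale ⟨615726511554560, 0, 0, 0⟩ v60; ok v63 && (
  let v64 := add v63 v0; ok v64 && (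
  let v65 := scale ⟨4079145189376, 0, 0, 0⟩ v64; ok v65 && (
  let v66 := mul v65 v65; ok v66 && (
  let v67 := mul v66 v52; ok v67 && (
  let v68 := add v67 v0; ok v68 && (
  let v69 := cst ⟨2623956582400, 0, 0, 0⟩; ok v69 && (
  let v70 := mul v13 v69; ok v70 && (
  let v71 := scale ⟨2199023255552, 0, 0, 0⟩ v70; ok v71 && (
  let v72 := mul v71 v71; ok v72 && (
  let v73 := mul v72 v3; ok v73 && (
  let v74 := add v73 v0; ok v74 && (
  let v75 := inv v74; ok v75 && (
  let v76 := mul v71 v75; ok v76 && (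
  let v77 := mul v12 v69; ok v77 && (
  let v78 := mul v77 v75; ok v78 && (
  let v79 := mul v76 v76; ok v79 && (
  let v80 := scale ⟨274877906944, 0, 0, 0⟩ v79; ok v80 && (
  let v81 := add v80 v0; ok v81 && (
  let v82 := mul v78 v81; ok v82 && (
  let v83 := cst ⟨3723468210176, 0, 0, 0⟩; ok v83 && (
  let v84 := mul v13 v83; ok v84 && (
  let v85 := scale ⟨2199023255552, 0, 0, 0⟩ v84; ok v85 && (
  let v86 := mul v85 v85; ok v86 && (
  let v87 := mul v86 v3; ok v87 && (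
  let v88 := add v87 v0; ok v88 && (
  let v89 := inv v88; ok v89 && (
  let v90 := mul v85 v89; ok v90 && (
  let v91 := mul v12 v83; ok v91 && (
  let v92 := mul v91 v89; ok v92 && (
  let v93 := mul v90 v90; ok v93 && (
  let v94 := scale ⟨274877906944, 0, 0, 0⟩ v93; ok v94 && (
  let v95 := add v94 v0; ok v95 && (
  let v96 := mul v92 v95; ok v96 && (
  let v97 := mul v48 v82; ok v97 && (
  let v98 := mul v62 v62; ok v98 && (
  let v99 := neg v98; ok v99 && (
  let v100 := add v99 v0; ok v100 && (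
  let v101 := scale ⟨549755813888, 0, 0, 0⟩ v100; ok v101 && (
  let v102 := add v100 v0; ok v102 && (
  let v103 := neg v102; ok v103 && (
  let v104 := mul v101 v103; ok v104 && (
  let v105 := add v104 v0; ok v105 && (
  let v106 := mul v37 v105; ok v106 && (
  let v107 := mul v31 v45; ok v107 && (
  let v108 := mul v107 v98; ok v108 && (
  let v109 := mul v108 v96; ok v109 && (
  let v110 := scale ⟨549755813888, 0, 0, 0⟩ v109; ok v110 && (
  let v111 := mul v106 v45; ok v111 && (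
  let v112 := scale ⟨549755813888, 0, 0, 0⟩ v111; ok v112 && (
  let v113 := mul v111 v111; ok v113 && (
  let v114 := scale ⟨97184055296, 0, 0, 0⟩ v113; ok v114 && (
  let v115 := cst ⟨1554944884736, 0, 0, 0⟩; ok v115 && (
  let v116 := add v114 v115; ok v116 && (
  let v117 := add v112 v116; ok v117 && (
  let v118 := inv v117; ok v118 && (
  let v119 := mul v106 v118; ok v119 && (
  let v120 := add v119 v110; ok v120 && (
  let v121 := inv v120; ok v121 && (
  let v122 := mul v59 v97; ok v122 && (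
  let v123 := mul v122 v62; ok v123 && (
  let v124 := neg v123; ok v124 && (
  let v125 := exp v124; ok v125 && (
  let v126 := add v45 v121; ok v126 && (
  let v127 := mul v125 v126; ok v127 && (
  let v128 := neg v122; ok v128 && (
  let v129 := exp v128; ok v129 && (
  let v130 := mul v45 v68; ok v130 && (
  let v131 := mul v130 v127; ok v131 && (
  let v132 := mul v82 v82; ok v132 && (
  let v133 := mul v132 v52; ok v133 && (
  let v134 := mul v47 v82; ok v134 && (
  let v135 := mul v134 v51; ok v135 && (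
  let v136 := scale ⟨2199023255552, 0, 0, 0⟩ v135; ok v136 && (
  let v137 := sub v0 v136; ok v137 && (
  let v138 := add v133 v137; ok v138 && (
  let v139 := scale ⟨2199023255552, 0, 0, 0⟩ v47; ok v139 && (
  let v140 := add v65 v82; ok v140 && (
  let v141 := mul v51 v140; ok v141 && (
  let v142 := sub v139 v141; ok v142 && (
  isPos 3 v142 && (
  let v143 := mul v47 v65; ok v143 && (
  let v144 := mul v143 v51; ok v144 && (
  let v145 := scale ⟨2199023255552, 0, 0, 0⟩ v144; ok v145 && (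
  let v146 := add v67 v145; ok v146 && (
  let v147 := cst ⟨137438953472, 0, 0, 0⟩; ok v147 && (
  let v148 := scale ⟨68719476736, 0, 0, 0⟩ v146; ok v148 && (
  let v149 := sub v147 v148; ok v149 && (
  let v150 := mul v146 v149; ok v150 && (
  let v151 := sub v16 v150; ok v151 && (
  let v152 := mul v146 v151; ok v152 && (
  let v153 := add v0 v152; ok v153 && (
  let v154 := scale ⟨107642617856, 0, 0, 0⟩ x1; ok v154 && (
  let v155 := cst ⟨59122909184, 0, 0, 0⟩; ok v155 && (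
  let v156 := add v154 v155; ok v156 && (
  let v157 := scale ⟨27380416512, 0, 0, 0⟩ x1; ok v157 && (
  let v158 := cst ⟨58451820544, 0, 0, 0⟩; ok v158 && (
  let v159 := add v157 v158; ok v159 && (
  let v160 := scale ⟨4398046511104, 0, 0, 0⟩ v49; ok v160 && (
  let v161 := add v160 v47; ok v161 && (
  let v162 := inv v161; ok v162 && (
  let v163 := mul v156 v162; ok v163 && (
  let v164 := mul v163 v153; ok v164 && (
  let v165 := scale ⟨4398046511104, 0, 0, 0⟩ v164; ok v165 && (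
  let v166 := sub v0 v165; ok v166 && (
  isPos 3 v166 && (
  let v167 := inv v166; ok v167 && (
  let v168 := cst ⟨2199023255552, 0, 0, 0⟩; ok v168 && (
  let v169 := scale ⟨274877906944, 0, 0, 0⟩ v38; ok v169 && (
  let v170 := sub v168 v169; ok v170 && (
  let v171 := mul v38 v38; ok v171 && (
  let v172 := scale ⟨5727322112, 0, 0, 0⟩ v171; ok v172 && (
  let v173 := add v170 v172; ok v173 && (
  let v174 := mul v169 v169; ok v174 && (
  let v175 := mul v174 v169; ok v175 && (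
  let v176 := mul v175 v175; ok v176 && (
  let v177 := scale ⟨900726784, 0, 0, 0⟩ v176; ok v177 && (
  let v178 := add v173 v177; ok v178 && (
  let v179 := mul v48 v65; ok v179 && (
  let v180 := add v178 v179; ok v180 && (
  let v181 := mul v48 v68; ok v181 && (
  let v182 := scale ⟨659707396096, 0, 0, 0⟩ v181; ok v182 && (
  let v183 := add v131 v182; ok v183 && (
  let v184 := exp v183; ok v184 && (
  let v185 := add v180 v184; ok v185 && (
  let v186 := sub v185 v0; ok v186 && (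
  let v187 := mul v165 v167; ok v187 && (
  let v188 := mul v186 v187; ok v188 && (
  let v189 := add v131 v188; ok v189 && (
  let v190 := mul v189 v49; ok v190 && (
  let v191 := sub v0 v129; ok v191 && (
  isPos 3 v191 && (
  let v192 := cst ⟨769658978304, 0, 0, 0⟩; ok v192 && (
  let v193 := log v191; ok v193 && (
  let v194 := sub v192 v193; ok v194 && (
  let v195 := mul v5 v194; ok v195 && (
  let v196 := mul v129 v165; ok v196 && (
  let v197 := sub v0 v196; ok v197 && (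
  let v198 := inv v197; ok v198 && (
  let v199 := mul v196 v198; ok v199 && (
  let v200 := mul v5 v199; ok v200 && (
  let v201 := add v195 v200; ok v201 && (
  let v202 := mul v65 v48; ok v202 && (
  let v203 := mul v202 v202; ok v203 && (
  let v204 := add v203 v38; ok v204 && (
  let v205 := cst ⟨17179869184, 0, 0, 0⟩; ok v205 && (
  let v206 := add v204 v205; ok v206 && (
  let v207 := log v206; ok v207 && (
  let v208 := scale ⟨549755813888, 0, 0, 0⟩ v207; ok v208 && (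
  let v209 := exp v208; ok v209 && (
  let v210 := mul v209 v49; ok v210 && (
  let v211 := mul v209 v5; ok v211 && (
  let v212 := scale ⟨549755813888, 0, 0, 0⟩ v211; ok v212 && (
  let v213 := cst ⟨1116004679680, 0, 0, 0⟩; ok v213 && (
  let v214 := add v212 v213; ok v214 && (
  let v215 := scale ⟨549755813888, 0, 0, 0⟩ v51; ok v215 && (
  let v216 := mul v215 v138; ok v216 && (
  let v217 := scale ⟨2253999046656, 0, 0, 0⟩ v47; ok v217 && (
  let v218 := add v210 v217; ok v218 && (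
  let v219 := mul v216 v218; ok v219 && (
  let v220 := mul v47 v6; ok v220 && (
  let v221 := scale ⟨549755813888, 0, 0, 0⟩ v220; ok v221 && (
  let v222 := add v210 v221; ok v222 && (
  let v223 := mul v222 v190; ok v223 && (
  let v224 := add v219 v223; ok v224 && (
  let v225 := mul v5 v189; ok v225 && (
  let v226 := scale ⟨1869170606080, 0, 0, 0⟩ v225; ok v226 && (
  let v227 := scale ⟨2418926419968, 0, 0, 0⟩ v201; ok v227 && (
  let v228 := add v226 v227; ok v228 && (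
  let v229 := mul v50 v228; ok v229 && (
  let v230 := add v224 v229; ok v230 && (
  let v231 := mul v214 v230; ok v231 && (
  let v232 := mul v231 v48; ok v232 && (
  let v233 := mul v231 v51; ok v233 && (
  let v234 := scale ⟨2199023255552, 0, 0, 0⟩ v233; ok v234 && (
  let v235 := sub v62 v234; ok v235 && (
  isPos 3 v59 && (
  let v236 := sub v0 v233; ok v236 && (
  isPos 3 v236 && (
  isPos 3 v235 && (
  let v237 := cst ⟨5408437567488, 0, 0, 0⟩; ok v237 && (
  let v238 := sub v237 v65; ok v238 && (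
  let v239 := sub v238 v231; ok v239 && (
  let v240 := add v233 v0; ok v240 && (
  let v241 := mul v240 v240; ok v241 && (
  let v242 := sub v239 v241; ok v242 && (
  isPos 3 v242 && (
  let v243 := scale ⟨10115506765824, 0, 0, 0⟩ v235; ok v243 && (
  let v244 := sub v243 v237; ok v244 && (
  isPos 3 v244 && (
  let v245 := scale ⟨989560045568, 0, 0, 0⟩ v235; ok v245 && (
  let v246 := scale ⟨26603832737792, 0, 0, 0⟩ v52; ok v246 && (
  let v247 := sub v245 v246; ok v247 && (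
  isPos 3 v247 && (
  let v248 := sub v82 v231; ok v248 && (
  isPos 3 v248 && (
  let v249 := scale ⟨187367948288, 0, 0, 0⟩ v12; ok v249 && (
  let v250 := mul v249 v236; ok v250 && (
  let v251 := scale ⟨2623956582400, 0, 0, 0⟩ v6; ok v251 && (
  let v252 := scale ⟨2199023255552, 0, 0, 0⟩ v251; ok v252 && (
  let v253 := exp v252; ok v253 && (
  let v254 := mul v231 v253; ok v254 && (
  let v255 := sub v250 v254; ok v255 && (
  isPos 3 v255 && (
  let v256 := sub v0 v234; ok v256 && (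
  let v257 := scale ⟨4335769485312, 0, 0, 0⟩ v256; ok v257 && (
  let v258 := sub v257 v65; ok v258 && (
  let v259 := sub v258 v231; ok v259 && (
  isPos 3 v259 && (
  let v260 := neg v225; ok v260 && (
  let v261 := cst ⟨10994319360, 0, 0, 0⟩; ok v261 && (
  let v262 := add v260 v261; ok v262 && (
  isPos 3 v262 && (
  let v263 := neg v201; ok v263 && (
  let v264 := cst ⟨21989687296, 0, 0, 0⟩; ok v264 && (
  let v265 := add v263 v264; ok v265 && (
  isPos 3 v265 && (
  let v266 := neg v211; ok v266 && (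
  let v267 := cst ⟨109950533632, 0, 0, 0⟩; ok v267 && (
  let v268 := add v266 v267; ok v268 && (
  isPos 3 v268 && (
  let v269 := mul v232 v5; ok v269 && (
  let v270 := neg v269; ok v270 && (
  let v271 := cst ⟨5496635392, 0, 0, 0⟩; ok v271 && (
  let v272 := add v270 v271; ok v272 && (
  isPos 3 v272 && (
  let v273 := neg v232; ok v273 && (
  let v274 := sub v273 x2; ok v274 && (
  let v275 := scale ⟨2542620639232, 0, 0, 0⟩ v6; ok v275 && (
  let v276 := add v274 v275; ok v276 && (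
  let v277 := cst ⟨3556501356544, 0, 0, 0⟩; ok v277 && (
  let v278 := add v276 v277; ok v278 && (
  isPos 3 v278 && (
  let v279 := cst ⟨3848290697216, 0, 0, 0⟩; ok v279 && (
  let v280 := add v274 v279; ok v280 && (
  isPos 3 v280 && (
  let v281 := cst ⟨3536100261888, 0, 0, 0⟩; ok v281 && (
  let v282 := mul v13 v281; ok v282 && (
  let v283 := scale ⟨2199023255552, 0, 0, 0⟩ v282; ok v283 && (
  let v284 := mul v283 v283; ok v284 && (
  let v285 := mul v284 v3; ok v285 && (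
  let v286 := add v285 v0; ok v286 && (
  let v287 := inv v286; ok v287 && (
  let v288 := mul v283 v287; ok v288 && (
  let v289 := mul v12 v281; ok v289 && (
  let v290 := mul v289 v287; ok v290 && (
  let v291 := mul v288 v288; ok v291 && (
  let v292 := scale ⟨274877906944, 0, 0, 0⟩ v291; ok v292 && (
  let v293 := add v292 v0; ok v293 && (
  let v294 := mul v290 v293; ok v294 && (
  let v295 := cst ⟨4635611889664, 0, 0, 0⟩; ok v295 && (
  let v296 := mul v13 v295; ok v296 && (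
  let v297 := scale ⟨2199023255552, 0, 0, 0⟩ v296; ok v297 && (
  let v298 := mul v297 v297; ok v298 && (
  let v299 := mul v298 v3; ok v299 && (
  let v300 := add v299 v0; ok v300 && (
  let v301 := inv v300; ok v301 && (
  let v302 := mul v297 v301; ok v302 && (
  let v303 := mul v12 v295; ok v303 && (
  let v304 := mul v303 v301; ok v304 && (
  let v305 := mul v302 v302; ok v305 && (
  let v306 := scale ⟨274877906944, 0, 0, 0⟩ v305; ok v306 && (
  let v307 := add v306 v0; ok v307 && (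
  let v308 := mul v304 v307; ok v308 && (
  let v309 := mul v235 v62; ok v309 && (
  let v310 := neg v309; ok v310 && (
  let v311 := add v310 v0; ok v311 && (
  let v312 := scale ⟨549755813888, 0, 0, 0⟩ v311; ok v312 && (
  let v313 := add v311 v0; ok v313 && (
  let v314 := neg v313; ok v314 && (
  let v315 := mul v312 v314; ok v315 && (
  let v316 := add v315 v0; ok v316 && (
  let v317 := mul v37 v316; ok v317 && (
  let v318 := mul v107 v309; ok v318 && (
  let v319 := mul v318 v308; ok v319 && (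
  let v320 := scale ⟨549755813888, 0, 0, 0⟩ v319; ok v320 && (
  let v321 := mul v317 v45; ok v321 && (
  let v322 := scale ⟨549755813888, 0, 0, 0⟩ v321; ok v322 && (
  let v323 := mul v321 v321; ok v323 && (
  let v324 := scale ⟨97184055296, 0, 0, 0⟩ v323; ok v324 && (
  let v325 := add v324 v115; ok v325 && (
  let v326 := add v322 v325; ok v326 && (
  let v327 := inv v326; ok v327 && (
  let v328 := mul v317 v327; ok v328 && (
  let v329 := add v328 v320; ok v329 && (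
  let v330 := inv v329; ok v330 && (
  let v331 := mul v59 v294; ok v331 && (
  let v332 := mul v331 v48; ok v332 && (
  let v333 := mul v332 v235; ok v333 && (
  let v334 := neg v333; ok v334 && (
  let v335 := exp v334; ok v335 && (
  let v336 := add v45 v330; ok v336 && (
  let v337 := mul v335 v336; ok v337 && (
  let v338 := mul v45 v337; ok v338 && (
  let v339 := add v48 v338; ok v339 && (
  let v340 := mul v231 v339; ok v340 && (
  let v341 := scale ⟨549755813888, 0, 0, 0⟩ v340; ok v341 && (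
  let v342 := sub v0 v341; ok v342 && (
  isPos 3 v342 && (
  let v343 := inv v342; ok v343 && (
  let v344 := add v341 v0; ok v344 && (
  let v345 := mul v344 v343; ok v345 && (
  let v346 := mul v340 v343; ok v346 && (
  let v347 := scale ⟨274877906944, 0, 0, 0⟩ v47; ok v347 && (
  let v348 := add v49 v347; ok v348 && (
  let v349 := mul v346 v348; ok v349 && (
  let v350 := scale ⟨1073741824, 0, 0, 0⟩ v6; ok v350 && (
  let v351 := sub v0 v350; ok v351 && (
  let v352 := mul v351 v156; ok v352 && (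
  let v353 := sub v352 v349; ok v353 && (
  let v354 := mul v335 v159; ok v354 && (
  let v355 := mul v345 v354; ok v355 && (
  let v356 := add v68 v231; ok v356 && (
  let v357 := mul v51 v356; ok v357 && (
  let v358 := add v357 v0; ok v358 && (
  let v359 := mul v355 v358; ok v359 && (
  let v360 := sub v353 v359; ok v360 && (
  isPos 3 v360 && (
  true)))))))))))))))))))))))))))))))))))))))))))))))))))))))))))))))))))))))))))))))))))))))))))))))))))))))))))))))))))))))))))))))))))))))))))))))))))))))))))))))))))))))))))))))))))))))))))))))))))))))))))))))))))))))))))))))))))))))))))))))))))))))))))))))))))))))))))))))))))))))))))))))))))))))))))))))))))))))))))))))))))))))))))))))))))))))))))))))))))))))))))))))))))))))))))))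
  | _ => false

set_option maxRecDepth 1000000 in
theorem chk2_eq (O : Ops) (m : List O.α)
    (h : chk2 O.cst O.add O.sub O.mul O.scale O.neg O.inv O.exp O.log O.ok O.isPos O.isLt m = true) :
    runG O 3 prog2 m = true := by
  match m, h with
  | [x0, x1, x2], h => exact h

def chkB2 : List opsE.α → Bool :=
  chk2 opsE.cst opsE.add opsE.sub opsE.mul opsE.scale opsE.neg opsE.inv opsE.exp opsE.log opsE.ok opsE.isPos opsE.isLt

theorem chkB2_eq (m : List opsE.α) (h : chkB2 m = true) : runG opsE 3 prog2 m = true :=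
  chk2_eq opsE m h

def prog3 : List Op := [
  .mul 0 1,
  .const ⟨77763444736, 0, 0, 0⟩,
  .sub 1 0,
  .pos 0]

def chk3 {α : Type} (cst : Z → α) (add sub mul : α → α → α) (scale : Z → α → α)
    (neg inv exp log : α → α) (ok : α → Bool) (isPos : Nat → α → Bool) (isLt : α → Nat → Bool) :
    List α → Bool
  | [x0, x1, x2] =>
  let v0 := mul x0 x1; ok v0 && (
  let v1 := cst ⟨77763444736, 0, 0, 0⟩; ok v1 && (
  let v2 := sub v0 v1; ok v2 && (
  isPos 3 v2 && (
  true))))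
  | _ => false

set_option maxRecDepth 1000000 in
theorem chk3_eq (O : Ops) (m : List O.α)
    (h : chk3 O.cst O.add O.sub O.mul O.scale O.neg O.inv O.exp O.log O.ok O.isPos O.isLt m = true) :
    runG O 3 prog3 m = true := by
  match m, h with
  | [x0, x1, x2], h => exact h

def chkB3 : List opsE.α → Bool :=
  chk3 opsE.cst opsE.add opsE.sub opsE.mul opsE.scale opsE.neg opsE.inv opsE.exp opsE.log opsE.ok opsE.isPos opsE.isLt

theorem chkB3_eq (m : List opsE.α) (h : chkB3 m = true) : runG opsE 3 prog3 m = true :=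
  chk3_eq opsE m h

def prog4 : List Op := [
  .mul 0 0,
  .mul 1 2,
  .scale ⟨1924145348608, 0, 0, 0⟩ 0,
  .sub 2 0,
  .const ⟨1524363165696, 0, 0, 0⟩,
  .sub 1 0,
  .pos 0]

def chk4 {α : Type} (cst : Z → α) (add sub mul : α → α → α) (scale : Z → α → α)
    (neg inv exp log : α → α) (ok : α → Bool) (isPos : Nat → α → Bool) (isLt : α → Nat → Bool) :
    List α → Bool
  | [x0, x1, x2] =>
  let v0 := mul x0 x0; ok v0 && (
  let v1 := mul x0 x1; ok v1 && (
  let v2 := scale ⟨1924145348608, 0, 0, 0⟩ v1; ok v2 && (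
  let v3 := sub v0 v2; ok v3 && (
  let v4 := cst ⟨1524363165696, 0, 0, 0⟩; ok v4 && (
  let v5 := sub v3 v4; ok v5 && (
  isPos 3 v5 && (
  true)))))))
  | _ => false

set_option maxRecDepth 1000000 in
theorem chk4_eq (O : Ops) (m : List O.α)
    (h : chk4 O.cst O.add O.sub O.mul O.scale O.neg O.inv O.exp O.log O.ok O.isPos O.isLt m = true) :
    runG O 3 prog4 m = true := by
  match m, h with
  | [x0, x1, x2], h => exact h

def chkB4 : List opsE.α → Bool :=
  chk4 opsE.cst opsE.add opsE.sub opsE.mul opsE.scale opsE.neg opsE.inv opsE.exp opsE.log opsE.ok opsE.isPos opsE.isLt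

theorem chkB4_eq (m : List opsE.α) (h : chkB4 m = true) : runG opsE 3 prog4 m = true :=
  chk4_eq opsE m h

def prog5 : List Op := [
  .const ⟨1099511627776, 0, 0, 0⟩,
  .const ⟨3298534883328, 0, 0, 0⟩,
  .inv 0,
  .mul 2 0,
  .mul 4 5,
  .mul 0 0,
  .mul 6 1,
  .mul 0 0,
  .const ⟨6597069766656, 0, 0, 0⟩,
  .inv 0,
  .mul 9 0,
  .mul 3 0,
  .sub 11 0,
  .mul 6 0,
  .scale ⟨3848290697216, 0, 0, 0⟩ 15,
  .mul 0 0,
  .const ⟨549755813888, 0, 0, 0⟩,
  .scale ⟨137438953472, 0, 0, 0⟩ 1,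
  .sub 1 0,
  .mul 3 0,
  .add 19 0,
  .inv 0,
  .mul 7 0,
  .mul 0 0,
  .mul 1 19,
  .const ⟨1099243192320, 0, 0, 0⟩,
  .scale ⟨3111703805952, 0, 0, 0⟩ 1,
  .sub 1 0,
  .scale ⟨25288767438848, 0, 0, 0⟩ 22,
  .sub 1 0,
  .scale ⟨549755813888, 0, 0, 0⟩ 22,
  .sub 1 0,
  .scale ⟨1556388773888, 0, 0, 0⟩ 7,
  .sub 7 0,
  .scale ⟨20890720927744, 0, 0, 0⟩ 28,
  .sub 1 0,
  .scale ⟨593779228672, 0, 0, 0⟩ 28,
  .sub 1 0,
  .const ⟨1524444954624, 0, 0, 0⟩,
  .mul 25 0,
  .scale ⟨2199023255552, 0, 0, 0⟩ 0,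
  .mul 0 0,
  .mul 0 38,
  .add 0 42,
  .inv 0,
  .mul 4 0,
  .mul 33 7,
  .mul 0 2,
  .mul 2 2,
  .scale ⟨274877906944, 0, 0, 0⟩ 0,
  .add 0 49,
  .mul 3 0,
  .mul 52 52,
  .mul 55 55,
  .mul 55 55,
  .mul 1 0,
  .add 0 55,
  .mul 4 0,
  .mul 0 52,
  .scale ⟨2199023255552, 0, 0, 0⟩ 7,
  .add 0 59,
  .mul 2 0,
  .add 0 61,
  .mul 65 0,
  .scale ⟨2022929596416, 0, 0, 0⟩ 57,
  .sub 1 0,
  .const ⟨3523483795456, 0, 0, 0⟩,
  .sub 1 0,
  .pos 0]

def chk5 {α : Type} (cst : Z → α) (add sub mul : α → α → α) (scale : Z → α → α)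
    (neg inv exp log : α → α) (ok : α → Bool) (isPos : Nat → α → Bool) (isLt : α → Nat → Bool) :
    List α → Bool
  | [x0, x1, x2] =>
  let v0 := cst ⟨1099511627776, 0, 0, 0⟩; ok v0 && (
  let v1 := cst ⟨3298534883328, 0, 0, 0⟩; ok v1 && (
  let v2 := inv v1; ok v2 && (
  let v3 := mul v0 v2; ok v3 && (
  let v4 := mul x0 x1; ok v4 && (
  let v5 := mul v4 v4; ok v5 && (
  let v6 := mul x0 v4; ok v6 && (
  let v7 := mul v6 v6; ok v7 && (
  let v8 := cst ⟨6597069766656, 0, 0, 0⟩; ok v8 && (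
  let v9 := inv v8; ok v9 && (
  let v10 := mul v0 v9; ok v10 && (
  let v11 := mul v7 v10; ok v11 && (
  let v12 := sub v0 v11; ok v12 && (
  let v13 := mul v6 v12; ok v13 && (
  let v14 := scale ⟨3848290697216, 0, 0, 0⟩ x1; ok v14 && (
  let v15 := mul v14 v14; ok v15 && (
  let v16 := cst ⟨549755813888, 0, 0, 0⟩; ok v16 && (
  let v17 := scale ⟨137438953472, 0, 0, 0⟩ v15; ok v17 && (
  let v18 := sub v16 v17; ok v18 && (
  let v19 := mul v15 v18; ok v19 && (
  let v20 := add v0 v19; ok v20 && (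
  let v21 := inv v20; ok v21 && (
  let v22 := mul v14 v21; ok v22 && (
  let v23 := mul v22 v22; ok v23 && (
  let v24 := mul v22 v4; ok v24 && (
  let v25 := cst ⟨1099243192320, 0, 0, 0⟩; ok v25 && (
  let v26 := scale ⟨3111703805952, 0, 0, 0⟩ v24; ok v26 && (
  let v27 := sub v25 v26; ok v27 && (
  let v28 := scale ⟨25288767438848, 0, 0, 0⟩ v5; ok v28 && (
  let v29 := sub v27 v28; ok v29 && (
  let v30 := scale ⟨549755813888, 0, 0, 0⟩ v7; ok v30 && (
  let v31 := sub v29 v30; ok v31 && (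
  let v32 := scale ⟨1556388773888, 0, 0, 0⟩ v24; ok v32 && (
  let v33 := sub v25 v32; ok v33 && (
  let v34 := scale ⟨20890720927744, 0, 0, 0⟩ v5; ok v34 && (
  let v35 := sub v33 v34; ok v35 && (
  let v36 := scale ⟨593779228672, 0, 0, 0⟩ v7; ok v36 && (
  let v37 := sub v35 v36; ok v37 && (
  let v38 := cst ⟨1524444954624, 0, 0, 0⟩; ok v38 && (
  let v39 := mul v13 v38; ok v39 && (
  let v40 := scale ⟨2199023255552, 0, 0, 0⟩ v39; ok v40 && (
  let v41 := mul v40 v40; ok v41 && (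
  let v42 := mul v41 v3; ok v42 && (
  let v43 := add v42 v0; ok v43 && (
  let v44 := inv v43; ok v44 && (
  let v45 := mul v40 v44; ok v45 && (
  let v46 := mul v12 v38; ok v46 && (
  let v47 := mul v46 v44; ok v47 && (
  let v48 := mul v45 v45; ok v48 && (
  let v49 := scale ⟨274877906944, 0, 0, 0⟩ v48; ok v49 && (
  let v50 := add v49 v0; ok v50 && (
  let v51 := mul v47 v50; ok v51 && (
  let v52 := mul x0 x0; ok v52 && (
  let v53 := mul x2 x2; ok v53 && (
  let v54 := mul x1 x1; ok v54 && (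
  let v55 := mul v53 v54; ok v55 && (
  let v56 := add v55 v0; ok v56 && (
  let v57 := mul v52 v56; ok v57 && (
  let v58 := mul v57 v5; ok v58 && (
  let v59 := scale ⟨2199023255552, 0, 0, 0⟩ v51; ok v59 && (
  let v60 := add v59 v0; ok v60 && (
  let v61 := mul v58 v60; ok v61 && (
  let v62 := add v61 v0; ok v62 && (
  let v63 := mul x2 v62; ok v63 && (
  let v64 := scale ⟨2022929596416, 0, 0, 0⟩ v6; ok v64 && (
  let v65 := sub v63 v64; ok v65 && (
  let v66 := cst ⟨3523483795456, 0, 0, 0⟩; ok v66 && (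
  let v67 := sub v65 v66; ok v67 && (
  isPos 3 v67 && (
  true)))))))))))))))))))))))))))))))))))))))))))))))))))))))))))))))))))))
  | _ => false

set_option maxRecDepth 1000000 in
theorem chk5_eq (O : Ops) (m : List O.α)
    (h : chk5 O.cst O.add O.sub O.mul O.scale O.neg O.inv O.exp O.log O.ok O.isPos O.isLt m = true) :
    runG O 3 prog5 m = true := by
  match m, h with
  | [x0, x1, x2], h => exact h

def chkB5 : List opsE.α → Bool :=
  chk5 opsE.cst opsE.add opsE.sub opsE.mul opsE.scale opsE.neg opsE.inv opsE.exp opsE.log opsE.ok opsE.isPos opsE.isLt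

theorem chkB5_eq (m : List opsE.α) (h : chkB5 m = true) : runG opsE 3 prog5 m = true :=
  chk5_eq opsE m h

def progs : List (List Op) := [prog0, prog1, prog2, prog3, prog4, prog5]

def chks : List (List opsE.α → Bool) := [chkB0, chkB1, chkB2, chkB3, chkB4, chkB5]

theorem chks_eq : List.Forall₂ (fun (ops : List Op) (chk : List opsE.α → Bool) =>
    ∀ m, chk m = true → runG opsE 3 ops m = true) progs chks :=
  List.Forall₂.cons chkB0_eq (List.Forall₂.cons chkB1_eq (List.Forall₂.cons chkB2_eq (List.Forall₂.cons chkB3_eq (List.Forall₂.cons chkB4_eq (List.Forall₂.cons chkB5_eq List.Forall₂.nil)))))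

end Pool.Agent.helper31.EQB.Cert.LB1
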