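import Pool.Agent.helper31.EQB.Cert.LB1P

/-!
Generated certificates.
-/

namespace Pool.Agent.helper31.EQB.Cert.LB1

open Pool.Agent.helper31.IA (Z Op)
open Pool.Agent.helper31.IC

mutual
theorem c0_m0_t0 : CovD 0 progs [(85899345920, 85899345920), (27487797248, 27487797248), (962072674304, 962072674304)] :=
  Pool.Agent.helper14.QF.covD_F chks_eq (.n 0 (.n 2 (.n 2 (.n 2 (.n 0 (.n 2 (.l 0) (.l 0)) (.n 2 (.l 0) (.l 0))) (.n 2 (.l 0) (.l 0))) (.n 2 (.l 0) (.l 0))) (.n 2 (.l 0) (.l 0))) (.n 2 (.n 2 (.n 2 (.n 2 (.n 2 (.l 0) (.l 0)) (.n 2 (.l 0) (.l 0))) (.n 2 (.l 0) (.l 0))) (.n 2 (.l 0) (.l 0))) (.n 2 (.l 0) (.l 0))))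
    [(85899345920, 85899345920), (27487797248, 27487797248), (962072674304, 962072674304)] rfl (by decide +kernel)
theorem c0_m0_t1 : CovD 0 progs [(85899345920, 85899345920), (82463391744, 27487797248), (962072674304, 962072674304)] :=
  Pool.Agent.helper14.QF.covD_F chks_eq (.n 2 (.n 2 (.n 2 (.n 2 (.n 0 (.n 0 (.l 0) (.l 0)) (.n 2 (.l 0) (.l 0))) (.n 2 (.l 0) (.l 0))) (.n 2 (.l 0) (.l 0))) (.n 2 (.l 0) (.l 0))) (.n 2 (.l 0) (.l 0)))
    [(85899345920, 85899345920), (82463391744, 27487797248), (962072674304, 962072674304)] rfl (by decide +kernel)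
end
mutual
theorem c0_m0_t3 : CovD 0 progs [(257698037760, 85899345920), (54975594496, 54975594496), (962072674304, 962072674304)] :=
  Pool.Agent.helper14.QF.covD_F chks_eq (.n 2 (.n 2 (.n 0 (.n 2 (.n 0 (.n 2 (.l 0) (.n 0 (.l 0) (.l 0))) (.n 2 (.l 0) (.l 0))) (.n 2 (.l 0) (.l 0))) (.n 2 (.n 0 (.n 2 (.l 0) (.l 0)) (.n 0 (.l 0) (.l 0))) (.n 2 (.n 0 (.l 0) (.l 0)) (.l 0)))) (.n 2 (.n 0 (.l 0) (.l 0)) (.l 0))) (.n 2 (.l 0) (.l 0)))
    [(257698037760, 85899345920), (54975594496, 54975594496), (962072674304, 962072674304)] rfl (by decide +kernel)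
theorem c0_m0_t5 : CovD 0 progs [(515396075520, 171798691840), (54975594496, 54975594496), (962072674304, 962072674304)] :=
  Pool.Agent.helper14.QF.covD_F chks_eq (.n 0 (.n 2 (.n 0 (.n 2 (.n 0 (.n 2 (.l 0) (.l 0)) (.n 2 (.l 0) (.l 0))) (.n 2 (.l 0) (.l 0))) (.n 2 (.n 2 (.l 0) (.l 0)) (.n 2 (.l 0) (.l 0)))) (.n 2 (.n 0 (.l 0) (.l 0)) (.l 0))) (.n 2 (.n 0 (.n 2 (.l 0) (.l 0)) (.n 2 (.l 1) (.l 1))) (.n 2 (.n 0 (.l 0) (.l 1)) (.l 1))))
    [(515396075520, 171798691840), (54975594496, 54975594496), (962072674304, 962072674304)] rfl (by decide +kernel)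
end
mutual
theorem c1_m0_t0 : CovD 0 progs [(171798691840, 171798691840), (54975594496, 54975594496), (2886218022912, 962072674304)] :=
  Pool.Agent.helper14.QF.covD_F chks_eq (.n 2 (.n 0 (.n 0 (.n 0 (.l 0) (.l 0)) (.l 0)) (.n 0 (.l 0) (.l 0))) (.n 2 (.n 0 (.n 0 (.n 0 (.l 0) (.l 0)) (.l 0)) (.n 0 (.l 0) (.l 0))) (.n 2 (.n 1 (.n 2 (.n 0 (.n 0 (.l 0) (.l 0)) (.l 0)) (.n 2 (.n 0 (.n 0 (.l 0) (.l 0)) (.l 0)) (.l 5))) (.n 2 (.n 0 (.l 0) (.l 0)) (.n 2 (.n 0 (.l 0) (.l 0)) (.l 5)))) (.l 5))))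
    [(171798691840, 171798691840), (54975594496, 54975594496), (2886218022912, 962072674304)] rfl (by decide +kernel)
theorem c1_m0_t1 : CovD 0 progs [(515396075520, 171798691840), (54975594496, 54975594496), (2405181685760, 481036337152)] :=
  Pool.Agent.helper14.QF.covD_F chks_eq (.n 0 (.l 0) (.n 0 (.l 0) (.l 1)))
    [(515396075520, 171798691840), (54975594496, 54975594496), (2405181685760, 481036337152)] rfl (by decide +kernel)
end
mutual
theorem c1_m0_t2 : CovD 0 progs [(515396075520, 171798691840), (54975594496, 54975594496), (3126736191488, 240518168576)] :=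
  Pool.Agent.helper14.QF.covD_F chks_eq (.n 0 (.l 0) (.l 1))
    [(515396075520, 171798691840), (54975594496, 54975594496), (3126736191488, 240518168576)] rfl (by decide +kernel)
theorem c1_m0_t3 : CovD 0 progs [(515396075520, 171798691840), (54975594496, 54975594496), (3487513444352, 120259084288)] :=
  Pool.Agent.helper14.QF.covD_F chks_eq (.n 1 (.n 2 (.l 0) (.n 0 (.n 2 (.l 0) (.l 5)) (.n 2 (.l 0) (.n 1 (.l 5) (.n 2 (.n 2 (.l 0) (.l 5)) (.l 5)))))) (.n 0 (.n 2 (.l 0) (.n 2 (.l 0) (.n 2 (.n 2 (.n 0 (.l 0) (.l 0)) (.n 0 (.l 5) (.l 5))) (.l 5)))) (.n 2 (.l 1) (.n 2 (.l 1) (.n 1 (.n 2 (.n 0 (.l 2) (.l 0)) (.l 5)) (.n 2 (.l 1) (.n 2 (.n 0 (.l 5) (.l 1)) (.l 5))))))))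
    [(515396075520, 171798691840), (54975594496, 54975594496), (3487513444352, 120259084288)] rfl (by decide +kernel)
end
mutual
theorem c1_m0_t4 : CovD 0 progs [(515396075520, 171798691840), (54975594496, 54975594496), (3728031612928, 120259084288)] :=
  Pool.Agent.helper14.QF.covD_F chks_eq (.l 5)
    [(515396075520, 171798691840), (54975594496, 54975594496), (3728031612928, 120259084288)] rfl (by decide +kernel)
theorem c2_m0_t0 : CovD 0 progs [(85899345920, 85899345920), (164926783488, 54975660032), (962072674304, 962072674304)] :=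
  Pool.Agent.helper14.QF.covD_F chks_eq (.n 1 (.n 2 (.n 2 (.n 2 (.n 2 (.n 0 (.n 0 (.l 0) (.l 0)) (.n 2 (.l 0) (.l 0))) (.n 2 (.l 0) (.l 0))) (.n 2 (.l 0) (.l 0))) (.n 2 (.l 0) (.l 0))) (.n 2 (.l 0) (.l 0))) (.n 2 (.n 2 (.n 2 (.n 2 (.n 0 (.n 0 (.l 0) (.l 0)) (.n 2 (.l 0) (.l 0))) (.n 2 (.l 0) (.l 0))) (.n 2 (.l 0) (.l 0))) (.n 2 (.l 0) (.l 0))) (.n 2 (.l 0) (.l 0))))
    [(85899345920, 85899345920), (164926783488, 54975660032), (962072674304, 962072674304)] rfl (by decide +kernel)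
end
mutual
theorem c2_m0_t1 : CovD 0 progs [(257698037760, 85899345920), (164926783488, 54975660032), (962072674304, 962072674304)] :=
  Pool.Agent.helper14.QF.covD_F chks_eq (.n 0 (.n 2 (.n 2 (.n 2 (.n 0 (.n 0 (.n 2 (.l 0) (.l 0)) (.n 2 (.l 0) (.l 0))) (.n 2 (.l 0) (.l 0))) (.n 2 (.l 0) (.l 0))) (.n 2 (.l 0) (.l 0))) (.n 2 (.l 0) (.l 0))) (.n 2 (.n 2 (.n 2 (.n 0 (.n 2 (.l 0) (.l 0)) (.n 0 (.l 1) (.l 1))) (.n 2 (.n 0 (.l 0) (.l 1)) (.l 1))) (.n 2 (.l 1) (.l 1))) (.n 2 (.l 1) (.l 1))))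
    [(257698037760, 85899345920), (164926783488, 54975660032), (962072674304, 962072674304)] rfl (by decide +kernel)
theorem c2_m0_t3 : CovD 0 progs [(386547056640, 42949672960), (164926783488, 54975660032), (962072674304, 962072674304)] :=
  Pool.Agent.helper14.QF.covD_F chks_eq (.n 2 (.n 2 (.n 0 (.n 2 (.l 1) (.l 1)) (.n 2 (.l 1) (.l 1))) (.n 1 (.n 2 (.l 1) (.l 1)) (.n 2 (.l 1) (.l 1)))) (.n 0 (.n 2 (.l 1) (.l 1)) (.n 1 (.n 2 (.l 1) (.l 1)) (.n 1 (.n 2 (.l 1) (.l 1)) (.n 0 (.n 2 (.l 1) (.n 2 (.l 1) (.l 1))) (.n 1 (.n 2 (.l 1) (.l 1)) (.n 0 (.n 1 (.n 2 (.l 1) (.l 1)) (.l 3)) (.l 3))))))))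
    [(386547056640, 42949672960), (164926783488, 54975660032), (962072674304, 962072674304)] rfl (by decide +kernel)
end
mutual
theorem c2_m0_t4 : CovD 0 progs [(450971566080, 21474836480), (164926783488, 54975660032), (962072674304, 962072674304)] :=
  Pool.Agent.helper14.QF.covD_F chks_eq (.n 1 (.n 2 (.n 0 (.n 2 (.l 1) (.l 1)) (.n 2 (.l 1) (.l 1))) (.n 2 (.l 1) (.l 1))) (.n 1 (.n 2 (.n 0 (.n 2 (.l 1) (.l 1)) (.n 2 (.l 1) (.l 1))) (.n 2 (.l 1) (.l 1))) (.n 0 (.n 1 (.n 1 (.n 2 (.n 2 (.l 1) (.l 1)) (.n 2 (.l 1) (.l 1))) (.l 3)) (.l 3)) (.l 3))))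
    [(450971566080, 21474836480), (164926783488, 54975660032), (962072674304, 962072674304)] rfl (by decide +kernel)
theorem c2_m0_t5 : CovD 0 progs [(493921239040, 21474836480), (164926783488, 54975660032), (962072674304, 962072674304)] :=
  Pool.Agent.helper14.QF.covD_F chks_eq (.n 1 (.n 2 (.n 2 (.l 1) (.l 1)) (.n 2 (.l 1) (.l 1))) (.n 0 (.n 1 (.n 2 (.n 2 (.l 1) (.l 1)) (.n 2 (.l 1) (.n 0 (.l 1) (.n 1 (.l 1) (.l 3))))) (.l 3)) (.n 1 (.n 1 (.n 2 (.n 2 (.l 1) (.l 1)) (.n 2 (.l 1) (.l 1))) (.l 3)) (.l 3))))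
    [(493921239040, 21474836480), (164926783488, 54975660032), (962072674304, 962072674304)] rfl (by decide +kernel)
end
mutual
theorem c2_m0_t8 : CovD 0 progs [(558345748480, 42949672960), (137438953472, 27487830016), (962072674304, 962072674304)] :=
  Pool.Agent.helper14.QF.covD_F chks_eq (.n 0 (.n 2 (.n 2 (.l 1) (.l 1)) (.n 2 (.l 1) (.l 1))) (.n 1 (.n 2 (.n 2 (.l 1) (.l 1)) (.n 2 (.l 1) (.l 1))) (.n 1 (.n 2 (.n 2 (.l 1) (.l 1)) (.n 2 (.l 1) (.l 1))) (.n 0 (.n 0 (.n 2 (.n 2 (.l 1) (.l 1)) (.n 2 (.l 1) (.l 1))) (.l 3)) (.l 3)))))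
    [(558345748480, 42949672960), (137438953472, 27487830016), (962072674304, 962072674304)] rfl (by decide +kernel)
theorem c2_m0_t9 : CovD 0 progs [(558345748480, 42949672960), (192414613504, 27487830016), (962072674304, 962072674304)] :=
  Pool.Agent.helper14.QF.covD_F chks_eq (.n 0 (.n 0 (.n 0 (.n 1 (.n 1 (.n 2 (.n 2 (.l 1) (.l 1)) (.n 2 (.l 1) (.l 1))) (.l 3)) (.l 3)) (.l 3)) (.l 3)) (.l 3))
    [(558345748480, 42949672960), (192414613504, 27487830016), (962072674304, 962072674304)] rfl (by decide +kernel)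
theorem c2_m0_t11 : CovD 0 progs [(644245094400, 42949672960), (164926783488, 54975660032), (962072674304, 962072674304)] :=
  Pool.Agent.helper14.QF.covD_F chks_eq (.n 1 (.n 1 (.n 2 (.n 2 (.l 1) (.l 1)) (.n 2 (.l 1) (.l 1))) (.n 0 (.n 1 (.n 0 (.n 2 (.l 1) (.l 1)) (.n 0 (.l 3) (.l 3))) (.l 3)) (.l 3))) (.l 3))
    [(644245094400, 42949672960), (164926783488, 54975660032), (962072674304, 962072674304)] rfl (by decide +kernel)
end

theorem c0_m0_t2 : CovD 0 progs [(85899345920, 85899345920), (54975594496, 54975594496), (962072674304, 962072674304)] :=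
  covD_split 1 (by decide +kernel) c0_m0_t0 c0_m0_t1
theorem c0_m0_t4 : CovD 0 progs [(171798691840, 171798691840), (54975594496, 54975594496), (962072674304, 962072674304)] :=
  covD_split 0 (by decide +kernel) c0_m0_t2 c0_m0_t3
theorem c0_m0 : CovD 0 progs [(343597383680, 343597383680), (54975594496, 54975594496), (962072674304, 962072674304)] :=
  covD_split 0 (by decide +kernel) c0_m0_t4 c0_m0_t5
theorem c1_m0_t5 : CovD 0 progs [(515396075520, 171798691840), (54975594496, 54975594496), (3607772528640, 240518168576)] :=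
  covD_split 2 (by decide +kernel) c1_m0_t3 c1_m0_t4
theorem c1_m0_t6 : CovD 0 progs [(515396075520, 171798691840), (54975594496, 54975594496), (3367254360064, 481036337152)] :=
  covD_split 2 (by decide +kernel) c1_m0_t2 c1_m0_t5
theorem c1_m0_t7 : CovD 0 progs [(515396075520, 171798691840), (54975594496, 54975594496), (2886218022912, 962072674304)] :=
  covD_split 2 (by decide +kernel) c1_m0_t1 c1_m0_t6
theorem c1_m0 : CovD 0 progs [(343597383680, 343597383680), (54975594496, 54975594496), (2886218022912, 962072674304)] :=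
  covD_split 0 (by decide +kernel) c1_m0_t0 c1_m0_t7
theorem c2_m0_t2 : CovD 0 progs [(171798691840, 171798691840), (164926783488, 54975660032), (962072674304, 962072674304)] :=
  covD_split 0 (by decide +kernel) c2_m0_t0 c2_m0_t1
theorem c2_m0_t6 : CovD 0 progs [(472446402560, 42949672960), (164926783488, 54975660032), (962072674304, 962072674304)] :=
  covD_split 0 (by decide +kernel) c2_m0_t4 c2_m0_t5
theorem c2_m0_t7 : CovD 0 progs [(429496729600, 85899345920), (164926783488, 54975660032), (962072674304, 962072674304)] :=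
  covD_split 0 (by decide +kernel) c2_m0_t3 c2_m0_t6
theorem c2_m0_t10 : CovD 0 progs [(558345748480, 42949672960), (164926783488, 54975660032), (962072674304, 962072674304)] :=
  covD_split 1 (by decide +kernel) c2_m0_t8 c2_m0_t9
theorem c2_m0_t12 : CovD 0 progs [(601295421440, 85899345920), (164926783488, 54975660032), (962072674304, 962072674304)] :=
  covD_split 0 (by decide +kernel) c2_m0_t10 c2_m0_t11
theorem c2_m0_t13 : CovD 0 progs [(515396075520, 171798691840), (164926783488, 54975660032), (962072674304, 962072674304)] :=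
  covD_split 0 (by decide +kernel) c2_m0_t7 c2_m0_t12
theorem c2_m0 : CovD 0 progs [(343597383680, 343597383680), (164926783488, 54975660032), (962072674304, 962072674304)] :=
  covD_split 0 (by decide +kernel) c2_m0_t2 c2_m0_t13

end Pool.Agent.helper31.EQB.Cert.LB1
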