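import Pool.Agent.helper31.EQB.Cert.LB2P

/-!
Generated certificates.
-/

namespace Pool.Agent.helper31.EQB.Cert.LB2

open Pool.Agent.helper31.IA (Z Op)
open Pool.Agent.helper31.IC

mutual
theorem c4_m0_t0 : CovD 0 progs [(1030792151040, 343597383680), (27487797248, 27487797248), (962072674304, 962072674304)] :=
  Pool.Agent.helper14.QF.covD_F chks_eq (.n 1 (.n 0 (.n 0 (.n 0 (.n 2 (.l 0) (.l 0)) (.l 0)) (.n 0 (.l 0) (.l 0))) (.n 0 (.l 0) (.n 0 (.l 0) (.l 0)))) (.n 0 (.n 0 (.n 0 (.n 2 (.l 0) (.l 0)) (.n 0 (.l 0) (.l 0))) (.n 0 (.l 0) (.l 0))) (.n 0 (.l 1) (.n 1 (.l 1) (.l 1)))))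
    [(1030792151040, 343597383680), (27487797248, 27487797248), (962072674304, 962072674304)] rfl (by decide +kernel)
theorem c4_m0_t1 : CovD 0 progs [(858993459200, 171798691840), (68719493120, 13743898624), (962072674304, 962072674304)] :=
  Pool.Agent.helper14.QF.covD_F chks_eq (.n 0 (.n 0 (.n 2 (.l 0) (.l 0)) (.n 0 (.l 0) (.l 1))) (.n 0 (.l 1) (.l 1)))
    [(858993459200, 171798691840), (68719493120, 13743898624), (962072674304, 962072674304)] rfl (by decide +kernel)
end
mutual
theorem c4_m0_t2 : CovD 0 progs [(1202590842880, 171798691840), (61847543808, 6871949312), (962072674304, 962072674304)] :=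
  Pool.Agent.helper14.QF.covD_F chks_eq (.n 0 (.l 1) (.n 0 (.n 0 (.l 1) (.n 0 (.l 1) (.n 0 (.l 1) (.n 1 (.l 1) (.n 1 (.l 1) (.n 1 (.l 1) (.l 2))))))) (.n 0 (.n 1 (.l 1) (.n 1 (.l 1) (.n 1 (.n 1 (.n 0 (.l 1) (.l 2)) (.n 0 (.l 1) (.l 2))) (.l 2)))) (.n 1 (.l 1) (.n 1 (.n 1 (.n 0 (.l 1) (.l 3)) (.n 1 (.n 0 (.l 1) (.l 2)) (.l 2))) (.l 2))))))
    [(1202590842880, 171798691840), (61847543808, 6871949312), (962072674304, 962072674304)] rfl (by decide +kernel)
theorem c4_m0_t3 : CovD 0 progs [(1202590842880, 171798691840), (72155467776, 3435974656), (962072674304, 962072674304)] :=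
  Pool.Agent.helper14.QF.covD_F chks_eq (.n 1 (.n 1 (.n 0 (.l 1) (.n 0 (.n 0 (.l 1) (.l 2)) (.l 2))) (.n 1 (.n 0 (.l 1) (.n 0 (.n 0 (.l 1) (.l 2)) (.l 2))) (.n 0 (.l 1) (.l 2)))) (.n 1 (.n 0 (.l 1) (.l 2)) (.n 0 (.n 0 (.l 1) (.n 0 (.l 1) (.l 2))) (.l 2))))
    [(1202590842880, 171798691840), (72155467776, 3435974656), (962072674304, 962072674304)] rfl (by decide +kernel)
end
mutual
theorem c4_m0_t4 : CovD 0 progs [(1202590842880, 171798691840), (79027417088, 3435974656), (962072674304, 962072674304)] :=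
  Pool.Agent.helper14.QF.covD_F chks_eq (.n 1 (.n 0 (.n 1 (.n 0 (.l 1) (.n 0 (.l 1) (.l 2))) (.n 0 (.l 1) (.l 2))) (.l 2)) (.n 0 (.n 1 (.n 0 (.l 1) (.l 2)) (.n 0 (.n 0 (.l 1) (.l 2)) (.l 2))) (.l 2)))
    [(1202590842880, 171798691840), (79027417088, 3435974656), (962072674304, 962072674304)] rfl (by decide +kernel)
theorem c4_m0_t8 : CovD 0 progs [(858993459200, 171798691840), (96207290368, 13743898624), (962072674304, 962072674304)] :=
  Pool.Agent.helper14.QF.covD_F chks_eq (.n 0 (.n 0 (.n 2 (.l 1) (.l 1)) (.n 0 (.l 1) (.n 0 (.l 1) (.n 1 (.l 1) (.n 1 (.l 1) (.l 2)))))) (.n 0 (.n 1 (.l 1) (.n 0 (.n 1 (.n 1 (.l 1) (.l 2)) (.l 2)) (.l 2))) (.n 0 (.n 1 (.n 1 (.l 1) (.n 1 (.n 0 (.l 1) (.l 2)) (.l 2))) (.l 2)) (.n 1 (.n 0 (.n 1 (.l 1) (.l 2)) (.n 1 (.n 1 (.l 1) (.l 2)) (.l 2))) (.l 2)))))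
    [(858993459200, 171798691840), (96207290368, 13743898624), (962072674304, 962072674304)] rfl (by decide +kernel)
end
mutual
theorem c4_m0_t9 : CovD 0 progs [(1202590842880, 171798691840), (96207290368, 13743898624), (962072674304, 962072674304)] :=
  Pool.Agent.helper14.QF.covD_F chks_eq (.n 0 (.n 0 (.n 0 (.n 0 (.n 1 (.n 1 (.n 1 (.l 1) (.l 2)) (.l 2)) (.l 2)) (.l 2)) (.l 2)) (.l 2)) (.l 2))
    [(1202590842880, 171798691840), (96207290368, 13743898624), (962072674304, 962072674304)] rfl (by decide +kernel)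
theorem c5_m0_t0 : CovD 0 progs [(773094113280, 85899345920), (54975594496, 54975594496), (2405181685760, 481036337152)] :=
  Pool.Agent.helper14.QF.covD_F chks_eq (.n 0 (.l 1) (.n 1 (.l 0) (.n 0 (.l 1) (.n 1 (.l 1) (.n 1 (.l 1) (.n 1 (.l 1) (.n 1 (.l 1) (.l 2))))))))
    [(773094113280, 85899345920), (54975594496, 54975594496), (2405181685760, 481036337152)] rfl (by decide +kernel)
end
mutual
theorem c5_m0_t1 : CovD 0 progs [(773094113280, 85899345920), (54975594496, 54975594496), (3126736191488, 240518168576)] :=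
  Pool.Agent.helper14.QF.covD_F chks_eq (.n 0 (.l 1) (.n 1 (.l 0) (.n 0 (.l 1) (.n 1 (.l 1) (.n 1 (.l 1) (.n 1 (.l 1) (.n 0 (.n 1 (.l 1) (.l 2)) (.l 2))))))))
    [(773094113280, 85899345920), (54975594496, 54975594496), (3126736191488, 240518168576)] rfl (by decide +kernel)
theorem c5_m0_t2 : CovD 0 progs [(773094113280, 85899345920), (54975594496, 54975594496), (3487513444352, 120259084288)] :=
  Pool.Agent.helper14.QF.covD_F chks_eq (.n 0 (.n 1 (.l 0) (.l 1)) (.n 1 (.l 0) (.n 0 (.l 1) (.n 1 (.l 1) (.n 1 (.l 1) (.n 1 (.l 1) (.n 0 (.n 1 (.l 1) (.l 2)) (.l 2))))))))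
    [(773094113280, 85899345920), (54975594496, 54975594496), (3487513444352, 120259084288)] rfl (by decide +kernel)
end
mutual
theorem c5_m0_t3 : CovD 0 progs [(773094113280, 85899345920), (54975594496, 54975594496), (3728031612928, 120259084288)] :=
  Pool.Agent.helper14.QF.covD_F chks_eq (.n 2 (.n 1 (.n 1 (.l 4) (.n 1 (.l 4) (.n 0 (.l 4) (.n 2 (.n 2 (.l 1) (.l 4)) (.l 4))))) (.n 2 (.n 1 (.n 2 (.l 1) (.l 4)) (.n 0 (.n 2 (.l 1) (.l 4)) (.n 1 (.n 2 (.l 1) (.l 4)) (.n 0 (.l 1) (.n 1 (.l 1) (.n 0 (.n 1 (.l 1) (.l 2)) (.l 2))))))) (.l 4))) (.l 4))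
    [(773094113280, 85899345920), (54975594496, 54975594496), (3728031612928, 120259084288)] rfl (by decide +kernel)
theorem c5_m0_t7 : CovD 0 progs [(901943132160, 42949672960), (27487797248, 27487797248), (2886218022912, 962072674304)] :=
  Pool.Agent.helper14.QF.covD_F chks_eq (.n 2 (.l 0) (.n 2 (.l 0) (.n 2 (.l 1) (.n 1 (.l 4) (.n 2 (.n 2 (.n 2 (.n 1 (.n 1 (.l 4) (.l 1)) (.l 1)) (.l 4)) (.l 4)) (.l 4))))))
    [(901943132160, 42949672960), (27487797248, 27487797248), (2886218022912, 962072674304)] rfl (by decide +kernel)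
end
mutual
theorem c5_m0_t8 : CovD 0 progs [(901943132160, 42949672960), (82463391744, 27487797248), (2405181685760, 481036337152)] :=
  Pool.Agent.helper14.QF.covD_F chks_eq (.n 1 (.l 1) (.n 1 (.l 1) (.n 0 (.n 1 (.n 1 (.l 1) (.l 2)) (.l 2)) (.l 2))))
    [(901943132160, 42949672960), (82463391744, 27487797248), (2405181685760, 481036337152)] rfl (by decide +kernel)
theorem c5_m0_t9 : CovD 0 progs [(901943132160, 42949672960), (82463391744, 27487797248), (3126736191488, 240518168576)] :=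
  Pool.Agent.helper14.QF.covD_F chks_eq (.n 0 (.n 1 (.l 1) (.n 1 (.l 1) (.n 1 (.n 1 (.l 1) (.l 2)) (.l 2)))) (.n 1 (.l 1) (.n 1 (.l 1) (.l 2))))
    [(901943132160, 42949672960), (82463391744, 27487797248), (3126736191488, 240518168576)] rfl (by decide +kernel)
end
mutual
theorem c5_m0_t10 : CovD 0 progs [(901943132160, 42949672960), (82463391744, 27487797248), (3607772528640, 240518168576)] :=
  Pool.Agent.helper14.QF.covD_F chks_eq (.n 2 (.n 1 (.l 1) (.n 0 (.n 1 (.l 1) (.n 1 (.n 1 (.l 1) (.l 2)) (.l 2))) (.n 1 (.n 0 (.l 1) (.n 1 (.l 1) (.n 1 (.l 1) (.l 2)))) (.l 2)))) (.n 2 (.n 2 (.n 1 (.n 2 (.l 1) (.n 1 (.l 4) (.l 4))) (.n 0 (.n 1 (.l 1) (.n 1 (.n 1 (.l 1) (.l 2)) (.l 2))) (.n 1 (.n 0 (.l 1) (.n 1 (.l 1) (.n 1 (.l 1) (.l 2)))) (.l 2)))) (.l 4)) (.l 4)))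
    [(901943132160, 42949672960), (82463391744, 27487797248), (3607772528640, 240518168576)] rfl (by decide +kernel)
theorem c5_m0_t14 : CovD 0 progs [(966367641600, 21474836480), (54975594496, 54975594496), (2405181685760, 481036337152)] :=
  Pool.Agent.helper14.QF.covD_F chks_eq (.n 1 (.l 0) (.n 1 (.l 1) (.n 1 (.n 1 (.l 1) (.n 0 (.n 1 (.l 1) (.l 2)) (.l 2))) (.l 2))))
    [(966367641600, 21474836480), (54975594496, 54975594496), (2405181685760, 481036337152)] rfl (by decide +kernel)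
end
mutual
theorem c5_m0_t15 : CovD 0 progs [(966367641600, 21474836480), (54975594496, 54975594496), (3126736191488, 240518168576)] :=
  Pool.Agent.helper14.QF.covD_F chks_eq (.n 1 (.l 0) (.n 1 (.l 1) (.n 1 (.n 1 (.l 1) (.n 0 (.n 1 (.l 1) (.l 2)) (.l 2))) (.l 2))))
    [(966367641600, 21474836480), (54975594496, 54975594496), (3126736191488, 240518168576)] rfl (by decide +kernel)
theorem c5_m0_t16 : CovD 0 progs [(966367641600, 21474836480), (54975594496, 54975594496), (3607772528640, 240518168576)] :=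
  Pool.Agent.helper14.QF.covD_F chks_eq (.n 2 (.n 1 (.l 1) (.n 1 (.l 1) (.n 1 (.n 1 (.l 1) (.n 0 (.n 1 (.l 1) (.l 2)) (.l 2))) (.l 2)))) (.n 2 (.n 1 (.n 1 (.l 4) (.n 2 (.n 2 (.n 0 (.n 1 (.l 1) (.l 1)) (.l 1)) (.l 4)) (.l 4))) (.n 2 (.n 1 (.n 2 (.l 1) (.n 1 (.l 4) (.l 4))) (.n 1 (.n 1 (.l 1) (.n 0 (.n 1 (.l 1) (.l 2)) (.l 2))) (.l 2))) (.l 4))) (.l 4)))
    [(966367641600, 21474836480), (54975594496, 54975594496), (3607772528640, 240518168576)] rfl (by decide +kernel)
end
mutual
theorem c5_m0_t19 : CovD 0 progs [(1009317314560, 21474836480), (54975594496, 54975594496), (2405181685760, 481036337152)] :=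
  Pool.Agent.helper14.QF.covD_F chks_eq (.n 1 (.l 0) (.n 1 (.l 1) (.n 1 (.n 1 (.n 0 (.l 1) (.n 1 (.l 1) (.l 2))) (.l 2)) (.l 2))))
    [(1009317314560, 21474836480), (54975594496, 54975594496), (2405181685760, 481036337152)] rfl (by decide +kernel)
theorem c5_m0_t20 : CovD 0 progs [(1009317314560, 21474836480), (54975594496, 54975594496), (3126736191488, 240518168576)] :=
  Pool.Agent.helper14.QF.covD_F chks_eq (.n 1 (.l 0) (.n 1 (.l 1) (.n 1 (.n 1 (.n 0 (.l 1) (.n 1 (.l 1) (.l 2))) (.l 2)) (.l 2))))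
    [(1009317314560, 21474836480), (54975594496, 54975594496), (3126736191488, 240518168576)] rfl (by decide +kernel)
end
mutual
theorem c5_m0_t21 : CovD 0 progs [(1009317314560, 21474836480), (54975594496, 54975594496), (3607772528640, 240518168576)] :=
  Pool.Agent.helper14.QF.covD_F chks_eq (.n 2 (.n 1 (.l 1) (.n 1 (.l 1) (.n 1 (.n 1 (.n 0 (.l 1) (.n 1 (.l 1) (.l 2))) (.l 2)) (.l 2)))) (.n 2 (.n 1 (.n 2 (.n 1 (.l 4) (.n 2 (.l 1) (.l 4))) (.l 4)) (.n 2 (.n 1 (.n 1 (.n 2 (.l 1) (.l 4)) (.l 1)) (.n 1 (.n 1 (.n 0 (.l 1) (.n 1 (.l 1) (.l 2))) (.l 2)) (.l 2))) (.l 4))) (.l 4)))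
    [(1009317314560, 21474836480), (54975594496, 54975594496), (3607772528640, 240518168576)] rfl (by decide +kernel)
theorem c5_m1_t0 : CovD 0 progs [(1052266987520, 21474836480), (54975594496, 54975594496), (2405181685760, 481036337152)] :=
  Pool.Agent.helper14.QF.covD_F chks_eq (.n 1 (.l 0) (.n 1 (.l 1) (.n 0 (.n 1 (.n 1 (.n 1 (.l 1) (.l 2)) (.l 2)) (.l 2)) (.l 2))))
    [(1052266987520, 21474836480), (54975594496, 54975594496), (2405181685760, 481036337152)] rfl (by decide +kernel)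
end
mutual
theorem c5_m1_t1 : CovD 0 progs [(1052266987520, 21474836480), (54975594496, 54975594496), (3126736191488, 240518168576)] :=
  Pool.Agent.helper14.QF.covD_F chks_eq (.n 1 (.l 0) (.n 1 (.l 1) (.n 0 (.n 0 (.n 1 (.n 1 (.n 1 (.l 1) (.l 2)) (.l 2)) (.l 2)) (.l 2)) (.l 2))))
    [(1052266987520, 21474836480), (54975594496, 54975594496), (3126736191488, 240518168576)] rfl (by decide +kernel)
theorem c5_m1_t2 : CovD 0 progs [(1052266987520, 21474836480), (54975594496, 54975594496), (3487513444352, 120259084288)] :=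
  Pool.Agent.helper14.QF.covD_F chks_eq (.n 1 (.l 1) (.n 1 (.l 1) (.n 0 (.n 0 (.n 1 (.n 1 (.n 1 (.l 1) (.l 2)) (.l 2)) (.l 2)) (.l 2)) (.l 2))))
    [(1052266987520, 21474836480), (54975594496, 54975594496), (3487513444352, 120259084288)] rfl (by decide +kernel)
end
mutual
theorem c5_m1_t3 : CovD 0 progs [(1052266987520, 21474836480), (54975594496, 54975594496), (3728031612928, 120259084288)] :=
  Pool.Agent.helper14.QF.covD_F chks_eq (.n 2 (.n 1 (.n 1 (.n 1 (.l 4) (.l 4)) (.n 2 (.n 2 (.l 1) (.n 1 (.l 4) (.l 4))) (.l 4))) (.n 2 (.n 1 (.n 1 (.n 2 (.l 1) (.n 0 (.l 4) (.l 4))) (.l 1)) (.n 0 (.n 0 (.n 1 (.n 1 (.n 1 (.l 1) (.l 2)) (.l 2)) (.l 2)) (.l 2)) (.l 2))) (.l 4))) (.l 4))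
    [(1052266987520, 21474836480), (54975594496, 54975594496), (3728031612928, 120259084288)] rfl (by decide +kernel)
theorem c5_m1_t7 : CovD 0 progs [(1095216660480, 21474836480), (27487797248, 27487797248), (2886218022912, 962072674304)] :=
  Pool.Agent.helper14.QF.covD_F chks_eq (.n 2 (.l 1) (.n 2 (.l 1) (.n 2 (.l 1) (.n 2 (.n 2 (.n 2 (.n 1 (.n 1 (.l 4) (.n 2 (.l 1) (.l 4))) (.l 1)) (.n 1 (.l 4) (.n 1 (.l 4) (.l 4)))) (.l 4)) (.l 4)))))
    [(1095216660480, 21474836480), (27487797248, 27487797248), (2886218022912, 962072674304)] rfl (by decide +kernel)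
end
mutual
theorem c5_m1_t8 : CovD 0 progs [(1095216660480, 21474836480), (68719493120, 13743898624), (2405181685760, 481036337152)] :=
  Pool.Agent.helper14.QF.covD_F chks_eq (.n 1 (.l 1) (.n 1 (.l 1) (.n 1 (.l 1) (.n 1 (.n 0 (.l 1) (.l 2)) (.l 2)))))
    [(1095216660480, 21474836480), (68719493120, 13743898624), (2405181685760, 481036337152)] rfl (by decide +kernel)
theorem c5_m1_t9 : CovD 0 progs [(1095216660480, 21474836480), (68719493120, 13743898624), (3367254360064, 481036337152)] :=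
  Pool.Agent.helper14.QF.covD_F chks_eq (.n 2 (.n 1 (.l 1) (.n 1 (.l 1) (.n 1 (.l 1) (.n 0 (.n 0 (.l 1) (.l 2)) (.l 2))))) (.n 2 (.n 1 (.l 1) (.n 1 (.l 1) (.n 1 (.l 1) (.n 0 (.n 0 (.l 1) (.l 2)) (.l 2))))) (.n 2 (.n 2 (.n 1 (.n 2 (.l 1) (.n 1 (.l 4) (.l 4))) (.n 1 (.l 1) (.n 1 (.l 1) (.n 0 (.n 0 (.l 1) (.l 2)) (.l 2))))) (.l 4)) (.l 4))))
    [(1095216660480, 21474836480), (68719493120, 13743898624), (3367254360064, 481036337152)] rfl (by decide +kernel)
end
mutual
theorem c5_m1_t11 : CovD 0 progs [(1095216660480, 21474836480), (96207290368, 13743898624), (2886218022912, 962072674304)] :=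
  Pool.Agent.helper14.QF.covD_F chks_eq (.l 2)
    [(1095216660480, 21474836480), (96207290368, 13743898624), (2886218022912, 962072674304)] rfl (by decide +kernel)
theorem c5_m1_t15 : CovD 0 progs [(1138166333440, 21474836480), (27487797248, 27487797248), (2886218022912, 962072674304)] :=
  Pool.Agent.helper14.QF.covD_F chks_eq (.n 2 (.l 1) (.n 2 (.l 1) (.n 2 (.l 1) (.n 2 (.n 1 (.n 1 (.l 4) (.n 1 (.l 4) (.n 1 (.l 4) (.n 2 (.n 2 (.n 2 (.l 1) (.l 4)) (.l 4)) (.l 4))))) (.n 2 (.n 2 (.l 1) (.n 1 (.l 4) (.n 1 (.l 4) (.l 4)))) (.l 4))) (.l 4)))))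
    [(1138166333440, 21474836480), (27487797248, 27487797248), (2886218022912, 962072674304)] rfl (by decide +kernel)
end
mutual
theorem c5_m1_t16 : CovD 0 progs [(1138166333440, 21474836480), (68719493120, 13743898624), (2405181685760, 481036337152)] :=
  Pool.Agent.helper14.QF.covD_F chks_eq (.n 1 (.l 1) (.n 1 (.l 1) (.n 0 (.n 1 (.n 1 (.l 1) (.l 2)) (.l 2)) (.l 2))))
    [(1138166333440, 21474836480), (68719493120, 13743898624), (2405181685760, 481036337152)] rfl (by decide +kernel)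
theorem c5_m1_t17 : CovD 0 progs [(1138166333440, 21474836480), (68719493120, 13743898624), (3367254360064, 481036337152)] :=
  Pool.Agent.helper14.QF.covD_F chks_eq (.n 2 (.n 1 (.l 1) (.n 1 (.l 1) (.n 0 (.n 1 (.n 1 (.l 1) (.l 2)) (.l 2)) (.l 2)))) (.n 2 (.n 1 (.l 1) (.n 1 (.l 1) (.n 0 (.n 1 (.n 1 (.l 1) (.l 2)) (.l 2)) (.l 2)))) (.n 2 (.n 2 (.n 1 (.n 2 (.l 1) (.n 1 (.l 4) (.l 4))) (.n 1 (.l 1) (.n 0 (.n 1 (.n 1 (.l 1) (.l 2)) (.l 2)) (.l 2)))) (.l 4)) (.l 4))))
    [(1138166333440, 21474836480), (68719493120, 13743898624), (3367254360064, 481036337152)] rfl (by decide +kernel)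
end
mutual
theorem c5_m1_t19 : CovD 0 progs [(1138166333440, 21474836480), (96207290368, 13743898624), (2886218022912, 962072674304)] :=
  Pool.Agent.helper14.QF.covD_F chks_eq (.l 2)
    [(1138166333440, 21474836480), (96207290368, 13743898624), (2886218022912, 962072674304)] rfl (by decide +kernel)
theorem c5_m1_t22 : CovD 0 progs [(1181116006400, 21474836480), (27487797248, 27487797248), (2886218022912, 962072674304)] :=
  Pool.Agent.helper14.QF.covD_F chks_eq (.n 2 (.l 1) (.n 2 (.l 1) (.n 2 (.n 0 (.l 1) (.l 1)) (.n 2 (.n 1 (.n 1 (.l 4) (.n 1 (.l 4) (.n 2 (.n 2 (.n 2 (.l 1) (.l 4)) (.l 4)) (.l 4)))) (.n 2 (.n 2 (.l 1) (.n 1 (.l 4) (.n 1 (.l 4) (.l 4)))) (.l 4))) (.l 4)))))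
    [(1181116006400, 21474836480), (27487797248, 27487797248), (2886218022912, 962072674304)] rfl (by decide +kernel)
end
mutual
theorem c5_m1_t23 : CovD 0 progs [(1181116006400, 21474836480), (61847543808, 6871949312), (2886218022912, 962072674304)] :=
  Pool.Agent.helper14.QF.covD_F chks_eq (.n 2 (.l 1) (.n 2 (.l 1) (.n 2 (.l 1) (.n 2 (.n 2 (.n 2 (.l 1) (.n 2 (.l 1) (.l 4))) (.l 4)) (.l 4)))))
    [(1181116006400, 21474836480), (61847543808, 6871949312), (2886218022912, 962072674304)] rfl (by decide +kernel)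
theorem c5_m1_t24 : CovD 0 progs [(1181116006400, 21474836480), (75591442432, 6871949312), (2886218022912, 962072674304)] :=
  Pool.Agent.helper14.QF.covD_F chks_eq (.n 1 (.n 2 (.n 0 (.l 1) (.n 1 (.l 1) (.n 1 (.l 1) (.l 2)))) (.n 2 (.n 1 (.l 1) (.n 1 (.n 0 (.l 1) (.l 1)) (.l 2))) (.n 2 (.n 1 (.l 1) (.n 1 (.n 0 (.l 1) (.n 0 (.l 1) (.l 2))) (.l 2))) (.n 2 (.n 2 (.n 1 (.l 1) (.n 1 (.n 0 (.l 1) (.n 0 (.l 1) (.l 2))) (.l 2))) (.l 4)) (.l 4))))) (.l 2))
    [(1181116006400, 21474836480), (75591442432, 6871949312), (2886218022912, 962072674304)] rfl (by decide +kernel)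
end
mutual
theorem c5_m1_t26 : CovD 0 progs [(1181116006400, 21474836480), (96207290368, 13743898624), (2886218022912, 962072674304)] :=
  Pool.Agent.helper14.QF.covD_F chks_eq (.l 2)
    [(1181116006400, 21474836480), (96207290368, 13743898624), (2886218022912, 962072674304)] rfl (by decide +kernel)
theorem c5_m1_t31 : CovD 0 progs [(1288490188800, 85899345920), (13743898624, 13743898624), (2886218022912, 962072674304)] :=
  Pool.Agent.helper14.QF.covD_F chks_eq (.n 1 (.n 2 (.l 0) (.n 2 (.l 0) (.n 2 (.l 1) (.l 4)))) (.n 2 (.l 0) (.n 2 (.l 0) (.n 2 (.l 1) (.n 2 (.n 2 (.n 2 (.n 0 (.n 2 (.l 1) (.n 1 (.l 4) (.l 4))) (.n 0 (.n 2 (.l 1) (.n 1 (.l 4) (.n 1 (.l 4) (.n 2 (.l 1) (.l 4))))) (.l 3))) (.l 4)) (.l 4)) (.l 4))))))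
    [(1288490188800, 85899345920), (13743898624, 13743898624), (2886218022912, 962072674304)] rfl (by decide +kernel)
end
mutual
theorem c5_m1_t32 : CovD 0 progs [(1288490188800, 85899345920), (41231695872, 13743898624), (2405181685760, 481036337152)] :=
  Pool.Agent.helper14.QF.covD_F chks_eq (.n 0 (.l 1) (.l 1))
    [(1288490188800, 85899345920), (41231695872, 13743898624), (2405181685760, 481036337152)] rfl (by decide +kernel)
theorem c5_m1_t33 : CovD 0 progs [(1288490188800, 85899345920), (41231695872, 13743898624), (3126736191488, 240518168576)] :=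
  Pool.Agent.helper14.QF.covD_F chks_eq (.n 0 (.l 1) (.l 1))
    [(1288490188800, 85899345920), (41231695872, 13743898624), (3126736191488, 240518168576)] rfl (by decide +kernel)
end
mutual
theorem c5_m1_t34 : CovD 0 progs [(1288490188800, 85899345920), (41231695872, 13743898624), (3607772528640, 240518168576)] :=
  Pool.Agent.helper14.QF.covD_F chks_eq (.n 2 (.n 0 (.l 1) (.l 1)) (.n 2 (.n 2 (.n 2 (.n 1 (.n 2 (.l 1) (.n 2 (.l 1) (.n 1 (.n 0 (.l 4) (.n 0 (.n 1 (.l 4) (.l 1)) (.l 3))) (.l 1)))) (.l 1)) (.n 1 (.n 1 (.l 4) (.n 0 (.l 4) (.n 0 (.l 4) (.n 0 (.l 3) (.l 3))))) (.n 2 (.n 2 (.n 0 (.l 1) (.n 0 (.l 1) (.n 0 (.l 1) (.l 3)))) (.n 0 (.l 4) (.l 4))) (.l 4)))) (.l 4)) (.l 4)))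
    [(1288490188800, 85899345920), (41231695872, 13743898624), (3607772528640, 240518168576)] rfl (by decide +kernel)
theorem c5_m1_t38 : CovD 0 progs [(1245540515840, 42949672960), (61847543808, 6871949312), (2405181685760, 481036337152)] :=
  Pool.Agent.helper14.QF.covD_F chks_eq (.n 0 (.l 1) (.n 0 (.l 1) (.n 0 (.l 1) (.n 1 (.l 1) (.n 1 (.l 1) (.n 1 (.l 1) (.l 2)))))))
    [(1245540515840, 42949672960), (61847543808, 6871949312), (2405181685760, 481036337152)] rfl (by decide +kernel)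
end
mutual
theorem c5_m1_t39 : CovD 0 progs [(1245540515840, 42949672960), (61847543808, 6871949312), (3126736191488, 240518168576)] :=
  Pool.Agent.helper14.QF.covD_F chks_eq (.n 0 (.l 1) (.n 0 (.l 1) (.n 0 (.l 1) (.n 1 (.l 1) (.n 1 (.l 1) (.n 1 (.l 1) (.l 2)))))))
    [(1245540515840, 42949672960), (61847543808, 6871949312), (3126736191488, 240518168576)] rfl (by decide +kernel)
theorem c5_m1_t40 : CovD 0 progs [(1245540515840, 42949672960), (61847543808, 6871949312), (3607772528640, 240518168576)] :=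
  Pool.Agent.helper14.QF.covD_F chks_eq (.n 2 (.n 0 (.l 1) (.n 0 (.l 1) (.n 0 (.l 1) (.n 1 (.l 1) (.n 1 (.l 1) (.n 1 (.l 1) (.l 2))))))) (.n 2 (.n 2 (.n 1 (.n 2 (.l 1) (.n 2 (.l 1) (.l 4))) (.n 0 (.n 2 (.l 1) (.l 4)) (.n 2 (.n 0 (.l 1) (.n 0 (.l 1) (.n 1 (.l 1) (.n 1 (.l 1) (.l 2))))) (.l 4)))) (.l 4)) (.l 4)))
    [(1245540515840, 42949672960), (61847543808, 6871949312), (3607772528640, 240518168576)] rfl (by decide +kernel)
end
mutual
theorem c5_m1_t43 : CovD 0 progs [(1245540515840, 42949672960), (75591442432, 6871949312), (2886218022912, 962072674304)] :=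
  Pool.Agent.helper14.QF.covD_F chks_eq (.n 1 (.n 1 (.n 0 (.n 1 (.n 2 (.l 1) (.n 2 (.l 1) (.n 2 (.l 1) (.n 2 (.n 2 (.n 2 (.l 1) (.l 4)) (.l 4)) (.l 4))))) (.n 0 (.n 2 (.l 1) (.n 2 (.l 1) (.n 2 (.l 1) (.n 2 (.n 2 (.l 1) (.l 4)) (.l 4))))) (.l 2))) (.l 2)) (.l 2)) (.l 2))
    [(1245540515840, 42949672960), (75591442432, 6871949312), (2886218022912, 962072674304)] rfl (by decide +kernel)
theorem c5_m1_t45 : CovD 0 progs [(1245540515840, 42949672960), (96207290368, 13743898624), (2886218022912, 962072674304)] :=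
  Pool.Agent.helper14.QF.covD_F chks_eq (.l 2)
    [(1245540515840, 42949672960), (96207290368, 13743898624), (2886218022912, 962072674304)] rfl (by decide +kernel)
end
mutual
theorem c5_m1_t47 : CovD 0 progs [(1299227607040, 10737418240), (58411569152, 3435974656), (2886218022912, 962072674304)] :=
  Pool.Agent.helper14.QF.covD_F chks_eq (.n 2 (.l 1) (.n 2 (.l 1) (.n 2 (.l 1) (.n 2 (.n 2 (.n 2 (.l 1) (.l 4)) (.l 4)) (.l 4)))))
    [(1299227607040, 10737418240), (58411569152, 3435974656), (2886218022912, 962072674304)] rfl (by decide +kernel)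
theorem c5_m1_t48 : CovD 0 progs [(1299227607040, 10737418240), (65283518464, 3435974656), (2886218022912, 962072674304)] :=
  Pool.Agent.helper14.QF.covD_F chks_eq (.n 2 (.n 1 (.l 1) (.n 1 (.l 1) (.l 2))) (.n 2 (.n 1 (.l 1) (.n 1 (.n 1 (.l 1) (.n 0 (.l 1) (.l 2))) (.l 2))) (.n 2 (.n 1 (.l 1) (.n 1 (.n 0 (.l 1) (.n 1 (.l 1) (.l 2))) (.l 2))) (.n 2 (.n 2 (.n 2 (.n 1 (.l 1) (.n 1 (.n 0 (.l 1) (.n 1 (.l 1) (.l 2))) (.l 2))) (.l 4)) (.l 4)) (.l 4)))))
    [(1299227607040, 10737418240), (65283518464, 3435974656), (2886218022912, 962072674304)] rfl (by decide +kernel)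
end
mutual
theorem c5_m1_t50 : CovD 0 progs [(1299227607040, 10737418240), (75591442432, 6871949312), (2886218022912, 962072674304)] :=
  Pool.Agent.helper14.QF.covD_F chks_eq (.l 2)
    [(1299227607040, 10737418240), (75591442432, 6871949312), (2886218022912, 962072674304)] rfl (by decide +kernel)
theorem c5_m1_t52 : CovD 0 progs [(1299227607040, 10737418240), (96207290368, 13743898624), (2886218022912, 962072674304)] :=
  Pool.Agent.helper14.QF.covD_F chks_eq (.l 2)
    [(1299227607040, 10737418240), (96207290368, 13743898624), (2886218022912, 962072674304)] rfl (by decide +kernel)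
end
mutual
theorem c5_m1_t54 : CovD 0 progs [(1320702443520, 10737418240), (82463391744, 27487797248), (2886218022912, 962072674304)] :=
  Pool.Agent.helper14.QF.covD_F chks_eq (.n 1 (.n 1 (.n 1 (.n 2 (.l 1) (.n 2 (.l 1) (.n 2 (.l 1) (.n 2 (.n 2 (.n 2 (.l 1) (.l 4)) (.l 4)) (.l 4))))) (.n 1 (.n 2 (.l 1) (.n 2 (.l 1) (.n 2 (.l 1) (.n 2 (.n 2 (.n 2 (.l 1) (.l 4)) (.l 4)) (.l 4))))) (.n 0 (.n 0 (.l 2) (.l 2)) (.l 2)))) (.l 2)) (.l 2))
    [(1320702443520, 10737418240), (82463391744, 27487797248), (2886218022912, 962072674304)] rfl (by decide +kernel)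
theorem c5_m1_t56 : CovD 0 progs [(1342177280000, 10737418240), (58411569152, 3435974656), (2886218022912, 962072674304)] :=
  Pool.Agent.helper14.QF.covD_F chks_eq (.n 2 (.l 1) (.n 2 (.l 1) (.n 2 (.l 1) (.n 2 (.n 2 (.n 2 (.l 1) (.l 4)) (.l 4)) (.l 4)))))
    [(1342177280000, 10737418240), (58411569152, 3435974656), (2886218022912, 962072674304)] rfl (by decide +kernel)
end
mutual
theorem c5_m1_t57 : CovD 0 progs [(1342177280000, 10737418240), (65283518464, 3435974656), (2886218022912, 962072674304)] :=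
  Pool.Agent.helper14.QF.covD_F chks_eq (.n 1 (.n 2 (.n 1 (.l 1) (.n 1 (.l 1) (.l 2))) (.n 2 (.n 1 (.l 1) (.n 1 (.n 1 (.l 1) (.n 0 (.l 1) (.l 2))) (.l 2))) (.n 2 (.n 1 (.l 1) (.n 1 (.n 0 (.l 1) (.n 0 (.l 1) (.l 2))) (.l 2))) (.n 2 (.n 2 (.n 2 (.n 1 (.l 1) (.n 1 (.n 0 (.l 1) (.n 0 (.l 1) (.l 2))) (.l 2))) (.l 4)) (.l 4)) (.l 4))))) (.l 2))
    [(1342177280000, 10737418240), (65283518464, 3435974656), (2886218022912, 962072674304)] rfl (by decide +kernel)
theorem c5_m1_t59 : CovD 0 progs [(1342177280000, 10737418240), (75591442432, 6871949312), (2886218022912, 962072674304)] :=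
  Pool.Agent.helper14.QF.covD_F chks_eq (.l 2)
    [(1342177280000, 10737418240), (75591442432, 6871949312), (2886218022912, 962072674304)] rfl (by decide +kernel)
end
mutual
theorem c5_m1_t61 : CovD 0 progs [(1342177280000, 10737418240), (96207290368, 13743898624), (2886218022912, 962072674304)] :=
  Pool.Agent.helper14.QF.covD_F chks_eq (.l 2)
    [(1342177280000, 10737418240), (96207290368, 13743898624), (2886218022912, 962072674304)] rfl (by decide +kernel)
theorem c5_m1_t63 : CovD 0 progs [(1363652116480, 10737418240), (82463391744, 27487797248), (2886218022912, 962072674304)] :=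
  Pool.Agent.helper14.QF.covD_F chks_eq (.n 1 (.n 1 (.n 1 (.l 3) (.n 1 (.n 1 (.l 3) (.l 2)) (.l 2))) (.l 2)) (.l 2))
    [(1363652116480, 10737418240), (82463391744, 27487797248), (2886218022912, 962072674304)] rfl (by decide +kernel)
end

theorem c4_m0_t5 : CovD 0 progs [(1202590842880, 171798691840), (75591442432, 6871949312), (962072674304, 962072674304)] :=
  covD_split 1 (by decide +kernel) c4_m0_t3 c4_m0_t4
theorem c4_m0_t6 : CovD 0 progs [(1202590842880, 171798691840), (68719493120, 13743898624), (962072674304, 962072674304)] :=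
  covD_split 1 (by decide +kernel) c4_m0_t2 c4_m0_t5
theorem c4_m0_t7 : CovD 0 progs [(1030792151040, 343597383680), (68719493120, 13743898624), (962072674304, 962072674304)] :=
  covD_split 0 (by decide +kernel) c4_m0_t1 c4_m0_t6
theorem c4_m0_t10 : CovD 0 progs [(1030792151040, 343597383680), (96207290368, 13743898624), (962072674304, 962072674304)] :=
  covD_split 0 (by decide +kernel) c4_m0_t8 c4_m0_t9
theorem c4_m0_t11 : CovD 0 progs [(1030792151040, 343597383680), (82463391744, 27487797248), (962072674304, 962072674304)] :=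
  covD_split 1 (by decide +kernel) c4_m0_t7 c4_m0_t10
theorem c4_m0 : CovD 0 progs [(1030792151040, 343597383680), (54975594496, 54975594496), (962072674304, 962072674304)] :=
  covD_split 1 (by decide +kernel) c4_m0_t0 c4_m0_t11
theorem c5_m0_t4 : CovD 0 progs [(773094113280, 85899345920), (54975594496, 54975594496), (3607772528640, 240518168576)] :=
  covD_split 2 (by decide +kernel) c5_m0_t2 c5_m0_t3
theorem c5_m0_t5 : CovD 0 progs [(773094113280, 85899345920), (54975594496, 54975594496), (3367254360064, 481036337152)] :=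
  covD_split 2 (by decide +kernel) c5_m0_t1 c5_m0_t4
theorem c5_m0_t6 : CovD 0 progs [(773094113280, 85899345920), (54975594496, 54975594496), (2886218022912, 962072674304)] :=
  covD_split 2 (by decide +kernel) c5_m0_t0 c5_m0_t5
theorem c5_m0_t11 : CovD 0 progs [(901943132160, 42949672960), (82463391744, 27487797248), (3367254360064, 481036337152)] :=
  covD_split 2 (by decide +kernel) c5_m0_t9 c5_m0_t10
theorem c5_m0_t12 : CovD 0 progs [(901943132160, 42949672960), (82463391744, 27487797248), (2886218022912, 962072674304)] :=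
  covD_split 2 (by decide +kernel) c5_m0_t8 c5_m0_t11
theorem c5_m0_t13 : CovD 0 progs [(901943132160, 42949672960), (54975594496, 54975594496), (2886218022912, 962072674304)] :=
  covD_split 1 (by decide +kernel) c5_m0_t7 c5_m0_t12
theorem c5_m0_t17 : CovD 0 progs [(966367641600, 21474836480), (54975594496, 54975594496), (3367254360064, 481036337152)] :=
  covD_split 2 (by decide +kernel) c5_m0_t15 c5_m0_t16
theorem c5_m0_t18 : CovD 0 progs [(966367641600, 21474836480), (54975594496, 54975594496), (2886218022912, 962072674304)] :=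
  covD_split 2 (by decide +kernel) c5_m0_t14 c5_m0_t17
theorem c5_m0_t22 : CovD 0 progs [(1009317314560, 21474836480), (54975594496, 54975594496), (3367254360064, 481036337152)] :=
  covD_split 2 (by decide +kernel) c5_m0_t20 c5_m0_t21
theorem c5_m0_t23 : CovD 0 progs [(1009317314560, 21474836480), (54975594496, 54975594496), (2886218022912, 962072674304)] :=
  covD_split 2 (by decide +kernel) c5_m0_t19 c5_m0_t22
theorem c5_m0_t24 : CovD 0 progs [(987842478080, 42949672960), (54975594496, 54975594496), (2886218022912, 962072674304)] :=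
  covD_split 0 (by decide +kernel) c5_m0_t18 c5_m0_t23
theorem c5_m0_t25 : CovD 0 progs [(944892805120, 85899345920), (54975594496, 54975594496), (2886218022912, 962072674304)] :=
  covD_split 0 (by decide +kernel) c5_m0_t13 c5_m0_t24
theorem c5_m0 : CovD 0 progs [(858993459200, 171798691840), (54975594496, 54975594496), (2886218022912, 962072674304)] :=
  covD_split 0 (by decide +kernel) c5_m0_t6 c5_m0_t25
theorem c5_m1_t4 : CovD 0 progs [(1052266987520, 21474836480), (54975594496, 54975594496), (3607772528640, 240518168576)] :=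
  covD_split 2 (by decide +kernel) c5_m1_t2 c5_m1_t3
theorem c5_m1_t5 : CovD 0 progs [(1052266987520, 21474836480), (54975594496, 54975594496), (3367254360064, 481036337152)] :=
  covD_split 2 (by decide +kernel) c5_m1_t1 c5_m1_t4
theorem c5_m1_t6 : CovD 0 progs [(1052266987520, 21474836480), (54975594496, 54975594496), (2886218022912, 962072674304)] :=
  covD_split 2 (by decide +kernel) c5_m1_t0 c5_m1_t5
theorem c5_m1_t10 : CovD 0 progs [(1095216660480, 21474836480), (68719493120, 13743898624), (2886218022912, 962072674304)] :=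
  covD_split 2 (by decide +kernel) c5_m1_t8 c5_m1_t9
theorem c5_m1_t12 : CovD 0 progs [(1095216660480, 21474836480), (82463391744, 27487797248), (2886218022912, 962072674304)] :=
  covD_split 1 (by decide +kernel) c5_m1_t10 c5_m1_t11
theorem c5_m1_t13 : CovD 0 progs [(1095216660480, 21474836480), (54975594496, 54975594496), (2886218022912, 962072674304)] :=
  covD_split 1 (by decide +kernel) c5_m1_t7 c5_m1_t12
theorem c5_m1_t14 : CovD 0 progs [(1073741824000, 42949672960), (54975594496, 54975594496), (2886218022912, 962072674304)] :=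
  covD_split 0 (by decide +kernel) c5_m1_t6 c5_m1_t13
theorem c5_m1_t18 : CovD 0 progs [(1138166333440, 21474836480), (68719493120, 13743898624), (2886218022912, 962072674304)] :=
  covD_split 2 (by decide +kernel) c5_m1_t16 c5_m1_t17
theorem c5_m1_t20 : CovD 0 progs [(1138166333440, 21474836480), (82463391744, 27487797248), (2886218022912, 962072674304)] :=
  covD_split 1 (by decide +kernel) c5_m1_t18 c5_m1_t19
theorem c5_m1_t21 : CovD 0 progs [(1138166333440, 21474836480), (54975594496, 54975594496), (2886218022912, 962072674304)] :=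
  covD_split 1 (by decide +kernel) c5_m1_t15 c5_m1_t20
theorem c5_m1_t25 : CovD 0 progs [(1181116006400, 21474836480), (68719493120, 13743898624), (2886218022912, 962072674304)] :=
  covD_split 1 (by decide +kernel) c5_m1_t23 c5_m1_t24
theorem c5_m1_t27 : CovD 0 progs [(1181116006400, 21474836480), (82463391744, 27487797248), (2886218022912, 962072674304)] :=
  covD_split 1 (by decide +kernel) c5_m1_t25 c5_m1_t26
theorem c5_m1_t28 : CovD 0 progs [(1181116006400, 21474836480), (54975594496, 54975594496), (2886218022912, 962072674304)] :=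
  covD_split 1 (by decide +kernel) c5_m1_t22 c5_m1_t27
theorem c5_m1_t29 : CovD 0 progs [(1159641169920, 42949672960), (54975594496, 54975594496), (2886218022912, 962072674304)] :=
  covD_split 0 (by decide +kernel) c5_m1_t21 c5_m1_t28
theorem c5_m1_t30 : CovD 0 progs [(1116691496960, 85899345920), (54975594496, 54975594496), (2886218022912, 962072674304)] :=
  covD_split 0 (by decide +kernel) c5_m1_t14 c5_m1_t29
theorem c5_m1_t35 : CovD 0 progs [(1288490188800, 85899345920), (41231695872, 13743898624), (3367254360064, 481036337152)] :=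
  covD_split 2 (by decide +kernel) c5_m1_t33 c5_m1_t34
theorem c5_m1_t36 : CovD 0 progs [(1288490188800, 85899345920), (41231695872, 13743898624), (2886218022912, 962072674304)] :=
  covD_split 2 (by decide +kernel) c5_m1_t32 c5_m1_t35
theorem c5_m1_t37 : CovD 0 progs [(1288490188800, 85899345920), (27487797248, 27487797248), (2886218022912, 962072674304)] :=
  covD_split 1 (by decide +kernel) c5_m1_t31 c5_m1_t36
theorem c5_m1_t41 : CovD 0 progs [(1245540515840, 42949672960), (61847543808, 6871949312), (3367254360064, 481036337152)] :=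
  covD_split 2 (by decide +kernel) c5_m1_t39 c5_m1_t40
theorem c5_m1_t42 : CovD 0 progs [(1245540515840, 42949672960), (61847543808, 6871949312), (2886218022912, 962072674304)] :=
  covD_split 2 (by decide +kernel) c5_m1_t38 c5_m1_t41
theorem c5_m1_t44 : CovD 0 progs [(1245540515840, 42949672960), (68719493120, 13743898624), (2886218022912, 962072674304)] :=
  covD_split 1 (by decide +kernel) c5_m1_t42 c5_m1_t43
theorem c5_m1_t46 : CovD 0 progs [(1245540515840, 42949672960), (82463391744, 27487797248), (2886218022912, 962072674304)] :=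
  covD_split 1 (by decide +kernel) c5_m1_t44 c5_m1_t45
theorem c5_m1_t49 : CovD 0 progs [(1299227607040, 10737418240), (61847543808, 6871949312), (2886218022912, 962072674304)] :=
  covD_split 1 (by decide +kernel) c5_m1_t47 c5_m1_t48
theorem c5_m1_t51 : CovD 0 progs [(1299227607040, 10737418240), (68719493120, 13743898624), (2886218022912, 962072674304)] :=
  covD_split 1 (by decide +kernel) c5_m1_t49 c5_m1_t50
theorem c5_m1_t53 : CovD 0 progs [(1299227607040, 10737418240), (82463391744, 27487797248), (2886218022912, 962072674304)] :=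
  covD_split 1 (by decide +kernel) c5_m1_t51 c5_m1_t52
theorem c5_m1_t55 : CovD 0 progs [(1309965025280, 21474836480), (82463391744, 27487797248), (2886218022912, 962072674304)] :=
  covD_split 0 (by decide +kernel) c5_m1_t53 c5_m1_t54
theorem c5_m1_t58 : CovD 0 progs [(1342177280000, 10737418240), (61847543808, 6871949312), (2886218022912, 962072674304)] :=
  covD_split 1 (by decide +kernel) c5_m1_t56 c5_m1_t57
theorem c5_m1_t60 : CovD 0 progs [(1342177280000, 10737418240), (68719493120, 13743898624), (2886218022912, 962072674304)] :=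
  covD_split 1 (by decide +kernel) c5_m1_t58 c5_m1_t59
theorem c5_m1_t62 : CovD 0 progs [(1342177280000, 10737418240), (82463391744, 27487797248), (2886218022912, 962072674304)] :=
  covD_split 1 (by decide +kernel) c5_m1_t60 c5_m1_t61
theorem c5_m1_t64 : CovD 0 progs [(1352914698240, 21474836480), (82463391744, 27487797248), (2886218022912, 962072674304)] :=
  covD_split 0 (by decide +kernel) c5_m1_t62 c5_m1_t63
theorem c5_m1_t65 : CovD 0 progs [(1331439861760, 42949672960), (82463391744, 27487797248), (2886218022912, 962072674304)] :=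
  covD_split 0 (by decide +kernel) c5_m1_t55 c5_m1_t64
theorem c5_m1_t66 : CovD 0 progs [(1288490188800, 85899345920), (82463391744, 27487797248), (2886218022912, 962072674304)] :=
  covD_split 0 (by decide +kernel) c5_m1_t46 c5_m1_t65
theorem c5_m1_t67 : CovD 0 progs [(1288490188800, 85899345920), (54975594496, 54975594496), (2886218022912, 962072674304)] :=
  covD_split 1 (by decide +kernel) c5_m1_t37 c5_m1_t66
theorem c5_m1 : CovD 0 progs [(1202590842880, 171798691840), (54975594496, 54975594496), (2886218022912, 962072674304)] :=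
  covD_split 0 (by decide +kernel) c5_m1_t30 c5_m1_t67

end Pool.Agent.helper31.EQB.Cert.LB2
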