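import Pool.Agent.helper31.EQB.Cert.LB2P

/-!
Generated certificates.
-/

namespace Pool.Agent.helper31.EQB.Cert.LB2

open Pool.Agent.helper31.IA (Z Op)
open Pool.Agent.helper31.IC

mutual
theorem c6_m0_t0 : CovD 0 progs [(858993459200, 171798691840), (164926783488, 54975660032), (962072674304, 962072674304)] :=
  Pool.Agent.helper14.QF.covD_F chks_eq (.n 1 (.n 0 (.n 0 (.n 0 (.n 1 (.n 1 (.n 2 (.l 1) (.l 1)) (.n 0 (.n 1 (.n 2 (.l 1) (.l 1)) (.l 2)) (.l 2))) (.l 2)) (.n 0 (.n 1 (.n 1 (.n 2 (.l 1) (.l 1)) (.l 2)) (.l 2)) (.n 1 (.n 1 (.n 1 (.l 1) (.l 2)) (.l 2)) (.l 2)))) (.n 0 (.n 0 (.n 0 (.n 1 (.n 1 (.n 1 (.l 1) (.l 2)) (.l 2)) (.l 2)) (.l 2)) (.l 2)) (.l 2))) (.l 2)) (.l 2))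
    [(858993459200, 171798691840), (164926783488, 54975660032), (962072674304, 962072674304)] rfl (by decide +kernel)
theorem c6_m0_t1 : CovD 0 progs [(1202590842880, 171798691840), (164926783488, 54975660032), (962072674304, 962072674304)] :=
  Pool.Agent.helper14.QF.covD_F chks_eq (.l 2)
    [(1202590842880, 171798691840), (164926783488, 54975660032), (962072674304, 962072674304)] rfl (by decide +kernel)
end
mutual
theorem c7_m0_t0 : CovD 0 progs [(708669603840, 21474836480), (137438953472, 27487830016), (2886218022912, 962072674304)] :=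
  Pool.Agent.helper14.QF.covD_F chks_eq (.n 1 (.n 1 (.n 2 (.l 1) (.n 2 (.l 1) (.n 2 (.l 1) (.n 2 (.n 2 (.n 2 (.l 1) (.l 4)) (.l 4)) (.l 4))))) (.n 0 (.n 0 (.n 0 (.n 1 (.n 1 (.n 1 (.n 1 (.n 2 (.l 1) (.n 2 (.l 1) (.n 2 (.l 1) (.n 2 (.n 2 (.n 2 (.l 1) (.l 4)) (.l 4)) (.l 4))))) (.l 2)) (.l 2)) (.l 2)) (.l 2)) (.l 2)) (.l 2)) (.l 2))) (.l 2))
    [(708669603840, 21474836480), (137438953472, 27487830016), (2886218022912, 962072674304)] rfl (by decide +kernel)
theorem c7_m0_t1 : CovD 0 progs [(751619276800, 21474836480), (137438953472, 27487830016), (2886218022912, 962072674304)] :=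
  Pool.Agent.helper14.QF.covD_F chks_eq (.n 1 (.n 1 (.n 2 (.n 1 (.l 1) (.n 0 (.n 0 (.l 1) (.l 2)) (.l 2))) (.n 1 (.n 2 (.l 1) (.n 2 (.l 1) (.n 2 (.n 2 (.l 1) (.l 4)) (.l 4)))) (.n 0 (.n 1 (.n 2 (.l 1) (.n 2 (.l 1) (.n 2 (.n 2 (.l 1) (.l 4)) (.l 4)))) (.l 2)) (.l 2)))) (.l 2)) (.l 2))
    [(751619276800, 21474836480), (137438953472, 27487830016), (2886218022912, 962072674304)] rfl (by decide +kernel)
end
mutual
theorem c7_m0_t3 : CovD 0 progs [(816043786240, 42949672960), (137438953472, 27487830016), (2886218022912, 962072674304)] :=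
  Pool.Agent.helper14.QF.covD_F chks_eq (.n 0 (.n 0 (.n 0 (.n 1 (.n 0 (.n 1 (.n 1 (.n 1 (.n 2 (.l 1) (.n 2 (.l 1) (.n 2 (.l 1) (.n 2 (.n 2 (.l 1) (.l 4)) (.l 4))))) (.l 2)) (.l 2)) (.l 2)) (.l 2)) (.l 2)) (.l 2)) (.l 2)) (.l 2))
    [(816043786240, 42949672960), (137438953472, 27487830016), (2886218022912, 962072674304)] rfl (by decide +kernel)
theorem c7_m0_t5 : CovD 0 progs [(944892805120, 85899345920), (137438953472, 27487830016), (2886218022912, 962072674304)] :=
  Pool.Agent.helper14.QF.covD_F chks_eq (.l 2)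
    [(944892805120, 85899345920), (137438953472, 27487830016), (2886218022912, 962072674304)] rfl (by decide +kernel)
end
mutual
theorem c7_m0_t7 : CovD 0 progs [(858993459200, 171798691840), (192414613504, 27487830016), (2886218022912, 962072674304)] :=
  Pool.Agent.helper14.QF.covD_F chks_eq (.l 2)
    [(858993459200, 171798691840), (192414613504, 27487830016), (2886218022912, 962072674304)] rfl (by decide +kernel)
theorem c7_m0_t9 : CovD 0 progs [(1202590842880, 171798691840), (164926783488, 54975660032), (2886218022912, 962072674304)] :=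
  Pool.Agent.helper14.QF.covD_F chks_eq (.l 2)
    [(1202590842880, 171798691840), (164926783488, 54975660032), (2886218022912, 962072674304)] rfl (by decide +kernel)
end

theorem c6_m0 : CovD 0 progs [(1030792151040, 343597383680), (164926783488, 54975660032), (962072674304, 962072674304)] :=
  covD_split 0 (by decide +kernel) c6_m0_t0 c6_m0_t1
theorem c7_m0_t2 : CovD 0 progs [(730144440320, 42949672960), (137438953472, 27487830016), (2886218022912, 962072674304)] :=
  covD_split 0 (by decide +kernel) c7_m0_t0 c7_m0_t1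
theorem c7_m0_t4 : CovD 0 progs [(773094113280, 85899345920), (137438953472, 27487830016), (2886218022912, 962072674304)] :=
  covD_split 0 (by decide +kernel) c7_m0_t2 c7_m0_t3
theorem c7_m0_t6 : CovD 0 progs [(858993459200, 171798691840), (137438953472, 27487830016), (2886218022912, 962072674304)] :=
  covD_split 0 (by decide +kernel) c7_m0_t4 c7_m0_t5
theorem c7_m0_t8 : CovD 0 progs [(858993459200, 171798691840), (164926783488, 54975660032), (2886218022912, 962072674304)] :=
  covD_split 1 (by decide +kernel) c7_m0_t6 c7_m0_t7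
theorem c7_m0 : CovD 0 progs [(1030792151040, 343597383680), (164926783488, 54975660032), (2886218022912, 962072674304)] :=
  covD_split 0 (by decide +kernel) c7_m0_t8 c7_m0_t9

end Pool.Agent.helper31.EQB.Cert.LB2
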