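import Pool.Agent.helper31.EQB.Cert.LB3P

/-!
Generated certificates.
-/

namespace Pool.Agent.helper31.EQB.Cert.LB3

open Pool.Agent.helper31.IA (Z Op)
open Pool.Agent.helper31.IC

mutual
theorem c3_m0_t0 : CovD 0 progs [(85899345920, 85899345920), (164926783488, 54975660032), (2405181685760, 481036337152)] :=
  Pool.Agent.helper14.QF.covD_F chks_eq (.n 0 (.n 0 (.n 0 (.l 0) (.l 0)) (.n 0 (.l 0) (.n 0 (.l 0) (.l 0)))) (.n 0 (.n 0 (.n 0 (.l 0) (.l 0)) (.l 0)) (.n 0 (.l 0) (.l 0))))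
    [(85899345920, 85899345920), (164926783488, 54975660032), (2405181685760, 481036337152)] rfl (by decide +kernel)
theorem c3_m0_t1 : CovD 0 progs [(85899345920, 85899345920), (164926783488, 54975660032), (3367254360064, 481036337152)] :=
  Pool.Agent.helper14.QF.covD_F chks_eq (.n 2 (.n 0 (.n 0 (.l 0) (.n 0 (.l 0) (.l 0))) (.n 0 (.l 0) (.l 0))) (.n 2 (.n 0 (.n 0 (.l 0) (.l 0)) (.n 0 (.l 0) (.l 0))) (.n 2 (.n 2 (.n 0 (.n 0 (.l 0) (.l 0)) (.n 0 (.l 0) (.l 0))) (.l 4)) (.l 4))))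
    [(85899345920, 85899345920), (164926783488, 54975660032), (3367254360064, 481036337152)] rfl (by decide +kernel)
end
mutual
theorem c3_m0_t3 : CovD 0 progs [(257698037760, 85899345920), (164926783488, 54975660032), (2886218022912, 962072674304)] :=
  Pool.Agent.helper14.QF.covD_F chks_eq (.n 2 (.n 0 (.n 1 (.l 0) (.n 0 (.l 0) (.l 1))) (.n 1 (.l 0) (.n 0 (.l 1) (.l 1)))) (.n 2 (.n 0 (.n 0 (.l 0) (.l 0)) (.n 1 (.l 0) (.l 1))) (.n 2 (.n 0 (.n 0 (.l 0) (.l 0)) (.n 0 (.l 0) (.l 1))) (.n 2 (.n 2 (.n 0 (.n 0 (.l 0) (.l 0)) (.n 0 (.l 0) (.l 1))) (.l 4)) (.l 4)))))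
    [(257698037760, 85899345920), (164926783488, 54975660032), (2886218022912, 962072674304)] rfl (by decide +kernel)
theorem c3_m0_t5 : CovD 0 progs [(386547056640, 42949672960), (137438953472, 27487830016), (2886218022912, 962072674304)] :=
  Pool.Agent.helper14.QF.covD_F chks_eq (.n 2 (.l 1) (.n 2 (.l 1) (.n 2 (.l 1) (.n 2 (.n 2 (.l 1) (.l 4)) (.l 4)))))
    [(386547056640, 42949672960), (137438953472, 27487830016), (2886218022912, 962072674304)] rfl (by decide +kernel)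
end
mutual
theorem c3_m0_t6 : CovD 0 progs [(386547056640, 42949672960), (192414613504, 27487830016), (2405181685760, 481036337152)] :=
  Pool.Agent.helper14.QF.covD_F chks_eq (.n 1 (.l 1) (.n 0 (.l 1) (.n 0 (.n 0 (.l 1) (.n 1 (.l 1) (.n 0 (.n 2 (.l 1) (.l 1)) (.n 1 (.l 1) (.l 2))))) (.n 0 (.n 0 (.n 1 (.l 1) (.n 1 (.l 1) (.l 2))) (.n 1 (.l 1) (.n 1 (.n 1 (.l 1) (.l 2)) (.l 2)))) (.n 1 (.l 1) (.l 2))))))
    [(386547056640, 42949672960), (192414613504, 27487830016), (2405181685760, 481036337152)] rfl (by decide +kernel)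
theorem c3_m0_t7 : CovD 0 progs [(386547056640, 42949672960), (192414613504, 27487830016), (3126736191488, 240518168576)] :=
  Pool.Agent.helper14.QF.covD_F chks_eq (.n 0 (.l 1) (.n 0 (.n 0 (.l 1) (.n 1 (.l 1) (.n 1 (.l 1) (.n 0 (.n 1 (.l 1) (.n 1 (.l 1) (.l 2))) (.n 1 (.l 1) (.l 2)))))) (.n 0 (.n 1 (.l 1) (.n 1 (.l 1) (.n 1 (.n 0 (.l 1) (.n 1 (.l 1) (.l 2))) (.l 2)))) (.n 1 (.l 1) (.n 0 (.n 1 (.l 1) (.l 2)) (.n 1 (.n 1 (.l 1) (.n 1 (.l 1) (.l 2))) (.l 2)))))))
    [(386547056640, 42949672960), (192414613504, 27487830016), (3126736191488, 240518168576)] rfl (by decide +kernel)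
end
mutual
theorem c3_m0_t8 : CovD 0 progs [(386547056640, 42949672960), (192414613504, 27487830016), (3487513444352, 120259084288)] :=
  Pool.Agent.helper14.QF.covD_F chks_eq (.n 0 (.l 1) (.n 0 (.n 0 (.l 1) (.n 1 (.l 1) (.n 1 (.l 1) (.n 1 (.l 1) (.n 0 (.n 1 (.l 1) (.l 2)) (.l 2)))))) (.n 1 (.l 1) (.n 0 (.n 1 (.l 1) (.n 1 (.n 1 (.l 1) (.n 0 (.l 2) (.l 2))) (.l 2))) (.n 1 (.n 0 (.l 1) (.n 1 (.l 1) (.n 1 (.l 1) (.l 2)))) (.l 2))))))
    [(386547056640, 42949672960), (192414613504, 27487830016), (3487513444352, 120259084288)] rfl (by decide +kernel)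
theorem c3_m0_t9 : CovD 0 progs [(386547056640, 42949672960), (192414613504, 27487830016), (3728031612928, 120259084288)] :=
  Pool.Agent.helper14.QF.covD_F chks_eq (.n 2 (.n 2 (.n 0 (.l 1) (.n 0 (.n 0 (.l 1) (.n 1 (.l 1) (.n 1 (.l 1) (.n 1 (.l 1) (.n 0 (.n 1 (.l 1) (.l 2)) (.l 2)))))) (.n 1 (.l 1) (.n 0 (.n 1 (.l 1) (.n 1 (.n 1 (.l 1) (.n 0 (.l 2) (.l 2))) (.l 2))) (.n 1 (.n 0 (.l 1) (.n 1 (.l 1) (.n 1 (.l 1) (.l 2)))) (.l 2)))))) (.l 4)) (.l 4))
    [(386547056640, 42949672960), (192414613504, 27487830016), (3728031612928, 120259084288)] rfl (by decide +kernel)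
end
mutual
theorem c3_m0_t14 : CovD 0 progs [(440234147840, 10737418240), (164926783488, 54975660032), (2405181685760, 481036337152)] :=
  Pool.Agent.helper14.QF.covD_F chks_eq (.n 1 (.l 1) (.n 1 (.l 1) (.n 1 (.n 0 (.n 1 (.l 1) (.l 2)) (.n 0 (.n 1 (.l 1) (.l 2)) (.l 2))) (.l 2))))
    [(440234147840, 10737418240), (164926783488, 54975660032), (2405181685760, 481036337152)] rfl (by decide +kernel)
theorem c3_m0_t15 : CovD 0 progs [(440234147840, 10737418240), (164926783488, 54975660032), (3367254360064, 481036337152)] :=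
  Pool.Agent.helper14.QF.covD_F chks_eq (.n 2 (.n 1 (.l 1) (.n 1 (.l 1) (.n 1 (.n 1 (.n 0 (.l 1) (.n 1 (.l 1) (.l 2))) (.l 2)) (.l 2)))) (.n 2 (.n 1 (.l 1) (.n 1 (.l 1) (.n 1 (.n 1 (.n 0 (.l 1) (.n 1 (.l 1) (.l 2))) (.l 2)) (.l 2)))) (.n 2 (.n 2 (.n 1 (.l 1) (.n 1 (.l 1) (.n 1 (.n 1 (.n 0 (.l 1) (.n 1 (.l 1) (.l 2))) (.l 2)) (.l 2)))) (.l 4)) (.l 4))))
    [(440234147840, 10737418240), (164926783488, 54975660032), (3367254360064, 481036337152)] rfl (by decide +kernel)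
end
mutual
theorem c3_m0_t17 : CovD 0 progs [(461708984320, 10737418240), (137438953472, 27487830016), (2886218022912, 962072674304)] :=
  Pool.Agent.helper14.QF.covD_F chks_eq (.n 2 (.l 1) (.n 2 (.l 1) (.n 2 (.l 1) (.n 2 (.n 2 (.l 1) (.l 4)) (.l 4)))))
    [(461708984320, 10737418240), (137438953472, 27487830016), (2886218022912, 962072674304)] rfl (by decide +kernel)
theorem c3_m0_t18 : CovD 0 progs [(461708984320, 10737418240), (192414613504, 27487830016), (2886218022912, 962072674304)] :=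
  Pool.Agent.helper14.QF.covD_F chks_eq (.n 1 (.n 2 (.n 0 (.l 1) (.n 1 (.l 1) (.n 1 (.l 1) (.l 2)))) (.n 2 (.n 0 (.l 1) (.n 1 (.l 1) (.n 1 (.l 1) (.l 2)))) (.n 2 (.n 1 (.l 1) (.n 1 (.l 1) (.n 1 (.n 0 (.l 1) (.l 2)) (.n 0 (.n 0 (.l 1) (.l 2)) (.l 2))))) (.n 2 (.n 2 (.n 1 (.l 1) (.n 1 (.l 1) (.n 0 (.n 0 (.l 1) (.n 1 (.l 1) (.l 2))) (.l 2)))) (.l 4)) (.l 4))))) (.l 2))
    [(461708984320, 10737418240), (192414613504, 27487830016), (2886218022912, 962072674304)] rfl (by decide +kernel)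
end
mutual
theorem c3_m0_t21 : CovD 0 progs [(483183820800, 10737418240), (164926783488, 54975660032), (2886218022912, 962072674304)] :=
  Pool.Agent.helper14.QF.covD_F chks_eq (.n 1 (.n 2 (.l 1) (.n 2 (.l 1) (.n 2 (.l 1) (.n 2 (.n 2 (.l 1) (.l 4)) (.l 4))))) (.n 1 (.n 1 (.n 2 (.l 1) (.n 2 (.l 1) (.n 2 (.l 1) (.n 2 (.n 2 (.l 1) (.l 4)) (.l 4))))) (.n 0 (.n 1 (.n 1 (.n 2 (.l 1) (.n 2 (.l 1) (.n 2 (.l 1) (.n 2 (.n 2 (.l 1) (.l 4)) (.l 4))))) (.l 2)) (.l 2)) (.l 2))) (.l 2)))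
    [(483183820800, 10737418240), (164926783488, 54975660032), (2886218022912, 962072674304)] rfl (by decide +kernel)
theorem c3_m0_t22 : CovD 0 progs [(504658657280, 10737418240), (137438953472, 27487830016), (2886218022912, 962072674304)] :=
  Pool.Agent.helper14.QF.covD_F chks_eq (.n 2 (.l 1) (.n 2 (.l 1) (.n 2 (.l 1) (.n 2 (.n 2 (.l 1) (.l 4)) (.l 4)))))
    [(504658657280, 10737418240), (137438953472, 27487830016), (2886218022912, 962072674304)] rfl (by decide +kernel)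
end
mutual
theorem c3_m0_t23 : CovD 0 progs [(504658657280, 10737418240), (192414613504, 27487830016), (2886218022912, 962072674304)] :=
  Pool.Agent.helper14.QF.covD_F chks_eq (.n 1 (.n 1 (.n 2 (.n 0 (.n 2 (.l 1) (.l 1)) (.n 1 (.l 1) (.l 2))) (.n 2 (.n 1 (.l 1) (.n 0 (.n 0 (.l 1) (.l 2)) (.l 2))) (.n 2 (.n 1 (.l 1) (.n 0 (.n 0 (.l 1) (.l 2)) (.l 2))) (.n 2 (.n 2 (.n 1 (.l 1) (.n 0 (.n 0 (.l 1) (.l 2)) (.l 2))) (.l 4)) (.l 4))))) (.l 2)) (.l 2))
    [(504658657280, 10737418240), (192414613504, 27487830016), (2886218022912, 962072674304)] rfl (by decide +kernel)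
theorem c3_m0_t28 : CovD 0 progs [(536870912000, 21474836480), (137438953472, 27487830016), (2405181685760, 481036337152)] :=
  Pool.Agent.helper14.QF.covD_F chks_eq (.n 0 (.l 1) (.n 1 (.l 1) (.n 0 (.l 1) (.n 1 (.l 1) (.n 1 (.l 1) (.l 2))))))
    [(536870912000, 21474836480), (137438953472, 27487830016), (2405181685760, 481036337152)] rfl (by decide +kernel)
end
mutual
theorem c3_m0_t29 : CovD 0 progs [(536870912000, 21474836480), (137438953472, 27487830016), (3367254360064, 481036337152)] :=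
  Pool.Agent.helper14.QF.covD_F chks_eq (.n 2 (.n 0 (.l 1) (.n 1 (.l 1) (.n 1 (.l 1) (.n 1 (.l 1) (.n 1 (.l 1) (.l 2)))))) (.n 2 (.n 0 (.l 1) (.n 1 (.l 1) (.n 1 (.l 1) (.n 1 (.l 1) (.n 0 (.n 0 (.l 1) (.l 2)) (.l 2)))))) (.n 2 (.n 2 (.n 0 (.l 1) (.n 1 (.l 1) (.n 1 (.l 1) (.n 1 (.l 1) (.n 0 (.n 0 (.l 1) (.l 2)) (.l 2)))))) (.l 4)) (.l 4))))
    [(536870912000, 21474836480), (137438953472, 27487830016), (3367254360064, 481036337152)] rfl (by decide +kernel)
theorem c3_m0_t31 : CovD 0 progs [(536870912000, 21474836480), (192414613504, 27487830016), (2886218022912, 962072674304)] :=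
  Pool.Agent.helper14.QF.covD_F chks_eq (.n 0 (.n 0 (.n 0 (.n 1 (.n 1 (.n 1 (.n 1 (.n 1 (.n 2 (.l 1) (.n 2 (.l 1) (.n 2 (.l 1) (.n 2 (.n 2 (.l 1) (.l 4)) (.l 4))))) (.l 2)) (.l 2)) (.l 2)) (.l 2)) (.l 2)) (.l 2)) (.l 2)) (.l 2))
    [(536870912000, 21474836480), (192414613504, 27487830016), (2886218022912, 962072674304)] rfl (by decide +kernel)
end
mutual
theorem c3_m0_t33 : CovD 0 progs [(579820584960, 21474836480), (137438953472, 27487830016), (2405181685760, 481036337152)] :=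
  Pool.Agent.helper14.QF.covD_F chks_eq (.n 1 (.l 1) (.n 1 (.l 1) (.n 0 (.n 0 (.n 1 (.l 1) (.l 2)) (.l 2)) (.l 2))))
    [(579820584960, 21474836480), (137438953472, 27487830016), (2405181685760, 481036337152)] rfl (by decide +kernel)
theorem c3_m0_t34 : CovD 0 progs [(579820584960, 21474836480), (137438953472, 27487830016), (3126736191488, 240518168576)] :=
  Pool.Agent.helper14.QF.covD_F chks_eq (.n 0 (.n 1 (.l 1) (.n 1 (.l 1) (.n 0 (.n 1 (.l 1) (.l 2)) (.l 2)))) (.n 1 (.l 1) (.n 1 (.n 1 (.l 1) (.n 1 (.l 1) (.l 2))) (.l 2))))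
    [(579820584960, 21474836480), (137438953472, 27487830016), (3126736191488, 240518168576)] rfl (by decide +kernel)
end
mutual
theorem c3_m0_t35 : CovD 0 progs [(579820584960, 21474836480), (137438953472, 27487830016), (3607772528640, 240518168576)] :=
  Pool.Agent.helper14.QF.covD_F chks_eq (.n 2 (.n 1 (.l 1) (.n 0 (.n 1 (.l 1) (.n 0 (.n 1 (.l 1) (.l 2)) (.l 2))) (.n 1 (.n 1 (.l 1) (.n 1 (.l 1) (.l 2))) (.l 2)))) (.n 2 (.n 2 (.n 1 (.l 1) (.n 0 (.n 1 (.l 1) (.n 0 (.n 1 (.l 1) (.l 2)) (.l 2))) (.n 1 (.n 1 (.l 1) (.n 1 (.l 1) (.l 2))) (.l 2)))) (.l 4)) (.l 4)))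
    [(579820584960, 21474836480), (137438953472, 27487830016), (3607772528640, 240518168576)] rfl (by decide +kernel)
theorem c3_m0_t38 : CovD 0 progs [(579820584960, 21474836480), (192414613504, 27487830016), (2886218022912, 962072674304)] :=
  Pool.Agent.helper14.QF.covD_F chks_eq (.l 2)
    [(579820584960, 21474836480), (192414613504, 27487830016), (2886218022912, 962072674304)] rfl (by decide +kernel)
end
mutual
theorem c3_m0_t41 : CovD 0 progs [(622770257920, 21474836480), (164926783488, 54975660032), (2886218022912, 962072674304)] :=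
  Pool.Agent.helper14.QF.covD_F chks_eq (.n 1 (.n 1 (.n 2 (.l 1) (.n 2 (.l 1) (.n 2 (.l 1) (.n 2 (.n 2 (.l 1) (.l 4)) (.l 4))))) (.n 1 (.n 0 (.n 1 (.n 2 (.l 1) (.n 2 (.l 1) (.n 2 (.l 1) (.n 2 (.n 2 (.l 1) (.l 4)) (.l 4))))) (.l 2)) (.n 0 (.l 2) (.l 2))) (.l 2))) (.l 2))
    [(622770257920, 21474836480), (164926783488, 54975660032), (2886218022912, 962072674304)] rfl (by decide +kernel)
theorem c3_m0_t42 : CovD 0 progs [(665719930880, 21474836480), (164926783488, 54975660032), (2886218022912, 962072674304)] :=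
  Pool.Agent.helper14.QF.covD_F chks_eq (.n 1 (.n 1 (.n 2 (.n 1 (.l 1) (.n 1 (.l 1) (.n 0 (.l 1) (.l 2)))) (.n 2 (.n 1 (.l 1) (.n 1 (.l 1) (.n 0 (.n 1 (.l 1) (.l 2)) (.l 2)))) (.n 2 (.n 1 (.l 1) (.n 1 (.l 1) (.n 0 (.n 1 (.l 1) (.l 2)) (.l 2)))) (.n 2 (.n 2 (.n 1 (.l 1) (.n 1 (.l 1) (.n 0 (.n 1 (.l 1) (.l 2)) (.l 2)))) (.l 4)) (.l 4))))) (.l 2)) (.l 2))
    [(665719930880, 21474836480), (164926783488, 54975660032), (2886218022912, 962072674304)] rfl (by decide +kernel)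
end
mutual
theorem c4_m0_t0 : CovD 0 progs [(773094113280, 85899345920), (54975594496, 54975594496), (962072674304, 962072674304)] :=
  Pool.Agent.helper14.QF.covD_F chks_eq (.n 0 (.n 2 (.l 1) (.l 1)) (.n 0 (.l 1) (.n 0 (.n 1 (.l 0) (.n 1 (.l 1) (.l 1))) (.n 1 (.l 0) (.n 1 (.l 1) (.n 1 (.l 1) (.n 1 (.l 1) (.l 2))))))))
    [(773094113280, 85899345920), (54975594496, 54975594496), (962072674304, 962072674304)] rfl (by decide +kernel)
theorem c4_m0_t1 : CovD 0 progs [(944892805120, 85899345920), (54975594496, 54975594496), (962072674304, 962072674304)] :=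
  Pool.Agent.helper14.QF.covD_F chks_eq (.n 0 (.n 1 (.l 0) (.n 1 (.l 1) (.n 1 (.l 1) (.n 0 (.n 1 (.n 1 (.l 1) (.l 2)) (.l 2)) (.l 2))))) (.n 0 (.n 1 (.l 0) (.n 1 (.l 1) (.n 1 (.n 1 (.l 1) (.n 1 (.n 0 (.l 1) (.l 2)) (.l 2))) (.l 2)))) (.n 1 (.l 0) (.n 1 (.l 1) (.n 1 (.n 0 (.n 1 (.l 1) (.l 2)) (.n 1 (.n 1 (.l 1) (.l 2)) (.l 2))) (.l 2))))))
    [(944892805120, 85899345920), (54975594496, 54975594496), (962072674304, 962072674304)] rfl (by decide +kernel)
end
mutual
theorem c4_m0_t3 : CovD 0 progs [(1073741824000, 42949672960), (54975594496, 54975594496), (962072674304, 962072674304)] :=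
  Pool.Agent.helper14.QF.covD_F chks_eq (.n 0 (.n 1 (.l 1) (.n 0 (.n 1 (.l 1) (.n 1 (.n 1 (.n 1 (.l 1) (.l 2)) (.l 2)) (.l 2))) (.n 1 (.l 1) (.l 2)))) (.n 1 (.l 1) (.n 1 (.n 0 (.n 1 (.l 1) (.l 1)) (.n 1 (.l 1) (.n 1 (.l 1) (.n 1 (.l 1) (.l 2))))) (.l 2))))
    [(1073741824000, 42949672960), (54975594496, 54975594496), (962072674304, 962072674304)] rfl (by decide +kernel)
theorem c4_m0_t4 : CovD 0 progs [(1159641169920, 42949672960), (54975594496, 54975594496), (962072674304, 962072674304)] :=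
  Pool.Agent.helper14.QF.covD_F chks_eq (.n 0 (.n 1 (.l 1) (.n 1 (.n 1 (.l 1) (.n 0 (.n 1 (.l 1) (.n 1 (.l 1) (.l 2))) (.n 1 (.l 1) (.l 2)))) (.l 2))) (.n 1 (.n 1 (.l 0) (.l 1)) (.n 1 (.n 1 (.l 1) (.n 0 (.n 1 (.l 1) (.l 2)) (.n 1 (.n 1 (.l 1) (.n 1 (.l 1) (.l 2))) (.l 2)))) (.l 2))))
    [(1159641169920, 42949672960), (54975594496, 54975594496), (962072674304, 962072674304)] rfl (by decide +kernel)
end
mutual
theorem c4_m0_t6 : CovD 0 progs [(1245540515840, 42949672960), (54975594496, 54975594496), (962072674304, 962072674304)] :=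
  Pool.Agent.helper14.QF.covD_F chks_eq (.n 1 (.n 1 (.l 0) (.n 0 (.l 1) (.l 1))) (.n 0 (.n 1 (.n 1 (.l 1) (.n 1 (.n 1 (.n 1 (.l 1) (.n 0 (.l 1) (.l 2))) (.l 2)) (.l 2))) (.l 2)) (.n 0 (.n 1 (.n 1 (.l 1) (.n 0 (.l 2) (.l 2))) (.l 2)) (.n 0 (.n 1 (.n 1 (.l 1) (.l 2)) (.l 2)) (.n 1 (.n 1 (.n 1 (.l 1) (.n 1 (.l 1) (.n 1 (.l 1) (.l 2)))) (.l 2)) (.l 2))))))
    [(1245540515840, 42949672960), (54975594496, 54975594496), (962072674304, 962072674304)] rfl (by decide +kernel)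
theorem c4_m0_t7 : CovD 0 progs [(1331439861760, 42949672960), (27487797248, 27487797248), (962072674304, 962072674304)] :=
  Pool.Agent.helper14.QF.covD_F chks_eq (.n 1 (.l 0) (.n 1 (.l 1) (.l 1)))
    [(1331439861760, 42949672960), (27487797248, 27487797248), (962072674304, 962072674304)] rfl (by decide +kernel)
end
mutual
theorem c4_m0_t8 : CovD 0 progs [(1331439861760, 42949672960), (82463391744, 27487797248), (962072674304, 962072674304)] :=
  Pool.Agent.helper14.QF.covD_F chks_eq (.n 0 (.n 1 (.n 1 (.n 1 (.l 1) (.n 1 (.l 1) (.n 1 (.n 1 (.n 0 (.l 1) (.l 2)) (.n 0 (.l 1) (.l 2))) (.l 2)))) (.l 2)) (.l 2)) (.n 0 (.n 1 (.n 1 (.n 1 (.l 1) (.n 1 (.n 1 (.l 1) (.n 1 (.l 1) (.l 2))) (.l 2))) (.l 2)) (.l 2)) (.n 1 (.n 1 (.n 1 (.l 1) (.n 1 (.n 1 (.l 3) (.l 2)) (.l 2))) (.l 2)) (.l 2))))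
    [(1331439861760, 42949672960), (82463391744, 27487797248), (962072674304, 962072674304)] rfl (by decide +kernel)
theorem c5_m0_t0 : CovD 0 progs [(858993459200, 171798691840), (27487797248, 27487797248), (2886218022912, 962072674304)] :=
  Pool.Agent.helper14.QF.covD_F chks_eq (.n 0 (.n 2 (.n 0 (.l 0) (.l 0)) (.n 2 (.l 0) (.n 2 (.l 0) (.n 2 (.n 2 (.l 0) (.n 1 (.l 4) (.l 4))) (.l 4))))) (.n 2 (.n 0 (.l 0) (.l 0)) (.n 2 (.n 0 (.l 0) (.l 0)) (.n 2 (.n 0 (.l 0) (.l 0)) (.n 2 (.n 1 (.n 2 (.l 0) (.l 4)) (.n 2 (.l 1) (.n 1 (.l 4) (.l 4)))) (.l 4))))))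
    [(858993459200, 171798691840), (27487797248, 27487797248), (2886218022912, 962072674304)] rfl (by decide +kernel)
end
mutual
theorem c5_m0_t1 : CovD 0 progs [(1202590842880, 171798691840), (13743898624, 13743898624), (2886218022912, 962072674304)] :=
  Pool.Agent.helper14.QF.covD_F chks_eq (.n 0 (.n 2 (.n 0 (.l 0) (.l 0)) (.n 2 (.l 0) (.n 2 (.l 0) (.n 2 (.n 2 (.l 1) (.n 1 (.l 4) (.l 4))) (.l 4))))) (.n 2 (.n 0 (.l 0) (.l 0)) (.n 2 (.n 0 (.l 0) (.l 0)) (.n 2 (.n 0 (.l 0) (.l 1)) (.n 2 (.n 2 (.n 0 (.l 1) (.n 0 (.l 1) (.l 1))) (.n 1 (.l 4) (.n 0 (.l 4) (.l 4)))) (.l 4))))))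
    [(1202590842880, 171798691840), (13743898624, 13743898624), (2886218022912, 962072674304)] rfl (by decide +kernel)
theorem c5_m0_t2 : CovD 0 progs [(1202590842880, 171798691840), (34359746560, 6871949312), (2886218022912, 962072674304)] :=
  Pool.Agent.helper14.QF.covD_F chks_eq (.n 2 (.n 0 (.l 0) (.n 0 (.l 1) (.l 1))) (.n 2 (.n 0 (.l 0) (.n 0 (.l 1) (.l 1))) (.n 2 (.n 0 (.l 1) (.n 0 (.l 1) (.l 1))) (.n 2 (.n 2 (.n 0 (.l 1) (.n 0 (.l 1) (.n 0 (.l 1) (.n 0 (.l 3) (.l 3))))) (.n 0 (.n 0 (.l 4) (.l 4)) (.n 1 (.l 4) (.l 4)))) (.l 4)))))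
    [(1202590842880, 171798691840), (34359746560, 6871949312), (2886218022912, 962072674304)] rfl (by decide +kernel)
end
mutual
theorem c5_m0_t3 : CovD 0 progs [(1202590842880, 171798691840), (48103645184, 6871949312), (2405181685760, 481036337152)] :=
  Pool.Agent.helper14.QF.covD_F chks_eq (.n 0 (.l 1) (.n 0 (.l 1) (.l 1)))
    [(1202590842880, 171798691840), (48103645184, 6871949312), (2405181685760, 481036337152)] rfl (by decide +kernel)
theorem c5_m0_t4 : CovD 0 progs [(1202590842880, 171798691840), (48103645184, 6871949312), (3367254360064, 481036337152)] :=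
  Pool.Agent.helper14.QF.covD_F chks_eq (.n 2 (.n 0 (.l 1) (.n 0 (.l 1) (.l 1))) (.n 2 (.n 0 (.l 1) (.n 0 (.l 1) (.l 1))) (.n 2 (.n 2 (.n 0 (.l 1) (.n 0 (.l 1) (.n 2 (.l 1) (.n 2 (.l 1) (.n 2 (.n 0 (.l 1) (.n 1 (.l 1) (.l 4))) (.n 1 (.n 0 (.n 0 (.l 1) (.l 4)) (.l 4)) (.l 4))))))) (.n 0 (.n 0 (.l 4) (.l 4)) (.n 0 (.n 0 (.l 4) (.l 4)) (.n 0 (.l 4) (.l 4))))) (.l 4))))
    [(1202590842880, 171798691840), (48103645184, 6871949312), (3367254360064, 481036337152)] rfl (by decide +kernel)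
end

theorem c3_m0_t2 : CovD 0 progs [(85899345920, 85899345920), (164926783488, 54975660032), (2886218022912, 962072674304)] :=
  covD_split 2 (by decide +kernel) c3_m0_t0 c3_m0_t1
theorem c3_m0_t4 : CovD 0 progs [(171798691840, 171798691840), (164926783488, 54975660032), (2886218022912, 962072674304)] :=
  covD_split 0 (by decide +kernel) c3_m0_t2 c3_m0_t3
theorem c3_m0_t10 : CovD 0 progs [(386547056640, 42949672960), (192414613504, 27487830016), (3607772528640, 240518168576)] :=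
  covD_split 2 (by decide +kernel) c3_m0_t8 c3_m0_t9
theorem c3_m0_t11 : CovD 0 progs [(386547056640, 42949672960), (192414613504, 27487830016), (3367254360064, 481036337152)] :=
  covD_split 2 (by decide +kernel) c3_m0_t7 c3_m0_t10
theorem c3_m0_t12 : CovD 0 progs [(386547056640, 42949672960), (192414613504, 27487830016), (2886218022912, 962072674304)] :=
  covD_split 2 (by decide +kernel) c3_m0_t6 c3_m0_t11
theorem c3_m0_t13 : CovD 0 progs [(386547056640, 42949672960), (164926783488, 54975660032), (2886218022912, 962072674304)] :=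
  covD_split 1 (by decide +kernel) c3_m0_t5 c3_m0_t12
theorem c3_m0_t16 : CovD 0 progs [(440234147840, 10737418240), (164926783488, 54975660032), (2886218022912, 962072674304)] :=
  covD_split 2 (by decide +kernel) c3_m0_t14 c3_m0_t15
theorem c3_m0_t19 : CovD 0 progs [(461708984320, 10737418240), (164926783488, 54975660032), (2886218022912, 962072674304)] :=
  covD_split 1 (by decide +kernel) c3_m0_t17 c3_m0_t18
theorem c3_m0_t20 : CovD 0 progs [(450971566080, 21474836480), (164926783488, 54975660032), (2886218022912, 962072674304)] :=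
  covD_split 0 (by decide +kernel) c3_m0_t16 c3_m0_t19
theorem c3_m0_t24 : CovD 0 progs [(504658657280, 10737418240), (164926783488, 54975660032), (2886218022912, 962072674304)] :=
  covD_split 1 (by decide +kernel) c3_m0_t22 c3_m0_t23
theorem c3_m0_t25 : CovD 0 progs [(493921239040, 21474836480), (164926783488, 54975660032), (2886218022912, 962072674304)] :=
  covD_split 0 (by decide +kernel) c3_m0_t21 c3_m0_t24
theorem c3_m0_t26 : CovD 0 progs [(472446402560, 42949672960), (164926783488, 54975660032), (2886218022912, 962072674304)] :=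
  covD_split 0 (by decide +kernel) c3_m0_t20 c3_m0_t25
theorem c3_m0_t27 : CovD 0 progs [(429496729600, 85899345920), (164926783488, 54975660032), (2886218022912, 962072674304)] :=
  covD_split 0 (by decide +kernel) c3_m0_t13 c3_m0_t26
theorem c3_m0_t30 : CovD 0 progs [(536870912000, 21474836480), (137438953472, 27487830016), (2886218022912, 962072674304)] :=
  covD_split 2 (by decide +kernel) c3_m0_t28 c3_m0_t29
theorem c3_m0_t32 : CovD 0 progs [(536870912000, 21474836480), (164926783488, 54975660032), (2886218022912, 962072674304)] :=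
  covD_split 1 (by decide +kernel) c3_m0_t30 c3_m0_t31
theorem c3_m0_t36 : CovD 0 progs [(579820584960, 21474836480), (137438953472, 27487830016), (3367254360064, 481036337152)] :=
  covD_split 2 (by decide +kernel) c3_m0_t34 c3_m0_t35
theorem c3_m0_t37 : CovD 0 progs [(579820584960, 21474836480), (137438953472, 27487830016), (2886218022912, 962072674304)] :=
  covD_split 2 (by decide +kernel) c3_m0_t33 c3_m0_t36
theorem c3_m0_t39 : CovD 0 progs [(579820584960, 21474836480), (164926783488, 54975660032), (2886218022912, 962072674304)] :=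
  covD_split 1 (by decide +kernel) c3_m0_t37 c3_m0_t38
theorem c3_m0_t40 : CovD 0 progs [(558345748480, 42949672960), (164926783488, 54975660032), (2886218022912, 962072674304)] :=
  covD_split 0 (by decide +kernel) c3_m0_t32 c3_m0_t39
theorem c3_m0_t43 : CovD 0 progs [(644245094400, 42949672960), (164926783488, 54975660032), (2886218022912, 962072674304)] :=
  covD_split 0 (by decide +kernel) c3_m0_t41 c3_m0_t42
theorem c3_m0_t44 : CovD 0 progs [(601295421440, 85899345920), (164926783488, 54975660032), (2886218022912, 962072674304)] :=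
  covD_split 0 (by decide +kernel) c3_m0_t40 c3_m0_t43
theorem c3_m0_t45 : CovD 0 progs [(515396075520, 171798691840), (164926783488, 54975660032), (2886218022912, 962072674304)] :=
  covD_split 0 (by decide +kernel) c3_m0_t27 c3_m0_t44
theorem c3_m0 : CovD 0 progs [(343597383680, 343597383680), (164926783488, 54975660032), (2886218022912, 962072674304)] :=
  covD_split 0 (by decide +kernel) c3_m0_t4 c3_m0_t45
theorem c4_m0_t2 : CovD 0 progs [(858993459200, 171798691840), (54975594496, 54975594496), (962072674304, 962072674304)] :=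
  covD_split 0 (by decide +kernel) c4_m0_t0 c4_m0_t1
theorem c4_m0_t5 : CovD 0 progs [(1116691496960, 85899345920), (54975594496, 54975594496), (962072674304, 962072674304)] :=
  covD_split 0 (by decide +kernel) c4_m0_t3 c4_m0_t4
theorem c4_m0_t9 : CovD 0 progs [(1331439861760, 42949672960), (54975594496, 54975594496), (962072674304, 962072674304)] :=
  covD_split 1 (by decide +kernel) c4_m0_t7 c4_m0_t8
theorem c4_m0_t10 : CovD 0 progs [(1288490188800, 85899345920), (54975594496, 54975594496), (962072674304, 962072674304)] :=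
  covD_split 0 (by decide +kernel) c4_m0_t6 c4_m0_t9
theorem c4_m0_t11 : CovD 0 progs [(1202590842880, 171798691840), (54975594496, 54975594496), (962072674304, 962072674304)] :=
  covD_split 0 (by decide +kernel) c4_m0_t5 c4_m0_t10
theorem c4_m0 : CovD 0 progs [(1030792151040, 343597383680), (54975594496, 54975594496), (962072674304, 962072674304)] :=
  covD_split 0 (by decide +kernel) c4_m0_t2 c4_m0_t11
theorem c5_m0_t5 : CovD 0 progs [(1202590842880, 171798691840), (48103645184, 6871949312), (2886218022912, 962072674304)] :=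
  covD_split 2 (by decide +kernel) c5_m0_t3 c5_m0_t4
theorem c5_m0_t6 : CovD 0 progs [(1202590842880, 171798691840), (41231695872, 13743898624), (2886218022912, 962072674304)] :=
  covD_split 1 (by decide +kernel) c5_m0_t2 c5_m0_t5
theorem c5_m0_t7 : CovD 0 progs [(1202590842880, 171798691840), (27487797248, 27487797248), (2886218022912, 962072674304)] :=
  covD_split 1 (by decide +kernel) c5_m0_t1 c5_m0_t6
theorem c5_m0 : CovD 0 progs [(1030792151040, 343597383680), (27487797248, 27487797248), (2886218022912, 962072674304)] :=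
  covD_split 0 (by decide +kernel) c5_m0_t0 c5_m0_t7

end Pool.Agent.helper31.EQB.Cert.LB3
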