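import Pool.Agent.helper31.EQB.Cert.LB3P

/-!
Generated certificates.
-/

namespace Pool.Agent.helper31.EQB.Cert.LB3

open Pool.Agent.helper31.IA (Z Op)
open Pool.Agent.helper31.IC

mutual
theorem c5_m1_t0 : CovD 0 progs [(858993459200, 171798691840), (61847543808, 6871949312), (2164663517184, 240518168576)] :=
  Pool.Agent.helper14.QF.covD_F chks_eq (.n 0 (.l 0) (.l 1))
    [(858993459200, 171798691840), (61847543808, 6871949312), (2164663517184, 240518168576)] rfl (by decide +kernel)
theorem c5_m1_t1 : CovD 0 progs [(1116691496960, 85899345920), (61847543808, 6871949312), (2164663517184, 240518168576)] :=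
  Pool.Agent.helper14.QF.covD_F chks_eq (.l 1)
    [(1116691496960, 85899345920), (61847543808, 6871949312), (2164663517184, 240518168576)] rfl (by decide +kernel)
end
mutual
theorem c5_m1_t2 : CovD 0 progs [(1245540515840, 42949672960), (61847543808, 6871949312), (2164663517184, 240518168576)] :=
  Pool.Agent.helper14.QF.covD_F chks_eq (.n 0 (.l 1) (.n 0 (.l 1) (.n 0 (.l 1) (.n 1 (.l 1) (.n 1 (.l 1) (.n 1 (.l 1) (.l 2)))))))
    [(1245540515840, 42949672960), (61847543808, 6871949312), (2164663517184, 240518168576)] rfl (by decide +kernel)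
theorem c5_m1_t3 : CovD 0 progs [(1331439861760, 42949672960), (61847543808, 6871949312), (2164663517184, 240518168576)] :=
  Pool.Agent.helper14.QF.covD_F chks_eq (.n 0 (.n 0 (.n 1 (.l 1) (.n 1 (.l 1) (.n 1 (.n 1 (.l 1) (.n 0 (.l 1) (.l 2))) (.l 2)))) (.n 1 (.l 1) (.n 1 (.l 1) (.n 0 (.n 0 (.l 2) (.l 2)) (.l 2))))) (.n 0 (.n 1 (.l 1) (.n 1 (.n 1 (.l 1) (.n 1 (.n 1 (.l 1) (.n 0 (.l 1) (.l 2))) (.l 2))) (.l 2))) (.n 1 (.l 1) (.n 1 (.n 1 (.l 3) (.l 2)) (.l 2)))))
    [(1331439861760, 42949672960), (61847543808, 6871949312), (2164663517184, 240518168576)] rfl (by decide +kernel)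
end
mutual
theorem c5_m1_t7 : CovD 0 progs [(858993459200, 171798691840), (61847543808, 6871949312), (2645699854336, 240518168576)] :=
  Pool.Agent.helper14.QF.covD_F chks_eq (.n 0 (.l 0) (.l 1))
    [(858993459200, 171798691840), (61847543808, 6871949312), (2645699854336, 240518168576)] rfl (by decide +kernel)
theorem c5_m1_t8 : CovD 0 progs [(1116691496960, 85899345920), (61847543808, 6871949312), (2645699854336, 240518168576)] :=
  Pool.Agent.helper14.QF.covD_F chks_eq (.l 1)
    [(1116691496960, 85899345920), (61847543808, 6871949312), (2645699854336, 240518168576)] rfl (by decide +kernel)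
end
mutual
theorem c5_m1_t9 : CovD 0 progs [(1245540515840, 42949672960), (61847543808, 6871949312), (2645699854336, 240518168576)] :=
  Pool.Agent.helper14.QF.covD_F chks_eq (.n 0 (.l 1) (.n 0 (.l 1) (.n 0 (.l 1) (.n 1 (.l 1) (.n 1 (.l 1) (.n 1 (.l 1) (.l 2)))))))
    [(1245540515840, 42949672960), (61847543808, 6871949312), (2645699854336, 240518168576)] rfl (by decide +kernel)
theorem c5_m1_t10 : CovD 0 progs [(1331439861760, 42949672960), (61847543808, 6871949312), (2645699854336, 240518168576)] :=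
  Pool.Agent.helper14.QF.covD_F chks_eq (.n 0 (.n 0 (.n 1 (.l 1) (.n 1 (.l 1) (.n 1 (.n 1 (.l 1) (.n 0 (.l 1) (.l 2))) (.l 2)))) (.n 1 (.l 1) (.n 1 (.l 1) (.n 0 (.n 0 (.l 2) (.l 2)) (.l 2))))) (.n 0 (.n 1 (.l 1) (.n 1 (.n 1 (.l 1) (.n 1 (.n 1 (.l 1) (.n 0 (.l 1) (.l 2))) (.l 2))) (.l 2))) (.n 1 (.l 1) (.n 1 (.n 1 (.l 3) (.l 2)) (.l 2)))))
    [(1331439861760, 42949672960), (61847543808, 6871949312), (2645699854336, 240518168576)] rfl (by decide +kernel)
end
mutual
theorem c5_m1_t15 : CovD 0 progs [(858993459200, 171798691840), (61847543808, 6871949312), (3126736191488, 240518168576)] :=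
  Pool.Agent.helper14.QF.covD_F chks_eq (.n 0 (.l 0) (.l 1))
    [(858993459200, 171798691840), (61847543808, 6871949312), (3126736191488, 240518168576)] rfl (by decide +kernel)
theorem c5_m1_t16 : CovD 0 progs [(1116691496960, 85899345920), (61847543808, 6871949312), (3126736191488, 240518168576)] :=
  Pool.Agent.helper14.QF.covD_F chks_eq (.l 1)
    [(1116691496960, 85899345920), (61847543808, 6871949312), (3126736191488, 240518168576)] rfl (by decide +kernel)
end
mutual
theorem c5_m1_t17 : CovD 0 progs [(1245540515840, 42949672960), (61847543808, 6871949312), (3126736191488, 240518168576)] :=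
  Pool.Agent.helper14.QF.covD_F chks_eq (.n 0 (.l 1) (.n 0 (.l 1) (.n 1 (.l 1) (.n 1 (.l 1) (.n 1 (.l 1) (.n 1 (.l 1) (.l 2)))))))
    [(1245540515840, 42949672960), (61847543808, 6871949312), (3126736191488, 240518168576)] rfl (by decide +kernel)
theorem c5_m1_t18 : CovD 0 progs [(1331439861760, 42949672960), (61847543808, 6871949312), (3126736191488, 240518168576)] :=
  Pool.Agent.helper14.QF.covD_F chks_eq (.n 0 (.n 0 (.n 1 (.l 1) (.n 1 (.l 1) (.n 1 (.n 1 (.l 1) (.n 0 (.l 1) (.l 2))) (.l 2)))) (.n 1 (.l 1) (.n 1 (.l 1) (.n 0 (.n 0 (.l 2) (.l 2)) (.l 2))))) (.n 0 (.n 1 (.l 1) (.n 1 (.n 1 (.l 1) (.n 1 (.n 1 (.l 1) (.n 0 (.l 1) (.l 2))) (.l 2))) (.l 2))) (.n 1 (.l 1) (.n 1 (.n 1 (.l 3) (.l 2)) (.l 2)))))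
    [(1331439861760, 42949672960), (61847543808, 6871949312), (3126736191488, 240518168576)] rfl (by decide +kernel)
end
mutual
theorem c5_m1_t22 : CovD 0 progs [(858993459200, 171798691840), (61847543808, 6871949312), (3487513444352, 120259084288)] :=
  Pool.Agent.helper14.QF.covD_F chks_eq (.n 0 (.l 0) (.l 1))
    [(858993459200, 171798691840), (61847543808, 6871949312), (3487513444352, 120259084288)] rfl (by decide +kernel)
theorem c5_m1_t23 : CovD 0 progs [(1116691496960, 85899345920), (61847543808, 6871949312), (3487513444352, 120259084288)] :=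
  Pool.Agent.helper14.QF.covD_F chks_eq (.l 1)
    [(1116691496960, 85899345920), (61847543808, 6871949312), (3487513444352, 120259084288)] rfl (by decide +kernel)
end
mutual
theorem c5_m1_t24 : CovD 0 progs [(1288490188800, 85899345920), (58411569152, 3435974656), (3487513444352, 120259084288)] :=
  Pool.Agent.helper14.QF.covD_F chks_eq (.l 1)
    [(1288490188800, 85899345920), (58411569152, 3435974656), (3487513444352, 120259084288)] rfl (by decide +kernel)
theorem c5_m1_t25 : CovD 0 progs [(1288490188800, 85899345920), (63565531136, 1717987328), (3487513444352, 120259084288)] :=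
  Pool.Agent.helper14.QF.covD_F chks_eq (.n 1 (.n 0 (.l 1) (.n 0 (.l 1) (.n 0 (.l 1) (.l 3)))) (.n 1 (.n 0 (.l 1) (.n 1 (.n 0 (.l 1) (.n 0 (.l 1) (.l 2))) (.n 0 (.l 1) (.n 0 (.n 0 (.l 1) (.l 2)) (.l 2))))) (.n 0 (.l 1) (.n 0 (.n 0 (.l 1) (.n 1 (.l 1) (.n 0 (.l 1) (.l 2)))) (.l 2)))))
    [(1288490188800, 85899345920), (63565531136, 1717987328), (3487513444352, 120259084288)] rfl (by decide +kernel)
end
mutual
theorem c5_m1_t26 : CovD 0 progs [(1288490188800, 85899345920), (67001505792, 1717987328), (3487513444352, 120259084288)] :=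
  Pool.Agent.helper14.QF.covD_F chks_eq (.n 0 (.n 0 (.l 1) (.n 0 (.l 1) (.n 1 (.l 1) (.n 1 (.l 1) (.l 2))))) (.n 0 (.n 0 (.n 1 (.n 0 (.l 1) (.n 1 (.l 1) (.l 2))) (.l 2)) (.n 0 (.n 0 (.l 2) (.l 2)) (.l 2))) (.l 2)))
    [(1288490188800, 85899345920), (67001505792, 1717987328), (3487513444352, 120259084288)] rfl (by decide +kernel)
theorem c5_m1_t31 : CovD 0 progs [(1030792151040, 343597383680), (58411569152, 3435974656), (3728031612928, 120259084288)] :=
  Pool.Agent.helper14.QF.covD_F chks_eq (.n 0 (.n 2 (.n 0 (.n 2 (.l 0) (.l 4)) (.n 2 (.l 1) (.l 4))) (.l 4)) (.n 2 (.n 0 (.n 2 (.l 1) (.n 0 (.l 4) (.l 4))) (.n 2 (.n 2 (.l 1) (.n 0 (.n 0 (.l 1) (.n 2 (.l 1) (.l 4))) (.n 2 (.n 0 (.l 1) (.n 2 (.l 1) (.l 4))) (.l 4)))) (.l 4))) (.l 4)))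
    [(1030792151040, 343597383680), (58411569152, 3435974656), (3728031612928, 120259084288)] rfl (by decide +kernel)
end
mutual
theorem c5_m1_t32 : CovD 0 progs [(858993459200, 171798691840), (65283518464, 3435974656), (3728031612928, 120259084288)] :=
  Pool.Agent.helper14.QF.covD_F chks_eq (.n 2 (.n 0 (.n 2 (.l 1) (.l 4)) (.n 2 (.l 1) (.l 4))) (.l 4))
    [(858993459200, 171798691840), (65283518464, 3435974656), (3728031612928, 120259084288)] rfl (by decide +kernel)
theorem c5_m1_t33 : CovD 0 progs [(1116691496960, 85899345920), (65283518464, 3435974656), (3667902070784, 60129542144)] :=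
  Pool.Agent.helper14.QF.covD_F chks_eq (.n 2 (.l 1) (.n 0 (.l 4) (.l 4)))
    [(1116691496960, 85899345920), (65283518464, 3435974656), (3667902070784, 60129542144)] rfl (by decide +kernel)
end
mutual
theorem c5_m1_t34 : CovD 0 progs [(1288490188800, 85899345920), (63565531136, 1717987328), (3622804914176, 15032385536)] :=
  Pool.Agent.helper14.QF.covD_F chks_eq (.n 0 (.l 1) (.n 1 (.n 0 (.l 1) (.n 0 (.l 1) (.l 3))) (.n 0 (.n 0 (.l 1) (.n 0 (.l 1) (.n 1 (.l 1) (.n 1 (.l 1) (.l 2))))) (.n 0 (.n 1 (.n 0 (.l 1) (.n 1 (.l 1) (.l 2))) (.l 2)) (.l 2)))))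
    [(1288490188800, 85899345920), (63565531136, 1717987328), (3622804914176, 15032385536)] rfl (by decide +kernel)
theorem c5_m1_t35 : CovD 0 progs [(1288490188800, 85899345920), (67001505792, 1717987328), (3622804914176, 15032385536)] :=
  Pool.Agent.helper14.QF.covD_F chks_eq (.n 0 (.n 0 (.l 1) (.n 0 (.l 1) (.n 1 (.l 1) (.n 1 (.l 1) (.l 2))))) (.n 0 (.n 0 (.n 1 (.n 0 (.l 1) (.n 1 (.l 1) (.l 2))) (.l 2)) (.n 0 (.n 0 (.l 2) (.l 2)) (.l 2))) (.l 2)))
    [(1288490188800, 85899345920), (67001505792, 1717987328), (3622804914176, 15032385536)] rfl (by decide +kernel)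
end
mutual
theorem c5_m1_t37 : CovD 0 progs [(1288490188800, 85899345920), (65283518464, 3435974656), (3652869685248, 15032385536)] :=
  Pool.Agent.helper14.QF.covD_F chks_eq (.n 0 (.n 2 (.n 0 (.l 1) (.n 0 (.l 1) (.l 4))) (.l 4)) (.l 4))
    [(1288490188800, 85899345920), (65283518464, 3435974656), (3652869685248, 15032385536)] rfl (by decide +kernel)
theorem c5_m1_t39 : CovD 0 progs [(1288490188800, 85899345920), (65283518464, 3435974656), (3697966841856, 30064771072)] :=
  Pool.Agent.helper14.QF.covD_F chks_eq (.l 4)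
    [(1288490188800, 85899345920), (65283518464, 3435974656), (3697966841856, 30064771072)] rfl (by decide +kernel)
end
mutual
theorem c5_m1_t42 : CovD 0 progs [(1202590842880, 171798691840), (65283518464, 3435974656), (3788161155072, 60129542144)] :=
  Pool.Agent.helper14.QF.covD_F chks_eq (.l 4)
    [(1202590842880, 171798691840), (65283518464, 3435974656), (3788161155072, 60129542144)] rfl (by decide +kernel)
theorem c5_m1_t49 : CovD 0 progs [(858993459200, 171798691840), (72155467776, 3435974656), (2886218022912, 962072674304)] :=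
  Pool.Agent.helper14.QF.covD_F chks_eq (.n 2 (.n 0 (.n 0 (.l 0) (.l 0)) (.l 1)) (.n 2 (.n 0 (.l 0) (.l 1)) (.n 2 (.n 0 (.l 0) (.l 1)) (.n 2 (.n 0 (.n 2 (.l 1) (.l 4)) (.n 2 (.l 1) (.l 4))) (.l 4)))))
    [(858993459200, 171798691840), (72155467776, 3435974656), (2886218022912, 962072674304)] rfl (by decide +kernel)
end
mutual
theorem c5_m1_t50 : CovD 0 progs [(1116691496960, 85899345920), (72155467776, 3435974656), (2405181685760, 481036337152)] :=
  Pool.Agent.helper14.QF.covD_F chks_eq (.n 0 (.l 1) (.n 0 (.l 1) (.n 1 (.l 1) (.n 1 (.l 1) (.l 2)))))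
    [(1116691496960, 85899345920), (72155467776, 3435974656), (2405181685760, 481036337152)] rfl (by decide +kernel)
theorem c5_m1_t51 : CovD 0 progs [(1116691496960, 85899345920), (72155467776, 3435974656), (3367254360064, 481036337152)] :=
  Pool.Agent.helper14.QF.covD_F chks_eq (.n 2 (.n 0 (.l 1) (.n 0 (.l 1) (.n 1 (.l 1) (.n 1 (.n 0 (.l 1) (.n 0 (.l 1) (.l 2))) (.l 2))))) (.n 2 (.n 0 (.l 1) (.n 0 (.l 1) (.n 1 (.l 1) (.n 1 (.n 0 (.l 1) (.n 0 (.l 1) (.l 2))) (.l 2))))) (.n 2 (.n 0 (.n 2 (.l 1) (.l 4)) (.n 2 (.n 0 (.l 1) (.n 1 (.l 1) (.n 1 (.n 0 (.l 1) (.n 0 (.l 1) (.l 2))) (.l 2)))) (.l 4))) (.l 4))))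
    [(1116691496960, 85899345920), (72155467776, 3435974656), (3367254360064, 481036337152)] rfl (by decide +kernel)
end
mutual
theorem c5_m1_t53 : CovD 0 progs [(1288490188800, 85899345920), (72155467776, 3435974656), (2886218022912, 962072674304)] :=
  Pool.Agent.helper14.QF.covD_F chks_eq (.n 1 (.n 0 (.n 0 (.n 1 (.n 2 (.l 1) (.n 2 (.l 1) (.n 2 (.l 1) (.n 2 (.n 2 (.n 2 (.l 1) (.l 4)) (.l 4)) (.l 4))))) (.n 0 (.n 1 (.n 2 (.l 1) (.n 2 (.l 1) (.n 2 (.l 1) (.n 2 (.n 2 (.n 2 (.l 1) (.l 4)) (.l 4)) (.l 4))))) (.l 2)) (.l 2))) (.l 2)) (.l 2)) (.l 2))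
    [(1288490188800, 85899345920), (72155467776, 3435974656), (2886218022912, 962072674304)] rfl (by decide +kernel)
theorem c5_m1_t56 : CovD 0 progs [(858993459200, 171798691840), (77309429760, 1717987328), (2886218022912, 962072674304)] :=
  Pool.Agent.helper14.QF.covD_F chks_eq (.n 2 (.n 0 (.n 0 (.l 0) (.l 1)) (.l 1)) (.n 2 (.n 0 (.l 1) (.l 1)) (.n 2 (.n 0 (.l 1) (.l 1)) (.n 2 (.n 0 (.n 2 (.l 1) (.l 4)) (.n 2 (.l 1) (.l 4))) (.l 4)))))
    [(858993459200, 171798691840), (77309429760, 1717987328), (2886218022912, 962072674304)] rfl (by decide +kernel)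
end
mutual
theorem c5_m1_t57 : CovD 0 progs [(1202590842880, 171798691840), (77309429760, 1717987328), (2886218022912, 962072674304)] :=
  Pool.Agent.helper14.QF.covD_F chks_eq (.n 0 (.n 0 (.n 2 (.l 1) (.n 2 (.l 1) (.n 2 (.l 1) (.n 2 (.n 2 (.l 1) (.l 4)) (.l 4))))) (.n 1 (.n 0 (.n 0 (.n 2 (.l 1) (.n 2 (.l 1) (.n 2 (.l 1) (.n 2 (.n 2 (.l 1) (.l 4)) (.l 4))))) (.l 2)) (.l 2)) (.l 2))) (.l 2))
    [(1202590842880, 171798691840), (77309429760, 1717987328), (2886218022912, 962072674304)] rfl (by decide +kernel)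
theorem c5_m1_t59 : CovD 0 progs [(858993459200, 171798691840), (80745404416, 1717987328), (2886218022912, 962072674304)] :=
  Pool.Agent.helper14.QF.covD_F chks_eq (.n 2 (.n 0 (.n 0 (.l 0) (.l 1)) (.l 1)) (.n 2 (.n 0 (.l 1) (.l 1)) (.n 2 (.n 0 (.l 1) (.l 1)) (.n 2 (.n 0 (.n 2 (.l 1) (.l 4)) (.n 2 (.l 1) (.l 4))) (.l 4)))))
    [(858993459200, 171798691840), (80745404416, 1717987328), (2886218022912, 962072674304)] rfl (by decide +kernel)
end
mutual
theorem c5_m1_t60 : CovD 0 progs [(1202590842880, 171798691840), (80745404416, 1717987328), (2886218022912, 962072674304)] :=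
  Pool.Agent.helper14.QF.covD_F chks_eq (.n 0 (.n 0 (.n 2 (.n 0 (.l 1) (.n 1 (.n 0 (.l 1) (.l 2)) (.l 2))) (.n 2 (.n 0 (.l 1) (.n 0 (.n 0 (.l 1) (.l 2)) (.l 2))) (.n 2 (.n 0 (.l 1) (.n 0 (.n 0 (.l 1) (.l 2)) (.l 2))) (.n 2 (.n 2 (.n 0 (.l 1) (.n 0 (.n 0 (.l 1) (.l 2)) (.l 2))) (.l 4)) (.l 4))))) (.l 2)) (.l 2))
    [(1202590842880, 171798691840), (80745404416, 1717987328), (2886218022912, 962072674304)] rfl (by decide +kernel)
theorem c5_m1_t65 : CovD 0 progs [(773094113280, 85899345920), (85899366400, 3435974656), (2886218022912, 962072674304)] :=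
  Pool.Agent.helper14.QF.covD_F chks_eq (.n 2 (.n 0 (.l 0) (.l 1)) (.n 2 (.l 1) (.n 2 (.l 1) (.n 2 (.n 2 (.l 1) (.l 4)) (.l 4)))))
    [(773094113280, 85899345920), (85899366400, 3435974656), (2886218022912, 962072674304)] rfl (by decide +kernel)
end
mutual
theorem c5_m1_t66 : CovD 0 progs [(944892805120, 85899345920), (85899366400, 3435974656), (2886218022912, 962072674304)] :=
  Pool.Agent.helper14.QF.covD_F chks_eq (.n 2 (.n 0 (.l 1) (.n 0 (.l 1) (.n 0 (.l 1) (.n 1 (.l 1) (.l 2))))) (.n 2 (.n 0 (.l 1) (.n 0 (.l 1) (.n 0 (.l 1) (.n 1 (.l 1) (.l 2))))) (.n 2 (.n 0 (.l 1) (.n 0 (.l 1) (.n 0 (.l 1) (.n 1 (.l 1) (.l 2))))) (.n 2 (.n 0 (.n 2 (.l 1) (.l 4)) (.n 2 (.n 0 (.l 1) (.n 0 (.l 1) (.n 1 (.l 1) (.l 2)))) (.l 4))) (.l 4)))))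
    [(944892805120, 85899345920), (85899366400, 3435974656), (2886218022912, 962072674304)] rfl (by decide +kernel)
theorem c5_m1_t68 : CovD 0 progs [(1202590842880, 171798691840), (85899366400, 3435974656), (2886218022912, 962072674304)] :=
  Pool.Agent.helper14.QF.covD_F chks_eq (.n 1 (.n 1 (.n 1 (.n 0 (.n 0 (.n 0 (.n 0 (.n 0 (.n 2 (.l 1) (.n 2 (.l 1) (.n 2 (.l 1) (.n 2 (.n 2 (.l 1) (.l 4)) (.l 4))))) (.l 2)) (.l 2)) (.l 2)) (.l 2)) (.l 2)) (.l 2)) (.l 2)) (.l 2))
    [(1202590842880, 171798691840), (85899366400, 3435974656), (2886218022912, 962072674304)] rfl (by decide +kernel)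
end
mutual
theorem c5_m1_t70 : CovD 0 progs [(1030792151040, 343597383680), (92771315712, 3435974656), (2886218022912, 962072674304)] :=
  Pool.Agent.helper14.QF.covD_F chks_eq (.n 0 (.n 0 (.n 2 (.n 0 (.l 1) (.l 1)) (.n 2 (.l 1) (.n 2 (.l 1) (.n 2 (.n 2 (.l 1) (.l 4)) (.l 4))))) (.n 0 (.n 2 (.l 1) (.n 2 (.l 1) (.n 2 (.l 1) (.n 2 (.n 2 (.l 1) (.l 4)) (.l 4))))) (.n 1 (.n 1 (.n 0 (.n 0 (.n 2 (.l 1) (.n 2 (.l 1) (.n 2 (.l 1) (.n 2 (.n 2 (.l 1) (.l 4)) (.l 4))))) (.l 2)) (.l 2)) (.l 2)) (.l 2)))) (.l 2))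
    [(1030792151040, 343597383680), (92771315712, 3435974656), (2886218022912, 962072674304)] rfl (by decide +kernel)
theorem c5_m1_t72 : CovD 0 progs [(1030792151040, 343597383680), (99643265024, 3435974656), (2886218022912, 962072674304)] :=
  Pool.Agent.helper14.QF.covD_F chks_eq (.n 0 (.n 0 (.n 2 (.n 0 (.l 1) (.l 1)) (.n 2 (.l 1) (.n 2 (.l 1) (.n 2 (.n 2 (.l 1) (.l 4)) (.l 4))))) (.n 0 (.n 0 (.n 1 (.n 2 (.l 1) (.n 2 (.l 1) (.n 2 (.l 1) (.n 2 (.n 2 (.l 1) (.l 4)) (.l 4))))) (.l 2)) (.l 2)) (.l 2))) (.l 2))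
    [(1030792151040, 343597383680), (99643265024, 3435974656), (2886218022912, 962072674304)] rfl (by decide +kernel)
end
mutual
theorem c5_m1_t73 : CovD 0 progs [(1030792151040, 343597383680), (106515214336, 3435974656), (2886218022912, 962072674304)] :=
  Pool.Agent.helper14.QF.covD_F chks_eq (.n 0 (.n 0 (.n 2 (.n 0 (.l 1) (.n 0 (.l 1) (.n 1 (.l 1) (.l 2)))) (.n 2 (.n 0 (.l 1) (.n 0 (.l 1) (.n 1 (.l 1) (.l 2)))) (.n 2 (.n 0 (.l 1) (.n 0 (.l 1) (.n 1 (.l 1) (.l 2)))) (.n 2 (.n 2 (.n 0 (.l 1) (.n 0 (.l 1) (.n 0 (.n 1 (.l 1) (.l 2)) (.l 2)))) (.l 4)) (.l 4))))) (.l 2)) (.l 2))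
    [(1030792151040, 343597383680), (106515214336, 3435974656), (2886218022912, 962072674304)] rfl (by decide +kernel)
theorem c6_m0_t0 : CovD 0 progs [(858993459200, 171798691840), (164926783488, 54975660032), (962072674304, 962072674304)] :=
  Pool.Agent.helper14.QF.covD_F chks_eq (.n 1 (.n 0 (.n 0 (.n 0 (.n 1 (.n 0 (.n 0 (.n 1 (.l 1) (.n 1 (.l 1) (.l 2))) (.n 1 (.l 1) (.l 2))) (.n 1 (.l 1) (.l 2))) (.l 2)) (.n 1 (.n 1 (.n 0 (.n 0 (.l 1) (.n 1 (.l 1) (.l 2))) (.n 1 (.l 1) (.l 2))) (.l 2)) (.l 2))) (.n 0 (.n 0 (.n 0 (.n 1 (.n 1 (.n 1 (.l 1) (.l 2)) (.l 2)) (.l 2)) (.l 2)) (.l 2)) (.l 2))) (.l 2)) (.l 2))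
    [(858993459200, 171798691840), (164926783488, 54975660032), (962072674304, 962072674304)] rfl (by decide +kernel)
end
mutual
theorem c6_m0_t1 : CovD 0 progs [(1202590842880, 171798691840), (164926783488, 54975660032), (962072674304, 962072674304)] :=
  Pool.Agent.helper14.QF.covD_F chks_eq (.l 2)
    [(1202590842880, 171798691840), (164926783488, 54975660032), (962072674304, 962072674304)] rfl (by decide +kernel)
theorem c7_m0_t0 : CovD 0 progs [(708669603840, 21474836480), (137438953472, 27487830016), (2886218022912, 962072674304)] :=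
  Pool.Agent.helper14.QF.covD_F chks_eq (.n 1 (.n 1 (.n 2 (.l 1) (.n 2 (.l 1) (.n 2 (.l 1) (.n 2 (.n 2 (.l 1) (.l 4)) (.l 4))))) (.n 0 (.n 0 (.n 1 (.n 1 (.n 1 (.n 2 (.l 1) (.n 2 (.l 1) (.n 2 (.l 1) (.n 2 (.n 2 (.l 1) (.l 4)) (.l 4))))) (.l 2)) (.l 2)) (.l 2)) (.l 2)) (.l 2))) (.l 2))
    [(708669603840, 21474836480), (137438953472, 27487830016), (2886218022912, 962072674304)] rfl (by decide +kernel)
end
mutual
theorem c7_m0_t1 : CovD 0 progs [(751619276800, 21474836480), (137438953472, 27487830016), (2886218022912, 962072674304)] :=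
  Pool.Agent.helper14.QF.covD_F chks_eq (.n 1 (.n 1 (.n 2 (.n 1 (.l 1) (.n 0 (.n 0 (.l 1) (.l 2)) (.l 2))) (.n 2 (.n 1 (.l 1) (.n 0 (.n 1 (.l 1) (.l 2)) (.l 2))) (.n 2 (.n 1 (.l 1) (.n 0 (.n 1 (.l 1) (.l 2)) (.l 2))) (.n 2 (.n 2 (.n 1 (.l 1) (.n 0 (.n 1 (.l 1) (.l 2)) (.l 2))) (.l 4)) (.l 4))))) (.l 2)) (.l 2))
    [(751619276800, 21474836480), (137438953472, 27487830016), (2886218022912, 962072674304)] rfl (by decide +kernel)
theorem c7_m0_t3 : CovD 0 progs [(816043786240, 42949672960), (137438953472, 27487830016), (2886218022912, 962072674304)] :=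
  Pool.Agent.helper14.QF.covD_F chks_eq (.n 0 (.n 0 (.n 0 (.n 1 (.n 1 (.n 1 (.n 1 (.n 1 (.n 2 (.l 1) (.n 2 (.l 1) (.n 2 (.l 1) (.n 2 (.n 2 (.l 1) (.l 4)) (.l 4))))) (.l 2)) (.l 2)) (.l 2)) (.l 2)) (.l 2)) (.l 2)) (.l 2)) (.l 2))
    [(816043786240, 42949672960), (137438953472, 27487830016), (2886218022912, 962072674304)] rfl (by decide +kernel)
end
mutual
theorem c7_m0_t5 : CovD 0 progs [(944892805120, 85899345920), (137438953472, 27487830016), (2886218022912, 962072674304)] :=
  Pool.Agent.helper14.QF.covD_F chks_eq (.l 2)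
    [(944892805120, 85899345920), (137438953472, 27487830016), (2886218022912, 962072674304)] rfl (by decide +kernel)
theorem c7_m0_t7 : CovD 0 progs [(858993459200, 171798691840), (192414613504, 27487830016), (2886218022912, 962072674304)] :=
  Pool.Agent.helper14.QF.covD_F chks_eq (.l 2)
    [(858993459200, 171798691840), (192414613504, 27487830016), (2886218022912, 962072674304)] rfl (by decide +kernel)
theorem c7_m0_t9 : CovD 0 progs [(1202590842880, 171798691840), (164926783488, 54975660032), (2886218022912, 962072674304)] :=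
  Pool.Agent.helper14.QF.covD_F chks_eq (.l 2)
    [(1202590842880, 171798691840), (164926783488, 54975660032), (2886218022912, 962072674304)] rfl (by decide +kernel)
end

theorem c5_m1_t4 : CovD 0 progs [(1288490188800, 85899345920), (61847543808, 6871949312), (2164663517184, 240518168576)] :=
  covD_split 0 (by decide +kernel) c5_m1_t2 c5_m1_t3
theorem c5_m1_t5 : CovD 0 progs [(1202590842880, 171798691840), (61847543808, 6871949312), (2164663517184, 240518168576)] :=
  covD_split 0 (by decide +kernel) c5_m1_t1 c5_m1_t4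
theorem c5_m1_t6 : CovD 0 progs [(1030792151040, 343597383680), (61847543808, 6871949312), (2164663517184, 240518168576)] :=
  covD_split 0 (by decide +kernel) c5_m1_t0 c5_m1_t5
theorem c5_m1_t11 : CovD 0 progs [(1288490188800, 85899345920), (61847543808, 6871949312), (2645699854336, 240518168576)] :=
  covD_split 0 (by decide +kernel) c5_m1_t9 c5_m1_t10
theorem c5_m1_t12 : CovD 0 progs [(1202590842880, 171798691840), (61847543808, 6871949312), (2645699854336, 240518168576)] :=
  covD_split 0 (by decide +kernel) c5_m1_t8 c5_m1_t11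
theorem c5_m1_t13 : CovD 0 progs [(1030792151040, 343597383680), (61847543808, 6871949312), (2645699854336, 240518168576)] :=
  covD_split 0 (by decide +kernel) c5_m1_t7 c5_m1_t12
theorem c5_m1_t14 : CovD 0 progs [(1030792151040, 343597383680), (61847543808, 6871949312), (2405181685760, 481036337152)] :=
  covD_split 2 (by decide +kernel) c5_m1_t6 c5_m1_t13
theorem c5_m1_t19 : CovD 0 progs [(1288490188800, 85899345920), (61847543808, 6871949312), (3126736191488, 240518168576)] :=
  covD_split 0 (by decide +kernel) c5_m1_t17 c5_m1_t18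
theorem c5_m1_t20 : CovD 0 progs [(1202590842880, 171798691840), (61847543808, 6871949312), (3126736191488, 240518168576)] :=
  covD_split 0 (by decide +kernel) c5_m1_t16 c5_m1_t19
theorem c5_m1_t21 : CovD 0 progs [(1030792151040, 343597383680), (61847543808, 6871949312), (3126736191488, 240518168576)] :=
  covD_split 0 (by decide +kernel) c5_m1_t15 c5_m1_t20
theorem c5_m1_t27 : CovD 0 progs [(1288490188800, 85899345920), (65283518464, 3435974656), (3487513444352, 120259084288)] :=
  covD_split 1 (by decide +kernel) c5_m1_t25 c5_m1_t26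
theorem c5_m1_t28 : CovD 0 progs [(1288490188800, 85899345920), (61847543808, 6871949312), (3487513444352, 120259084288)] :=
  covD_split 1 (by decide +kernel) c5_m1_t24 c5_m1_t27
theorem c5_m1_t29 : CovD 0 progs [(1202590842880, 171798691840), (61847543808, 6871949312), (3487513444352, 120259084288)] :=
  covD_split 0 (by decide +kernel) c5_m1_t23 c5_m1_t28
theorem c5_m1_t30 : CovD 0 progs [(1030792151040, 343597383680), (61847543808, 6871949312), (3487513444352, 120259084288)] :=
  covD_split 0 (by decide +kernel) c5_m1_t22 c5_m1_t29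
theorem c5_m1_t36 : CovD 0 progs [(1288490188800, 85899345920), (65283518464, 3435974656), (3622804914176, 15032385536)] :=
  covD_split 1 (by decide +kernel) c5_m1_t34 c5_m1_t35
theorem c5_m1_t38 : CovD 0 progs [(1288490188800, 85899345920), (65283518464, 3435974656), (3637837299712, 30064771072)] :=
  covD_split 2 (by decide +kernel) c5_m1_t36 c5_m1_t37
theorem c5_m1_t40 : CovD 0 progs [(1288490188800, 85899345920), (65283518464, 3435974656), (3667902070784, 60129542144)] :=
  covD_split 2 (by decide +kernel) c5_m1_t38 c5_m1_t39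
theorem c5_m1_t41 : CovD 0 progs [(1202590842880, 171798691840), (65283518464, 3435974656), (3667902070784, 60129542144)] :=
  covD_split 0 (by decide +kernel) c5_m1_t33 c5_m1_t40
theorem c5_m1_t43 : CovD 0 progs [(1202590842880, 171798691840), (65283518464, 3435974656), (3728031612928, 120259084288)] :=
  covD_split 2 (by decide +kernel) c5_m1_t41 c5_m1_t42
theorem c5_m1_t44 : CovD 0 progs [(1030792151040, 343597383680), (65283518464, 3435974656), (3728031612928, 120259084288)] :=
  covD_split 0 (by decide +kernel) c5_m1_t32 c5_m1_t43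
theorem c5_m1_t45 : CovD 0 progs [(1030792151040, 343597383680), (61847543808, 6871949312), (3728031612928, 120259084288)] :=
  covD_split 1 (by decide +kernel) c5_m1_t31 c5_m1_t44
theorem c5_m1_t46 : CovD 0 progs [(1030792151040, 343597383680), (61847543808, 6871949312), (3607772528640, 240518168576)] :=
  covD_split 2 (by decide +kernel) c5_m1_t30 c5_m1_t45
theorem c5_m1_t47 : CovD 0 progs [(1030792151040, 343597383680), (61847543808, 6871949312), (3367254360064, 481036337152)] :=
  covD_split 2 (by decide +kernel) c5_m1_t21 c5_m1_t46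
theorem c5_m1_t48 : CovD 0 progs [(1030792151040, 343597383680), (61847543808, 6871949312), (2886218022912, 962072674304)] :=
  covD_split 2 (by decide +kernel) c5_m1_t14 c5_m1_t47
theorem c5_m1_t52 : CovD 0 progs [(1116691496960, 85899345920), (72155467776, 3435974656), (2886218022912, 962072674304)] :=
  covD_split 2 (by decide +kernel) c5_m1_t50 c5_m1_t51
theorem c5_m1_t54 : CovD 0 progs [(1202590842880, 171798691840), (72155467776, 3435974656), (2886218022912, 962072674304)] :=
  covD_split 0 (by decide +kernel) c5_m1_t52 c5_m1_t53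
theorem c5_m1_t55 : CovD 0 progs [(1030792151040, 343597383680), (72155467776, 3435974656), (2886218022912, 962072674304)] :=
  covD_split 0 (by decide +kernel) c5_m1_t49 c5_m1_t54
theorem c5_m1_t58 : CovD 0 progs [(1030792151040, 343597383680), (77309429760, 1717987328), (2886218022912, 962072674304)] :=
  covD_split 0 (by decide +kernel) c5_m1_t56 c5_m1_t57
theorem c5_m1_t61 : CovD 0 progs [(1030792151040, 343597383680), (80745404416, 1717987328), (2886218022912, 962072674304)] :=
  covD_split 0 (by decide +kernel) c5_m1_t59 c5_m1_t60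
theorem c5_m1_t62 : CovD 0 progs [(1030792151040, 343597383680), (79027417088, 3435974656), (2886218022912, 962072674304)] :=
  covD_split 1 (by decide +kernel) c5_m1_t58 c5_m1_t61
theorem c5_m1_t63 : CovD 0 progs [(1030792151040, 343597383680), (75591442432, 6871949312), (2886218022912, 962072674304)] :=
  covD_split 1 (by decide +kernel) c5_m1_t55 c5_m1_t62
theorem c5_m1_t64 : CovD 0 progs [(1030792151040, 343597383680), (68719493120, 13743898624), (2886218022912, 962072674304)] :=
  covD_split 1 (by decide +kernel) c5_m1_t48 c5_m1_t63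
theorem c5_m1_t67 : CovD 0 progs [(858993459200, 171798691840), (85899366400, 3435974656), (2886218022912, 962072674304)] :=
  covD_split 0 (by decide +kernel) c5_m1_t65 c5_m1_t66
theorem c5_m1_t69 : CovD 0 progs [(1030792151040, 343597383680), (85899366400, 3435974656), (2886218022912, 962072674304)] :=
  covD_split 0 (by decide +kernel) c5_m1_t67 c5_m1_t68
theorem c5_m1_t71 : CovD 0 progs [(1030792151040, 343597383680), (89335341056, 6871949312), (2886218022912, 962072674304)] :=
  covD_split 1 (by decide +kernel) c5_m1_t69 c5_m1_t70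
theorem c5_m1_t74 : CovD 0 progs [(1030792151040, 343597383680), (103079239680, 6871949312), (2886218022912, 962072674304)] :=
  covD_split 1 (by decide +kernel) c5_m1_t72 c5_m1_t73
theorem c5_m1_t75 : CovD 0 progs [(1030792151040, 343597383680), (96207290368, 13743898624), (2886218022912, 962072674304)] :=
  covD_split 1 (by decide +kernel) c5_m1_t71 c5_m1_t74
theorem c5_m1 : CovD 0 progs [(1030792151040, 343597383680), (82463391744, 27487797248), (2886218022912, 962072674304)] :=
  covD_split 1 (by decide +kernel) c5_m1_t64 c5_m1_t75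
theorem c6_m0 : CovD 0 progs [(1030792151040, 343597383680), (164926783488, 54975660032), (962072674304, 962072674304)] :=
  covD_split 0 (by decide +kernel) c6_m0_t0 c6_m0_t1
theorem c7_m0_t2 : CovD 0 progs [(730144440320, 42949672960), (137438953472, 27487830016), (2886218022912, 962072674304)] :=
  covD_split 0 (by decide +kernel) c7_m0_t0 c7_m0_t1
theorem c7_m0_t4 : CovD 0 progs [(773094113280, 85899345920), (137438953472, 27487830016), (2886218022912, 962072674304)] :=
  covD_split 0 (by decide +kernel) c7_m0_t2 c7_m0_t3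
theorem c7_m0_t6 : CovD 0 progs [(858993459200, 171798691840), (137438953472, 27487830016), (2886218022912, 962072674304)] :=
  covD_split 0 (by decide +kernel) c7_m0_t4 c7_m0_t5
theorem c7_m0_t8 : CovD 0 progs [(858993459200, 171798691840), (164926783488, 54975660032), (2886218022912, 962072674304)] :=
  covD_split 1 (by decide +kernel) c7_m0_t6 c7_m0_t7
theorem c7_m0 : CovD 0 progs [(1030792151040, 343597383680), (164926783488, 54975660032), (2886218022912, 962072674304)] :=
  covD_split 0 (by decide +kernel) c7_m0_t8 c7_m0_t9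

end Pool.Agent.helper31.EQB.Cert.LB3
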