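import Pool.Agent.helper31.EQB.Cert.LB3_0
import Pool.Agent.helper31.EQB.Cert.LB3_1
import Pool.Agent.helper31.EQB.Cert.LB3_2

/-!
Generated certificates, assembled.
-/

namespace Pool.Agent.helper31.EQB.Cert.LB3

open Pool.Agent.helper31.IA (Z Op)
open Pool.Agent.helper31.IC

theorem c0_all : CovD 0 progs [(343597383680, 343597383680), (54975594496, 54975594496), (962072674304, 962072674304)] := c0_m0

theorem c1_all : CovD 0 progs [(343597383680, 343597383680), (54975594496, 54975594496), (2886218022912, 962072674304)] := c1_m0

theorem c2_all : CovD 0 progs [(343597383680, 343597383680), (164926783488, 54975660032), (962072674304, 962072674304)] := c2_m0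

theorem c3_all : CovD 0 progs [(343597383680, 343597383680), (164926783488, 54975660032), (2886218022912, 962072674304)] := c3_m0

theorem c4_all : CovD 0 progs [(1030792151040, 343597383680), (54975594496, 54975594496), (962072674304, 962072674304)] := c4_m0

theorem c5_top0 : CovD 0 progs [(1030792151040, 343597383680), (54975594496, 54975594496), (2886218022912, 962072674304)] :=
  covD_split 1 (by decide +kernel) c5_m0 c5_m1
theorem c5_all : CovD 0 progs [(1030792151040, 343597383680), (54975594496, 54975594496), (2886218022912, 962072674304)] := c5_top0

theorem c6_all : CovD 0 progs [(1030792151040, 343597383680), (164926783488, 54975660032), (962072674304, 962072674304)] := c6_m0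

theorem c7_all : CovD 0 progs [(1030792151040, 343597383680), (164926783488, 54975660032), (2886218022912, 962072674304)] := c7_m0

end Pool.Agent.helper31.EQB.Cert.LB3
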