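import Pool.Agent.helper31.EQB.Cert.LB4P

/-!
Generated certificates.
-/

namespace Pool.Agent.helper31.EQB.Cert.LB4

open Pool.Agent.helper31.IA (Z Op)
open Pool.Agent.helper31.IC

mutual
theorem c3_m0_t0 : CovD 0 progs [(171798691840, 171798691840), (164926783488, 54975660032), (2405181685760, 481036337152)] :=
  Pool.Agent.helper14.QF.covD_F chks_eq (.n 0 (.n 0 (.n 0 (.l 0) (.n 0 (.l 0) (.l 0))) (.n 0 (.n 0 (.l 0) (.l 0)) (.l 0))) (.n 0 (.n 0 (.l 0) (.l 1)) (.n 0 (.l 1) (.l 1))))
    [(171798691840, 171798691840), (164926783488, 54975660032), (2405181685760, 481036337152)] rfl (by decide +kernel)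
theorem c3_m0_t1 : CovD 0 progs [(171798691840, 171798691840), (164926783488, 54975660032), (3367254360064, 481036337152)] :=
  Pool.Agent.helper14.QF.covD_F chks_eq (.n 2 (.n 0 (.n 0 (.n 0 (.l 0) (.l 0)) (.n 0 (.l 0) (.l 0))) (.n 0 (.n 0 (.l 0) (.l 0)) (.n 0 (.l 0) (.l 1)))) (.n 2 (.n 0 (.n 0 (.n 0 (.l 0) (.l 0)) (.n 0 (.l 0) (.l 0))) (.n 0 (.l 0) (.l 1))) (.n 2 (.n 0 (.n 0 (.n 0 (.l 0) (.l 0)) (.n 0 (.l 0) (.l 0))) (.n 0 (.l 0) (.l 1))) (.l 4))))
    [(171798691840, 171798691840), (164926783488, 54975660032), (3367254360064, 481036337152)] rfl (by decide +kernel)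
end
mutual
theorem c3_m0_t3 : CovD 0 progs [(386547056640, 42949672960), (137438953472, 27487830016), (2886218022912, 962072674304)] :=
  Pool.Agent.helper14.QF.covD_F chks_eq (.n 2 (.l 1) (.n 2 (.l 1) (.n 2 (.l 1) (.n 2 (.l 1) (.l 4)))))
    [(386547056640, 42949672960), (137438953472, 27487830016), (2886218022912, 962072674304)] rfl (by decide +kernel)
theorem c3_m0_t4 : CovD 0 progs [(386547056640, 42949672960), (192414613504, 27487830016), (2405181685760, 481036337152)] :=
  Pool.Agent.helper14.QF.covD_F chks_eq (.n 0 (.l 1) (.n 0 (.n 0 (.n 1 (.l 1) (.l 1)) (.n 1 (.l 1) (.n 1 (.l 1) (.n 0 (.n 1 (.l 1) (.n 1 (.l 1) (.l 2))) (.n 1 (.l 1) (.l 2)))))) (.n 0 (.n 1 (.l 1) (.n 1 (.l 1) (.n 0 (.n 1 (.n 1 (.l 1) (.l 2)) (.l 2)) (.n 1 (.n 1 (.l 1) (.l 2)) (.l 2))))) (.n 1 (.l 1) (.n 1 (.n 2 (.l 1) (.l 1)) (.l 2))))))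
    [(386547056640, 42949672960), (192414613504, 27487830016), (2405181685760, 481036337152)] rfl (by decide +kernel)
end
mutual
theorem c3_m0_t5 : CovD 0 progs [(386547056640, 42949672960), (192414613504, 27487830016), (3126736191488, 240518168576)] :=
  Pool.Agent.helper14.QF.covD_F chks_eq (.n 0 (.l 1) (.n 0 (.n 1 (.l 1) (.n 0 (.l 1) (.n 0 (.n 1 (.l 1) (.n 1 (.l 1) (.n 1 (.l 1) (.l 2)))) (.n 1 (.l 1) (.n 1 (.l 1) (.l 2)))))) (.n 0 (.n 1 (.l 1) (.n 1 (.l 1) (.n 1 (.n 1 (.l 1) (.n 0 (.l 2) (.l 2))) (.l 2)))) (.n 1 (.l 1) (.n 1 (.n 0 (.l 1) (.n 1 (.l 1) (.n 1 (.l 1) (.l 2)))) (.l 2))))))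
    [(386547056640, 42949672960), (192414613504, 27487830016), (3126736191488, 240518168576)] rfl (by decide +kernel)
theorem c3_m0_t6 : CovD 0 progs [(365072220160, 21474836480), (192414613504, 27487830016), (3487513444352, 120259084288)] :=
  Pool.Agent.helper14.QF.covD_F chks_eq (.l 1)
    [(365072220160, 21474836480), (192414613504, 27487830016), (3487513444352, 120259084288)] rfl (by decide +kernel)
end
mutual
theorem c3_m0_t7 : CovD 0 progs [(397284474880, 10737418240), (192414613504, 27487830016), (3487513444352, 120259084288)] :=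
  Pool.Agent.helper14.QF.covD_F chks_eq (.n 0 (.n 1 (.l 1) (.n 1 (.l 1) (.n 1 (.l 1) (.n 2 (.l 1) (.n 2 (.l 1) (.l 1)))))) (.n 1 (.l 1) (.n 1 (.l 1) (.n 1 (.l 1) (.n 0 (.n 1 (.l 1) (.l 2)) (.l 2))))))
    [(397284474880, 10737418240), (192414613504, 27487830016), (3487513444352, 120259084288)] rfl (by decide +kernel)
theorem c3_m0_t8 : CovD 0 progs [(418759311360, 10737418240), (192414613504, 27487830016), (3487513444352, 120259084288)] :=
  Pool.Agent.helper14.QF.covD_F chks_eq (.n 1 (.l 1) (.n 0 (.n 0 (.n 1 (.l 1) (.n 1 (.n 1 (.l 1) (.l 2)) (.l 2))) (.n 1 (.l 1) (.n 0 (.n 1 (.n 1 (.l 1) (.l 2)) (.l 2)) (.l 2)))) (.n 1 (.n 0 (.l 1) (.n 1 (.l 1) (.n 1 (.l 1) (.l 2)))) (.l 2))))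
    [(418759311360, 10737418240), (192414613504, 27487830016), (3487513444352, 120259084288)] rfl (by decide +kernel)
end
mutual
theorem c3_m0_t11 : CovD 0 progs [(365072220160, 21474836480), (192414613504, 27487830016), (3667902070784, 60129542144)] :=
  Pool.Agent.helper14.QF.covD_F chks_eq (.l 1)
    [(365072220160, 21474836480), (192414613504, 27487830016), (3667902070784, 60129542144)] rfl (by decide +kernel)
theorem c3_m0_t12 : CovD 0 progs [(397284474880, 10737418240), (192414613504, 27487830016), (3667902070784, 60129542144)] :=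
  Pool.Agent.helper14.QF.covD_F chks_eq (.n 0 (.n 0 (.l 1) (.n 1 (.l 1) (.n 1 (.l 1) (.n 1 (.l 1) (.n 1 (.l 1) (.n 1 (.l 1) (.l 2))))))) (.n 1 (.l 1) (.n 1 (.l 1) (.n 1 (.l 1) (.n 0 (.n 1 (.l 1) (.l 2)) (.l 2))))))
    [(397284474880, 10737418240), (192414613504, 27487830016), (3667902070784, 60129542144)] rfl (by decide +kernel)
end
mutual
theorem c3_m0_t13 : CovD 0 progs [(418759311360, 10737418240), (192414613504, 27487830016), (3667902070784, 60129542144)] :=
  Pool.Agent.helper14.QF.covD_F chks_eq (.n 1 (.l 1) (.n 0 (.n 0 (.n 1 (.l 1) (.n 1 (.n 1 (.l 1) (.l 2)) (.l 2))) (.n 1 (.l 1) (.n 0 (.n 1 (.n 1 (.l 1) (.l 2)) (.l 2)) (.l 2)))) (.n 1 (.n 0 (.l 1) (.n 1 (.l 1) (.n 1 (.l 1) (.l 2)))) (.l 2))))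
    [(418759311360, 10737418240), (192414613504, 27487830016), (3667902070784, 60129542144)] rfl (by decide +kernel)
theorem c3_m0_t16 : CovD 0 progs [(386547056640, 42949672960), (192414613504, 27487830016), (3788161155072, 60129542144)] :=
  Pool.Agent.helper14.QF.covD_F chks_eq (.l 4)
    [(386547056640, 42949672960), (192414613504, 27487830016), (3788161155072, 60129542144)] rfl (by decide +kernel)
end
mutual
theorem c3_m0_t22 : CovD 0 progs [(440234147840, 10737418240), (164926783488, 54975660032), (2405181685760, 481036337152)] :=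
  Pool.Agent.helper14.QF.covD_F chks_eq (.n 1 (.l 1) (.n 1 (.l 1) (.n 0 (.n 1 (.n 1 (.l 1) (.l 2)) (.l 2)) (.n 1 (.n 1 (.n 1 (.l 1) (.l 2)) (.l 2)) (.l 2)))))
    [(440234147840, 10737418240), (164926783488, 54975660032), (2405181685760, 481036337152)] rfl (by decide +kernel)
theorem c3_m0_t23 : CovD 0 progs [(440234147840, 10737418240), (164926783488, 54975660032), (3367254360064, 481036337152)] :=
  Pool.Agent.helper14.QF.covD_F chks_eq (.n 2 (.n 1 (.l 1) (.n 1 (.l 1) (.n 1 (.n 1 (.n 0 (.l 1) (.n 1 (.l 1) (.l 2))) (.l 2)) (.l 2)))) (.n 2 (.n 1 (.l 1) (.n 1 (.l 1) (.n 1 (.n 1 (.n 0 (.l 1) (.n 0 (.n 1 (.l 1) (.l 2)) (.l 2))) (.l 2)) (.l 2)))) (.n 2 (.n 1 (.l 1) (.n 1 (.l 1) (.n 1 (.n 1 (.n 0 (.l 1) (.n 0 (.n 1 (.l 1) (.l 2)) (.l 2))) (.l 2)) (.l 2)))) (.l 4))))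
    [(440234147840, 10737418240), (164926783488, 54975660032), (3367254360064, 481036337152)] rfl (by decide +kernel)
end
mutual
theorem c3_m0_t25 : CovD 0 progs [(461708984320, 10737418240), (137438953472, 27487830016), (2886218022912, 962072674304)] :=
  Pool.Agent.helper14.QF.covD_F chks_eq (.n 2 (.l 1) (.n 2 (.l 1) (.n 2 (.l 1) (.n 2 (.l 1) (.l 4)))))
    [(461708984320, 10737418240), (137438953472, 27487830016), (2886218022912, 962072674304)] rfl (by decide +kernel)
theorem c3_m0_t26 : CovD 0 progs [(461708984320, 10737418240), (178670698496, 13743915008), (2886218022912, 962072674304)] :=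
  Pool.Agent.helper14.QF.covD_F chks_eq (.n 2 (.n 0 (.n 2 (.l 1) (.l 1)) (.n 1 (.l 1) (.n 1 (.l 1) (.l 2)))) (.n 2 (.n 1 (.l 1) (.n 1 (.l 1) (.n 0 (.n 0 (.l 1) (.n 1 (.l 1) (.l 2))) (.l 2)))) (.n 2 (.n 1 (.l 1) (.n 1 (.l 1) (.n 0 (.n 0 (.l 1) (.n 1 (.l 1) (.l 2))) (.l 2)))) (.n 2 (.n 1 (.l 1) (.n 1 (.l 1) (.n 0 (.n 0 (.l 1) (.n 1 (.l 1) (.l 2))) (.l 2)))) (.l 4)))))
    [(461708984320, 10737418240), (178670698496, 13743915008), (2886218022912, 962072674304)] rfl (by decide +kernel)
end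
mutual
theorem c3_m0_t27 : CovD 0 progs [(461708984320, 10737418240), (206158528512, 13743915008), (2886218022912, 962072674304)] :=
  Pool.Agent.helper14.QF.covD_F chks_eq (.l 2)
    [(461708984320, 10737418240), (206158528512, 13743915008), (2886218022912, 962072674304)] rfl (by decide +kernel)
theorem c3_m0_t31 : CovD 0 progs [(483183820800, 10737418240), (164926783488, 54975660032), (2886218022912, 962072674304)] :=
  Pool.Agent.helper14.QF.covD_F chks_eq (.n 1 (.n 2 (.l 1) (.n 2 (.l 1) (.n 2 (.l 1) (.n 2 (.l 1) (.l 4))))) (.n 1 (.n 1 (.n 2 (.l 1) (.n 2 (.l 1) (.n 2 (.l 1) (.n 2 (.l 1) (.l 4))))) (.n 0 (.n 1 (.n 1 (.n 2 (.l 1) (.n 2 (.l 1) (.n 2 (.l 1) (.n 2 (.l 1) (.l 4))))) (.l 2)) (.l 2)) (.l 2))) (.l 2)))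
    [(483183820800, 10737418240), (164926783488, 54975660032), (2886218022912, 962072674304)] rfl (by decide +kernel)
end
mutual
theorem c3_m0_t32 : CovD 0 progs [(504658657280, 10737418240), (137438953472, 27487830016), (2886218022912, 962072674304)] :=
  Pool.Agent.helper14.QF.covD_F chks_eq (.n 2 (.l 1) (.n 2 (.l 1) (.n 2 (.l 1) (.n 2 (.l 1) (.l 4)))))
    [(504658657280, 10737418240), (137438953472, 27487830016), (2886218022912, 962072674304)] rfl (by decide +kernel)
theorem c3_m0_t33 : CovD 0 progs [(504658657280, 10737418240), (192414613504, 27487830016), (2886218022912, 962072674304)] :=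
  Pool.Agent.helper14.QF.covD_F chks_eq (.n 0 (.n 1 (.n 1 (.n 1 (.n 2 (.l 1) (.n 2 (.l 1) (.n 2 (.l 1) (.n 2 (.l 1) (.l 4))))) (.n 1 (.n 2 (.l 1) (.n 2 (.l 1) (.n 2 (.l 1) (.n 2 (.l 1) (.l 4))))) (.l 2))) (.l 2)) (.l 2)) (.n 1 (.n 1 (.n 1 (.n 2 (.l 1) (.n 2 (.l 1) (.n 2 (.l 1) (.n 2 (.n 0 (.l 1) (.n 1 (.l 1) (.l 2))) (.l 4))))) (.l 2)) (.l 2)) (.l 2)))
    [(504658657280, 10737418240), (192414613504, 27487830016), (2886218022912, 962072674304)] rfl (by decide +kernel)
end
mutual
theorem c3_m0_t38 : CovD 0 progs [(536870912000, 21474836480), (137438953472, 27487830016), (2405181685760, 481036337152)] :=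
  Pool.Agent.helper14.QF.covD_F chks_eq (.n 0 (.l 1) (.n 1 (.l 1) (.n 1 (.l 1) (.n 1 (.l 1) (.n 0 (.n 0 (.l 1) (.l 2)) (.l 2))))))
    [(536870912000, 21474836480), (137438953472, 27487830016), (2405181685760, 481036337152)] rfl (by decide +kernel)
theorem c3_m0_t39 : CovD 0 progs [(536870912000, 21474836480), (137438953472, 27487830016), (3126736191488, 240518168576)] :=
  Pool.Agent.helper14.QF.covD_F chks_eq (.n 0 (.l 1) (.n 1 (.l 1) (.n 1 (.l 1) (.n 1 (.l 1) (.n 0 (.n 0 (.l 1) (.l 2)) (.l 2))))))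
    [(536870912000, 21474836480), (137438953472, 27487830016), (3126736191488, 240518168576)] rfl (by decide +kernel)
end
mutual
theorem c3_m0_t40 : CovD 0 progs [(536870912000, 21474836480), (137438953472, 27487830016), (3607772528640, 240518168576)] :=
  Pool.Agent.helper14.QF.covD_F chks_eq (.n 2 (.n 0 (.l 1) (.n 1 (.l 1) (.n 1 (.l 1) (.n 1 (.l 1) (.n 0 (.n 1 (.l 1) (.l 2)) (.l 2)))))) (.n 2 (.n 1 (.l 1) (.n 0 (.n 2 (.l 1) (.n 2 (.l 1) (.l 4))) (.n 2 (.n 1 (.l 1) (.n 1 (.l 1) (.n 0 (.n 1 (.l 1) (.l 2)) (.l 2)))) (.n 2 (.n 1 (.l 1) (.n 1 (.l 1) (.n 0 (.n 1 (.l 1) (.l 2)) (.l 2)))) (.l 4))))) (.l 4)))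
    [(536870912000, 21474836480), (137438953472, 27487830016), (3607772528640, 240518168576)] rfl (by decide +kernel)
theorem c3_m0_t43 : CovD 0 progs [(536870912000, 21474836480), (192414613504, 27487830016), (2886218022912, 962072674304)] :=
  Pool.Agent.helper14.QF.covD_F chks_eq (.n 0 (.n 0 (.n 0 (.n 1 (.n 1 (.n 1 (.n 1 (.n 1 (.n 2 (.l 1) (.n 2 (.l 1) (.n 2 (.l 1) (.n 2 (.l 1) (.l 4))))) (.l 2)) (.l 2)) (.l 2)) (.l 2)) (.l 2)) (.l 2)) (.l 2)) (.l 2))
    [(536870912000, 21474836480), (192414613504, 27487830016), (2886218022912, 962072674304)] rfl (by decide +kernel)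
end
mutual
theorem c3_m0_t45 : CovD 0 progs [(569083166720, 10737418240), (137438953472, 27487830016), (2405181685760, 481036337152)] :=
  Pool.Agent.helper14.QF.covD_F chks_eq (.n 1 (.l 1) (.n 1 (.l 1) (.n 0 (.n 1 (.l 1) (.l 2)) (.l 2))))
    [(569083166720, 10737418240), (137438953472, 27487830016), (2405181685760, 481036337152)] rfl (by decide +kernel)
theorem c3_m0_t46 : CovD 0 progs [(569083166720, 10737418240), (137438953472, 27487830016), (3367254360064, 481036337152)] :=
  Pool.Agent.helper14.QF.covD_F chks_eq (.n 2 (.n 1 (.l 1) (.n 1 (.l 1) (.n 1 (.n 1 (.l 1) (.l 2)) (.l 2)))) (.n 2 (.n 1 (.l 1) (.n 1 (.l 1) (.n 1 (.n 1 (.l 1) (.l 2)) (.l 2)))) (.n 2 (.n 1 (.l 1) (.n 1 (.n 2 (.l 1) (.n 2 (.l 1) (.l 4))) (.n 1 (.n 1 (.n 2 (.l 1) (.n 2 (.l 1) (.l 4))) (.l 2)) (.l 2)))) (.l 4))))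
    [(569083166720, 10737418240), (137438953472, 27487830016), (3367254360064, 481036337152)] rfl (by decide +kernel)
end
mutual
theorem c3_m0_t48 : CovD 0 progs [(569083166720, 10737418240), (192414613504, 27487830016), (2886218022912, 962072674304)] :=
  Pool.Agent.helper14.QF.covD_F chks_eq (.l 2)
    [(569083166720, 10737418240), (192414613504, 27487830016), (2886218022912, 962072674304)] rfl (by decide +kernel)
theorem c3_m0_t50 : CovD 0 progs [(590558003200, 10737418240), (137438953472, 27487830016), (2886218022912, 962072674304)] :=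
  Pool.Agent.helper14.QF.covD_F chks_eq (.n 1 (.n 2 (.l 1) (.n 2 (.l 1) (.n 2 (.l 1) (.n 2 (.n 1 (.l 1) (.n 2 (.l 1) (.n 2 (.l 1) (.l 4)))) (.l 4))))) (.n 1 (.n 1 (.n 2 (.l 1) (.n 2 (.l 1) (.n 2 (.l 1) (.n 2 (.n 2 (.l 1) (.n 2 (.l 1) (.l 4))) (.l 4))))) (.n 1 (.n 2 (.l 1) (.n 2 (.l 1) (.n 2 (.l 1) (.n 2 (.n 2 (.l 1) (.n 2 (.l 1) (.l 4))) (.l 4))))) (.l 2))) (.l 2)))
    [(590558003200, 10737418240), (137438953472, 27487830016), (2886218022912, 962072674304)] rfl (by decide +kernel)
end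
mutual
theorem c3_m0_t51 : CovD 0 progs [(590558003200, 10737418240), (192414613504, 27487830016), (2886218022912, 962072674304)] :=
  Pool.Agent.helper14.QF.covD_F chks_eq (.l 2)
    [(590558003200, 10737418240), (192414613504, 27487830016), (2886218022912, 962072674304)] rfl (by decide +kernel)
theorem c3_m0_t55 : CovD 0 progs [(622770257920, 21474836480), (164926783488, 54975660032), (2886218022912, 962072674304)] :=
  Pool.Agent.helper14.QF.covD_F chks_eq (.n 2 (.n 1 (.n 1 (.l 1) (.n 1 (.n 1 (.n 0 (.l 1) (.l 2)) (.l 2)) (.l 2))) (.l 2)) (.n 1 (.n 1 (.n 2 (.l 1) (.n 2 (.l 1) (.n 2 (.n 2 (.l 1) (.n 2 (.l 1) (.n 0 (.l 4) (.l 4)))) (.l 4)))) (.n 1 (.n 1 (.n 0 (.n 2 (.l 1) (.n 2 (.l 1) (.n 2 (.n 2 (.l 1) (.n 2 (.l 1) (.l 4))) (.l 4)))) (.l 2)) (.l 2)) (.l 2))) (.l 2)))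
    [(622770257920, 21474836480), (164926783488, 54975660032), (2886218022912, 962072674304)] rfl (by decide +kernel)
end
mutual
theorem c3_m0_t56 : CovD 0 progs [(665719930880, 21474836480), (123695038464, 13743915008), (2405181685760, 481036337152)] :=
  Pool.Agent.helper14.QF.covD_F chks_eq (.n 1 (.l 1) (.n 1 (.l 1) (.n 0 (.n 1 (.l 1) (.l 2)) (.l 2))))
    [(665719930880, 21474836480), (123695038464, 13743915008), (2405181685760, 481036337152)] rfl (by decide +kernel)
theorem c3_m0_t57 : CovD 0 progs [(665719930880, 21474836480), (123695038464, 13743915008), (3367254360064, 481036337152)] :=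
  Pool.Agent.helper14.QF.covD_F chks_eq (.n 2 (.n 1 (.l 1) (.n 1 (.l 1) (.n 0 (.n 1 (.l 1) (.l 2)) (.l 2)))) (.n 2 (.n 1 (.l 1) (.n 1 (.l 1) (.n 0 (.n 1 (.l 1) (.l 2)) (.l 2)))) (.n 2 (.n 2 (.n 1 (.l 1) (.n 1 (.l 1) (.n 0 (.n 1 (.l 1) (.l 2)) (.l 2)))) (.n 2 (.n 1 (.l 1) (.n 1 (.l 1) (.n 0 (.n 1 (.l 1) (.l 2)) (.l 2)))) (.l 4))) (.l 4))))
    [(665719930880, 21474836480), (123695038464, 13743915008), (3367254360064, 481036337152)] rfl (by decide +kernel)
end
mutual
theorem c3_m0_t59 : CovD 0 progs [(665719930880, 21474836480), (151182868480, 13743915008), (2886218022912, 962072674304)] :=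
  Pool.Agent.helper14.QF.covD_F chks_eq (.l 2)
    [(665719930880, 21474836480), (151182868480, 13743915008), (2886218022912, 962072674304)] rfl (by decide +kernel)
theorem c3_m0_t61 : CovD 0 progs [(665719930880, 21474836480), (192414613504, 27487830016), (2886218022912, 962072674304)] :=
  Pool.Agent.helper14.QF.covD_F chks_eq (.l 2)
    [(665719930880, 21474836480), (192414613504, 27487830016), (2886218022912, 962072674304)] rfl (by decide +kernel)
end
mutual
theorem c4_m0_t0 : CovD 0 progs [(1030792151040, 343597383680), (27487797248, 27487797248), (962072674304, 962072674304)] :=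
  Pool.Agent.helper14.QF.covD_F chks_eq (.n 0 (.n 0 (.n 0 (.l 0) (.l 0)) (.n 0 (.l 0) (.l 1))) (.n 0 (.n 0 (.n 1 (.l 0) (.l 1)) (.n 1 (.l 0) (.n 0 (.l 1) (.l 1)))) (.n 0 (.n 1 (.l 0) (.n 1 (.l 1) (.l 1))) (.n 1 (.n 0 (.l 0) (.l 0)) (.n 1 (.l 1) (.l 1))))))
    [(1030792151040, 343597383680), (27487797248, 27487797248), (962072674304, 962072674304)] rfl (by decide +kernel)
theorem c4_m0_t1 : CovD 0 progs [(858993459200, 171798691840), (68719493120, 13743898624), (962072674304, 962072674304)] :=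
  Pool.Agent.helper14.QF.covD_F chks_eq (.n 0 (.n 0 (.l 0) (.l 1)) (.n 0 (.l 1) (.l 1)))
    [(858993459200, 171798691840), (68719493120, 13743898624), (962072674304, 962072674304)] rfl (by decide +kernel)
end
mutual
theorem c4_m0_t2 : CovD 0 progs [(1116691496960, 85899345920), (61847543808, 6871949312), (962072674304, 962072674304)] :=
  Pool.Agent.helper14.QF.covD_F chks_eq (.n 0 (.l 1) (.l 1))
    [(1116691496960, 85899345920), (61847543808, 6871949312), (962072674304, 962072674304)] rfl (by decide +kernel)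
theorem c4_m0_t3 : CovD 0 progs [(1245540515840, 42949672960), (61847543808, 6871949312), (962072674304, 962072674304)] :=
  Pool.Agent.helper14.QF.covD_F chks_eq (.n 0 (.l 1) (.n 0 (.l 1) (.n 0 (.l 1) (.n 1 (.l 1) (.n 1 (.l 1) (.n 1 (.l 1) (.l 2)))))))
    [(1245540515840, 42949672960), (61847543808, 6871949312), (962072674304, 962072674304)] rfl (by decide +kernel)
end
mutual
theorem c4_m0_t4 : CovD 0 progs [(1331439861760, 42949672960), (61847543808, 6871949312), (962072674304, 962072674304)] :=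
  Pool.Agent.helper14.QF.covD_F chks_eq (.n 0 (.n 1 (.l 1) (.n 1 (.l 1) (.n 1 (.n 1 (.n 0 (.l 1) (.l 2)) (.n 0 (.n 0 (.l 1) (.l 2)) (.l 2))) (.l 2)))) (.n 0 (.n 1 (.l 1) (.n 1 (.n 1 (.l 1) (.n 1 (.n 1 (.l 1) (.n 0 (.l 1) (.l 2))) (.l 2))) (.l 2))) (.n 1 (.l 1) (.n 1 (.n 1 (.l 3) (.l 2)) (.l 2)))))
    [(1331439861760, 42949672960), (61847543808, 6871949312), (962072674304, 962072674304)] rfl (by decide +kernel)
theorem c4_m0_t7 : CovD 0 progs [(1202590842880, 171798691840), (72155467776, 3435974656), (962072674304, 962072674304)] :=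
  Pool.Agent.helper14.QF.covD_F chks_eq (.n 1 (.n 1 (.n 0 (.l 1) (.n 0 (.n 0 (.l 1) (.l 2)) (.l 2))) (.n 0 (.l 1) (.n 0 (.n 0 (.n 0 (.l 1) (.l 2)) (.l 2)) (.l 2)))) (.n 1 (.n 0 (.n 0 (.l 1) (.l 1)) (.l 2)) (.n 0 (.n 0 (.l 1) (.n 0 (.l 1) (.l 2))) (.l 2))))
    [(1202590842880, 171798691840), (72155467776, 3435974656), (962072674304, 962072674304)] rfl (by decide +kernel)
end
mutual
theorem c4_m0_t8 : CovD 0 progs [(1202590842880, 171798691840), (79027417088, 3435974656), (962072674304, 962072674304)] :=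
  Pool.Agent.helper14.QF.covD_F chks_eq (.n 1 (.n 0 (.n 1 (.n 0 (.l 1) (.n 0 (.l 1) (.l 2))) (.n 0 (.l 1) (.l 2))) (.l 2)) (.n 0 (.n 1 (.n 0 (.l 1) (.l 2)) (.n 0 (.n 0 (.l 1) (.l 2)) (.l 2))) (.l 2)))
    [(1202590842880, 171798691840), (79027417088, 3435974656), (962072674304, 962072674304)] rfl (by decide +kernel)
theorem c4_m0_t12 : CovD 0 progs [(773094113280, 85899345920), (96207290368, 13743898624), (962072674304, 962072674304)] :=
  Pool.Agent.helper14.QF.covD_F chks_eq (.n 0 (.n 0 (.l 1) (.l 1)) (.n 0 (.l 1) (.n 1 (.l 1) (.n 1 (.l 1) (.n 1 (.n 0 (.l 1) (.l 2)) (.l 2))))))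
    [(773094113280, 85899345920), (96207290368, 13743898624), (962072674304, 962072674304)] rfl (by decide +kernel)
end
mutual
theorem c4_m0_t13 : CovD 0 progs [(944892805120, 85899345920), (96207290368, 13743898624), (962072674304, 962072674304)] :=
  Pool.Agent.helper14.QF.covD_F chks_eq (.n 0 (.n 1 (.l 1) (.n 0 (.n 1 (.n 1 (.l 1) (.l 2)) (.l 2)) (.l 2))) (.n 0 (.n 1 (.n 0 (.n 1 (.l 1) (.n 1 (.l 1) (.l 2))) (.n 1 (.l 1) (.l 2))) (.l 2)) (.n 1 (.n 0 (.n 1 (.l 1) (.l 2)) (.n 1 (.n 1 (.l 1) (.l 2)) (.l 2))) (.l 2))))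
    [(944892805120, 85899345920), (96207290368, 13743898624), (962072674304, 962072674304)] rfl (by decide +kernel)
theorem c4_m0_t15 : CovD 0 progs [(1202590842880, 171798691840), (96207290368, 13743898624), (962072674304, 962072674304)] :=
  Pool.Agent.helper14.QF.covD_F chks_eq (.n 0 (.n 0 (.n 0 (.n 0 (.n 1 (.n 1 (.n 1 (.l 1) (.l 2)) (.l 2)) (.l 2)) (.l 2)) (.l 2)) (.l 2)) (.l 2))
    [(1202590842880, 171798691840), (96207290368, 13743898624), (962072674304, 962072674304)] rfl (by decide +kernel)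
end

theorem c3_m0_t2 : CovD 0 progs [(171798691840, 171798691840), (164926783488, 54975660032), (2886218022912, 962072674304)] :=
  covD_split 2 (by decide +kernel) c3_m0_t0 c3_m0_t1
theorem c3_m0_t9 : CovD 0 progs [(408021893120, 21474836480), (192414613504, 27487830016), (3487513444352, 120259084288)] :=
  covD_split 0 (by decide +kernel) c3_m0_t7 c3_m0_t8
theorem c3_m0_t10 : CovD 0 progs [(386547056640, 42949672960), (192414613504, 27487830016), (3487513444352, 120259084288)] :=
  covD_split 0 (by decide +kernel) c3_m0_t6 c3_m0_t9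
theorem c3_m0_t14 : CovD 0 progs [(408021893120, 21474836480), (192414613504, 27487830016), (3667902070784, 60129542144)] :=
  covD_split 0 (by decide +kernel) c3_m0_t12 c3_m0_t13
theorem c3_m0_t15 : CovD 0 progs [(386547056640, 42949672960), (192414613504, 27487830016), (3667902070784, 60129542144)] :=
  covD_split 0 (by decide +kernel) c3_m0_t11 c3_m0_t14
theorem c3_m0_t17 : CovD 0 progs [(386547056640, 42949672960), (192414613504, 27487830016), (3728031612928, 120259084288)] :=
  covD_split 2 (by decide +kernel) c3_m0_t15 c3_m0_t16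
theorem c3_m0_t18 : CovD 0 progs [(386547056640, 42949672960), (192414613504, 27487830016), (3607772528640, 240518168576)] :=
  covD_split 2 (by decide +kernel) c3_m0_t10 c3_m0_t17
theorem c3_m0_t19 : CovD 0 progs [(386547056640, 42949672960), (192414613504, 27487830016), (3367254360064, 481036337152)] :=
  covD_split 2 (by decide +kernel) c3_m0_t5 c3_m0_t18
theorem c3_m0_t20 : CovD 0 progs [(386547056640, 42949672960), (192414613504, 27487830016), (2886218022912, 962072674304)] :=
  covD_split 2 (by decide +kernel) c3_m0_t4 c3_m0_t19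
theorem c3_m0_t21 : CovD 0 progs [(386547056640, 42949672960), (164926783488, 54975660032), (2886218022912, 962072674304)] :=
  covD_split 1 (by decide +kernel) c3_m0_t3 c3_m0_t20
theorem c3_m0_t24 : CovD 0 progs [(440234147840, 10737418240), (164926783488, 54975660032), (2886218022912, 962072674304)] :=
  covD_split 2 (by decide +kernel) c3_m0_t22 c3_m0_t23
theorem c3_m0_t28 : CovD 0 progs [(461708984320, 10737418240), (192414613504, 27487830016), (2886218022912, 962072674304)] :=
  covD_split 1 (by decide +kernel) c3_m0_t26 c3_m0_t27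
theorem c3_m0_t29 : CovD 0 progs [(461708984320, 10737418240), (164926783488, 54975660032), (2886218022912, 962072674304)] :=
  covD_split 1 (by decide +kernel) c3_m0_t25 c3_m0_t28
theorem c3_m0_t30 : CovD 0 progs [(450971566080, 21474836480), (164926783488, 54975660032), (2886218022912, 962072674304)] :=
  covD_split 0 (by decide +kernel) c3_m0_t24 c3_m0_t29
theorem c3_m0_t34 : CovD 0 progs [(504658657280, 10737418240), (164926783488, 54975660032), (2886218022912, 962072674304)] :=
  covD_split 1 (by decide +kernel) c3_m0_t32 c3_m0_t33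
theorem c3_m0_t35 : CovD 0 progs [(493921239040, 21474836480), (164926783488, 54975660032), (2886218022912, 962072674304)] :=
  covD_split 0 (by decide +kernel) c3_m0_t31 c3_m0_t34
theorem c3_m0_t36 : CovD 0 progs [(472446402560, 42949672960), (164926783488, 54975660032), (2886218022912, 962072674304)] :=
  covD_split 0 (by decide +kernel) c3_m0_t30 c3_m0_t35
theorem c3_m0_t37 : CovD 0 progs [(429496729600, 85899345920), (164926783488, 54975660032), (2886218022912, 962072674304)] :=
  covD_split 0 (by decide +kernel) c3_m0_t21 c3_m0_t36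
theorem c3_m0_t41 : CovD 0 progs [(536870912000, 21474836480), (137438953472, 27487830016), (3367254360064, 481036337152)] :=
  covD_split 2 (by decide +kernel) c3_m0_t39 c3_m0_t40
theorem c3_m0_t42 : CovD 0 progs [(536870912000, 21474836480), (137438953472, 27487830016), (2886218022912, 962072674304)] :=
  covD_split 2 (by decide +kernel) c3_m0_t38 c3_m0_t41
theorem c3_m0_t44 : CovD 0 progs [(536870912000, 21474836480), (164926783488, 54975660032), (2886218022912, 962072674304)] :=
  covD_split 1 (by decide +kernel) c3_m0_t42 c3_m0_t43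
theorem c3_m0_t47 : CovD 0 progs [(569083166720, 10737418240), (137438953472, 27487830016), (2886218022912, 962072674304)] :=
  covD_split 2 (by decide +kernel) c3_m0_t45 c3_m0_t46
theorem c3_m0_t49 : CovD 0 progs [(569083166720, 10737418240), (164926783488, 54975660032), (2886218022912, 962072674304)] :=
  covD_split 1 (by decide +kernel) c3_m0_t47 c3_m0_t48
theorem c3_m0_t52 : CovD 0 progs [(590558003200, 10737418240), (164926783488, 54975660032), (2886218022912, 962072674304)] :=
  covD_split 1 (by decide +kernel) c3_m0_t50 c3_m0_t51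
theorem c3_m0_t53 : CovD 0 progs [(579820584960, 21474836480), (164926783488, 54975660032), (2886218022912, 962072674304)] :=
  covD_split 0 (by decide +kernel) c3_m0_t49 c3_m0_t52
theorem c3_m0_t54 : CovD 0 progs [(558345748480, 42949672960), (164926783488, 54975660032), (2886218022912, 962072674304)] :=
  covD_split 0 (by decide +kernel) c3_m0_t44 c3_m0_t53
theorem c3_m0_t58 : CovD 0 progs [(665719930880, 21474836480), (123695038464, 13743915008), (2886218022912, 962072674304)] :=
  covD_split 2 (by decide +kernel) c3_m0_t56 c3_m0_t57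
theorem c3_m0_t60 : CovD 0 progs [(665719930880, 21474836480), (137438953472, 27487830016), (2886218022912, 962072674304)] :=
  covD_split 1 (by decide +kernel) c3_m0_t58 c3_m0_t59
theorem c3_m0_t62 : CovD 0 progs [(665719930880, 21474836480), (164926783488, 54975660032), (2886218022912, 962072674304)] :=
  covD_split 1 (by decide +kernel) c3_m0_t60 c3_m0_t61
theorem c3_m0_t63 : CovD 0 progs [(644245094400, 42949672960), (164926783488, 54975660032), (2886218022912, 962072674304)] :=
  covD_split 0 (by decide +kernel) c3_m0_t55 c3_m0_t62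
theorem c3_m0_t64 : CovD 0 progs [(601295421440, 85899345920), (164926783488, 54975660032), (2886218022912, 962072674304)] :=
  covD_split 0 (by decide +kernel) c3_m0_t54 c3_m0_t63
theorem c3_m0_t65 : CovD 0 progs [(515396075520, 171798691840), (164926783488, 54975660032), (2886218022912, 962072674304)] :=
  covD_split 0 (by decide +kernel) c3_m0_t37 c3_m0_t64
theorem c3_m0 : CovD 0 progs [(343597383680, 343597383680), (164926783488, 54975660032), (2886218022912, 962072674304)] :=
  covD_split 0 (by decide +kernel) c3_m0_t2 c3_m0_t65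
theorem c4_m0_t5 : CovD 0 progs [(1288490188800, 85899345920), (61847543808, 6871949312), (962072674304, 962072674304)] :=
  covD_split 0 (by decide +kernel) c4_m0_t3 c4_m0_t4
theorem c4_m0_t6 : CovD 0 progs [(1202590842880, 171798691840), (61847543808, 6871949312), (962072674304, 962072674304)] :=
  covD_split 0 (by decide +kernel) c4_m0_t2 c4_m0_t5
theorem c4_m0_t9 : CovD 0 progs [(1202590842880, 171798691840), (75591442432, 6871949312), (962072674304, 962072674304)] :=
  covD_split 1 (by decide +kernel) c4_m0_t7 c4_m0_t8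
theorem c4_m0_t10 : CovD 0 progs [(1202590842880, 171798691840), (68719493120, 13743898624), (962072674304, 962072674304)] :=
  covD_split 1 (by decide +kernel) c4_m0_t6 c4_m0_t9
theorem c4_m0_t11 : CovD 0 progs [(1030792151040, 343597383680), (68719493120, 13743898624), (962072674304, 962072674304)] :=
  covD_split 0 (by decide +kernel) c4_m0_t1 c4_m0_t10
theorem c4_m0_t14 : CovD 0 progs [(858993459200, 171798691840), (96207290368, 13743898624), (962072674304, 962072674304)] :=
  covD_split 0 (by decide +kernel) c4_m0_t12 c4_m0_t13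
theorem c4_m0_t16 : CovD 0 progs [(1030792151040, 343597383680), (96207290368, 13743898624), (962072674304, 962072674304)] :=
  covD_split 0 (by decide +kernel) c4_m0_t14 c4_m0_t15
theorem c4_m0_t17 : CovD 0 progs [(1030792151040, 343597383680), (82463391744, 27487797248), (962072674304, 962072674304)] :=
  covD_split 1 (by decide +kernel) c4_m0_t11 c4_m0_t16
theorem c4_m0 : CovD 0 progs [(1030792151040, 343597383680), (54975594496, 54975594496), (962072674304, 962072674304)] :=
  covD_split 1 (by decide +kernel) c4_m0_t0 c4_m0_t17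

end Pool.Agent.helper31.EQB.Cert.LB4
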