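import Pool.Agent.helper31.EQB.Cert.LB4P

/-!
Generated certificates.
-/

namespace Pool.Agent.helper31.EQB.Cert.LB4

open Pool.Agent.helper31.IA (Z Op)
open Pool.Agent.helper31.IC

mutual
theorem c5_m0_t0 : CovD 0 progs [(1030792151040, 343597383680), (27487797248, 27487797248), (2164663517184, 240518168576)] :=
  Pool.Agent.helper14.QF.covD_F chks_eq (.n 0 (.n 0 (.l 0) (.n 0 (.l 0) (.l 0))) (.n 0 (.n 0 (.n 1 (.l 0) (.l 1)) (.n 1 (.l 0) (.n 0 (.l 1) (.l 1)))) (.n 0 (.n 1 (.l 0) (.n 1 (.l 1) (.l 1))) (.n 1 (.n 0 (.l 0) (.l 0)) (.n 1 (.l 1) (.l 1))))))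
    [(1030792151040, 343597383680), (27487797248, 27487797248), (2164663517184, 240518168576)] rfl (by decide +kernel)
theorem c5_m0_t1 : CovD 0 progs [(773094113280, 85899345920), (82463391744, 27487797248), (2164663517184, 240518168576)] :=
  Pool.Agent.helper14.QF.covD_F chks_eq (.n 0 (.l 1) (.n 0 (.l 1) (.n 1 (.l 1) (.n 1 (.l 1) (.n 1 (.l 1) (.n 0 (.n 1 (.l 1) (.l 2)) (.l 2)))))))
    [(773094113280, 85899345920), (82463391744, 27487797248), (2164663517184, 240518168576)] rfl (by decide +kernel)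
end
mutual
theorem c5_m0_t2 : CovD 0 progs [(944892805120, 85899345920), (82463391744, 27487797248), (2164663517184, 240518168576)] :=
  Pool.Agent.helper14.QF.covD_F chks_eq (.n 0 (.n 1 (.l 1) (.n 1 (.l 1) (.n 0 (.n 1 (.n 1 (.l 1) (.l 2)) (.l 2)) (.l 2)))) (.n 0 (.n 1 (.l 1) (.n 1 (.n 1 (.l 1) (.n 0 (.n 1 (.l 1) (.l 2)) (.l 2))) (.l 2))) (.n 1 (.l 1) (.n 1 (.n 1 (.n 0 (.l 1) (.n 1 (.l 1) (.l 2))) (.l 2)) (.l 2)))))
    [(944892805120, 85899345920), (82463391744, 27487797248), (2164663517184, 240518168576)] rfl (by decide +kernel)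
theorem c5_m0_t4 : CovD 0 progs [(1116691496960, 85899345920), (82463391744, 27487797248), (2164663517184, 240518168576)] :=
  Pool.Agent.helper14.QF.covD_F chks_eq (.n 0 (.n 0 (.n 1 (.l 1) (.n 0 (.n 1 (.n 1 (.n 1 (.l 1) (.l 2)) (.l 2)) (.l 2)) (.l 2))) (.n 1 (.n 0 (.l 1) (.n 1 (.l 1) (.n 1 (.l 1) (.n 1 (.l 1) (.l 2))))) (.l 2))) (.n 0 (.n 1 (.n 1 (.l 1) (.n 1 (.l 1) (.n 0 (.n 1 (.l 1) (.l 2)) (.l 2)))) (.l 2)) (.n 1 (.n 1 (.l 1) (.n 1 (.n 1 (.l 1) (.n 1 (.l 1) (.l 2))) (.l 2))) (.l 2))))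
    [(1116691496960, 85899345920), (82463391744, 27487797248), (2164663517184, 240518168576)] rfl (by decide +kernel)
end
mutual
theorem c5_m0_t5 : CovD 0 progs [(1245540515840, 42949672960), (82463391744, 27487797248), (2164663517184, 240518168576)] :=
  Pool.Agent.helper14.QF.covD_F chks_eq (.n 1 (.n 1 (.n 0 (.l 1) (.n 0 (.l 1) (.n 0 (.l 1) (.n 1 (.l 1) (.n 1 (.l 1) (.n 1 (.l 1) (.l 2))))))) (.n 1 (.n 1 (.n 0 (.n 0 (.l 1) (.n 1 (.l 1) (.l 2))) (.l 2)) (.l 2)) (.l 2))) (.l 2))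
    [(1245540515840, 42949672960), (82463391744, 27487797248), (2164663517184, 240518168576)] rfl (by decide +kernel)
theorem c5_m0_t6 : CovD 0 progs [(1309965025280, 21474836480), (82463391744, 27487797248), (2164663517184, 240518168576)] :=
  Pool.Agent.helper14.QF.covD_F chks_eq (.n 1 (.n 1 (.n 0 (.n 1 (.l 1) (.n 1 (.l 1) (.n 1 (.n 1 (.l 1) (.n 0 (.l 1) (.l 2))) (.l 2)))) (.n 1 (.l 1) (.n 1 (.l 1) (.n 0 (.n 0 (.l 2) (.l 2)) (.l 2))))) (.l 2)) (.l 2))
    [(1309965025280, 21474836480), (82463391744, 27487797248), (2164663517184, 240518168576)] rfl (by decide +kernel)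
end
mutual
theorem c5_m0_t7 : CovD 0 progs [(1352914698240, 21474836480), (82463391744, 27487797248), (2164663517184, 240518168576)] :=
  Pool.Agent.helper14.QF.covD_F chks_eq (.n 1 (.n 0 (.n 1 (.n 1 (.l 1) (.n 1 (.n 1 (.l 1) (.n 1 (.n 1 (.l 1) (.n 0 (.l 1) (.l 2))) (.l 2))) (.l 2))) (.l 2)) (.n 1 (.n 1 (.l 1) (.n 1 (.n 1 (.l 3) (.l 2)) (.l 2))) (.l 2))) (.l 2))
    [(1352914698240, 21474836480), (82463391744, 27487797248), (2164663517184, 240518168576)] rfl (by decide +kernel)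
theorem c5_m0_t13 : CovD 0 progs [(773094113280, 85899345920), (54975594496, 54975594496), (2645699854336, 240518168576)] :=
  Pool.Agent.helper14.QF.covD_F chks_eq (.n 0 (.l 1) (.n 1 (.l 0) (.n 0 (.l 1) (.n 1 (.l 1) (.n 1 (.l 1) (.n 1 (.l 1) (.n 0 (.n 1 (.l 1) (.l 2)) (.l 2))))))))
    [(773094113280, 85899345920), (54975594496, 54975594496), (2645699854336, 240518168576)] rfl (by decide +kernel)
end
mutual
theorem c5_m0_t14 : CovD 0 progs [(944892805120, 85899345920), (54975594496, 54975594496), (2645699854336, 240518168576)] :=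
  Pool.Agent.helper14.QF.covD_F chks_eq (.n 0 (.n 0 (.n 1 (.l 0) (.n 1 (.l 1) (.n 1 (.l 1) (.n 1 (.n 1 (.l 1) (.l 2)) (.l 2))))) (.n 1 (.l 0) (.n 1 (.l 1) (.n 1 (.l 1) (.l 2))))) (.n 0 (.n 1 (.l 0) (.n 1 (.l 1) (.n 1 (.n 1 (.l 1) (.n 0 (.n 1 (.l 1) (.l 2)) (.l 2))) (.l 2)))) (.n 1 (.l 0) (.n 1 (.l 1) (.n 1 (.n 1 (.n 0 (.l 1) (.n 1 (.l 1) (.l 2))) (.l 2)) (.l 2))))))
    [(944892805120, 85899345920), (54975594496, 54975594496), (2645699854336, 240518168576)] rfl (by decide +kernel)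
theorem c5_m0_t16 : CovD 0 progs [(1073741824000, 42949672960), (54975594496, 54975594496), (2645699854336, 240518168576)] :=
  Pool.Agent.helper14.QF.covD_F chks_eq (.n 1 (.n 1 (.l 0) (.l 1)) (.n 0 (.n 1 (.l 1) (.n 0 (.n 1 (.n 1 (.n 1 (.l 1) (.l 2)) (.l 2)) (.l 2)) (.l 2))) (.n 1 (.n 1 (.l 1) (.n 1 (.l 1) (.n 0 (.l 1) (.n 1 (.l 1) (.l 2))))) (.l 2))))
    [(1073741824000, 42949672960), (54975594496, 54975594496), (2645699854336, 240518168576)] rfl (by decide +kernel)
end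
mutual
theorem c5_m0_t17 : CovD 0 progs [(1159641169920, 42949672960), (54975594496, 54975594496), (2645699854336, 240518168576)] :=
  Pool.Agent.helper14.QF.covD_F chks_eq (.n 0 (.n 1 (.n 1 (.l 0) (.l 1)) (.n 1 (.n 1 (.l 1) (.n 1 (.l 1) (.n 0 (.n 1 (.n 1 (.l 1) (.l 2)) (.l 2)) (.l 2)))) (.l 2))) (.n 1 (.n 1 (.l 0) (.l 1)) (.n 1 (.n 1 (.l 1) (.n 1 (.n 1 (.l 1) (.n 1 (.l 1) (.l 2))) (.l 2))) (.l 2))))
    [(1159641169920, 42949672960), (54975594496, 54975594496), (2645699854336, 240518168576)] rfl (by decide +kernel)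
theorem c5_m0_t19 : CovD 0 progs [(1288490188800, 85899345920), (27487797248, 27487797248), (2645699854336, 240518168576)] :=
  Pool.Agent.helper14.QF.covD_F chks_eq (.n 0 (.n 1 (.l 0) (.n 1 (.l 1) (.l 1))) (.n 1 (.n 0 (.l 0) (.l 0)) (.n 1 (.l 1) (.l 1))))
    [(1288490188800, 85899345920), (27487797248, 27487797248), (2645699854336, 240518168576)] rfl (by decide +kernel)
end
mutual
theorem c5_m0_t20 : CovD 0 progs [(1245540515840, 42949672960), (61847543808, 6871949312), (2645699854336, 240518168576)] :=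
  Pool.Agent.helper14.QF.covD_F chks_eq (.n 0 (.l 1) (.n 0 (.l 1) (.n 1 (.l 1) (.n 0 (.l 1) (.n 1 (.l 1) (.n 1 (.l 1) (.l 2)))))))
    [(1245540515840, 42949672960), (61847543808, 6871949312), (2645699854336, 240518168576)] rfl (by decide +kernel)
theorem c5_m0_t21 : CovD 0 progs [(1331439861760, 42949672960), (61847543808, 6871949312), (2645699854336, 240518168576)] :=
  Pool.Agent.helper14.QF.covD_F chks_eq (.n 0 (.n 0 (.n 1 (.l 1) (.n 1 (.l 1) (.n 1 (.n 1 (.l 1) (.n 0 (.l 1) (.l 2))) (.l 2)))) (.n 1 (.l 1) (.n 1 (.l 1) (.n 0 (.n 0 (.l 2) (.l 2)) (.l 2))))) (.n 0 (.n 1 (.l 1) (.n 1 (.n 1 (.l 1) (.n 1 (.n 1 (.l 1) (.n 0 (.l 1) (.l 2))) (.l 2))) (.l 2))) (.n 1 (.l 1) (.n 1 (.n 1 (.l 3) (.l 2)) (.l 2)))))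
    [(1331439861760, 42949672960), (61847543808, 6871949312), (2645699854336, 240518168576)] rfl (by decide +kernel)
end
mutual
theorem c5_m0_t23 : CovD 0 progs [(1288490188800, 85899345920), (75591442432, 6871949312), (2645699854336, 240518168576)] :=
  Pool.Agent.helper14.QF.covD_F chks_eq (.n 0 (.n 1 (.n 1 (.n 0 (.n 0 (.l 1) (.n 1 (.l 1) (.l 2))) (.l 2)) (.l 2)) (.l 2)) (.l 2))
    [(1288490188800, 85899345920), (75591442432, 6871949312), (2645699854336, 240518168576)] rfl (by decide +kernel)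
theorem c5_m0_t25 : CovD 0 progs [(1288490188800, 85899345920), (96207290368, 13743898624), (2645699854336, 240518168576)] :=
  Pool.Agent.helper14.QF.covD_F chks_eq (.l 2)
    [(1288490188800, 85899345920), (96207290368, 13743898624), (2645699854336, 240518168576)] rfl (by decide +kernel)
end
mutual
theorem c5_m1_t0 : CovD 0 progs [(773094113280, 85899345920), (54975594496, 54975594496), (3126736191488, 240518168576)] :=
  Pool.Agent.helper14.QF.covD_F chks_eq (.n 0 (.l 1) (.n 1 (.l 0) (.n 0 (.l 1) (.n 1 (.l 1) (.n 1 (.l 1) (.n 1 (.l 1) (.n 0 (.n 1 (.l 1) (.l 2)) (.l 2))))))))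
    [(773094113280, 85899345920), (54975594496, 54975594496), (3126736191488, 240518168576)] rfl (by decide +kernel)
theorem c5_m1_t1 : CovD 0 progs [(901943132160, 42949672960), (54975594496, 54975594496), (3126736191488, 240518168576)] :=
  Pool.Agent.helper14.QF.covD_F chks_eq (.n 0 (.n 1 (.l 0) (.n 1 (.l 1) (.n 1 (.l 1) (.n 1 (.n 1 (.l 1) (.l 2)) (.l 2))))) (.n 1 (.l 0) (.n 1 (.l 1) (.n 1 (.n 0 (.l 1) (.n 1 (.l 1) (.n 1 (.l 1) (.l 2)))) (.l 2)))))
    [(901943132160, 42949672960), (54975594496, 54975594496), (3126736191488, 240518168576)] rfl (by decide +kernel)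
end
mutual
theorem c5_m1_t2 : CovD 0 progs [(987842478080, 42949672960), (54975594496, 54975594496), (3126736191488, 240518168576)] :=
  Pool.Agent.helper14.QF.covD_F chks_eq (.n 0 (.n 1 (.l 0) (.n 1 (.l 1) (.n 1 (.n 1 (.l 1) (.n 0 (.n 1 (.l 1) (.l 2)) (.l 2))) (.l 2)))) (.n 1 (.l 0) (.n 1 (.l 1) (.n 1 (.n 1 (.n 0 (.l 1) (.n 1 (.l 1) (.l 2))) (.l 2)) (.l 2)))))
    [(987842478080, 42949672960), (54975594496, 54975594496), (3126736191488, 240518168576)] rfl (by decide +kernel)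
theorem c5_m1_t5 : CovD 0 progs [(1073741824000, 42949672960), (54975594496, 54975594496), (3126736191488, 240518168576)] :=
  Pool.Agent.helper14.QF.covD_F chks_eq (.n 1 (.n 1 (.l 0) (.l 1)) (.n 0 (.n 1 (.l 1) (.n 0 (.n 1 (.n 1 (.n 1 (.l 1) (.l 2)) (.l 2)) (.l 2)) (.l 2))) (.n 1 (.n 1 (.l 1) (.n 1 (.l 1) (.n 1 (.l 1) (.n 0 (.n 0 (.l 1) (.l 2)) (.l 2))))) (.l 2))))
    [(1073741824000, 42949672960), (54975594496, 54975594496), (3126736191488, 240518168576)] rfl (by decide +kernel)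
end
mutual
theorem c5_m1_t6 : CovD 0 progs [(1159641169920, 42949672960), (54975594496, 54975594496), (3126736191488, 240518168576)] :=
  Pool.Agent.helper14.QF.covD_F chks_eq (.n 0 (.n 1 (.n 1 (.l 0) (.l 1)) (.n 1 (.n 1 (.l 1) (.n 1 (.l 1) (.n 0 (.n 1 (.n 1 (.l 1) (.l 2)) (.l 2)) (.l 2)))) (.l 2))) (.n 1 (.n 1 (.l 0) (.l 1)) (.n 1 (.n 1 (.l 1) (.n 1 (.n 1 (.l 1) (.n 0 (.n 1 (.l 1) (.l 2)) (.n 0 (.n 1 (.l 1) (.l 2)) (.l 2)))) (.l 2))) (.l 2))))
    [(1159641169920, 42949672960), (54975594496, 54975594496), (3126736191488, 240518168576)] rfl (by decide +kernel)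
theorem c5_m1_t8 : CovD 0 progs [(1245540515840, 42949672960), (54975594496, 54975594496), (3126736191488, 240518168576)] :=
  Pool.Agent.helper14.QF.covD_F chks_eq (.n 1 (.n 1 (.l 0) (.n 1 (.l 1) (.l 1))) (.n 0 (.n 1 (.n 1 (.l 1) (.n 1 (.n 1 (.n 0 (.l 1) (.n 1 (.l 1) (.l 2))) (.l 2)) (.l 2))) (.l 2)) (.n 0 (.n 1 (.n 1 (.l 1) (.n 0 (.l 2) (.l 2))) (.l 2)) (.n 1 (.n 1 (.n 1 (.l 1) (.n 1 (.l 1) (.n 1 (.l 1) (.n 1 (.l 1) (.l 2))))) (.l 2)) (.l 2)))))
    [(1245540515840, 42949672960), (54975594496, 54975594496), (3126736191488, 240518168576)] rfl (by decide +kernel)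
end
mutual
theorem c5_m1_t9 : CovD 0 progs [(1331439861760, 42949672960), (27487797248, 27487797248), (3126736191488, 240518168576)] :=
  Pool.Agent.helper14.QF.covD_F chks_eq (.n 1 (.n 0 (.l 0) (.l 0)) (.n 1 (.l 1) (.l 1)))
    [(1331439861760, 42949672960), (27487797248, 27487797248), (3126736191488, 240518168576)] rfl (by decide +kernel)
theorem c5_m1_t10 : CovD 0 progs [(1299227607040, 10737418240), (82463391744, 27487797248), (3126736191488, 240518168576)] :=
  Pool.Agent.helper14.QF.covD_F chks_eq (.n 1 (.n 1 (.n 1 (.l 1) (.n 1 (.l 1) (.n 1 (.n 1 (.l 1) (.n 0 (.l 1) (.l 2))) (.l 2)))) (.l 2)) (.l 2))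
    [(1299227607040, 10737418240), (82463391744, 27487797248), (3126736191488, 240518168576)] rfl (by decide +kernel)
end
mutual
theorem c5_m1_t11 : CovD 0 progs [(1320702443520, 10737418240), (82463391744, 27487797248), (3126736191488, 240518168576)] :=
  Pool.Agent.helper14.QF.covD_F chks_eq (.n 0 (.n 1 (.n 1 (.n 1 (.l 1) (.n 1 (.l 1) (.n 0 (.l 2) (.l 2)))) (.l 2)) (.l 2)) (.n 1 (.n 1 (.n 0 (.n 1 (.l 1) (.n 1 (.l 1) (.l 2))) (.n 0 (.n 1 (.l 1) (.n 1 (.l 1) (.l 2))) (.n 1 (.l 1) (.n 1 (.n 1 (.l 1) (.n 1 (.l 1) (.l 2))) (.l 2))))) (.l 2)) (.l 2)))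
    [(1320702443520, 10737418240), (82463391744, 27487797248), (3126736191488, 240518168576)] rfl (by decide +kernel)
theorem c5_m1_t13 : CovD 0 progs [(1352914698240, 21474836480), (82463391744, 27487797248), (3126736191488, 240518168576)] :=
  Pool.Agent.helper14.QF.covD_F chks_eq (.n 0 (.n 1 (.n 1 (.n 1 (.l 1) (.n 1 (.n 1 (.l 1) (.n 1 (.n 1 (.n 1 (.l 1) (.n 0 (.l 1) (.l 2))) (.n 0 (.l 1) (.l 2))) (.l 2))) (.l 2))) (.l 2)) (.l 2)) (.n 1 (.n 1 (.n 1 (.l 1) (.n 1 (.n 1 (.l 3) (.l 2)) (.l 2))) (.l 2)) (.l 2)))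
    [(1352914698240, 21474836480), (82463391744, 27487797248), (3126736191488, 240518168576)] rfl (by decide +kernel)
end

theorem c5_m0_t3 : CovD 0 progs [(858993459200, 171798691840), (82463391744, 27487797248), (2164663517184, 240518168576)] :=
  covD_split 0 (by decide +kernel) c5_m0_t1 c5_m0_t2
theorem c5_m0_t8 : CovD 0 progs [(1331439861760, 42949672960), (82463391744, 27487797248), (2164663517184, 240518168576)] :=
  covD_split 0 (by decide +kernel) c5_m0_t6 c5_m0_t7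
theorem c5_m0_t9 : CovD 0 progs [(1288490188800, 85899345920), (82463391744, 27487797248), (2164663517184, 240518168576)] :=
  covD_split 0 (by decide +kernel) c5_m0_t5 c5_m0_t8
theorem c5_m0_t10 : CovD 0 progs [(1202590842880, 171798691840), (82463391744, 27487797248), (2164663517184, 240518168576)] :=
  covD_split 0 (by decide +kernel) c5_m0_t4 c5_m0_t9
theorem c5_m0_t11 : CovD 0 progs [(1030792151040, 343597383680), (82463391744, 27487797248), (2164663517184, 240518168576)] :=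
  covD_split 0 (by decide +kernel) c5_m0_t3 c5_m0_t10
theorem c5_m0_t12 : CovD 0 progs [(1030792151040, 343597383680), (54975594496, 54975594496), (2164663517184, 240518168576)] :=
  covD_split 1 (by decide +kernel) c5_m0_t0 c5_m0_t11
theorem c5_m0_t15 : CovD 0 progs [(858993459200, 171798691840), (54975594496, 54975594496), (2645699854336, 240518168576)] :=
  covD_split 0 (by decide +kernel) c5_m0_t13 c5_m0_t14
theorem c5_m0_t18 : CovD 0 progs [(1116691496960, 85899345920), (54975594496, 54975594496), (2645699854336, 240518168576)] :=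
  covD_split 0 (by decide +kernel) c5_m0_t16 c5_m0_t17
theorem c5_m0_t22 : CovD 0 progs [(1288490188800, 85899345920), (61847543808, 6871949312), (2645699854336, 240518168576)] :=
  covD_split 0 (by decide +kernel) c5_m0_t20 c5_m0_t21
theorem c5_m0_t24 : CovD 0 progs [(1288490188800, 85899345920), (68719493120, 13743898624), (2645699854336, 240518168576)] :=
  covD_split 1 (by decide +kernel) c5_m0_t22 c5_m0_t23
theorem c5_m0_t26 : CovD 0 progs [(1288490188800, 85899345920), (82463391744, 27487797248), (2645699854336, 240518168576)] :=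
  covD_split 1 (by decide +kernel) c5_m0_t24 c5_m0_t25
theorem c5_m0_t27 : CovD 0 progs [(1288490188800, 85899345920), (54975594496, 54975594496), (2645699854336, 240518168576)] :=
  covD_split 1 (by decide +kernel) c5_m0_t19 c5_m0_t26
theorem c5_m0_t28 : CovD 0 progs [(1202590842880, 171798691840), (54975594496, 54975594496), (2645699854336, 240518168576)] :=
  covD_split 0 (by decide +kernel) c5_m0_t18 c5_m0_t27
theorem c5_m0_t29 : CovD 0 progs [(1030792151040, 343597383680), (54975594496, 54975594496), (2645699854336, 240518168576)] :=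
  covD_split 0 (by decide +kernel) c5_m0_t15 c5_m0_t28
theorem c5_m0 : CovD 0 progs [(1030792151040, 343597383680), (54975594496, 54975594496), (2405181685760, 481036337152)] :=
  covD_split 2 (by decide +kernel) c5_m0_t12 c5_m0_t29
theorem c5_m1_t3 : CovD 0 progs [(944892805120, 85899345920), (54975594496, 54975594496), (3126736191488, 240518168576)] :=
  covD_split 0 (by decide +kernel) c5_m1_t1 c5_m1_t2
theorem c5_m1_t4 : CovD 0 progs [(858993459200, 171798691840), (54975594496, 54975594496), (3126736191488, 240518168576)] :=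
  covD_split 0 (by decide +kernel) c5_m1_t0 c5_m1_t3
theorem c5_m1_t7 : CovD 0 progs [(1116691496960, 85899345920), (54975594496, 54975594496), (3126736191488, 240518168576)] :=
  covD_split 0 (by decide +kernel) c5_m1_t5 c5_m1_t6
theorem c5_m1_t12 : CovD 0 progs [(1309965025280, 21474836480), (82463391744, 27487797248), (3126736191488, 240518168576)] :=
  covD_split 0 (by decide +kernel) c5_m1_t10 c5_m1_t11
theorem c5_m1_t14 : CovD 0 progs [(1331439861760, 42949672960), (82463391744, 27487797248), (3126736191488, 240518168576)] :=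
  covD_split 0 (by decide +kernel) c5_m1_t12 c5_m1_t13
theorem c5_m1_t15 : CovD 0 progs [(1331439861760, 42949672960), (54975594496, 54975594496), (3126736191488, 240518168576)] :=
  covD_split 1 (by decide +kernel) c5_m1_t9 c5_m1_t14
theorem c5_m1_t16 : CovD 0 progs [(1288490188800, 85899345920), (54975594496, 54975594496), (3126736191488, 240518168576)] :=
  covD_split 0 (by decide +kernel) c5_m1_t8 c5_m1_t15
theorem c5_m1_t17 : CovD 0 progs [(1202590842880, 171798691840), (54975594496, 54975594496), (3126736191488, 240518168576)] :=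
  covD_split 0 (by decide +kernel) c5_m1_t7 c5_m1_t16
theorem c5_m1 : CovD 0 progs [(1030792151040, 343597383680), (54975594496, 54975594496), (3126736191488, 240518168576)] :=
  covD_split 0 (by decide +kernel) c5_m1_t4 c5_m1_t17

end Pool.Agent.helper31.EQB.Cert.LB4
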