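import Pool.Agent.helper31.EQB.Cert.LB4P

/-!
Generated certificates.
-/

namespace Pool.Agent.helper31.EQB.Cert.LB4

open Pool.Agent.helper31.IA (Z Op)
open Pool.Agent.helper31.IC

mutual
theorem c5_m2_t0 : CovD 0 progs [(773094113280, 85899345920), (54975594496, 54975594496), (3487513444352, 120259084288)] :=
  Pool.Agent.helper14.QF.covD_F chks_eq (.n 0 (.l 1) (.n 1 (.l 0) (.n 0 (.l 1) (.n 1 (.l 1) (.n 1 (.l 1) (.n 1 (.l 1) (.n 0 (.n 1 (.l 1) (.l 2)) (.l 2))))))))
    [(773094113280, 85899345920), (54975594496, 54975594496), (3487513444352, 120259084288)] rfl (by decide +kernel)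
theorem c5_m2_t1 : CovD 0 progs [(901943132160, 42949672960), (54975594496, 54975594496), (3487513444352, 120259084288)] :=
  Pool.Agent.helper14.QF.covD_F chks_eq (.n 1 (.l 0) (.n 1 (.l 1) (.n 0 (.n 1 (.l 1) (.n 1 (.n 1 (.l 1) (.l 2)) (.l 2))) (.n 1 (.n 0 (.l 1) (.n 1 (.l 1) (.n 1 (.l 1) (.l 2)))) (.l 2)))))
    [(901943132160, 42949672960), (54975594496, 54975594496), (3487513444352, 120259084288)] rfl (by decide +kernel)
end
mutual
theorem c5_m2_t2 : CovD 0 progs [(987842478080, 42949672960), (54975594496, 54975594496), (3487513444352, 120259084288)] :=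
  Pool.Agent.helper14.QF.covD_F chks_eq (.n 0 (.n 1 (.l 0) (.n 1 (.l 1) (.n 1 (.n 1 (.l 1) (.n 0 (.n 1 (.l 1) (.l 2)) (.l 2))) (.l 2)))) (.n 1 (.l 0) (.n 1 (.l 1) (.n 1 (.n 1 (.n 0 (.l 1) (.n 1 (.l 1) (.l 2))) (.l 2)) (.l 2)))))
    [(987842478080, 42949672960), (54975594496, 54975594496), (3487513444352, 120259084288)] rfl (by decide +kernel)
theorem c5_m2_t5 : CovD 0 progs [(1116691496960, 85899345920), (27487797248, 27487797248), (3487513444352, 120259084288)] :=
  Pool.Agent.helper14.QF.covD_F chks_eq (.n 0 (.n 0 (.l 1) (.l 1)) (.n 1 (.l 0) (.l 1)))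
    [(1116691496960, 85899345920), (27487797248, 27487797248), (3487513444352, 120259084288)] rfl (by decide +kernel)
end
mutual
theorem c5_m2_t6 : CovD 0 progs [(1116691496960, 85899345920), (68719493120, 13743898624), (3487513444352, 120259084288)] :=
  Pool.Agent.helper14.QF.covD_F chks_eq (.n 1 (.l 1) (.n 1 (.n 0 (.l 1) (.n 0 (.l 1) (.n 1 (.l 1) (.n 1 (.n 0 (.l 1) (.n 0 (.l 1) (.l 2))) (.l 2))))) (.n 0 (.n 0 (.l 1) (.n 1 (.l 1) (.n 0 (.n 0 (.l 1) (.l 2)) (.l 2)))) (.n 0 (.n 0 (.n 1 (.n 1 (.l 1) (.l 2)) (.l 2)) (.l 2)) (.l 2)))))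
    [(1116691496960, 85899345920), (68719493120, 13743898624), (3487513444352, 120259084288)] rfl (by decide +kernel)
theorem c5_m2_t7 : CovD 0 progs [(1116691496960, 85899345920), (96207290368, 13743898624), (3487513444352, 120259084288)] :=
  Pool.Agent.helper14.QF.covD_F chks_eq (.n 0 (.n 0 (.n 0 (.n 1 (.n 1 (.n 1 (.l 1) (.l 2)) (.l 2)) (.l 2)) (.l 2)) (.l 2)) (.l 2))
    [(1116691496960, 85899345920), (96207290368, 13743898624), (3487513444352, 120259084288)] rfl (by decide +kernel)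
end
mutual
theorem c5_m2_t10 : CovD 0 progs [(1288490188800, 85899345920), (27487797248, 27487797248), (3487513444352, 120259084288)] :=
  Pool.Agent.helper14.QF.covD_F chks_eq (.n 0 (.n 1 (.l 0) (.n 1 (.l 1) (.l 1))) (.n 1 (.n 0 (.l 0) (.l 1)) (.n 1 (.l 1) (.l 1))))
    [(1288490188800, 85899345920), (27487797248, 27487797248), (3487513444352, 120259084288)] rfl (by decide +kernel)
theorem c5_m2_t11 : CovD 0 progs [(1288490188800, 85899345920), (58411569152, 3435974656), (3487513444352, 120259084288)] :=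
  Pool.Agent.helper14.QF.covD_F chks_eq (.l 1)
    [(1288490188800, 85899345920), (58411569152, 3435974656), (3487513444352, 120259084288)] rfl (by decide +kernel)
end
mutual
theorem c5_m2_t12 : CovD 0 progs [(1288490188800, 85899345920), (63565531136, 1717987328), (3487513444352, 120259084288)] :=
  Pool.Agent.helper14.QF.covD_F chks_eq (.n 1 (.n 0 (.l 1) (.n 0 (.l 1) (.n 0 (.l 1) (.l 3)))) (.n 1 (.n 0 (.l 1) (.n 0 (.l 1) (.n 0 (.n 1 (.n 0 (.l 1) (.n 0 (.l 1) (.l 2))) (.n 0 (.l 1) (.l 2))) (.l 2)))) (.n 1 (.n 0 (.l 1) (.n 0 (.l 1) (.l 2))) (.n 0 (.l 1) (.n 0 (.n 0 (.l 1) (.n 0 (.l 1) (.l 2))) (.l 2))))))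
    [(1288490188800, 85899345920), (63565531136, 1717987328), (3487513444352, 120259084288)] rfl (by decide +kernel)
theorem c5_m2_t13 : CovD 0 progs [(1288490188800, 85899345920), (67001505792, 1717987328), (3487513444352, 120259084288)] :=
  Pool.Agent.helper14.QF.covD_F chks_eq (.n 0 (.n 0 (.l 1) (.n 0 (.l 1) (.n 1 (.l 1) (.n 0 (.n 1 (.l 1) (.l 2)) (.l 2))))) (.n 0 (.n 0 (.n 1 (.n 0 (.l 1) (.n 1 (.l 1) (.l 2))) (.l 2)) (.n 0 (.n 0 (.l 2) (.l 2)) (.l 2))) (.l 2)))
    [(1288490188800, 85899345920), (67001505792, 1717987328), (3487513444352, 120259084288)] rfl (by decide +kernel)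
end
mutual
theorem c5_m2_t16 : CovD 0 progs [(1288490188800, 85899345920), (75591442432, 6871949312), (3487513444352, 120259084288)] :=
  Pool.Agent.helper14.QF.covD_F chks_eq (.n 0 (.n 1 (.n 1 (.n 0 (.n 1 (.l 1) (.n 0 (.n 1 (.l 1) (.l 2)) (.l 2))) (.l 2)) (.l 2)) (.l 2)) (.l 2))
    [(1288490188800, 85899345920), (75591442432, 6871949312), (3487513444352, 120259084288)] rfl (by decide +kernel)
theorem c5_m2_t18 : CovD 0 progs [(1288490188800, 85899345920), (96207290368, 13743898624), (3487513444352, 120259084288)] :=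
  Pool.Agent.helper14.QF.covD_F chks_eq (.l 2)
    [(1288490188800, 85899345920), (96207290368, 13743898624), (3487513444352, 120259084288)] rfl (by decide +kernel)
end
mutual
theorem c5_m2_t23 : CovD 0 progs [(858993459200, 171798691840), (27487797248, 27487797248), (3728031612928, 120259084288)] :=
  Pool.Agent.helper14.QF.covD_F chks_eq (.n 0 (.n 2 (.l 1) (.l 4)) (.n 2 (.n 1 (.l 1) (.n 2 (.l 1) (.n 2 (.l 1) (.n 2 (.n 0 (.l 1) (.n 1 (.l 1) (.n 1 (.l 1) (.l 4)))) (.n 1 (.l 4) (.l 4)))))) (.l 4)))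
    [(858993459200, 171798691840), (27487797248, 27487797248), (3728031612928, 120259084288)] rfl (by decide +kernel)
theorem c5_m2_t24 : CovD 0 progs [(773094113280, 85899345920), (82463391744, 27487797248), (3728031612928, 120259084288)] :=
  Pool.Agent.helper14.QF.covD_F chks_eq (.n 1 (.n 2 (.n 2 (.l 1) (.n 2 (.l 1) (.n 2 (.l 1) (.n 0 (.l 4) (.l 4))))) (.l 4)) (.n 2 (.n 0 (.n 2 (.l 1) (.n 2 (.l 1) (.n 1 (.n 0 (.l 4) (.l 4)) (.l 4)))) (.n 0 (.n 2 (.l 1) (.n 2 (.l 1) (.l 4))) (.n 2 (.n 1 (.l 1) (.n 1 (.l 1) (.n 0 (.n 1 (.l 1) (.l 2)) (.l 2)))) (.n 2 (.n 1 (.l 1) (.n 1 (.l 1) (.l 4))) (.l 4))))) (.l 4)))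
    [(773094113280, 85899345920), (82463391744, 27487797248), (3728031612928, 120259084288)] rfl (by decide +kernel)
end
mutual
theorem c5_m2_t25 : CovD 0 progs [(944892805120, 85899345920), (68719493120, 13743898624), (3728031612928, 120259084288)] :=
  Pool.Agent.helper14.QF.covD_F chks_eq (.n 0 (.n 2 (.n 2 (.l 1) (.n 2 (.l 1) (.n 1 (.n 0 (.n 0 (.l 4) (.l 4)) (.l 4)) (.l 4)))) (.l 4)) (.n 2 (.n 2 (.l 1) (.n 1 (.n 2 (.n 0 (.l 1) (.n 1 (.l 1) (.n 2 (.l 1) (.l 4)))) (.l 4)) (.n 1 (.n 2 (.n 0 (.l 1) (.l 4)) (.l 4)) (.n 0 (.l 4) (.l 4))))) (.l 4)))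
    [(944892805120, 85899345920), (68719493120, 13743898624), (3728031612928, 120259084288)] rfl (by decide +kernel)
theorem c5_m2_t26 : CovD 0 progs [(901943132160, 42949672960), (96207290368, 13743898624), (3667902070784, 60129542144)] :=
  Pool.Agent.helper14.QF.covD_F chks_eq (.n 0 (.n 1 (.n 2 (.l 1) (.n 1 (.n 2 (.l 1) (.l 4)) (.l 4))) (.n 1 (.n 1 (.n 2 (.l 1) (.l 4)) (.l 2)) (.l 2))) (.n 1 (.n 0 (.n 2 (.l 1) (.l 4)) (.n 2 (.n 1 (.l 1) (.n 1 (.l 1) (.l 2))) (.l 4))) (.l 2)))
    [(901943132160, 42949672960), (96207290368, 13743898624), (3667902070784, 60129542144)] rfl (by decide +kernel)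
end
mutual
theorem c5_m2_t27 : CovD 0 progs [(987842478080, 42949672960), (96207290368, 13743898624), (3667902070784, 60129542144)] :=
  Pool.Agent.helper14.QF.covD_F chks_eq (.n 1 (.n 2 (.n 0 (.n 1 (.l 1) (.n 0 (.n 1 (.l 1) (.l 2)) (.l 2))) (.n 1 (.n 0 (.l 1) (.n 1 (.l 1) (.l 2))) (.l 2))) (.l 4)) (.l 2))
    [(987842478080, 42949672960), (96207290368, 13743898624), (3667902070784, 60129542144)] rfl (by decide +kernel)
theorem c5_m2_t29 : CovD 0 progs [(944892805120, 85899345920), (96207290368, 13743898624), (3788161155072, 60129542144)] :=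
  Pool.Agent.helper14.QF.covD_F chks_eq (.l 4)
    [(944892805120, 85899345920), (96207290368, 13743898624), (3788161155072, 60129542144)] rfl (by decide +kernel)
end
mutual
theorem c5_m2_t34 : CovD 0 progs [(1116691496960, 85899345920), (13743898624, 13743898624), (3667902070784, 60129542144)] :=
  Pool.Agent.helper14.QF.covD_F chks_eq (.n 0 (.n 1 (.l 0) (.n 2 (.l 0) (.n 2 (.l 1) (.n 2 (.l 1) (.l 4))))) (.n 1 (.l 1) (.n 2 (.l 0) (.n 2 (.l 1) (.n 2 (.l 1) (.l 4))))))
    [(1116691496960, 85899345920), (13743898624, 13743898624), (3667902070784, 60129542144)] rfl (by decide +kernel)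
theorem c5_m2_t35 : CovD 0 progs [(1288490188800, 85899345920), (13743898624, 13743898624), (3667902070784, 60129542144)] :=
  Pool.Agent.helper14.QF.covD_F chks_eq (.n 0 (.n 1 (.l 1) (.n 2 (.l 1) (.n 0 (.n 2 (.l 1) (.n 2 (.n 1 (.l 1) (.n 2 (.l 1) (.l 4))) (.l 4))) (.n 2 (.l 1) (.n 2 (.n 1 (.l 1) (.n 2 (.l 1) (.l 4))) (.l 4)))))) (.n 0 (.n 1 (.n 0 (.l 1) (.l 3)) (.n 2 (.l 1) (.n 2 (.l 1) (.n 2 (.n 1 (.l 1) (.n 1 (.n 2 (.l 1) (.l 4)) (.l 4))) (.l 4))))) (.l 3)))
    [(1288490188800, 85899345920), (13743898624, 13743898624), (3667902070784, 60129542144)] rfl (by decide +kernel)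
end
mutual
theorem c5_m2_t37 : CovD 0 progs [(1202590842880, 171798691840), (13743898624, 13743898624), (3788161155072, 60129542144)] :=
  Pool.Agent.helper14.QF.covD_F chks_eq (.l 4)
    [(1202590842880, 171798691840), (13743898624, 13743898624), (3788161155072, 60129542144)] rfl (by decide +kernel)
theorem c5_m2_t39 : CovD 0 progs [(1116691496960, 85899345920), (34359746560, 6871949312), (3728031612928, 120259084288)] :=
  Pool.Agent.helper14.QF.covD_F chks_eq (.n 2 (.n 0 (.n 2 (.l 1) (.n 2 (.l 1) (.n 2 (.n 1 (.l 1) (.n 1 (.l 1) (.l 4))) (.l 4)))) (.n 2 (.l 1) (.n 2 (.l 1) (.n 2 (.n 1 (.n 2 (.l 1) (.l 4)) (.l 4)) (.l 4))))) (.l 4))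
    [(1116691496960, 85899345920), (34359746560, 6871949312), (3728031612928, 120259084288)] rfl (by decide +kernel)
end
mutual
theorem c5_m2_t40 : CovD 0 progs [(1116691496960, 85899345920), (48103645184, 6871949312), (3728031612928, 120259084288)] :=
  Pool.Agent.helper14.QF.covD_F chks_eq (.n 1 (.n 2 (.n 2 (.l 1) (.n 0 (.n 2 (.l 1) (.l 4)) (.n 2 (.n 2 (.l 1) (.n 0 (.n 2 (.l 1) (.l 4)) (.n 0 (.n 1 (.l 1) (.l 4)) (.l 4)))) (.l 4)))) (.l 4)) (.n 2 (.n 2 (.l 1) (.n 0 (.n 2 (.n 0 (.l 1) (.n 0 (.l 1) (.n 2 (.l 1) (.l 4)))) (.l 4)) (.n 2 (.n 2 (.n 0 (.l 1) (.n 1 (.l 1) (.l 4))) (.l 4)) (.l 4)))) (.l 4)))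
    [(1116691496960, 85899345920), (48103645184, 6871949312), (3728031612928, 120259084288)] rfl (by decide +kernel)
theorem c5_m2_t42 : CovD 0 progs [(1288490188800, 85899345920), (29205784576, 1717987328), (3728031612928, 120259084288)] :=
  Pool.Agent.helper14.QF.covD_F chks_eq (.n 2 (.n 2 (.l 1) (.n 0 (.n 2 (.l 1) (.n 0 (.l 4) (.l 4))) (.n 0 (.n 2 (.n 0 (.l 1) (.n 2 (.l 1) (.n 2 (.l 1) (.n 2 (.l 1) (.l 4))))) (.l 4)) (.l 3)))) (.l 4))
    [(1288490188800, 85899345920), (29205784576, 1717987328), (3728031612928, 120259084288)] rfl (by decide +kernel)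
end
mutual
theorem c5_m2_t43 : CovD 0 progs [(1288490188800, 85899345920), (32641759232, 1717987328), (3728031612928, 120259084288)] :=
  Pool.Agent.helper14.QF.covD_F chks_eq (.n 2 (.n 2 (.l 1) (.n 0 (.n 2 (.n 0 (.l 1) (.n 0 (.l 1) (.n 2 (.l 1) (.n 2 (.l 1) (.l 4))))) (.l 4)) (.n 0 (.n 2 (.n 2 (.l 1) (.n 2 (.n 0 (.l 1) (.n 1 (.l 1) (.l 4))) (.l 4))) (.l 4)) (.l 3)))) (.l 4))
    [(1288490188800, 85899345920), (32641759232, 1717987328), (3728031612928, 120259084288)] rfl (by decide +kernel)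
theorem c5_m2_t45 : CovD 0 progs [(1245540515840, 42949672960), (37795721216, 3435974656), (3667902070784, 60129542144)] :=
  Pool.Agent.helper14.QF.covD_F chks_eq (.n 2 (.l 1) (.n 2 (.n 2 (.l 1) (.n 0 (.n 2 (.l 1) (.n 1 (.l 4) (.l 4))) (.n 1 (.n 1 (.n 2 (.l 1) (.l 4)) (.n 0 (.l 4) (.l 4))) (.l 4)))) (.l 4)))
    [(1245540515840, 42949672960), (37795721216, 3435974656), (3667902070784, 60129542144)] rfl (by decide +kernel)
end
mutual
theorem c5_m2_t46 : CovD 0 progs [(1331439861760, 42949672960), (37795721216, 3435974656), (3667902070784, 60129542144)] :=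
  Pool.Agent.helper14.QF.covD_F chks_eq (.n 0 (.n 1 (.n 2 (.l 1) (.n 2 (.n 2 (.n 0 (.l 1) (.n 1 (.l 1) (.n 2 (.l 1) (.l 4)))) (.l 4)) (.l 4))) (.n 2 (.l 1) (.n 2 (.n 2 (.n 2 (.l 1) (.l 4)) (.l 4)) (.l 4)))) (.n 0 (.l 3) (.l 3)))
    [(1331439861760, 42949672960), (37795721216, 3435974656), (3667902070784, 60129542144)] rfl (by decide +kernel)
theorem c5_m2_t48 : CovD 0 progs [(1288490188800, 85899345920), (37795721216, 3435974656), (3788161155072, 60129542144)] :=
  Pool.Agent.helper14.QF.covD_F chks_eq (.l 4)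
    [(1288490188800, 85899345920), (37795721216, 3435974656), (3788161155072, 60129542144)] rfl (by decide +kernel)
end
mutual
theorem c5_m2_t51 : CovD 0 progs [(1245540515840, 42949672960), (44667670528, 3435974656), (3728031612928, 120259084288)] :=
  Pool.Agent.helper14.QF.covD_F chks_eq (.n 2 (.n 2 (.l 1) (.n 2 (.n 0 (.n 2 (.n 1 (.l 1) (.n 2 (.l 1) (.l 4))) (.l 4)) (.n 1 (.n 2 (.n 2 (.l 1) (.l 4)) (.l 4)) (.l 4))) (.l 4))) (.l 4))
    [(1245540515840, 42949672960), (44667670528, 3435974656), (3728031612928, 120259084288)] rfl (by decide +kernel)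
theorem c5_m2_t52 : CovD 0 progs [(1331439861760, 42949672960), (44667670528, 3435974656), (3728031612928, 120259084288)] :=
  Pool.Agent.helper14.QF.covD_F chks_eq (.n 1 (.n 2 (.n 2 (.n 0 (.l 1) (.n 0 (.n 2 (.l 1) (.n 2 (.l 1) (.n 2 (.l 1) (.l 4)))) (.l 3))) (.n 0 (.l 4) (.l 4))) (.l 4)) (.n 2 (.n 2 (.n 2 (.l 1) (.n 0 (.n 2 (.l 1) (.n 2 (.l 1) (.l 4))) (.n 0 (.n 2 (.l 1) (.l 4)) (.l 3)))) (.l 4)) (.l 4)))
    [(1331439861760, 42949672960), (44667670528, 3435974656), (3728031612928, 120259084288)] rfl (by decide +kernel)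
end
mutual
theorem c5_m2_t54 : CovD 0 progs [(1288490188800, 85899345920), (51539619840, 3435974656), (3728031612928, 120259084288)] :=
  Pool.Agent.helper14.QF.covD_F chks_eq (.n 2 (.n 0 (.n 0 (.n 2 (.l 1) (.l 4)) (.n 2 (.n 2 (.l 1) (.n 2 (.l 1) (.n 0 (.n 1 (.l 1) (.l 4)) (.l 4)))) (.l 4))) (.n 2 (.n 0 (.n 2 (.l 1) (.n 1 (.n 2 (.l 1) (.l 4)) (.l 4))) (.n 0 (.n 2 (.l 1) (.l 4)) (.l 3))) (.l 4))) (.l 4))
    [(1288490188800, 85899345920), (51539619840, 3435974656), (3728031612928, 120259084288)] rfl (by decide +kernel)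
theorem c5_m2_t59 : CovD 0 progs [(1116691496960, 85899345920), (61847543808, 6871949312), (3728031612928, 120259084288)] :=
  Pool.Agent.helper14.QF.covD_F chks_eq (.n 0 (.n 2 (.n 2 (.l 1) (.n 2 (.n 0 (.n 2 (.l 1) (.n 0 (.l 4) (.l 4))) (.n 1 (.n 2 (.l 1) (.l 4)) (.l 4))) (.l 4))) (.l 4)) (.n 1 (.n 2 (.n 0 (.n 2 (.l 1) (.l 4)) (.n 2 (.l 1) (.l 4))) (.l 4)) (.n 2 (.n 2 (.n 2 (.l 1) (.n 2 (.l 1) (.n 0 (.l 4) (.l 4)))) (.l 4)) (.l 4))))
    [(1116691496960, 85899345920), (61847543808, 6871949312), (3728031612928, 120259084288)] rfl (by decide +kernel)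
end
mutual
theorem c5_m2_t60 : CovD 0 progs [(1116691496960, 85899345920), (72155467776, 3435974656), (3728031612928, 120259084288)] :=
  Pool.Agent.helper14.QF.covD_F chks_eq (.n 2 (.n 0 (.n 2 (.n 0 (.l 1) (.n 1 (.l 1) (.n 2 (.l 1) (.l 4)))) (.l 4)) (.n 2 (.n 0 (.n 2 (.l 1) (.l 4)) (.n 1 (.n 2 (.l 1) (.l 4)) (.l 4))) (.l 4))) (.l 4))
    [(1116691496960, 85899345920), (72155467776, 3435974656), (3728031612928, 120259084288)] rfl (by decide +kernel)
theorem c5_m2_t61 : CovD 0 progs [(1116691496960, 85899345920), (79027417088, 3435974656), (3728031612928, 120259084288)] :=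
  Pool.Agent.helper14.QF.covD_F chks_eq (.n 2 (.n 2 (.n 0 (.n 0 (.n 0 (.l 1) (.l 1)) (.n 2 (.n 1 (.l 1) (.n 0 (.n 0 (.l 1) (.l 2)) (.l 2))) (.l 4))) (.n 0 (.n 0 (.n 1 (.n 0 (.n 2 (.l 1) (.l 4)) (.l 4)) (.l 2)) (.l 2)) (.l 2))) (.l 4)) (.l 4))
    [(1116691496960, 85899345920), (79027417088, 3435974656), (3728031612928, 120259084288)] rfl (by decide +kernel)
end
mutual
theorem c5_m2_t64 : CovD 0 progs [(1116691496960, 85899345920), (96207290368, 13743898624), (3728031612928, 120259084288)] :=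
  Pool.Agent.helper14.QF.covD_F chks_eq (.n 0 (.n 0 (.n 0 (.n 1 (.n 1 (.n 1 (.n 2 (.n 2 (.l 1) (.l 4)) (.l 4)) (.l 2)) (.l 2)) (.l 2)) (.l 2)) (.l 2)) (.l 2))
    [(1116691496960, 85899345920), (96207290368, 13743898624), (3728031612928, 120259084288)] rfl (by decide +kernel)
theorem c5_m2_t66 : CovD 0 progs [(1288490188800, 85899345920), (61847543808, 6871949312), (3728031612928, 120259084288)] :=
  Pool.Agent.helper14.QF.covD_F chks_eq (.n 1 (.n 2 (.n 2 (.n 0 (.n 2 (.l 1) (.n 0 (.n 2 (.l 1) (.l 4)) (.l 4))) (.n 2 (.n 0 (.n 1 (.l 1) (.n 2 (.l 1) (.l 4))) (.n 1 (.n 2 (.l 1) (.l 4)) (.l 4))) (.l 4))) (.l 4)) (.l 4)) (.n 0 (.n 2 (.n 2 (.n 2 (.n 0 (.l 1) (.n 0 (.n 1 (.l 1) (.l 4)) (.l 4))) (.l 4)) (.l 4)) (.l 4)) (.l 4)))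
    [(1288490188800, 85899345920), (61847543808, 6871949312), (3728031612928, 120259084288)] rfl (by decide +kernel)
end
mutual
theorem c5_m2_t67 : CovD 0 progs [(1288490188800, 85899345920), (75591442432, 6871949312), (3728031612928, 120259084288)] :=
  Pool.Agent.helper14.QF.covD_F chks_eq (.n 0 (.n 0 (.n 1 (.l 4) (.l 2)) (.l 4)) (.l 2))
    [(1288490188800, 85899345920), (75591442432, 6871949312), (3728031612928, 120259084288)] rfl (by decide +kernel)
theorem c5_m2_t69 : CovD 0 progs [(1288490188800, 85899345920), (96207290368, 13743898624), (3728031612928, 120259084288)] :=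
  Pool.Agent.helper14.QF.covD_F chks_eq (.l 2)
    [(1288490188800, 85899345920), (96207290368, 13743898624), (3728031612928, 120259084288)] rfl (by decide +kernel)
end
mutual
theorem c6_m0_t0 : CovD 0 progs [(730144440320, 42949672960), (137438953472, 27487830016), (962072674304, 962072674304)] :=
  Pool.Agent.helper14.QF.covD_F chks_eq (.n 0 (.n 1 (.n 0 (.n 0 (.n 1 (.l 1) (.n 0 (.n 1 (.l 1) (.l 2)) (.l 2))) (.n 1 (.l 1) (.l 2))) (.n 1 (.l 1) (.l 2))) (.l 2)) (.n 1 (.n 1 (.n 0 (.n 1 (.l 1) (.n 1 (.l 1) (.l 2))) (.n 1 (.l 1) (.l 2))) (.l 2)) (.l 2)))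
    [(730144440320, 42949672960), (137438953472, 27487830016), (962072674304, 962072674304)] rfl (by decide +kernel)
theorem c6_m0_t1 : CovD 0 progs [(816043786240, 42949672960), (137438953472, 27487830016), (962072674304, 962072674304)] :=
  Pool.Agent.helper14.QF.covD_F chks_eq (.n 0 (.n 0 (.n 0 (.n 0 (.n 1 (.n 1 (.n 1 (.l 1) (.l 2)) (.l 2)) (.l 2)) (.n 0 (.l 2) (.l 2))) (.l 2)) (.l 2)) (.l 2))
    [(816043786240, 42949672960), (137438953472, 27487830016), (962072674304, 962072674304)] rfl (by decide +kernel)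
end
mutual
theorem c6_m0_t3 : CovD 0 progs [(944892805120, 85899345920), (137438953472, 27487830016), (962072674304, 962072674304)] :=
  Pool.Agent.helper14.QF.covD_F chks_eq (.l 2)
    [(944892805120, 85899345920), (137438953472, 27487830016), (962072674304, 962072674304)] rfl (by decide +kernel)
theorem c6_m0_t5 : CovD 0 progs [(858993459200, 171798691840), (192414613504, 27487830016), (962072674304, 962072674304)] :=
  Pool.Agent.helper14.QF.covD_F chks_eq (.l 2)
    [(858993459200, 171798691840), (192414613504, 27487830016), (962072674304, 962072674304)] rfl (by decide +kernel)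
end
mutual
theorem c6_m0_t7 : CovD 0 progs [(1202590842880, 171798691840), (164926783488, 54975660032), (962072674304, 962072674304)] :=
  Pool.Agent.helper14.QF.covD_F chks_eq (.l 2)
    [(1202590842880, 171798691840), (164926783488, 54975660032), (962072674304, 962072674304)] rfl (by decide +kernel)
theorem c7_m0_t0 : CovD 0 progs [(708669603840, 21474836480), (137438953472, 27487830016), (2886218022912, 962072674304)] :=
  Pool.Agent.helper14.QF.covD_F chks_eq (.n 1 (.n 1 (.n 2 (.l 1) (.n 2 (.l 1) (.n 2 (.l 1) (.n 2 (.n 2 (.l 1) (.n 2 (.l 1) (.l 4))) (.l 4))))) (.n 0 (.n 0 (.n 0 (.n 1 (.n 1 (.n 1 (.n 2 (.l 1) (.n 2 (.l 1) (.n 2 (.l 1) (.n 2 (.n 2 (.l 1) (.n 2 (.l 1) (.l 4))) (.l 4))))) (.l 2)) (.l 2)) (.l 2)) (.l 2)) (.l 2)) (.l 2))) (.l 2))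
    [(708669603840, 21474836480), (137438953472, 27487830016), (2886218022912, 962072674304)] rfl (by decide +kernel)
end
mutual
theorem c7_m0_t1 : CovD 0 progs [(751619276800, 21474836480), (137438953472, 27487830016), (2886218022912, 962072674304)] :=
  Pool.Agent.helper14.QF.covD_F chks_eq (.n 1 (.n 1 (.n 1 (.n 2 (.l 1) (.n 2 (.l 1) (.n 2 (.l 1) (.n 2 (.n 2 (.l 1) (.n 2 (.l 1) (.l 4))) (.l 4))))) (.n 0 (.n 1 (.n 0 (.n 1 (.n 2 (.l 1) (.n 2 (.l 1) (.n 2 (.l 1) (.n 2 (.n 2 (.l 1) (.l 4)) (.l 4))))) (.l 2)) (.l 2)) (.l 2)) (.l 2))) (.l 2)) (.l 2))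
    [(751619276800, 21474836480), (137438953472, 27487830016), (2886218022912, 962072674304)] rfl (by decide +kernel)
theorem c7_m0_t3 : CovD 0 progs [(816043786240, 42949672960), (137438953472, 27487830016), (2886218022912, 962072674304)] :=
  Pool.Agent.helper14.QF.covD_F chks_eq (.n 0 (.n 0 (.n 0 (.n 0 (.n 1 (.n 1 (.n 1 (.n 1 (.n 1 (.n 2 (.l 1) (.n 2 (.l 1) (.n 2 (.l 1) (.n 2 (.n 2 (.l 1) (.l 4)) (.l 4))))) (.l 2)) (.l 2)) (.l 2)) (.l 2)) (.l 2)) (.n 0 (.l 2) (.l 2))) (.l 2)) (.l 2)) (.l 2))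
    [(816043786240, 42949672960), (137438953472, 27487830016), (2886218022912, 962072674304)] rfl (by decide +kernel)
end
mutual
theorem c7_m0_t5 : CovD 0 progs [(944892805120, 85899345920), (137438953472, 27487830016), (2886218022912, 962072674304)] :=
  Pool.Agent.helper14.QF.covD_F chks_eq (.l 2)
    [(944892805120, 85899345920), (137438953472, 27487830016), (2886218022912, 962072674304)] rfl (by decide +kernel)
theorem c7_m0_t7 : CovD 0 progs [(858993459200, 171798691840), (192414613504, 27487830016), (2886218022912, 962072674304)] :=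
  Pool.Agent.helper14.QF.covD_F chks_eq (.l 2)
    [(858993459200, 171798691840), (192414613504, 27487830016), (2886218022912, 962072674304)] rfl (by decide +kernel)
theorem c7_m0_t9 : CovD 0 progs [(1202590842880, 171798691840), (164926783488, 54975660032), (2886218022912, 962072674304)] :=
  Pool.Agent.helper14.QF.covD_F chks_eq (.l 2)
    [(1202590842880, 171798691840), (164926783488, 54975660032), (2886218022912, 962072674304)] rfl (by decide +kernel)
end

theorem c5_m2_t3 : CovD 0 progs [(944892805120, 85899345920), (54975594496, 54975594496), (3487513444352, 120259084288)] :=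
  covD_split 0 (by decide +kernel) c5_m2_t1 c5_m2_t2
theorem c5_m2_t4 : CovD 0 progs [(858993459200, 171798691840), (54975594496, 54975594496), (3487513444352, 120259084288)] :=
  covD_split 0 (by decide +kernel) c5_m2_t0 c5_m2_t3
theorem c5_m2_t8 : CovD 0 progs [(1116691496960, 85899345920), (82463391744, 27487797248), (3487513444352, 120259084288)] :=
  covD_split 1 (by decide +kernel) c5_m2_t6 c5_m2_t7
theorem c5_m2_t9 : CovD 0 progs [(1116691496960, 85899345920), (54975594496, 54975594496), (3487513444352, 120259084288)] :=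
  covD_split 1 (by decide +kernel) c5_m2_t5 c5_m2_t8
theorem c5_m2_t14 : CovD 0 progs [(1288490188800, 85899345920), (65283518464, 3435974656), (3487513444352, 120259084288)] :=
  covD_split 1 (by decide +kernel) c5_m2_t12 c5_m2_t13
theorem c5_m2_t15 : CovD 0 progs [(1288490188800, 85899345920), (61847543808, 6871949312), (3487513444352, 120259084288)] :=
  covD_split 1 (by decide +kernel) c5_m2_t11 c5_m2_t14
theorem c5_m2_t17 : CovD 0 progs [(1288490188800, 85899345920), (68719493120, 13743898624), (3487513444352, 120259084288)] :=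
  covD_split 1 (by decide +kernel) c5_m2_t15 c5_m2_t16
theorem c5_m2_t19 : CovD 0 progs [(1288490188800, 85899345920), (82463391744, 27487797248), (3487513444352, 120259084288)] :=
  covD_split 1 (by decide +kernel) c5_m2_t17 c5_m2_t18
theorem c5_m2_t20 : CovD 0 progs [(1288490188800, 85899345920), (54975594496, 54975594496), (3487513444352, 120259084288)] :=
  covD_split 1 (by decide +kernel) c5_m2_t10 c5_m2_t19
theorem c5_m2_t21 : CovD 0 progs [(1202590842880, 171798691840), (54975594496, 54975594496), (3487513444352, 120259084288)] :=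
  covD_split 0 (by decide +kernel) c5_m2_t9 c5_m2_t20
theorem c5_m2_t22 : CovD 0 progs [(1030792151040, 343597383680), (54975594496, 54975594496), (3487513444352, 120259084288)] :=
  covD_split 0 (by decide +kernel) c5_m2_t4 c5_m2_t21
theorem c5_m2_t28 : CovD 0 progs [(944892805120, 85899345920), (96207290368, 13743898624), (3667902070784, 60129542144)] :=
  covD_split 0 (by decide +kernel) c5_m2_t26 c5_m2_t27
theorem c5_m2_t30 : CovD 0 progs [(944892805120, 85899345920), (96207290368, 13743898624), (3728031612928, 120259084288)] :=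
  covD_split 2 (by decide +kernel) c5_m2_t28 c5_m2_t29
theorem c5_m2_t31 : CovD 0 progs [(944892805120, 85899345920), (82463391744, 27487797248), (3728031612928, 120259084288)] :=
  covD_split 1 (by decide +kernel) c5_m2_t25 c5_m2_t30
theorem c5_m2_t32 : CovD 0 progs [(858993459200, 171798691840), (82463391744, 27487797248), (3728031612928, 120259084288)] :=
  covD_split 0 (by decide +kernel) c5_m2_t24 c5_m2_t31
theorem c5_m2_t33 : CovD 0 progs [(858993459200, 171798691840), (54975594496, 54975594496), (3728031612928, 120259084288)] :=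
  covD_split 1 (by decide +kernel) c5_m2_t23 c5_m2_t32
theorem c5_m2_t36 : CovD 0 progs [(1202590842880, 171798691840), (13743898624, 13743898624), (3667902070784, 60129542144)] :=
  covD_split 0 (by decide +kernel) c5_m2_t34 c5_m2_t35
theorem c5_m2_t38 : CovD 0 progs [(1202590842880, 171798691840), (13743898624, 13743898624), (3728031612928, 120259084288)] :=
  covD_split 2 (by decide +kernel) c5_m2_t36 c5_m2_t37
theorem c5_m2_t41 : CovD 0 progs [(1116691496960, 85899345920), (41231695872, 13743898624), (3728031612928, 120259084288)] :=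
  covD_split 1 (by decide +kernel) c5_m2_t39 c5_m2_t40
theorem c5_m2_t44 : CovD 0 progs [(1288490188800, 85899345920), (30923771904, 3435974656), (3728031612928, 120259084288)] :=
  covD_split 1 (by decide +kernel) c5_m2_t42 c5_m2_t43
theorem c5_m2_t47 : CovD 0 progs [(1288490188800, 85899345920), (37795721216, 3435974656), (3667902070784, 60129542144)] :=
  covD_split 0 (by decide +kernel) c5_m2_t45 c5_m2_t46
theorem c5_m2_t49 : CovD 0 progs [(1288490188800, 85899345920), (37795721216, 3435974656), (3728031612928, 120259084288)] :=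
  covD_split 2 (by decide +kernel) c5_m2_t47 c5_m2_t48
theorem c5_m2_t50 : CovD 0 progs [(1288490188800, 85899345920), (34359746560, 6871949312), (3728031612928, 120259084288)] :=
  covD_split 1 (by decide +kernel) c5_m2_t44 c5_m2_t49
theorem c5_m2_t53 : CovD 0 progs [(1288490188800, 85899345920), (44667670528, 3435974656), (3728031612928, 120259084288)] :=
  covD_split 0 (by decide +kernel) c5_m2_t51 c5_m2_t52
theorem c5_m2_t55 : CovD 0 progs [(1288490188800, 85899345920), (48103645184, 6871949312), (3728031612928, 120259084288)] :=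
  covD_split 1 (by decide +kernel) c5_m2_t53 c5_m2_t54
theorem c5_m2_t56 : CovD 0 progs [(1288490188800, 85899345920), (41231695872, 13743898624), (3728031612928, 120259084288)] :=
  covD_split 1 (by decide +kernel) c5_m2_t50 c5_m2_t55
theorem c5_m2_t57 : CovD 0 progs [(1202590842880, 171798691840), (41231695872, 13743898624), (3728031612928, 120259084288)] :=
  covD_split 0 (by decide +kernel) c5_m2_t41 c5_m2_t56
theorem c5_m2_t58 : CovD 0 progs [(1202590842880, 171798691840), (27487797248, 27487797248), (3728031612928, 120259084288)] :=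
  covD_split 1 (by decide +kernel) c5_m2_t38 c5_m2_t57
theorem c5_m2_t62 : CovD 0 progs [(1116691496960, 85899345920), (75591442432, 6871949312), (3728031612928, 120259084288)] :=
  covD_split 1 (by decide +kernel) c5_m2_t60 c5_m2_t61
theorem c5_m2_t63 : CovD 0 progs [(1116691496960, 85899345920), (68719493120, 13743898624), (3728031612928, 120259084288)] :=
  covD_split 1 (by decide +kernel) c5_m2_t59 c5_m2_t62
theorem c5_m2_t65 : CovD 0 progs [(1116691496960, 85899345920), (82463391744, 27487797248), (3728031612928, 120259084288)] :=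
  covD_split 1 (by decide +kernel) c5_m2_t63 c5_m2_t64
theorem c5_m2_t68 : CovD 0 progs [(1288490188800, 85899345920), (68719493120, 13743898624), (3728031612928, 120259084288)] :=
  covD_split 1 (by decide +kernel) c5_m2_t66 c5_m2_t67
theorem c5_m2_t70 : CovD 0 progs [(1288490188800, 85899345920), (82463391744, 27487797248), (3728031612928, 120259084288)] :=
  covD_split 1 (by decide +kernel) c5_m2_t68 c5_m2_t69
theorem c5_m2_t71 : CovD 0 progs [(1202590842880, 171798691840), (82463391744, 27487797248), (3728031612928, 120259084288)] :=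
  covD_split 0 (by decide +kernel) c5_m2_t65 c5_m2_t70
theorem c5_m2_t72 : CovD 0 progs [(1202590842880, 171798691840), (54975594496, 54975594496), (3728031612928, 120259084288)] :=
  covD_split 1 (by decide +kernel) c5_m2_t58 c5_m2_t71
theorem c5_m2_t73 : CovD 0 progs [(1030792151040, 343597383680), (54975594496, 54975594496), (3728031612928, 120259084288)] :=
  covD_split 0 (by decide +kernel) c5_m2_t33 c5_m2_t72
theorem c5_m2 : CovD 0 progs [(1030792151040, 343597383680), (54975594496, 54975594496), (3607772528640, 240518168576)] :=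
  covD_split 2 (by decide +kernel) c5_m2_t22 c5_m2_t73
theorem c6_m0_t2 : CovD 0 progs [(773094113280, 85899345920), (137438953472, 27487830016), (962072674304, 962072674304)] :=
  covD_split 0 (by decide +kernel) c6_m0_t0 c6_m0_t1
theorem c6_m0_t4 : CovD 0 progs [(858993459200, 171798691840), (137438953472, 27487830016), (962072674304, 962072674304)] :=
  covD_split 0 (by decide +kernel) c6_m0_t2 c6_m0_t3
theorem c6_m0_t6 : CovD 0 progs [(858993459200, 171798691840), (164926783488, 54975660032), (962072674304, 962072674304)] :=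
  covD_split 1 (by decide +kernel) c6_m0_t4 c6_m0_t5
theorem c6_m0 : CovD 0 progs [(1030792151040, 343597383680), (164926783488, 54975660032), (962072674304, 962072674304)] :=
  covD_split 0 (by decide +kernel) c6_m0_t6 c6_m0_t7
theorem c7_m0_t2 : CovD 0 progs [(730144440320, 42949672960), (137438953472, 27487830016), (2886218022912, 962072674304)] :=
  covD_split 0 (by decide +kernel) c7_m0_t0 c7_m0_t1
theorem c7_m0_t4 : CovD 0 progs [(773094113280, 85899345920), (137438953472, 27487830016), (2886218022912, 962072674304)] :=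
  covD_split 0 (by decide +kernel) c7_m0_t2 c7_m0_t3
theorem c7_m0_t6 : CovD 0 progs [(858993459200, 171798691840), (137438953472, 27487830016), (2886218022912, 962072674304)] :=
  covD_split 0 (by decide +kernel) c7_m0_t4 c7_m0_t5
theorem c7_m0_t8 : CovD 0 progs [(858993459200, 171798691840), (164926783488, 54975660032), (2886218022912, 962072674304)] :=
  covD_split 1 (by decide +kernel) c7_m0_t6 c7_m0_t7
theorem c7_m0 : CovD 0 progs [(1030792151040, 343597383680), (164926783488, 54975660032), (2886218022912, 962072674304)] :=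
  covD_split 0 (by decide +kernel) c7_m0_t8 c7_m0_t9

end Pool.Agent.helper31.EQB.Cert.LB4
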