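import Pool.Agent.helper31.IC.EngD
import Pool.Agent.helper14.QF.Inst

/-!
Generated: straight line program(s) and compiled form(s).
-/

namespace Pool.Agent.helper31.EQB.Cert.MA

open Pool.Agent.helper31.IA (Z Op)
open Pool.Agent.helper31.IC

set_option maxRecDepth 100000

abbrev opsE : Ops := Pool.Agent.helper14.QF.opsF

def prog0 : List Op := [
  .mul 0 0,
  .const ⟨1099243192320, 0, 0, 0⟩,
  .scale ⟨3111703805952, 0, 0, 0⟩ 2,
  .sub 1 0,
  .scale ⟨32985348833280, 0, 0, 0⟩ 3,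
  .sub 1 0,
  .scale ⟨1556388773888, 0, 0, 0⟩ 6,
  .sub 5 0,
  .scale ⟨26388279066624, 0, 0, 0⟩ 7,
  .sub 1 0,
  .const ⟨1099511627776, 0, 0, 0⟩,
  .mul 1 1,
  .inv 2,
  .pos 3,
  .const ⟨769657929728, 0, 0, 0⟩,
  .sub 8 0,
  .const ⟨1073741824, 0, 0, 0⟩,
  .sub 1 0,
  .pos 0,
  .const ⟨659707396096, 0, 0, 0⟩,
  .sub 6 0,
  .pos 0,
  .const ⟨1099456053248, 0, 0, 0⟩,
  .scale ⟨13194139533312, 0, 0, 0⟩ 19,
  .sub 1 0,
  .mul 16 0,
  .sub 0 11,
  .pos 0,
  .scale ⟨2199023255552, 0, 0, 0⟩ 23,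
  .scale ⟨4617949675520, 0, 0, 0⟩ 24,
  .const ⟨110100480, 0, 0, 0⟩,
  .add 1 0,
  .add 3 0,
  .const ⟨18874368, 0, 0, 0⟩,
  .add 1 0,
  .mul 31 18,
  .scale ⟨17592186044416, 0, 0, 0⟩ 31,
  .add 0 22,
  .mul 2 0,
  .scale ⟨3109889769472, 0, 0, 0⟩ 0,
  .add 5 0,
  .scale ⟨13084188999680, 0, 0, 0⟩ 36,
  .add 1 0,
  .add 0 33,
  .neg 0,
  .add 0 30,
  .pos 0]

def chk0 {α : Type} (cst : Z → α) (add sub mul : α → α → α) (scale : Z → α → α)
    (neg inv exp log : α → α) (ok : α → Bool) (isPos : Nat → α → Bool) (isLt : α → Nat → Bool) :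
    List α → Bool
  | [x0] =>
  let v0 := mul x0 x0; ok v0 && (
  let v1 := cst ⟨1099243192320, 0, 0, 0⟩; ok v1 && (
  let v2 := scale ⟨3111703805952, 0, 0, 0⟩ x0; ok v2 && (
  let v3 := sub v1 v2; ok v3 && (
  let v4 := scale ⟨32985348833280, 0, 0, 0⟩ v0; ok v4 && (
  let v5 := sub v3 v4; ok v5 && (
  let v6 := scale ⟨1556388773888, 0, 0, 0⟩ x0; ok v6 && (
  let v7 := sub v1 v6; ok v7 && (
  let v8 := scale ⟨26388279066624, 0, 0, 0⟩ v0; ok v8 && (
  let v9 := sub v7 v8; ok v9 && (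
  let v10 := cst ⟨1099511627776, 0, 0, 0⟩; ok v10 && (
  let v11 := mul v9 v9; ok v11 && (
  let v12 := inv v9; ok v12 && (
  isPos 1 v9 && (
  let v13 := cst ⟨769657929728, 0, 0, 0⟩; ok v13 && (
  let v14 := sub v5 v13; ok v14 && (
  let v15 := cst ⟨1073741824, 0, 0, 0⟩; ok v15 && (
  let v16 := sub v14 v15; ok v16 && (
  isPos 1 v16 && (
  let v17 := cst ⟨659707396096, 0, 0, 0⟩; ok v17 && (
  let v18 := sub v11 v17; ok v18 && (
  isPos 1 v18 && (
  let v19 := cst ⟨1099456053248, 0, 0, 0⟩; ok v19 && (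
  let v20 := scale ⟨13194139533312, 0, 0, 0⟩ v0; ok v20 && (
  let v21 := sub v19 v20; ok v21 && (
  let v22 := mul v5 v21; ok v22 && (
  let v23 := sub v22 v11; ok v23 && (
  isPos 1 v23 && (
  let v24 := scale ⟨2199023255552, 0, 0, 0⟩ v0; ok v24 && (
  let v25 := scale ⟨4617949675520, 0, 0, 0⟩ v0; ok v25 && (
  let v26 := cst ⟨110100480, 0, 0, 0⟩; ok v26 && (
  let v27 := add v25 v26; ok v27 && (
  let v28 := add v24 v27; ok v28 && (
  let v29 := cst ⟨18874368, 0, 0, 0⟩; ok v29 && (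
  let v30 := add v28 v29; ok v30 && (
  let v31 := mul x0 v12; ok v31 && (
  let v32 := scale ⟨17592186044416, 0, 0, 0⟩ v0; ok v32 && (
  let v33 := add v32 v10; ok v33 && (
  let v34 := mul v31 v33; ok v34 && (
  let v35 := scale ⟨3109889769472, 0, 0, 0⟩ v34; ok v35 && (
  let v36 := add v30 v35; ok v36 && (
  let v37 := scale ⟨13084188999680, 0, 0, 0⟩ v0; ok v37 && (
  let v38 := add v36 v37; ok v38 && (
  let v39 := add v38 v5; ok v39 && (
  let v40 := neg v39; ok v40 && (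
  let v41 := add v40 v10; ok v41 && (
  isPos 1 v41 && (
  true)))))))))))))))))))))))))))))))))))))))))))))))
  | _ => false

set_option maxRecDepth 1000000 in
theorem chk0_eq (O : Ops) (m : List O.α)
    (h : chk0 O.cst O.add O.sub O.mul O.scale O.neg O.inv O.exp O.log O.ok O.isPos O.isLt m = true) :
    runG O 1 prog0 m = true := by
  match m, h with
  | [x0], h => exact h

def chkB0 : List opsE.α → Bool :=
  chk0 opsE.cst opsE.add opsE.sub opsE.mul opsE.scale opsE.neg opsE.inv opsE.exp opsE.log opsE.ok opsE.isPos opsE.isLt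

theorem chkB0_eq (m : List opsE.α) (h : chkB0 m = true) : runG opsE 1 prog0 m = true :=
  chk0_eq opsE m h

def progs : List (List Op) := [prog0]

def chks : List (List opsE.α → Bool) := [chkB0]

theorem chks_eq : List.Forall₂ (fun (ops : List Op) (chk : List opsE.α → Bool) =>
    ∀ m, chk m = true → runG opsE 1 ops m = true) progs chks :=
  List.Forall₂.cons chkB0_eq List.Forall₂.nil

end Pool.Agent.helper31.EQB.Cert.MA
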