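import Pool.Agent.helper31.EQB.Cert.MAP

/-!
Generated certificates.
-/

namespace Pool.Agent.helper31.EQB.Cert.MA

open Pool.Agent.helper31.IA (Z Op)
open Pool.Agent.helper31.IC

theorem c0_m0 : CovD 0 progs [(24629084160, 24629084160)] :=
  Pool.Agent.helper14.QF.covD_F chks_eq (.n 0 (.n 0 (.n 0 (.l 0) (.l 0)) (.l 0)) (.l 0))
    [(24629084160, 24629084160)] rfl (by decide +kernel)


end Pool.Agent.helper31.EQB.Cert.MA
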