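import Pool.Agent.helper31.EQB.Cert.MB_0

/-!
Generated certificates, assembled.
-/

namespace Pool.Agent.helper31.EQB.Cert.MB

open Pool.Agent.helper31.IA (Z Op)
open Pool.Agent.helper31.IC

theorem c0_all : CovD 0 progs [(343597383680, 343597383680), (54975594496, 54975594496)] := c0_m0

theorem c1_all : CovD 0 progs [(343597383680, 343597383680), (164926783488, 54975660032)] := c1_m0

theorem c2_all : CovD 0 progs [(1030792151040, 343597383680), (54975594496, 54975594496)] := c2_m0

theorem c3_all : CovD 0 progs [(1030792151040, 343597383680), (164926783488, 54975660032)] := c3_m0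

end Pool.Agent.helper31.EQB.Cert.MB
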