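import Pool.Agent.helper31.IC.EngD
import Pool.Agent.helper14.QF.Inst

/-!
Generated: straight line program(s) and compiled form(s).
-/

namespace Pool.Agent.helper31.EQB.Cert.MB

open Pool.Agent.helper31.IA (Z Op)
open Pool.Agent.helper31.IC

set_option maxRecDepth 100000

abbrev opsE : Ops := Pool.Agent.helper14.QF.opsF

def prog0 : List Op := [
  .const ⟨1099511627776, 0, 0, 0⟩,
  .const ⟨3298534883328, 0, 0, 0⟩,
  .inv 0,
  .mul 2 0,
  .mul 4 5,
  .mul 0 0,
  .mul 6 1,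
  .mul 0 0,
  .const ⟨6597069766656, 0, 0, 0⟩,
  .inv 0,
  .mul 9 0,
  .mul 3 0,
  .sub 11 0,
  .mul 6 0,
  .scale ⟨3848290697216, 0, 0, 0⟩ 15,
  .mul 0 0,
  .const ⟨549755813888, 0, 0, 0⟩,
  .scale ⟨137438953472, 0, 0, 0⟩ 1,
  .sub 1 0,
  .mul 3 0,
  .add 19 0,
  .inv 0,
  .mul 7 0,
  .mul 0 0,
  .mul 1 19,
  .const ⟨1099243192320, 0, 0, 0⟩,
  .scale ⟨3111703805952, 0, 0, 0⟩ 1,
  .sub 1 0,
  .scale ⟨25288767438848, 0, 0, 0⟩ 22,
  .sub 1 0,
  .scale ⟨549755813888, 0, 0, 0⟩ 22,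
  .sub 1 0,
  .scale ⟨1556388773888, 0, 0, 0⟩ 7,
  .sub 7 0,
  .scale ⟨20890720927744, 0, 0, 0⟩ 28,
  .sub 1 0,
  .scale ⟨593779228672, 0, 0, 0⟩ 28,
  .sub 1 0,
  .mul 0 0,
  .inv 1,
  .pos 2,
  .const ⟨769657929728, 0, 0, 0⟩,
  .sub 9 0,
  .const ⟨1073741824, 0, 0, 0⟩,
  .sub 1 0,
  .pos 0,
  .const ⟨659707396096, 0, 0, 0⟩,
  .sub 6 0,
  .pos 0,
  .sub 45 15,
  .scale ⟨13194139533312, 0, 0, 0⟩ 41,
  .sub 1 0,
  .mul 17 0,
  .sub 0 11,
  .pos 0,
  .scale ⟨2199023255552, 0, 0, 0⟩ 45,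
  .scale ⟨4617949675520, 0, 0, 0⟩ 46,
  .add 45 0,
  .mul 0 30,
  .add 3 0,
  .scale ⟨183252287488, 0, 0, 0⟩ 48,
  .add 1 0,
  .mul 33 18,
  .scale ⟨17592186044416, 0, 0, 0⟩ 53,
  .add 0 59,
  .mul 2 0,
  .scale ⟨3109889769472, 0, 0, 0⟩ 0,
  .add 5 0,
  .scale ⟨13084188999680, 0, 0, 0⟩ 58,
  .add 1 0,
  .add 0 34,
  .neg 0,
  .add 0 67,
  .pos 0]

def chk0 {α : Type} (cst : Z → α) (add sub mul : α → α → α) (scale : Z → α → α)
    (neg inv exp log : α → α) (ok : α → Bool) (isPos : Nat → α → Bool) (isLt : α → Nat → Bool) :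
    List α → Bool
  | [x0, x1] =>
  let v0 := cst ⟨1099511627776, 0, 0, 0⟩; ok v0 && (
  let v1 := cst ⟨3298534883328, 0, 0, 0⟩; ok v1 && (
  let v2 := inv v1; ok v2 && (
  let v3 := mul v0 v2; ok v3 && (
  let v4 := mul x0 x1; ok v4 && (
  let v5 := mul v4 v4; ok v5 && (
  let v6 := mul x0 v4; ok v6 && (
  let v7 := mul v6 v6; ok v7 && (
  let v8 := cst ⟨6597069766656, 0, 0, 0⟩; ok v8 && (
  let v9 := inv v8; ok v9 && (
  let v10 := mul v0 v9; ok v10 && (
  let v11 := mul v7 v10; ok v11 && (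
  let v12 := sub v0 v11; ok v12 && (
  let v13 := mul v6 v12; ok v13 && (
  let v14 := scale ⟨3848290697216, 0, 0, 0⟩ x1; ok v14 && (
  let v15 := mul v14 v14; ok v15 && (
  let v16 := cst ⟨549755813888, 0, 0, 0⟩; ok v16 && (
  let v17 := scale ⟨137438953472, 0, 0, 0⟩ v15; ok v17 && (
  let v18 := sub v16 v17; ok v18 && (
  let v19 := mul v15 v18; ok v19 && (
  let v20 := add v0 v19; ok v20 && (
  let v21 := inv v20; ok v21 && (
  let v22 := mul v14 v21; ok v22 && (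
  let v23 := mul v22 v22; ok v23 && (
  let v24 := mul v22 v4; ok v24 && (
  let v25 := cst ⟨1099243192320, 0, 0, 0⟩; ok v25 && (
  let v26 := scale ⟨3111703805952, 0, 0, 0⟩ v24; ok v26 && (
  let v27 := sub v25 v26; ok v27 && (
  let v28 := scale ⟨25288767438848, 0, 0, 0⟩ v5; ok v28 && (
  let v29 := sub v27 v28; ok v29 && (
  let v30 := scale ⟨549755813888, 0, 0, 0⟩ v7; ok v30 && (
  let v31 := sub v29 v30; ok v31 && (
  let v32 := scale ⟨1556388773888, 0, 0, 0⟩ v24; ok v32 && (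
  let v33 := sub v25 v32; ok v33 && (
  let v34 := scale ⟨20890720927744, 0, 0, 0⟩ v5; ok v34 && (
  let v35 := sub v33 v34; ok v35 && (
  let v36 := scale ⟨593779228672, 0, 0, 0⟩ v7; ok v36 && (
  let v37 := sub v35 v36; ok v37 && (
  let v38 := mul v37 v37; ok v38 && (
  let v39 := inv v37; ok v39 && (
  isPos 2 v37 && (
  let v40 := cst ⟨769657929728, 0, 0, 0⟩; ok v40 && (
  let v41 := sub v31 v40; ok v41 && (
  let v42 := cst ⟨1073741824, 0, 0, 0⟩; ok v42 && (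
  let v43 := sub v41 v42; ok v43 && (
  isPos 2 v43 && (
  let v44 := cst ⟨659707396096, 0, 0, 0⟩; ok v44 && (
  let v45 := sub v38 v44; ok v45 && (
  isPos 2 v45 && (
  let v46 := sub v0 v30; ok v46 && (
  let v47 := scale ⟨13194139533312, 0, 0, 0⟩ v5; ok v47 && (
  let v48 := sub v46 v47; ok v48 && (
  let v49 := mul v31 v48; ok v49 && (
  let v50 := sub v49 v38; ok v50 && (
  isPos 2 v50 && (
  let v51 := scale ⟨2199023255552, 0, 0, 0⟩ v5; ok v51 && (
  let v52 := scale ⟨4617949675520, 0, 0, 0⟩ v5; ok v52 && (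
  let v53 := add v7 v52; ok v53 && (
  let v54 := mul v53 v23; ok v54 && (
  let v55 := add v51 v54; ok v55 && (
  let v56 := scale ⟨183252287488, 0, 0, 0⟩ v7; ok v56 && (
  let v57 := add v55 v56; ok v57 && (
  let v58 := mul v24 v39; ok v58 && (
  let v59 := scale ⟨17592186044416, 0, 0, 0⟩ v5; ok v59 && (
  let v60 := add v59 v0; ok v60 && (
  let v61 := mul v58 v60; ok v61 && (
  let v62 := scale ⟨3109889769472, 0, 0, 0⟩ v61; ok v62 && (
  let v63 := add v57 v62; ok v63 && (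
  let v64 := scale ⟨13084188999680, 0, 0, 0⟩ v5; ok v64 && (
  let v65 := add v63 v64; ok v65 && (
  let v66 := add v65 v31; ok v66 && (
  let v67 := neg v66; ok v67 && (
  let v68 := add v67 v0; ok v68 && (
  isPos 2 v68 && (
  true))))))))))))))))))))))))))))))))))))))))))))))))))))))))))))))))))))))))))
  | _ => false

set_option maxRecDepth 1000000 in
theorem chk0_eq (O : Ops) (m : List O.α)
    (h : chk0 O.cst O.add O.sub O.mul O.scale O.neg O.inv O.exp O.log O.ok O.isPos O.isLt m = true) :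
    runG O 2 prog0 m = true := by
  match m, h with
  | [x0, x1], h => exact h

def chkB0 : List opsE.α → Bool :=
  chk0 opsE.cst opsE.add opsE.sub opsE.mul opsE.scale opsE.neg opsE.inv opsE.exp opsE.log opsE.ok opsE.isPos opsE.isLt

theorem chkB0_eq (m : List opsE.α) (h : chkB0 m = true) : runG opsE 2 prog0 m = true :=
  chk0_eq opsE m h

def prog1 : List Op := [
  .mul 0 1,
  .const ⟨77763444736, 0, 0, 0⟩,
  .sub 1 0,
  .pos 0]

def chk1 {α : Type} (cst : Z → α) (add sub mul : α → α → α) (scale : Z → α → α)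
    (neg inv exp log : α → α) (ok : α → Bool) (isPos : Nat → α → Bool) (isLt : α → Nat → Bool) :
    List α → Bool
  | [x0, x1] =>
  let v0 := mul x0 x1; ok v0 && (
  let v1 := cst ⟨77763444736, 0, 0, 0⟩; ok v1 && (
  let v2 := sub v0 v1; ok v2 && (
  isPos 2 v2 && (
  true))))
  | _ => false

set_option maxRecDepth 1000000 in
theorem chk1_eq (O : Ops) (m : List O.α)
    (h : chk1 O.cst O.add O.sub O.mul O.scale O.neg O.inv O.exp O.log O.ok O.isPos O.isLt m = true) :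
    runG O 2 prog1 m = true := by
  match m, h with
  | [x0, x1], h => exact h

def chkB1 : List opsE.α → Bool :=
  chk1 opsE.cst opsE.add opsE.sub opsE.mul opsE.scale opsE.neg opsE.inv opsE.exp opsE.log opsE.ok opsE.isPos opsE.isLt

theorem chkB1_eq (m : List opsE.α) (h : chkB1 m = true) : runG opsE 2 prog1 m = true :=
  chk1_eq opsE m h

def prog2 : List Op := [
  .mul 0 0,
  .mul 1 2,
  .scale ⟨1924145348608, 0, 0, 0⟩ 0,
  .sub 2 0,
  .const ⟨1524363165696, 0, 0, 0⟩,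
  .sub 1 0,
  .pos 0]

def chk2 {α : Type} (cst : Z → α) (add sub mul : α → α → α) (scale : Z → α → α)
    (neg inv exp log : α → α) (ok : α → Bool) (isPos : Nat → α → Bool) (isLt : α → Nat → Bool) :
    List α → Bool
  | [x0, x1] =>
  let v0 := mul x0 x0; ok v0 && (
  let v1 := mul x0 x1; ok v1 && (
  let v2 := scale ⟨1924145348608, 0, 0, 0⟩ v1; ok v2 && (
  let v3 := sub v0 v2; ok v3 && (
  let v4 := cst ⟨1524363165696, 0, 0, 0⟩; ok v4 && (
  let v5 := sub v3 v4; ok v5 && (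
  isPos 2 v5 && (
  true)))))))
  | _ => false

set_option maxRecDepth 1000000 in
theorem chk2_eq (O : Ops) (m : List O.α)
    (h : chk2 O.cst O.add O.sub O.mul O.scale O.neg O.inv O.exp O.log O.ok O.isPos O.isLt m = true) :
    runG O 2 prog2 m = true := by
  match m, h with
  | [x0, x1], h => exact h

def chkB2 : List opsE.α → Bool :=
  chk2 opsE.cst opsE.add opsE.sub opsE.mul opsE.scale opsE.neg opsE.inv opsE.exp opsE.log opsE.ok opsE.isPos opsE.isLt

theorem chkB2_eq (m : List opsE.α) (h : chkB2 m = true) : runG opsE 2 prog2 m = true :=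
  chk2_eq opsE m h

def progs : List (List Op) := [prog0, prog1, prog2]

def chks : List (List opsE.α → Bool) := [chkB0, chkB1, chkB2]

theorem chks_eq : List.Forall₂ (fun (ops : List Op) (chk : List opsE.α → Bool) =>
    ∀ m, chk m = true → runG opsE 2 ops m = true) progs chks :=
  List.Forall₂.cons chkB0_eq (List.Forall₂.cons chkB1_eq (List.Forall₂.cons chkB2_eq List.Forall₂.nil))

end Pool.Agent.helper31.EQB.Cert.MB
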