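import Pool.Agent.helper31.EQB.Cert.MBP

/-!
Generated certificates.
-/

namespace Pool.Agent.helper31.EQB.Cert.MB

open Pool.Agent.helper31.IA (Z Op)
open Pool.Agent.helper31.IC

mutual
theorem c0_m0_t0 : CovD 0 progs [(85899345920, 85899345920), (54975594496, 54975594496)] :=
  Pool.Agent.helper14.QF.covD_F chks_eq (.n 0 (.n 1 (.n 1 (.l 0) (.n 0 (.l 0) (.l 0))) (.n 0 (.n 0 (.l 0) (.l 0)) (.n 1 (.l 0) (.l 0)))) (.n 0 (.n 1 (.n 1 (.l 0) (.l 0)) (.n 1 (.l 0) (.l 0))) (.n 1 (.n 1 (.l 0) (.l 0)) (.n 1 (.l 0) (.l 0)))))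
    [(85899345920, 85899345920), (54975594496, 54975594496)] rfl (by decide +kernel)
theorem c0_m0_t1 : CovD 0 progs [(257698037760, 85899345920), (54975594496, 54975594496)] :=
  Pool.Agent.helper14.QF.covD_F chks_eq (.n 0 (.n 1 (.n 1 (.n 1 (.l 0) (.l 0)) (.n 0 (.l 0) (.l 0))) (.n 0 (.n 1 (.l 0) (.l 0)) (.n 1 (.l 0) (.l 0)))) (.n 1 (.n 1 (.n 1 (.l 0) (.l 0)) (.n 0 (.l 0) (.l 0))) (.n 1 (.n 0 (.l 0) (.l 0)) (.l 0))))
    [(257698037760, 85899345920), (54975594496, 54975594496)] rfl (by decide +kernel)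
end
mutual
theorem c0_m0_t3 : CovD 0 progs [(429496729600, 85899345920), (54975594496, 54975594496)] :=
  Pool.Agent.helper14.QF.covD_F chks_eq (.n 0 (.n 1 (.n 1 (.n 1 (.l 0) (.l 0)) (.n 0 (.l 0) (.l 0))) (.n 1 (.n 0 (.l 0) (.l 0)) (.l 0))) (.n 1 (.n 1 (.n 1 (.n 0 (.l 0) (.l 0)) (.l 0)) (.n 0 (.l 0) (.l 0))) (.n 1 (.l 0) (.l 0))))
    [(429496729600, 85899345920), (54975594496, 54975594496)] rfl (by decide +kernel)
theorem c0_m0_t4 : CovD 0 progs [(601295421440, 85899345920), (54975594496, 54975594496)] :=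
  Pool.Agent.helper14.QF.covD_F chks_eq (.n 1 (.n 1 (.n 1 (.n 1 (.l 0) (.l 0)) (.n 0 (.l 0) (.l 0))) (.n 1 (.n 0 (.l 0) (.l 0)) (.l 0))) (.n 0 (.n 1 (.l 0) (.l 0)) (.n 1 (.l 0) (.l 0))))
    [(601295421440, 85899345920), (54975594496, 54975594496)] rfl (by decide +kernel)
end
mutual
theorem c1_m0_t0 : CovD 0 progs [(343597383680, 343597383680), (137438953472, 27487830016)] :=
  Pool.Agent.helper14.QF.covD_F chks_eq (.n 0 (.n 0 (.n 0 (.n 0 (.n 0 (.l 0) (.l 0)) (.n 1 (.l 0) (.l 0))) (.n 0 (.n 0 (.l 0) (.l 0)) (.n 0 (.l 0) (.l 0)))) (.n 0 (.n 1 (.n 0 (.l 0) (.l 0)) (.l 0)) (.n 0 (.l 0) (.l 0)))) (.n 0 (.n 0 (.n 0 (.l 0) (.l 0)) (.n 0 (.l 0) (.l 0))) (.n 1 (.l 0) (.n 0 (.l 0) (.n 0 (.l 0) (.l 1))))))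
    [(343597383680, 343597383680), (137438953472, 27487830016)] rfl (by decide +kernel)
theorem c1_m0_t1 : CovD 0 progs [(343597383680, 343597383680), (192414613504, 27487830016)] :=
  Pool.Agent.helper14.QF.covD_F chks_eq (.n 0 (.n 0 (.n 0 (.n 0 (.n 0 (.l 0) (.l 0)) (.n 0 (.l 0) (.l 0))) (.n 0 (.n 0 (.l 0) (.l 0)) (.n 0 (.l 0) (.l 0)))) (.n 0 (.n 0 (.l 0) (.l 0)) (.n 0 (.l 0) (.l 0)))) (.n 0 (.n 0 (.n 0 (.l 0) (.l 0)) (.n 1 (.l 0) (.n 0 (.n 0 (.l 0) (.l 1)) (.l 1)))) (.n 0 (.n 0 (.n 0 (.n 1 (.l 0) (.l 1)) (.l 1)) (.l 1)) (.l 1))))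
    [(343597383680, 343597383680), (192414613504, 27487830016)] rfl (by decide +kernel)
end
mutual
theorem c2_m0_t0 : CovD 0 progs [(858993459200, 171798691840), (54975594496, 54975594496)] :=
  Pool.Agent.helper14.QF.covD_F chks_eq (.n 0 (.n 1 (.n 1 (.n 1 (.n 1 (.l 0) (.l 0)) (.n 0 (.l 0) (.l 0))) (.n 1 (.n 0 (.l 0) (.l 0)) (.l 0))) (.n 1 (.n 0 (.l 0) (.l 0)) (.l 0))) (.n 1 (.n 1 (.n 1 (.n 1 (.n 0 (.l 0) (.l 0)) (.l 0)) (.n 0 (.l 0) (.l 0))) (.n 1 (.l 0) (.l 0))) (.n 1 (.n 0 (.l 0) (.l 0)) (.l 0))))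
    [(858993459200, 171798691840), (54975594496, 54975594496)] rfl (by decide +kernel)
theorem c2_m0_t1 : CovD 0 progs [(1202590842880, 171798691840), (54975594496, 54975594496)] :=
  Pool.Agent.helper14.QF.covD_F chks_eq (.n 0 (.n 1 (.n 1 (.n 1 (.n 1 (.n 1 (.l 0) (.l 0)) (.l 0)) (.n 0 (.l 0) (.l 0))) (.n 1 (.l 0) (.l 0))) (.n 1 (.l 0) (.n 1 (.l 0) (.l 1)))) (.n 1 (.n 1 (.n 1 (.n 1 (.n 1 (.l 0) (.l 0)) (.l 0)) (.n 0 (.l 0) (.l 0))) (.n 1 (.l 0) (.l 0))) (.n 1 (.l 0) (.l 1))))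
    [(1202590842880, 171798691840), (54975594496, 54975594496)] rfl (by decide +kernel)
theorem c3_m0 : CovD 0 progs [(1030792151040, 343597383680), (164926783488, 54975660032)] :=
  Pool.Agent.helper14.QF.covD_F chks_eq (.n 0 (.n 1 (.n 0 (.n 1 (.n 0 (.l 0) (.n 1 (.l 0) (.l 1))) (.l 1)) (.l 1)) (.l 1)) (.l 1))
    [(1030792151040, 343597383680), (164926783488, 54975660032)] rfl (by decide +kernel)
end

theorem c0_m0_t2 : CovD 0 progs [(171798691840, 171798691840), (54975594496, 54975594496)] :=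
  covD_split 0 (by decide +kernel) c0_m0_t0 c0_m0_t1
theorem c0_m0_t5 : CovD 0 progs [(515396075520, 171798691840), (54975594496, 54975594496)] :=
  covD_split 0 (by decide +kernel) c0_m0_t3 c0_m0_t4
theorem c0_m0 : CovD 0 progs [(343597383680, 343597383680), (54975594496, 54975594496)] :=
  covD_split 0 (by decide +kernel) c0_m0_t2 c0_m0_t5
theorem c1_m0 : CovD 0 progs [(343597383680, 343597383680), (164926783488, 54975660032)] :=
  covD_split 1 (by decide +kernel) c1_m0_t0 c1_m0_t1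
theorem c2_m0 : CovD 0 progs [(1030792151040, 343597383680), (54975594496, 54975594496)] :=
  covD_split 0 (by decide +kernel) c2_m0_t0 c2_m0_t1

end Pool.Agent.helper31.EQB.Cert.MB
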