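import Pool.Agent.helper31.EQB.Cert.TA_0

/-!
Generated certificates, assembled.
-/

namespace Pool.Agent.helper31.EQB.Cert.TA

open Pool.Agent.helper31.IA (Z Op)
open Pool.Agent.helper31.IC

theorem c0_all : CovD 0 progs [(24629084160, 24629084160), (1374389534720, 1374389534720), (3454217682944, 65536)] := c0_m0

theorem c1_all : CovD 0 progs [(24629084160, 24629084160), (4123168604160, 1374389534720), (3454217682944, 65536)] := c1_m0

end Pool.Agent.helper31.EQB.Cert.TA
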