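import Pool.Agent.helper31.EQB.Cert.TAP

/-!
Generated certificates.
-/

namespace Pool.Agent.helper31.EQB.Cert.TA

open Pool.Agent.helper31.IA (Z Op)
open Pool.Agent.helper31.IC

mutual
theorem c0_m0 : CovD 0 progs [(24629084160, 24629084160), (1374389534720, 1374389534720), (3454217682944, 65536)] :=
  Pool.Agent.helper14.QF.covD_F chks_eq (.n 0 (.n 0 (.n 0 (.n 1 (.l 0) (.n 0 (.l 0) (.l 0))) (.n 1 (.l 0) (.l 0))) (.n 0 (.n 1 (.l 0) (.l 0)) (.n 1 (.l 0) (.l 0)))) (.n 0 (.n 1 (.n 0 (.l 0) (.l 0)) (.l 0)) (.n 1 (.n 1 (.n 1 (.l 0) (.l 0)) (.l 0)) (.l 0))))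
    [(24629084160, 24629084160), (1374389534720, 1374389534720), (3454217682944, 65536)] rfl (by decide +kernel)
theorem c1_m0 : CovD 0 progs [(24629084160, 24629084160), (4123168604160, 1374389534720), (3454217682944, 65536)] :=
  Pool.Agent.helper14.QF.covD_F chks_eq (.n 0 (.n 0 (.n 0 (.n 0 (.n 0 (.n 1 (.l 0) (.l 0)) (.n 1 (.l 0) (.l 0))) (.n 1 (.l 0) (.l 0))) (.n 1 (.l 0) (.n 0 (.l 0) (.l 0)))) (.n 0 (.n 1 (.l 0) (.l 0)) (.n 1 (.l 0) (.l 0)))) (.n 0 (.n 1 (.l 0) (.l 0)) (.n 1 (.l 0) (.l 0))))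
    [(24629084160, 24629084160), (4123168604160, 1374389534720), (3454217682944, 65536)] rfl (by decide +kernel)
end


end Pool.Agent.helper31.EQB.Cert.TA
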