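import Pool.Agent.helper31.IC.EngD
import Pool.Agent.helper14.QF.Inst

/-!
Generated: straight line program(s) and compiled form(s).
-/

namespace Pool.Agent.helper31.EQB.Cert.TB

open Pool.Agent.helper31.IA (Z Op)
open Pool.Agent.helper31.IC

set_option maxRecDepth 100000

abbrev opsE : Ops := Pool.Agent.helper14.QF.opsF

def prog0 : List Op := [
  .const ⟨1099511627776, 0, 0, 0⟩,
  .const ⟨3298534883328, 0, 0, 0⟩,
  .inv 0,
  .mul 2 0,
  .mul 4 5,
  .mul 0 0,
  .mul 6 1,
  .mul 0 0,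
  .const ⟨6597069766656, 0, 0, 0⟩,
  .inv 0,
  .mul 9 0,
  .mul 3 0,
  .sub 11 0,
  .mul 6 0,
  .scale ⟨3848290697216, 0, 0, 0⟩ 15,
  .mul 0 0,
  .const ⟨549755813888, 0, 0, 0⟩,
  .scale ⟨137438953472, 0, 0, 0⟩ 1,
  .sub 1 0,
  .mul 3 0,
  .add 19 0,
  .inv 0,
  .mul 7 0,
  .mul 0 0,
  .mul 1 19,
  .const ⟨1099243192320, 0, 0, 0⟩,
  .scale ⟨3111703805952, 0, 0, 0⟩ 1,
  .sub 1 0,
  .scale ⟨25288767438848, 0, 0, 0⟩ 22,
  .sub 1 0,
  .scale ⟨549755813888, 0, 0, 0⟩ 22,
  .sub 1 0,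
  .scale ⟨1556388773888, 0, 0, 0⟩ 7,
  .sub 7 0,
  .scale ⟨20890720927744, 0, 0, 0⟩ 28,
  .sub 1 0,
  .scale ⟨593779228672, 0, 0, 0⟩ 28,
  .sub 1 0,
  .mul 40 40,
  .mul 40 40,
  .mul 1 0,
  .add 0 40,
  .log 0,
  .scale ⟨549755813888, 0, 0, 0⟩ 0,
  .exp 0,
  .neg 1,
  .exp 0,
  .mul 47 2,
  .mul 0 0,
  .mul 1 44,
  .mul 51 3,
  .mul 53 0,
  .mul 1 1,
  .mul 53 53,
  .mul 0 49,
  .scale ⟨549755813888, 0, 0, 0⟩ 55,
  .scale ⟨707090448384, 0, 0, 0⟩ 51,
  .add 1 0,
  .scale ⟨441564790784, 0, 0, 0⟩ 7,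
  .add 1 0,
  .scale ⟨0, 763549974528, 0, 0⟩ 12,
  .const ⟨1832518680576, 0, 0, 0⟩,
  .add 1 0,
  .scale ⟨883129581568, 0, 0, 0⟩ 64,
  .mul 1 0,
  .scale ⟨1414180896768, 0, 0, 0⟩ 66,
  .add 1 0,
  .add 0 66,
  .pos 0,
  .mul 63 29,
  .mul 0 70,
  .inv 2,
  .mul 1 0,
  .add 12 0,
  .scale ⟨274877906944, 0, 0, 0⟩ 1,
  .add 14 0,
  .scale ⟨1759219023872, 0, 0, 0⟩ 26,
  .const ⟨762123911168, 0, 0, 0⟩,
  .add 1 0,
  .mul 72 0,
  .scale ⟨549755813888, 0, 0, 0⟩ 65,
  .sub 1 0,
  .exp 0,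
  .scale ⟨324538466304, 0, 0, 0⟩ 37,
  .scale ⟨5388036472832, 0, 0, 0⟩ 59,
  .const ⟨1347009118208, 0, 0, 0⟩,
  .add 1 0,
  .mul 80 80,
  .scale ⟨549755813888000, 0, 0, 0⟩ 0,
  .sub 87 0,
  .scale ⟨4398046511104, 0, 0, 0⟩ 90,
  .add 0 89,
  .scale ⟨324538466304, 0, 0, 0⟩ 0,
  .scale ⟨274877906944, 0, 0, 0⟩ 0,
  .scale ⟨274877906944, 0, 0, 0⟩ 46,
  .add 43 0,
  .mul 46 89,
  .mul 91 23,
  .scale ⟨1056561954816, 0, 0, 0⟩ 91,
  .add 1 0,
  .exp 0,
  .mul 0 0,
  .neg 2,
  .const ⟨61083746304, 0, 0, 0⟩,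
  .add 1 0,
  .pos 0,
  .scale ⟨2748779069440, 0, 0, 0⟩ 106,
  .add 29 0,
  .mul 0 100,
  .scale ⟨274877906944, 0, 0, 0⟩ 99,
  .sub 107 0,
  .mul 12 36,
  .scale ⟨549755813888, 0, 0, 0⟩ 0,
  .scale ⟨157073539072, 0, 0, 0⟩ 56,
  .add 1 0,
  .mul 13 0,
  .add 39 0,
  .mul 63 0,
  .scale ⟨1649267441664, 0, 0, 0⟩ 15,
  .const ⟨1649267441664, 0, 0, 0⟩,
  .sub 1 0,
  .scale ⟨824633720832, 0, 0, 0⟩ 111,
  .add 1 0,
  .mul 123 115,
  .add 1 0,
  .add 0 16,
  .mul 76 0,
  .add 9 0,
  .mul 128 74,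
  .mul 0 121,
  .scale ⟨137438953472, 0, 0, 0⟩ 0,
  .mul 74 0,
  .add 4 0,
  .mul 0 126,
  .sub 130 15,
  .mul 24 0,
  .mul 87 87,
  .scale ⟨549755813888, 0, 0, 0⟩ 0,
  .sub 2 0,
  .mul 85 85,
  .mul 0 38,
  .sub 2 0,
  .sub 0 33,
  .mul 32 5,
  .sub 25 0,
  .add 0 36,
  .mul 146 62,
  .mul 49 147,
  .mul 0 45,
  .scale ⟨2199023255552, 0, 0, 0⟩ 0,
  .add 3 0,
  .mul 100 42,
  .add 1 0,
  .mul 99 69,
  .mul 56 100,
  .mul 0 52,
  .scale ⟨2199023255552, 0, 0, 0⟩ 0,
  .add 3 0,
  .mul 106 49,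
  .add 1 0,
  .mul 17 108,
  .mul 1 1,
  .add 25 0,
  .scale ⟨1098437885952, 0, 0, 0⟩ 20,
  .mul 3 3,
  .add 2 0,
  .inv 0,
  .mul 3 0,
  .neg 0,
  .add 0 166,
  .pos 0,
  .mul 30 72,
  .scale ⟨2199023255552, 0, 0, 0⟩ 0,
  .sub 169 0,
  .sub 0 39,
  .mul 40 40,
  .sub 1 0,
  .mul 0 0,
  .mul 127 1,
  .scale ⟨8796093022208, 0, 0, 0⟩ 170,
  .sub 145 0,
  .mul 82 92,
  .sub 1 0,
  .mul 166 14,
  .scale ⟨2199023255552, 0, 0, 0⟩ 0,
  .mul 0 0,
  .mul 0 179,
  .add 0 183,
  .inv 0,
  .mul 4 0,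
  .mul 174 21,
  .mul 0 2,
  .mul 2 2,
  .scale ⟨274877906944, 0, 0, 0⟩ 0,
  .add 0 190,
  .mul 3 0,
  .add 27 192,
  .mul 180 0,
  .scale ⟨2199023255552, 0, 0, 0⟩ 0,
  .mul 0 0,
  .mul 0 193,
  .add 0 197,
  .inv 0,
  .mul 4 0,
  .mul 188 7,
  .mul 0 2,
  .mul 2 2,
  .scale ⟨274877906944, 0, 0, 0⟩ 0,
  .add 0 204,
  .mul 3 0,
  .mul 14 158,
  .mul 0 33,
  .mul 29 0,
  .neg 0,
  .exp 0,
  .neg 123,
  .add 0 212,
  .scale ⟨549755813888, 0, 0, 0⟩ 0,
  .add 1 214,
  .neg 0,
  .mul 2 0,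
  .add 0 217,
  .mul 181 0,
  .mul 188 44,
  .mul 0 132,
  .mul 0 15,
  .scale ⟨549755813888, 0, 0, 0⟩ 0,
  .mul 4 48,
  .scale ⟨549755813888, 0, 0, 0⟩ 0,
  .mul 1 1,
  .scale ⟨97184055296, 0, 0, 0⟩ 0,
  .const ⟨1554944884736, 0, 0, 0⟩,
  .add 1 0,
  .add 4 0,
  .inv 0,
  .mul 12 0,
  .add 0 9,
  .inv 0,
  .add 59 0,
  .mul 24 0,
  .const ⟨2199023255552, 0, 0, 0⟩,
  .add 72 0,
  .mul 225 0,
  .scale ⟨2199023255552, 0, 0, 0⟩ 0,
  .mul 0 0,
  .mul 0 238,
  .add 0 242,
  .inv 0,
  .mul 4 0,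
  .mul 233 7,
  .mul 0 2,
  .mul 2 2,
  .scale ⟨274877906944, 0, 0, 0⟩ 0,
  .add 0 249,
  .mul 3 0,
  .mul 163 163,
  .neg 0,
  .add 0 253,
  .scale ⟨549755813888, 0, 0, 0⟩ 0,
  .add 1 255,
  .neg 0,
  .mul 2 0,
  .add 0 258,
  .mul 222 0,
  .mul 40 8,
  .mul 0 10,
  .scale ⟨549755813888, 0, 0, 0⟩ 0,
  .mul 3 88,
  .scale ⟨549755813888, 0, 0, 0⟩ 0,
  .mul 1 1,
  .scale ⟨97184055296, 0, 0, 0⟩ 0,
  .add 0 39,
  .add 3 0,
  .inv 0,
  .mul 10 0,
  .add 0 8,
  .inv 0,
  .mul 67 225,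
  .mul 0 100,
  .mul 0 187,
  .mul 97 0,
  .neg 0,
  .exp 0,
  .add 104 6,
  .mul 1 0,
  .sub 281 199,
  .pos 0,
  .inv 0,
  .scale ⟨549755813888, 0, 0, 0⟩ 201,
  .add 284 0,
  .mul 203 203,
  .mul 0 3,
  .scale ⟨366504574976, 0, 0, 0⟩ 0,
  .add 3 0,
  .mul 78 207,
  .scale ⟨549755813888, 0, 0, 0⟩ 0,
  .add 291 0,
  .mul 2 2,
  .sub 293 3,
  .inv 0,
  .mul 2 0,
  .scale ⟨366504574976, 0, 0, 0⟩ 0,
  .add 5 0,
  .inv 125,
  .mul 169 252,
  .mul 170 19,
  .mul 0 2,
  .add 2 0,
  .mul 221 14,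
  .add 1 0,
  .mul 175 69,
  .mul 0 7,
  .mul 17 9,
  .add 1 0,
  .mul 312 4,
  .mul 0 258,
  .neg 6,
  .const ⟨1056561954816, 0, 0, 0⟩,
  .add 1 0,
  .pos 0,
  .neg 5,
  .add 0 2,
  .pos 0,
  .scale ⟨1165482786816, 0, 0, 0⟩ 216,
  .scale ⟨2199023255552, 0, 0, 0⟩ 12,
  .add 0 9,
  .mul 314 0,
  .add 9 0,
  .mul 4 0,
  .mul 0 273,
  .mul 0 24,
  .sub 324 0,
  .pos 0,
  .scale ⟨2199023255552, 0, 0, 0⟩ 1,
  .neg 0,
  .add 0 239,
  .sub 168 328,
  .scale ⟨549755813888, 0, 0, 0⟩ 0,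
  .add 0 330,
  .const ⟨1588869464064, 0, 0, 0⟩,
  .add 201 332,
  .mul 0 0,
  .sub 2 0,
  .pos 0,
  .const ⟨2694018236416, 0, 0, 0⟩,
  .sub 0 193,
  .sub 0 15,
  .add 7 207,
  .add 0 16,
  .mul 0 0,
  .sub 3 0,
  .pos 0,
  .mul 168 14,
  .scale ⟨10115506765824, 0, 0, 0⟩ 0,
  .sub 0 8,
  .pos 0,
  .scale ⟨989560045568, 0, 0, 0⟩ 2,
  .scale ⟨6601096298496, 0, 0, 0⟩ 251,
  .sub 1 0,
  .pos 0,
  .pos 169,
  .pos 177,
  .pos 175,
  .mul 342 183,
  .scale ⟨2199023255552, 0, 0, 0⟩ 0,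
  .exp 0,
  .mul 29 0,
  .mul 340 178,
  .mul 0 28,
  .inv 0,
  .mul 3 0,
  .sub 191 0,
  .const ⟨646392578048, 0, 0, 0⟩,
  .sub 1 0,
  .pos 0,
  .sub 219 37,
  .pos 0,
  .sub 360 34,
  .mul 187 0,
  .scale ⟨1607391510528, 0, 0, 0⟩ 0,
  .sub 0 220,
  .sub 0 42,
  .pos 0,
  .mul 43 317,
  .add 216 0,
  .neg 0,
  .scale ⟨498216206336, 0, 0, 0⟩ 362,
  .add 1 0,
  .const ⟨3518651957248, 0, 0, 0⟩,
  .add 1 0,
  .pos 0,
  .add 15 372,
  .mul 360 0,
  .scale ⟨2199023255552, 0, 0, 0⟩ 0,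
  .mul 0 0,
  .mul 0 373,
  .add 0 377,
  .inv 0,
  .mul 4 0,
  .mul 368 7,
  .mul 0 2,
  .mul 2 2,
  .scale ⟨274877906944, 0, 0, 0⟩ 0,
  .add 0 384,
  .mul 3 0,
  .mul 0 338,
  .mul 0 213,
  .mul 0 60,
  .mul 210 0,
  .neg 0,
  .exp 0,
  .add 19 392,
  .mul 380 0,
  .scale ⟨2199023255552, 0, 0, 0⟩ 0,
  .mul 0 0,
  .mul 0 393,
  .add 0 397,
  .inv 0,
  .mul 4 0,
  .mul 388 7,
  .mul 0 2,
  .mul 2 2,
  .scale ⟨274877906944, 0, 0, 0⟩ 0,
  .add 0 404,
  .mul 3 0,
  .mul 78 318,
  .neg 0,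
  .add 0 408,
  .scale ⟨549755813888, 0, 0, 0⟩ 0,
  .add 1 410,
  .neg 0,
  .mul 2 0,
  .add 0 413,
  .mul 377 0,
  .mul 195 8,
  .mul 0 10,
  .scale ⟨549755813888, 0, 0, 0⟩ 0,
  .mul 3 243,
  .scale ⟨549755813888, 0, 0, 0⟩ 0,
  .mul 1 1,
  .scale ⟨97184055296, 0, 0, 0⟩ 0,
  .add 0 194,
  .add 3 0,
  .inv 0,
  .mul 10 0,
  .add 0 8,
  .inv 0,
  .add 253 0,
  .mul 37 0,
  .mul 108 383,
  .mul 0 1,
  .mul 0 133,
  .add 67 0,
  .mul 0 340,
  .scale ⟨549755813888, 0, 0, 0⟩ 1,
  .sub 436 0,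
  .pos 0,
  .inv 0,
  .add 2 438,
  .mul 0 1,
  .mul 297 391,
  .scale ⟨2199023255552, 0, 0, 0⟩ 395,
  .add 1 0,
  .mul 2 0,
  .add 284 0,
  .mul 4 4,
  .add 286 0,
  .mul 398 0,
  .sub 3 448,
  .scale ⟨549755813888, 0, 0, 0⟩ 0,
  .add 0 450,
  .scale ⟨285615325184, 0, 0, 0⟩ 453,
  .const ⟨59861106688, 0, 0, 0⟩,
  .add 1 0,
  .mul 19 16,
  .mul 15 63,
  .mul 0 2,
  .add 6 9,
  .add 0 135,
  .mul 2 0,
  .add 5 0,
  .neg 0,
  .scale ⟨1073741824, 0, 0, 0⟩ 456,
  .sub 463 0,
  .mul 0 372,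
  .add 3 0,
  .pos 0,
  .scale ⟨3454218010624, 0, 0, 0⟩ 461,
  .mul 0 158,
  .scale ⟨3454218010624, 0, 0, 0⟩ 464,
  .mul 0 395,
  .add 2 0,
  .scale ⟨617925836800, 0, 0, 0⟩ 376,
  .mul 374 374,
  .scale ⟨582741917696, 0, 0, 0⟩ 0,
  .add 2 0,
  .scale ⟨472790335488, 0, 0, 0⟩ 468,
  .add 1 0,
  .scale ⟨3454218010624, 0, 0, 0⟩ 0,
  .add 7 0,
  .mul 431 384,
  .scale ⟨175922741248, 0, 0, 0⟩ 0,
  .add 2 0,
  .scale ⟨1165482786816, 0, 0, 0⟩ 384,
  .scale ⟨307864010752, 0, 0, 0⟩ 476,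
  .add 1 0,
  .mul 432 0,
  .add 4 0,
  .scale ⟨10851745529856, 0, 0, 0⟩ 482,
  .scale ⟨615726972928, 0, 0, 0⟩ 15,
  .scale ⟨329853698048, 0, 0, 0⟩ 482,
  .add 1 0,
  .mul 3 0,
  .add 5 0,
  .scale ⟨1110506995712, 0, 0, 0⟩ 0,
  .add 185 0,
  .neg 0,
  .const ⟨989560045568, 0, 0, 0⟩,
  .add 1 0,
  .pos 0]

def chk0 {α : Type} (cst : Z → α) (add sub mul : α → α → α) (scale : Z → α → α)
    (neg inv exp log : α → α) (ok : α → Bool) (isPos : Nat → α → Bool) (isLt : α → Nat → Bool) :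
    List α → Bool
  | [x0, x1, x2] =>
  let v0 := cst ⟨1099511627776, 0, 0, 0⟩; ok v0 && (
  let v1 := cst ⟨3298534883328, 0, 0, 0⟩; ok v1 && (
  let v2 := inv v1; ok v2 && (
  let v3 := mul v0 v2; ok v3 && (
  let v4 := mul x0 x1; ok v4 && (
  let v5 := mul v4 v4; ok v5 && (
  let v6 := mul x0 v4; ok v6 && (
  let v7 := mul v6 v6; ok v7 && (
  let v8 := cst ⟨6597069766656, 0, 0, 0⟩; ok v8 && (
  let v9 := inv v8; ok v9 && (
  let v10 := mul v0 v9; ok v10 && (
  let v11 := mul v7 v10; ok v11 && (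
  let v12 := sub v0 v11; ok v12 && (
  let v13 := mul v6 v12; ok v13 && (
  let v14 := scale ⟨3848290697216, 0, 0, 0⟩ x1; ok v14 && (
  let v15 := mul v14 v14; ok v15 && (
  let v16 := cst ⟨549755813888, 0, 0, 0⟩; ok v16 && (
  let v17 := scale ⟨137438953472, 0, 0, 0⟩ v15; ok v17 && (
  let v18 := sub v16 v17; ok v18 && (
  let v19 := mul v15 v18; ok v19 && (
  let v20 := add v0 v19; ok v20 && (
  let v21 := inv v20; ok v21 && (
  let v22 := mul v14 v21; ok v22 && (
  let v23 := mul v22 v22; ok v23 && (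
  let v24 := mul v22 v4; ok v24 && (
  let v25 := cst ⟨1099243192320, 0, 0, 0⟩; ok v25 && (
  let v26 := scale ⟨3111703805952, 0, 0, 0⟩ v24; ok v26 && (
  let v27 := sub v25 v26; ok v27 && (
  let v28 := scale ⟨25288767438848, 0, 0, 0⟩ v5; ok v28 && (
  let v29 := sub v27 v28; ok v29 && (
  let v30 := scale ⟨549755813888, 0, 0, 0⟩ v7; ok v30 && (
  let v31 := sub v29 v30; ok v31 && (
  let v32 := scale ⟨1556388773888, 0, 0, 0⟩ v24; ok v32 && (
  let v33 := sub v25 v32; ok v33 && (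
  let v34 := scale ⟨20890720927744, 0, 0, 0⟩ v5; ok v34 && (
  let v35 := sub v33 v34; ok v35 && (
  let v36 := scale ⟨593779228672, 0, 0, 0⟩ v7; ok v36 && (
  let v37 := sub v35 v36; ok v37 && (
  let v38 := mul x2 x2; ok v38 && (
  let v39 := mul x1 x1; ok v39 && (
  let v40 := mul v38 v39; ok v40 && (
  let v41 := add v40 v0; ok v41 && (
  let v42 := log v41; ok v42 && (
  let v43 := scale ⟨549755813888, 0, 0, 0⟩ v42; ok v43 && (
  let v44 := exp v43; ok v44 && (
  let v45 := neg v43; ok v45 && (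
  let v46 := exp v45; ok v46 && (
  let v47 := mul x0 v44; ok v47 && (
  let v48 := mul v47 v47; ok v48 && (
  let v49 := mul v47 v4; ok v49 && (
  let v50 := mul x1 v46; ok v50 && (
  let v51 := mul x2 v50; ok v51 && (
  let v52 := mul v50 v50; ok v52 && (
  let v53 := mul x0 x0; ok v53 && (
  let v54 := mul v53 v4; ok v54 && (
  let v55 := scale ⟨549755813888, 0, 0, 0⟩ x0; ok v55 && (
  let v56 := scale ⟨707090448384, 0, 0, 0⟩ v4; ok v56 && (
  let v57 := add v55 v56; ok v57 && (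
  let v58 := scale ⟨441564790784, 0, 0, 0⟩ v50; ok v58 && (
  let v59 := add v57 v58; ok v59 && (
  let v60 := scale ⟨0, 763549974528, 0, 0⟩ v47; ok v60 && (
  let v61 := cst ⟨1832518680576, 0, 0, 0⟩; ok v61 && (
  let v62 := add v60 v61; ok v62 && (
  let v63 := scale ⟨883129581568, 0, 0, 0⟩ x1; ok v63 && (
  let v64 := mul v62 v63; ok v64 && (
  let v65 := scale ⟨1414180896768, 0, 0, 0⟩ x1; ok v65 && (
  let v66 := add v64 v65; ok v66 && (
  let v67 := add v66 v0; ok v67 && (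
  isPos 3 v67 && (
  let v68 := mul v4 v38; ok v68 && (
  let v69 := mul v68 x1; ok v69 && (
  let v70 := inv v67; ok v70 && (
  let v71 := mul v69 v70; ok v71 && (
  let v72 := add v59 v71; ok v72 && (
  let v73 := scale ⟨274877906944, 0, 0, 0⟩ v71; ok v73 && (
  let v74 := add v59 v73; ok v74 && (
  let v75 := scale ⟨1759219023872, 0, 0, 0⟩ v48; ok v75 && (
  let v76 := cst ⟨762123911168, 0, 0, 0⟩; ok v76 && (
  let v77 := add v75 v76; ok v77 && (
  let v78 := mul v5 v77; ok v78 && (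
  let v79 := scale ⟨549755813888, 0, 0, 0⟩ v13; ok v79 && (
  let v80 := sub v78 v79; ok v80 && (
  let v81 := exp v80; ok v81 && (
  let v82 := scale ⟨324538466304, 0, 0, 0⟩ v44; ok v82 && (
  let v83 := scale ⟨5388036472832, 0, 0, 0⟩ v23; ok v83 && (
  let v84 := cst ⟨1347009118208, 0, 0, 0⟩; ok v84 && (
  let v85 := add v83 v84; ok v85 && (
  let v86 := mul v5 v5; ok v86 && (
  let v87 := scale ⟨549755813888000, 0, 0, 0⟩ v86; ok v87 && (
  let v88 := sub v0 v87; ok v88 && (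
  let v89 := scale ⟨4398046511104, 0, 0, 0⟩ x1; ok v89 && (
  let v90 := add v89 v0; ok v90 && (
  let v91 := scale ⟨324538466304, 0, 0, 0⟩ v90; ok v91 && (
  let v92 := scale ⟨274877906944, 0, 0, 0⟩ v91; ok v92 && (
  let v93 := scale ⟨274877906944, 0, 0, 0⟩ v46; ok v93 && (
  let v94 := add v50 v93; ok v94 && (
  let v95 := mul v48 v5; ok v95 && (
  let v96 := mul v4 v72; ok v96 && (
  let v97 := scale ⟨1056561954816, 0, 0, 0⟩ v5; ok v97 && (
  let v98 := add v96 v97; ok v98 && (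
  let v99 := exp v98; ok v99 && (
  let v100 := mul v99 v99; ok v100 && (
  let v101 := neg v98; ok v101 && (
  let v102 := cst ⟨61083746304, 0, 0, 0⟩; ok v102 && (
  let v103 := add v101 v102; ok v103 && (
  isPos 3 v103 && (
  let v104 := scale ⟨2748779069440, 0, 0, 0⟩ x2; ok v104 && (
  let v105 := add v75 v104; ok v105 && (
  let v106 := mul v105 v5; ok v106 && (
  let v107 := scale ⟨274877906944, 0, 0, 0⟩ v7; ok v107 && (
  let v108 := sub v0 v107; ok v108 && (
  let v109 := mul v96 v72; ok v109 && (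
  let v110 := scale ⟨549755813888, 0, 0, 0⟩ v109; ok v110 && (
  let v111 := scale ⟨157073539072, 0, 0, 0⟩ v54; ok v111 && (
  let v112 := add v110 v111; ok v112 && (
  let v113 := mul v99 v112; ok v113 && (
  let v114 := add v74 v113; ok v114 && (
  let v115 := mul v51 v114; ok v115 && (
  let v116 := scale ⟨1649267441664, 0, 0, 0⟩ v100; ok v116 && (
  let v117 := cst ⟨1649267441664, 0, 0, 0⟩; ok v117 && (
  let v118 := sub v116 v117; ok v118 && (
  let v119 := scale ⟨824633720832, 0, 0, 0⟩ v7; ok v119 && (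
  let v120 := add v118 v119; ok v120 && (
  let v121 := mul x2 v5; ok v121 && (
  let v122 := add v120 v121; ok v122 && (
  let v123 := add v122 v106; ok v123 && (
  let v124 := mul v47 v123; ok v124 && (
  let v125 := add v115 v124; ok v125 && (
  let v126 := mul x2 v51; ok v126 && (
  let v127 := mul v126 v5; ok v127 && (
  let v128 := scale ⟨137438953472, 0, 0, 0⟩ v127; ok v128 && (
  let v129 := mul v54 v128; ok v129 && (
  let v130 := add v125 v129; ok v130 && (
  let v131 := mul v130 v4; ok v131 && (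
  let v132 := sub v1 v116; ok v132 && (
  let v133 := mul v108 v132; ok v133 && (
  let v134 := mul v46 v46; ok v134 && (
  let v135 := scale ⟨549755813888, 0, 0, 0⟩ v134; ok v135 && (
  let v136 := sub v133 v135; ok v136 && (
  let v137 := mul v51 v51; ok v137 && (
  let v138 := mul v137 v99; ok v138 && (
  let v139 := sub v136 v138; ok v139 && (
  let v140 := sub v139 v106; ok v140 && (
  let v141 := mul v108 v135; ok v141 && (
  let v142 := sub v116 v141; ok v142 && (
  let v143 := add v142 v106; ok v143 && (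
  let v144 := mul x2 v81; ok v144 && (
  let v145 := mul v95 x2; ok v145 && (
  let v146 := mul v145 v100; ok v146 && (
  let v147 := scale ⟨2199023255552, 0, 0, 0⟩ v146; ok v147 && (
  let v148 := add v144 v147; ok v148 && (
  let v149 := mul v48 v106; ok v149 && (
  let v150 := add v148 v149; ok v150 && (
  let v151 := mul v51 v81; ok v151 && (
  let v152 := mul v95 v51; ok v152 && (
  let v153 := mul v152 v100; ok v153 && (
  let v154 := scale ⟨2199023255552, 0, 0, 0⟩ v153; ok v154 && (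
  let v155 := add v151 v154; ok v155 && (
  let v156 := mul v49 v106; ok v156 && (
  let v157 := add v155 v156; ok v157 && (
  let v158 := mul v140 v49; ok v158 && (
  let v159 := mul v157 v157; ok v159 && (
  let v160 := add v134 v159; ok v160 && (
  let v161 := scale ⟨1098437885952, 0, 0, 0⟩ v140; ok v161 && (
  let v162 := mul v158 v158; ok v162 && (
  let v163 := add v160 v162; ok v163 && (
  let v164 := inv v163; ok v164 && (
  let v165 := mul v161 v164; ok v165 && (
  let v166 := neg v165; ok v166 && (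
  let v167 := add v166 v0; ok v167 && (
  isPos 3 v167 && (
  let v168 := mul v137 v95; ok v168 && (
  let v169 := scale ⟨2199023255552, 0, 0, 0⟩ v168; ok v169 && (
  let v170 := sub v0 v169; ok v170 && (
  let v171 := sub v170 v131; ok v171 && (
  let v172 := mul v131 v131; ok v172 && (
  let v173 := sub v171 v172; ok v173 && (
  let v174 := mul v173 v173; ok v174 && (
  let v175 := mul v47 v173; ok v175 && (
  let v176 := scale ⟨8796093022208, 0, 0, 0⟩ v5; ok v176 && (
  let v177 := sub v31 v176; ok v177 && (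
  let v178 := mul v95 v85; ok v178 && (
  let v179 := sub v177 v178; ok v179 && (
  let v180 := mul v13 v165; ok v180 && (
  let v181 := scale ⟨2199023255552, 0, 0, 0⟩ v180; ok v181 && (
  let v182 := mul v181 v181; ok v182 && (
  let v183 := mul v182 v3; ok v183 && (
  let v184 := add v183 v0; ok v184 && (
  let v185 := inv v184; ok v185 && (
  let v186 := mul v181 v185; ok v186 && (
  let v187 := mul v12 v165; ok v187 && (
  let v188 := mul v187 v185; ok v188 && (
  let v189 := mul v186 v186; ok v189 && (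
  let v190 := scale ⟨274877906944, 0, 0, 0⟩ v189; ok v190 && (
  let v191 := add v190 v0; ok v191 && (
  let v192 := mul v188 v191; ok v192 && (
  let v193 := add v165 v0; ok v193 && (
  let v194 := mul v13 v193; ok v194 && (
  let v195 := scale ⟨2199023255552, 0, 0, 0⟩ v194; ok v195 && (
  let v196 := mul v195 v195; ok v196 && (
  let v197 := mul v196 v3; ok v197 && (
  let v198 := add v197 v0; ok v198 && (
  let v199 := inv v198; ok v199 && (
  let v200 := mul v195 v199; ok v200 && (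
  let v201 := mul v12 v193; ok v201 && (
  let v202 := mul v201 v199; ok v202 && (
  let v203 := mul v200 v200; ok v203 && (
  let v204 := scale ⟨274877906944, 0, 0, 0⟩ v203; ok v204 && (
  let v205 := add v204 v0; ok v205 && (
  let v206 := mul v202 v205; ok v206 && (
  let v207 := mul v192 v48; ok v207 && (
  let v208 := mul v207 v174; ok v208 && (
  let v209 := mul v179 v208; ok v209 && (
  let v210 := neg v209; ok v210 && (
  let v211 := exp v210; ok v211 && (
  let v212 := neg v88; ok v212 && (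
  let v213 := add v212 v0; ok v213 && (
  let v214 := scale ⟨549755813888, 0, 0, 0⟩ v213; ok v214 && (
  let v215 := add v213 v0; ok v215 && (
  let v216 := neg v215; ok v216 && (
  let v217 := mul v214 v216; ok v217 && (
  let v218 := add v217 v0; ok v218 && (
  let v219 := mul v37 v218; ok v219 && (
  let v220 := mul v31 v175; ok v220 && (
  let v221 := mul v220 v88; ok v221 && (
  let v222 := mul v221 v206; ok v222 && (
  let v223 := scale ⟨549755813888, 0, 0, 0⟩ v222; ok v223 && (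
  let v224 := mul v219 v175; ok v224 && (
  let v225 := scale ⟨549755813888, 0, 0, 0⟩ v224; ok v225 && (
  let v226 := mul v224 v224; ok v226 && (
  let v227 := scale ⟨97184055296, 0, 0, 0⟩ v226; ok v227 && (
  let v228 := cst ⟨1554944884736, 0, 0, 0⟩; ok v228 && (
  let v229 := add v227 v228; ok v229 && (
  let v230 := add v225 v229; ok v230 && (
  let v231 := inv v230; ok v231 && (
  let v232 := mul v219 v231; ok v232 && (
  let v233 := add v232 v223; ok v233 && (
  let v234 := inv v233; ok v234 && (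
  let v235 := add v175 v234; ok v235 && (
  let v236 := mul v211 v235; ok v236 && (
  let v237 := cst ⟨2199023255552, 0, 0, 0⟩; ok v237 && (
  let v238 := add v165 v237; ok v238 && (
  let v239 := mul v13 v238; ok v239 && (
  let v240 := scale ⟨2199023255552, 0, 0, 0⟩ v239; ok v240 && (
  let v241 := mul v240 v240; ok v241 && (
  let v242 := mul v241 v3; ok v242 && (
  let v243 := add v242 v0; ok v243 && (
  let v244 := inv v243; ok v244 && (
  let v245 := mul v240 v244; ok v245 && (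
  let v246 := mul v12 v238; ok v246 && (
  let v247 := mul v246 v244; ok v247 && (
  let v248 := mul v245 v245; ok v248 && (
  let v249 := scale ⟨274877906944, 0, 0, 0⟩ v248; ok v249 && (
  let v250 := add v249 v0; ok v250 && (
  let v251 := mul v247 v250; ok v251 && (
  let v252 := mul v88 v88; ok v252 && (
  let v253 := neg v252; ok v253 && (
  let v254 := add v253 v0; ok v254 && (
  let v255 := scale ⟨549755813888, 0, 0, 0⟩ v254; ok v255 && (
  let v256 := add v254 v0; ok v256 && (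
  let v257 := neg v256; ok v257 && (
  let v258 := mul v255 v257; ok v258 && (
  let v259 := add v258 v0; ok v259 && (
  let v260 := mul v37 v259; ok v260 && (
  let v261 := mul v220 v252; ok v261 && (
  let v262 := mul v261 v251; ok v262 && (
  let v263 := scale ⟨549755813888, 0, 0, 0⟩ v262; ok v263 && (
  let v264 := mul v260 v175; ok v264 && (
  let v265 := scale ⟨549755813888, 0, 0, 0⟩ v264; ok v265 && (
  let v266 := mul v264 v264; ok v266 && (
  let v267 := scale ⟨97184055296, 0, 0, 0⟩ v266; ok v267 && (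
  let v268 := add v267 v228; ok v268 && (
  let v269 := add v265 v268; ok v269 && (
  let v270 := inv v269; ok v270 && (
  let v271 := mul v260 v270; ok v271 && (
  let v272 := add v271 v263; ok v272 && (
  let v273 := inv v272; ok v273 && (
  let v274 := mul v206 v48; ok v274 && (
  let v275 := mul v274 v174; ok v275 && (
  let v276 := mul v275 v88; ok v276 && (
  let v277 := mul v179 v276; ok v277 && (
  let v278 := neg v277; ok v278 && (
  let v279 := exp v278; ok v279 && (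
  let v280 := add v175 v273; ok v280 && (
  let v281 := mul v279 v280; ok v281 && (
  let v282 := sub v0 v82; ok v282 && (
  isPos 3 v282 && (
  let v283 := inv v282; ok v283 && (
  let v284 := scale ⟨549755813888, 0, 0, 0⟩ v82; ok v284 && (
  let v285 := add v0 v284; ok v285 && (
  let v286 := mul v82 v82; ok v286 && (
  let v287 := mul v286 v283; ok v287 && (
  let v288 := scale ⟨366504574976, 0, 0, 0⟩ v287; ok v288 && (
  let v289 := add v285 v288; ok v289 && (
  let v290 := mul v211 v82; ok v290 && (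
  let v291 := scale ⟨549755813888, 0, 0, 0⟩ v290; ok v291 && (
  let v292 := add v0 v291; ok v292 && (
  let v293 := mul v290 v290; ok v293 && (
  let v294 := sub v0 v290; ok v294 && (
  let v295 := inv v294; ok v295 && (
  let v296 := mul v293 v295; ok v296 && (
  let v297 := scale ⟨366504574976, 0, 0, 0⟩ v296; ok v297 && (
  let v298 := add v292 v297; ok v298 && (
  let v299 := inv v173; ok v299 && (
  let v300 := mul v130 v47; ok v300 && (
  let v301 := mul v130 v281; ok v301 && (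
  let v302 := mul v301 v299; ok v302 && (
  let v303 := add v300 v302; ok v303 && (
  let v304 := mul v82 v289; ok v304 && (
  let v305 := add v303 v304; ok v305 && (
  let v306 := mul v130 v236; ok v306 && (
  let v307 := mul v306 v299; ok v307 && (
  let v308 := mul v290 v298; ok v308 && (
  let v309 := add v307 v308; ok v309 && (
  let v310 := mul x2 v305; ok v310 && (
  let v311 := mul v310 v52; ok v311 && (
  let v312 := neg v305; ok v312 && (
  let v313 := cst ⟨1056561954816, 0, 0, 0⟩; ok v313 && (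
  let v314 := add v312 v313; ok v314 && (
  isPos 3 v314 && (
  let v315 := neg v309; ok v315 && (
  let v316 := add v315 v313; ok v316 && (
  isPos 3 v316 && (
  let v317 := scale ⟨1165482786816, 0, 0, 0⟩ v100; ok v317 && (
  let v318 := scale ⟨2199023255552, 0, 0, 0⟩ v305; ok v318 && (
  let v319 := add v318 v309; ok v319 && (
  let v320 := mul v5 v319; ok v320 && (
  let v321 := add v311 v320; ok v321 && (
  let v322 := mul v317 v321; ok v322 && (
  let v323 := mul v322 v49; ok v323 && (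
  let v324 := mul v323 v299; ok v324 && (
  let v325 := sub v0 v324; ok v325 && (
  isPos 3 v325 && (
  let v326 := scale ⟨2199023255552, 0, 0, 0⟩ v324; ok v326 && (
  let v327 := neg v326; ok v327 && (
  let v328 := add v327 v88; ok v328 && (
  let v329 := sub v160 v0; ok v329 && (
  let v330 := scale ⟨549755813888, 0, 0, 0⟩ v329; ok v330 && (
  let v331 := add v330 v0; ok v331 && (
  let v332 := cst ⟨1588869464064, 0, 0, 0⟩; ok v332 && (
  let v333 := add v131 v0; ok v333 && (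
  let v334 := mul v333 v333; ok v334 && (
  let v335 := sub v332 v334; ok v335 && (
  isPos 3 v335 && (
  let v336 := cst ⟨2694018236416, 0, 0, 0⟩; ok v336 && (
  let v337 := sub v336 v143; ok v337 && (
  let v338 := sub v337 v322; ok v338 && (
  let v339 := add v331 v131; ok v339 && (
  let v340 := add v339 v323; ok v340 && (
  let v341 := mul v340 v340; ok v341 && (
  let v342 := sub v338 v341; ok v342 && (
  isPos 3 v342 && (
  let v343 := mul v174 v328; ok v343 && (
  let v344 := scale ⟨10115506765824, 0, 0, 0⟩ v343; ok v344 && (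
  let v345 := sub v344 v336; ok v345 && (
  isPos 3 v345 && (
  let v346 := scale ⟨989560045568, 0, 0, 0⟩ v343; ok v346 && (
  let v347 := scale ⟨6601096298496, 0, 0, 0⟩ v95; ok v347 && (
  let v348 := sub v346 v347; ok v348 && (
  isPos 3 v348 && (
  isPos 3 v179 && (
  isPos 3 v171 && (
  isPos 3 v173 && (
  let v349 := mul v6 v165; ok v349 && (
  let v350 := scale ⟨2199023255552, 0, 0, 0⟩ v349; ok v350 && (
  let v351 := exp v350; ok v351 && (
  let v352 := mul v322 v351; ok v352 && (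
  let v353 := mul v12 v174; ok v353 && (
  let v354 := mul v353 v325; ok v354 && (
  let v355 := inv v354; ok v355 && (
  let v356 := mul v352 v355; ok v356 && (
  let v357 := sub v165 v356; ok v357 && (
  let v358 := cst ⟨646392578048, 0, 0, 0⟩; ok v358 && (
  let v359 := sub v357 v358; ok v359 && (
  isPos 3 v359 && (
  let v360 := sub v140 v322; ok v360 && (
  isPos 3 v360 && (
  let v361 := sub v0 v326; ok v361 && (
  let v362 := mul v174 v361; ok v362 && (
  let v363 := scale ⟨1607391510528, 0, 0, 0⟩ v362; ok v363 && (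
  let v364 := sub v363 v143; ok v364 && (
  let v365 := sub v364 v322; ok v365 && (
  isPos 3 v365 && (
  let v366 := mul v322 v48; ok v366 && (
  let v367 := add v150 v366; ok v367 && (
  let v368 := neg v367; ok v368 && (
  let v369 := scale ⟨498216206336, 0, 0, 0⟩ v6; ok v369 && (
  let v370 := add v368 v369; ok v370 && (
  let v371 := cst ⟨3518651957248, 0, 0, 0⟩; ok v371 && (
  let v372 := add v370 v371; ok v372 && (
  isPos 3 v372 && (
  let v373 := add v357 v0; ok v373 && (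
  let v374 := mul v13 v373; ok v374 && (
  let v375 := scale ⟨2199023255552, 0, 0, 0⟩ v374; ok v375 && (
  let v376 := mul v375 v375; ok v376 && (
  let v377 := mul v376 v3; ok v377 && (
  let v378 := add v377 v0; ok v378 && (
  let v379 := inv v378; ok v379 && (
  let v380 := mul v375 v379; ok v380 && (
  let v381 := mul v12 v373; ok v381 && (
  let v382 := mul v381 v379; ok v382 && (
  let v383 := mul v380 v380; ok v383 && (
  let v384 := scale ⟨274877906944, 0, 0, 0⟩ v383; ok v384 && (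
  let v385 := add v384 v0; ok v385 && (
  let v386 := mul v382 v385; ok v386 && (
  let v387 := mul v386 v48; ok v387 && (
  let v388 := mul v387 v174; ok v388 && (
  let v389 := mul v388 v328; ok v389 && (
  let v390 := mul v179 v389; ok v390 && (
  let v391 := neg v390; ok v391 && (
  let v392 := exp v391; ok v392 && (
  let v393 := add v373 v0; ok v393 && (
  let v394 := mul v13 v393; ok v394 && (
  let v395 := scale ⟨2199023255552, 0, 0, 0⟩ v394; ok v395 && (
  let v396 := mul v395 v395; ok v396 && (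
  let v397 := mul v396 v3; ok v397 && (
  let v398 := add v397 v0; ok v398 && (
  let v399 := inv v398; ok v399 && (
  let v400 := mul v395 v399; ok v400 && (
  let v401 := mul v12 v393; ok v401 && (
  let v402 := mul v401 v399; ok v402 && (
  let v403 := mul v400 v400; ok v403 && (
  let v404 := scale ⟨274877906944, 0, 0, 0⟩ v403; ok v404 && (
  let v405 := add v404 v0; ok v405 && (
  let v406 := mul v402 v405; ok v406 && (
  let v407 := mul v328 v88; ok v407 && (
  let v408 := neg v407; ok v408 && (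
  let v409 := add v408 v0; ok v409 && (
  let v410 := scale ⟨549755813888, 0, 0, 0⟩ v409; ok v410 && (
  let v411 := add v409 v0; ok v411 && (
  let v412 := neg v411; ok v412 && (
  let v413 := mul v410 v412; ok v413 && (
  let v414 := add v413 v0; ok v414 && (
  let v415 := mul v37 v414; ok v415 && (
  let v416 := mul v220 v407; ok v416 && (
  let v417 := mul v416 v406; ok v417 && (
  let v418 := scale ⟨549755813888, 0, 0, 0⟩ v417; ok v418 && (
  let v419 := mul v415 v175; ok v419 && (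
  let v420 := scale ⟨549755813888, 0, 0, 0⟩ v419; ok v420 && (
  let v421 := mul v419 v419; ok v421 && (
  let v422 := scale ⟨97184055296, 0, 0, 0⟩ v421; ok v422 && (
  let v423 := add v422 v228; ok v423 && (
  let v424 := add v420 v423; ok v424 && (
  let v425 := inv v424; ok v425 && (
  let v426 := mul v415 v425; ok v426 && (
  let v427 := add v426 v418; ok v427 && (
  let v428 := inv v427; ok v428 && (
  let v429 := add v175 v428; ok v429 && (
  let v430 := mul v392 v429; ok v430 && (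
  let v431 := mul v322 v47; ok v431 && (
  let v432 := mul v431 v430; ok v432 && (
  let v433 := mul v432 v299; ok v433 && (
  let v434 := add v366 v433; ok v434 && (
  let v435 := mul v434 v94; ok v435 && (
  let v436 := scale ⟨549755813888, 0, 0, 0⟩ v434; ok v436 && (
  let v437 := sub v0 v436; ok v437 && (
  isPos 3 v437 && (
  let v438 := inv v437; ok v438 && (
  let v439 := add v436 v0; ok v439 && (
  let v440 := mul v439 v438; ok v440 && (
  let v441 := mul v143 v49; ok v441 && (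
  let v442 := scale ⟨2199023255552, 0, 0, 0⟩ v46; ok v442 && (
  let v443 := add v441 v442; ok v443 && (
  let v444 := mul v441 v443; ok v444 && (
  let v445 := add v160 v444; ok v445 && (
  let v446 := mul v441 v441; ok v446 && (
  let v447 := add v160 v446; ok v447 && (
  let v448 := mul v49 v447; ok v448 && (
  let v449 := sub v445 v0; ok v449 && (
  let v450 := scale ⟨549755813888, 0, 0, 0⟩ v449; ok v450 && (
  let v451 := add v450 v0; ok v451 && (
  let v452 := scale ⟨285615325184, 0, 0, 0⟩ x1; ok v452 && (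
  let v453 := cst ⟨59861106688, 0, 0, 0⟩; ok v453 && (
  let v454 := add v452 v453; ok v454 && (
  let v455 := mul v435 v438; ok v455 && (
  let v456 := mul v440 v392; ok v456 && (
  let v457 := mul v456 v454; ok v457 && (
  let v458 := add v451 v448; ok v458 && (
  let v459 := add v458 v323; ok v459 && (
  let v460 := mul v457 v459; ok v460 && (
  let v461 := add v455 v460; ok v461 && (
  let v462 := neg v461; ok v462 && (
  let v463 := scale ⟨1073741824, 0, 0, 0⟩ v6; ok v463 && (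
  let v464 := sub v0 v463; ok v464 && (
  let v465 := mul v464 v92; ok v465 && (
  let v466 := add v462 v465; ok v466 && (
  isPos 3 v466 && (
  let v467 := scale ⟨3454218010624, 0, 0, 0⟩ v5; ok v467 && (
  let v468 := mul v467 v309; ok v468 && (
  let v469 := scale ⟨3454218010624, 0, 0, 0⟩ v4; ok v469 && (
  let v470 := mul v469 v74; ok v470 && (
  let v471 := add v468 v470; ok v471 && (
  let v472 := scale ⟨617925836800, 0, 0, 0⟩ v95; ok v472 && (
  let v473 := mul v98 v98; ok v473 && (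
  let v474 := scale ⟨582741917696, 0, 0, 0⟩ v473; ok v474 && (
  let v475 := add v472 v474; ok v475 && (
  let v476 := scale ⟨472790335488, 0, 0, 0⟩ v7; ok v476 && (
  let v477 := add v475 v476; ok v477 && (
  let v478 := scale ⟨3454218010624, 0, 0, 0⟩ v477; ok v478 && (
  let v479 := add v471 v478; ok v479 && (
  let v480 := mul v48 v95; ok v480 && (
  let v481 := scale ⟨175922741248, 0, 0, 0⟩ v480; ok v481 && (
  let v482 := add v479 v481; ok v482 && (
  let v483 := scale ⟨1165482786816, 0, 0, 0⟩ v98; ok v483 && (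
  let v484 := scale ⟨307864010752, 0, 0, 0⟩ v7; ok v484 && (
  let v485 := add v483 v484; ok v485 && (
  let v486 := mul v53 v485; ok v486 && (
  let v487 := add v482 v486; ok v487 && (
  let v488 := scale ⟨10851745529856, 0, 0, 0⟩ v5; ok v488 && (
  let v489 := scale ⟨615726972928, 0, 0, 0⟩ v473; ok v489 && (
  let v490 := scale ⟨329853698048, 0, 0, 0⟩ v7; ok v490 && (
  let v491 := add v489 v490; ok v491 && (
  let v492 := mul v488 v491; ok v492 && (
  let v493 := add v487 v492; ok v493 && (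
  let v494 := scale ⟨1110506995712, 0, 0, 0⟩ v493; ok v494 && (
  let v495 := add v309 v494; ok v495 && (
  let v496 := neg v495; ok v496 && (
  let v497 := cst ⟨989560045568, 0, 0, 0⟩; ok v497 && (
  let v498 := add v496 v497; ok v498 && (
  isPos 3 v498 && (
  true))))))))))))))))))))))))))))))))))))))))))))))))))))))))))))))))))))))))))))))))))))))))))))))))))))))))))))))))))))))))))))))))))))))))))))))))))))))))))))))))))))))))))))))))))))))))))))))))))))))))))))))))))))))))))))))))))))))))))))))))))))))))))))))))))))))))))))))))))))))))))))))))))))))))))))))))))))))))))))))))))))))))))))))))))))))))))))))))))))))))))))))))))))))))))))))))))))))))))))))))))))))))))))))))))))))))))))))))))))))))))))))))))))))))))))))))))))))))))))))))))))))))))))))))))))))))))))))))))))))))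
  | _ => false

set_option maxRecDepth 1000000 in
theorem chk0_eq (O : Ops) (m : List O.α)
    (h : chk0 O.cst O.add O.sub O.mul O.scale O.neg O.inv O.exp O.log O.ok O.isPos O.isLt m = true) :
    runG O 3 prog0 m = true := by
  match m, h with
  | [x0, x1, x2], h => exact h

def chkB0 : List opsE.α → Bool :=
  chk0 opsE.cst opsE.add opsE.sub opsE.mul opsE.scale opsE.neg opsE.inv opsE.exp opsE.log opsE.ok opsE.isPos opsE.isLt

theorem chkB0_eq (m : List opsE.α) (h : chkB0 m = true) : runG opsE 3 prog0 m = true :=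
  chk0_eq opsE m h

def prog1 : List Op := [
  .const ⟨1099511627776, 0, 0, 0⟩,
  .const ⟨3298534883328, 0, 0, 0⟩,
  .inv 0,
  .mul 2 0,
  .mul 4 5,
  .mul 0 0,
  .mul 6 1,
  .mul 0 0,
  .const ⟨6597069766656, 0, 0, 0⟩,
  .inv 0,
  .mul 9 0,
  .mul 3 0,
  .sub 11 0,
  .mul 6 0,
  .scale ⟨3848290697216, 0, 0, 0⟩ 15,
  .mul 0 0,
  .const ⟨549755813888, 0, 0, 0⟩,
  .scale ⟨137438953472, 0, 0, 0⟩ 1,
  .sub 1 0,
  .mul 3 0,
  .add 19 0,
  .inv 0,
  .mul 7 0,
  .mul 0 0,
  .mul 1 19,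
  .const ⟨1099243192320, 0, 0, 0⟩,
  .scale ⟨3111703805952, 0, 0, 0⟩ 1,
  .sub 1 0,
  .scale ⟨25288767438848, 0, 0, 0⟩ 22,
  .sub 1 0,
  .scale ⟨549755813888, 0, 0, 0⟩ 22,
  .sub 1 0,
  .scale ⟨1556388773888, 0, 0, 0⟩ 7,
  .sub 7 0,
  .scale ⟨20890720927744, 0, 0, 0⟩ 28,
  .sub 1 0,
  .scale ⟨593779228672, 0, 0, 0⟩ 28,
  .sub 1 0,
  .mul 40 40,
  .mul 40 40,
  .mul 1 0,
  .add 0 40,
  .log 0,
  .scale ⟨549755813888, 0, 0, 0⟩ 0,
  .exp 0,
  .neg 1,
  .exp 0,
  .mul 47 2,
  .mul 0 0,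
  .mul 1 44,
  .mul 51 3,
  .mul 53 0,
  .mul 1 1,
  .mul 53 53,
  .mul 0 49,
  .scale ⟨549755813888, 0, 0, 0⟩ 55,
  .scale ⟨301807435776, 0, 0, 0⟩ 51,
  .add 1 0,
  .scale ⟨767937216512, 0, 0, 0⟩ 7,
  .add 1 0,
  .scale ⟨0, 763549974528, 0, 0⟩ 12,
  .const ⟨1832518680576, 0, 0, 0⟩,
  .add 1 0,
  .scale ⟨1535874433024, 0, 0, 0⟩ 64,
  .mul 1 0,
  .scale ⟨603614871552, 0, 0, 0⟩ 66,
  .add 1 0,
  .add 0 66,
  .pos 0,
  .mul 63 29,
  .mul 0 70,
  .inv 2,
  .mul 1 0,
  .add 12 0,
  .scale ⟨274877906944, 0, 0, 0⟩ 1,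
  .add 14 0,
  .scale ⟨1759219023872, 0, 0, 0⟩ 26,
  .const ⟨762123911168, 0, 0, 0⟩,
  .add 1 0,
  .mul 72 0,
  .scale ⟨549755813888, 0, 0, 0⟩ 65,
  .sub 1 0,
  .exp 0,
  .scale ⟨324538466304, 0, 0, 0⟩ 37,
  .scale ⟨5388036472832, 0, 0, 0⟩ 59,
  .const ⟨1347009118208, 0, 0, 0⟩,
  .add 1 0,
  .mul 80 80,
  .scale ⟨549755813888000, 0, 0, 0⟩ 0,
  .sub 87 0,
  .scale ⟨4398046511104, 0, 0, 0⟩ 90,
  .add 0 89,
  .scale ⟨324538466304, 0, 0, 0⟩ 0,
  .scale ⟨274877906944, 0, 0, 0⟩ 0,
  .scale ⟨274877906944, 0, 0, 0⟩ 46,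
  .add 43 0,
  .mul 46 89,
  .mul 91 23,
  .scale ⟨1132797624320, 0, 0, 0⟩ 91,
  .add 1 0,
  .exp 0,
  .mul 0 0,
  .neg 2,
  .const ⟨61083746304, 0, 0, 0⟩,
  .add 1 0,
  .pos 0,
  .scale ⟨2748779069440, 0, 0, 0⟩ 106,
  .add 29 0,
  .mul 0 100,
  .scale ⟨274877906944, 0, 0, 0⟩ 99,
  .sub 107 0,
  .mul 12 36,
  .scale ⟨549755813888, 0, 0, 0⟩ 0,
  .scale ⟨157073539072, 0, 0, 0⟩ 56,
  .add 1 0,
  .mul 13 0,
  .add 39 0,
  .mul 63 0,
  .scale ⟨1649267441664, 0, 0, 0⟩ 15,
  .const ⟨1649267441664, 0, 0, 0⟩,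
  .sub 1 0,
  .scale ⟨824633720832, 0, 0, 0⟩ 111,
  .add 1 0,
  .mul 123 115,
  .add 1 0,
  .add 0 16,
  .mul 76 0,
  .add 9 0,
  .mul 128 74,
  .mul 0 121,
  .scale ⟨137438953472, 0, 0, 0⟩ 0,
  .mul 74 0,
  .add 4 0,
  .mul 0 126,
  .sub 130 15,
  .mul 24 0,
  .mul 87 87,
  .scale ⟨549755813888, 0, 0, 0⟩ 0,
  .sub 2 0,
  .mul 85 85,
  .mul 0 38,
  .sub 2 0,
  .sub 0 33,
  .mul 32 5,
  .sub 25 0,
  .add 0 36,
  .mul 146 62,
  .mul 49 147,
  .mul 0 45,
  .scale ⟨2199023255552, 0, 0, 0⟩ 0,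
  .add 3 0,
  .mul 100 42,
  .add 1 0,
  .mul 99 69,
  .mul 56 100,
  .mul 0 52,
  .scale ⟨2199023255552, 0, 0, 0⟩ 0,
  .add 3 0,
  .mul 106 49,
  .add 1 0,
  .mul 17 108,
  .mul 1 1,
  .add 25 0,
  .scale ⟨1098437885952, 0, 0, 0⟩ 20,
  .mul 3 3,
  .add 2 0,
  .inv 0,
  .mul 3 0,
  .neg 0,
  .add 0 166,
  .pos 0,
  .mul 30 72,
  .scale ⟨2199023255552, 0, 0, 0⟩ 0,
  .sub 169 0,
  .sub 0 39,
  .mul 40 40,
  .sub 1 0,
  .mul 0 0,
  .mul 127 1,
  .scale ⟨8796093022208, 0, 0, 0⟩ 170,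
  .sub 145 0,
  .mul 82 92,
  .sub 1 0,
  .mul 166 14,
  .scale ⟨2199023255552, 0, 0, 0⟩ 0,
  .mul 0 0,
  .mul 0 179,
  .add 0 183,
  .inv 0,
  .mul 4 0,
  .mul 174 21,
  .mul 0 2,
  .mul 2 2,
  .scale ⟨274877906944, 0, 0, 0⟩ 0,
  .add 0 190,
  .mul 3 0,
  .add 27 192,
  .mul 180 0,
  .scale ⟨2199023255552, 0, 0, 0⟩ 0,
  .mul 0 0,
  .mul 0 193,
  .add 0 197,
  .inv 0,
  .mul 4 0,
  .mul 188 7,
  .mul 0 2,
  .mul 2 2,
  .scale ⟨274877906944, 0, 0, 0⟩ 0,
  .add 0 204,
  .mul 3 0,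
  .mul 14 158,
  .mul 0 33,
  .mul 29 0,
  .neg 0,
  .exp 0,
  .neg 123,
  .add 0 212,
  .scale ⟨549755813888, 0, 0, 0⟩ 0,
  .add 1 214,
  .neg 0,
  .mul 2 0,
  .add 0 217,
  .mul 181 0,
  .mul 188 44,
  .mul 0 132,
  .mul 0 15,
  .scale ⟨549755813888, 0, 0, 0⟩ 0,
  .mul 4 48,
  .scale ⟨549755813888, 0, 0, 0⟩ 0,
  .mul 1 1,
  .scale ⟨97184055296, 0, 0, 0⟩ 0,
  .const ⟨1554944884736, 0, 0, 0⟩,
  .add 1 0,
  .add 4 0,
  .inv 0,
  .mul 12 0,
  .add 0 9,
  .inv 0,
  .add 59 0,
  .mul 24 0,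
  .const ⟨2199023255552, 0, 0, 0⟩,
  .add 72 0,
  .mul 225 0,
  .scale ⟨2199023255552, 0, 0, 0⟩ 0,
  .mul 0 0,
  .mul 0 238,
  .add 0 242,
  .inv 0,
  .mul 4 0,
  .mul 233 7,
  .mul 0 2,
  .mul 2 2,
  .scale ⟨274877906944, 0, 0, 0⟩ 0,
  .add 0 249,
  .mul 3 0,
  .mul 163 163,
  .neg 0,
  .add 0 253,
  .scale ⟨549755813888, 0, 0, 0⟩ 0,
  .add 1 255,
  .neg 0,
  .mul 2 0,
  .add 0 258,
  .mul 222 0,
  .mul 40 8,
  .mul 0 10,
  .scale ⟨549755813888, 0, 0, 0⟩ 0,
  .mul 3 88,
  .scale ⟨549755813888, 0, 0, 0⟩ 0,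
  .mul 1 1,
  .scale ⟨97184055296, 0, 0, 0⟩ 0,
  .add 0 39,
  .add 3 0,
  .inv 0,
  .mul 10 0,
  .add 0 8,
  .inv 0,
  .mul 67 225,
  .mul 0 100,
  .mul 0 187,
  .mul 97 0,
  .neg 0,
  .exp 0,
  .add 104 6,
  .mul 1 0,
  .sub 281 199,
  .pos 0,
  .inv 0,
  .scale ⟨549755813888, 0, 0, 0⟩ 201,
  .add 284 0,
  .mul 203 203,
  .mul 0 3,
  .scale ⟨366504574976, 0, 0, 0⟩ 0,
  .add 3 0,
  .mul 78 207,
  .scale ⟨549755813888, 0, 0, 0⟩ 0,
  .add 291 0,
  .mul 2 2,
  .sub 293 3,
  .inv 0,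
  .mul 2 0,
  .scale ⟨366504574976, 0, 0, 0⟩ 0,
  .add 5 0,
  .inv 125,
  .mul 169 252,
  .mul 170 19,
  .mul 0 2,
  .add 2 0,
  .mul 221 14,
  .add 1 0,
  .mul 175 69,
  .mul 0 7,
  .mul 17 9,
  .add 1 0,
  .mul 312 4,
  .mul 0 258,
  .neg 6,
  .const ⟨1132797624320, 0, 0, 0⟩,
  .add 1 0,
  .pos 0,
  .neg 5,
  .add 0 2,
  .pos 0,
  .scale ⟨1165482786816, 0, 0, 0⟩ 216,
  .scale ⟨2199023255552, 0, 0, 0⟩ 12,
  .add 0 9,
  .mul 314 0,
  .add 9 0,
  .mul 4 0,
  .mul 0 273,
  .mul 0 24,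
  .sub 324 0,
  .pos 0,
  .scale ⟨2199023255552, 0, 0, 0⟩ 1,
  .neg 0,
  .add 0 239,
  .sub 168 328,
  .scale ⟨549755813888, 0, 0, 0⟩ 0,
  .add 0 330,
  .const ⟨1588869464064, 0, 0, 0⟩,
  .add 201 332,
  .mul 0 0,
  .sub 2 0,
  .pos 0,
  .const ⟨2694018236416, 0, 0, 0⟩,
  .sub 0 193,
  .sub 0 15,
  .add 7 207,
  .add 0 16,
  .mul 0 0,
  .sub 3 0,
  .pos 0,
  .mul 168 14,
  .scale ⟨10115506765824, 0, 0, 0⟩ 0,
  .sub 0 8,
  .pos 0,
  .scale ⟨989560045568, 0, 0, 0⟩ 2,
  .scale ⟨6601096298496, 0, 0, 0⟩ 251,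
  .sub 1 0,
  .pos 0,
  .pos 169,
  .pos 177,
  .pos 175,
  .mul 342 183,
  .scale ⟨2199023255552, 0, 0, 0⟩ 0,
  .exp 0,
  .mul 29 0,
  .mul 340 178,
  .mul 0 28,
  .inv 0,
  .mul 3 0,
  .sub 191 0,
  .const ⟨646392578048, 0, 0, 0⟩,
  .sub 1 0,
  .pos 0,
  .sub 219 37,
  .pos 0,
  .sub 360 34,
  .mul 187 0,
  .scale ⟨1607391510528, 0, 0, 0⟩ 0,
  .sub 0 220,
  .sub 0 42,
  .pos 0,
  .mul 43 317,
  .add 216 0,
  .neg 0,
  .scale ⟨498216206336, 0, 0, 0⟩ 362,
  .add 1 0,
  .const ⟨3518651957248, 0, 0, 0⟩,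
  .add 1 0,
  .pos 0,
  .add 15 372,
  .mul 360 0,
  .scale ⟨2199023255552, 0, 0, 0⟩ 0,
  .mul 0 0,
  .mul 0 373,
  .add 0 377,
  .inv 0,
  .mul 4 0,
  .mul 368 7,
  .mul 0 2,
  .mul 2 2,
  .scale ⟨274877906944, 0, 0, 0⟩ 0,
  .add 0 384,
  .mul 3 0,
  .mul 0 338,
  .mul 0 213,
  .mul 0 60,
  .mul 210 0,
  .neg 0,
  .exp 0,
  .add 19 392,
  .mul 380 0,
  .scale ⟨2199023255552, 0, 0, 0⟩ 0,
  .mul 0 0,
  .mul 0 393,
  .add 0 397,
  .inv 0,
  .mul 4 0,
  .mul 388 7,
  .mul 0 2,
  .mul 2 2,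
  .scale ⟨274877906944, 0, 0, 0⟩ 0,
  .add 0 404,
  .mul 3 0,
  .mul 78 318,
  .neg 0,
  .add 0 408,
  .scale ⟨549755813888, 0, 0, 0⟩ 0,
  .add 1 410,
  .neg 0,
  .mul 2 0,
  .add 0 413,
  .mul 377 0,
  .mul 195 8,
  .mul 0 10,
  .scale ⟨549755813888, 0, 0, 0⟩ 0,
  .mul 3 243,
  .scale ⟨549755813888, 0, 0, 0⟩ 0,
  .mul 1 1,
  .scale ⟨97184055296, 0, 0, 0⟩ 0,
  .add 0 194,
  .add 3 0,
  .inv 0,
  .mul 10 0,
  .add 0 8,
  .inv 0,
  .add 253 0,
  .mul 37 0,
  .mul 108 383,
  .mul 0 1,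
  .mul 0 133,
  .add 67 0,
  .mul 0 340,
  .scale ⟨549755813888, 0, 0, 0⟩ 1,
  .sub 436 0,
  .pos 0,
  .inv 0,
  .add 2 438,
  .mul 0 1,
  .mul 297 391,
  .scale ⟨2199023255552, 0, 0, 0⟩ 395,
  .add 1 0,
  .mul 2 0,
  .add 284 0,
  .mul 4 4,
  .add 286 0,
  .mul 398 0,
  .sub 3 448,
  .scale ⟨549755813888, 0, 0, 0⟩ 0,
  .add 0 450,
  .scale ⟨285615325184, 0, 0, 0⟩ 453,
  .const ⟨59861106688, 0, 0, 0⟩,
  .add 1 0,
  .mul 19 16,
  .mul 15 63,
  .mul 0 2,
  .add 6 9,
  .add 0 135,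
  .mul 2 0,
  .add 5 0,
  .neg 0,
  .scale ⟨1073741824, 0, 0, 0⟩ 456,
  .sub 463 0,
  .mul 0 372,
  .add 3 0,
  .pos 0,
  .scale ⟨3454218010624, 0, 0, 0⟩ 461,
  .mul 0 158,
  .scale ⟨3454218010624, 0, 0, 0⟩ 464,
  .mul 0 395,
  .add 2 0,
  .scale ⟨617925836800, 0, 0, 0⟩ 376,
  .mul 374 374,
  .scale ⟨582741917696, 0, 0, 0⟩ 0,
  .add 2 0,
  .scale ⟨472790335488, 0, 0, 0⟩ 468,
  .add 1 0,
  .scale ⟨3454218010624, 0, 0, 0⟩ 0,
  .add 7 0,
  .mul 431 384,
  .scale ⟨175922741248, 0, 0, 0⟩ 0,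
  .add 2 0,
  .scale ⟨1165482786816, 0, 0, 0⟩ 384,
  .scale ⟨307864010752, 0, 0, 0⟩ 476,
  .add 1 0,
  .mul 432 0,
  .add 4 0,
  .scale ⟨10851745529856, 0, 0, 0⟩ 482,
  .scale ⟨615726972928, 0, 0, 0⟩ 15,
  .scale ⟨329853698048, 0, 0, 0⟩ 482,
  .add 1 0,
  .mul 3 0,
  .add 5 0,
  .scale ⟨1110506995712, 0, 0, 0⟩ 0,
  .add 185 0,
  .neg 0,
  .const ⟨989560045568, 0, 0, 0⟩,
  .add 1 0,
  .pos 0]

def chk1 {α : Type} (cst : Z → α) (add sub mul : α → α → α) (scale : Z → α → α)
    (neg inv exp log : α → α) (ok : α → Bool) (isPos : Nat → α → Bool) (isLt : α → Nat → Bool) :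
    List α → Bool
  | [x0, x1, x2] =>
  let v0 := cst ⟨1099511627776, 0, 0, 0⟩; ok v0 && (
  let v1 := cst ⟨3298534883328, 0, 0, 0⟩; ok v1 && (
  let v2 := inv v1; ok v2 && (
  let v3 := mul v0 v2; ok v3 && (
  let v4 := mul x0 x1; ok v4 && (
  let v5 := mul v4 v4; ok v5 && (
  let v6 := mul x0 v4; ok v6 && (
  let v7 := mul v6 v6; ok v7 && (
  let v8 := cst ⟨6597069766656, 0, 0, 0⟩; ok v8 && (
  let v9 := inv v8; ok v9 && (
  let v10 := mul v0 v9; ok v10 && (
  let v11 := mul v7 v10; ok v11 && (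
  let v12 := sub v0 v11; ok v12 && (
  let v13 := mul v6 v12; ok v13 && (
  let v14 := scale ⟨3848290697216, 0, 0, 0⟩ x1; ok v14 && (
  let v15 := mul v14 v14; ok v15 && (
  let v16 := cst ⟨549755813888, 0, 0, 0⟩; ok v16 && (
  let v17 := scale ⟨137438953472, 0, 0, 0⟩ v15; ok v17 && (
  let v18 := sub v16 v17; ok v18 && (
  let v19 := mul v15 v18; ok v19 && (
  let v20 := add v0 v19; ok v20 && (
  let v21 := inv v20; ok v21 && (
  let v22 := mul v14 v21; ok v22 && (
  let v23 := mul v22 v22; ok v23 && (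
  let v24 := mul v22 v4; ok v24 && (
  let v25 := cst ⟨1099243192320, 0, 0, 0⟩; ok v25 && (
  let v26 := scale ⟨3111703805952, 0, 0, 0⟩ v24; ok v26 && (
  let v27 := sub v25 v26; ok v27 && (
  let v28 := scale ⟨25288767438848, 0, 0, 0⟩ v5; ok v28 && (
  let v29 := sub v27 v28; ok v29 && (
  let v30 := scale ⟨549755813888, 0, 0, 0⟩ v7; ok v30 && (
  let v31 := sub v29 v30; ok v31 && (
  let v32 := scale ⟨1556388773888, 0, 0, 0⟩ v24; ok v32 && (
  let v33 := sub v25 v32; ok v33 && (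
  let v34 := scale ⟨20890720927744, 0, 0, 0⟩ v5; ok v34 && (
  let v35 := sub v33 v34; ok v35 && (
  let v36 := scale ⟨593779228672, 0, 0, 0⟩ v7; ok v36 && (
  let v37 := sub v35 v36; ok v37 && (
  let v38 := mul x2 x2; ok v38 && (
  let v39 := mul x1 x1; ok v39 && (
  let v40 := mul v38 v39; ok v40 && (
  let v41 := add v40 v0; ok v41 && (
  let v42 := log v41; ok v42 && (
  let v43 := scale ⟨549755813888, 0, 0, 0⟩ v42; ok v43 && (
  let v44 := exp v43; ok v44 && (
  let v45 := neg v43; ok v45 && (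
  let v46 := exp v45; ok v46 && (
  let v47 := mul x0 v44; ok v47 && (
  let v48 := mul v47 v47; ok v48 && (
  let v49 := mul v47 v4; ok v49 && (
  let v50 := mul x1 v46; ok v50 && (
  let v51 := mul x2 v50; ok v51 && (
  let v52 := mul v50 v50; ok v52 && (
  let v53 := mul x0 x0; ok v53 && (
  let v54 := mul v53 v4; ok v54 && (
  let v55 := scale ⟨549755813888, 0, 0, 0⟩ x0; ok v55 && (
  let v56 := scale ⟨301807435776, 0, 0, 0⟩ v4; ok v56 && (
  let v57 := add v55 v56; ok v57 && (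
  let v58 := scale ⟨767937216512, 0, 0, 0⟩ v50; ok v58 && (
  let v59 := add v57 v58; ok v59 && (
  let v60 := scale ⟨0, 763549974528, 0, 0⟩ v47; ok v60 && (
  let v61 := cst ⟨1832518680576, 0, 0, 0⟩; ok v61 && (
  let v62 := add v60 v61; ok v62 && (
  let v63 := scale ⟨1535874433024, 0, 0, 0⟩ x1; ok v63 && (
  let v64 := mul v62 v63; ok v64 && (
  let v65 := scale ⟨603614871552, 0, 0, 0⟩ x1; ok v65 && (
  let v66 := add v64 v65; ok v66 && (
  let v67 := add v66 v0; ok v67 && (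
  isPos 3 v67 && (
  let v68 := mul v4 v38; ok v68 && (
  let v69 := mul v68 x1; ok v69 && (
  let v70 := inv v67; ok v70 && (
  let v71 := mul v69 v70; ok v71 && (
  let v72 := add v59 v71; ok v72 && (
  let v73 := scale ⟨274877906944, 0, 0, 0⟩ v71; ok v73 && (
  let v74 := add v59 v73; ok v74 && (
  let v75 := scale ⟨1759219023872, 0, 0, 0⟩ v48; ok v75 && (
  let v76 := cst ⟨762123911168, 0, 0, 0⟩; ok v76 && (
  let v77 := add v75 v76; ok v77 && (
  let v78 := mul v5 v77; ok v78 && (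
  let v79 := scale ⟨549755813888, 0, 0, 0⟩ v13; ok v79 && (
  let v80 := sub v78 v79; ok v80 && (
  let v81 := exp v80; ok v81 && (
  let v82 := scale ⟨324538466304, 0, 0, 0⟩ v44; ok v82 && (
  let v83 := scale ⟨5388036472832, 0, 0, 0⟩ v23; ok v83 && (
  let v84 := cst ⟨1347009118208, 0, 0, 0⟩; ok v84 && (
  let v85 := add v83 v84; ok v85 && (
  let v86 := mul v5 v5; ok v86 && (
  let v87 := scale ⟨549755813888000, 0, 0, 0⟩ v86; ok v87 && (
  let v88 := sub v0 v87; ok v88 && (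
  let v89 := scale ⟨4398046511104, 0, 0, 0⟩ x1; ok v89 && (
  let v90 := add v89 v0; ok v90 && (
  let v91 := scale ⟨324538466304, 0, 0, 0⟩ v90; ok v91 && (
  let v92 := scale ⟨274877906944, 0, 0, 0⟩ v91; ok v92 && (
  let v93 := scale ⟨274877906944, 0, 0, 0⟩ v46; ok v93 && (
  let v94 := add v50 v93; ok v94 && (
  let v95 := mul v48 v5; ok v95 && (
  let v96 := mul v4 v72; ok v96 && (
  let v97 := scale ⟨1132797624320, 0, 0, 0⟩ v5; ok v97 && (
  let v98 := add v96 v97; ok v98 && (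
  let v99 := exp v98; ok v99 && (
  let v100 := mul v99 v99; ok v100 && (
  let v101 := neg v98; ok v101 && (
  let v102 := cst ⟨61083746304, 0, 0, 0⟩; ok v102 && (
  let v103 := add v101 v102; ok v103 && (
  isPos 3 v103 && (
  let v104 := scale ⟨2748779069440, 0, 0, 0⟩ x2; ok v104 && (
  let v105 := add v75 v104; ok v105 && (
  let v106 := mul v105 v5; ok v106 && (
  let v107 := scale ⟨274877906944, 0, 0, 0⟩ v7; ok v107 && (
  let v108 := sub v0 v107; ok v108 && (
  let v109 := mul v96 v72; ok v109 && (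
  let v110 := scale ⟨549755813888, 0, 0, 0⟩ v109; ok v110 && (
  let v111 := scale ⟨157073539072, 0, 0, 0⟩ v54; ok v111 && (
  let v112 := add v110 v111; ok v112 && (
  let v113 := mul v99 v112; ok v113 && (
  let v114 := add v74 v113; ok v114 && (
  let v115 := mul v51 v114; ok v115 && (
  let v116 := scale ⟨1649267441664, 0, 0, 0⟩ v100; ok v116 && (
  let v117 := cst ⟨1649267441664, 0, 0, 0⟩; ok v117 && (
  let v118 := sub v116 v117; ok v118 && (
  let v119 := scale ⟨824633720832, 0, 0, 0⟩ v7; ok v119 && (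
  let v120 := add v118 v119; ok v120 && (
  let v121 := mul x2 v5; ok v121 && (
  let v122 := add v120 v121; ok v122 && (
  let v123 := add v122 v106; ok v123 && (
  let v124 := mul v47 v123; ok v124 && (
  let v125 := add v115 v124; ok v125 && (
  let v126 := mul x2 v51; ok v126 && (
  let v127 := mul v126 v5; ok v127 && (
  let v128 := scale ⟨137438953472, 0, 0, 0⟩ v127; ok v128 && (
  let v129 := mul v54 v128; ok v129 && (
  let v130 := add v125 v129; ok v130 && (
  let v131 := mul v130 v4; ok v131 && (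
  let v132 := sub v1 v116; ok v132 && (
  let v133 := mul v108 v132; ok v133 && (
  let v134 := mul v46 v46; ok v134 && (
  let v135 := scale ⟨549755813888, 0, 0, 0⟩ v134; ok v135 && (
  let v136 := sub v133 v135; ok v136 && (
  let v137 := mul v51 v51; ok v137 && (
  let v138 := mul v137 v99; ok v138 && (
  let v139 := sub v136 v138; ok v139 && (
  let v140 := sub v139 v106; ok v140 && (
  let v141 := mul v108 v135; ok v141 && (
  let v142 := sub v116 v141; ok v142 && (
  let v143 := add v142 v106; ok v143 && (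
  let v144 := mul x2 v81; ok v144 && (
  let v145 := mul v95 x2; ok v145 && (
  let v146 := mul v145 v100; ok v146 && (
  let v147 := scale ⟨2199023255552, 0, 0, 0⟩ v146; ok v147 && (
  let v148 := add v144 v147; ok v148 && (
  let v149 := mul v48 v106; ok v149 && (
  let v150 := add v148 v149; ok v150 && (
  let v151 := mul v51 v81; ok v151 && (
  let v152 := mul v95 v51; ok v152 && (
  let v153 := mul v152 v100; ok v153 && (
  let v154 := scale ⟨2199023255552, 0, 0, 0⟩ v153; ok v154 && (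
  let v155 := add v151 v154; ok v155 && (
  let v156 := mul v49 v106; ok v156 && (
  let v157 := add v155 v156; ok v157 && (
  let v158 := mul v140 v49; ok v158 && (
  let v159 := mul v157 v157; ok v159 && (
  let v160 := add v134 v159; ok v160 && (
  let v161 := scale ⟨1098437885952, 0, 0, 0⟩ v140; ok v161 && (
  let v162 := mul v158 v158; ok v162 && (
  let v163 := add v160 v162; ok v163 && (
  let v164 := inv v163; ok v164 && (
  let v165 := mul v161 v164; ok v165 && (
  let v166 := neg v165; ok v166 && (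
  let v167 := add v166 v0; ok v167 && (
  isPos 3 v167 && (
  let v168 := mul v137 v95; ok v168 && (
  let v169 := scale ⟨2199023255552, 0, 0, 0⟩ v168; ok v169 && (
  let v170 := sub v0 v169; ok v170 && (
  let v171 := sub v170 v131; ok v171 && (
  let v172 := mul v131 v131; ok v172 && (
  let v173 := sub v171 v172; ok v173 && (
  let v174 := mul v173 v173; ok v174 && (
  let v175 := mul v47 v173; ok v175 && (
  let v176 := scale ⟨8796093022208, 0, 0, 0⟩ v5; ok v176 && (
  let v177 := sub v31 v176; ok v177 && (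
  let v178 := mul v95 v85; ok v178 && (
  let v179 := sub v177 v178; ok v179 && (
  let v180 := mul v13 v165; ok v180 && (
  let v181 := scale ⟨2199023255552, 0, 0, 0⟩ v180; ok v181 && (
  let v182 := mul v181 v181; ok v182 && (
  let v183 := mul v182 v3; ok v183 && (
  let v184 := add v183 v0; ok v184 && (
  let v185 := inv v184; ok v185 && (
  let v186 := mul v181 v185; ok v186 && (
  let v187 := mul v12 v165; ok v187 && (
  let v188 := mul v187 v185; ok v188 && (
  let v189 := mul v186 v186; ok v189 && (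
  let v190 := scale ⟨274877906944, 0, 0, 0⟩ v189; ok v190 && (
  let v191 := add v190 v0; ok v191 && (
  let v192 := mul v188 v191; ok v192 && (
  let v193 := add v165 v0; ok v193 && (
  let v194 := mul v13 v193; ok v194 && (
  let v195 := scale ⟨2199023255552, 0, 0, 0⟩ v194; ok v195 && (
  let v196 := mul v195 v195; ok v196 && (
  let v197 := mul v196 v3; ok v197 && (
  let v198 := add v197 v0; ok v198 && (
  let v199 := inv v198; ok v199 && (
  let v200 := mul v195 v199; ok v200 && (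
  let v201 := mul v12 v193; ok v201 && (
  let v202 := mul v201 v199; ok v202 && (
  let v203 := mul v200 v200; ok v203 && (
  let v204 := scale ⟨274877906944, 0, 0, 0⟩ v203; ok v204 && (
  let v205 := add v204 v0; ok v205 && (
  let v206 := mul v202 v205; ok v206 && (
  let v207 := mul v192 v48; ok v207 && (
  let v208 := mul v207 v174; ok v208 && (
  let v209 := mul v179 v208; ok v209 && (
  let v210 := neg v209; ok v210 && (
  let v211 := exp v210; ok v211 && (
  let v212 := neg v88; ok v212 && (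
  let v213 := add v212 v0; ok v213 && (
  let v214 := scale ⟨549755813888, 0, 0, 0⟩ v213; ok v214 && (
  let v215 := add v213 v0; ok v215 && (
  let v216 := neg v215; ok v216 && (
  let v217 := mul v214 v216; ok v217 && (
  let v218 := add v217 v0; ok v218 && (
  let v219 := mul v37 v218; ok v219 && (
  let v220 := mul v31 v175; ok v220 && (
  let v221 := mul v220 v88; ok v221 && (
  let v222 := mul v221 v206; ok v222 && (
  let v223 := scale ⟨549755813888, 0, 0, 0⟩ v222; ok v223 && (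
  let v224 := mul v219 v175; ok v224 && (
  let v225 := scale ⟨549755813888, 0, 0, 0⟩ v224; ok v225 && (
  let v226 := mul v224 v224; ok v226 && (
  let v227 := scale ⟨97184055296, 0, 0, 0⟩ v226; ok v227 && (
  let v228 := cst ⟨1554944884736, 0, 0, 0⟩; ok v228 && (
  let v229 := add v227 v228; ok v229 && (
  let v230 := add v225 v229; ok v230 && (
  let v231 := inv v230; ok v231 && (
  let v232 := mul v219 v231; ok v232 && (
  let v233 := add v232 v223; ok v233 && (
  let v234 := inv v233; ok v234 && (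
  let v235 := add v175 v234; ok v235 && (
  let v236 := mul v211 v235; ok v236 && (
  let v237 := cst ⟨2199023255552, 0, 0, 0⟩; ok v237 && (
  let v238 := add v165 v237; ok v238 && (
  let v239 := mul v13 v238; ok v239 && (
  let v240 := scale ⟨2199023255552, 0, 0, 0⟩ v239; ok v240 && (
  let v241 := mul v240 v240; ok v241 && (
  let v242 := mul v241 v3; ok v242 && (
  let v243 := add v242 v0; ok v243 && (
  let v244 := inv v243; ok v244 && (
  let v245 := mul v240 v244; ok v245 && (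
  let v246 := mul v12 v238; ok v246 && (
  let v247 := mul v246 v244; ok v247 && (
  let v248 := mul v245 v245; ok v248 && (
  let v249 := scale ⟨274877906944, 0, 0, 0⟩ v248; ok v249 && (
  let v250 := add v249 v0; ok v250 && (
  let v251 := mul v247 v250; ok v251 && (
  let v252 := mul v88 v88; ok v252 && (
  let v253 := neg v252; ok v253 && (
  let v254 := add v253 v0; ok v254 && (
  let v255 := scale ⟨549755813888, 0, 0, 0⟩ v254; ok v255 && (
  let v256 := add v254 v0; ok v256 && (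
  let v257 := neg v256; ok v257 && (
  let v258 := mul v255 v257; ok v258 && (
  let v259 := add v258 v0; ok v259 && (
  let v260 := mul v37 v259; ok v260 && (
  let v261 := mul v220 v252; ok v261 && (
  let v262 := mul v261 v251; ok v262 && (
  let v263 := scale ⟨549755813888, 0, 0, 0⟩ v262; ok v263 && (
  let v264 := mul v260 v175; ok v264 && (
  let v265 := scale ⟨549755813888, 0, 0, 0⟩ v264; ok v265 && (
  let v266 := mul v264 v264; ok v266 && (
  let v267 := scale ⟨97184055296, 0, 0, 0⟩ v266; ok v267 && (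
  let v268 := add v267 v228; ok v268 && (
  let v269 := add v265 v268; ok v269 && (
  let v270 := inv v269; ok v270 && (
  let v271 := mul v260 v270; ok v271 && (
  let v272 := add v271 v263; ok v272 && (
  let v273 := inv v272; ok v273 && (
  let v274 := mul v206 v48; ok v274 && (
  let v275 := mul v274 v174; ok v275 && (
  let v276 := mul v275 v88; ok v276 && (
  let v277 := mul v179 v276; ok v277 && (
  let v278 := neg v277; ok v278 && (
  let v279 := exp v278; ok v279 && (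
  let v280 := add v175 v273; ok v280 && (
  let v281 := mul v279 v280; ok v281 && (
  let v282 := sub v0 v82; ok v282 && (
  isPos 3 v282 && (
  let v283 := inv v282; ok v283 && (
  let v284 := scale ⟨549755813888, 0, 0, 0⟩ v82; ok v284 && (
  let v285 := add v0 v284; ok v285 && (
  let v286 := mul v82 v82; ok v286 && (
  let v287 := mul v286 v283; ok v287 && (
  let v288 := scale ⟨366504574976, 0, 0, 0⟩ v287; ok v288 && (
  let v289 := add v285 v288; ok v289 && (
  let v290 := mul v211 v82; ok v290 && (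
  let v291 := scale ⟨549755813888, 0, 0, 0⟩ v290; ok v291 && (
  let v292 := add v0 v291; ok v292 && (
  let v293 := mul v290 v290; ok v293 && (
  let v294 := sub v0 v290; ok v294 && (
  let v295 := inv v294; ok v295 && (
  let v296 := mul v293 v295; ok v296 && (
  let v297 := scale ⟨366504574976, 0, 0, 0⟩ v296; ok v297 && (
  let v298 := add v292 v297; ok v298 && (
  let v299 := inv v173; ok v299 && (
  let v300 := mul v130 v47; ok v300 && (
  let v301 := mul v130 v281; ok v301 && (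
  let v302 := mul v301 v299; ok v302 && (
  let v303 := add v300 v302; ok v303 && (
  let v304 := mul v82 v289; ok v304 && (
  let v305 := add v303 v304; ok v305 && (
  let v306 := mul v130 v236; ok v306 && (
  let v307 := mul v306 v299; ok v307 && (
  let v308 := mul v290 v298; ok v308 && (
  let v309 := add v307 v308; ok v309 && (
  let v310 := mul x2 v305; ok v310 && (
  let v311 := mul v310 v52; ok v311 && (
  let v312 := neg v305; ok v312 && (
  let v313 := cst ⟨1132797624320, 0, 0, 0⟩; ok v313 && (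
  let v314 := add v312 v313; ok v314 && (
  isPos 3 v314 && (
  let v315 := neg v309; ok v315 && (
  let v316 := add v315 v313; ok v316 && (
  isPos 3 v316 && (
  let v317 := scale ⟨1165482786816, 0, 0, 0⟩ v100; ok v317 && (
  let v318 := scale ⟨2199023255552, 0, 0, 0⟩ v305; ok v318 && (
  let v319 := add v318 v309; ok v319 && (
  let v320 := mul v5 v319; ok v320 && (
  let v321 := add v311 v320; ok v321 && (
  let v322 := mul v317 v321; ok v322 && (
  let v323 := mul v322 v49; ok v323 && (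
  let v324 := mul v323 v299; ok v324 && (
  let v325 := sub v0 v324; ok v325 && (
  isPos 3 v325 && (
  let v326 := scale ⟨2199023255552, 0, 0, 0⟩ v324; ok v326 && (
  let v327 := neg v326; ok v327 && (
  let v328 := add v327 v88; ok v328 && (
  let v329 := sub v160 v0; ok v329 && (
  let v330 := scale ⟨549755813888, 0, 0, 0⟩ v329; ok v330 && (
  let v331 := add v330 v0; ok v331 && (
  let v332 := cst ⟨1588869464064, 0, 0, 0⟩; ok v332 && (
  let v333 := add v131 v0; ok v333 && (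
  let v334 := mul v333 v333; ok v334 && (
  let v335 := sub v332 v334; ok v335 && (
  isPos 3 v335 && (
  let v336 := cst ⟨2694018236416, 0, 0, 0⟩; ok v336 && (
  let v337 := sub v336 v143; ok v337 && (
  let v338 := sub v337 v322; ok v338 && (
  let v339 := add v331 v131; ok v339 && (
  let v340 := add v339 v323; ok v340 && (
  let v341 := mul v340 v340; ok v341 && (
  let v342 := sub v338 v341; ok v342 && (
  isPos 3 v342 && (
  let v343 := mul v174 v328; ok v343 && (
  let v344 := scale ⟨10115506765824, 0, 0, 0⟩ v343; ok v344 && (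
  let v345 := sub v344 v336; ok v345 && (
  isPos 3 v345 && (
  let v346 := scale ⟨989560045568, 0, 0, 0⟩ v343; ok v346 && (
  let v347 := scale ⟨6601096298496, 0, 0, 0⟩ v95; ok v347 && (
  let v348 := sub v346 v347; ok v348 && (
  isPos 3 v348 && (
  isPos 3 v179 && (
  isPos 3 v171 && (
  isPos 3 v173 && (
  let v349 := mul v6 v165; ok v349 && (
  let v350 := scale ⟨2199023255552, 0, 0, 0⟩ v349; ok v350 && (
  let v351 := exp v350; ok v351 && (
  let v352 := mul v322 v351; ok v352 && (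
  let v353 := mul v12 v174; ok v353 && (
  let v354 := mul v353 v325; ok v354 && (
  let v355 := inv v354; ok v355 && (
  let v356 := mul v352 v355; ok v356 && (
  let v357 := sub v165 v356; ok v357 && (
  let v358 := cst ⟨646392578048, 0, 0, 0⟩; ok v358 && (
  let v359 := sub v357 v358; ok v359 && (
  isPos 3 v359 && (
  let v360 := sub v140 v322; ok v360 && (
  isPos 3 v360 && (
  let v361 := sub v0 v326; ok v361 && (
  let v362 := mul v174 v361; ok v362 && (
  let v363 := scale ⟨1607391510528, 0, 0, 0⟩ v362; ok v363 && (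
  let v364 := sub v363 v143; ok v364 && (
  let v365 := sub v364 v322; ok v365 && (
  isPos 3 v365 && (
  let v366 := mul v322 v48; ok v366 && (
  let v367 := add v150 v366; ok v367 && (
  let v368 := neg v367; ok v368 && (
  let v369 := scale ⟨498216206336, 0, 0, 0⟩ v6; ok v369 && (
  let v370 := add v368 v369; ok v370 && (
  let v371 := cst ⟨3518651957248, 0, 0, 0⟩; ok v371 && (
  let v372 := add v370 v371; ok v372 && (
  isPos 3 v372 && (
  let v373 := add v357 v0; ok v373 && (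
  let v374 := mul v13 v373; ok v374 && (
  let v375 := scale ⟨2199023255552, 0, 0, 0⟩ v374; ok v375 && (
  let v376 := mul v375 v375; ok v376 && (
  let v377 := mul v376 v3; ok v377 && (
  let v378 := add v377 v0; ok v378 && (
  let v379 := inv v378; ok v379 && (
  let v380 := mul v375 v379; ok v380 && (
  let v381 := mul v12 v373; ok v381 && (
  let v382 := mul v381 v379; ok v382 && (
  let v383 := mul v380 v380; ok v383 && (
  let v384 := scale ⟨274877906944, 0, 0, 0⟩ v383; ok v384 && (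
  let v385 := add v384 v0; ok v385 && (
  let v386 := mul v382 v385; ok v386 && (
  let v387 := mul v386 v48; ok v387 && (
  let v388 := mul v387 v174; ok v388 && (
  let v389 := mul v388 v328; ok v389 && (
  let v390 := mul v179 v389; ok v390 && (
  let v391 := neg v390; ok v391 && (
  let v392 := exp v391; ok v392 && (
  let v393 := add v373 v0; ok v393 && (
  let v394 := mul v13 v393; ok v394 && (
  let v395 := scale ⟨2199023255552, 0, 0, 0⟩ v394; ok v395 && (
  let v396 := mul v395 v395; ok v396 && (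
  let v397 := mul v396 v3; ok v397 && (
  let v398 := add v397 v0; ok v398 && (
  let v399 := inv v398; ok v399 && (
  let v400 := mul v395 v399; ok v400 && (
  let v401 := mul v12 v393; ok v401 && (
  let v402 := mul v401 v399; ok v402 && (
  let v403 := mul v400 v400; ok v403 && (
  let v404 := scale ⟨274877906944, 0, 0, 0⟩ v403; ok v404 && (
  let v405 := add v404 v0; ok v405 && (
  let v406 := mul v402 v405; ok v406 && (
  let v407 := mul v328 v88; ok v407 && (
  let v408 := neg v407; ok v408 && (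
  let v409 := add v408 v0; ok v409 && (
  let v410 := scale ⟨549755813888, 0, 0, 0⟩ v409; ok v410 && (
  let v411 := add v409 v0; ok v411 && (
  let v412 := neg v411; ok v412 && (
  let v413 := mul v410 v412; ok v413 && (
  let v414 := add v413 v0; ok v414 && (
  let v415 := mul v37 v414; ok v415 && (
  let v416 := mul v220 v407; ok v416 && (
  let v417 := mul v416 v406; ok v417 && (
  let v418 := scale ⟨549755813888, 0, 0, 0⟩ v417; ok v418 && (
  let v419 := mul v415 v175; ok v419 && (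
  let v420 := scale ⟨549755813888, 0, 0, 0⟩ v419; ok v420 && (
  let v421 := mul v419 v419; ok v421 && (
  let v422 := scale ⟨97184055296, 0, 0, 0⟩ v421; ok v422 && (
  let v423 := add v422 v228; ok v423 && (
  let v424 := add v420 v423; ok v424 && (
  let v425 := inv v424; ok v425 && (
  let v426 := mul v415 v425; ok v426 && (
  let v427 := add v426 v418; ok v427 && (
  let v428 := inv v427; ok v428 && (
  let v429 := add v175 v428; ok v429 && (
  let v430 := mul v392 v429; ok v430 && (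
  let v431 := mul v322 v47; ok v431 && (
  let v432 := mul v431 v430; ok v432 && (
  let v433 := mul v432 v299; ok v433 && (
  let v434 := add v366 v433; ok v434 && (
  let v435 := mul v434 v94; ok v435 && (
  let v436 := scale ⟨549755813888, 0, 0, 0⟩ v434; ok v436 && (
  let v437 := sub v0 v436; ok v437 && (
  isPos 3 v437 && (
  let v438 := inv v437; ok v438 && (
  let v439 := add v436 v0; ok v439 && (
  let v440 := mul v439 v438; ok v440 && (
  let v441 := mul v143 v49; ok v441 && (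
  let v442 := scale ⟨2199023255552, 0, 0, 0⟩ v46; ok v442 && (
  let v443 := add v441 v442; ok v443 && (
  let v444 := mul v441 v443; ok v444 && (
  let v445 := add v160 v444; ok v445 && (
  let v446 := mul v441 v441; ok v446 && (
  let v447 := add v160 v446; ok v447 && (
  let v448 := mul v49 v447; ok v448 && (
  let v449 := sub v445 v0; ok v449 && (
  let v450 := scale ⟨549755813888, 0, 0, 0⟩ v449; ok v450 && (
  let v451 := add v450 v0; ok v451 && (
  let v452 := scale ⟨285615325184, 0, 0, 0⟩ x1; ok v452 && (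
  let v453 := cst ⟨59861106688, 0, 0, 0⟩; ok v453 && (
  let v454 := add v452 v453; ok v454 && (
  let v455 := mul v435 v438; ok v455 && (
  let v456 := mul v440 v392; ok v456 && (
  let v457 := mul v456 v454; ok v457 && (
  let v458 := add v451 v448; ok v458 && (
  let v459 := add v458 v323; ok v459 && (
  let v460 := mul v457 v459; ok v460 && (
  let v461 := add v455 v460; ok v461 && (
  let v462 := neg v461; ok v462 && (
  let v463 := scale ⟨1073741824, 0, 0, 0⟩ v6; ok v463 && (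
  let v464 := sub v0 v463; ok v464 && (
  let v465 := mul v464 v92; ok v465 && (
  let v466 := add v462 v465; ok v466 && (
  isPos 3 v466 && (
  let v467 := scale ⟨3454218010624, 0, 0, 0⟩ v5; ok v467 && (
  let v468 := mul v467 v309; ok v468 && (
  let v469 := scale ⟨3454218010624, 0, 0, 0⟩ v4; ok v469 && (
  let v470 := mul v469 v74; ok v470 && (
  let v471 := add v468 v470; ok v471 && (
  let v472 := scale ⟨617925836800, 0, 0, 0⟩ v95; ok v472 && (
  let v473 := mul v98 v98; ok v473 && (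
  let v474 := scale ⟨582741917696, 0, 0, 0⟩ v473; ok v474 && (
  let v475 := add v472 v474; ok v475 && (
  let v476 := scale ⟨472790335488, 0, 0, 0⟩ v7; ok v476 && (
  let v477 := add v475 v476; ok v477 && (
  let v478 := scale ⟨3454218010624, 0, 0, 0⟩ v477; ok v478 && (
  let v479 := add v471 v478; ok v479 && (
  let v480 := mul v48 v95; ok v480 && (
  let v481 := scale ⟨175922741248, 0, 0, 0⟩ v480; ok v481 && (
  let v482 := add v479 v481; ok v482 && (
  let v483 := scale ⟨1165482786816, 0, 0, 0⟩ v98; ok v483 && (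
  let v484 := scale ⟨307864010752, 0, 0, 0⟩ v7; ok v484 && (
  let v485 := add v483 v484; ok v485 && (
  let v486 := mul v53 v485; ok v486 && (
  let v487 := add v482 v486; ok v487 && (
  let v488 := scale ⟨10851745529856, 0, 0, 0⟩ v5; ok v488 && (
  let v489 := scale ⟨615726972928, 0, 0, 0⟩ v473; ok v489 && (
  let v490 := scale ⟨329853698048, 0, 0, 0⟩ v7; ok v490 && (
  let v491 := add v489 v490; ok v491 && (
  let v492 := mul v488 v491; ok v492 && (
  let v493 := add v487 v492; ok v493 && (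
  let v494 := scale ⟨1110506995712, 0, 0, 0⟩ v493; ok v494 && (
  let v495 := add v309 v494; ok v495 && (
  let v496 := neg v495; ok v496 && (
  let v497 := cst ⟨989560045568, 0, 0, 0⟩; ok v497 && (
  let v498 := add v496 v497; ok v498 && (
  isPos 3 v498 && (
  true))))))))))))))))))))))))))))))))))))))))))))))))))))))))))))))))))))))))))))))))))))))))))))))))))))))))))))))))))))))))))))))))))))))))))))))))))))))))))))))))))))))))))))))))))))))))))))))))))))))))))))))))))))))))))))))))))))))))))))))))))))))))))))))))))))))))))))))))))))))))))))))))))))))))))))))))))))))))))))))))))))))))))))))))))))))))))))))))))))))))))))))))))))))))))))))))))))))))))))))))))))))))))))))))))))))))))))))))))))))))))))))))))))))))))))))))))))))))))))))))))))))))))))))))))))))))))))))))))))))))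
  | _ => false

set_option maxRecDepth 1000000 in
theorem chk1_eq (O : Ops) (m : List O.α)
    (h : chk1 O.cst O.add O.sub O.mul O.scale O.neg O.inv O.exp O.log O.ok O.isPos O.isLt m = true) :
    runG O 3 prog1 m = true := by
  match m, h with
  | [x0, x1, x2], h => exact h

def chkB1 : List opsE.α → Bool :=
  chk1 opsE.cst opsE.add opsE.sub opsE.mul opsE.scale opsE.neg opsE.inv opsE.exp opsE.log opsE.ok opsE.isPos opsE.isLt

theorem chkB1_eq (m : List opsE.α) (h : chkB1 m = true) : runG opsE 3 prog1 m = true :=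
  chk1_eq opsE m h

def prog2 : List Op := [
  .mul 0 1,
  .const ⟨77763444736, 0, 0, 0⟩,
  .sub 1 0,
  .pos 0]

def chk2 {α : Type} (cst : Z → α) (add sub mul : α → α → α) (scale : Z → α → α)
    (neg inv exp log : α → α) (ok : α → Bool) (isPos : Nat → α → Bool) (isLt : α → Nat → Bool) :
    List α → Bool
  | [x0, x1, x2] =>
  let v0 := mul x0 x1; ok v0 && (
  let v1 := cst ⟨77763444736, 0, 0, 0⟩; ok v1 && (
  let v2 := sub v0 v1; ok v2 && (
  isPos 3 v2 && (
  true))))
  | _ => false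

set_option maxRecDepth 1000000 in
theorem chk2_eq (O : Ops) (m : List O.α)
    (h : chk2 O.cst O.add O.sub O.mul O.scale O.neg O.inv O.exp O.log O.ok O.isPos O.isLt m = true) :
    runG O 3 prog2 m = true := by
  match m, h with
  | [x0, x1, x2], h => exact h

def chkB2 : List opsE.α → Bool :=
  chk2 opsE.cst opsE.add opsE.sub opsE.mul opsE.scale opsE.neg opsE.inv opsE.exp opsE.log opsE.ok opsE.isPos opsE.isLt

theorem chkB2_eq (m : List opsE.α) (h : chkB2 m = true) : runG opsE 3 prog2 m = true :=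
  chk2_eq opsE m h

def prog3 : List Op := [
  .mul 0 0,
  .mul 1 2,
  .scale ⟨1924145348608, 0, 0, 0⟩ 0,
  .sub 2 0,
  .const ⟨1524363165696, 0, 0, 0⟩,
  .sub 1 0,
  .pos 0]

def chk3 {α : Type} (cst : Z → α) (add sub mul : α → α → α) (scale : Z → α → α)
    (neg inv exp log : α → α) (ok : α → Bool) (isPos : Nat → α → Bool) (isLt : α → Nat → Bool) :
    List α → Bool
  | [x0, x1, x2] =>
  let v0 := mul x0 x0; ok v0 && (
  let v1 := mul x0 x1; ok v1 && (
  let v2 := scale ⟨1924145348608, 0, 0, 0⟩ v1; ok v2 && (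
  let v3 := sub v0 v2; ok v3 && (
  let v4 := cst ⟨1524363165696, 0, 0, 0⟩; ok v4 && (
  let v5 := sub v3 v4; ok v5 && (
  isPos 3 v5 && (
  true)))))))
  | _ => false

set_option maxRecDepth 1000000 in
theorem chk3_eq (O : Ops) (m : List O.α)
    (h : chk3 O.cst O.add O.sub O.mul O.scale O.neg O.inv O.exp O.log O.ok O.isPos O.isLt m = true) :
    runG O 3 prog3 m = true := by
  match m, h with
  | [x0, x1, x2], h => exact h

def chkB3 : List opsE.α → Bool :=
  chk3 opsE.cst opsE.add opsE.sub opsE.mul opsE.scale opsE.neg opsE.inv opsE.exp opsE.log opsE.ok opsE.isPos opsE.isLt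

theorem chkB3_eq (m : List opsE.α) (h : chkB3 m = true) : runG opsE 3 prog3 m = true :=
  chk3_eq opsE m h

def progs : List (List Op) := [prog0, prog1, prog2, prog3]

def chks : List (List opsE.α → Bool) := [chkB0, chkB1, chkB2, chkB3]

theorem chks_eq : List.Forall₂ (fun (ops : List Op) (chk : List opsE.α → Bool) =>
    ∀ m, chk m = true → runG opsE 3 ops m = true) progs chks :=
  List.Forall₂.cons chkB0_eq (List.Forall₂.cons chkB1_eq (List.Forall₂.cons chkB2_eq (List.Forall₂.cons chkB3_eq List.Forall₂.nil)))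

end Pool.Agent.helper31.EQB.Cert.TB
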