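import Pool.Agent.helper31.EQB.Cert.TBP

/-!
Generated certificates.
-/

namespace Pool.Agent.helper31.EQB.Cert.TB

open Pool.Agent.helper31.IA (Z Op)
open Pool.Agent.helper31.IC

mutual
theorem c0_m0 : CovD 0 progs [(343597383680, 343597383680), (54975594496, 54975594496), (3454217682944, 65536)] :=
  Pool.Agent.helper14.QF.covD_F chks_eq (.n 1 (.n 1 (.n 0 (.n 0 (.n 1 (.l 0) (.l 0)) (.n 1 (.n 1 (.l 0) (.l 0)) (.l 0))) (.n 0 (.n 1 (.n 1 (.l 0) (.l 0)) (.l 0)) (.n 1 (.n 1 (.n 0 (.l 0) (.l 0)) (.l 0)) (.l 0)))) (.n 0 (.n 0 (.l 0) (.n 0 (.l 0) (.l 0))) (.n 0 (.l 0) (.l 0)))) (.n 0 (.n 0 (.l 0) (.n 0 (.l 0) (.l 0))) (.n 0 (.n 0 (.l 0) (.l 0)) (.l 0))))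
    [(343597383680, 343597383680), (54975594496, 54975594496), (3454217682944, 65536)] rfl (by decide +kernel)
theorem c1_m0_t0 : CovD 0 progs [(343597383680, 343597383680), (137438953472, 27487830016), (3454217682944, 65536)] :=
  Pool.Agent.helper14.QF.covD_F chks_eq (.n 0 (.l 0) (.n 0 (.l 0) (.n 1 (.l 0) (.n 0 (.n 0 (.l 0) (.n 1 (.l 0) (.n 1 (.l 0) (.l 2)))) (.n 0 (.n 1 (.n 1 (.l 0) (.l 2)) (.l 2)) (.l 2))))))
    [(343597383680, 343597383680), (137438953472, 27487830016), (3454217682944, 65536)] rfl (by decide +kernel)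
end
mutual
theorem c1_m0_t1 : CovD 0 progs [(171798691840, 171798691840), (192414613504, 27487830016), (3454217682944, 65536)] :=
  Pool.Agent.helper14.QF.covD_F chks_eq (.n 0 (.l 0) (.l 0))
    [(171798691840, 171798691840), (192414613504, 27487830016), (3454217682944, 65536)] rfl (by decide +kernel)
theorem c1_m0_t2 : CovD 0 progs [(386547056640, 42949672960), (192414613504, 27487830016), (3454217682944, 65536)] :=
  Pool.Agent.helper14.QF.covD_F chks_eq (.n 0 (.l 0) (.n 0 (.n 0 (.l 0) (.n 0 (.n 1 (.l 0) (.l 0)) (.n 1 (.l 0) (.n 1 (.l 0) (.n 1 (.l 0) (.l 2)))))) (.n 0 (.n 1 (.l 0) (.n 1 (.l 0) (.n 1 (.l 0) (.l 2)))) (.n 1 (.l 0) (.n 1 (.l 0) (.l 2))))))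
    [(386547056640, 42949672960), (192414613504, 27487830016), (3454217682944, 65536)] rfl (by decide +kernel)
end
mutual
theorem c1_m0_t3 : CovD 0 progs [(472446402560, 42949672960), (192414613504, 27487830016), (3454217682944, 65536)] :=
  Pool.Agent.helper14.QF.covD_F chks_eq (.n 0 (.n 0 (.n 1 (.l 0) (.n 1 (.n 1 (.l 0) (.l 2)) (.l 2))) (.n 1 (.l 0) (.l 2))) (.n 0 (.n 1 (.n 0 (.l 0) (.n 1 (.l 0) (.l 2))) (.l 2)) (.n 1 (.n 1 (.l 0) (.l 2)) (.l 2))))
    [(472446402560, 42949672960), (192414613504, 27487830016), (3454217682944, 65536)] rfl (by decide +kernel)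
theorem c1_m0_t5 : CovD 0 progs [(601295421440, 85899345920), (192414613504, 27487830016), (3454217682944, 65536)] :=
  Pool.Agent.helper14.QF.covD_F chks_eq (.n 0 (.n 0 (.n 0 (.n 0 (.n 1 (.n 1 (.l 0) (.l 2)) (.l 2)) (.l 2)) (.l 2)) (.l 2)) (.l 2))
    [(601295421440, 85899345920), (192414613504, 27487830016), (3454217682944, 65536)] rfl (by decide +kernel)
end
mutual
theorem c2_m0_t0 : CovD 0 progs [(858993459200, 171798691840), (54975594496, 54975594496), (3454217682944, 65536)] :=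
  Pool.Agent.helper14.QF.covD_F chks_eq (.n 1 (.n 1 (.n 1 (.n 1 (.n 1 (.n 0 (.l 0) (.l 0)) (.l 0)) (.l 0)) (.l 0)) (.n 0 (.l 0) (.l 0))) (.n 1 (.l 0) (.n 0 (.l 0) (.n 0 (.n 1 (.l 0) (.n 0 (.n 1 (.l 0) (.l 2)) (.l 2))) (.n 1 (.n 1 (.l 0) (.n 1 (.n 0 (.l 0) (.l 2)) (.l 2))) (.l 2))))))
    [(858993459200, 171798691840), (54975594496, 54975594496), (3454217682944, 65536)] rfl (by decide +kernel)
theorem c2_m0_t1 : CovD 0 progs [(1202590842880, 171798691840), (27487797248, 27487797248), (3454217682944, 65536)] :=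
  Pool.Agent.helper14.QF.covD_F chks_eq (.n 1 (.n 1 (.n 1 (.n 1 (.n 1 (.l 0) (.l 0)) (.l 0)) (.l 0)) (.l 0)) (.l 0))
    [(1202590842880, 171798691840), (27487797248, 27487797248), (3454217682944, 65536)] rfl (by decide +kernel)
end
mutual
theorem c2_m0_t2 : CovD 0 progs [(1116691496960, 85899345920), (82463391744, 27487797248), (3454217650176, 32768)] :=
  Pool.Agent.helper14.QF.covD_F chks_eq (.n 0 (.n 1 (.l 1) (.n 0 (.n 1 (.n 1 (.n 1 (.l 0) (.l 2)) (.l 2)) (.l 2)) (.l 2))) (.n 1 (.n 1 (.l 0) (.n 1 (.l 1) (.n 0 (.n 1 (.l 1) (.l 2)) (.l 2)))) (.l 2)))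
    [(1116691496960, 85899345920), (82463391744, 27487797248), (3454217650176, 32768)] rfl (by decide +kernel)
theorem c2_m0_t3 : CovD 0 progs [(1245540515840, 42949672960), (82463391744, 27487797248), (3454217650176, 32768)] :=
  Pool.Agent.helper14.QF.covD_F chks_eq (.n 1 (.n 1 (.n 0 (.l 0) (.n 0 (.l 1) (.n 0 (.l 1) (.n 1 (.l 0) (.n 1 (.l 1) (.n 1 (.l 1) (.l 2))))))) (.n 1 (.n 1 (.n 1 (.n 0 (.l 1) (.l 2)) (.n 0 (.n 0 (.l 1) (.l 2)) (.l 2))) (.l 2)) (.l 2))) (.l 2))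
    [(1245540515840, 42949672960), (82463391744, 27487797248), (3454217650176, 32768)] rfl (by decide +kernel)
end
mutual
theorem c2_m0_t4 : CovD 0 progs [(1309965025280, 21474836480), (82463391744, 27487797248), (3454217650176, 32768)] :=
  Pool.Agent.helper14.QF.covD_F chks_eq (.n 1 (.n 1 (.n 1 (.l 1) (.n 0 (.n 1 (.l 1) (.n 1 (.n 1 (.l 1) (.n 0 (.l 1) (.l 2))) (.l 2))) (.n 0 (.n 0 (.n 1 (.l 1) (.l 2)) (.n 1 (.l 1) (.l 2))) (.n 0 (.n 1 (.l 1) (.l 2)) (.n 1 (.n 1 (.l 1) (.n 1 (.l 1) (.n 1 (.l 1) (.l 2)))) (.l 2)))))) (.l 2)) (.l 2))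
    [(1309965025280, 21474836480), (82463391744, 27487797248), (3454217650176, 32768)] rfl (by decide +kernel)
theorem c2_m0_t5 : CovD 0 progs [(1342177280000, 10737418240), (68719493120, 13743898624), (3454217650176, 32768)] :=
  Pool.Agent.helper14.QF.covD_F chks_eq (.n 1 (.n 1 (.l 1) (.n 1 (.n 0 (.n 1 (.l 1) (.n 1 (.n 1 (.l 1) (.n 0 (.l 1) (.l 2))) (.l 2))) (.n 0 (.n 1 (.l 1) (.n 1 (.n 1 (.n 1 (.n 1 (.l 1) (.n 0 (.l 1) (.l 2))) (.l 2)) (.l 2)) (.l 2))) (.n 1 (.n 1 (.l 1) (.n 1 (.l 1) (.n 1 (.n 0 (.l 1) (.n 0 (.l 1) (.l 3))) (.n 1 (.n 0 (.l 1) (.l 2)) (.l 2))))) (.l 2)))) (.l 2))) (.l 2))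
    [(1342177280000, 10737418240), (68719493120, 13743898624), (3454217650176, 32768)] rfl (by decide +kernel)
end
mutual
theorem c2_m0_t6 : CovD 0 progs [(1342177280000, 10737418240), (96207290368, 13743898624), (3454217650176, 32768)] :=
  Pool.Agent.helper14.QF.covD_F chks_eq (.l 2)
    [(1342177280000, 10737418240), (96207290368, 13743898624), (3454217650176, 32768)] rfl (by decide +kernel)
theorem c2_m0_t8 : CovD 0 progs [(1363652116480, 10737418240), (82463391744, 27487797248), (3454217650176, 32768)] :=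
  Pool.Agent.helper14.QF.covD_F chks_eq (.n 1 (.n 1 (.n 1 (.l 3) (.n 1 (.n 1 (.l 3) (.l 2)) (.l 2))) (.l 2)) (.l 2))
    [(1363652116480, 10737418240), (82463391744, 27487797248), (3454217650176, 32768)] rfl (by decide +kernel)
end
mutual
theorem c2_m0_t13 : CovD 0 progs [(1116691496960, 85899345920), (82463391744, 27487797248), (3454217715712, 32768)] :=
  Pool.Agent.helper14.QF.covD_F chks_eq (.n 0 (.n 1 (.l 1) (.n 0 (.n 1 (.n 1 (.n 1 (.l 0) (.l 2)) (.l 2)) (.l 2)) (.l 2))) (.n 1 (.n 1 (.l 0) (.n 1 (.l 1) (.n 0 (.n 1 (.l 1) (.l 2)) (.l 2)))) (.l 2)))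
    [(1116691496960, 85899345920), (82463391744, 27487797248), (3454217715712, 32768)] rfl (by decide +kernel)
theorem c2_m0_t14 : CovD 0 progs [(1245540515840, 42949672960), (82463391744, 27487797248), (3454217715712, 32768)] :=
  Pool.Agent.helper14.QF.covD_F chks_eq (.n 1 (.n 1 (.n 0 (.l 0) (.n 0 (.l 1) (.n 0 (.l 1) (.n 1 (.l 0) (.n 1 (.l 1) (.n 1 (.l 1) (.l 2))))))) (.n 1 (.n 1 (.n 1 (.n 0 (.l 1) (.l 2)) (.n 0 (.n 0 (.l 1) (.l 2)) (.l 2))) (.l 2)) (.l 2))) (.l 2))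
    [(1245540515840, 42949672960), (82463391744, 27487797248), (3454217715712, 32768)] rfl (by decide +kernel)
end
mutual
theorem c2_m0_t15 : CovD 0 progs [(1309965025280, 21474836480), (82463391744, 27487797248), (3454217715712, 32768)] :=
  Pool.Agent.helper14.QF.covD_F chks_eq (.n 1 (.n 1 (.n 1 (.l 1) (.n 0 (.n 1 (.l 1) (.n 1 (.n 1 (.l 1) (.n 0 (.l 1) (.l 2))) (.l 2))) (.n 0 (.n 0 (.n 1 (.l 1) (.l 2)) (.n 1 (.l 1) (.l 2))) (.n 0 (.n 1 (.l 1) (.l 2)) (.n 1 (.n 1 (.l 1) (.n 1 (.l 1) (.n 1 (.l 1) (.l 2)))) (.l 2)))))) (.l 2)) (.l 2))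
    [(1309965025280, 21474836480), (82463391744, 27487797248), (3454217715712, 32768)] rfl (by decide +kernel)
theorem c2_m0_t16 : CovD 0 progs [(1342177280000, 10737418240), (68719493120, 13743898624), (3454217715712, 32768)] :=
  Pool.Agent.helper14.QF.covD_F chks_eq (.n 1 (.n 1 (.l 1) (.n 1 (.n 0 (.n 1 (.l 1) (.n 1 (.n 1 (.l 1) (.n 0 (.l 1) (.l 2))) (.l 2))) (.n 0 (.n 1 (.l 1) (.n 1 (.n 1 (.n 1 (.n 1 (.l 1) (.n 0 (.l 1) (.l 2))) (.l 2)) (.l 2)) (.l 2))) (.n 1 (.n 1 (.l 1) (.n 1 (.l 1) (.n 1 (.n 0 (.l 1) (.n 0 (.l 1) (.l 3))) (.n 1 (.n 0 (.l 1) (.l 2)) (.l 2))))) (.l 2)))) (.l 2))) (.l 2))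
    [(1342177280000, 10737418240), (68719493120, 13743898624), (3454217715712, 32768)] rfl (by decide +kernel)
end
mutual
theorem c2_m0_t17 : CovD 0 progs [(1342177280000, 10737418240), (96207290368, 13743898624), (3454217715712, 32768)] :=
  Pool.Agent.helper14.QF.covD_F chks_eq (.l 2)
    [(1342177280000, 10737418240), (96207290368, 13743898624), (3454217715712, 32768)] rfl (by decide +kernel)
theorem c2_m0_t19 : CovD 0 progs [(1363652116480, 10737418240), (82463391744, 27487797248), (3454217715712, 32768)] :=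
  Pool.Agent.helper14.QF.covD_F chks_eq (.n 1 (.n 1 (.n 1 (.l 3) (.n 1 (.n 1 (.l 3) (.l 2)) (.l 2))) (.l 2)) (.l 2))
    [(1363652116480, 10737418240), (82463391744, 27487797248), (3454217715712, 32768)] rfl (by decide +kernel)
theorem c3_m0 : CovD 0 progs [(1030792151040, 343597383680), (164926783488, 54975660032), (3454217682944, 65536)] :=
  Pool.Agent.helper14.QF.covD_F chks_eq (.n 0 (.n 1 (.n 0 (.n 1 (.n 0 (.n 1 (.l 0) (.n 0 (.n 1 (.l 0) (.l 2)) (.l 2))) (.n 0 (.n 1 (.n 1 (.l 0) (.l 2)) (.l 2)) (.l 2))) (.l 2)) (.l 2)) (.l 2)) (.l 2))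
    [(1030792151040, 343597383680), (164926783488, 54975660032), (3454217682944, 65536)] rfl (by decide +kernel)
end

theorem c1_m0_t4 : CovD 0 progs [(429496729600, 85899345920), (192414613504, 27487830016), (3454217682944, 65536)] :=
  covD_split 0 (by decide +kernel) c1_m0_t2 c1_m0_t3
theorem c1_m0_t6 : CovD 0 progs [(515396075520, 171798691840), (192414613504, 27487830016), (3454217682944, 65536)] :=
  covD_split 0 (by decide +kernel) c1_m0_t4 c1_m0_t5
theorem c1_m0_t7 : CovD 0 progs [(343597383680, 343597383680), (192414613504, 27487830016), (3454217682944, 65536)] :=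
  covD_split 0 (by decide +kernel) c1_m0_t1 c1_m0_t6
theorem c1_m0 : CovD 0 progs [(343597383680, 343597383680), (164926783488, 54975660032), (3454217682944, 65536)] :=
  covD_split 1 (by decide +kernel) c1_m0_t0 c1_m0_t7
theorem c2_m0_t7 : CovD 0 progs [(1342177280000, 10737418240), (82463391744, 27487797248), (3454217650176, 32768)] :=
  covD_split 1 (by decide +kernel) c2_m0_t5 c2_m0_t6
theorem c2_m0_t9 : CovD 0 progs [(1352914698240, 21474836480), (82463391744, 27487797248), (3454217650176, 32768)] :=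
  covD_split 0 (by decide +kernel) c2_m0_t7 c2_m0_t8
theorem c2_m0_t10 : CovD 0 progs [(1331439861760, 42949672960), (82463391744, 27487797248), (3454217650176, 32768)] :=
  covD_split 0 (by decide +kernel) c2_m0_t4 c2_m0_t9
theorem c2_m0_t11 : CovD 0 progs [(1288490188800, 85899345920), (82463391744, 27487797248), (3454217650176, 32768)] :=
  covD_split 0 (by decide +kernel) c2_m0_t3 c2_m0_t10
theorem c2_m0_t12 : CovD 0 progs [(1202590842880, 171798691840), (82463391744, 27487797248), (3454217650176, 32768)] :=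
  covD_split 0 (by decide +kernel) c2_m0_t2 c2_m0_t11
theorem c2_m0_t18 : CovD 0 progs [(1342177280000, 10737418240), (82463391744, 27487797248), (3454217715712, 32768)] :=
  covD_split 1 (by decide +kernel) c2_m0_t16 c2_m0_t17
theorem c2_m0_t20 : CovD 0 progs [(1352914698240, 21474836480), (82463391744, 27487797248), (3454217715712, 32768)] :=
  covD_split 0 (by decide +kernel) c2_m0_t18 c2_m0_t19
theorem c2_m0_t21 : CovD 0 progs [(1331439861760, 42949672960), (82463391744, 27487797248), (3454217715712, 32768)] :=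
  covD_split 0 (by decide +kernel) c2_m0_t15 c2_m0_t20
theorem c2_m0_t22 : CovD 0 progs [(1288490188800, 85899345920), (82463391744, 27487797248), (3454217715712, 32768)] :=
  covD_split 0 (by decide +kernel) c2_m0_t14 c2_m0_t21
theorem c2_m0_t23 : CovD 0 progs [(1202590842880, 171798691840), (82463391744, 27487797248), (3454217715712, 32768)] :=
  covD_split 0 (by decide +kernel) c2_m0_t13 c2_m0_t22
theorem c2_m0_t24 : CovD 0 progs [(1202590842880, 171798691840), (82463391744, 27487797248), (3454217682944, 65536)] :=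
  covD_split 2 (by decide +kernel) c2_m0_t12 c2_m0_t23
theorem c2_m0_t25 : CovD 0 progs [(1202590842880, 171798691840), (54975594496, 54975594496), (3454217682944, 65536)] :=
  covD_split 1 (by decide +kernel) c2_m0_t1 c2_m0_t24
theorem c2_m0 : CovD 0 progs [(1030792151040, 343597383680), (54975594496, 54975594496), (3454217682944, 65536)] :=
  covD_split 0 (by decide +kernel) c2_m0_t0 c2_m0_t25

end Pool.Agent.helper31.EQB.Cert.TB
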